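import Mathlib

set_option autoImplicit false

/-!
Common definitions for the decomposition of dense regular graphs into bipartite 2-factors.
`V` is the vertex set of the host graph, `W` the set of colours (one per 2-factor), `Λ` the
vertex set of the 2-regular graph `F`.  A slot is a pair (vertex, colour).
-/

open Finset
open scoped Classical

noncomputable section

namespace Pool.Agent.Lib.MP_34bdde_co

/-- Number of elements of a finite type with a property (instance free). -/
def cnt {I : Type} [Fintype I] (p : I → Prop) : ℕ := (univ.filter p).card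

/-- Total weight of the elements of a finite type with a property (instance free). -/
def wsum {I : Type} [Fintype I] (p : I → Prop) (wt : I → ℕ) : ℕ := ∑ i ∈ univ.filter p, wt i

lemma cnt_def {I : Type} [Fintype I] (p : I → Prop) [DecidablePred p] :
    cnt p = (univ.filter p).card := by
  unfold cnt
  congr 1
  ext i
  simp

lemma wsum_def {I : Type} [Fintype I] (p : I → Prop) [DecidablePred p] (wt : I → ℕ) :
    wsum p wt = ∑ i ∈ univ.filter p, wt i := by
  unfold wsum
  refine Finset.sum_congr ?_ fun _ _ => rfl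
  ext i
  simp

lemma cnt_eq_sum {I : Type} [Fintype I] (p : I → Prop) [DecidablePred p] :
    cnt p = ∑ i, if p i then 1 else 0 := by
  rw [cnt_def, Finset.card_filter]

lemma cnt_le_card {I : Type} [Fintype I] (p : I → Prop) : cnt p ≤ Fintype.card I :=
  Finset.card_le_univ _

lemma cnt_mono {I : Type} [Fintype I] {p q : I → Prop} (h : ∀ i, p i → q i) : cnt p ≤ cnt q :=
  Finset.card_le_card fun i hi => by
    simp only [Finset.mem_filter, Finset.mem_univ, true_and] at hi ⊢
    exact h i hi

lemma cnt_or_le {I : Type} [Fintype I] (p q : I → Prop) :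
    cnt (fun i => p i ∨ q i) ≤ cnt p + cnt q := by
  rw [cnt_def, cnt_def p, cnt_def q, Finset.filter_or]
  exact Finset.card_union_le _ _

lemma cnt_le_wsum {I : Type} [Fintype I] (p : I → Prop) (wt : I → ℕ) :
    cnt p ≤ wsum p fun i => wt i + 1 := by
  unfold cnt wsum
  rw [Finset.card_eq_sum_ones]
  exact Finset.sum_le_sum fun i _ => Nat.le_add_left _ _

/-- An injective map from the elements with `p` to the elements with `q`. -/
lemma cnt_le_of_injOn {I J : Type} [Fintype I] [Fintype J] {p : I → Prop} {q : J → Prop}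
    (g : I → J) (hg : ∀ i, p i → q (g i)) (hinj : ∀ i i', p i → p i' → g i = g i' → i = i') :
    cnt p ≤ cnt q := by
  unfold cnt
  refine Finset.card_le_card_of_injOn g (fun i hi => ?_) (fun i hi i' hi' h => ?_)
  · simp only [Finset.coe_filter, Finset.mem_univ, true_and, Set.mem_ofPred_eq] at hi ⊢
    exact hg i hi
  · simp only [Finset.coe_filter, Finset.mem_univ, true_and, Set.mem_ofPred_eq] at hi hi'
    exact hinj i i' hi hi' h

/-- Counting along the fibres of a map. -/
lemma card_eq_sum_cnt {I V : Type} [Fintype I] [Fintype V] (g : I → V) :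
    Fintype.card I = ∑ v, cnt fun i => g i = v := by
  unfold cnt
  rw [← Finset.card_univ]
  exact Finset.card_eq_sum_card_fiberwise fun _ _ => Finset.mem_coe.mpr (Finset.mem_univ _)

lemma card_le_of_load {I V : Type} [Fintype I] [Fintype V] (g : I → V) {b : ℝ}
    (h : ∀ v, ((cnt fun i => g i = v : ℕ) : ℝ) ≤ b) :
    (Fintype.card I : ℝ) ≤ Fintype.card V * b := by
  rw [card_eq_sum_cnt g]
  push_cast
  calc ∑ v, ((cnt fun i => g i = v : ℕ) : ℝ) ≤ ∑ _v : V, b := Finset.sum_le_sum fun v _ => h v
    _ = _ := by simp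

variable {V W Λ : Type}

/-- The multiset of endpoints of a multiset of edges; `(bd M).count v` is the degree of `v`. -/
def bd (M : Multiset (Sym2 V)) : Multiset V := M.bind Sym2.toMultiset

@[simp] lemma bd_zero : bd (0 : Multiset (Sym2 V)) = 0 := rfl

@[simp] lemma bd_add (M N : Multiset (Sym2 V)) : bd (M + N) = bd M + bd N :=
  Multiset.add_bind _ _ _

@[simp] lemma bd_cons (a b : V) (M : Multiset (Sym2 V)) :
    bd (s(a, b) ::ₘ M) = a ::ₘ b ::ₘ bd M := by
  unfold bd
  rw [Multiset.cons_bind]
  show ({a, b} : Multiset V) + _ = _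
  rw [Multiset.insert_eq_cons, Multiset.cons_add, Multiset.singleton_add]

@[simp] lemma bd_single (a b : V) : bd ({s(a, b)} : Multiset (Sym2 V)) = {a, b} := by
  unfold bd
  rw [Multiset.singleton_bind]
  rfl

lemma bd_sum {I : Type} (s : Finset I) (M : I → Multiset (Sym2 V)) :
    bd (∑ i ∈ s, M i) = ∑ i ∈ s, bd (M i) := by
  induction s using Finset.induction_on with
  | empty => simp
  | insert a s ha ih => rw [Finset.sum_insert ha, Finset.sum_insert ha, bd_add, ih]

lemma bd_le {M N : Multiset (Sym2 V)} (h : M ≤ N) : bd M ≤ bd N := by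
  obtain ⟨K, rfl⟩ := Multiset.le_iff_exists_add.mp h
  rw [bd_add]
  exact Multiset.le_add_right _ _

/-- A hole in colour `w`: the two frame vertices `a`, `c` are to be joined by a path through one
filler vertex (`dbl = false`) or two filler vertices (`dbl = true`). -/
structure Hole (V W : Type) where
  w : W
  a : V
  c : V
  dbl : Bool

/-- The two slots taken by the frame of a hole. -/
def Hole.frame (h : Hole V W) : Multiset (V × W) := {(h.a, h.w), (h.c, h.w)}

/-- The colour of a hole, once per filler. -/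
def Hole.inner (h : Hole V W) : Multiset W := if h.dbl then {h.w, h.w} else {h.w}

/-- Slots of the fillers of a filled hole (the second vertex is ignored for a single hole). -/
def fillSlots (t : Hole V W × V × V) : Multiset (V × W) :=
  if t.1.dbl then {(t.2.1, t.1.w), (t.2.2, t.1.w)} else {(t.2.1, t.1.w)}

/-- Edges created by filling a hole. -/
def fillEdges (t : Hole V W × V × V) : Multiset (Sym2 V) :=
  if t.1.dbl then {s(t.1.a, t.2.1), s(t.2.1, t.2.2), s(t.2.2, t.1.c)}
  else {s(t.1.a, t.2.1), s(t.2.1, t.1.c)}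

/-- The holes `O` can be filled using exactly the slots `Φ`, creating exactly the edges `M`. -/
def Rz (O : Multiset (Hole V W)) (Φ : Multiset (V × W)) (M : Multiset (Sym2 V)) : Prop :=
  ∃ fl : Multiset (Hole V W × V × V),
    fl.map Prod.fst = O ∧ fl.bind fillSlots = Φ ∧ fl.bind fillEdges = M

/-- All slots taken by a system of holes and fillers. -/
def slots (O : Multiset (Hole V W)) (Φ : Multiset (V × W)) : Multiset (V × W) :=
  O.bind Hole.frame + Φ

/-- The degrees created by any filling of the system. -/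
def sysDeg (O : Multiset (Hole V W)) (Φ : Multiset (V × W)) : Multiset V :=
  (O.bind Hole.frame).map Prod.fst + 2 • Φ.map Prod.fst

lemma slots_add (O O' : Multiset (Hole V W)) (Φ Φ' : Multiset (V × W)) :
    slots (O + O') (Φ + Φ') = slots O Φ + slots O' Φ' := by
  unfold slots
  rw [Multiset.add_bind]
  abel

lemma sysDeg_add (O O' : Multiset (Hole V W)) (Φ Φ' : Multiset (V × W)) :
    sysDeg (O + O') (Φ + Φ') = sysDeg O Φ + sysDeg O' Φ' := by
  unfold sysDeg
  rw [Multiset.add_bind, Multiset.map_add, Multiset.map_add, smul_add]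
  abel

lemma Rz.zero : Rz (0 : Multiset (Hole V W)) 0 0 := ⟨0, rfl, rfl, rfl⟩

lemma Rz.add {O O' : Multiset (Hole V W)} {Φ Φ' : Multiset (V × W)} {M M' : Multiset (Sym2 V)}
    (h : Rz O Φ M) (h' : Rz O' Φ' M') : Rz (O + O') (Φ + Φ') (M + M') := by
  obtain ⟨fl, rfl, rfl, rfl⟩ := h
  obtain ⟨fl', rfl, rfl, rfl⟩ := h'
  exact ⟨fl + fl', Multiset.map_add _ _ _, Multiset.add_bind _ _ _, Multiset.add_bind _ _ _⟩

lemma Rz.sum {I : Type} (s : Finset I) {O : I → Multiset (Hole V W)}
    {Φ : I → Multiset (V × W)} {M : I → Multiset (Sym2 V)}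
    (h : ∀ i ∈ s, Rz (O i) (Φ i) (M i)) :
    Rz (∑ i ∈ s, O i) (∑ i ∈ s, Φ i) (∑ i ∈ s, M i) := by
  induction s using Finset.induction_on with
  | empty => simpa using Rz.zero
  | insert a s ha ih =>
    rw [Finset.sum_insert ha, Finset.sum_insert ha, Finset.sum_insert ha]
    exact (h a (Finset.mem_insert_self _ _)).add
      (ih fun i hi => h i (Finset.mem_insert_of_mem hi))

lemma Rz.single (w : W) (a c y : V) :
    Rz {(⟨w, a, c, false⟩ : Hole V W)} {(y, w)} {s(a, y), s(y, c)} :=
  ⟨{(⟨w, a, c, false⟩, y, y)}, by simp, by simp [fillSlots], by simp [fillEdges]⟩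

lemma Rz.double (w : W) (a c y y' : V) :
    Rz {(⟨w, a, c, true⟩ : Hole V W)} {(y, w), (y', w)} {s(a, y), s(y, y'), s(y', c)} :=
  ⟨{(⟨w, a, c, true⟩, y, y')}, by simp, by simp [fillSlots], by simp [fillEdges]⟩

lemma Rz.deg {O : Multiset (Hole V W)} {Φ : Multiset (V × W)} {M : Multiset (Sym2 V)}
    (h : Rz O Φ M) : bd M = sysDeg O Φ := by
  obtain ⟨fl, rfl, rfl, rfl⟩ := h
  induction fl using Multiset.induction_on with
  | empty => simp [sysDeg]
  | cons t fl ih =>
    rw [Multiset.cons_bind, Multiset.cons_bind, Multiset.map_cons, bd_add, ih,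
      ← Multiset.singleton_add, sysDeg_add]
    congr 1
    obtain ⟨⟨w, a, c, b⟩, y, y'⟩ := t
    cases b
    · simp only [fillEdges, fillSlots, sysDeg, Hole.frame, Bool.false_eq_true, if_false,
        Multiset.insert_eq_cons, bd_cons, bd_single, Multiset.singleton_bind, Multiset.map_cons,
        Multiset.map_singleton, two_smul]
      simp only [← Multiset.singleton_add]
      abel
    · simp only [fillEdges, fillSlots, sysDeg, Hole.frame, if_true,
        Multiset.insert_eq_cons, bd_cons, bd_single, Multiset.singleton_bind, Multiset.map_cons,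
        Multiset.map_singleton, two_smul]
      simp only [← Multiset.singleton_add]
      abel

lemma Rz.bal {O : Multiset (Hole V W)} {Φ : Multiset (V × W)} {M : Multiset (Sym2 V)}
    (h : Rz O Φ M) : O.bind Hole.inner = Φ.map Prod.snd := by
  obtain ⟨fl, rfl, rfl, rfl⟩ := h
  induction fl using Multiset.induction_on with
  | empty => simp
  | cons t fl ih =>
    rw [Multiset.cons_bind, Multiset.map_cons, Multiset.cons_bind, Multiset.map_add, ih]
    congr 1
    obtain ⟨⟨w, a, c, b⟩, y, y'⟩ := t
    cases b <;> simp [fillSlots, Hole.inner]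

/-- Used edges `UE` and used slots `US` have no repetition and load at most `η n` on every
vertex and every colour. -/
structure Ok [Fintype V] (η : ℝ) (UE : Multiset (Sym2 V)) (US : Multiset (V × W)) : Prop where
  ne : UE.Nodup
  ns : US.Nodup
  le : ∀ v, (((bd UE).count v : ℕ) : ℝ) ≤ η * Fintype.card V
  lv : ∀ v, (((US.map Prod.fst).count v : ℕ) : ℝ) ≤ η * Fintype.card V
  lw : ∀ w, (((US.map Prod.snd).count w : ℕ) : ℝ) ≤ η * Fintype.card V

lemma Ok.mono [Fintype V] {η η' : ℝ} {UE UE' : Multiset (Sym2 V)} {US US' : Multiset (V × W)}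
    (h : Ok η UE US) (hη : η ≤ η') (hE : UE' ≤ UE) (hS : US' ≤ US) : Ok η' UE' US' := by
  have hn : η * Fintype.card V ≤ η' * Fintype.card V :=
    mul_le_mul_of_nonneg_right hη (Nat.cast_nonneg _)
  refine ⟨Multiset.nodup_of_le hE h.ne, Multiset.nodup_of_le hS h.ns, fun v => ?_, fun v => ?_,
    fun w => ?_⟩
  · exact ((Nat.cast_le.mpr (Multiset.count_le_of_le v (bd_le hE))).trans (h.le v)).trans hn
  · exact ((Nat.cast_le.mpr (Multiset.count_le_of_le v (Multiset.map_le_map hS))).trans
      (h.lv v)).trans hn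
  · exact ((Nat.cast_le.mpr (Multiset.count_le_of_le w (Multiset.map_le_map hS))).trans
      (h.lw w)).trans hn

/-- Any at most `k` vertices have at least `a n` common neighbours. -/
def Dense [Fintype V] (G : SimpleGraph V) (k : ℕ) (a : ℝ) : Prop :=
  ∀ S : Finset V, S.card ≤ k → a * Fintype.card V ≤ (cnt fun z => ∀ q ∈ S, G.Adj z q : ℕ)

/-- The standing assumptions on the host graph and the number of colours. In mode `true` three
vertices have many common neighbours and only single holes may be used. -/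
structure Env [Fintype V] (W : Type) [Fintype W] (G : SimpleGraph V) (md : Bool) (ε : ℝ) :
    Prop where
  d2 : Dense G 2 ε
  d3 : md = true → Dense G 3 ε
  w1 : ε * Fintype.card V ≤ 2 * Fintype.card W
  w2 : Fintype.card W ≤ Fintype.card V

/-- A new system (private edges `A`, holes `O`, fillers `Φ`) built on unused resources. -/
structure Good [Fintype V] (G : SimpleGraph V) (md : Bool) (η : ℝ) (UE : Multiset (Sym2 V))
    (US : Multiset (V × W)) (A : Multiset (Sym2 V)) (O : Multiset (Hole V W))
    (Φ : Multiset (V × W)) : Prop where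
  ok : Ok η (UE + A) (US + slots O Φ)
  sub : ∀ e ∈ A, e ∈ G.edgeSet
  sgl : md = true → ∀ h ∈ O, h.dbl = false
  bal : O.bind Hole.inner = Φ.map Prod.snd

/-- A finite family of closed walks (pieces), given by their darts. -/
structure Darts (V : Type) where
  P : Type
  D : Type
  [fP : Fintype P]
  [fD : Fintype D]
  pc : D → P
  nxt : D ≃ D
  x : D → V
  pc_nxt : ∀ δ, pc (nxt δ) = pc δ
  ne : ∀ δ, x δ ≠ x (nxt δ)

attribute [instance] Darts.fP Darts.fD

/-- The edge traversed by a dart. -/
def Darts.edge (𝒟 : Darts V) (δ : 𝒟.D) : Sym2 V := s(𝒟.x δ, 𝒟.x (𝒟.nxt δ))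

/-- The edges of the pieces that are switched on. -/
def Darts.on (𝒟 : Darts V) (ON : 𝒟.P → Bool) : Multiset (Sym2 V) :=
  ∑ δ, if ON (𝒟.pc δ) then {𝒟.edge δ} else 0

/-- Images of the edges of `F` inside the domains of a family of partial maps. -/
def edgesOf [Fintype W] [Fintype Λ] (F : SimpleGraph Λ) (dom : W → Finset Λ) (f : W → Λ → V) :
    Multiset (Sym2 V) :=
  ∑ w, (univ.filter fun e : Sym2 Λ => e ∈ F.edgeSet ∧ ∀ a ∈ e, a ∈ dom w).val.map (Sym2.map (f w))

/-- Slots taken by a family of partial maps. -/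
def slotsOf [Fintype W] (dom : W → Finset Λ) (f : W → Λ → V) : Multiset (V × W) :=
  ∑ w, (dom w).val.map fun a => (f w a, w)

/-- Images of the ends in `dom` of the edges of `F` from `dom` to `tgt \ dom`. -/
def outOf [Fintype W] [Fintype Λ] (F : SimpleGraph Λ) (dom tgt : W → Finset Λ) (f : W → Λ → V) :
    Multiset V :=
  ∑ w, ∑ a ∈ dom w, (cnt fun b => F.Adj a b ∧ b ∈ tgt w ∧ b ∉ dom w) • ({f w a} : Multiset V)

/-- No 4-cycle. -/
def NoC4 (F : SimpleGraph Λ) : Prop :=
  ∀ a b c d, F.Adj a b → F.Adj b c → F.Adj c d → F.Adj d a → a = c ∨ b = d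

/-- The way the 2-regular graph `F` is cut: `Pre` is embedded first and carries `M` sites for the
holes, `Post` is embedded last and carries `K` edges for the leftover, the rest consists of units
(whole cycles of length `2 k u = s u`, or paths with `s u < 2 k u` vertices). -/
structure Layout [Fintype Λ] (F : SimpleGraph Λ) (M K L : ℕ) where
  Pre : Finset Λ
  Post : Finset Λ
  site : Fin M → Fin 4 → Λ
  res : Fin K → Bool → Λ
  U : Type
  [fU : Fintype U]
  k : U → ℕ
  s : U → ℕ
  pos : U → ℕ → Λ
  disj : Disjoint Pre Post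
  pre_card : Pre.card ≤ 10 * M
  post_card : L * Post.card ≤ L * (9 * K + 4) + 2 * Fintype.card Λ
  site_inj : ∀ m i m' i', site m i = site m' i' → m = m' ∧ i = i'
  site_adj : ∀ m, F.Adj (site m 0) (site m 1) ∧ F.Adj (site m 1) (site m 2) ∧
    F.Adj (site m 2) (site m 3)
  site_sep : ∀ m i m' i', F.Adj (site m i) (site m' i') → m = m'
  site_pre : ∀ m i, site m i ∈ Pre
  site_nb : ∀ m i b, F.Adj (site m i) b → b ∈ Pre
  bdry : (cnt fun a => a ∈ Pre ∧ ∃ b, F.Adj a b ∧ b ∉ Pre) ≤ 4
  pre_nb : ∀ a ∈ Pre, ∀ b, F.Adj a b → b ∈ Pre ∨ b ∈ Post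
  res_inj : ∀ m i m' i', res m i = res m' i' → m = m' ∧ i = i'
  res_adj : ∀ m, F.Adj (res m false) (res m true)
  res_sep : ∀ m i m' i', F.Adj (res m i) (res m' i') → m = m'
  res_post : ∀ m i, res m i ∈ Post
  res_nb : ∀ m i b, F.Adj (res m i) b → b ∈ Post
  k_ge : ∀ u, 2 ≤ k u
  k_le : ∀ u, k u ≤ L
  s_pos : ∀ u, 1 ≤ s u
  s_le : ∀ u, s u ≤ 2 * k u
  pos_inj : ∀ u i u' i', i < s u → i' < s u' → pos u i = pos u' i' → u = u' ∧ i = i'
  pos_cover : ∀ a, (a ∉ Pre ∧ a ∉ Post) ↔ ∃ u i, i < s u ∧ pos u i = a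
  pos_adj : ∀ u i u' i', i < s u → i' < s u' → (F.Adj (pos u i) (pos u' i') ↔
    u = u' ∧ ((i + 1) % (2 * k u) = i' ∨ (i' + 1) % (2 * k u) = i))
  paths : L * (cnt fun u => s u < 2 * k u) ≤ 4 * L + 2 * Fintype.card Λ

attribute [instance] Layout.fU

/-- The vertices of `F` left open for the fillers of a hole placed at site `m`. -/
def Layout.inn [Fintype Λ] {F : SimpleGraph Λ} {M K L : ℕ} (Ly : Layout F M K L)
    (h : Hole V W) (m : Fin M) : Finset Λ :=
  if h.dbl then {Ly.site m 1, Ly.site m 2} else {Ly.site m 1}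

/-- The vertex of `F` carrying the second frame vertex of a hole placed at site `m`. -/
def Layout.last [Fintype Λ] {F : SimpleGraph Λ} {M K L : ℕ} (Ly : Layout F M K L)
    (h : Hole V W) (m : Fin M) : Λ :=
  if h.dbl then Ly.site m 3 else Ly.site m 2

/-- All vertices of `F` left open in colour `w` when the hole `h` is placed at site `sn h`. -/
def Layout.innerSet [Fintype Λ] {F : SimpleGraph Λ} {M K L : ℕ} (Ly : Layout F M K L)
    (O : Multiset (Hole V W)) (sn : Hole V W → Fin M) (w : W) : Finset Λ :=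
  (O.toFinset.filter fun h => h.w = w).biUnion fun h => Ly.inn h (sn h)

/-- The holes `O` are placed at distinct sites and their frames are embedded by `(dom, f)`. -/
structure Placed [Fintype Λ] {F : SimpleGraph Λ} {M K L : ℕ} (Ly : Layout F M K L)
    (O : Multiset (Hole V W)) (sn : Hole V W → Fin M) (dom : W → Finset Λ) (f : W → Λ → V) :
    Prop where
  nodup : O.Nodup
  inj : ∀ h ∈ O, ∀ h' ∈ O, h.w = h'.w → sn h = sn h' → h = h'
  fst : ∀ h ∈ O, Ly.site (sn h) 0 ∈ dom h.w ∧ f h.w (Ly.site (sn h) 0) = h.a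
  lst : ∀ h ∈ O, Ly.last h (sn h) ∈ dom h.w ∧ f h.w (Ly.last h (sn h)) = h.c
  disj : ∀ w, Disjoint (dom w) (Ly.innerSet O sn w)

/-- Expectation of `f A` when each `i` lies in the random set `A` independently with
probability `p i`. -/
def Ex {ι : Type} [Fintype ι] (p : ι → ℝ) (f : Finset ι → ℝ) : ℝ :=
  ∑ A : Finset ι, (∏ i, if i ∈ A then p i else 1 - p i) * f A

end Pool.Agent.Lib.MP_34bdde_co
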