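import Mathlib
import Pool.Agent.Lib.MP_34bdde_co.Defs

set_option autoImplicit false

open Finset
open scoped Classical

noncomputable section

namespace Pool.Agent.Lib.MP_34bdde_co

variable {ι : Type} [Fintype ι] {p : ι → ℝ}

lemma sum_prod_ite (x y : ι → ℝ) :
    ∑ A : Finset ι, ∏ i, (if i ∈ A then x i else y i) = ∏ i, (x i + y i) := by
  rw [Finset.prod_add, Finset.powerset_univ]
  refine Finset.sum_congr rfl fun A _ => ?_
  rw [Finset.prod_ite]
  congr 1
  · exact Finset.prod_congr (by ext i; simp) fun _ _ => rfl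
  · exact Finset.prod_congr (by ext i; simp) fun _ _ => rfl

lemma sum_weight : ∑ A : Finset ι, ∏ i, (if i ∈ A then p i else 1 - p i) = 1 := by
  rw [sum_prod_ite]
  simp

lemma weight_nonneg (hp : ∀ i, 0 ≤ p i ∧ p i ≤ 1) (A : Finset ι) :
    0 ≤ ∏ i, (if i ∈ A then p i else 1 - p i) :=
  Finset.prod_nonneg fun i _ => by
    split_ifs
    · exact (hp i).1
    · exact sub_nonneg.mpr (hp i).2

lemma Ex_const (c : ℝ) : Ex p (fun _ => c) = c := by
  unfold Ex
  rw [← Finset.sum_mul, sum_weight, one_mul]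

lemma Ex_add (f g : Finset ι → ℝ) : Ex p (fun A => f A + g A) = Ex p f + Ex p g := by
  unfold Ex
  rw [← Finset.sum_add_distrib]
  exact Finset.sum_congr rfl fun A _ => mul_add _ _ _

lemma Ex_mul (c : ℝ) (f : Finset ι → ℝ) : Ex p (fun A => c * f A) = c * Ex p f := by
  unfold Ex
  rw [Finset.mul_sum]
  exact Finset.sum_congr rfl fun A _ => by ring

lemma Ex_sum {J : Type} (s : Finset J) (f : J → Finset ι → ℝ) :
    Ex p (fun A => ∑ j ∈ s, f j A) = ∑ j ∈ s, Ex p (f j) := by
  unfold Ex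
  rw [Finset.sum_comm]
  exact Finset.sum_congr rfl fun A _ => Finset.mul_sum _ _ _

lemma Ex_mono (hp : ∀ i, 0 ≤ p i ∧ p i ≤ 1) {f g : Finset ι → ℝ} (h : ∀ A, f A ≤ g A) :
    Ex p f ≤ Ex p g :=
  Finset.sum_le_sum fun A _ => mul_le_mul_of_nonneg_left (h A) (weight_nonneg hp A)

lemma Ex_prod (u w : ι → ℝ) :
    Ex p (fun A => ∏ i, if i ∈ A then u i else w i) = ∏ i, (p i * u i + (1 - p i) * w i) := by
  unfold Ex
  rw [← sum_prod_ite]
  refine Finset.sum_congr rfl fun A _ => ?_
  rw [← Finset.prod_mul_distrib]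
  exact Finset.prod_congr rfl fun i _ => by split_ifs <;> rfl

/-- Probability that `A` contains `S` and misses `T`. -/
lemma Ex_cyl (S T : Finset ι) (h : Disjoint S T) :
    Ex p (fun A => if S ⊆ A ∧ Disjoint T A then 1 else 0) =
      (∏ i ∈ S, p i) * ∏ i ∈ T, (1 - p i) := by
  have h1 : (fun A : Finset ι => if S ⊆ A ∧ Disjoint T A then (1 : ℝ) else 0) = fun A =>
      ∏ i, if i ∈ A then (if i ∈ T then (0 : ℝ) else 1) else (if i ∈ S then 0 else 1) := by
    funext A
    split_ifs with hA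
    · symm
      refine Finset.prod_eq_one fun i _ => ?_
      by_cases hi : i ∈ A
      · rw [if_pos hi, if_neg fun hT => Finset.disjoint_left.mp hA.2 hT hi]
      · rw [if_neg hi, if_neg fun hS => hi (hA.1 hS)]
    · symm
      rw [not_and_or] at hA
      rcases hA with hA | hA
      · obtain ⟨i, hiS, hiA⟩ := Finset.not_subset.mp hA
        exact Finset.prod_eq_zero (Finset.mem_univ i) (by rw [if_neg hiA, if_pos hiS])
      · obtain ⟨i, hiT, hiA⟩ := Finset.not_disjoint_iff.mp hA
        exact Finset.prod_eq_zero (Finset.mem_univ i) (by rw [if_pos hiA, if_pos hiT])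
  rw [h1, Ex_prod, ← Finset.prod_ite_mem_eq S, ← Finset.prod_ite_mem_eq T,
    ← Finset.prod_mul_distrib]
  refine Finset.prod_congr rfl fun i _ => ?_
  by_cases hS : i ∈ S
  · have hT : i ∉ T := Finset.disjoint_left.mp h hS
    simp [hS, hT]
  · by_cases hT : i ∈ T <;> simp [hS, hT]

/-- Exposure in two rounds. -/
lemma Ex_split (D : Finset ι) (f : Finset ι → ℝ) :
    Ex p f = Ex p fun A => Ex p fun B => f (A ∩ D ∪ B \ D) := by
  set w : Finset ι → ℝ := fun A => ∏ i, if i ∈ A then p i else 1 - p i with hw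
  let φ : Finset ι × Finset ι → Finset ι × Finset ι :=
    fun x => (x.1 ∩ D ∪ x.2 \ D, x.2 ∩ D ∪ x.1 \ D)
  have hφ : Function.Involutive φ := by
    rintro ⟨A, B⟩
    refine Prod.ext ?_ ?_ <;> ext i <;> simp only [φ, Finset.mem_union, Finset.mem_inter,
      Finset.mem_sdiff] <;> tauto
  have hwφ : ∀ x, w (φ x).1 * w (φ x).2 = w x.1 * w x.2 := by
    rintro ⟨A, B⟩
    simp only [hw, φ]
    rw [← Finset.prod_mul_distrib, ← Finset.prod_mul_distrib]
    refine Finset.prod_congr rfl fun i _ => ?_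
    by_cases hD : i ∈ D <;> by_cases hA : i ∈ A <;> by_cases hB : i ∈ B <;>
      simp [hD, hA, hB, mul_comm]
  have h1 : Ex p f = ∑ x : Finset ι × Finset ι, w x.1 * w x.2 * f x.1 := by
    rw [Fintype.sum_prod_type]
    refine Finset.sum_congr rfl fun A _ => ?_
    have : ∑ B, w B = 1 := sum_weight
    calc w A * f A = (∑ B, w B) * (w A * f A) := by rw [this, one_mul]
      _ = _ := by
        rw [Finset.sum_mul]
        exact Finset.sum_congr rfl fun B _ => by ring
  have h2 : (Ex p fun A => Ex p fun B => f (A ∩ D ∪ B \ D)) =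
      ∑ x : Finset ι × Finset ι, w (φ x).1 * w (φ x).2 * f (φ x).1 := by
    rw [Fintype.sum_prod_type]
    refine Finset.sum_congr rfl fun A _ => ?_
    show w A * ∑ B, w B * f (A ∩ D ∪ B \ D) = _
    rw [Finset.mul_sum]
    refine Finset.sum_congr rfl fun B _ => ?_
    rw [hwφ (A, B), mul_assoc]
  rw [h1, h2]
  exact (Equiv.sum_comp hφ.toPerm fun x => w x.1 * w x.2 * f x.1).symm

/-- An outcome of positive probability avoiding a bad event of probability below one. -/
lemma exists_of_Ex_lt_one (hp : ∀ i, 0 ≤ p i ∧ p i ≤ 1) (bad : Finset ι → Prop)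
    (h : Ex p (fun A => if bad A then 1 else 0) < 1) :
    ∃ A, ¬ bad A ∧ ∀ i ∈ A, p i ≠ 0 := by
  by_contra hcon
  push Not at hcon
  refine absurd h (not_lt.mpr (le_of_eq ?_))
  refine (sum_weight (p := p)).symm.trans (Finset.sum_congr rfl fun A _ => ?_)
  by_cases hA : bad A
  · simp [hA]
  · obtain ⟨i, hi, hpi⟩ := hcon A hA
    have : (∏ i, if i ∈ A then p i else 1 - p i) = 0 :=
      Finset.prod_eq_zero (Finset.mem_univ i) (by rw [if_pos hi, hpi])
    rw [this, zero_mul]

/-- Union bound. -/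
lemma Ex_union (hp : ∀ i, 0 ≤ p i ∧ p i ≤ 1) {J : Type} (s : Finset J)
    (bad : J → Finset ι → Prop) :
    Ex p (fun A => if ∃ j ∈ s, bad j A then 1 else 0) ≤
      ∑ j ∈ s, Ex p (fun A => if bad j A then 1 else 0) := by
  rw [← Ex_sum]
  refine Ex_mono hp fun A => ?_
  have hnn : ∀ j ∈ s, (0 : ℝ) ≤ if bad j A then 1 else 0 := fun j _ => by split_ifs <;> norm_num
  split_ifs with h
  · obtain ⟨j, hj, hb⟩ := h
    refine le_trans ?_ (Finset.single_le_sum hnn hj)
    rw [if_pos hb]
  · exact Finset.sum_nonneg hnn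

/-- Expectation over the random subsets of `s`. -/
def ExS {ι : Type} (p : ι → ℝ) (s : Finset ι) (f : Finset ι → ℝ) : ℝ :=
  ∑ A ∈ s.powerset, (∏ i ∈ s, if i ∈ A then p i else 1 - p i) * f A

lemma ExS_univ (f : Finset ι → ℝ) : ExS p univ f = Ex p f := by
  unfold ExS Ex
  rw [Finset.powerset_univ]

omit [Fintype ι] in
lemma ExS_empty (f : Finset ι → ℝ) : ExS p ∅ f = f ∅ := by
  simp [ExS]

omit [Fintype ι] in
lemma ExS_insert {a : ι} {s : Finset ι} (ha : a ∉ s) (f : Finset ι → ℝ) :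
    ExS p (insert a s) f = p a * ExS p s (fun A => f (insert a A)) + (1 - p a) * ExS p s f := by
  unfold ExS
  rw [Finset.sum_powerset_insert ha, add_comm, Finset.mul_sum, Finset.mul_sum]
  congr 1
  · refine Finset.sum_congr rfl fun A _ => ?_
    rw [Finset.prod_insert ha, if_pos (Finset.mem_insert_self _ _), mul_assoc]
    congr 2
    refine Finset.prod_congr rfl fun i hi => ?_
    have : i ≠ a := fun e => ha (e ▸ hi)
    simp [this]
  · refine Finset.sum_congr rfl fun A hA => ?_
    rw [Finset.prod_insert ha, if_neg fun h => ha (Finset.mem_powerset.mp hA h), mul_assoc]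

omit [Fintype ι] in
lemma ExS_abs_sub_le (hp : ∀ i, 0 ≤ p i ∧ p i ≤ 1) (s : Finset ι) {c : ℝ} :
    ∀ f g : Finset ι → ℝ, (∀ A, |f A - g A| ≤ c) → |ExS p s f - ExS p s g| ≤ c := by
  induction s using Finset.induction_on with
  | empty =>
    intro f g h
    rw [ExS_empty, ExS_empty]
    exact h _
  | insert a s ha ih =>
    intro f g h
    rw [ExS_insert ha, ExS_insert ha]
    have h1 := abs_le.mp (ih (fun A => f (insert a A)) (fun A => g (insert a A)) fun A => h _)
    have h2 := abs_le.mp (ih f g h)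
    have h3 := (hp a).1
    have h4 := sub_nonneg.mpr (hp a).2
    rw [abs_le]
    constructor <;> nlinarith [mul_le_mul_of_nonneg_left h1.1 h3, mul_le_mul_of_nonneg_left h1.2 h3,
      mul_le_mul_of_nonneg_left h2.1 h4, mul_le_mul_of_nonneg_left h2.2 h4]

lemma mix_exp_le {q x y : ℝ} (hq0 : 0 ≤ q) (hx : |x| ≤ 1) (hxy : x ^ 2 ≤ y) :
    q * Real.exp x + (1 - q) ≤ Real.exp (q * x + q * y) := by
  have h1 := (abs_le.mp (Real.abs_exp_sub_one_sub_id_le hx)).2
  have h2 := Real.add_one_le_exp (q * x + q * y)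
  nlinarith [mul_le_mul_of_nonneg_left h1 hq0, mul_le_mul_of_nonneg_left hxy hq0]

omit [Fintype ι] in
lemma ExS_mgf (hp : ∀ i, 0 ≤ p i ∧ p i ≤ 1) (c : ι → ℝ) (lam : ℝ)
    (hl : ∀ i, |lam| * c i ≤ 1) (s : Finset ι) :
    ∀ f : Finset ι → ℝ, (∀ A i, |f (insert i A) - f A| ≤ c i) →
      ExS p s (fun A => Real.exp (lam * f A)) ≤
        Real.exp (lam * ExS p s f + lam ^ 2 * ∑ i ∈ s, p i * c i ^ 2) := by
  induction s using Finset.induction_on with
  | empty =>
    intro f _
    simp [ExS_empty]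
  | insert a s ha ih =>
    intro f h
    have h' : ∀ A i, |f (insert a (insert i A)) - f (insert a A)| ≤ c i := fun A i => by
      rw [Finset.insert_comm]
      exact h _ _
    have h1 := ih (fun A => f (insert a A)) h'
    have h2 := ih f h
    have hD := ExS_abs_sub_le hp s (fun A => f (insert a A)) f fun A => h A a
    rw [ExS_insert ha, ExS_insert ha, Finset.sum_insert ha]
    set m1 := ExS p s fun A => f (insert a A)
    set m0 := ExS p s f
    set v := ∑ i ∈ s, p i * c i ^ 2
    have h3 := (hp a).1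
    have h4 := sub_nonneg.mpr (hp a).2
    have hx : |lam * (m1 - m0)| ≤ |lam| * c a := by
      rw [abs_mul]
      exact mul_le_mul_of_nonneg_left hD (abs_nonneg _)
    have hx2 : (lam * (m1 - m0)) ^ 2 ≤ lam ^ 2 * c a ^ 2 := by
      have := pow_le_pow_left₀ (abs_nonneg _) hx 2
      rwa [sq_abs, mul_pow |lam|, sq_abs] at this
    have key := mix_exp_le h3 (hx.trans (hl a)) hx2
    have e1 : Real.exp (lam * m1 + lam ^ 2 * v) =
        Real.exp (lam * m0 + lam ^ 2 * v) * Real.exp (lam * (m1 - m0)) := by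
      rw [← Real.exp_add]
      congr 1
      ring
    have e2 : Real.exp (lam * (p a * m1 + (1 - p a) * m0) + lam ^ 2 * (p a * c a ^ 2 + v)) =
        Real.exp (lam * m0 + lam ^ 2 * v) *
          Real.exp (p a * (lam * (m1 - m0)) + p a * (lam ^ 2 * c a ^ 2)) := by
      rw [← Real.exp_add]
      congr 1
      ring
    rw [e2]
    rw [e1] at h1
    calc _ ≤ p a * (Real.exp (lam * m0 + lam ^ 2 * v) * Real.exp (lam * (m1 - m0)))
          + (1 - p a) * Real.exp (lam * m0 + lam ^ 2 * v) :=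
          add_le_add (mul_le_mul_of_nonneg_left h1 h3) (mul_le_mul_of_nonneg_left h2 h4)
      _ = Real.exp (lam * m0 + lam ^ 2 * v) *
          (p a * Real.exp (lam * (m1 - m0)) + (1 - p a)) := by ring
      _ ≤ _ := mul_le_mul_of_nonneg_left key (Real.exp_pos _).le

/-- Bounded differences with variance (Bernstein form). -/
theorem bern (hp : ∀ i, 0 ≤ p i ∧ p i ≤ 1) (f : Finset ι → ℝ) (c : ι → ℝ) (m v t lam : ℝ)
    (hc : ∀ A i, i ∉ A → |f (insert i A) - f A| ≤ c i) (hm : ∀ i, c i ≤ m)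
    (hv : ∑ i, p i * c i ^ 2 ≤ v) (h0 : 0 ≤ lam) (h1 : lam * m ≤ 1) :
    Ex p (fun A => if t ≤ |f A - Ex p f| then 1 else 0) ≤
      2 * Real.exp (lam ^ 2 * v - lam * t) := by
  have hc' : ∀ A i, |f (insert i A) - f A| ≤ c i := by
    intro A i
    by_cases hi : i ∈ A
    · rw [Finset.insert_eq_of_mem hi, sub_self, abs_zero]
      exact (abs_nonneg _).trans (hc ∅ i (Finset.notMem_empty i))
    · exact hc A i hi
  have hl : ∀ i, |lam| * c i ≤ 1 := fun i => by
    rw [abs_of_nonneg h0]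
    exact (mul_le_mul_of_nonneg_left (hm i) h0).trans h1
  have hmgf : ∀ l : ℝ, |l| = |lam| → Ex p (fun A => Real.exp (-(l * Ex p f) - lam * t) *
      Real.exp (l * f A)) ≤ Real.exp (lam ^ 2 * v - lam * t) := by
    intro l hll
    have h2 := ExS_mgf hp c l (by rw [hll]; exact hl) univ f hc'
    rw [ExS_univ, ExS_univ] at h2
    have h3 : l ^ 2 = lam ^ 2 := by rw [← sq_abs l, hll, sq_abs]
    rw [Ex_mul]
    refine (mul_le_mul_of_nonneg_left h2 (Real.exp_pos _).le).trans ?_
    rw [← Real.exp_add, Real.exp_le_exp, h3]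
    nlinarith [mul_le_mul_of_nonneg_left hv (sq_nonneg lam)]
  have hA := hmgf lam rfl
  have hB := hmgf (-lam) (abs_neg lam)
  refine le_trans (Ex_mono hp (g := fun A =>
    Real.exp (-(lam * Ex p f) - lam * t) * Real.exp (lam * f A) +
      Real.exp (-(-lam * Ex p f) - lam * t) * Real.exp (-lam * f A)) fun A => ?_) ?_
  · rw [← Real.exp_add, ← Real.exp_add]
    have p1 := Real.exp_pos (-(lam * Ex p f) - lam * t + lam * f A)
    have p2 := Real.exp_pos (-(-lam * Ex p f) - lam * t + -lam * f A)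
    split_ifs with h
    · rcases le_abs.mp h with h | h
      · have := Real.add_one_le_exp (-(lam * Ex p f) - lam * t + lam * f A)
        nlinarith [mul_le_mul_of_nonneg_left h h0]
      · have := Real.add_one_le_exp (-(-lam * Ex p f) - lam * t + -lam * f A)
        nlinarith [mul_le_mul_of_nonneg_left h h0]
    · positivity
  · rw [Ex_add]
    linarith

end Pool.Agent.Lib.MP_34bdde_co
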