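import Mathlib
import Pool.Agent.Lib.MP_34bdde_co.Prob

set_option autoImplicit false

/-! Probability tools for the nibble: indicators, tail bounds, two-round exposure. -/

open Finset
open scoped Classical

noncomputable section

namespace Pool.Agent.Lib.MP_34bdde_co

namespace Nib

/-- Real indicator of a proposition (instance free). -/
def ind (P : Prop) : ℝ := if P then 1 else 0

lemma ind_eq (P : Prop) [Decidable P] : ind P = if P then 1 else 0 := by
  unfold ind
  by_cases h : P <;> simp [h]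

lemma ind_pos {P : Prop} (h : P) : ind P = 1 := by simp [ind, h]

lemma ind_neg {P : Prop} (h : ¬ P) : ind P = 0 := by simp [ind, h]

lemma ind_nonneg (P : Prop) : 0 ≤ ind P := by
  by_cases h : P
  · rw [ind_pos h]; norm_num
  · rw [ind_neg h]

lemma ind_le_one (P : Prop) : ind P ≤ 1 := by
  by_cases h : P
  · rw [ind_pos h]
  · rw [ind_neg h]; norm_num

lemma ind_mono {P Q : Prop} (h : P → Q) : ind P ≤ ind Q := by
  by_cases hP : P
  · rw [ind_pos hP, ind_pos (h hP)]
  · rw [ind_neg hP]; exact ind_nonneg _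

lemma ind_congr {P Q : Prop} (h : P ↔ Q) : ind P = ind Q :=
  le_antisymm (ind_mono h.1) (ind_mono h.2)

lemma ind_or_le (P Q : Prop) : ind (P ∨ Q) ≤ ind P + ind Q := by
  by_cases hP : P
  · rw [ind_pos (Or.inl hP), ind_pos hP]
    linarith [ind_nonneg Q]
  · rw [ind_neg hP, zero_add]
    exact ind_mono fun h => h.resolve_left hP

lemma ind_exists_le {J : Type} (s : Finset J) (P : J → Prop) :
    ind (∃ j ∈ s, P j) ≤ ∑ j ∈ s, ind (P j) := by
  by_cases h : ∃ j ∈ s, P j
  · rw [ind_pos h]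
    obtain ⟨j, hj, hP⟩ := h
    rw [← ind_pos hP]
    exact Finset.single_le_sum (f := fun j => ind (P j)) (fun j _ => ind_nonneg _) hj
  · rw [ind_neg h]
    exact Finset.sum_nonneg fun j _ => ind_nonneg _

lemma cnt_eq_ind {I : Type} [Fintype I] (P : I → Prop) : (cnt P : ℝ) = ∑ i, ind (P i) := by
  rw [cnt_eq_sum]
  push_cast
  exact Finset.sum_congr rfl fun i _ => (ind_eq _).symm

lemma card_eq_ind {I : Type} [Fintype I] (s : Finset I) : (s.card : ℝ) = ∑ i, ind (i ∈ s) := by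
  rw [← cnt_eq_ind, cnt_def]
  simp

lemma sum_filter_ind {I : Type} [Fintype I] (P : I → Prop) [DecidablePred P] (f : I → ℝ) :
    ∑ i ∈ univ.filter P, f i = ∑ i, ind (P i) * f i := by
  rw [Finset.sum_filter]
  refine Finset.sum_congr rfl fun i _ => ?_
  by_cases h : P i
  · rw [if_pos h, ind_pos h, one_mul]
  · rw [if_neg h, ind_neg h, zero_mul]

lemma sum_mem_ind {I : Type} [Fintype I] (s : Finset I) (f : I → ℝ) :
    ∑ i ∈ s, f i = ∑ i, ind (i ∈ s) * f i := by
  rw [← sum_filter_ind]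
  simp

variable {ι : Type} [Fintype ι] {p : ι → ℝ}

/-- Probability of an event. -/
def Pr (p : ι → ℝ) (P : Finset ι → Prop) : ℝ := Ex p fun X => ind (P X)

lemma Pr_mono (hp : ∀ i, 0 ≤ p i ∧ p i ≤ 1) {P Q : Finset ι → Prop} (h : ∀ X, P X → Q X) :
    Pr p P ≤ Pr p Q :=
  Ex_mono hp fun X => ind_mono (h X)

lemma Pr_or (hp : ∀ i, 0 ≤ p i ∧ p i ≤ 1) (P Q : Finset ι → Prop) :
    Pr p (fun X => P X ∨ Q X) ≤ Pr p P + Pr p Q := by
  unfold Pr
  rw [← Ex_add]
  exact Ex_mono hp fun X => ind_or_le _ _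

lemma Pr_exists (hp : ∀ i, 0 ≤ p i ∧ p i ≤ 1) {J : Type} [Fintype J] (P : J → Finset ι → Prop)
    {b : ℝ} (h : ∀ j, Pr p (P j) ≤ b) : Pr p (fun X => ∃ j, P j X) ≤ Fintype.card J * b := by
  calc Pr p (fun X => ∃ j, P j X) ≤ Ex p (fun X => ∑ j, ind (P j X)) := by
        refine Ex_mono hp fun X => le_trans (ind_mono ?_) (ind_exists_le univ fun j => P j X)
        rintro ⟨j, hj⟩
        exact ⟨j, Finset.mem_univ _, hj⟩
    _ = ∑ j, Pr p (P j) := Ex_sum _ _
    _ ≤ ∑ _j : J, b := Finset.sum_le_sum fun j _ => h j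
    _ = _ := by simp

lemma exists_of_Pr (hp : ∀ i, 0 ≤ p i ∧ p i ≤ 1) (P : Finset ι → Prop) (h : Pr p P < 1) :
    ∃ X, ¬ P X ∧ ∀ i ∈ X, p i ≠ 0 :=
  exists_of_Ex_lt_one hp P h

lemma Pr_disj (T : Finset ι) : Pr p (fun X => ∀ j ∈ X, j ∉ T) = ∏ i ∈ T, (1 - p i) := by
  have h := Ex_cyl (p := p) ∅ T (Finset.disjoint_empty_left _)
  rw [Finset.prod_empty, one_mul] at h
  rw [← h]
  unfold Pr
  refine congrArg (Ex p) (funext fun X => ?_)
  rw [← ind_eq]
  refine ind_congr ?_
  rw [Finset.disjoint_right]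
  simp

lemma Pr_mem (i : ι) : Pr p (fun X => i ∈ X) = p i := by
  have h := Ex_cyl (p := p) {i} ∅ (Finset.disjoint_empty_right _)
  rw [Finset.prod_empty, mul_one, Finset.prod_singleton] at h
  rw [← h]
  unfold Pr
  refine congrArg (Ex p) (funext fun X => ?_)
  rw [← ind_eq]
  refine ind_congr ?_
  simp

lemma Pr_mem_mem {i j : ι} (hij : i ≠ j) : Pr p (fun X => i ∈ X ∧ j ∈ X) = p i * p j := by
  have h := Ex_cyl (p := p) {i, j} ∅ (Finset.disjoint_empty_right _)
  rw [Finset.prod_empty, mul_one, Finset.prod_pair hij] at h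
  rw [← h]
  unfold Pr
  refine congrArg (Ex p) (funext fun X => ?_)
  rw [← ind_eq]
  refine ind_congr ?_
  simp [Finset.insert_subset_iff]

/-- Tail bound at scale `s`: constants `K s`, variance `K s ^ 2 n`, deviation `η s n`. -/
lemma tail (hp : ∀ i, 0 ≤ p i ∧ p i ≤ 1) (f : Finset ι → ℝ) (c : ι → ℝ) {K s n η : ℝ}
    (hK : 1 ≤ K) (hs : 0 < s) (hη : 0 < η) (hη1 : η ≤ 1)
    (hc : ∀ X i, i ∉ X → |f (insert i X) - f X| ≤ c i) (hm : ∀ i, c i ≤ K * s)
    (hv : ∑ i, p i * c i ^ 2 ≤ K * s ^ 2 * n) :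
    Pr p (fun X => η * s * n ≤ |f X - Ex p f|) ≤ 2 * Real.exp (-(η ^ 2 * n / (4 * K))) := by
  have hK0 : 0 < K := by linarith
  have h := bern hp f c (K * s) (K * s ^ 2 * n) (η * s * n) (η / (2 * K * s)) hc hm hv
    (by positivity) (by
      have : η / (2 * K * s) * (K * s) = η / 2 := by field_simp
      rw [this]
      linarith)
  have e : (η / (2 * K * s)) ^ 2 * (K * s ^ 2 * n) - η / (2 * K * s) * (η * s * n) =
      -(η ^ 2 * n / (4 * K)) := by
    field_simp
    ring
  rw [e] at h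
  refine le_trans (le_of_eq ?_) h
  unfold Pr
  exact congrArg (Ex p) (funext fun X => ind_eq _)

lemma abs_Ex_le (hp : ∀ i, 0 ≤ p i ∧ p i ≤ 1) {f g : Finset ι → ℝ} {L : ℝ}
    (h : ∀ X, |f X - g X| ≤ L) : |Ex p f - Ex p g| ≤ L := by
  rw [abs_le]
  constructor
  · have : Ex p g ≤ Ex p (fun X => f X + L) :=
      Ex_mono hp fun X => by linarith [(abs_le.mp (h X)).1]
    rw [Ex_add, Ex_const] at this
    linarith
  · have : Ex p f ≤ Ex p (fun X => g X + L) :=
      Ex_mono hp fun X => by linarith [(abs_le.mp (h X)).2]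
    rw [Ex_add, Ex_const] at this
    linarith

omit [Fintype ι] in
lemma lip_insert {f : Finset ι → ℝ} {L : ℝ} (hL : 0 ≤ L)
    (hc : ∀ X i, i ∉ X → |f (insert i X) - f X| ≤ L) (X : Finset ι) (i : ι) :
    |f (insert i X) - f X| ≤ L := by
  by_cases h : i ∈ X
  · rw [Finset.insert_eq_of_mem h, sub_self, abs_zero]
    exact hL
  · exact hc X i h

lemma sum_sq_ind (R : Finset ι) (L : ℝ) :
    ∑ i, p i * (L * ind (i ∈ R)) ^ 2 = L ^ 2 * ∑ i ∈ R, p i := by
  rw [sum_mem_ind R, Finset.mul_sum]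
  refine Finset.sum_congr rfl fun i _ => ?_
  by_cases h : i ∈ R
  · rw [ind_pos h]; ring
  · rw [ind_neg h]; ring

/-- Tail bound by exposure in two rounds. -/
lemma two_round (hp : ∀ i, 0 ≤ p i ∧ p i ≤ 1) (f : Finset ι → ℝ) (D : Finset ι) {K L n η : ℝ}
    (hK : 1 ≤ K) (hη : 0 < η) (hη1 : η ≤ 1) (hL : 0 ≤ L) (hLK : L ≤ K)
    (hc : ∀ X i, i ∉ X → |f (insert i X) - f X| ≤ L)
    (hD : L ^ 2 * ∑ i ∈ D, p i ≤ K * n)
    (hR : ∀ X : Finset ι, ∃ R : Finset ι, L ^ 2 * ∑ i ∈ R, p i ≤ K * n ∧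
      ∀ Y : Finset ι, Y ∩ D = X ∩ D → ∀ j, j ∉ D → j ∉ R → f (insert j Y) = f Y) :
    Pr p (fun X => Ex p f + 2 * (η * n) ≤ f X) ≤ 4 * Real.exp (-(η ^ 2 * n / (4 * K))) := by
  set b := 2 * Real.exp (-(η ^ 2 * n / (4 * K))) with hb
  let h : Finset ι → ℝ := fun X => Ex p fun B => f (X ∩ D ∪ B \ D)
  have hEh : Ex p h = Ex p f := (Ex_split D f).symm
  have h1 : Pr p (fun X => η * 1 * n ≤ |h X - Ex p h|) ≤ b := by
    refine tail hp h (fun i => L * ind (i ∈ D)) hK one_pos hη hη1 (fun X i _ => ?_)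
      (fun i => ?_) ?_
    · by_cases hi : i ∈ D
      · rw [ind_pos hi, mul_one]
        refine abs_Ex_le hp fun B => ?_
        rw [Finset.insert_inter_of_mem hi, Finset.insert_union]
        exact lip_insert hL hc _ _
      · rw [ind_neg hi, mul_zero]
        simp only [h]
        rw [Finset.insert_inter_of_notMem hi, sub_self, abs_zero]
    · have := ind_le_one (i ∈ D)
      nlinarith
    · rw [sum_sq_ind]
      linarith
  have h2 : ∀ X : Finset ι,
      Pr p (fun B => η * 1 * n ≤ |f (X ∩ D ∪ B \ D) - h X|) ≤ b := by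
    intro X
    obtain ⟨R, hR1, hR2⟩ := hR X
    refine tail hp (fun B => f (X ∩ D ∪ B \ D)) (fun i => L * ind (i ∈ R)) hK one_pos hη hη1
      (fun B i _ => ?_) (fun i => ?_) ?_
    · by_cases hi : i ∈ D
      · have : insert i B \ D = B \ D := Finset.insert_sdiff_of_mem _ hi
        simp only [this, sub_self, abs_zero]
        exact mul_nonneg hL (ind_nonneg _)
      · have e1 : X ∩ D ∪ insert i B \ D = insert i (X ∩ D ∪ B \ D) := by
          rw [Finset.insert_sdiff_of_notMem _ hi, Finset.union_insert]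
        simp only [e1]
        by_cases hiR : i ∈ R
        · rw [ind_pos hiR, mul_one]
          exact lip_insert hL hc _ _
        · rw [hR2 _ ?_ i hi hiR, sub_self, abs_zero]
          · exact mul_nonneg hL (ind_nonneg _)
          · ext a
            simp only [Finset.mem_inter, Finset.mem_union, Finset.mem_sdiff]
            tauto
    · have := ind_le_one (i ∈ R)
      nlinarith
    · rw [sum_sq_ind]
      linarith
  unfold Pr
  rw [Ex_split D]
  calc Ex p (fun X => Ex p fun B => ind (Ex p f + 2 * (η * n) ≤ f (X ∩ D ∪ B \ D)))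
      ≤ Ex p (fun X => ind (η * 1 * n ≤ |h X - Ex p h|) + b) := by
        refine Ex_mono hp fun X => ?_
        by_cases hX : η * 1 * n ≤ |h X - Ex p h|
        · rw [ind_pos hX]
          have : Ex p (fun B => ind (Ex p f + 2 * (η * n) ≤ f (X ∩ D ∪ B \ D))) ≤
              Ex p (fun _ => 1) := Ex_mono hp fun B => ind_le_one _
          rw [Ex_const] at this
          have : 0 ≤ b := by positivity
          linarith
        · rw [ind_neg hX, zero_add]
          refine le_trans (Ex_mono hp fun B => ind_mono fun hB => ?_) (h2 X)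
          rw [not_le, hEh, abs_lt] at hX
          refine le_trans ?_ (le_abs_self _)
          linarith [hX.2]
    _ = Pr p (fun X => η * 1 * n ≤ |h X - Ex p h|) + b := by
        rw [Ex_add, Ex_const]
        rfl
    _ ≤ _ := by linarith

end Nib

end Pool.Agent.Lib.MP_34bdde_co
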