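import Mathlib
import Pool.Agent.Lib.MP_34bdde_co.NibbleA

set_option autoImplicit false
set_option linter.unusedSectionVars false
set_option linter.unusedVariables false

/-! Weighted hypergraphs: degrees, mass, survival probabilities, alive and wasted atoms. -/

open Finset
open scoped Classical

noncomputable section

namespace Pool.Agent.Lib.MP_34bdde_co

namespace Nib

variable {A J : Type}

/-- Weighted degree. -/
def dg [Fintype J] (e : J → Finset A) (w : J → ℝ) (a : A) : ℝ := ∑ j, ind (a ∈ e j) * w j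

/-- Weighted codegree. -/
def cdg [Fintype J] (e : J → Finset A) (w : J → ℝ) (a b : A) : ℝ :=
  ∑ j, ind (a ∈ e j ∧ b ∈ e j) * w j

/-- Weight of the edges meeting `B`. -/
def mass [Fintype J] (e : J → Finset A) (w : J → ℝ) (B : Finset A) : ℝ :=
  ∑ j, ind (¬ Disjoint (e j) B) * w j

/-- No activated edge meets `B`. -/
def surv (e : J → Finset A) (X : Finset J) (B : Finset A) : Prop := ∀ j ∈ X, Disjoint (e j) B

/-- Activation probabilities. -/
def pr (θ : ℝ) (w : J → ℝ) (j : J) : ℝ := 1 - Real.exp (-(θ * w j))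

/-- The edges meeting `B`. -/
def meets [Fintype J] (e : J → Finset A) (B : Finset A) : Finset J :=
  univ.filter fun j => ¬ Disjoint (e j) B

lemma mem_meets [Fintype J] {e : J → Finset A} {B : Finset A} {j : J} :
    j ∈ meets e B ↔ ¬ Disjoint (e j) B := by
  simp [meets]

lemma pr_bounds {θ : ℝ} {w : J → ℝ} (hθ : 0 ≤ θ) (hw : ∀ j, 0 ≤ w j) (j : J) :
    0 ≤ pr θ w j ∧ pr θ w j ≤ 1 := by
  unfold pr
  have h1 : Real.exp (-(θ * w j)) ≤ 1 :=
    Real.exp_le_one_iff.mpr (neg_nonpos.mpr (mul_nonneg hθ (hw j)))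
  have h2 := Real.exp_pos (-(θ * w j))
  constructor <;> linarith

lemma pr_le {θ : ℝ} {w : J → ℝ} (j : J) : pr θ w j ≤ θ * w j := by
  unfold pr
  linarith [Real.add_one_le_exp (-(θ * w j))]

lemma ne_zero_of_pr {θ : ℝ} {w : J → ℝ} {j : J} (h : pr θ w j ≠ 0) : w j ≠ 0 := by
  intro h0
  apply h
  simp [pr, h0]

lemma ind_and (P Q : Prop) : ind (P ∧ Q) = ind P * ind Q := by
  by_cases hP : P
  · by_cases hQ : Q
    · rw [ind_pos hP, ind_pos hQ, ind_pos ⟨hP, hQ⟩, one_mul]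
    · rw [ind_neg hQ, ind_neg fun h => hQ h.2, mul_zero]
  · rw [ind_neg hP, ind_neg fun h => hP h.1, zero_mul]

lemma card_le_of_disjoint (e : J → Finset A) (Z : Finset J) (B : Finset A)
    (hd : ∀ i ∈ Z, ∀ j ∈ Z, i ≠ j → Disjoint (e i) (e j))
    (hm : ∀ i ∈ Z, ¬ Disjoint (e i) B) : Z.card ≤ B.card := by
  have h : ∀ i : Z, ∃ a, a ∈ e i ∧ a ∈ B := fun i => by
    obtain ⟨a, h1, h2⟩ := Finset.not_disjoint_iff.mp (hm i i.2)
    exact ⟨a, h1, h2⟩
  choose g hg using h
  have := Finset.card_le_card_of_injOn (s := (univ : Finset Z)) (t := B) g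
    (fun i _ => Finset.mem_coe.mpr (hg i).2) (fun i _ j _ hij => by
      by_contra hne
      have hne' : (i : J) ≠ j := fun h => hne (Subtype.ext h)
      exact Finset.disjoint_left.mp (hd i i.2 j j.2 hne') (hg i).1 (hij ▸ (hg j).1))
  simpa using this

variable [Fintype A] [Fintype J] {e : J → Finset A} {w : J → ℝ}

lemma dg_nonneg (hw : ∀ j, 0 ≤ w j) (a : A) : 0 ≤ dg e w a :=
  Finset.sum_nonneg fun j _ => mul_nonneg (ind_nonneg _) (hw j)

lemma cdg_nonneg (hw : ∀ j, 0 ≤ w j) (a b : A) : 0 ≤ cdg e w a b :=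
  Finset.sum_nonneg fun j _ => mul_nonneg (ind_nonneg _) (hw j)

lemma swap (φ : A → ℝ) :
    ∑ j, w j * ∑ u, ind (u ∈ e j) * φ u = ∑ u, φ u * dg e w u := by
  simp only [dg, Finset.mul_sum]
  rw [Finset.sum_comm]
  exact Finset.sum_congr rfl fun u _ => Finset.sum_congr rfl fun j _ => by ring

lemma ind_meets_le (B C : Finset A) :
    ind (¬ Disjoint B C) ≤ ∑ u, ind (u ∈ B) * ind (u ∈ C) := by
  by_cases h : Disjoint B C
  · rw [ind_neg (not_not.mpr h)]
    exact Finset.sum_nonneg fun u _ => mul_nonneg (ind_nonneg _) (ind_nonneg _)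
  · rw [ind_pos h]
    obtain ⟨a, h1, h2⟩ := Finset.not_disjoint_iff.mp h
    have := Finset.single_le_sum (f := fun u => ind (u ∈ B) * ind (u ∈ C))
      (fun u _ => mul_nonneg (ind_nonneg _) (ind_nonneg _)) (Finset.mem_univ a)
    rwa [ind_pos h1, ind_pos h2, one_mul] at this

lemma mass_le (hw : ∀ j, 0 ≤ w j) (hd : ∀ a, dg e w a ≤ 1) (B : Finset A) :
    mass e w B ≤ B.card := by
  calc mass e w B ≤ ∑ j, w j * ∑ u, ind (u ∈ e j) * ind (u ∈ B) :=
        Finset.sum_le_sum fun j _ => by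
          rw [mul_comm]
          exact mul_le_mul_of_nonneg_left (ind_meets_le _ _) (hw j)
    _ = ∑ u, ind (u ∈ B) * dg e w u := swap _
    _ ≤ ∑ u, ind (u ∈ B) := Finset.sum_le_sum fun u _ => by
          have := ind_nonneg (u ∈ B)
          have := hd u
          nlinarith
    _ = B.card := (card_eq_ind B).symm

lemma mass_singleton (a : A) : mass e w {a} = dg e w a :=
  Finset.sum_congr rfl fun j _ => by
    rw [ind_congr (Q := a ∈ e j) (by simp)]

lemma le_mass (hw : ∀ j, 0 ≤ w j) {δ : ℝ} (hδ : 0 ≤ δ) (hc : ∀ a b, a ≠ b → cdg e w a b ≤ δ)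
    (B : Finset A) (hB : ∀ a ∈ B, dg e w a = 1) :
    (B.card : ℝ) - (B.card : ℝ) ^ 2 * δ ≤ mass e w B := by
  induction B using Finset.induction_on with
  | empty => simp [mass, ind_neg]
  | insert a B ha ih =>
    have ih' := ih fun b hb => hB b (Finset.mem_insert_of_mem hb)
    have h1 : mass e w B + dg e w a - ∑ b ∈ B, cdg e w a b ≤ mass e w (insert a B) := by
      unfold mass dg cdg
      rw [Finset.sum_comm, ← Finset.sum_add_distrib, ← Finset.sum_sub_distrib]
      refine Finset.sum_le_sum fun j _ => ?_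
      rw [← Finset.sum_mul, ← add_mul, ← sub_mul]
      refine mul_le_mul_of_nonneg_right ?_ (hw j)
      have h0 : 0 ≤ ∑ b ∈ B, ind (a ∈ e j ∧ b ∈ e j) :=
        Finset.sum_nonneg fun b _ => ind_nonneg _
      by_cases h2 : a ∈ e j
      · have h3 : ¬ Disjoint (e j) (insert a B) :=
          Finset.not_disjoint_iff.mpr ⟨a, h2, Finset.mem_insert_self _ _⟩
        rw [ind_pos h3, ind_pos h2]
        by_cases h4 : Disjoint (e j) B
        · rw [ind_neg (not_not.mpr h4)]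
          linarith
        · rw [ind_pos h4]
          obtain ⟨b, hb1, hb2⟩ := Finset.not_disjoint_iff.mp h4
          have := Finset.single_le_sum (f := fun b => ind (a ∈ e j ∧ b ∈ e j))
            (fun b _ => ind_nonneg _) hb2
          rw [ind_pos ⟨h2, hb1⟩] at this
          linarith
      · rw [ind_neg h2]
        have : ind (¬ Disjoint (e j) B) ≤ ind (¬ Disjoint (e j) (insert a B)) :=
          ind_mono fun h h' => h (Finset.disjoint_of_subset_right (Finset.subset_insert _ _) h')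
        linarith
    have h2 : ∑ b ∈ B, cdg e w a b ≤ B.card * δ := by
      calc ∑ b ∈ B, cdg e w a b ≤ ∑ _b ∈ B, δ :=
            Finset.sum_le_sum fun b hb => hc a b fun h => ha (h ▸ hb)
        _ = _ := by simp
    rw [hB a (Finset.mem_insert_self _ _)] at h1
    rw [Finset.card_insert_of_notMem ha]
    push_cast
    have : (0 : ℝ) ≤ B.card := Nat.cast_nonneg _
    nlinarith

lemma sum_meets (B : Finset A) : ∑ j ∈ meets e B, w j = mass e w B := by
  unfold meets mass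
  rw [sum_filter_ind]

lemma Pr_surv (θ : ℝ) (B : Finset A) :
    Pr (pr θ w) (fun X => surv e X B) = Real.exp (-(θ * mass e w B)) := by
  have h := Pr_disj (p := pr θ w) (meets e B)
  have e1 : (fun X : Finset J => surv e X B) = fun X => ∀ j ∈ X, j ∉ meets e B := by
    funext X
    simp [surv, mem_meets]
  rw [e1, h, ← sum_meets, Finset.mul_sum, ← Finset.sum_neg_distrib, Real.exp_sum]
  exact Finset.prod_congr rfl fun j _ => by simp [pr]

lemma sum_pr_meets {θ : ℝ} (hθ : 0 ≤ θ) (hθ1 : θ ≤ 1) (hw : ∀ j, 0 ≤ w j)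
    (hd : ∀ a, dg e w a ≤ 1) (B : Finset A) : ∑ j ∈ meets e B, pr θ w j ≤ θ * B.card := by
  calc ∑ j ∈ meets e B, pr θ w j ≤ ∑ j ∈ meets e B, θ * w j :=
        Finset.sum_le_sum fun j _ => pr_le j
    _ = θ * mass e w B := by rw [← Finset.mul_sum, sum_meets]
    _ ≤ _ := mul_le_mul_of_nonneg_left (mass_le hw hd B) hθ

lemma surv_insert {X : Finset J} {j : J} {B : Finset A} :
    surv e (insert j X) B ↔ Disjoint (e j) B ∧ surv e X B := by
  simp [surv]

/-- A count that changes only inside a small set changes little. -/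
lemma abs_cnt_sub_le (P Q : A → Prop) (Z : Finset A) (h : ∀ a, a ∉ Z → (P a ↔ Q a)) :
    |(cnt P : ℝ) - cnt Q| ≤ Z.card := by
  rw [cnt_eq_ind, cnt_eq_ind, ← Finset.sum_sub_distrib, card_eq_ind]
  refine (Finset.abs_sum_le_sum_abs _ _).trans (Finset.sum_le_sum fun a _ => ?_)
  by_cases ha : a ∈ Z
  · rw [ind_pos ha, abs_le]
    constructor <;> linarith [ind_nonneg (P a), ind_nonneg (Q a), ind_le_one (P a),
      ind_le_one (Q a)]
  · rw [ind_congr (h a ha), sub_self, abs_zero]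
    exact ind_nonneg _

lemma Ex_cnt {p : J → ℝ} (P : A → Finset J → Prop) :
    Ex p (fun X => (cnt fun a => P a X : ℝ)) = ∑ a, Pr p (P a) := by
  simp only [cnt_eq_ind]
  exact Ex_sum _ _

lemma Pr_and_const {p : J → ℝ} (Q : Prop) (P : Finset J → Prop) :
    Pr p (fun X => Q ∧ P X) = ind Q * Pr p P := by
  unfold Pr
  simp only [ind_and]
  exact Ex_mul _ _

/-- The number of surviving atoms of a test set. -/
lemma alive_tail {θ η K n : ℝ} {k : ℕ} (hθ : 0 ≤ θ) (hθ1 : θ ≤ 1) (hη : 0 < η) (hη1 : η ≤ 1)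
    (hK : 1 ≤ K) (hkK : (k : ℝ) ≤ K) (hkK2 : (k : ℝ) ^ 2 ≤ K) (hw : ∀ j, 0 ≤ w j)
    (hd : ∀ a, dg e w a ≤ 1) (hk : ∀ j, (e j).card ≤ k) (S : Finset A)
    (hS1 : ∀ a ∈ S, dg e w a = 1) (hS : (S.card : ℝ) ≤ n) :
    Pr (pr θ w) (fun X => Real.exp (-θ) * S.card + η * n ≤
      (cnt fun a => a ∈ S ∧ surv e X {a} : ℕ)) ≤ 2 * Real.exp (-(η ^ 2 * n / (4 * K))) := by
  have hp := pr_bounds hθ hw
  have hk0 : (0 : ℝ) ≤ k := Nat.cast_nonneg _
  have h := tail hp (fun X => ((cnt fun a => a ∈ S ∧ surv e X {a} : ℕ) : ℝ))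
    (fun j => k * ind (j ∈ meets e S)) (n := n) hK one_pos hη hη1 (fun X j _ => ?_)
    (fun j => ?_) ?_
  · refine le_trans (Pr_mono hp fun X hX => ?_) h
    have hE : Ex (pr θ w) (fun X => ((cnt fun a => a ∈ S ∧ surv e X {a} : ℕ) : ℝ)) =
        Real.exp (-θ) * S.card := by
      rw [Ex_cnt fun a X => a ∈ S ∧ surv e X {a}, card_eq_ind, Finset.mul_sum]
      refine Finset.sum_congr rfl fun a _ => ?_
      rw [Pr_and_const, Pr_surv, mass_singleton]
      by_cases ha : a ∈ S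
      · rw [hS1 a ha, mul_one, mul_comm]
      · rw [ind_neg ha, zero_mul, mul_zero]
    rw [hE]
    refine le_trans ?_ (le_abs_self _)
    linarith
  · by_cases hj : j ∈ meets e S
    · rw [ind_pos hj, mul_one]
      refine (abs_cnt_sub_le _ _ (e j) fun a ha => ?_).trans (Nat.cast_le.mpr (hk j))
      rw [surv_insert]
      simp [ha]
    · rw [ind_neg hj, mul_zero]
      refine (abs_cnt_sub_le _ _ ∅ fun a _ => ?_).trans (by simp)
      rw [surv_insert]
      rw [mem_meets, not_not] at hj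
      constructor
      · exact fun h => ⟨h.1, h.2.2⟩
      · refine fun h => ⟨h.1, ?_, h.2⟩
        exact Finset.disjoint_of_subset_right (Finset.singleton_subset_iff.mpr h.1) hj
  · have := ind_le_one (j ∈ meets e S)
    nlinarith
  · rw [sum_sq_ind]
    have h1 := sum_pr_meets hθ hθ1 hw hd S
    have h2 : (0 : ℝ) ≤ S.card := Nat.cast_nonneg _
    have h3 : ∑ j ∈ meets e S, pr θ w j ≤ n := by nlinarith
    have h4 : 0 ≤ ∑ j ∈ meets e S, pr θ w j := Finset.sum_nonneg fun j _ => (hp j).1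
    nlinarith

/-- The atom `a` lies in an activated edge that is a dummy or meets another activated edge. -/
def wasted (e : J → Finset A) (dum : J → Prop) (X : Finset J) (a : A) : Prop :=
  ∃ i ∈ X, a ∈ e i ∧ (dum i ∨ ∃ j ∈ X, j ≠ i ∧ ¬ Disjoint (e j) (e i))

/-- Activated edges that meet no other activated edge. -/
def iso (e : J → Finset A) (X : Finset J) : Finset J :=
  X.filter fun i => ∀ j ∈ X, j ≠ i → Disjoint (e j) (e i)

lemma mem_iso {X : Finset J} {i : J} :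
    i ∈ iso e X ↔ i ∈ X ∧ ∀ j ∈ X, j ≠ i → Disjoint (e j) (e i) := by
  simp [iso]

lemma wasted_mono {dum : J → Prop} {X Y : Finset J} (h : X ⊆ Y) {a : A}
    (hX : wasted e dum X a) : wasted e dum Y a := by
  obtain ⟨i, hi, ha, h1 | ⟨j, hj, h2⟩⟩ := hX
  · exact ⟨i, h hi, ha, Or.inl h1⟩
  · exact ⟨i, h hi, ha, Or.inr ⟨j, h hj, h2⟩⟩

lemma wasted_insert {dum : J → Prop} {X : Finset J} {j : J} {a : A}
    (h : wasted e dum (insert j X) a) :
    wasted e dum X a ∨ a ∈ e j ∨ ∃ i ∈ iso e X, a ∈ e i ∧ ¬ Disjoint (e j) (e i) := by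
  obtain ⟨i, hi, ha, h1⟩ := h
  rcases Finset.mem_insert.mp hi with rfl | hi
  · exact Or.inr (Or.inl ha)
  by_cases hiso : i ∈ iso e X
  · rcases h1 with h1 | ⟨j', hj', h2, h3⟩
    · exact Or.inl ⟨i, hi, ha, Or.inl h1⟩
    · rcases Finset.mem_insert.mp hj' with rfl | hj'
      · exact Or.inr (Or.inr ⟨i, hiso, ha, h3⟩)
      · exact Or.inl ⟨i, hi, ha, Or.inr ⟨j', hj', h2, h3⟩⟩
  · rw [mem_iso] at hiso
    push Not at hiso
    obtain ⟨j', hj', h2, h3⟩ := hiso hi
    exact Or.inl ⟨i, hi, ha, Or.inr ⟨j', hj', h2, h3⟩⟩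

lemma card_iso_atoms {k : ℕ} (hk : ∀ j, (e j).card ≤ k) (X : Finset J) (B : Finset A) :
    (((iso e X).filter fun i => ¬ Disjoint (e i) B).biUnion e).card ≤ B.card * k := by
  refine (Finset.card_biUnion_le_card_mul _ _ k fun i _ => hk i).trans ?_
  refine Nat.mul_le_mul_right _ (card_le_of_disjoint e _ B (fun i hi j hj hij => ?_)
    fun i hi => (Finset.mem_filter.mp hi).2)
  exact (mem_iso.mp (Finset.mem_filter.mp hj).1).2 i (mem_iso.mp (Finset.mem_filter.mp hi).1).1 hij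

lemma Pr_wasted {θ β : ℝ} {k : ℕ} (hθ : 0 ≤ θ) (hθ1 : θ ≤ 1) (hw : ∀ j, 0 ≤ w j)
    (hd : ∀ a, dg e w a ≤ 1) (hk : ∀ j, (e j).card ≤ k) (dum : J → Prop) (a : A)
    (hβ : ∑ j, ind (a ∈ e j ∧ dum j) * w j ≤ β) :
    Pr (pr θ w) (fun X => wasted e dum X a) ≤ θ * β + θ ^ 2 * k := by
  have hp := pr_bounds hθ hw
  have h1 : ∀ X : Finset J, ind (wasted e dum X a) ≤
      ∑ i, (ind (a ∈ e i ∧ dum i) * ind (i ∈ X) +
        ∑ j, ind (a ∈ e i ∧ j ≠ i ∧ j ∈ meets e (e i)) * ind (i ∈ X ∧ j ∈ X)) := by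
    intro X
    have hn : ∀ i, 0 ≤ ∑ j, ind (a ∈ e i ∧ j ≠ i ∧ j ∈ meets e (e i)) * ind (i ∈ X ∧ j ∈ X) :=
      fun i => Finset.sum_nonneg fun j _ => mul_nonneg (ind_nonneg _) (ind_nonneg _)
    have hn' : ∀ i, 0 ≤ ind (a ∈ e i ∧ dum i) * ind (i ∈ X) :=
      fun i => mul_nonneg (ind_nonneg _) (ind_nonneg _)
    by_cases h : wasted e dum X a
    · rw [ind_pos h]
      obtain ⟨i, hi, ha, h1⟩ := h
      refine le_trans ?_ (Finset.single_le_sum (f := fun i => ind (a ∈ e i ∧ dum i) * ind (i ∈ X) +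
        ∑ j, ind (a ∈ e i ∧ j ≠ i ∧ j ∈ meets e (e i)) * ind (i ∈ X ∧ j ∈ X))
        (fun i _ => add_nonneg (hn' i) (hn i)) (Finset.mem_univ i))
      rcases h1 with h1 | ⟨j, hj, h2, h3⟩
      · rw [ind_pos ⟨ha, h1⟩, ind_pos hi]
        linarith [hn i]
      · have := Finset.single_le_sum
          (f := fun j => ind (a ∈ e i ∧ j ≠ i ∧ j ∈ meets e (e i)) * ind (i ∈ X ∧ j ∈ X))
          (fun j _ => mul_nonneg (ind_nonneg _) (ind_nonneg _)) (Finset.mem_univ j)
        rw [ind_pos ⟨ha, h2, mem_meets.mpr h3⟩, ind_pos ⟨hi, hj⟩] at this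
        linarith [hn' i]
    · rw [ind_neg h]
      exact Finset.sum_nonneg fun i _ => add_nonneg (hn' i) (hn i)
  refine (Ex_mono hp h1).trans ?_
  rw [Ex_sum]
  have h2 : ∀ i, Ex (pr θ w) (fun X => ind (a ∈ e i ∧ dum i) * ind (i ∈ X) +
        ∑ j, ind (a ∈ e i ∧ j ≠ i ∧ j ∈ meets e (e i)) * ind (i ∈ X ∧ j ∈ X)) ≤
      θ * (ind (a ∈ e i ∧ dum i) * w i) + θ ^ 2 * k * (ind (a ∈ e i) * w i) := by
    intro i
    rw [Ex_add, Ex_mul, Ex_sum]
    have e1 : Ex (pr θ w) (fun X => ind (i ∈ X)) = pr θ w i := Pr_mem i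
    rw [e1]
    refine add_le_add ?_ ?_
    · have := mul_le_mul_of_nonneg_left (pr_le (θ := θ) (w := w) i)
        (ind_nonneg (a ∈ e i ∧ dum i))
      linarith
    · have h3 : ∀ j, Ex (pr θ w) (fun X => ind (a ∈ e i ∧ j ≠ i ∧ j ∈ meets e (e i)) *
          ind (i ∈ X ∧ j ∈ X)) ≤ ind (a ∈ e i) * pr θ w i * (ind (j ∈ meets e (e i)) * pr θ w j) := by
        intro j
        rw [Ex_mul]
        by_cases hc : a ∈ e i ∧ j ≠ i ∧ j ∈ meets e (e i)
        · have e2 : Ex (pr θ w) (fun X => ind (i ∈ X ∧ j ∈ X)) = pr θ w i * pr θ w j :=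
            Pr_mem_mem hc.2.1.symm
          rw [e2, ind_pos hc, ind_pos hc.1, ind_pos hc.2.2]
          linarith
        · rw [ind_neg hc, zero_mul]
          exact mul_nonneg (mul_nonneg (ind_nonneg _) (hp i).1)
            (mul_nonneg (ind_nonneg _) (hp j).1)
      refine (Finset.sum_le_sum fun j _ => h3 j).trans ?_
      rw [← Finset.mul_sum, ← sum_mem_ind]
      have h4 : ∑ j ∈ meets e (e i), pr θ w j ≤ θ * k :=
        (sum_pr_meets hθ hθ1 hw hd (e i)).trans
          (mul_le_mul_of_nonneg_left (Nat.cast_le.mpr (hk i)) hθ)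
      have h5 : ind (a ∈ e i) * pr θ w i ≤ ind (a ∈ e i) * (θ * w i) :=
        mul_le_mul_of_nonneg_left (pr_le i) (ind_nonneg _)
      calc _ ≤ ind (a ∈ e i) * (θ * w i) * (θ * k) :=
            mul_le_mul h5 h4 (Finset.sum_nonneg fun j _ => (hp j).1)
              (mul_nonneg (ind_nonneg _) (mul_nonneg hθ (hw i)))
        _ = _ := by ring
  refine (Finset.sum_le_sum fun i _ => h2 i).trans ?_
  rw [Finset.sum_add_distrib, ← Finset.mul_sum, ← Finset.mul_sum]
  have h6 : ∑ i, ind (a ∈ e i) * w i ≤ 1 := hd a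
  have h7 : (0 : ℝ) ≤ θ ^ 2 * k := by positivity
  nlinarith

/-- The number of wasted atoms of a test set. -/
lemma waste_tail {θ η K n β : ℝ} {k : ℕ} (hθ : 0 ≤ θ) (hθ1 : θ ≤ 1) (hη : 0 < η) (hη1 : η ≤ 1)
    (hK : 1 ≤ K) (hk1 : 1 ≤ k) (hkK : ((k : ℝ) + k * k) ^ 2 * k ≤ K) (hβ0 : 0 ≤ β)
    (hw : ∀ j, 0 ≤ w j) (hd : ∀ a, dg e w a ≤ 1) (hk : ∀ j, (e j).card ≤ k) (dum : J → Prop)
    (S : Finset A) (hβ : ∀ a ∈ S, ∑ j, ind (a ∈ e j ∧ dum j) * w j ≤ β)
    (hS : (S.card : ℝ) ≤ n) :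
    Pr (pr θ w) (fun X => (θ * β + θ ^ 2 * k + 2 * η) * n ≤
      (cnt fun a => a ∈ S ∧ wasted e dum X a : ℕ)) ≤ 4 * Real.exp (-(η ^ 2 * n / (4 * K))) := by
  have hp := pr_bounds hθ hw
  have hk1' : (1 : ℝ) ≤ k := by exact_mod_cast hk1
  have hL1 : (1 : ℝ) ≤ k + k * k := by nlinarith
  have hL2 : ((k : ℝ) + k * k) ^ 2 ≤ K := by nlinarith
  have hS0 : (0 : ℝ) ≤ S.card := Nat.cast_nonneg _
  have h := two_round hp (fun X => ((cnt fun a => a ∈ S ∧ wasted e dum X a : ℕ) : ℝ))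
    (meets e S) (L := k + k * k) (n := n) hK hη hη1 (by linarith) (by nlinarith)
    (fun X j _ => ?_) ?_ (fun X => ?_)
  · refine le_trans (Pr_mono hp fun X hX => ?_) h
    have hE : Ex (pr θ w) (fun X => ((cnt fun a => a ∈ S ∧ wasted e dum X a : ℕ) : ℝ)) ≤
        (θ * β + θ ^ 2 * k) * n := by
      rw [Ex_cnt fun a X => a ∈ S ∧ wasted e dum X a]
      have h0 : 0 ≤ θ * β + θ ^ 2 * k := by positivity
      calc _ ≤ ∑ a, (θ * β + θ ^ 2 * k) * ind (a ∈ S) := by
            refine Finset.sum_le_sum fun a _ => ?_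
            rw [Pr_and_const]
            by_cases ha : a ∈ S
            · rw [ind_pos ha, one_mul, mul_one]
              exact Pr_wasted hθ hθ1 hw hd hk dum a (hβ a ha)
            · rw [ind_neg ha, zero_mul, mul_zero]
        _ = (θ * β + θ ^ 2 * k) * S.card := by rw [← Finset.mul_sum, ← card_eq_ind]
        _ ≤ _ := mul_le_mul_of_nonneg_left hS h0
    linarith
  · refine (abs_cnt_sub_le _ _
      (e j ∪ ((iso e X).filter fun i => ¬ Disjoint (e i) (e j)).biUnion e) fun a ha => ?_).trans ?_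
    · refine and_congr_right fun _ => ⟨fun h => ?_, wasted_mono (Finset.subset_insert _ _)⟩
      rcases wasted_insert h with h | h | ⟨i, hi, h1, h2⟩
      · exact h
      · exact absurd (Finset.mem_union_left _ h) ha
      · refine absurd (Finset.mem_union_right _ (Finset.mem_biUnion.mpr ⟨i, ?_, h1⟩)) ha
        exact Finset.mem_filter.mpr ⟨hi, fun h => h2 h.symm⟩
    · have h1 := Finset.card_union_le (e j)
        (((iso e X).filter fun i => ¬ Disjoint (e i) (e j)).biUnion e)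
      have h2 := card_iso_atoms hk X (e j)
      have h3 : (e j).card * k ≤ k * k := Nat.mul_le_mul_right _ (hk j)
      have h4 := hk j
      exact_mod_cast (by omega : _ ≤ k + k * k)
  · have h1 := sum_pr_meets hθ hθ1 hw hd S
    have h3 : ∑ j ∈ meets e S, pr θ w j ≤ n := by nlinarith
    have h4 : 0 ≤ ∑ j ∈ meets e S, pr θ w j := Finset.sum_nonneg fun j _ => (hp j).1
    exact mul_le_mul hL2 h3 h4 (by linarith)
  · refine ⟨meets e (((iso e (X ∩ meets e S)).filter fun i => ¬ Disjoint (e i) S).biUnion e),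
      ?_, fun Y hY j hj hjR => ?_⟩
    · have h1 := sum_pr_meets hθ hθ1 hw hd
        (((iso e (X ∩ meets e S)).filter fun i => ¬ Disjoint (e i) S).biUnion e)
      have h2 : (((((iso e (X ∩ meets e S)).filter fun i => ¬ Disjoint (e i) S).biUnion e).card
          : ℕ) : ℝ) ≤ S.card * k := by exact_mod_cast card_iso_atoms hk (X ∩ meets e S) S
      have h3 := mul_le_mul hθ1 h2 (Nat.cast_nonneg _) zero_le_one
      have h4 : (S.card : ℝ) * k ≤ k * n := by nlinarith
      calc _ ≤ ((k : ℝ) + k * k) ^ 2 * (k * n) :=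
            mul_le_mul_of_nonneg_left (by linarith) (by positivity)
        _ = ((k : ℝ) + k * k) ^ 2 * k * n := by ring
        _ ≤ _ := mul_le_mul_of_nonneg_right hkK (by linarith)
    · have h0 := abs_cnt_sub_le (fun a => a ∈ S ∧ wasted e dum (insert j Y) a)
        (fun a => a ∈ S ∧ wasted e dum Y a) ∅ fun a _ => ?_
      · simpa [sub_eq_zero] using h0
      refine and_congr_right fun haS => ⟨fun h => ?_, wasted_mono (Finset.subset_insert _ _)⟩
      rcases wasted_insert h with h | h | ⟨i, hi, h1, h2⟩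
      · exact h
      · exact absurd (mem_meets.mpr (Finset.not_disjoint_iff.mpr ⟨a, h, haS⟩)) hj
      · exfalso
        apply hjR
        have hiS : ¬ Disjoint (e i) S := Finset.not_disjoint_iff.mpr ⟨a, h1, haS⟩
        have hi' : i ∈ iso e (X ∩ meets e S) := by
          rw [← hY, mem_iso]
          exact ⟨Finset.mem_inter.mpr ⟨(mem_iso.mp hi).1, mem_meets.mpr hiS⟩,
            fun j' hj' => (mem_iso.mp hi).2 j' (Finset.mem_inter.mp hj').1⟩
        rw [mem_meets]
        refine fun hdis => h2 (Finset.disjoint_of_subset_right ?_ hdis)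
        exact Finset.subset_biUnion_of_mem e (Finset.mem_filter.mpr ⟨hi', hiS⟩)

end Nib

end Pool.Agent.Lib.MP_34bdde_co
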