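import Mathlib
import Pool.Agent.Lib.MP_34bdde_co.NibbleB

set_option autoImplicit false
set_option linter.unusedSectionVars false
set_option linter.unusedVariables false

/-! Concentration of the new degrees and one round of the nibble. -/

open Finset
open scoped Classical

noncomputable section

namespace Pool.Agent.Lib.MP_34bdde_co

namespace Nib

variable {A I J : Type} [Fintype A] [Fintype I] [Fintype J]

/-- The boosted weight of an edge. -/
def boost (θ : ℝ) (f : I → Finset A) (ω : I → ℝ) (i : I) : ℝ :=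
  ω i * Real.exp (θ * ((f i).card - 1))

/-- The degree of `v` after the round, before normalisation. -/
def newDeg (θ : ℝ) (e : J → Finset A) (f : I → Finset A) (ω : I → ℝ) (v : A) (X : Finset J) : ℝ :=
  ∑ i, ind (v ∈ f i) * boost θ f ω i * ind (surv e X ((f i).erase v))

variable {e : J → Finset A} {w : J → ℝ} {f : I → Finset A} {ω : I → ℝ} {θ : ℝ} {k : ℕ}

lemma boost_nonneg (hω : ∀ i, 0 ≤ ω i) (i : I) : 0 ≤ boost θ f ω i :=
  mul_nonneg (hω i) (Real.exp_pos _).le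

lemma boost_le (hθ : 0 ≤ θ) (hω : ∀ i, 0 ≤ ω i) (hf : ∀ i, (f i).card ≤ k) (i : I) :
    boost θ f ω i ≤ Real.exp (θ * k) * ω i := by
  unfold boost
  rw [mul_comm]
  refine mul_le_mul_of_nonneg_right (Real.exp_le_exp.mpr (mul_le_mul_of_nonneg_left ?_ hθ)) (hω i)
  have : ((f i).card : ℝ) ≤ k := Nat.cast_le.mpr (hf i)
  linarith

lemma sum_cdg_le (hω : ∀ i, 0 ≤ ω i) (hf : ∀ i, (f i).card ≤ k) (v : A) :
    ∑ u, cdg f ω u v ≤ k * dg f ω v := by
  unfold cdg dg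
  rw [Finset.sum_comm, Finset.mul_sum]
  refine Finset.sum_le_sum fun i _ => ?_
  simp only [ind_and, mul_assoc]
  rw [← Finset.sum_mul, ← card_eq_ind]
  exact mul_le_mul_of_nonneg_right (Nat.cast_le.mpr (hf i)) (mul_nonneg (ind_nonneg _) (hω i))

lemma newDeg_mean {δ : ℝ} (hθ : 0 ≤ θ) (hδ : 0 ≤ δ) (hw : ∀ j, 0 ≤ w j)
    (hd : ∀ a, dg e w a ≤ 1) (hc : ∀ a b, a ≠ b → cdg e w a b ≤ δ) (hω : ∀ i, 0 ≤ ω i)
    (hf : ∀ i, (f i).card ≤ k) (hs : ∀ i, ω i ≠ 0 → ∀ a ∈ f i, dg e w a = 1) (v : A) :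
    dg f ω v ≤ Ex (pr θ w) (newDeg θ e f ω v) ∧
      Ex (pr θ w) (newDeg θ e f ω v) ≤ Real.exp (θ * (k ^ 2 * δ)) * dg f ω v := by
  have hE : Ex (pr θ w) (newDeg θ e f ω v) = ∑ i, ind (v ∈ f i) * boost θ f ω i *
      Real.exp (-(θ * mass e w ((f i).erase v))) := by
    unfold newDeg
    rw [Ex_sum]
    refine Finset.sum_congr rfl fun i _ => ?_
    rw [Ex_mul, ← Pr_surv]
    rfl
  have key : ∀ i, ind (v ∈ f i) * ω i ≤ ind (v ∈ f i) * boost θ f ω i *
      Real.exp (-(θ * mass e w ((f i).erase v))) ∧ ind (v ∈ f i) * boost θ f ω i *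
      Real.exp (-(θ * mass e w ((f i).erase v))) ≤
        Real.exp (θ * (k ^ 2 * δ)) * (ind (v ∈ f i) * ω i) := by
    intro i
    by_cases hv : v ∈ f i
    swap
    · simp [ind_neg hv]
    by_cases h0 : ω i = 0
    · simp [boost, h0]
    have hcard : (((f i).erase v).card : ℝ) = (f i).card - 1 := Finset.cast_card_erase_of_mem hv
    have h1 := mass_le hw hd ((f i).erase v)
    have h2 := le_mass hw hδ hc ((f i).erase v) fun a ha => hs i h0 a (Finset.mem_of_mem_erase ha)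
    have h3 : (((f i).erase v).card : ℝ) ≤ k :=
      Nat.cast_le.mpr ((Finset.card_erase_le).trans (hf i))
    have h4 : (((f i).erase v).card : ℝ) ^ 2 * δ ≤ k ^ 2 * δ :=
      mul_le_mul_of_nonneg_right (pow_le_pow_left₀ (Nat.cast_nonneg _) h3 2) hδ
    rw [ind_pos hv, one_mul, one_mul, boost, mul_assoc, ← Real.exp_add, ← hcard]
    constructor
    · refine le_mul_of_one_le_right (hω i) (Real.one_le_exp ?_)
      nlinarith
    · rw [mul_comm]
      refine mul_le_mul_of_nonneg_right (Real.exp_le_exp.mpr ?_) (hω i)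
      nlinarith
  rw [hE]
  constructor
  · exact Finset.sum_le_sum fun i _ => (key i).1
  · unfold dg
    rw [Finset.mul_sum]
    exact Finset.sum_le_sum fun i _ => (key i).2

lemma newDeg_lip (hθ : 0 ≤ θ) (hω : ∀ i, 0 ≤ ω i) (hf : ∀ i, (f i).card ≤ k) (v : A)
    (X : Finset J) (j : J) :
    |newDeg θ e f ω v (insert j X) - newDeg θ e f ω v X| ≤
      ∑ u, ind (u ∈ e j) * (Real.exp (θ * k) * (ind (u ≠ v) * cdg f ω u v)) := by
  unfold newDeg
  rw [← Finset.sum_sub_distrib]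
  refine (Finset.abs_sum_le_sum_abs _ _).trans ?_
  have h1 : ∀ i, |ind (v ∈ f i) * boost θ f ω i * ind (surv e (insert j X) ((f i).erase v)) -
      ind (v ∈ f i) * boost θ f ω i * ind (surv e X ((f i).erase v))| ≤
      ∑ u, ind (u ∈ e j) * (Real.exp (θ * k) * (ind (u ≠ v) * (ind (u ∈ f i ∧ v ∈ f i) * ω i))) := by
    intro i
    have h2 : |ind (surv e (insert j X) ((f i).erase v)) - ind (surv e X ((f i).erase v))| ≤
        ∑ u, ind (u ∈ e j) * ind (u ∈ (f i).erase v) := by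
      refine le_trans ?_ (ind_meets_le _ _)
      by_cases h : Disjoint (e j) ((f i).erase v)
      · rw [ind_congr (Q := surv e X ((f i).erase v)) (by rw [surv_insert]; simp [h]), sub_self,
          abs_zero]
        exact ind_nonneg _
      · rw [ind_pos h, abs_le]
        constructor <;> linarith [ind_nonneg (surv e (insert j X) ((f i).erase v)),
          ind_nonneg (surv e X ((f i).erase v)), ind_le_one (surv e (insert j X) ((f i).erase v)),
          ind_le_one (surv e X ((f i).erase v))]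
    have h3 : 0 ≤ ind (v ∈ f i) * boost θ f ω i := mul_nonneg (ind_nonneg _) (boost_nonneg hω i)
    rw [← mul_sub, abs_mul, abs_of_nonneg h3]
    calc _ ≤ ind (v ∈ f i) * (Real.exp (θ * k) * ω i) *
          ∑ u, ind (u ∈ e j) * ind (u ∈ (f i).erase v) :=
          mul_le_mul (mul_le_mul_of_nonneg_left (boost_le hθ hω hf i) (ind_nonneg _)) h2
            (abs_nonneg _) (mul_nonneg (ind_nonneg _) (mul_nonneg (Real.exp_pos _).le (hω i)))
      _ = _ := by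
          rw [Finset.mul_sum]
          refine Finset.sum_congr rfl fun u _ => ?_
          rw [ind_congr (Finset.mem_erase (s := f i) (a := u) (b := v)), ind_and, ind_and]
          ring
  refine (Finset.sum_le_sum fun i _ => h1 i).trans (le_of_eq ?_)
  rw [Finset.sum_comm]
  refine Finset.sum_congr rfl fun u _ => ?_
  simp only [cdg, Finset.mul_sum]

lemma deg_tail {δ η K n : ℝ} (hθ : 0 ≤ θ) (hθ1 : θ ≤ 1) (hη : 0 < η) (hη1 : η ≤ 1) (hK : 1 ≤ K)
    (hn : 0 < n) (hδ : 0 ≤ δ) (hK1 : Real.exp (θ * k) * k * (δ * n) ≤ K)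
    (hK2 : (Real.exp (θ * k) * k) ^ 2 * (δ * n) ≤ K) (hw : ∀ j, 0 ≤ w j)
    (hd : ∀ a, dg e w a ≤ 1) (hk : ∀ j, (e j).card ≤ k) (hω : ∀ i, 0 ≤ ω i)
    (hf : ∀ i, (f i).card ≤ k) (v : A) (hv : dg f ω v ≤ 1)
    (hc : ∀ u, u ≠ v → cdg f ω u v ≤ δ) :
    Pr (pr θ w) (fun X => η ≤ |newDeg θ e f ω v X - Ex (pr θ w) (newDeg θ e f ω v)|) ≤
      2 * Real.exp (-(η ^ 2 * n / (4 * K))) := by
  have hp := pr_bounds hθ hw
  set E := Real.exp (θ * k) with hE
  have hE0 : 0 < E := Real.exp_pos _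
  have hk0 : (0 : ℝ) ≤ k := Nat.cast_nonneg _
  let φ : A → ℝ := fun u => E * (ind (u ≠ v) * cdg f ω u v)
  have hφ0 : ∀ u, 0 ≤ φ u := fun u =>
    mul_nonneg hE0.le (mul_nonneg (ind_nonneg _) (cdg_nonneg hω _ _))
  have hφ1 : ∀ u, φ u ≤ E * δ := fun u => by
    refine mul_le_mul_of_nonneg_left ?_ hE0.le
    by_cases h : u = v
    · rw [ind_neg (not_not.mpr h), zero_mul]
      exact hδ
    · rw [ind_pos h, one_mul]
      exact hc u h
  have hφ2 : ∑ u, φ u ≤ E * k := by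
    calc ∑ u, φ u ≤ ∑ u, E * cdg f ω u v := Finset.sum_le_sum fun u _ =>
          mul_le_mul_of_nonneg_left (by
            have := ind_le_one (u ≠ v)
            have := cdg_nonneg (e := f) hω u v
            nlinarith) hE0.le
      _ = E * ∑ u, cdg f ω u v := by rw [Finset.mul_sum]
      _ ≤ E * (k * dg f ω v) := mul_le_mul_of_nonneg_left (sum_cdg_le hω hf v) hE0.le
      _ ≤ E * k := mul_le_mul_of_nonneg_left (by nlinarith) hE0.le
  have hc0 : ∀ j, 0 ≤ ∑ u, ind (u ∈ e j) * φ u := fun j =>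
    Finset.sum_nonneg fun u _ => mul_nonneg (ind_nonneg _) (hφ0 u)
  have hc1 : ∀ j, ∑ u, ind (u ∈ e j) * φ u ≤ E * k * δ := fun j => by
    calc _ ≤ ∑ u, ind (u ∈ e j) * (E * δ) :=
          Finset.sum_le_sum fun u _ => mul_le_mul_of_nonneg_left (hφ1 u) (ind_nonneg _)
      _ = (e j).card * (E * δ) := by rw [← Finset.sum_mul, ← card_eq_ind]
      _ ≤ k * (E * δ) := mul_le_mul_of_nonneg_right (Nat.cast_le.mpr (hk j)) (by positivity)
      _ = _ := by ring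
  have h := tail hp (newDeg θ e f ω v) (fun j => ∑ u, ind (u ∈ e j) * φ u) (s := 1 / n) (n := n)
    hK (by positivity) hη hη1 (fun X j _ => newDeg_lip hθ hω hf v X j) (fun j => ?_) ?_
  · have e1 : η * (1 / n) * n = η := by field_simp
    rwa [e1] at h
  · refine (hc1 j).trans ?_
    rw [mul_one_div, le_div_iff₀ hn]
    linarith
  · have h1 : ∑ j, pr θ w j * (∑ u, ind (u ∈ e j) * φ u) ^ 2 ≤
        E * k * δ * ∑ j, w j * ∑ u, ind (u ∈ e j) * φ u := by
      rw [Finset.mul_sum]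
      refine Finset.sum_le_sum fun j _ => ?_
      have h2 : pr θ w j ≤ w j := (pr_le j).trans (by nlinarith [hw j])
      calc _ ≤ w j * ((E * k * δ) * ∑ u, ind (u ∈ e j) * φ u) := by
            refine mul_le_mul h2 ?_ (sq_nonneg _) (hw j)
            rw [sq]
            exact mul_le_mul_of_nonneg_right (hc1 j) (hc0 j)
        _ = _ := by ring
    rw [swap] at h1
    have h3 : ∑ u, φ u * dg e w u ≤ E * k :=
      le_trans (Finset.sum_le_sum fun u _ => by nlinarith [hφ0 u, hd u]) hφ2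
    have h4 : E * k * δ * ∑ u, φ u * dg e w u ≤ E * k * δ * (E * k) :=
      mul_le_mul_of_nonneg_left h3 (by positivity)
    have e2 : K * (1 / n) ^ 2 * n = K / n := by field_simp
    rw [e2, le_div_iff₀ hn]
    nlinarith

/-- One round for a perfect fractional matching `(e, w)`, with a second system `(f, ω)` whose
degrees are controlled. -/
lemma round {T : Type} [Fintype T] {δ η K β : ℝ} {n : ℕ} (hθ : 0 ≤ θ) (hθ1 : θ ≤ 1) (hη : 0 < η)
    (hη1 : η ≤ 1) (hK : 1 ≤ K) (hn : 0 < n) (hδ : 0 ≤ δ) (hβ0 : 0 ≤ β) (hk1 : 1 ≤ k)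
    (hK1 : Real.exp (θ * k) * k * (δ * n) ≤ K)
    (hK2 : (Real.exp (θ * k) * k) ^ 2 * (δ * n) ≤ K) (hK3 : ((k : ℝ) + k * k) ^ 2 * k ≤ K)
    (hbig : 8 * (n : ℝ) ^ 3 * Real.exp (-(η ^ 2 * n / (4 * K))) < 1)
    (hA : Fintype.card A ≤ n ^ 3) (hT : Fintype.card T ≤ n ^ 3)
    (hw : ∀ j, 0 ≤ w j) (hd : ∀ a, dg e w a ≤ 1) (hk : ∀ j, (e j).card ≤ k)
    (hc : ∀ a b, a ≠ b → cdg e w a b ≤ δ) (hω : ∀ i, 0 ≤ ω i) (hf : ∀ i, (f i).card ≤ k)
    (hd' : ∀ a, dg f ω a ≤ 1) (hc' : ∀ a b, a ≠ b → cdg f ω a b ≤ δ)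
    (hs : ∀ i, ω i ≠ 0 → ∀ a ∈ f i, dg e w a = 1) (dum : J → Prop)
    (S : T → Finset A) (hS : ∀ t, (S t).card ≤ n) (hS1 : ∀ t, ∀ a ∈ S t, dg e w a = 1)
    (hβ : ∀ t, ∀ a ∈ S t, ∑ j, ind (a ∈ e j ∧ dum j) * w j ≤ β) :
    ∃ X : Finset J, (∀ j ∈ X, w j ≠ 0) ∧
      (∀ v, dg f ω v - η ≤ newDeg θ e f ω v X ∧
        newDeg θ e f ω v X ≤ Real.exp (θ * (k ^ 2 * δ)) + η) ∧
      (∀ t, ((cnt fun a => a ∈ S t ∧ surv e X {a} : ℕ) : ℝ) ≤
        Real.exp (-θ) * (S t).card + η * n) ∧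
      ∀ t, ((cnt fun a => a ∈ S t ∧ wasted e dum X a : ℕ) : ℝ) ≤
        (θ * β + θ ^ 2 * k + 2 * η) * n := by
  have hp := pr_bounds hθ hw
  have hn' : (0 : ℝ) < n := by exact_mod_cast hn
  have hk1' : (1 : ℝ) ≤ k := by exact_mod_cast hk1
  have hA' : (Fintype.card A : ℝ) ≤ (n : ℝ) ^ 3 := by exact_mod_cast hA
  have hT' : (Fintype.card T : ℝ) ≤ (n : ℝ) ^ 3 := by exact_mod_cast hT
  have hkk : (k : ℝ) ^ 2 ≤ K := by
    have h1 : (k : ℝ) ^ 2 ≤ ((k : ℝ) + k * k) ^ 2 :=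
      pow_le_pow_left₀ (by linarith) (by nlinarith) 2
    nlinarith
  have hkK : (k : ℝ) ≤ K := by nlinarith
  set b := Real.exp (-(η ^ 2 * n / (4 * K))) with hb
  have hb0 : 0 < b := Real.exp_pos _
  have h1 := Pr_exists hp
    (fun v X => η ≤ |newDeg θ e f ω v X - Ex (pr θ w) (newDeg θ e f ω v)|)
    fun v => deg_tail hθ hθ1 hη hη1 hK hn' hδ hK1 hK2 hw hd hk hω hf v (hd' v)
      fun u hu => hc' u v hu
  have h2 := Pr_exists hp
    (fun t X => Real.exp (-θ) * (S t).card + η * n ≤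
      (cnt fun a => a ∈ S t ∧ surv e X {a} : ℕ))
    fun t => alive_tail (n := n) hθ hθ1 hη hη1 hK hkK hkk hw hd hk (S t) (hS1 t)
      (Nat.cast_le.mpr (hS t))
  have h3 := Pr_exists hp
    (fun t X => (θ * β + θ ^ 2 * k + 2 * η) * n ≤
      (cnt fun a => a ∈ S t ∧ wasted e dum X a : ℕ))
    fun t => waste_tail (n := n) hθ hθ1 hη hη1 hK hk1 hK3 hβ0 hw hd hk dum (S t) (hβ t)
      (Nat.cast_le.mpr (hS t))
  obtain ⟨X, hX, hX0⟩ := exists_of_Pr hp (fun X =>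
    (∃ v, η ≤ |newDeg θ e f ω v X - Ex (pr θ w) (newDeg θ e f ω v)|) ∨
    (∃ t, Real.exp (-θ) * (S t).card + η * n ≤ (cnt fun a => a ∈ S t ∧ surv e X {a} : ℕ)) ∨
    ∃ t, (θ * β + θ ^ 2 * k + 2 * η) * n ≤ (cnt fun a => a ∈ S t ∧ wasted e dum X a : ℕ)) (by
      refine lt_of_le_of_lt ((Pr_or hp _ _).trans (add_le_add h1
        ((Pr_or hp _ _).trans (add_le_add h2 h3)))) ?_
      rw [← hb]
      nlinarith)
  push Not at hX
  obtain ⟨hX1, hX2, hX3⟩ := hX
  refine ⟨X, fun j hj => ne_zero_of_pr (hX0 j hj), fun v => ?_, fun t => (hX2 t).le,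
    fun t => (hX3 t).le⟩
  obtain ⟨m1, m2⟩ := newDeg_mean (θ := θ) hθ hδ hw hd hc hω hf hs v
  obtain ⟨a1, a2⟩ := abs_lt.mp (hX1 v)
  have m3 : Real.exp (θ * (k ^ 2 * δ)) * dg f ω v ≤ Real.exp (θ * (k ^ 2 * δ)) :=
    mul_le_of_le_one_right (Real.exp_pos _).le (hd' v)
  constructor <;> linarith

end Nib

end Pool.Agent.Lib.MP_34bdde_co
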