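import Mathlib
import Pool.Agent.Lib.MP_34bdde_co.NibbleC

set_option autoImplicit false
set_option linter.unusedSectionVars false
set_option linter.unusedVariables false

open Finset
open scoped Classical

noncomputable section

namespace Pool.Agent.Lib.MP_34bdde_co

namespace Nib

variable {A I T : Type} [Fintype A] [Fintype I] [Fintype T]

lemma sum_ind_single (a : A) (g : A → ℝ) : ∑ b, ind (a ∈ ({b} : Finset A)) * g b = g a := by
  rw [Finset.sum_eq_single a]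
  · rw [ind_pos (Finset.mem_singleton_self a), one_mul]
  · intro b _ hb
    rw [ind_neg (by simpa using hb.symm), zero_mul]
  · simp

/-- One round of the nibble. -/
lemma bite {θ δ η K β : ℝ} {n k : ℕ} (hθ : 0 ≤ θ) (hθ1 : θ ≤ 1) (hη : 0 < η)
    (hη1 : η ≤ 1) (hK : 1 ≤ K) (hn : 0 < n) (hδ : 0 ≤ δ) (hβ0 : 0 ≤ β) (hk1 : 1 ≤ k)
    (hK1 : Real.exp (θ * k) * k * (δ * n) ≤ K)
    (hK2 : (Real.exp (θ * k) * k) ^ 2 * (δ * n) ≤ K) (hK3 : ((k : ℝ) + k * k) ^ 2 * k ≤ K)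
    (hbig : 8 * (n : ℝ) ^ 3 * Real.exp (-(η ^ 2 * n / (4 * K))) < 1)
    (hexp : Real.exp (θ * (k ^ 2 * δ)) ≤ 1 + η)
    (hA : Fintype.card A ≤ n ^ 3) (hT : Fintype.card T ≤ n ^ 3)
    (e : I → Finset A) (ω : I → ℝ) (U : Finset A) (S : T → Finset A)
    (hω : ∀ i, 0 ≤ ω i) (hk : ∀ i, (e i).card ≤ k) (hsup : ∀ i, ω i ≠ 0 → e i ⊆ U)
    (hdeg : ∀ a ∈ U, 1 - β ≤ dg e ω a ∧ dg e ω a ≤ 1)
    (hc : ∀ a b, a ≠ b → cdg e ω a b ≤ δ) (hS : ∀ t, (S t).card ≤ n) :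
    ∃ (U' : Finset A) (M : Finset I) (ω' : I → ℝ), U' ⊆ U ∧ (∀ i ∈ M, ω i ≠ 0) ∧
      (∀ i ∈ M, ∀ j ∈ M, i ≠ j → Disjoint (e i) (e j)) ∧ (∀ i ∈ M, Disjoint (e i) U') ∧
      (∀ i, 0 ≤ ω' i ∧ ω' i ≤ Real.exp (θ * k) * ω i) ∧ (∀ i, ω' i ≠ 0 → e i ⊆ U') ∧
      (∀ a ∈ U', 1 - (β + 3 * η) ≤ dg e ω' a ∧ dg e ω' a ≤ 1) ∧
      (∀ t, ((cnt fun a => a ∈ S t ∧ a ∈ U' : ℕ) : ℝ) ≤
        Real.exp (-θ) * (cnt fun a => a ∈ S t ∧ a ∈ U : ℕ) + η * n) ∧
      ∀ t, ((cnt fun a => a ∈ S t ∧ a ∈ U ∧ a ∉ U' ∧ ∀ i ∈ M, a ∉ e i : ℕ) : ℝ) ≤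
        (θ * β + θ ^ 2 * k + 2 * η) * n := by
  let e' : I ⊕ A → Finset A := Sum.elim e fun a => {a}
  let w' : I ⊕ A → ℝ := Sum.elim ω fun a => ind (a ∈ U) * (1 - dg e ω a)
  let dum : I ⊕ A → Prop := fun j => ∃ a, j = Sum.inr a
  have hd0 : ∀ a, a ∉ U → dg e ω a = 0 := fun a ha => Finset.sum_eq_zero fun i _ => by
    by_cases h : ω i = 0
    · rw [h, mul_zero]
    · rw [ind_neg fun h' => ha (hsup i h h'), zero_mul]
  have hd1 : ∀ a, dg e ω a ≤ 1 := fun a => by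
    by_cases ha : a ∈ U
    · exact (hdeg a ha).2
    · rw [hd0 a ha]; norm_num
  have hw' : ∀ j, 0 ≤ w' j := by
    rintro (i | a)
    · exact hω i
    · exact mul_nonneg (ind_nonneg _) (sub_nonneg.mpr (hd1 a))
  have hdg : ∀ a, dg e' w' a = dg e ω a + ind (a ∈ U) * (1 - dg e ω a) := fun a => by
    rw [dg, Fintype.sum_sum_type]
    simp only [e', w', Sum.elim_inl, Sum.elim_inr]
    rw [sum_ind_single a fun b => ind (b ∈ U) * (1 - dg e ω b)]
    rfl
  have hdgU : ∀ a ∈ U, dg e' w' a = 1 := fun a ha => by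
    rw [hdg, ind_pos ha]; ring
  have hdg1 : ∀ a, dg e' w' a ≤ 1 := fun a => by
    by_cases ha : a ∈ U
    · exact (hdgU a ha).le
    · rw [hdg, ind_neg ha, hd0 a ha]; norm_num
  have hk' : ∀ j, (e' j).card ≤ k := by
    rintro (i | a)
    · exact hk i
    · simpa [e'] using hk1
  have hc' : ∀ a b, a ≠ b → cdg e' w' a b ≤ δ := fun a b hab => by
    rw [cdg, Fintype.sum_sum_type]
    simp only [e', w', Sum.elim_inl, Sum.elim_inr]
    rw [Finset.sum_eq_zero (s := (univ : Finset A)) fun c _ => by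
      rw [ind_neg, zero_mul]
      simp only [Finset.mem_singleton]
      exact fun h => hab (h.1.trans h.2.symm), add_zero]
    exact hc a b hab
  have hβ : ∀ a ∈ U, ∑ j, ind (a ∈ e' j ∧ dum j) * w' j ≤ β := fun a ha => by
    rw [Fintype.sum_sum_type]
    simp only [e', w', Sum.elim_inl, Sum.elim_inr]
    rw [Finset.sum_eq_zero (s := (univ : Finset I)) fun i _ => by
      rw [ind_neg, zero_mul]
      rintro ⟨_, c, hc⟩
      exact Sum.inl_ne_inr hc, zero_add]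
    have e1 : ∀ b : A, ind (a ∈ ({b} : Finset A) ∧ dum (Sum.inr b)) = ind (a ∈ ({b} : Finset A)) :=
      fun b => ind_congr ⟨fun h => h.1, fun h => ⟨h, b, rfl⟩⟩
    simp only [e1]
    rw [sum_ind_single a fun b => ind (b ∈ U) * (1 - dg e ω b), ind_pos ha]
    linarith [(hdeg a ha).1]
  obtain ⟨X, hX0, hX1, hX2, hX3⟩ := round (e := e') (w := w') (f := e) (ω := ω) (β := β)
    hθ hθ1 hη hη1 hK hn hδ hβ0 hk1 hK1 hK2 hK3 hbig hA hT hw' hdg1 hk' hc' hω hk hd1 hc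
    (fun i hi a ha => hdgU a (hsup i hi ha)) dum (fun t => (S t).filter fun a => a ∈ U)
    (fun t => (Finset.card_filter_le _ _).trans (hS t))
    (fun t a ha => hdgU a (Finset.mem_filter.mp ha).2)
    (fun t a ha => hβ a (Finset.mem_filter.mp ha).2)
  have hη2 : 0 < 1 + 2 * η := by linarith
  refine ⟨U.filter fun a => surv e' X {a}, univ.filter fun i => Sum.inl i ∈ iso e' X,
    fun i => boost θ e ω i * ind (surv e' X (e i)) / (1 + 2 * η), Finset.filter_subset _ _,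
    fun i hi => ?_, fun i hi j hj hij => ?_, fun i hi => ?_, fun i => ⟨?_, ?_⟩, fun i hi => ?_,
    fun a ha => ?_, fun t => ?_, fun t => ?_⟩
  · exact hX0 _ (mem_iso.mp (Finset.mem_filter.mp hi).2).1
  · exact (mem_iso.mp (Finset.mem_filter.mp hj).2).2 (Sum.inl i)
      (mem_iso.mp (Finset.mem_filter.mp hi).2).1 fun h => hij (Sum.inl_injective h)
  · rw [Finset.disjoint_left]
    intro a ha ha'
    have := (Finset.mem_filter.mp ha').2 (Sum.inl i) (mem_iso.mp (Finset.mem_filter.mp hi).2).1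
    exact Finset.disjoint_left.mp this ha (Finset.mem_singleton_self a)
  · exact div_nonneg (mul_nonneg (boost_nonneg hω i) (ind_nonneg _)) hη2.le
  · rw [div_le_iff₀ hη2]
    have h1 := boost_le hθ hω hk i
    have h2 := boost_nonneg (θ := θ) (f := e) hω i
    have h3 := ind_le_one (surv e' X (e i))
    nlinarith
  · intro a ha
    have h1 : ω i ≠ 0 := fun h => hi (by simp [boost, h])
    have h2 : surv e' X (e i) := by
      by_contra h
      exact hi (by simp [ind_neg h])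
    exact Finset.mem_filter.mpr ⟨hsup i h1 ha, fun j hj =>
      Finset.disjoint_of_subset_right (Finset.singleton_subset_iff.mpr ha) (h2 j hj)⟩
  · obtain ⟨haU, has⟩ := Finset.mem_filter.mp ha
    have e1 : dg e (fun i => boost θ e ω i * ind (surv e' X (e i)) / (1 + 2 * η)) a =
        newDeg θ e' e ω a X / (1 + 2 * η) := by
      unfold dg newDeg
      rw [Finset.sum_div]
      refine Finset.sum_congr rfl fun i _ => ?_
      by_cases hai : a ∈ e i
      · have : surv e' X (e i) ↔ surv e' X ((e i).erase a) := by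
          constructor
          · exact fun h j hj => Finset.disjoint_of_subset_right (Finset.erase_subset _ _) (h j hj)
          · intro h j hj
            rw [Finset.disjoint_left]
            intro b hb hb'
            by_cases hba : b = a
            · exact Finset.disjoint_left.mp (has j hj) hb (Finset.mem_singleton.mpr hba)
            · exact Finset.disjoint_left.mp (h j hj) hb (Finset.mem_erase.mpr ⟨hba, hb'⟩)
        rw [← ind_congr this]
        ring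
      · rw [ind_neg hai]
        ring
    rw [e1, le_div_iff₀ hη2, div_le_iff₀ hη2]
    obtain ⟨h1, h2⟩ := hX1 a
    obtain ⟨h3, h4⟩ := hdeg a haU
    constructor
    · nlinarith
    · linarith
  · have h1 := hX2 t
    have e1 : (((S t).filter fun a => a ∈ U).card : ℝ) = (cnt fun a => a ∈ S t ∧ a ∈ U : ℕ) := by
      rw [card_eq_ind, cnt_eq_ind]
      exact Finset.sum_congr rfl fun a _ => ind_congr Finset.mem_filter
    rw [e1] at h1
    refine le_trans (Nat.cast_le.mpr (cnt_mono fun a ha => ?_)) h1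
    exact ⟨Finset.mem_filter.mpr ⟨ha.1, (Finset.mem_filter.mp ha.2).1⟩,
      (Finset.mem_filter.mp ha.2).2⟩
  · refine le_trans (Nat.cast_le.mpr (cnt_mono fun a ha => ?_)) (hX3 t)
    obtain ⟨h1, h2, h3, h4⟩ := ha
    refine ⟨Finset.mem_filter.mpr ⟨h1, h2⟩, ?_⟩
    have h5 : ¬ surv e' X {a} := fun h => h3 (Finset.mem_filter.mpr ⟨h2, h⟩)
    unfold surv at h5
    push Not at h5
    obtain ⟨j, hj, h6⟩ := h5
    have h7 : a ∈ e' j := by simpa using h6
    refine ⟨j, hj, h7, ?_⟩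
    rcases j with i | b
    · right
      have h8 : Sum.inl i ∉ iso e' X := fun h =>
        h4 i (Finset.mem_filter.mpr ⟨Finset.mem_univ _, h⟩) h7
      rw [mem_iso] at h8
      push Not at h8
      exact h8 hj
    · exact Or.inl ⟨b, rfl⟩

/-- Iterating the round. -/
lemma iter {θ δ η K α : ℝ} {n k R : ℕ} (hθ : 0 ≤ θ) (hθ1 : θ ≤ 1) (hη : 0 < η)
    (hη1 : η ≤ 1) (hK : 1 ≤ K) (hn : 0 < n) (hδ : 0 ≤ δ) (hα : 0 ≤ α) (hk1 : 1 ≤ k)
    (hK1 : Real.exp (θ * k) * k * (Real.exp (θ * k) ^ R * δ * n) ≤ K)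
    (hK2 : (Real.exp (θ * k) * k) ^ 2 * (Real.exp (θ * k) ^ R * δ * n) ≤ K)
    (hK3 : ((k : ℝ) + k * k) ^ 2 * k ≤ K)
    (hbig : 8 * (n : ℝ) ^ 3 * Real.exp (-(η ^ 2 * n / (4 * K))) < 1)
    (hexp : Real.exp (θ * (k ^ 2 * (Real.exp (θ * k) ^ R * δ))) ≤ 1 + η)
    (hA : Fintype.card A ≤ n ^ 3) (hT : Fintype.card T ≤ n ^ 3)
    (e : I → Finset A) (ω : I → ℝ) (S : T → Finset A)
    (hω : ∀ i, 0 ≤ ω i) (hk : ∀ i, (e i).card ≤ k)
    (hdeg : ∀ a, 1 - α ≤ dg e ω a ∧ dg e ω a ≤ 1)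
    (hc : ∀ a b, a ≠ b → cdg e ω a b ≤ δ) (hS : ∀ t, (S t).card ≤ n) (r : ℕ) (hr : r ≤ R) :
    ∃ (U : Finset A) (M : Finset I) (ω' : I → ℝ), (∀ i ∈ M, ω i ≠ 0) ∧
      (∀ i ∈ M, ∀ j ∈ M, i ≠ j → Disjoint (e i) (e j)) ∧ (∀ i ∈ M, Disjoint (e i) U) ∧
      (∀ i, 0 ≤ ω' i ∧ ω' i ≤ Real.exp (θ * k) ^ r * ω i) ∧ (∀ i, ω' i ≠ 0 → e i ⊆ U) ∧
      (∀ a ∈ U, 1 - (α + 3 * η * r) ≤ dg e ω' a ∧ dg e ω' a ≤ 1) ∧
      (∀ t, ((cnt fun a => a ∈ S t ∧ a ∈ U : ℕ) : ℝ) ≤ (Real.exp (-θ) ^ r + η * r) * n) ∧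
      ∀ t, ((cnt fun a => a ∈ S t ∧ a ∉ U ∧ ∀ i ∈ M, a ∉ e i : ℕ) : ℝ) ≤
        r * ((θ * (α + 3 * η * R) + θ ^ 2 * k + 2 * η) * n) := by
  induction r with
  | zero =>
    refine ⟨univ, ∅, ω, by simp, by simp, by simp, fun i => ⟨hω i, by simp⟩,
      fun i _ => Finset.subset_univ _, fun a _ => by simpa using hdeg a, fun t => ?_, fun t => ?_⟩
    · have : (cnt fun a => a ∈ S t ∧ a ∈ (univ : Finset A)) = (S t).card := by
        rw [cnt_def]
        simp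
      rw [this]
      simpa using hS t
    · rw [cnt_def]
      simp
  | succ r ih =>
    obtain ⟨U, M, ω₁, h1, h2, h3, h4, h5, h6, h7, h8⟩ := ih (Nat.le_of_succ_le hr)
    have hE1 : 1 ≤ Real.exp (θ * k) := Real.one_le_exp (by positivity)
    have hrR : (r : ℝ) ≤ R := Nat.cast_le.mpr (Nat.le_of_succ_le hr)
    have hn' : (0 : ℝ) < n := by exact_mod_cast hn
    have hc1 : ∀ a b, a ≠ b → cdg e ω₁ a b ≤ Real.exp (θ * k) ^ R * δ := fun a b hab => by
      calc cdg e ω₁ a b ≤ Real.exp (θ * k) ^ r * cdg e ω a b := by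
            unfold cdg
            rw [Finset.mul_sum]
            refine Finset.sum_le_sum fun i _ => ?_
            have := mul_le_mul_of_nonneg_left (h4 i).2 (ind_nonneg (a ∈ e i ∧ b ∈ e i))
            linarith
        _ ≤ _ := mul_le_mul (pow_le_pow_right₀ hE1 (Nat.le_of_succ_le hr)) (hc a b hab)
            (cdg_nonneg hω a b) (by positivity)
    obtain ⟨U', M', ω₂, g0, g1, g2, g3, g4, g5, g6, g7, g8⟩ := bite (β := α + 3 * η * r)
      hθ hθ1 hη hη1 hK hn (by positivity) (by positivity) hk1 hK1 hK2 hK3 hbig hexp hA hT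
      e ω₁ U S (fun i => (h4 i).1) hk h5 h6 hc1 hS
    refine ⟨U', M ∪ M', ω₂, fun i hi => ?_, fun i hi j hj hij => ?_, fun i hi => ?_,
      fun i => ⟨(g4 i).1, ?_⟩, g5, fun a ha => ?_, fun t => ?_, fun t => ?_⟩
    · rcases Finset.mem_union.mp hi with hi | hi
      · exact h1 i hi
      · intro h0
        have := (h4 i).2
        rw [h0, mul_zero] at this
        exact g1 i hi (le_antisymm this (h4 i).1)
    · rcases Finset.mem_union.mp hi with hi | hi <;> rcases Finset.mem_union.mp hj with hj | hj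
      · exact h2 i hi j hj hij
      · exact Finset.disjoint_of_subset_right (h5 j (g1 j hj)) (h3 i hi)
      · exact (Finset.disjoint_of_subset_right (h5 i (g1 i hi)) (h3 j hj)).symm
      · exact g2 i hi j hj hij
    · rcases Finset.mem_union.mp hi with hi | hi
      · exact Finset.disjoint_of_subset_right g0 (h3 i hi)
      · exact g3 i hi
    · refine (g4 i).2.trans ?_
      rw [pow_succ', mul_assoc]
      exact mul_le_mul_of_nonneg_left (h4 i).2 (Real.exp_pos _).le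
    · have := g6 a ha
      push_cast
      constructor <;> linarith [this.1, this.2]
    · refine (g7 t).trans ?_
      have q0 := Real.exp_pos (-θ)
      have q1 : Real.exp (-θ) ≤ 1 := Real.exp_le_one_iff.mpr (by linarith)
      have := mul_le_mul_of_nonneg_left (h7 t) q0.le
      have q2 : Real.exp (-θ) * (η * r * n) ≤ η * r * n :=
        mul_le_of_le_one_left (by positivity) q1
      push_cast
      rw [pow_succ']
      nlinarith
    · have c1 : (cnt fun a => a ∈ S t ∧ a ∉ U' ∧ ∀ i ∈ M ∪ M', a ∉ e i) ≤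
          (cnt fun a => a ∈ S t ∧ a ∉ U ∧ ∀ i ∈ M, a ∉ e i) +
            cnt fun a => a ∈ S t ∧ a ∈ U ∧ a ∉ U' ∧ ∀ i ∈ M', a ∉ e i := by
        refine le_trans (cnt_mono fun a ha => ?_) (cnt_or_le _ _)
        by_cases haU : a ∈ U
        · exact Or.inr ⟨ha.1, haU, ha.2.1, fun i hi => ha.2.2 i (Finset.mem_union_right _ hi)⟩
        · exact Or.inl ⟨ha.1, haU, fun i hi => ha.2.2 i (Finset.mem_union_left _ hi)⟩
      have c2 : ((cnt fun a => a ∈ S t ∧ a ∉ U' ∧ ∀ i ∈ M ∪ M', a ∉ e i : ℕ) : ℝ) ≤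
          ((cnt fun a => a ∈ S t ∧ a ∉ U ∧ ∀ i ∈ M, a ∉ e i : ℕ) : ℝ) +
            ((cnt fun a => a ∈ S t ∧ a ∈ U ∧ a ∉ U' ∧ ∀ i ∈ M', a ∉ e i : ℕ) : ℝ) := by
        exact_mod_cast c1
      have c3 : (θ * (α + 3 * η * r) + θ ^ 2 * k + 2 * η) * n ≤
          (θ * (α + 3 * η * R) + θ ^ 2 * k + 2 * η) * n := by
        gcongr
      have := h8 t
      have := g8 t
      push_cast
      linarith

lemma eventually_big {c : ℝ} (hc : 0 < c) :
    ∀ᶠ n : ℕ in Filter.atTop, 8 * (n : ℝ) ^ 3 * Real.exp (-(c * n)) < 1 := by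
  have h1 := (Real.tendsto_pow_mul_exp_neg_atTop_nhds_zero 3).comp
    (Filter.Tendsto.const_mul_atTop hc (tendsto_natCast_atTop_atTop (R := ℝ)))
  have h2 := h1.eventually (gt_mem_nhds (show (0 : ℝ) < c ^ 3 / 8 by positivity))
  refine h2.mono fun n hn => ?_
  simp only [Function.comp] at hn
  have h3 : 0 < c ^ 3 := by positivity
  rw [mul_pow, lt_div_iff₀ (by norm_num)] at hn
  nlinarith

end Nib

open Nib in
/-- Near-perfect matchings from fractional ones with small codegrees, with test sets. -/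
theorem nibble (γ : ℝ) (hγ : 0 < γ) : ∃ α : ℝ, 0 < α ∧ ∀ (k : ℕ) (C : ℝ), ∃ n0 : ℕ,
    ∀ n : ℕ, n0 ≤ n → ∀ (A I T : Type) [Fintype A] [Fintype I] [Fintype T]
      (e : I → Finset A) (ω : I → ℝ) (S : T → Finset A),
      Fintype.card A ≤ n ^ 3 → Fintype.card T ≤ n ^ 3 → (∀ i, (e i).card ≤ k) →
      (∀ i, 0 ≤ ω i) →
      (∀ a, 1 - α ≤ ∑ i ∈ univ.filter (fun i => a ∈ e i), ω i ∧
        ∑ i ∈ univ.filter (fun i => a ∈ e i), ω i ≤ 1) →
      (∀ a b, a ≠ b → ∑ i ∈ univ.filter (fun i => a ∈ e i ∧ b ∈ e i), ω i ≤ C / n) →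
      (∀ t, (S t).card ≤ n) →
      ∃ M : Finset I, (∀ i ∈ M, ω i ≠ 0) ∧
        (∀ i ∈ M, ∀ j ∈ M, i ≠ j → Disjoint (e i) (e j)) ∧
        ∀ t, ((cnt fun a => a ∈ S t ∧ ∀ i ∈ M, a ∉ e i : ℕ) : ℝ) ≤ γ * n := by
  refine ⟨γ ^ 2 / 32, by positivity, fun k0 C0 => ?_⟩
  set τ : ℝ := 4 / γ with hτ
  have hτ0 : 0 < τ := by positivity
  set k : ℕ := k0 + 1 with hk
  have hk1 : 1 ≤ k := by omega
  have hk1' : (1 : ℝ) ≤ k := by exact_mod_cast hk1
  set C : ℝ := max C0 0 with hC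
  have hC0 : 0 ≤ C := le_max_right _ _
  obtain ⟨R, hR⟩ := exists_nat_ge (max τ (8 * τ ^ 2 * k / γ))
  have hR1 : τ ≤ R := (le_max_left _ _).trans hR
  have hR2 : 8 * τ ^ 2 * k / γ ≤ R := (le_max_right _ _).trans hR
  have hR0 : (0 : ℝ) < R := by linarith
  set θ : ℝ := τ / R with hθ
  have hθ0 : 0 < θ := by positivity
  have hθ1 : θ ≤ 1 := (div_le_one hR0).mpr hR1
  have hθR : θ * R = τ := by rw [hθ]; field_simp
  set η : ℝ := min 1 (γ / (8 * (3 * R + 3 * τ * R))) with hη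
  have hη0 : 0 < η := lt_min one_pos (by positivity)
  have hη1 : η ≤ 1 := min_le_left _ _
  have hη2 : η * (8 * (3 * R + 3 * τ * R)) ≤ γ :=
    (le_div_iff₀ (by positivity)).mp (min_le_right _ _)
  set E : ℝ := Real.exp (θ * k) with hE
  have hE0 : 0 < E := Real.exp_pos _
  set K : ℝ := 1 + E * k * (E ^ R * C) + (E * k) ^ 2 * (E ^ R * C) + ((k : ℝ) + k * k) ^ 2 * k
    with hK
  have t1 : 0 ≤ E * k * (E ^ R * C) := by positivity
  have t2 : 0 ≤ (E * k) ^ 2 * (E ^ R * C) := by positivity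
  have t3 : 0 ≤ ((k : ℝ) + k * k) ^ 2 * k := by positivity
  have hK1 : 1 ≤ K := by linarith
  have ev1 := eventually_big (c := η ^ 2 / (4 * K)) (by positivity)
  have ev2 : ∀ᶠ n : ℕ in Filter.atTop, Real.exp (θ * (k ^ 2 * (E ^ R * (C / n)))) ≤ 1 + η := by
    have h1 : Filter.Tendsto (fun n : ℕ => Real.exp (θ * (k ^ 2 * (E ^ R * (C / n)))))
        Filter.atTop (nhds (Real.exp (θ * (k ^ 2 * (E ^ R * 0))))) :=
      (Real.continuous_exp.tendsto _).comp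
        ((((tendsto_const_div_atTop_nhds_zero_nat C).const_mul _).const_mul _).const_mul _)
    simp only [mul_zero, Real.exp_zero] at h1
    exact h1.eventually (ge_mem_nhds (by linarith))
  obtain ⟨n0, hn0⟩ := Filter.eventually_atTop.mp (ev1.and (ev2.and (Filter.eventually_gt_atTop 0)))
  refine ⟨n0, fun n hn A I T _ _ _ e ω S hA hT he hω hdeg hc hS => ?_⟩
  obtain ⟨b1, b2, b3⟩ := hn0 n hn
  have hn' : (0 : ℝ) < n := by exact_mod_cast b3
  have e0 : E ^ R * (C / n) * n = E ^ R * C := by field_simp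
  obtain ⟨U, M, ω', h1, h2, -, -, -, -, h7, h8⟩ := iter (θ := θ) (δ := C / n) (η := η) (K := K)
    (α := γ ^ 2 / 32) (k := k) (R := R) hθ0.le hθ1 hη0 hη1 hK1 b3 (by positivity) (by positivity)
    hk1 (by rw [← hE, e0]; linarith) (by rw [← hE, e0]; linarith) (by linarith)
    (by rwa [div_mul_eq_mul_div] at b1) b2 hA hT e ω S hω (fun i => (he i).trans (by omega))
    (fun a => by rw [dg, ← sum_filter_ind]; exact hdeg a)
    (fun a b hab => by
      rw [cdg, ← sum_filter_ind]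
      exact (hc a b hab).trans (div_le_div_of_nonneg_right (le_max_left _ _) hn'.le))
    hS R le_rfl
  refine ⟨M, h1, h2, fun t => ?_⟩
  have c1 : (cnt fun a => a ∈ S t ∧ ∀ i ∈ M, a ∉ e i) ≤ (cnt fun a => a ∈ S t ∧ a ∈ U) +
      cnt fun a => a ∈ S t ∧ a ∉ U ∧ ∀ i ∈ M, a ∉ e i := by
    refine le_trans (cnt_mono fun a ha => ?_) (cnt_or_le _ _)
    by_cases haU : a ∈ U
    · exact Or.inl ⟨ha.1, haU⟩
    · exact Or.inr ⟨ha.1, haU, ha.2⟩
  have c2 : ((cnt fun a => a ∈ S t ∧ ∀ i ∈ M, a ∉ e i : ℕ) : ℝ) ≤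
      ((cnt fun a => a ∈ S t ∧ a ∈ U : ℕ) : ℝ) +
        ((cnt fun a => a ∈ S t ∧ a ∉ U ∧ ∀ i ∈ M, a ∉ e i : ℕ) : ℝ) := by
    exact_mod_cast c1
  have q1 : Real.exp (-θ) ^ R ≤ γ / 4 := by
    rw [← Real.exp_nat_mul, mul_neg, mul_comm, hθR, Real.exp_neg, inv_le_comm₀ (Real.exp_pos _)
      (by positivity), inv_div]
    linarith [Real.add_one_le_exp τ]
  have q2 : τ * (γ ^ 2 / 32) = γ / 8 := by rw [hτ]; field_simp; ring
  have q3 : τ * (θ * k) ≤ γ / 8 := by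
    rw [div_le_iff₀ hγ] at hR2
    have e3 : τ * (θ * k) = τ ^ 2 * k / R := by rw [hθ]; ring
    rw [e3, div_le_div_iff₀ hR0 (by norm_num)]
    linarith
  have q4 : (R : ℝ) * (θ * (γ ^ 2 / 32 + 3 * η * R) + θ ^ 2 * k + 2 * η) =
      τ * (γ ^ 2 / 32) + 3 * τ * R * η + τ * (θ * k) + 2 * η * R := by
    rw [← hθR]; ring
  have q5 : Real.exp (-θ) ^ R + η * R +
      R * (θ * (γ ^ 2 / 32 + 3 * η * R) + θ ^ 2 * k + 2 * η) ≤ γ := by
    rw [q4, q2]
    linarith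
  have q6 := mul_le_mul_of_nonneg_right q5 hn'.le
  have := h7 t
  have := h8 t
  linarith

end Pool.Agent.Lib.MP_34bdde_co
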