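import Mathlib
import Pool.Agent.Lib.MP_34bdde_co.Nibble

set_option autoImplicit false

open Finset
open scoped Classical

noncomputable section

namespace Pool.Agent.Lib.MP_34bdde_co

/-- Total real weight of the elements of a finite type with a property (instance free). -/
def rsum {I : Type} [Fintype I] (p : I → Prop) (f : I → ℝ) : ℝ := ∑ i ∈ univ.filter p, f i

lemma rsum_def {I : Type} [Fintype I] (p : I → Prop) [DecidablePred p] (f : I → ℝ) :
    rsum p f = ∑ i ∈ univ.filter p, f i := by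
  unfold rsum
  refine Finset.sum_congr ?_ fun _ _ => rfl
  ext i
  simp

lemma rsum_eq_ite {I : Type} [Fintype I] (p : I → Prop) [DecidablePred p] (f : I → ℝ) :
    rsum p f = ∑ i, if p i then f i else 0 := by
  rw [rsum_def, Finset.sum_filter]

lemma rsum_nonneg {I : Type} [Fintype I] (p : I → Prop) {f : I → ℝ} (hf : ∀ i, 0 ≤ f i) :
    0 ≤ rsum p f := Finset.sum_nonneg fun i _ => hf i

lemma rsum_mono {I : Type} [Fintype I] {p q : I → Prop} {f g : I → ℝ} (hg : ∀ i, 0 ≤ g i)
    (h : ∀ i, p i → f i ≤ 0 ∨ (q i ∧ f i ≤ g i)) : rsum p f ≤ rsum q g := by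
  rw [rsum_eq_ite, rsum_eq_ite]
  refine Finset.sum_le_sum fun i _ => ?_
  have h0 : (0 : ℝ) ≤ if q i then g i else 0 := by
    split_ifs
    · exact hg i
    · exact le_rfl
  by_cases hp : p i
  · rw [if_pos hp]
    rcases h i hp with h1 | ⟨h1, h2⟩
    · exact h1.trans h0
    · rw [if_pos h1]
      exact h2
  · rw [if_neg hp]
    exact h0

lemma rsum_le_cnt_mul {I : Type} [Fintype I] (p : I → Prop) {f : I → ℝ} {b : ℝ}
    (hf : ∀ i, f i ≤ b) : rsum p f ≤ (cnt p : ℕ) * b := by
  unfold rsum cnt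
  have := Finset.sum_le_card_nsmul (univ.filter p) f b fun i _ => hf i
  rwa [nsmul_eq_mul] at this

lemma cnt_exists_le {I J : Type} [Fintype I] [Fintype J] (p : J → I → Prop) :
    cnt (fun i => ∃ j, p j i) ≤ ∑ j, cnt (p j) := by
  unfold cnt
  refine le_trans (Finset.card_le_card ?_) Finset.card_biUnion_le
  intro i hi
  simp only [Finset.mem_filter, Finset.mem_univ, true_and, Finset.mem_biUnion] at hi ⊢
  exact hi

lemma cnt_prod_left {I J : Type} [Fintype I] [Fintype J] (p : I → Prop) :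
    cnt (fun z : I × J => p z.1) = cnt p * Fintype.card J := by
  unfold cnt
  rw [← Finset.card_univ (α := J), ← Finset.card_product]
  congr 1
  ext z
  simp

lemma cnt_update_le {V : Type} [Fintype V] {m : ℕ} (p q : (Fin m → V) → Prop) (i : Fin m)
    (r : (Fin m → V) → V) (h1 : ∀ x v, p x → q (Function.update x i v))
    (h2 : ∀ x v, p x → r (Function.update x i v) = x i) :
    cnt p * Fintype.card V ≤ cnt q := by
  rw [← cnt_prod_left]
  refine cnt_le_of_injOn (fun z => Function.update z.1 i z.2) (fun z hz => h1 _ _ hz) ?_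
  rintro ⟨x, v⟩ ⟨x', v'⟩ hx hx' h
  dsimp only at hx hx' h
  have hv : v = v' := by
    have := congrFun h i
    simpa using this
  have hi : x i = x' i := by rw [← h2 x v hx, ← h2 x' v' hx', h]
  refine Prod.ext (funext fun j => ?_) hv
  by_cases hj : j = i
  · rw [hj]
    exact hi
  · have := congrFun h j
    simpa [Function.update_of_ne hj] using this

/-- The values of `x` cover `T`. -/
def Cov {V : Type} {m : ℕ} (T : Finset V) (x : Fin m → V) : Prop := ∀ t ∈ T, ∃ i, x i = t

lemma cnt_cov_le {V : Type} [Fintype V] (m : ℕ) (T : Finset V) :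
    cnt (fun x : Fin m → V => Cov T x) * Fintype.card V ^ T.card ≤
      m ^ T.card * Fintype.card V ^ m := by
  induction T using Finset.induction_on with
  | empty =>
    simp only [Finset.card_empty, pow_zero, mul_one, one_mul]
    refine (cnt_le_card _).trans ?_
    simp
  | insert a T ha ih =>
    have h1 : cnt (fun x : Fin m → V => Cov (insert a T) x) ≤
        ∑ i : Fin m, cnt (fun x : Fin m → V => x i = a ∧ Cov T x) := by
      refine le_trans (cnt_mono fun x hx => ?_)
        (cnt_exists_le fun (i : Fin m) (x : Fin m → V) => x i = a ∧ Cov T x)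
      obtain ⟨i, hi⟩ := hx a (Finset.mem_insert_self _ _)
      exact ⟨i, hi, fun t ht => hx t (Finset.mem_insert_of_mem ht)⟩
    have h2 : ∀ i : Fin m, cnt (fun x : Fin m → V => x i = a ∧ Cov T x) * Fintype.card V ≤
        cnt (fun x : Fin m → V => Cov T x) := by
      intro i
      refine cnt_update_le _ _ i (fun _ => a) (fun x v hx t ht => ?_) (fun x v hx => hx.1.symm)
      obtain ⟨j, hj⟩ := hx.2 t ht
      have hji : j ≠ i := by
        rintro rfl
        exact ha (hx.1 ▸ hj ▸ ht)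
      exact ⟨j, by rw [Function.update_of_ne hji, hj]⟩
    have h3 : cnt (fun x : Fin m → V => Cov (insert a T) x) * Fintype.card V ≤
        m * cnt (fun x : Fin m → V => Cov T x) := by
      calc _ ≤ (∑ i : Fin m, cnt (fun x : Fin m → V => x i = a ∧ Cov T x)) * Fintype.card V :=
            Nat.mul_le_mul_right _ h1
        _ = ∑ i : Fin m, cnt (fun x : Fin m → V => x i = a ∧ Cov T x) * Fintype.card V :=
            Finset.sum_mul _ _ _
        _ ≤ ∑ _i : Fin m, cnt (fun x : Fin m → V => Cov T x) := Finset.sum_le_sum fun i _ => h2 i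
        _ = _ := by simp
    rw [Finset.card_insert_of_notMem ha, pow_succ, pow_succ]
    calc _ = (cnt (fun x : Fin m → V => Cov (insert a T) x) * Fintype.card V) *
          Fintype.card V ^ T.card := by ring
      _ ≤ (m * cnt (fun x : Fin m → V => Cov T x)) * Fintype.card V ^ T.card :=
          Nat.mul_le_mul_right _ h3
      _ = m * (cnt (fun x : Fin m → V => Cov T x) * Fintype.card V ^ T.card) := by ring
      _ ≤ m * (m ^ T.card * Fintype.card V ^ m) := Nat.mul_le_mul_left _ ih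
      _ = _ := by ring

lemma cnt_cov_bad_le {V : Type} [Fintype V] (m : ℕ) (T : Finset V) :
    cnt (fun x : Fin m → V => Cov T x ∧ ¬ Function.Injective x) * Fintype.card V ^ (T.card + 1) ≤
      m ^ (T.card + 2) * Fintype.card V ^ m := by
  have h1 : cnt (fun x : Fin m → V => Cov T x ∧ ¬ Function.Injective x) ≤
      ∑ z : Fin m × Fin m, cnt (fun x : Fin m → V => z.1 ≠ z.2 ∧ x z.1 = x z.2 ∧ Cov T x) := by
    refine le_trans (cnt_mono fun x hx => ?_)
      (cnt_exists_le fun (z : Fin m × Fin m) (x : Fin m → V) =>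
        z.1 ≠ z.2 ∧ x z.1 = x z.2 ∧ Cov T x)
    obtain ⟨i, j, hij, hne⟩ := Function.not_injective_iff.mp hx.2
    exact ⟨(i, j), hne, hij, hx.1⟩
  have h2 : ∀ z : Fin m × Fin m,
      cnt (fun x : Fin m → V => z.1 ≠ z.2 ∧ x z.1 = x z.2 ∧ Cov T x) * Fintype.card V ≤
        cnt (fun x : Fin m → V => Cov T x) := by
    rintro ⟨j, i⟩
    refine cnt_update_le _ _ i (fun y => y j) (fun x v hx t ht => ?_) (fun x v hx => ?_)
    · obtain ⟨l, hl⟩ := hx.2.2 t ht
      by_cases hli : l = i
      · refine ⟨j, ?_⟩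
        rw [Function.update_of_ne hx.1, hx.2.1, ← hli, hl]
      · exact ⟨l, by rw [Function.update_of_ne hli, hl]⟩
    · show Function.update x i v j = x i
      rw [Function.update_of_ne hx.1]
      exact hx.2.1
  have h3 : cnt (fun x : Fin m → V => Cov T x ∧ ¬ Function.Injective x) * Fintype.card V ≤
      m ^ 2 * cnt (fun x : Fin m → V => Cov T x) := by
    calc _ ≤ (∑ z : Fin m × Fin m,
          cnt (fun x : Fin m → V => z.1 ≠ z.2 ∧ x z.1 = x z.2 ∧ Cov T x)) * Fintype.card V :=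
          Nat.mul_le_mul_right _ h1
      _ = ∑ z : Fin m × Fin m,
          cnt (fun x : Fin m → V => z.1 ≠ z.2 ∧ x z.1 = x z.2 ∧ Cov T x) * Fintype.card V :=
          Finset.sum_mul _ _ _
      _ ≤ ∑ _z : Fin m × Fin m, cnt (fun x : Fin m → V => Cov T x) :=
          Finset.sum_le_sum fun i _ => h2 i
      _ = _ := by simp [sq]
  have h4 := cnt_cov_le m T
  calc _ = (cnt (fun x : Fin m → V => Cov T x ∧ ¬ Function.Injective x) * Fintype.card V) *
        Fintype.card V ^ T.card := by ring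
    _ ≤ (m ^ 2 * cnt (fun x : Fin m → V => Cov T x)) * Fintype.card V ^ T.card :=
        Nat.mul_le_mul_right _ h3
    _ = m ^ 2 * (cnt (fun x : Fin m → V => Cov T x) * Fintype.card V ^ T.card) := by ring
    _ ≤ m ^ 2 * (m ^ T.card * Fintype.card V ^ m) := Nat.mul_le_mul_left _ h4
    _ = _ := by ring

lemma mass_le_aux {V : Type} [Fintype V] (hV : 0 < Fintype.card V) {m m0 a b : ℕ} (hm : m ≤ m0)
    (p : (Fin m → V) → Prop) (hp : cnt p * Fintype.card V ^ a ≤ m ^ b * Fintype.card V ^ m)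
    {B : ℝ} (hB : 0 ≤ B) {μ : (Fin m → V) → ℝ}
    (hμ : ∀ x, μ x ≤ B / (Fintype.card V : ℝ) ^ m) :
    rsum p μ ≤ B * (m0 : ℝ) ^ b / (Fintype.card V : ℝ) ^ a := by
  have hn : (0 : ℝ) < Fintype.card V := by exact_mod_cast hV
  refine (rsum_le_cnt_mul p hμ).trans ?_
  have h1 : ((cnt p : ℕ) : ℝ) * (Fintype.card V : ℝ) ^ a ≤
      (m0 : ℝ) ^ b * (Fintype.card V : ℝ) ^ m := by
    have h2 : cnt p * Fintype.card V ^ a ≤ m0 ^ b * Fintype.card V ^ m :=
      hp.trans (Nat.mul_le_mul_right _ (Nat.pow_le_pow_left hm _))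
    exact_mod_cast h2
  rw [le_div_iff₀ (by positivity)]
  calc ((cnt p : ℕ) : ℝ) * (B / (Fintype.card V : ℝ) ^ m) * (Fintype.card V : ℝ) ^ a
      = B / (Fintype.card V : ℝ) ^ m * (((cnt p : ℕ) : ℝ) * (Fintype.card V : ℝ) ^ a) := by ring
    _ ≤ B / (Fintype.card V : ℝ) ^ m * ((m0 : ℝ) ^ b * (Fintype.card V : ℝ) ^ m) :=
        mul_le_mul_of_nonneg_left h1 (by positivity)
    _ = _ := by field_simp

/-- The nibble for a ground type in which only the atoms with `ok` matter. -/
theorem nibble_sub (γ : ℝ) (hγ : 0 < γ) : ∃ α : ℝ, 0 < α ∧ ∀ (k : ℕ) (C : ℝ), ∃ n0 : ℕ,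
    ∀ n : ℕ, n0 ≤ n → ∀ (A I T : Type) [Fintype A] [Fintype I] [Fintype T] (ok : A → Prop)
      (e : I → Multiset A) (ω : I → ℝ) (S : T → A → Prop),
      Fintype.card A ≤ n ^ 3 → Fintype.card T ≤ n ^ 3 → (∀ i, (e i).card ≤ k) →
      (∀ i, 0 ≤ ω i) →
      (∀ a, ok a → 1 - α ≤ rsum (fun i => a ∈ e i) ω ∧ rsum (fun i => a ∈ e i) ω ≤ 1) →
      (∀ a b, ok a → ok b → a ≠ b → rsum (fun i => a ∈ e i ∧ b ∈ e i) ω ≤ C / n) →
      (∀ t, cnt (S t) ≤ n) →
      ∃ M : Finset I, (∀ i ∈ M, ω i ≠ 0) ∧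
        (∀ i ∈ M, ∀ j ∈ M, ∀ a, ok a → a ∈ e i → a ∈ e j → i = j) ∧
        ∀ t, ((cnt fun a => S t a ∧ ok a ∧ ∀ i ∈ M, a ∉ e i : ℕ) : ℝ) ≤ γ * n := by
  obtain ⟨α, hα, H⟩ := nibble γ hγ
  refine ⟨α, hα, fun k C => ?_⟩
  obtain ⟨n0, H⟩ := H k C
  refine ⟨n0, fun n hn A I T _ _ _ ok e ω S hA hT he hω hdeg hco hS => ?_⟩
  have hmem : ∀ (i : I) (a : {a // ok a}),
      a ∈ (univ.filter fun a : {a // ok a} => a.1 ∈ e i) ↔ a.1 ∈ e i := by
    intro i a
    simp
  obtain ⟨M, hM1, hM2, hM3⟩ := H n hn {a // ok a} I T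
    (fun i => univ.filter fun a : {a // ok a} => a.1 ∈ e i) ω
    (fun t => univ.filter fun a : {a // ok a} => S t a.1)
    ((Fintype.card_subtype_le _).trans hA) hT
    (fun i => by
      refine le_trans ?_ ((Multiset.toFinset_card_le (e i)).trans (he i))
      refine Finset.card_le_card_of_injOn Subtype.val (fun a ha => ?_) Subtype.val_injective.injOn
      simpa using ha)
    hω
    (fun a => by
      have h := hdeg a.1 a.2
      rw [← rsum_def]
      simp only [hmem]
      exact h)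
    (fun a b hab => by
      have h := hco a.1 b.1 a.2 b.2 fun h => hab (Subtype.ext h)
      rw [← rsum_def]
      simp only [hmem]
      exact h)
    (fun t => by
      refine le_trans ?_ (hS t)
      rw [← cnt_def]
      exact cnt_le_of_injOn Subtype.val (fun a ha => ha) fun a b _ _ h => Subtype.ext h)
  refine ⟨M, hM1, fun i hi j hj a ha hai haj => ?_, fun t => le_trans ?_ (hM3 t)⟩
  · by_contra hij
    exact Finset.disjoint_left.mp (hM2 i hi j hj hij) ((hmem i ⟨a, ha⟩).mpr hai)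
      ((hmem j ⟨a, ha⟩).mpr haj)
  · rw [Nat.cast_le]
    unfold cnt
    refine Finset.card_le_card_of_surjOn Subtype.val fun a ha => ?_
    simp only [Finset.coe_filter, Finset.mem_univ, true_and, Set.mem_ofPred_eq] at ha
    refine ⟨⟨a, ha.2.1⟩, ?_, rfl⟩
    simp only [Finset.coe_filter, Finset.mem_univ, true_and, Set.mem_ofPred_eq,
      Finset.mem_filter]
    exact ⟨ha.1, ha.2.2⟩

lemma nodup_sum_map {W α β : Type} (s : Finset W) (t : W → Finset α) (g : W → α → β)
    (h : ∀ w w' a a', a ∈ t w → a' ∈ t w' → g w a = g w' a' → w = w' ∧ a = a') :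
    (∑ w ∈ s, (t w).val.map (g w)).Nodup := by
  induction s using Finset.induction_on with
  | empty => simp
  | insert w s hw ih =>
    rw [Finset.sum_insert hw, Multiset.nodup_add]
    refine ⟨Multiset.Nodup.map_on (fun a ha a' ha' haa => (h w w a a' ha ha' haa).2) (t w).nodup,
      ih, ?_⟩
    rw [Multiset.disjoint_left]
    intro b hb hb'
    obtain ⟨a, ha, rfl⟩ := Multiset.mem_map.mp hb
    obtain ⟨w', hw', hb'⟩ := Multiset.mem_sum.mp hb'
    obtain ⟨a', ha', hg⟩ := Multiset.mem_map.mp hb'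
    exact hw ((h w w' a a' ha ha' hg.symm).1 ▸ hw')

end Pool.Agent.Lib.MP_34bdde_co
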