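import Mathlib
import Pool.Agent.Lib.MP_34bdde_co.ApproxA

set_option autoImplicit false

open Finset
open scoped Classical

noncomputable section

namespace Pool.Agent.Lib.MP_34bdde_co

/-- Atoms of the auxiliary hypergraph: edges, slots and demands. -/
abbrev Atom (V W U : Type) := Sym2 V ⊕ (V × W) ⊕ (W × U)

/-- Cyclic successor. -/
def nx {m : ℕ} (i : Fin m) : Fin m := ⟨(i + 1) % m, Nat.mod_lt _ i.pos⟩

/-- Positions of a unit. -/
def Ps (m l : ℕ) : Finset (Fin m) := univ.filter fun i => (i : ℕ) < l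

/-- Darts inside a unit. -/
def Dt (m l : ℕ) : Finset (Fin m) := univ.filter fun i => (i : ℕ) < l ∧ (nx i : ℕ) < l

lemma mem_Ps {m l : ℕ} {i : Fin m} : i ∈ Ps m l ↔ (i : ℕ) < l := by simp [Ps]

lemma mem_Dt {m l : ℕ} {i : Fin m} : i ∈ Dt m l ↔ (i : ℕ) < l ∧ (nx i : ℕ) < l := by simp [Dt]

/-- Hyperedges: a colour, a unit and a closed walk. -/
abbrev HE (V W U : Type) (m : U → ℕ) := Σ p : W × U, Fin (m p.2) → V

variable {V W U : Type} {m : U → ℕ}

/-- The atoms of a hyperedge. -/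
def atoms (l : U → ℕ) (h : HE V W U m) : Multiset (Atom V W U) :=
  (Dt (m h.1.2) (l h.1.2)).val.map (fun i => Sum.inl s(h.2 i, h.2 (nx i))) +
    (Ps (m h.1.2) (l h.1.2)).val.map (fun i => Sum.inr (Sum.inl (h.2 i, h.1.1))) +
    {Sum.inr (Sum.inr h.1)}

variable {l : U → ℕ}

lemma mem_atoms_edge {h : HE V W U m} {e : Sym2 V} :
    Sum.inl e ∈ atoms l h ↔ ∃ i ∈ Dt (m h.1.2) (l h.1.2), s(h.2 i, h.2 (nx i)) = e := by
  simp [atoms]

lemma mem_atoms_slot {h : HE V W U m} {v : V} {w : W} :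
    Sum.inr (Sum.inl (v, w)) ∈ atoms l h ↔
      h.1.1 = w ∧ ∃ i ∈ Ps (m h.1.2) (l h.1.2), h.2 i = v := by
  simp only [atoms, Multiset.mem_add, Multiset.mem_map, Finset.mem_val, reduceCtorEq, and_false,
    exists_false, Sum.inr.injEq, Sum.inl.injEq, Prod.mk.injEq, false_or, Multiset.mem_singleton,
    or_false]
  constructor
  · rintro ⟨i, hi, h1, h2⟩
    exact ⟨h2, i, hi, h1⟩
  · rintro ⟨h2, i, hi, h1⟩
    exact ⟨i, hi, h1, h2⟩

lemma mem_atoms_dem {h : HE V W U m} {d : W × U} :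
    Sum.inr (Sum.inr d) ∈ atoms l h ↔ d = h.1 := by
  simp [atoms]

lemma card_atoms_le (h : HE V W U m) : (atoms l h).card ≤ 2 * m h.1.2 + 1 := by
  have h1 : (Dt (m h.1.2) (l h.1.2)).card ≤ m h.1.2 := by
    simpa using Finset.card_le_univ (Dt (m h.1.2) (l h.1.2))
  have h2 : (Ps (m h.1.2) (l h.1.2)).card ≤ m h.1.2 := by
    simpa using Finset.card_le_univ (Ps (m h.1.2) (l h.1.2))
  simp only [atoms, Multiset.card_add, Multiset.card_map, Finset.card_val,
    Multiset.card_singleton]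
  omega

lemma nx_nx_ne {k : ℕ} (hk : 3 ≤ k) (i : Fin k) : nx (nx i) ≠ i := by
  intro h
  have h1 := congrArg Fin.val h
  have hi := i.2
  simp only [nx] at h1
  by_cases h2 : (i : ℕ) + 1 < k
  · rw [Nat.mod_eq_of_lt h2] at h1
    by_cases h3 : (i : ℕ) + 1 + 1 < k
    · rw [Nat.mod_eq_of_lt h3] at h1
      omega
    · have h4 : (i : ℕ) + 1 + 1 = k := by omega
      rw [h4, Nat.mod_self] at h1
      omega
  · have h4 : (i : ℕ) + 1 = k := by omega
    rw [h4, Nat.mod_self, Nat.mod_eq_of_lt (by omega)] at h1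
    omega

lemma nodup_atoms (h : HE V W U m) (hm : 3 ≤ m h.1.2) (hx : Function.Injective h.2) :
    (atoms l h).Nodup := by
  unfold atoms
  rw [Multiset.nodup_add, Multiset.nodup_add]
  refine ⟨⟨Multiset.Nodup.map_on (fun i _ j _ hij => ?_) (Finset.nodup _),
    Multiset.Nodup.map_on (fun i _ j _ hij => ?_) (Finset.nodup _), ?_⟩,
    Multiset.nodup_singleton _, ?_⟩
  · rcases Sym2.eq_iff.mp (Sum.inl.inj hij) with ⟨h1, _⟩ | ⟨h1, h2⟩
    · exact hx h1
    · exfalso
      refine nx_nx_ne hm j ?_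
      rw [← hx h1]
      exact hx h2
  · exact hx (Prod.ext_iff.mp (Sum.inl.inj (Sum.inr.inj hij))).1
  · rw [Multiset.disjoint_left]
    intro a ha ha'
    obtain ⟨i, _, rfl⟩ := Multiset.mem_map.mp ha
    simp at ha'
  · rw [Multiset.disjoint_left]
    intro a ha ha'
    rw [Multiset.mem_singleton] at ha'
    subst ha'
    simp at ha

lemma count_map_real {I β : Type} (s : Finset I) (g : I → β) (b : β) :
    (((s.val.map g).count b : ℕ) : ℝ) = ∑ i ∈ s, if g i = b then (1 : ℝ) else 0 := by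
  induction s using Finset.induction_on with
  | empty => simp
  | insert a s ha ih =>
    rw [Finset.sum_insert ha, Finset.insert_val_of_notMem ha, Multiset.map_cons,
      Multiset.count_cons, Nat.cast_add, ih, add_comm]
    congr 1
    by_cases h : g a = b
    · simp [h]
    · have h' : ¬ b = g a := fun h' => h h'.symm
      simp [h, h']

lemma count_atoms (h : HE V W U m) (a : Atom V W U) :
    (((atoms l h).count a : ℕ) : ℝ) =
      (∑ i ∈ Dt (m h.1.2) (l h.1.2), if Sum.inl s(h.2 i, h.2 (nx i)) = a then (1 : ℝ) else 0) +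
      (∑ i ∈ Ps (m h.1.2) (l h.1.2),
        if Sum.inr (Sum.inl (h.2 i, h.1.1)) = a then (1 : ℝ) else 0) +
      if Sum.inr (Sum.inr h.1) = a then (1 : ℝ) else 0 := by
  have key : ∀ (M : Multiset (Atom V W U)) (i1 i2 : DecidableEq (Atom V W U)),
      @Multiset.count _ i1 a M = @Multiset.count _ i2 a M := by
    intro M i1 i2
    rw [Subsingleton.elim i1 i2]
  unfold atoms
  rw [Multiset.count_add, Multiset.count_add, Nat.cast_add, Nat.cast_add,
    key _ _ (fun a b => Classical.propDecidable (a = b)), count_map_real,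
    key (Multiset.map _ _) _ (fun a b => Classical.propDecidable (a = b)), count_map_real,
    Multiset.count_singleton]
  congr 1
  · congr 1
    · exact Finset.sum_congr rfl fun i _ => by split_ifs <;> rfl
    · exact Finset.sum_congr rfl fun i _ => by split_ifs <;> rfl
  · by_cases h1 : Sum.inr (Sum.inr h.1) = a
    · simp [h1]
    · have h' : ¬ a = Sum.inr (Sum.inr h.1) := fun h' => h1 h'.symm
      simp [h1, h']

variable [Fintype V] [Fintype W] [Fintype U]

/-- The measure on hyperedges. -/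
def mu (μ : W → (u : U) → (Fin (m u) → V) → ℝ) (h : HE V W U m) : ℝ := μ h.1.1 h.1.2 h.2

/-- Degree of an atom counted with multiplicity. -/
def mainT (l : U → ℕ) (μ : W → (u : U) → (Fin (m u) → V) → ℝ) (a : Atom V W U) : ℝ :=
  ∑ h : HE V W U m, (((atoms l h).count a : ℕ) : ℝ) * mu μ h

lemma sum_HE (g : HE V W U m → ℝ) :
    ∑ h, g h = ∑ w, ∑ u, ∑ x : Fin (m u) → V, g ⟨(w, u), x⟩ := by
  rw [Fintype.sum_sigma, Fintype.sum_prod_type]

lemma main_edge (μ : W → (u : U) → (Fin (m u) → V) → ℝ) (e : Sym2 V) :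
    mainT l μ (Sum.inl e) = ∑ w, ∑ u, ∑ i ∈ Dt (m u) (l u),
      rsum (fun x : Fin (m u) → V => s(x i, x (nx i)) = e) (μ w u) := by
  unfold mainT
  rw [sum_HE]
  refine Finset.sum_congr rfl fun w _ => Finset.sum_congr rfl fun u _ => ?_
  simp only [rsum_eq_ite]
  rw [Finset.sum_comm]
  refine Finset.sum_congr rfl fun x _ => ?_
  rw [count_atoms]
  simp only [reduceCtorEq, if_false, Finset.sum_const_zero, add_zero, Sum.inl.injEq,
    Finset.sum_mul, mu]
  refine Finset.sum_congr rfl fun i _ => ?_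
  split_ifs <;> simp

lemma main_slot (μ : W → (u : U) → (Fin (m u) → V) → ℝ) (v : V) (w : W) :
    mainT l μ (Sum.inr (Sum.inl (v, w))) = ∑ u, ∑ i ∈ Ps (m u) (l u),
      rsum (fun x : Fin (m u) → V => x i = v) (μ w u) := by
  unfold mainT
  rw [sum_HE, Finset.sum_eq_single w]
  · refine Finset.sum_congr rfl fun u _ => ?_
    simp only [rsum_eq_ite]
    rw [Finset.sum_comm]
    refine Finset.sum_congr rfl fun x _ => ?_
    rw [count_atoms]
    simp only [reduceCtorEq, if_false, Finset.sum_const_zero, add_zero, zero_add, Sum.inl.injEq,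
      Sum.inr.injEq, Prod.mk.injEq, and_true, Finset.sum_mul, mu]
    refine Finset.sum_congr rfl fun i _ => ?_
    split_ifs <;> simp
  · intro w' _ hw'
    refine Finset.sum_eq_zero fun u _ => Finset.sum_eq_zero fun x _ => ?_
    rw [count_atoms]
    simp [hw']
  · simp

lemma main_dem (μ : W → (u : U) → (Fin (m u) → V) → ℝ) (w : W) (u : U) :
    mainT l μ (Sum.inr (Sum.inr (w, u))) = ∑ x, μ w u x := by
  unfold mainT
  rw [Fintype.sum_sigma, Finset.sum_eq_single (w, u)]
  · refine Finset.sum_congr rfl fun x _ => ?_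
    rw [count_atoms]
    simp [mu]
  · intro d _ hd
    refine Finset.sum_eq_zero fun x _ => ?_
    rw [count_atoms]
    simp [hd]
  · simp

lemma rsum_HE_le (μ : W → (u : U) → (Fin (m u) → V) → ℝ) (hμ : ∀ w u x, 0 ≤ μ w u x)
    (p : HE V W U m → Prop) (R : W × U → Prop) (q : (u : U) → (Fin (m u) → V) → Prop) {b : ℝ}
    (hp : ∀ h, p h → R h.1 ∧ q h.1.2 h.2) (hq : ∀ w u, rsum (q u) (μ w u) ≤ b) :
    rsum p (mu μ) ≤ (cnt R : ℕ) * b := by
  rw [rsum_eq_ite, Fintype.sum_sigma, cnt_eq_sum]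
  push_cast
  rw [Finset.sum_mul]
  refine Finset.sum_le_sum fun d _ => ?_
  by_cases hR : R d
  · rw [if_pos hR, one_mul]
    refine le_trans ?_ (hq d.1 d.2)
    rw [rsum_eq_ite]
    refine Finset.sum_le_sum fun x _ => ?_
    by_cases h1 : p ⟨d, x⟩
    · rw [if_pos h1, if_pos (hp _ h1).2]
      exact le_rfl
    · rw [if_neg h1]
      split_ifs
      · exact hμ _ _ _
      · exact le_rfl
  · rw [if_neg hR, zero_mul]
    refine le_of_eq (Finset.sum_eq_zero fun x _ => ?_)
    rw [if_neg fun h1 => hR (hp _ h1).1]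

/-- The demands compatible with an atom. -/
def aR : Atom V W U → W × U → Prop
  | Sum.inl _, _ => True
  | Sum.inr (Sum.inl z), d => d.1 = z.2
  | Sum.inr (Sum.inr d'), d => d = d'

/-- The vertices forced by an atom. -/
def aT : Atom V W U → Finset V
  | Sum.inl e => e.toFinset
  | Sum.inr (Sum.inl z) => {z.1}
  | Sum.inr (Sum.inr _) => ∅

/-- The atoms to be covered. -/
def aOk (G : SimpleGraph V) (Free : Finset (V × W)) : Atom V W U → Prop
  | Sum.inl e => e ∈ G.edgeSet
  | Sum.inr (Sum.inl z) => z ∈ Free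
  | Sum.inr (Sum.inr _) => True

omit [Fintype V] [Fintype W] [Fintype U] in
lemma atoms_spec {h : HE V W U m} {a : Atom V W U} (ha : a ∈ atoms l h) :
    aR a h.1 ∧ Cov (aT a) h.2 := by
  rcases a with e | ⟨v, w⟩ | d
  · obtain ⟨i, _, rfl⟩ := mem_atoms_edge.mp ha
    refine ⟨trivial, fun t ht => ?_⟩
    simp only [aT, Sym2.mem_toFinset, Sym2.mem_iff] at ht
    rcases ht with rfl | rfl
    · exact ⟨_, rfl⟩
    · exact ⟨_, rfl⟩
  · obtain ⟨h1, i, _, hi⟩ := mem_atoms_slot.mp ha
    refine ⟨h1, fun t ht => ?_⟩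
    simp only [aT, Finset.mem_singleton] at ht
    exact ⟨i, hi.trans ht.symm⟩
  · refine ⟨(mem_atoms_dem.mp ha).symm, fun t ht => ?_⟩
    simp [aT] at ht

lemma cnt_le_sq {n : ℕ} (hW : Fintype.card W ≤ n) (hU : Fintype.card U ≤ n)
    (R : W × U → Prop) : cnt R ≤ n ^ 2 := by
  refine (cnt_le_card R).trans ?_
  rw [Fintype.card_prod, sq]
  exact Nat.mul_le_mul hW hU

lemma cnt_le_lin {n : ℕ} (hU : Fintype.card U ≤ n) (R : W × U → Prop) (w : W)
    (hR : ∀ d, R d → d.1 = w) : cnt R ≤ n := by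
  refine le_trans ?_ ((cnt_le_card fun _ : U => True).trans hU)
  refine cnt_le_of_injOn Prod.snd (fun _ _ => trivial) fun d d' hd hd' h => ?_
  exact Prod.ext ((hR d hd).trans (hR d' hd').symm) h

lemma cnt_le_one' {I : Type} [Fintype I] (R : I → Prop) (d : I) (hR : ∀ d', R d' → d' = d) :
    cnt R ≤ 1 := by
  unfold cnt
  refine Finset.card_le_one.mpr fun a ha b hb => ?_
  simp only [Finset.mem_filter, Finset.mem_univ, true_and] at ha hb
  exact (hR a ha).trans (hR b hb).symm

lemma cnt_eq_zero' {I : Type} [Fintype I] (R : I → Prop) (hR : ∀ d', ¬ R d') : cnt R = 0 := by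
  unfold cnt
  rw [Finset.card_eq_zero]
  exact Finset.filter_eq_empty_iff.mpr fun a _ => hR a

omit [Fintype V] [Fintype W] [Fintype U] in
lemma card_aT_le (a : Atom V W U) : (aT a).card ≤ 2 := by
  rcases a with e | z | d
  · simp only [aT, Sym2.card_toFinset]
    split_ifs <;> omega
  · simp [aT]
  · simp [aT]

omit [Fintype V] in
lemma cnt_aR_le {n : ℕ} (hW : Fintype.card W ≤ n) (hU : Fintype.card U ≤ n)
    {G : SimpleGraph V} {Free : Finset (V × W)} {a : Atom V W U} (ha : aOk G Free a) :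
    cnt (aR a) ≤ n ^ (aT a).card := by
  rcases a with e | z | d
  · simp only [aT]
    rw [Sym2.card_toFinset_of_not_isDiag e (G.not_isDiag_of_mem_edgeSet ha)]
    exact cnt_le_sq hW hU _
  · simp only [aT, Finset.card_singleton, pow_one]
    exact cnt_le_lin hU _ z.2 fun d hd => hd
  · simp only [aT, Finset.card_empty, pow_zero]
    exact cnt_le_one' _ d fun d' hd => hd

omit [Fintype V] in
lemma cnt_aR_pair_le {n : ℕ} (hn : 1 ≤ n) (hW : Fintype.card W ≤ n) (hU : Fintype.card U ≤ n)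
    {G : SimpleGraph V} {Free : Finset (V × W)} {a b : Atom V W U} (ha : aOk G Free a)
    (hb : aOk G Free b) (hab : a ≠ b) :
    cnt (fun d => aR a d ∧ aR b d) * n ≤ n ^ (aT a ∪ aT b).card := by
  have key : ∀ (r j : ℕ) (T : Finset V), r ≤ n ^ j → j + 1 ≤ T.card → r * n ≤ n ^ T.card := by
    intro r j T h1 h2
    calc r * n ≤ n ^ j * n := Nat.mul_le_mul_right _ h1
      _ = n ^ (j + 1) := (pow_succ _ _).symm
      _ ≤ _ := Nat.pow_le_pow_right hn h2
  have hl : ∀ T T' : Finset V, T.card ≤ (T ∪ T').card := fun T T' =>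
    Finset.card_le_card Finset.subset_union_left
  have hr : ∀ T T' : Finset V, T'.card ≤ (T ∪ T').card := fun T T' =>
    Finset.card_le_card Finset.subset_union_right
  have he : ∀ e ∈ G.edgeSet, e.toFinset.card = 2 := fun e he =>
    Sym2.card_toFinset_of_not_isDiag e (G.not_isDiag_of_mem_edgeSet he)
  rcases a with e | z | d <;> rcases b with e' | z' | d'
  · refine key _ 2 _ (cnt_le_sq hW hU _) ?_
    by_contra hc
    have h1 : (e.toFinset ∪ e'.toFinset).card ≤ 2 := by
      simp only [aT] at hc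
      omega
    have h2 : e.toFinset = e.toFinset ∪ e'.toFinset :=
      Finset.eq_of_subset_of_card_le Finset.subset_union_left (by rw [he e ha]; exact h1)
    have h3 : e'.toFinset = e.toFinset ∪ e'.toFinset :=
      Finset.eq_of_subset_of_card_le Finset.subset_union_right (by rw [he e' hb]; exact h1)
    refine hab (congrArg Sum.inl (Sym2.ext fun x => ?_))
    rw [← Sym2.mem_toFinset, ← Sym2.mem_toFinset, h2, ← h3]
  · refine key _ 1 _ (by rw [pow_one]; exact cnt_le_lin hU _ z'.2 fun d hd => hd.2) ?_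
    exact le_trans (he e ha).ge (hl _ _)
  · refine key _ 0 _ (cnt_le_one' _ d' fun d hd => hd.2) ?_
    exact le_trans (le_trans (by norm_num) (he e ha).ge) (hl _ _)
  · refine key _ 1 _ (by rw [pow_one]; exact cnt_le_lin hU _ z.2 fun d hd => hd.1) ?_
    exact le_trans (he e' hb).ge (hr _ _)
  · by_cases hw : z.2 = z'.2
    · refine key _ 1 _ (by rw [pow_one]; exact cnt_le_lin hU _ z.2 fun d hd => hd.1) ?_
      have hv : z.1 ≠ z'.1 := fun hv => hab (by rw [Prod.ext hv hw])
      simp only [aT]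
      rw [Finset.card_union_of_disjoint (by simpa using hv)]
      simp
    · rw [cnt_eq_zero' _ fun d hd => hw (Eq.trans (Eq.symm hd.1) hd.2), zero_mul]
      exact Nat.zero_le _
  · refine key _ 0 _ (cnt_le_one' _ d' fun d hd => hd.2) ?_
    simp [aT]
  · refine key _ 0 _ (cnt_le_one' _ d fun d hd => hd.1) ?_
    exact le_trans (le_trans (by norm_num) (he e' hb).ge) (hr _ _)
  · refine key _ 0 _ (cnt_le_one' _ d fun d hd => hd.1) ?_
    simp [aT]
  · rw [cnt_eq_zero' _ fun d0 hd => hab (by rw [← (hd.1 : d0 = d), ← (hd.2 : d0 = d')]),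
      zero_mul]
    exact Nat.zero_le _

end Pool.Agent.Lib.MP_34bdde_co
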