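import Mathlib
import Pool.Agent.Lib.MP_34bdde_co.ApproxB

set_option autoImplicit false

open Finset
open scoped Classical

noncomputable section

namespace Pool.Agent.Lib.MP_34bdde_co

variable {V W U : Type} {m l : U → ℕ} [Fintype V] [Fintype W] [Fintype U]

/-- The weights handed to the nibble. -/
def wtH (α : ℝ) (μ : W → (u : U) → (Fin (m u) → V) → ℝ) (h : HE V W U m) : ℝ :=
  if Function.Injective h.2 then mu μ h / (1 + α) else 0

lemma real_aux {n r t j m0 b c : ℕ} {B : ℝ} (hn : 0 < n) (hB : 0 ≤ B) (hm0 : 1 ≤ m0)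
    (hr : r * n ≤ n ^ t * n ^ j) (hb : b ≤ c) :
    (r : ℝ) * (B * (m0 : ℝ) ^ b / (n : ℝ) ^ (t + j)) ≤ B * (m0 : ℝ) ^ c / n := by
  have hn' : (0 : ℝ) < n := by exact_mod_cast hn
  have hr' : (r : ℝ) * n ≤ (n : ℝ) ^ (t + j) := by
    rw [pow_add]
    exact_mod_cast hr
  have hm : (m0 : ℝ) ^ b ≤ (m0 : ℝ) ^ c := pow_le_pow_right₀ (by exact_mod_cast hm0) hb
  rw [le_div_iff₀ hn']
  calc (r : ℝ) * (B * (m0 : ℝ) ^ b / (n : ℝ) ^ (t + j)) * n
      = B * (m0 : ℝ) ^ b * ((r : ℝ) * n / (n : ℝ) ^ (t + j)) := by ring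
    _ ≤ B * (m0 : ℝ) ^ c * 1 := by
        refine mul_le_mul (mul_le_mul_of_nonneg_left hm hB) ?_ (by positivity) (by positivity)
        rwa [div_le_one (by positivity)]
    _ = _ := mul_one _

omit [Fintype V] [Fintype W] [Fintype U] in
lemma wtH_nonneg {α : ℝ} (hα : 0 ≤ α) {μ : W → (u : U) → (Fin (m u) → V) → ℝ}
    (hμ : ∀ w u x, 0 ≤ μ w u x) (h : HE V W U m) : 0 ≤ wtH α μ h := by
  unfold wtH
  split_ifs
  · exact div_nonneg (hμ _ _ _) (by linarith)
  · exact le_rfl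

omit [Fintype V] [Fintype W] [Fintype U] in
lemma wtH_le {α : ℝ} (hα : 0 ≤ α) {μ : W → (u : U) → (Fin (m u) → V) → ℝ}
    (hμ : ∀ w u x, 0 ≤ μ w u x) (h : HE V W U m) : wtH α μ h ≤ mu μ h := by
  unfold wtH
  split_ifs
  · exact div_le_self (hμ _ _ _) (by linarith)
  · exact hμ _ _ _

lemma codeg_le {α B : ℝ} {m0 : ℕ} (hα : 0 ≤ α) (hB : 0 ≤ B) (hm0 : 1 ≤ m0) (hm : ∀ u, m u ≤ m0)
    (hV : 0 < Fintype.card V) (hW : Fintype.card W ≤ Fintype.card V)
    (hU : Fintype.card U ≤ Fintype.card V) {μ : W → (u : U) → (Fin (m u) → V) → ℝ}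
    (hμ : ∀ w u x, 0 ≤ μ w u x ∧ μ w u x ≤ B / (Fintype.card V : ℝ) ^ m u)
    {G : SimpleGraph V} {Free : Finset (V × W)} {a b : Atom V W U} (ha : aOk G Free a)
    (hb : aOk G Free b) (hab : a ≠ b) :
    rsum (fun h : HE V W U m => a ∈ atoms l h ∧ b ∈ atoms l h) (wtH α μ) ≤
      B * (m0 : ℝ) ^ 4 / Fintype.card V := by
  have h0 : ∀ w u x, 0 ≤ μ w u x := fun w u x => (hμ w u x).1
  have h1 : rsum (fun h : HE V W U m => a ∈ atoms l h ∧ b ∈ atoms l h) (wtH α μ) ≤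
      rsum (fun h : HE V W U m => a ∈ atoms l h ∧ b ∈ atoms l h) (mu μ) :=
    rsum_mono (fun h => h0 _ _ _) fun h hh => Or.inr ⟨hh, wtH_le hα h0 h⟩
  refine h1.trans ?_
  have h2 := rsum_HE_le μ h0 (fun h : HE V W U m => a ∈ atoms l h ∧ b ∈ atoms l h)
    (fun d => aR a d ∧ aR b d) (fun u x => Cov (aT a ∪ aT b) x)
    (b := B * (m0 : ℝ) ^ (aT a ∪ aT b).card / (Fintype.card V : ℝ) ^ (aT a ∪ aT b).card)
    (fun h hh => ⟨⟨(atoms_spec hh.1).1, (atoms_spec hh.2).1⟩, fun t ht => by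
      rcases Finset.mem_union.mp ht with ht | ht
      · exact (atoms_spec hh.1).2 t ht
      · exact (atoms_spec hh.2).2 t ht⟩)
    (fun w u => mass_le_aux hV (hm u) _ (cnt_cov_le _ _) hB fun x => (hμ w u x).2)
  refine h2.trans ?_
  have h3 := cnt_aR_pair_le hV hW hU ha hb hab
  have h4 : (aT a ∪ aT b).card ≤ 4 :=
    (Finset.card_union_le _ _).trans (by have := card_aT_le a; have := card_aT_le b; omega)
  exact real_aux (j := 0) hV hB hm0 (by rw [pow_zero, mul_one]; exact h3) h4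

lemma deg_bounds {α B : ℝ} {m0 : ℕ} (hα : 0 ≤ α) (hB : 0 ≤ B) (hm0 : 1 ≤ m0)
    (hm : ∀ u, 3 ≤ m u ∧ m u ≤ m0)
    (hV : 0 < Fintype.card V) (hW : Fintype.card W ≤ Fintype.card V)
    (hU : Fintype.card U ≤ Fintype.card V) {μ : W → (u : U) → (Fin (m u) → V) → ℝ}
    (hμ : ∀ w u x, 0 ≤ μ w u x ∧ μ w u x ≤ B / (Fintype.card V : ℝ) ^ m u)
    (hbig : (2 * m0 + 1) * (B * (m0 : ℝ) ^ 4 / Fintype.card V) ≤ α)
    {G : SimpleGraph V} {Free : Finset (V × W)} {a : Atom V W U} (ha : aOk G Free a)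
    (hmain : |mainT l μ a - 1| ≤ α) :
    1 - 3 * α ≤ rsum (fun h : HE V W U m => a ∈ atoms l h) (wtH α μ) ∧
      rsum (fun h : HE V W U m => a ∈ atoms l h) (wtH α μ) ≤ 1 := by
  have h0 : ∀ w u x, 0 ≤ μ w u x := fun w u x => (hμ w u x).1
  have h0' : ∀ h : HE V W U m, 0 ≤ mu μ h := fun h => h0 _ _ _
  have hα1 : (0 : ℝ) < 1 + α := by linarith
  set loss : ℝ := ∑ h : HE V W U m,
    if Function.Injective h.2 then 0 else (((atoms l h).count a : ℕ) : ℝ) * mu μ h with hloss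
  have e1 : rsum (fun h : HE V W U m => a ∈ atoms l h) (wtH α μ) * (1 + α) =
      mainT l μ a - loss := by
    rw [rsum_eq_ite, hloss, mainT, ← Finset.sum_sub_distrib, Finset.sum_mul]
    refine Finset.sum_congr rfl fun h _ => ?_
    unfold wtH
    by_cases hx : Function.Injective h.2
    · rw [if_pos hx, if_pos hx, sub_zero]
      by_cases hah : a ∈ atoms l h
      · rw [if_pos hah, Multiset.count_eq_one_of_mem (nodup_atoms h (hm _).1 hx) hah]
        field_simp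
        simp
      · rw [if_neg hah, Multiset.count_eq_zero_of_notMem hah]
        simp
    · rw [if_neg hx, if_neg hx]
      simp
  have l0 : 0 ≤ loss := by
    refine Finset.sum_nonneg fun h _ => ?_
    split_ifs
    · exact le_rfl
    · exact mul_nonneg (Nat.cast_nonneg _) (h0' h)
  have l1 : loss ≤ (2 * m0 + 1) *
      rsum (fun h : HE V W U m => a ∈ atoms l h ∧ ¬ Function.Injective h.2) (mu μ) := by
    rw [rsum_eq_ite, hloss, Finset.mul_sum]
    refine Finset.sum_le_sum fun h _ => ?_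
    by_cases hx : Function.Injective h.2
    · rw [if_pos hx, if_neg fun hh => hh.2 hx, mul_zero]
    · rw [if_neg hx]
      by_cases hah : a ∈ atoms l h
      · rw [if_pos ⟨hah, hx⟩]
        refine mul_le_mul_of_nonneg_right ?_ (h0' h)
        have h1 : (atoms l h).count a ≤ 2 * m0 + 1 :=
          (Multiset.count_le_card _ _).trans ((card_atoms_le h).trans
            (by have := (hm h.1.2).2; omega))
        exact_mod_cast h1
      · rw [if_neg fun hh => hah hh.1, Multiset.count_eq_zero_of_notMem hah]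
        simp
  have l2 := rsum_HE_le μ h0 (fun h : HE V W U m => a ∈ atoms l h ∧ ¬ Function.Injective h.2)
    (aR a) (fun u x => Cov (aT a) x ∧ ¬ Function.Injective x)
    (b := B * (m0 : ℝ) ^ ((aT a).card + 2) / (Fintype.card V : ℝ) ^ ((aT a).card + 1))
    (fun h hh => ⟨(atoms_spec hh.1).1, (atoms_spec hh.1).2, hh.2⟩)
    (fun w u => mass_le_aux hV (hm u).2 _ (cnt_cov_bad_le _ _) hB fun x => (hμ w u x).2)
  have l3 := real_aux (n := Fintype.card V) (r := cnt (aR a)) (t := (aT a).card) (j := 1)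
    (b := (aT a).card + 2) (c := 4) hV hB hm0
    (by rw [pow_one]; exact Nat.mul_le_mul_right _ (cnt_aR_le hW hU ha))
    (by have := card_aT_le a; omega)
  have l4 : loss ≤ α :=
    l1.trans ((mul_le_mul_of_nonneg_left (l2.trans l3) (by positivity)).trans hbig)
  obtain ⟨m1, m2⟩ := abs_le.mp hmain
  constructor
  · refine le_of_mul_le_mul_right ?_ hα1
    rw [e1]
    nlinarith [sq_nonneg α]
  · refine le_of_mul_le_mul_right ?_ hα1
    rw [e1]
    linarith

/-- A near-perfect family of disjoint injective closed walks. -/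
theorem hyper (γ' : ℝ) (hγ' : 0 < γ') : ∃ α : ℝ, 0 < α ∧ ∀ (m0 : ℕ) (B : ℝ), 1 ≤ m0 → 0 ≤ B →
    ∃ n0 : ℕ, ∀ (V W U : Type) [Fintype V] [Fintype W] [Fintype U] (G : SimpleGraph V)
      (Free : Finset (V × W)) (m l : U → ℕ) (μ : W → (u : U) → (Fin (m u) → V) → ℝ),
      n0 ≤ Fintype.card V → Fintype.card W ≤ Fintype.card V →
      Fintype.card U ≤ Fintype.card V → (∀ u, 3 ≤ m u ∧ m u ≤ m0) →
      (∀ w u x, 0 ≤ μ w u x ∧ μ w u x ≤ B / (Fintype.card V : ℝ) ^ m u) →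
      (∀ a, aOk G Free a → |mainT l μ a - 1| ≤ α) →
      ∃ M : Finset (HE V W U m), (∀ h ∈ M, Function.Injective h.2 ∧ mu μ h ≠ 0) ∧
        (∀ h ∈ M, ∀ h' ∈ M, ∀ a, aOk G Free a → a ∈ atoms l h → a ∈ atoms l h' → h = h') ∧
        (∀ v, ((cnt fun u => G.Adj v u ∧ ∀ h ∈ M, Sum.inl s(v, u) ∉ atoms l h : ℕ) : ℝ) ≤
          γ' * Fintype.card V) ∧
        (∀ w, ((cnt fun v => (v, w) ∈ Free ∧
          ∀ h ∈ M, Sum.inr (Sum.inl (v, w)) ∉ atoms l h : ℕ) : ℝ) ≤ γ' * Fintype.card V) := by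
  obtain ⟨α0, hα0, H⟩ := nibble_sub γ' hγ'
  refine ⟨α0 / 3, by positivity, fun m0 B hm0 hB => ?_⟩
  obtain ⟨n1, H⟩ := H (2 * m0 + 1) (B * (m0 : ℝ) ^ 4)
  obtain ⟨n2, hn2⟩ := exists_nat_ge ((2 * m0 + 1) * (B * (m0 : ℝ) ^ 4) / (α0 / 3))
  refine ⟨max 3 (max n1 n2), fun V W U _ _ _ G Free m l μ hn hW hU hm hμ hmain => ?_⟩
  have hn3 : 3 ≤ Fintype.card V := (le_max_left _ _).trans hn
  have hn1 : n1 ≤ Fintype.card V := ((le_max_left _ _).trans (le_max_right _ _)).trans hn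
  have hn2' : n2 ≤ Fintype.card V := ((le_max_right _ _).trans (le_max_right _ _)).trans hn
  have hV : 0 < Fintype.card V := by omega
  have hVr : (0 : ℝ) < Fintype.card V := by exact_mod_cast hV
  have hα : (0 : ℝ) < α0 / 3 := by positivity
  have h0 : ∀ w u x, 0 ≤ μ w u x := fun w u x => (hμ w u x).1
  have hbig : (2 * m0 + 1) * (B * (m0 : ℝ) ^ 4 / Fintype.card V) ≤ α0 / 3 := by
    rw [← mul_div_assoc, div_le_iff₀ hVr]
    rw [div_le_iff₀ hα] at hn2
    have h1 : (n2 : ℝ) ≤ Fintype.card V := by exact_mod_cast hn2'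
    nlinarith
  have hS2 : Fintype.card (Sym2 V) ≤ Fintype.card V * Fintype.card V := by
    rw [← Fintype.card_prod]
    refine Fintype.card_le_of_surjective (fun z : V × V => s(z.1, z.2)) fun e => ?_
    induction e using Sym2.ind with
    | h a b => exact ⟨(a, b), rfl⟩
  obtain ⟨M, hM1, hM2, hM3⟩ := H (Fintype.card V) hn1 (Atom V W U) (HE V W U m) (V ⊕ W)
    (aOk G Free) (atoms l) (wtH (α0 / 3) μ)
    (Sum.elim (fun v a => ∃ u, a = Sum.inl s(v, u))
      (fun w a => ∃ v, a = Sum.inr (Sum.inl (v, w))))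
    (by
      simp only [Fintype.card_sum, Fintype.card_prod]
      have h1 := Nat.mul_le_mul_left (Fintype.card V) hW
      have h2 := Nat.mul_le_mul hW hU
      have h3 := Nat.mul_le_mul_right (Fintype.card V * Fintype.card V) hn3
      calc _ ≤ 3 * (Fintype.card V * Fintype.card V) := by omega
        _ ≤ _ := h3
        _ = _ := by ring)
    (by
      simp only [Fintype.card_sum]
      have h3 : 3 * 3 ≤ Fintype.card V * Fintype.card V := Nat.mul_le_mul hn3 hn3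
      have h4 := Nat.mul_le_mul_right (Fintype.card V) h3
      calc _ ≤ 3 * 3 * Fintype.card V := by omega
        _ ≤ _ := h4
        _ = _ := by ring)
    (fun h => (card_atoms_le h).trans (by have := (hm h.1.2).2; omega))
    (wtH_nonneg hα.le h0)
    (fun a ha => by
      have h := deg_bounds (l := l) hα.le hB hm0 hm hV hW hU hμ hbig ha (hmain a ha)
      have e : 1 - α0 = 1 - 3 * (α0 / 3) := by ring
      rw [e]
      exact h)
    (fun a b ha hb hab => codeg_le hα.le hB hm0 (fun u => (hm u).2) hV hW hU hμ ha hb hab)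
    (by
      rintro (v | w)
      · refine (cnt_exists_le fun (u : V) (a : Atom V W U) => a = Sum.inl s(v, u)).trans ?_
        calc _ ≤ ∑ _u : V, 1 := Finset.sum_le_sum fun u _ => cnt_le_one' _ _ fun _ h => h
          _ = _ := by simp
      · refine (cnt_exists_le fun (v : V) (a : Atom V W U) =>
          a = Sum.inr (Sum.inl (v, w))).trans ?_
        calc _ ≤ ∑ _u : V, 1 := Finset.sum_le_sum fun u _ => cnt_le_one' _ _ fun _ h => h
          _ = _ := by simp)
  refine ⟨M, fun h hh => ?_, hM2, fun v => le_trans ?_ (hM3 (Sum.inl v)),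
    fun w => le_trans ?_ (hM3 (Sum.inr w))⟩
  · have h1 := hM1 h hh
    unfold wtH at h1
    by_cases hx : Function.Injective h.2
    · rw [if_pos hx] at h1
      refine ⟨hx, fun h2 => h1 ?_⟩
      rw [h2, zero_div]
    · exact absurd (if_neg hx) h1
  · rw [Nat.cast_le]
    refine cnt_le_of_injOn (fun u => (Sum.inl s(v, u) : Atom V W U))
      (fun u hu => ⟨⟨u, rfl⟩, hu.1, hu.2⟩) fun u u' _ _ h => ?_
    exact Sym2.congr_right.mp (Sum.inl.inj h)
  · rw [Nat.cast_le]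
    refine cnt_le_of_injOn (fun v => (Sum.inr (Sum.inl (v, w)) : Atom V W U))
      (fun v hv => ⟨⟨v, rfl⟩, hv.1, hv.2⟩) fun u u' _ _ h => ?_
    exact (Prod.ext_iff.mp (Sum.inl.inj (Sum.inr.inj h))).1

end Pool.Agent.Lib.MP_34bdde_co
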