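import Mathlib
import Pool.Agent.Lib.MP_34bdde_co.ApproxB

set_option autoImplicit false

open Finset
open scoped Classical

noncomputable section

namespace Pool.Agent.Lib.MP_34bdde_co

/-- Reading off the embeddings from a family of disjoint closed walks. -/
theorem extract {V W Λ : Type} [Fintype W] [Fintype Λ] [Nonempty V] (G : SimpleGraph V)
    {F : SimpleGraph Λ} {M K L : ℕ} (Ly : Layout F M K L) (Free : Finset (V × W))
    (Mt : Finset (HE V W Ly.U fun u => 2 * Ly.k u))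
    (hinj : ∀ h ∈ Mt, Function.Injective h.2)
    (hsupp : ∀ h ∈ Mt, ∀ i, (h.2 i, h.1.1) ∈ Free ∧ G.Adj (h.2 i) (h.2 (nx i)))
    (hdisj : ∀ h ∈ Mt, ∀ h' ∈ Mt, ∀ a, aOk G Free a → a ∈ atoms Ly.s h → a ∈ atoms Ly.s h' →
      h = h') :
    ∃ (dom : W → Finset Λ) (f : W → Λ → V), (∀ w, ∀ a ∈ dom w, a ∉ Ly.Pre ∧ a ∉ Ly.Post) ∧
      slotsOf dom f ≤ Free.val ∧ (edgesOf F dom f).Nodup ∧
      (∀ e ∈ edgesOf F dom f, e ∈ G.edgeSet) ∧
      (∀ h ∈ Mt, ∀ e, Sum.inl e ∈ atoms Ly.s h → e ∈ edgesOf F dom f) ∧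
      (∀ h ∈ Mt, ∀ z, Sum.inr (Sum.inl z) ∈ atoms Ly.s h → z ∈ slotsOf dom f) := by
  have hdem : ∀ h ∈ Mt, ∀ h' ∈ Mt, h.1.1 = h'.1.1 → h.1.2 = h'.1.2 → h = h' := by
    intro h hh h' hh' h1 h2
    exact hdisj h hh h' hh' (Sum.inr (Sum.inr h.1)) trivial (mem_atoms_dem.mpr rfl)
      (mem_atoms_dem.mpr (Prod.ext h1 h2))
  have hex : ∀ (w : W) (a : Λ), ∃ v : V, ∀ h ∈ Mt, h.1.1 = w →
      ∀ i : Fin (2 * Ly.k h.1.2), (i : ℕ) < Ly.s h.1.2 → Ly.pos h.1.2 i = a → v = h.2 i := by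
    intro w a
    by_cases H : ∃ h ∈ Mt, h.1.1 = w ∧
        ∃ i : Fin (2 * Ly.k h.1.2), (i : ℕ) < Ly.s h.1.2 ∧ Ly.pos h.1.2 i = a
    · obtain ⟨h, hh, hw, i, hi, ha⟩ := H
      refine ⟨h.2 i, fun h' hh' hw' i' hi' ha' => ?_⟩
      obtain ⟨e1, e2⟩ := Ly.pos_inj _ _ _ _ hi hi' (ha.trans ha'.symm)
      obtain rfl := hdem h hh h' hh' (hw.trans hw'.symm) e1
      rw [Fin.ext e2]
    · exact ⟨Classical.arbitrary V, fun h hh hw i hi ha => absurd ⟨h, hh, hw, i, hi, ha⟩ H⟩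
  choose f hf using hex
  obtain ⟨dom, hdom⟩ : ∃ dom : W → Finset Λ, ∀ w a, a ∈ dom w ↔ ∃ h ∈ Mt, h.1.1 = w ∧
      ∃ i : Fin (2 * Ly.k h.1.2), (i : ℕ) < Ly.s h.1.2 ∧ Ly.pos h.1.2 i = a :=
    ⟨fun w => univ.filter fun a => ∃ h ∈ Mt, h.1.1 = w ∧
      ∃ i : Fin (2 * Ly.k h.1.2), (i : ℕ) < Ly.s h.1.2 ∧ Ly.pos h.1.2 i = a,
      fun w a => by simp only [Finset.mem_filter, Finset.mem_univ, true_and]⟩
  have hfi : ∀ w w' a a', a ∈ dom w → a' ∈ dom w' → (f w a, w) = (f w' a', w') →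
      w = w' ∧ a = a' := by
    intro w w' a a' ha ha' he
    obtain ⟨e1, rfl⟩ := Prod.ext_iff.mp he
    refine ⟨rfl, ?_⟩
    obtain ⟨h, hh, hw, i, hi, rfl⟩ := (hdom _ _).mp ha
    obtain ⟨h', hh', hw', i', hi', rfl⟩ := (hdom _ _).mp ha'
    dsimp only at e1 hw hw'
    rw [hf _ _ h hh hw i hi rfl, hf _ _ h' hh' hw' i' hi' rfl] at e1
    obtain rfl := hdisj h hh h' hh' (Sum.inr (Sum.inl (h.2 i, h.1.1))) (hsupp h hh i).1
      (mem_atoms_slot.mpr ⟨rfl, i, mem_Ps.mpr hi, rfl⟩)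
      (mem_atoms_slot.mpr ⟨hw'.trans hw.symm, i', mem_Ps.mpr hi', e1.symm⟩)
    rw [hinj h hh e1]
  have hedge : ∀ w (e : Sym2 Λ), e ∈ F.edgeSet → (∀ a ∈ e, a ∈ dom w) →
      ∃ h ∈ Mt, h.1.1 = w ∧ Sum.inl (Sym2.map (f w) e) ∈ atoms Ly.s h ∧
        Sym2.map (f w) e ∈ G.edgeSet := by
    intro w e he hd
    induction e using Sym2.ind with
    | h a b =>
      obtain ⟨h, hh, hw, i, hi, rfl⟩ := (hdom _ _).mp (hd a (Sym2.mem_mk_left _ _))
      obtain ⟨h', hh', hw', i', hi', rfl⟩ := (hdom _ _).mp (hd b (Sym2.mem_mk_right _ _))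
      obtain ⟨e1, e2⟩ := (Ly.pos_adj _ _ _ _ hi hi').mp he
      obtain rfl := hdem h hh h' hh' (hw.trans hw'.symm) e1
      refine ⟨h, hh, hw, ?_⟩
      rw [Sym2.map_mk, hf _ _ h hh hw i hi rfl, hf _ _ h hh hw i' hi' rfl]
      rcases e2 with e2 | e2
      · obtain rfl : nx i = i' := Fin.ext e2
        exact ⟨mem_atoms_edge.mpr ⟨i, mem_Dt.mpr ⟨hi, hi'⟩, rfl⟩, (hsupp h hh i).2⟩
      · obtain rfl : nx i' = i := Fin.ext e2
        exact ⟨mem_atoms_edge.mpr ⟨i', mem_Dt.mpr ⟨hi', hi⟩, Sym2.eq_swap⟩,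
          (hsupp h hh i').2.symm⟩
  refine ⟨dom, f, fun w a ha => ?_, ?_, ?_, fun e he => ?_, fun h hh e he => ?_,
    fun h hh z hz => ?_⟩
  · obtain ⟨h, _, _, i, hi, rfl⟩ := (hdom _ _).mp ha
    exact (Ly.pos_cover _).mpr ⟨_, _, hi, rfl⟩
  · refine (Multiset.le_iff_subset (nodup_sum_map univ dom (fun w a => (f w a, w)) hfi)).mpr ?_
    intro z hz
    obtain ⟨w, _, hz⟩ := Multiset.mem_sum.mp hz
    obtain ⟨a, ha, rfl⟩ := Multiset.mem_map.mp hz
    obtain ⟨h, hh, hw, i, hi, rfl⟩ := (hdom _ _).mp ha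
    rw [hf _ _ h hh hw i hi rfl, ← hw]
    exact (hsupp h hh i).1
  · refine nodup_sum_map univ _ (fun w => Sym2.map (f w)) fun w w' e e' he he' hee => ?_
    simp only [Finset.mem_filter, Finset.mem_univ, true_and] at he he'
    obtain ⟨h, hh, hw, h1, h2⟩ := hedge w e he.1 he.2
    obtain ⟨h', hh', hw', h1', _⟩ := hedge w' e' he'.1 he'.2
    rw [← hee] at h1'
    obtain rfl := hdisj h hh h' hh' (Sum.inl (Sym2.map (f w) e)) h2 h1 h1'
    obtain rfl : w = w' := hw.symm.trans hw'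
    refine ⟨rfl, ?_⟩
    have hi : ∀ a b, a ∈ dom w → b ∈ dom w → f w a = f w b → a = b := fun a b ha hb hab =>
      (hfi w w a b ha hb (by rw [hab])).2
    induction e using Sym2.ind with
    | h a b =>
      induction e' using Sym2.ind with
      | h a' b' =>
        have ha := he.2 a (Sym2.mem_mk_left _ _)
        have hb := he.2 b (Sym2.mem_mk_right _ _)
        have ha' := he'.2 a' (Sym2.mem_mk_left _ _)
        have hb' := he'.2 b' (Sym2.mem_mk_right _ _)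
        rw [Sym2.map_mk, Sym2.map_mk] at hee
        rcases Sym2.eq_iff.mp hee with ⟨e1, e2⟩ | ⟨e1, e2⟩
        · rw [hi _ _ ha ha' e1, hi _ _ hb hb' e2]
        · rw [hi _ _ ha hb' e1, hi _ _ hb ha' e2, Sym2.eq_swap]
  · obtain ⟨w, _, he⟩ := Multiset.mem_sum.mp he
    obtain ⟨e', he', rfl⟩ := Multiset.mem_map.mp he
    simp only [Finset.mem_val, Finset.mem_filter, Finset.mem_univ, true_and] at he'
    obtain ⟨_, _, _, _, h2⟩ := hedge w e' he'.1 he'.2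
    exact h2
  · obtain ⟨i, hi, rfl⟩ := mem_atoms_edge.mp he
    obtain ⟨hi, hi'⟩ := mem_Dt.mp hi
    refine Multiset.mem_sum.mpr ⟨h.1.1, Finset.mem_univ _, Multiset.mem_map.mpr
      ⟨s(Ly.pos h.1.2 i, Ly.pos h.1.2 (nx i)), ?_, ?_⟩⟩
    · simp only [Finset.mem_val, Finset.mem_filter, Finset.mem_univ, true_and]
      refine ⟨(Ly.pos_adj _ _ _ _ hi hi').mpr ⟨rfl, Or.inl rfl⟩, fun a ha => ?_⟩
      rcases Sym2.mem_iff.mp ha with rfl | rfl
      · exact (hdom _ _).mpr ⟨h, hh, rfl, i, hi, rfl⟩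
      · exact (hdom _ _).mpr ⟨h, hh, rfl, nx i, hi', rfl⟩
    · rw [Sym2.map_mk, hf _ _ h hh rfl i hi rfl, hf _ _ h hh rfl (nx i) hi' rfl]
  · obtain ⟨v, w⟩ := z
    obtain ⟨rfl, i, hi, rfl⟩ := mem_atoms_slot.mp hz
    have hi := mem_Ps.mp hi
    refine Multiset.mem_sum.mpr ⟨h.1.1, Finset.mem_univ _, Multiset.mem_map.mpr
      ⟨Ly.pos h.1.2 i, (hdom _ _).mpr ⟨h, hh, rfl, i, hi, rfl⟩, ?_⟩⟩
    rw [hf _ _ h hh rfl i hi rfl]

lemma card_Ps {m l : ℕ} (h : l ≤ m) : (Ps m l).card = l := by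
  unfold Ps
  rw [Fin.card_filter_val_lt]
  exact min_eq_right h

lemma card_Dt_le {m l : ℕ} (h : l ≤ m) : (Dt m l).card ≤ l := by
  rw [← card_Ps h]
  refine Finset.card_le_card fun i hi => ?_
  rw [card_Ps h] at hi
  exact mem_Ps.mpr (mem_Dt.mp hi).1

lemma le_card_Dt {m l : ℕ} (h : l ≤ m) : l ≤ (Dt m l).card + if l < m then 1 else 0 := by
  by_cases hl : l < m
  · rw [if_pos hl]
    have h1 : Ps m l ⊆ Dt m l ∪ univ.filter fun i : Fin m => (i : ℕ) + 1 = l := by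
      intro i hi
      have hi := mem_Ps.mp hi
      by_cases h2 : (i : ℕ) + 1 = l
      · exact Finset.mem_union_right _ (by simpa using h2)
      · refine Finset.mem_union_left _ (mem_Dt.mpr ⟨hi, ?_⟩)
        show ((i : ℕ) + 1) % m < l
        rw [Nat.mod_eq_of_lt (by omega)]
        omega
    have h2 : (univ.filter fun i : Fin m => (i : ℕ) + 1 = l).card ≤ 1 := by
      refine Finset.card_le_one.mpr fun a ha b hb => ?_
      simp only [Finset.mem_filter, Finset.mem_univ, true_and] at ha hb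
      exact Fin.ext (by omega)
    have h3 := (Finset.card_le_card h1).trans (Finset.card_union_le _ _)
    rw [card_Ps h] at h3
    omega
  · rw [if_neg hl, add_zero]
    obtain rfl : l = m := by omega
    have h1 : Dt l l = univ := by
      ext i
      simp only [mem_Dt, Finset.mem_univ, iff_true]
      exact ⟨i.2, (nx i).2⟩
    rw [h1]
    simp

lemma Layout.sum_s {Λ : Type} [Fintype Λ] {F : SimpleGraph Λ} {M K L : ℕ} (Ly : Layout F M K L) :
    ∑ u, Ly.s u = cnt fun a => a ∉ Ly.Pre ∧ a ∉ Ly.Post := by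
  have h1 : ∑ u, Ly.s u = ((univ : Finset Ly.U).sigma fun u => Finset.range (Ly.s u)).card := by
    rw [Finset.card_sigma]
    simp
  rw [h1]
  unfold cnt
  refine Finset.card_bij (fun z _ => Ly.pos z.1 z.2) (fun z hz => ?_) (fun z hz z' hz' h => ?_)
    (fun a ha => ?_)
  · simp only [Finset.mem_sigma, Finset.mem_univ, Finset.mem_range, true_and] at hz
    simp only [Finset.mem_filter, Finset.mem_univ, true_and]
    exact (Ly.pos_cover _).mpr ⟨_, _, hz, rfl⟩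
  · simp only [Finset.mem_sigma, Finset.mem_univ, Finset.mem_range, true_and] at hz hz'
    obtain ⟨u, i⟩ := z
    obtain ⟨u', i'⟩ := z'
    obtain ⟨rfl, rfl⟩ := Ly.pos_inj _ _ _ _ hz hz' h
    rfl
  · simp only [Finset.mem_filter, Finset.mem_univ, true_and] at ha
    obtain ⟨u, i, hi, rfl⟩ := (Ly.pos_cover _).mp ha
    exact ⟨⟨u, i⟩, by simpa using hi, rfl⟩

lemma rsum_fiber {I J : Type} [Fintype I] [Fintype J] (p : I → Prop) (g : I → J) (f : I → ℝ) :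
    rsum p f = ∑ j, rsum (fun i => p i ∧ g i = j) f := by
  simp only [rsum_eq_ite]
  rw [Finset.sum_comm]
  refine Finset.sum_congr rfl fun i _ => ?_
  rw [Finset.sum_eq_single (g i)]
  · by_cases h : p i <;> simp [h]
  · intro j _ hj
    rw [if_neg fun h => hj h.2.symm]
  · simp

lemma rsum_or {I : Type} [Fintype I] (p q r : I → Prop) (f : I → ℝ) (h : ∀ i, p i ↔ q i ∨ r i)
    (h' : ∀ i, q i → ¬ r i) : rsum p f = rsum q f + rsum r f := by
  simp only [rsum_eq_ite]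
  rw [← Finset.sum_add_distrib]
  refine Finset.sum_congr rfl fun i _ => ?_
  by_cases hq : q i
  · rw [if_pos ((h i).mpr (Or.inl hq)), if_pos hq, if_neg (h' i hq), add_zero]
  · by_cases hr : r i
    · rw [if_pos ((h i).mpr (Or.inr hr)), if_neg hq, if_pos hr, zero_add]
    · rw [if_neg fun hp => ((h i).mp hp).elim hq hr, if_neg hq, if_neg hr, add_zero]

end Pool.Agent.Lib.MP_34bdde_co
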