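import Mathlib
import Pool.Agent.Lib.MP_34bdde_co.Defs

set_option autoImplicit false

open Finset
open scoped Classical

noncomputable section

namespace Pool.Agent.Lib.MP_34bdde_co

/- PLAN boost. c(u,v) = number of colours free at both u and v; ω0 w u v = 1/c(u,v) on edges of G
inside Free w. δ(v,w) = 2 - Σ_u ω0 w v u for v free in w, |δ| <= 30 β; the mean δbar v over the
free colours of v is (2 free v - deg v)/free v, |δbar| <= 5 γ. For v and colours w, w' let Tr be
the set of ordered pairs (a,b) with v a b a triangle of G and a, b free in w and w'; |Tr| >=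
(ε n/2)^2. τ(u,u') = ([u = v] #(b, (u',b) ∈ Tr) + [u' = v] #(b, (u,b) ∈ Tr) - [(u,u') ∈ Tr])/|Tr|
is symmetric, has row sum 1 at v and 0 elsewhere, and |τ(u,u')| <= (n [u=v] + n [u'=v] + 1)/|Tr|.
ω w = ω0 w + Σ_(v free in w) (1/free v) Σ_(w' free at v) (δ(v,w) - δ(v,w') + δbar v) τ_(v,w,w').
The part δ(v,w) - δ(v,w') is antisymmetric in (w,w') and cancels in Σ_w. -/

namespace BoostAux

/-- Real indicator. -/
def ind (p : Prop) : ℝ := if p then 1 else 0

lemma ind_pos {p : Prop} (h : p) : ind p = 1 := if_pos h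
lemma ind_neg {p : Prop} (h : ¬ p) : ind p = 0 := if_neg h
lemma ind_nonneg (p : Prop) : 0 ≤ ind p := by unfold ind; split_ifs <;> norm_num
lemma ind_le_one (p : Prop) : ind p ≤ 1 := by unfold ind; split_ifs <;> norm_num
lemma ind_congr {p q : Prop} (h : p ↔ q) : ind p = ind q := by rw [propext h]

lemma cnt_cast {I : Type} [Fintype I] (p : I → Prop) : ((cnt p : ℕ) : ℝ) = ∑ i, ind (p i) := by
  rw [cnt_eq_sum]
  push_cast
  refine Finset.sum_congr rfl fun i _ => ?_
  unfold ind
  split_ifs <;> simp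

lemma sum_ind_eq {I : Type} [Fintype I] (a : I) (f : I → ℝ) :
    ∑ i, ind (a = i) * f i = f a := by
  rw [Finset.sum_eq_single a]
  · rw [ind_pos rfl, one_mul]
  · intro b _ hb
    rw [ind_neg (Ne.symm hb), zero_mul]
  · intro h
    exact absurd (Finset.mem_univ a) h

lemma sum_ind_eq' {I : Type} [Fintype I] (a : I) (f : I → ℝ) :
    ∑ i, ind (i = a) * f i = f a := by
  rw [← sum_ind_eq a f]
  exact Finset.sum_congr rfl fun i _ => by rw [ind_congr eq_comm]

lemma sum_ind_le {I : Type} [Fintype I] (p : I → Prop) :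
    ∑ i, ind (p i) ≤ Fintype.card I := by
  calc ∑ i, ind (p i) ≤ ∑ _i : I, (1 : ℝ) := Finset.sum_le_sum fun i _ => ind_le_one _
    _ = _ := by simp

lemma sum_ind_not {I : Type} [Fintype I] (p : I → Prop) :
    ∑ i, ind (p i) = Fintype.card I - ∑ i, ind (¬ p i) := by
  rw [eq_sub_iff_add_eq, ← Finset.sum_add_distrib]
  calc ∑ i, (ind (p i) + ind (¬ p i)) = ∑ _i : I, (1 : ℝ) := by
        refine Finset.sum_congr rfl fun i _ => ?_
        by_cases h : p i
        · rw [ind_pos h, ind_neg (not_not.mpr h), add_zero]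
        · rw [ind_neg h, ind_pos h, zero_add]
    _ = _ := by simp

/-- Removing the elements with a bad property. -/
lemma sum_ind_and_ge {I : Type} [Fintype I] (p q : I → Prop) :
    ∑ i, ind (p i) - ∑ i, ind (¬ q i) ≤ ∑ i, ind (p i ∧ q i) := by
  rw [sub_le_iff_le_add, ← Finset.sum_add_distrib]
  refine Finset.sum_le_sum fun i _ => ?_
  by_cases hq : q i
  · rw [ind_neg (not_not.mpr hq), add_zero, ind_congr (and_iff_left hq)]
  · rw [ind_pos hq]
    linarith [ind_le_one (p i), ind_nonneg (p i ∧ q i)]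

lemma sum_ind_mono {I : Type} [Fintype I] {p q : I → Prop} (h : ∀ i, p i → q i) :
    ∑ i, ind (p i) ≤ ∑ i, ind (q i) := by
  refine Finset.sum_le_sum fun i _ => ?_
  by_cases hp : p i
  · rw [ind_pos hp, ind_pos (h i hp)]
  · rw [ind_neg hp]
    exact ind_nonneg _

variable {V W : Type} [Fintype V] [Fintype W] (G : SimpleGraph V) (Free : Finset (V × W))

/-- Number of free colours at a vertex. -/
def fr (v : V) : ℝ := ∑ w, ind ((v, w) ∈ Free)

/-- Number of colours free at two vertices. -/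
def cc (u v : V) : ℝ := ∑ w, ind ((u, w) ∈ Free ∧ (v, w) ∈ Free)

/-- Degree. -/
def dg (v : V) : ℝ := ∑ u, ind (G.Adj v u)

/-- The first approximation. -/
def om0 (w : W) (u v : V) : ℝ :=
  ind (G.Adj u v ∧ (u, w) ∈ Free ∧ (v, w) ∈ Free) * (1 / cc Free u v)

/-- The deficit at a slot. -/
def del (v : V) (w : W) : ℝ := 2 - ∑ u, om0 G Free w v u

/-- The mean deficit. -/
def dbar (v : V) : ℝ := (2 * fr Free v - dg G v) / fr Free v

/-- Triangles at `v` inside two colours. -/
def Tr (v : V) (w w' : W) (a b : V) : Prop :=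
  G.Adj v a ∧ G.Adj v b ∧ G.Adj a b ∧ (a, w) ∈ Free ∧ (a, w') ∈ Free ∧ (b, w) ∈ Free ∧
    (b, w') ∈ Free

/-- Triangles with a given first vertex. -/
def row (v : V) (w w' : W) (a : V) : ℝ := ∑ b, ind (Tr G Free v w w' a b)

/-- Number of triangles. -/
def tot (v : V) (w w' : W) : ℝ := ∑ a, row G Free v w w' a

/-- The triangle correction. -/
def tau (v : V) (w w' : W) (u u' : V) : ℝ :=
  (ind (u = v) * row G Free v w w' u' + ind (u' = v) * row G Free v w w' u -
    ind (Tr G Free v w w' u u')) / tot G Free v w w'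

/-- The coefficient of a triangle correction. -/
def coef (v : V) (w w' : W) : ℝ :=
  ind ((v, w) ∈ Free) * ind ((v, w') ∈ Free) * (1 / fr Free v) *
    (del G Free v w - del G Free v w' + dbar G Free v)

/-- The total correction. -/
def corr (w : W) (u u' : V) : ℝ := ∑ v, ∑ w', coef G Free v w w' * tau G Free v w w' u u'

omit [Fintype V] [Fintype W] in
lemma Tr_symm (v : V) (w w' : W) (a b : V) : Tr G Free v w w' a b ↔ Tr G Free v w w' b a := by
  unfold Tr
  constructor <;> rintro ⟨h1, h2, h3, h4, h5, h6, h7⟩ <;> exact ⟨h2, h1, h3.symm, h6, h7, h4, h5⟩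

omit [Fintype V] [Fintype W] in
lemma Tr_swap (v : V) (w w' : W) (a b : V) : Tr G Free v w w' a b ↔ Tr G Free v w' w a b := by
  unfold Tr
  constructor <;> rintro ⟨h1, h2, h3, h4, h5, h6, h7⟩ <;> exact ⟨h1, h2, h3, h5, h4, h7, h6⟩

omit [Fintype W] in
lemma row_swap (v : V) (w w' : W) (a : V) : row G Free v w w' a = row G Free v w' w a :=
  Finset.sum_congr rfl fun b _ => ind_congr (Tr_swap G Free v w w' a b)

omit [Fintype W] in
lemma tot_swap (v : V) (w w' : W) : tot G Free v w w' = tot G Free v w' w :=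
  Finset.sum_congr rfl fun a _ => row_swap G Free v w w' a

omit [Fintype W] in
lemma tau_swap (v : V) (w w' : W) (u u' : V) :
    tau G Free v w w' u u' = tau G Free v w' w u u' := by
  unfold tau
  rw [row_swap G Free v w w' u, row_swap G Free v w w' u', tot_swap G Free v w w',
    ind_congr (Tr_swap G Free v w w' u u')]

omit [Fintype W] in
lemma tau_symm (v : V) (w w' : W) (u u' : V) :
    tau G Free v w w' u u' = tau G Free v w w' u' u := by
  unfold tau
  rw [ind_congr (Tr_symm G Free v w w' u u')]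
  ring

omit [Fintype V] in
lemma cc_symm (u v : V) : cc Free u v = cc Free v u :=
  Finset.sum_congr rfl fun _ _ => ind_congr and_comm

omit [Fintype V] in
lemma om0_symm (w : W) (u v : V) : om0 G Free w u v = om0 G Free w v u := by
  unfold om0
  rw [cc_symm Free u v]
  congr 1
  refine ind_congr ?_
  constructor <;> rintro ⟨h1, h2, h3⟩ <;> exact ⟨h1.symm, h3, h2⟩

lemma corr_symm (w : W) (u u' : V) : corr G Free w u u' = corr G Free w u' u := by
  unfold corr
  exact Finset.sum_congr rfl fun v _ => Finset.sum_congr rfl fun w' _ => by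
    rw [tau_symm G Free v w w' u u']

omit [Fintype W] in
lemma row_nonneg (v : V) (w w' : W) (a : V) : 0 ≤ row G Free v w w' a :=
  Finset.sum_nonneg fun _ _ => ind_nonneg _

omit [Fintype W] in
lemma row_le (v : V) (w w' : W) (a : V) : row G Free v w w' a ≤ Fintype.card V :=
  sum_ind_le _

omit [Fintype W] in
lemma tau_row (v : V) (w w' : W) (u : V) (h : tot G Free v w w' ≠ 0) :
    ∑ u', tau G Free v w w' u u' = ind (u = v) := by
  unfold tau
  rw [← Finset.sum_div, Finset.sum_sub_distrib, Finset.sum_add_distrib, ← Finset.mul_sum,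
    sum_ind_eq' v fun _ => row G Free v w w' u]
  have h1 : ∑ u', row G Free v w w' u' = tot G Free v w w' := rfl
  have h2 : ∑ u', ind (Tr G Free v w w' u u') = row G Free v w w' u := rfl
  rw [h1, h2]
  field_simp
  ring

omit [Fintype W] in
lemma tau_abs (v : V) (w w' : W) (u u' : V) {t : ℝ} (ht : 0 < t) (h : t ≤ tot G Free v w w') :
    |tau G Free v w w' u u'| ≤
      (ind (u = v) * Fintype.card V + ind (u' = v) * Fintype.card V + 1) / t := by
  unfold tau
  have htot : 0 < tot G Free v w w' := ht.trans_le h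
  rw [abs_div, abs_of_pos htot]
  have a1 := mul_le_mul_of_nonneg_left (row_le G Free v w w' u') (ind_nonneg (u = v))
  have a2 := mul_le_mul_of_nonneg_left (row_le G Free v w w' u) (ind_nonneg (u' = v))
  have b1 := mul_nonneg (ind_nonneg (u = v)) (row_nonneg G Free v w w' u')
  have b2 := mul_nonneg (ind_nonneg (u' = v)) (row_nonneg G Free v w w' u)
  have c1 := ind_nonneg (Tr G Free v w w' u u')
  have c2 := ind_le_one (Tr G Free v w w' u u')
  refine div_le_div₀ (by linarith) ?_ ht h
  rw [abs_le]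
  constructor <;> linarith

omit [Fintype W] in
lemma tau_supp (v : V) (w w' : W) (u u' : V) (hv : (v, w) ∈ Free)
    (h : ¬ (G.Adj u u' ∧ (u, w) ∈ Free ∧ (u', w) ∈ Free)) : tau G Free v w w' u u' = 0 := by
  unfold tau
  have h3 : ind (Tr G Free v w w' u u') = 0 :=
    ind_neg fun hT => h ⟨hT.2.2.1, hT.2.2.2.1, hT.2.2.2.2.2.1⟩
  have h1 : ind (u = v) * row G Free v w w' u' = 0 := by
    by_cases huv : u = v
    · subst huv
      refine mul_eq_zero_of_right _ (Finset.sum_eq_zero fun b _ => ind_neg fun hT => ?_)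
      exact h ⟨hT.1, hv, hT.2.2.2.1⟩
    · rw [ind_neg huv, zero_mul]
  have h2 : ind (u' = v) * row G Free v w w' u = 0 := by
    by_cases huv : u' = v
    · subst huv
      refine mul_eq_zero_of_right _ (Finset.sum_eq_zero fun b _ => ind_neg fun hT => ?_)
      exact h ⟨hT.1.symm, hT.2.2.2.1, hv⟩
    · rw [ind_neg huv, zero_mul]
  rw [h1, h2, h3]
  simp

lemma corr_supp (w : W) (u u' : V) (h : ¬ (G.Adj u u' ∧ (u, w) ∈ Free ∧ (u', w) ∈ Free)) :
    corr G Free w u u' = 0 := by
  refine Finset.sum_eq_zero fun v _ => Finset.sum_eq_zero fun w' _ => ?_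
  by_cases hv : (v, w) ∈ Free
  · rw [tau_supp G Free v w w' u u' hv h, mul_zero]
  · unfold coef
    rw [ind_neg hv]
    ring

/-- The numerical hypotheses. -/
structure Hyp (ε β γ : ℝ) : Prop where
  npos : (0 : ℝ) < Fintype.card V
  epos : 0 < ε
  bpos : 0 < β
  gpos : 0 < γ
  b1 : β ≤ ε / 8
  b2 : β ≤ ε / 4
  gb : γ ≤ β
  dense : Dense G 2 ε
  w1 : ε * Fintype.card V ≤ 2 * Fintype.card W
  w2 : (Fintype.card W : ℝ) ≤ Fintype.card V
  colw : ∀ w, ∑ v, ind ((v, w) ∉ Free) ≤ β * Fintype.card V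
  colv : ∀ v, ∑ w, ind ((v, w) ∉ Free) ≤ β * Fintype.card V
  reg : ∀ v, |dg G v - 2 * fr Free v| ≤ γ * Fintype.card V

variable {G Free} {ε β γ : ℝ}

lemma Hyp.fr_ge (H : Hyp G Free ε β γ) (v : V) :
    ε / 4 * Fintype.card V + β * Fintype.card V ≤ fr Free v := by
  have h1 : fr Free v = Fintype.card W - ∑ w, ind ((v, w) ∉ Free) := sum_ind_not _
  have h2 := H.colv v
  have h3 := H.w1
  have h4 := mul_le_mul_of_nonneg_right H.b1 H.npos.le
  linarith

lemma Hyp.fr_pos (H : Hyp G Free ε β γ) (v : V) : 0 < fr Free v := by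
  have := H.fr_ge v
  have := mul_pos H.epos H.npos
  have := mul_pos H.bpos H.npos
  linarith

lemma Hyp.fr_le (H : Hyp G Free ε β γ) (v : V) : fr Free v ≤ Fintype.card V :=
  (sum_ind_le _).trans H.w2

omit [Fintype V] in
lemma cc_le_fr (u v : V) : cc Free u v ≤ fr Free u := sum_ind_mono fun _ h => h.1

lemma Hyp.cc_ge (H : Hyp G Free ε β γ) (u v : V) :
    fr Free u - β * Fintype.card V ≤ cc Free u v := by
  have h1 := sum_ind_and_ge (fun w => (u, w) ∈ Free) fun w => (v, w) ∈ Free
  have h2 := H.colv v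
  unfold fr cc
  linarith

lemma Hyp.cc_ge' (H : Hyp G Free ε β γ) (u v : V) :
    ε / 4 * Fintype.card V ≤ cc Free u v := by
  have := H.cc_ge u v
  have := H.fr_ge u
  linarith

lemma Hyp.cc_pos (H : Hyp G Free ε β γ) (u v : V) : 0 < cc Free u v := by
  have := H.cc_ge' u v
  have := mul_pos H.epos H.npos
  linarith

lemma Hyp.scale (H : Hyp G Free ε β γ) {a x : ℝ} (ha : 0 ≤ a)
    (hx : ε / 4 * Fintype.card V ≤ x) : a * Fintype.card V ≤ 4 / ε * a * x := by
  have := H.epos
  calc a * Fintype.card V = 4 / ε * a * (ε / 4 * Fintype.card V) := by field_simp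
    _ ≤ _ := mul_le_mul_of_nonneg_left hx (by positivity)

lemma Hyp.om0_col (H : Hyp G Free ε β γ) (u v : V) :
    ∑ w, om0 G Free w u v = ind (G.Adj u v) := by
  unfold om0
  rw [← Finset.sum_mul]
  by_cases h : G.Adj u v
  · have : ∑ w, ind (G.Adj u v ∧ (u, w) ∈ Free ∧ (v, w) ∈ Free) = cc Free u v :=
      Finset.sum_congr rfl fun w _ => ind_congr (and_iff_right h)
    rw [this, ind_pos h]
    have := H.cc_pos u v
    field_simp
  · rw [ind_neg h, Finset.sum_eq_zero fun w _ => ind_neg fun h' => h h'.1, zero_mul]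

lemma Hyp.del_abs (H : Hyp G Free ε β γ) (v : V) (w : W) (hv : (v, w) ∈ Free) :
    |del G Free v w| ≤ 3 * (4 / ε * β) := by
  set n : ℝ := (Fintype.card V : ℝ) with hn
  have npos : 0 < n := H.npos
  have hf := H.fr_ge v
  have hfp := H.fr_pos v
  have hreg := abs_le.mp (H.reg v)
  have hbn := mul_pos H.bpos npos
  have hgb := mul_le_mul_of_nonneg_right H.gb npos.le
  set f := fr Free v with hfdef
  set k : ℝ := ∑ u, ind (G.Adj v u ∧ (u, w) ∈ Free) with hk
  have hk1 : dg G v - β * n ≤ k := by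
    have h1 := sum_ind_and_ge (fun u => G.Adj v u) fun u => (u, w) ∈ Free
    have h2 := H.colw w
    unfold dg
    linarith
  have hk2 : k ≤ dg G v := sum_ind_mono fun _ h => h.1
  have hk0 : 0 ≤ k := Finset.sum_nonneg fun _ _ => ind_nonneg _
  have hom : ∀ u, om0 G Free w v u = ind (G.Adj v u ∧ (u, w) ∈ Free) * (1 / cc Free v u) := by
    intro u
    unfold om0
    congr 1
    exact ind_congr ⟨fun h => ⟨h.1, h.2.2⟩, fun h => ⟨h.1, hv, h.2⟩⟩
  have hlo : k * (1 / f) ≤ ∑ u, om0 G Free w v u := by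
    rw [hk, Finset.sum_mul]
    refine Finset.sum_le_sum fun u _ => ?_
    rw [hom u]
    exact mul_le_mul_of_nonneg_left
      (one_div_le_one_div_of_le (H.cc_pos v u) (cc_le_fr v u)) (ind_nonneg _)
  have hfb : 0 < f - β * n := by linarith [mul_pos H.epos npos]
  have hhi : ∑ u, om0 G Free w v u ≤ k * (1 / (f - β * n)) := by
    rw [hk, Finset.sum_mul]
    refine Finset.sum_le_sum fun u _ => ?_
    rw [hom u]
    exact mul_le_mul_of_nonneg_left
      (one_div_le_one_div_of_le hfb (H.cc_ge v u)) (ind_nonneg _)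
  have e1 : 2 - 3 * (4 / ε * β) ≤ k * (1 / f) := by
    rw [mul_one_div, le_div_iff₀ hfp]
    have : β * n ≤ 4 / ε * β * f := H.scale H.bpos.le (by linarith)
    linarith
  have e2 : k * (1 / (f - β * n)) ≤ 2 + 3 * (4 / ε * β) := by
    rw [mul_one_div, div_le_iff₀ hfb]
    have : β * n ≤ 4 / ε * β * (f - β * n) := H.scale H.bpos.le (by linarith)
    linarith
  unfold del
  rw [abs_le]
  constructor <;> linarith

lemma Hyp.dbar_abs (H : Hyp G Free ε β γ) (v : V) : |dbar G Free v| ≤ 4 / ε * γ := by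
  have hf := H.fr_ge v
  have hfp := H.fr_pos v
  have hbn := mul_pos H.bpos H.npos
  unfold dbar
  rw [abs_div, abs_of_pos hfp, div_le_iff₀ hfp, abs_sub_comm]
  have := H.scale H.gpos.le (x := fr Free v) (by linarith)
  have := H.reg v
  linarith

lemma Hyp.del_sum (H : Hyp G Free ε β γ) (v : V) :
    ∑ w, ind ((v, w) ∈ Free) * del G Free v w = fr Free v * dbar G Free v := by
  have hfp := H.fr_pos v
  have h1 : ∀ w, ind ((v, w) ∈ Free) * del G Free v w =
      2 * ind ((v, w) ∈ Free) - ∑ u, om0 G Free w v u := by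
    intro w
    by_cases hv : (v, w) ∈ Free
    · rw [ind_pos hv]
      unfold del
      ring
    · rw [ind_neg hv, Finset.sum_eq_zero]
      · ring
      · intro u _
        unfold om0
        rw [ind_neg fun h => hv h.2.1, zero_mul]
  rw [Finset.sum_congr rfl fun w _ => h1 w, Finset.sum_sub_distrib, ← Finset.mul_sum,
    Finset.sum_comm, Finset.sum_congr rfl fun u _ => H.om0_col v u]
  unfold dbar
  have : ∑ w, ind ((v, w) ∈ Free) = fr Free v := rfl
  have h2 : ∑ u, ind (G.Adj v u) = dg G v := rfl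
  rw [this, h2]
  field_simp

lemma Hyp.common (H : Hyp G Free ε β γ) (v a : V) (w w' : W) :
    ε * Fintype.card V / 2 ≤
      ∑ b, ind ((G.Adj b v ∧ G.Adj b a) ∧ (b, w) ∈ Free ∧ (b, w') ∈ Free) := by
  have h0 := H.dense {v, a} Finset.card_le_two
  rw [cnt_cast] at h0
  have h1 : ∑ z, ind (∀ q ∈ ({v, a} : Finset V), G.Adj z q) ≤ ∑ b, ind (G.Adj b v ∧ G.Adj b a) :=
    sum_ind_mono fun z hz => ⟨hz v (by simp), hz a (by simp)⟩
  have h2 := sum_ind_and_ge (fun b => G.Adj b v ∧ G.Adj b a) fun b => (b, w) ∈ Free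
  have h3 := sum_ind_and_ge (fun b => (G.Adj b v ∧ G.Adj b a) ∧ (b, w) ∈ Free)
    fun b => (b, w') ∈ Free
  have h4 : ∑ b, ind (((G.Adj b v ∧ G.Adj b a) ∧ (b, w) ∈ Free) ∧ (b, w') ∈ Free) =
      ∑ b, ind ((G.Adj b v ∧ G.Adj b a) ∧ (b, w) ∈ Free ∧ (b, w') ∈ Free) :=
    Finset.sum_congr rfl fun b _ => ind_congr and_assoc
  have h5 := H.colw w
  have h6 := H.colw w'
  have h7 := mul_le_mul_of_nonneg_right H.b2 H.npos.le
  linarith

lemma Hyp.tot_ge (H : Hyp G Free ε β γ) (v : V) (w w' : W) :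
    (ε * Fintype.card V / 2) ^ 2 ≤ tot G Free v w w' := by
  set s : ℝ := ε * Fintype.card V / 2 with hs
  have spos : 0 < s := by have := mul_pos H.epos H.npos; linarith
  have h1 := H.common v v w w'
  have h2 : ∀ a, ind ((G.Adj a v ∧ G.Adj a v) ∧ (a, w) ∈ Free ∧ (a, w') ∈ Free) * s ≤
      row G Free v w w' a := by
    intro a
    by_cases ha : (G.Adj a v ∧ G.Adj a v) ∧ (a, w) ∈ Free ∧ (a, w') ∈ Free
    · rw [ind_pos ha, one_mul]
      refine (H.common v a w w').trans (sum_ind_mono fun b hb => ?_)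
      exact ⟨ha.1.1.symm, hb.1.1.symm, hb.1.2.symm, ha.2.1, ha.2.2, hb.2.1, hb.2.2⟩
    · rw [ind_neg ha, zero_mul]
      exact row_nonneg G Free v w w' a
  calc s ^ 2 = s * s := sq s
    _ ≤ (∑ a, ind ((G.Adj a v ∧ G.Adj a v) ∧ (a, w) ∈ Free ∧ (a, w') ∈ Free)) * s :=
        mul_le_mul_of_nonneg_right h1 spos.le
    _ = ∑ a, ind ((G.Adj a v ∧ G.Adj a v) ∧ (a, w) ∈ Free ∧ (a, w') ∈ Free) * s :=
        Finset.sum_mul _ _ _
    _ ≤ _ := Finset.sum_le_sum fun a _ => h2 a

lemma Hyp.sq_pos (H : Hyp G Free ε β γ) : 0 < (ε * Fintype.card V / 2) ^ 2 := by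
  have := mul_pos H.epos H.npos
  positivity

/-- The bound on a triangle correction, summed over the apex. -/
lemma Hyp.bound_sum (H : Hyp G Free ε β γ) (u u' : V) :
    ∑ v, (ind (u = v) * Fintype.card V + ind (u' = v) * Fintype.card V + 1) /
      (ε * Fintype.card V / 2) ^ 2 = 12 / (ε ^ 2 * Fintype.card V) := by
  rw [← Finset.sum_div, Finset.sum_add_distrib, Finset.sum_add_distrib,
    sum_ind_eq u fun _ => (Fintype.card V : ℝ), sum_ind_eq u' fun _ => (Fintype.card V : ℝ)]
  have := H.npos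
  have := H.epos
  simp only [Finset.sum_const, Finset.card_univ, nsmul_eq_mul, mul_one]
  field_simp
  ring

lemma Hyp.corr_row (H : Hyp G Free ε β γ) (w : W) (u : V) (hu : (u, w) ∈ Free) :
    ∑ u', corr G Free w u u' = del G Free u w := by
  unfold corr
  rw [Finset.sum_comm]
  have h1 : ∀ v, ∑ u', ∑ w', coef G Free v w w' * tau G Free v w w' u u' =
      ind (u = v) * ∑ w', coef G Free v w w' := by
    intro v
    rw [Finset.sum_comm, Finset.mul_sum]
    refine Finset.sum_congr rfl fun w' _ => ?_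
    rw [← Finset.mul_sum, tau_row G Free v w w' u (H.sq_pos.trans_le (H.tot_ge v w w')).ne',
      mul_comm]
  rw [Finset.sum_congr rfl fun v _ => h1 v, sum_ind_eq u]
  have h2 : ∀ w', coef G Free u w w' = (1 / fr Free u) *
      (ind ((u, w') ∈ Free) * (del G Free u w + dbar G Free u) -
        ind ((u, w') ∈ Free) * del G Free u w') := by
    intro w'
    unfold coef
    rw [ind_pos hu]
    ring
  rw [Finset.sum_congr rfl fun w' _ => h2 w', ← Finset.mul_sum, Finset.sum_sub_distrib,
    ← Finset.sum_mul, H.del_sum u]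
  have h3 : ∑ w', ind ((u, w') ∈ Free) = fr Free u := rfl
  rw [h3]
  have := H.fr_pos u
  field_simp
  ring

lemma Hyp.corr_abs (H : Hyp G Free ε β γ) (w : W) (u u' : V) :
    |corr G Free w u u'| ≤ 7 * (4 / ε * β) * (12 / (ε ^ 2 * Fintype.card V)) := by
  rw [← H.bound_sum u u', Finset.mul_sum]
  refine (Finset.abs_sum_le_sum_abs _ _).trans (Finset.sum_le_sum fun v _ => ?_)
  set B := (ind (u = v) * Fintype.card V + ind (u' = v) * Fintype.card V + 1) /
      (ε * Fintype.card V / 2) ^ 2 with hB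
  have hfp := H.fr_pos v
  have h1 : ∀ w', |coef G Free v w w' * tau G Free v w w' u u'| ≤
      ind ((v, w') ∈ Free) * ((1 / fr Free v) * (7 * (4 / ε * β) * B)) := by
    intro w'
    have ht := tau_abs G Free v w w' u u' H.sq_pos (H.tot_ge v w w')
    have hB0 : 0 ≤ B := (abs_nonneg _).trans ht
    have hpos : 0 ≤ (1 / fr Free v) * (7 * (4 / ε * β) * B) := by
      have := H.bpos
      have := H.epos
      positivity
    by_cases hw : (v, w) ∈ Free
    · by_cases hw' : (v, w') ∈ Free
      · unfold coef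
        rw [ind_pos hw, ind_pos hw', one_mul, one_mul, one_mul, mul_assoc, abs_mul, abs_mul,
          abs_of_pos (one_div_pos.mpr hfp)]
        refine mul_le_mul_of_nonneg_left ?_ (one_div_pos.mpr hfp).le
        refine mul_le_mul ?_ ht (abs_nonneg _) (by have := H.bpos; have := H.epos; positivity)
        have a1 := abs_le.mp (H.del_abs v w hw)
        have a2 := abs_le.mp (H.del_abs v w' hw')
        have a3 := abs_le.mp (H.dbar_abs v)
        have := mul_le_mul_of_nonneg_left H.gb (div_pos four_pos H.epos).le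
        rw [abs_le]
        constructor <;> linarith
      · unfold coef
        rw [ind_neg hw']
        simp
    · unfold coef
      rw [ind_neg hw]
      simp only [zero_mul, abs_zero]
      exact mul_nonneg (ind_nonneg _) hpos
  refine (Finset.abs_sum_le_sum_abs _ _).trans ((Finset.sum_le_sum fun w' _ => h1 w').trans ?_)
  rw [← Finset.sum_mul]
  have h3 : ∑ w', ind ((v, w') ∈ Free) = fr Free v := rfl
  rw [h3]
  refine le_of_eq ?_
  field_simp

lemma Hyp.corr_col (H : Hyp G Free ε β γ) (u u' : V) :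
    |∑ w, corr G Free w u u'| ≤ 48 * γ / ε ^ 3 := by
  unfold corr
  rw [Finset.sum_comm]
  have h1 : ∀ v, ∑ w, ∑ w', coef G Free v w w' * tau G Free v w w' u u' =
      ∑ w, ∑ w', ind ((v, w) ∈ Free) * ind ((v, w') ∈ Free) * (1 / fr Free v) *
        dbar G Free v * tau G Free v w w' u u' := by
    intro v
    have h2 : ∑ w, ∑ w', ind ((v, w) ∈ Free) * ind ((v, w') ∈ Free) * (1 / fr Free v) *
        del G Free v w' * tau G Free v w w' u u' =
        ∑ w, ∑ w', ind ((v, w) ∈ Free) * ind ((v, w') ∈ Free) * (1 / fr Free v) *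
        del G Free v w * tau G Free v w w' u u' := by
      rw [Finset.sum_comm]
      refine Finset.sum_congr rfl fun w _ => Finset.sum_congr rfl fun w' _ => ?_
      rw [tau_swap G Free v w' w u u']
      ring
    have h3 : ∀ w w', coef G Free v w w' * tau G Free v w w' u u' =
        ind ((v, w) ∈ Free) * ind ((v, w') ∈ Free) * (1 / fr Free v) *
          del G Free v w * tau G Free v w w' u u' -
        ind ((v, w) ∈ Free) * ind ((v, w') ∈ Free) * (1 / fr Free v) *
          del G Free v w' * tau G Free v w w' u u' +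
        ind ((v, w) ∈ Free) * ind ((v, w') ∈ Free) * (1 / fr Free v) *
          dbar G Free v * tau G Free v w w' u u' := by
      intro w w'
      unfold coef
      ring
    simp only [h3, Finset.sum_add_distrib, Finset.sum_sub_distrib]
    rw [h2]
    ring
  rw [Finset.sum_congr rfl fun v _ => h1 v]
  have hfin : 48 * γ / ε ^ 3 =
      (4 / ε * γ * Fintype.card V) * (12 / (ε ^ 2 * Fintype.card V)) := by
    have := H.npos
    have := H.epos
    field_simp
    ring
  rw [hfin, ← H.bound_sum u u', Finset.mul_sum]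
  refine (Finset.abs_sum_le_sum_abs _ _).trans (Finset.sum_le_sum fun v _ => ?_)
  set B := (ind (u = v) * Fintype.card V + ind (u' = v) * Fintype.card V + 1) /
      (ε * Fintype.card V / 2) ^ 2 with hB
  have hfp := H.fr_pos v
  have hB0 : 0 ≤ B := by
    have := ind_nonneg (u = v)
    have := ind_nonneg (u' = v)
    have := H.sq_pos
    positivity
  have h4 : ∀ w w', |ind ((v, w) ∈ Free) * ind ((v, w') ∈ Free) * (1 / fr Free v) *
        dbar G Free v * tau G Free v w w' u u'| ≤
      ind ((v, w) ∈ Free) * (ind ((v, w') ∈ Free) * ((1 / fr Free v) * (4 / ε * γ * B))) := by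
    intro w w'
    have ht := tau_abs G Free v w w' u u' H.sq_pos (H.tot_ge v w w')
    rw [abs_mul, abs_mul, abs_mul, abs_mul, abs_of_nonneg (ind_nonneg _),
      abs_of_nonneg (ind_nonneg _), abs_of_pos (one_div_pos.mpr hfp), mul_assoc, mul_assoc,
      mul_assoc]
    refine mul_le_mul_of_nonneg_left (mul_le_mul_of_nonneg_left
      (mul_le_mul_of_nonneg_left ?_ (one_div_pos.mpr hfp).le) (ind_nonneg _)) (ind_nonneg _)
    exact mul_le_mul (H.dbar_abs v) ht (abs_nonneg _)
      (by have := H.gpos; have := H.epos; positivity)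
  have h3 : ∑ w', ind ((v, w') ∈ Free) = fr Free v := rfl
  calc |∑ w, ∑ w', ind ((v, w) ∈ Free) * ind ((v, w') ∈ Free) * (1 / fr Free v) *
        dbar G Free v * tau G Free v w w' u u'|
      ≤ ∑ w, ∑ w', ind ((v, w) ∈ Free) *
          (ind ((v, w') ∈ Free) * ((1 / fr Free v) * (4 / ε * γ * B))) :=
        (Finset.abs_sum_le_sum_abs _ _).trans (Finset.sum_le_sum fun w _ =>
          (Finset.abs_sum_le_sum_abs _ _).trans (Finset.sum_le_sum fun w' _ => h4 w w'))
    _ = fr Free v * (4 / ε * γ * B) := by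
        simp only [← Finset.mul_sum, ← Finset.sum_mul, h3]
        field_simp
    _ ≤ Fintype.card V * (4 / ε * γ * B) :=
        mul_le_mul_of_nonneg_right (H.fr_le v) (by have := H.gpos; have := H.epos; positivity)
    _ = _ := by ring

end BoostAux

open BoostAux in
/-- Fractional colouring of the edges by fractional 2-factors. -/
theorem boost (ε : ℝ) (hε : 0 < ε) : ∃ β : ℝ, 0 < β ∧ ∀ γ' : ℝ, 0 < γ' → ∃ γ : ℝ, 0 < γ ∧
    ∀ (V W : Type) [Fintype V] [Fintype W] (G : SimpleGraph V) (Free : Finset (V × W)),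
      Dense G 2 ε → ε * Fintype.card V ≤ 2 * Fintype.card W → Fintype.card W ≤ Fintype.card V →
      (∀ w, ((cnt fun v => (v, w) ∉ Free : ℕ) : ℝ) ≤ β * Fintype.card V) →
      (∀ v, ((cnt fun w => (v, w) ∉ Free : ℕ) : ℝ) ≤ β * Fintype.card V) →
      (∀ v, |((cnt fun u => G.Adj v u : ℕ) : ℝ) - 2 * (cnt fun w => (v, w) ∈ Free : ℕ)| ≤
        γ * Fintype.card V) →
      ∃ ω : W → V → V → ℝ, (∀ w u v, ω w u v = ω w v u) ∧
        (∀ w u v, 0 ≤ ω w u v ∧ ω w u v ≤ (4 / ε + 1) / Fintype.card V) ∧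
        (∀ w u v, ω w u v ≠ 0 → G.Adj u v ∧ (u, w) ∈ Free ∧ (v, w) ∈ Free) ∧
        (∀ w u v, G.Adj u v → (u, w) ∈ Free → (v, w) ∈ Free →
          1 / (2 * Fintype.card V) ≤ ω w u v) ∧
        (∀ w u, (u, w) ∈ Free → ∑ v, ω w u v = 2) ∧
        (∀ u v, G.Adj u v → |∑ w, ω w u v - 1| ≤ γ') := by
  have hβ : 0 < min (ε ^ 3 / 672) (min (ε / 4) (ε / 8)) := by positivity
  refine ⟨min (ε ^ 3 / 672) (min (ε / 4) (ε / 8)), hβ, fun γ' hγ' => ?_⟩
  set β := min (ε ^ 3 / 672) (min (ε / 4) (ε / 8)) with hβdef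
  have hγ : 0 < min β (γ' * ε ^ 3 / 48) := by positivity
  refine ⟨min β (γ' * ε ^ 3 / 48), hγ, ?_⟩
  set γ := min β (γ' * ε ^ 3 / 48) with hγdef
  intro V W _ _ G Free hD h1 h2 h3 h4 h5
  rcases isEmpty_or_nonempty V with hV | hV
  · refine ⟨fun _ _ _ => 0, fun _ _ _ => rfl, fun _ u => isEmptyElim u, fun _ u => isEmptyElim u,
      fun _ u => isEmptyElim u, fun _ u => isEmptyElim u, fun u => isEmptyElim u⟩
  have H : Hyp G Free ε β γ :=
    { npos := by exact_mod_cast Fintype.card_pos
      epos := hε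
      bpos := hβ
      gpos := hγ
      b1 := (min_le_right _ _).trans (min_le_right _ _)
      b2 := (min_le_right _ _).trans (min_le_left _ _)
      gb := min_le_left _ _
      dense := hD
      w1 := h1
      w2 := by exact_mod_cast h2
      colw := fun w => by rw [← cnt_cast]; exact h3 w
      colv := fun v => by rw [← cnt_cast]; exact h4 v
      reg := fun v => by
        have := h5 v
        rwa [cnt_cast, cnt_cast] at this }
  have npos := H.npos
  have hcorr : ∀ w u v, |corr G Free w u v| ≤ 1 / (2 * Fintype.card V) := by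
    intro w u v
    refine (H.corr_abs w u v).trans ?_
    have hb : β ≤ ε ^ 3 / 672 := min_le_left _ _
    calc 7 * (4 / ε * β) * (12 / (ε ^ 2 * Fintype.card V))
        ≤ 7 * (4 / ε * (ε ^ 3 / 672)) * (12 / (ε ^ 2 * Fintype.card V)) := by gcongr
      _ = _ := by
        field_simp
        ring
  have hin : ∀ w u v, G.Adj u v ∧ (u, w) ∈ Free ∧ (v, w) ∈ Free →
      1 / (2 * Fintype.card V) ≤ om0 G Free w u v + corr G Free w u v ∧
        om0 G Free w u v + corr G Free w u v ≤ (4 / ε + 1) / Fintype.card V := by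
    intro w u v h
    have hc := abs_le.mp (hcorr w u v)
    have e0 : om0 G Free w u v = 1 / cc Free u v := by
      unfold om0
      rw [ind_pos h, one_mul]
    have e1 : 1 / (Fintype.card V : ℝ) ≤ 1 / cc Free u v :=
      one_div_le_one_div_of_le (H.cc_pos u v) ((cc_le_fr u v).trans (H.fr_le u))
    have e2 : 1 / cc Free u v ≤ 1 / (ε / 4 * Fintype.card V) :=
      one_div_le_one_div_of_le (by positivity) (H.cc_ge' u v)
    have e3 : 1 / (ε / 4 * Fintype.card V) = 4 / ε * (1 / Fintype.card V) := by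
      field_simp
    have e4 : 1 / (2 * (Fintype.card V : ℝ)) = (1 / 2) * (1 / Fintype.card V) := by
      field_simp
    have e5 : (4 / ε + 1) / (Fintype.card V : ℝ) = (4 / ε + 1) * (1 / Fintype.card V) := by
      field_simp
    have e6 : 0 < 1 / (Fintype.card V : ℝ) := by positivity
    rw [e0]
    constructor <;> linarith
  have hout : ∀ w u v, ¬ (G.Adj u v ∧ (u, w) ∈ Free ∧ (v, w) ∈ Free) →
      om0 G Free w u v + corr G Free w u v = 0 := by
    intro w u v h
    rw [corr_supp G Free w u v h]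
    unfold om0
    rw [ind_neg h]
    ring
  refine ⟨fun w u v => om0 G Free w u v + corr G Free w u v, fun w u v => ?_, fun w u v => ?_,
    fun w u v h => ?_, fun w u v a b c => (hin w u v ⟨a, b, c⟩).1, fun w u hu => ?_,
    fun u v huv => ?_⟩
  · show om0 G Free w u v + corr G Free w u v = om0 G Free w v u + corr G Free w v u
    rw [om0_symm G Free w u v, corr_symm G Free w u v]
  · show 0 ≤ om0 G Free w u v + corr G Free w u v ∧
      om0 G Free w u v + corr G Free w u v ≤ (4 / ε + 1) / Fintype.card V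
    by_cases h : G.Adj u v ∧ (u, w) ∈ Free ∧ (v, w) ∈ Free
    · exact ⟨le_trans (by positivity) (hin w u v h).1, (hin w u v h).2⟩
    · rw [hout w u v h]
      exact ⟨le_rfl, by positivity⟩
  · by_contra hn
    exact h (hout w u v hn)
  · show ∑ v, (om0 G Free w u v + corr G Free w u v) = 2
    rw [Finset.sum_add_distrib, H.corr_row w u hu]
    unfold del
    ring
  · show |∑ w, (om0 G Free w u v + corr G Free w u v) - 1| ≤ γ'
    rw [Finset.sum_add_distrib, H.om0_col u v, ind_pos huv, add_sub_cancel_left]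
    refine (H.corr_col u v).trans ?_
    have hg : γ ≤ γ' * ε ^ 3 / 48 := min_le_right _ _
    rw [div_le_iff₀ (by positivity)]
    linarith

end Pool.Agent.Lib.MP_34bdde_co
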