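import Mathlib
import Pool.Agent.Lib.MP_34bdde_co.Defs

set_option autoImplicit false

open Finset
open scoped Classical

noncomputable section

namespace Pool.Agent.Lib.MP_34bdde_co

/- PLAN. μ x = (1/|S|) Π_i P (x i) (x (i+1)) / (P^k) (x 0) (x k) (0 if x 0 or x k is not in S):
a stationary walk of length k and an independent walk with the same ends. P^k >= c/n on S × S
for k >= 2 as rows and columns of P sum to 1 on S. Marginals: sum out one half, then the walk
before and after the edge; the other half by symmetry of P. -/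

section

variable {V : Type} [Fintype V]

/-- Ordered product of the first `t` matrices of a sequence. -/
def cycPr : ℕ → (ℕ → Matrix V V ℝ) → Matrix V V ℝ
  | 0, _ => 1
  | t + 1, N => N 0 * cycPr t fun j => N (j + 1)

lemma cycPr_congr (t : ℕ) {N N' : ℕ → Matrix V V ℝ} (h : ∀ j < t, N j = N' j) :
    cycPr t N = cycPr t N' := by
  induction t generalizing N N' with
  | zero => rfl
  | succ t ih => rw [cycPr, cycPr, h 0 (by omega), ih fun j hj => h (j + 1) (by omega)]

lemma cycPr_const (t : ℕ) {N : ℕ → Matrix V V ℝ} {A : Matrix V V ℝ} (h : ∀ j < t, N j = A) :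
    cycPr t N = A ^ t := by
  induction t generalizing N with
  | zero => rw [pow_zero]; rfl
  | succ t ih => rw [cycPr, h 0 (by omega), ih fun j hj => h (j + 1) (by omega), pow_succ']

lemma cycPr_add (s t : ℕ) (N : ℕ → Matrix V V ℝ) :
    cycPr (s + t) N = cycPr s N * cycPr t fun j => N (j + s) := by
  induction s generalizing N with
  | zero => rw [zero_add, cycPr, one_mul]; rfl
  | succ s ih => rw [Nat.add_right_comm, cycPr, cycPr, ih, mul_assoc]; rfl

lemma cycPr_one_exc {t i : ℕ} (hi : i < t) {N : ℕ → Matrix V V ℝ} {A : Matrix V V ℝ}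
    (h : ∀ j, j ≠ i → N j = A) : cycPr t N = A ^ i * N i * A ^ (t - i - 1) := by
  obtain ⟨r, rfl⟩ : ∃ r, t = i + (r + 1) := ⟨t - i - 1, by omega⟩
  rw [cycPr_add, cycPr, cycPr_const i fun j hj => h j hj.ne,
    cycPr_const r fun j _ => h _ (by omega), zero_add, mul_assoc,
    show i + (r + 1) - i - 1 = r by omega]

lemma cyc_path (n : ℕ) (N : ℕ → Matrix V V ℝ) (a b : V) :
    ∑ y : Fin n → V, ∏ i : Fin (n + 1),
      N i ((Fin.cons a y : Fin (n + 1) → V) i) ((Fin.snoc y b : Fin (n + 1) → V) i) =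
      cycPr (n + 1) N a b := by
  induction n generalizing N a with
  | zero => simp [cycPr, Fin.snoc]
  | succ n ih =>
    rw [cycPr, Matrix.mul_apply, ← (Fin.consEquiv fun _ : Fin (n + 1) => V).sum_comp,
      Fintype.sum_prod_type]
    refine Finset.sum_congr rfl fun c _ => ?_
    rw [← ih, Finset.mul_sum]
    refine Finset.sum_congr rfl fun y _ => ?_
    rw [Fin.prod_univ_succ, show (Fin.consEquiv fun _ : Fin (n + 1) => V) (c, y) = Fin.cons c y
      from rfl]
    simp only [← Fin.cons_snoc_eq_snoc_cons, Fin.cons_zero, Fin.cons_succ,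
      Fin.val_zero, Fin.val_succ]

lemma cyc_trace (n : ℕ) (N : ℕ → Matrix V V ℝ) :
    ∑ x : Fin (n + 1) → V, ∏ i : Fin (n + 1), N i (x i) (x (finRotate _ i)) =
      ∑ a, cycPr (n + 1) N a a := by
  rw [← (Fin.consEquiv fun _ : Fin (n + 1) => V).sum_comp, Fintype.sum_prod_type]
  refine Finset.sum_congr rfl fun a _ => ?_
  rw [← cyc_path, ]
  simp only [Fin.consEquiv_apply, Fin.snoc_eq_cons_rotate]

lemma cyc_two {n k : ℕ} (hn : n + 1 = k + k) (N : ℕ → Matrix V V ℝ) (f : V → V → ℝ) :
    ∑ x : Fin (n + 1) → V, f (x 0) (x ⟨k, by omega⟩) *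
      ∏ i : Fin (n + 1), N i (x i) (x (finRotate _ i)) =
      ∑ a, ∑ b, f a b * (cycPr k N a b * cycPr k (fun j => N (j + k)) b a) := by
  obtain ⟨r, rfl⟩ : ∃ r, k = r + 1 := ⟨k - 1, by omega⟩
  have key : ∀ a b : V, ∑ x : Fin (n + 1) → V,
      (if x 0 = a then 1 else 0) * (if x ⟨r + 1, by omega⟩ = b then 1 else 0) *
        ∏ i : Fin (n + 1), N i (x i) (x (finRotate _ i)) =
      cycPr (r + 1) N a b * cycPr (r + 1) (fun j => N (j + (r + 1))) b a := by
    intro a b
    set M : ℕ → Matrix V V ℝ := fun j => Matrix.of fun s t =>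
      (if j = 0 then (if s = a then 1 else 0) else 1) *
        (if j = r + 1 then (if s = b then 1 else 0) else 1) * N j s t with hM
    have h1 := cyc_trace n M
    have h2 : cycPr (r + 1) M = Matrix.diagonal (Pi.single a 1) * cycPr (r + 1) N := by
      rw [cycPr, cycPr, ← mul_assoc, cycPr_congr r (N' := fun j => N (j + 1)) fun j hj => ?_]
      · congr 1
        ext s t
        simp [hM, Matrix.diagonal_mul, Pi.single_apply]
      · ext s t
        simp [hM, hj.ne]
    have h3 : cycPr (r + 1) (fun j => M (j + (r + 1))) =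
        Matrix.diagonal (Pi.single b 1) * cycPr (r + 1) fun j => N (j + (r + 1)) := by
      rw [cycPr, cycPr, ← mul_assoc,
        cycPr_congr r (N' := fun j => N (j + 1 + (r + 1))) fun j hj => ?_]
      · congr 1
        ext s t
        simp [hM, Matrix.diagonal_mul, Pi.single_apply]
      · ext s t
        simp [hM]
    rw [show cycPr (n + 1) M = cycPr (r + 1 + (r + 1)) M by rw [hn], cycPr_add, h2, h3] at h1
    refine Eq.trans (Finset.sum_congr rfl fun x _ => ?_) (h1.trans ?_)
    · simp only [hM, Matrix.of_apply, Finset.prod_mul_distrib]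
      rw [Finset.prod_eq_single (0 : Fin (n + 1)) (fun i _ hi => if_neg (by simpa using hi))
        (by simp), Finset.prod_eq_single (⟨r + 1, by omega⟩ : Fin (n + 1))
          (fun i _ hi => if_neg fun h => hi (Fin.ext h)) (by simp)]
      simp
    · simp only [Matrix.mul_apply (M := Matrix.diagonal _ * _), Matrix.diagonal_mul,
        Pi.single_apply]
      simp
  simp only [← key, Finset.mul_sum]
  rw [Finset.sum_comm]
  refine Eq.trans ?_ (Finset.sum_congr rfl fun b _ => Finset.sum_comm)
  rw [Finset.sum_comm]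
  refine Finset.sum_congr rfl fun x _ => ?_
  simp

end

/-- A spread measure on closed walks of length `2 k` all of whose edge marginals are stationary. -/
theorem cyc (c C : ℝ) (hc : 0 < c) (k : ℕ) (hk : 2 ≤ k) : ∃ B : ℝ, 0 ≤ B ∧
    ∀ (V : Type) [Fintype V] (S : Finset V) (P : V → V → ℝ),
      Fintype.card V ≤ 2 * S.card → (∀ u v, P u v = P v u) →
      (∀ u v, 0 ≤ P u v ∧ P u v ≤ C / Fintype.card V) →
      (∀ u v, P u v ≠ 0 → u ∈ S ∧ v ∈ S) → (∀ u ∈ S, ∑ v, P u v = 1) →
      (∀ u ∈ S, ∀ v ∈ S, c / Fintype.card V ≤ ∑ z, P u z * P z v) →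
      ∃ μ : (Fin (2 * k) → V) → ℝ,
        (∀ x, 0 ≤ μ x ∧ μ x ≤ B / (Fintype.card V : ℝ) ^ (2 * k)) ∧
        (∀ x, μ x ≠ 0 → ∀ i i' : Fin (2 * k), ((i : ℕ) + 1) % (2 * k) = i' → P (x i) (x i') ≠ 0) ∧
        ∀ i i' : Fin (2 * k), ((i : ℕ) + 1) % (2 * k) = i' → ∀ u v,
          ∑ x ∈ univ.filter (fun x : Fin (2 * k) → V => x i = u ∧ x i' = v), μ x =
            P u v / S.card := by
  obtain ⟨n, hn⟩ : ∃ n, 2 * k = n + 1 := ⟨2 * k - 1, by omega⟩
  have hkk : n + 1 = k + k := by omega
  have hkn : k < n + 1 := by omega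
  have o1 : ∀ i j : ℕ, i < k → j + k ≠ i := by omega
  have o2 : ∀ i j : ℕ, ¬ i < k → j < k → j ≠ i := by omega
  have o3 : ∀ i : ℕ, i < n + 1 → ¬ i < k → i - k < k ∧ i - k + k = i := by omega
  have o4 : ∀ i j : ℕ, j ≠ i - k → j + k ≠ i := by omega
  have hC : 0 ≤ C ^ (n + 1) := hn ▸ (even_two_mul k).pow_nonneg C
  rw [hn]
  refine ⟨2 * C ^ (n + 1) / c, by positivity, fun V _ S P hS hsym hP hsup hrow hlow => ?_⟩
  set A : Matrix V V ℝ := Matrix.of P with hA
  have hAs : ∀ j a b, (A ^ j) a b = (A ^ j) b a := fun j a b =>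
    (Matrix.IsSymm.pow (Matrix.IsSymm.ext fun a b => hsym b a) j).apply b a
  have hr : ∀ j, ∀ a ∈ S, ∑ b ∈ S, (A ^ j) a b = 1 := by
    intro j
    induction j with
    | zero => intro a ha; simp [Matrix.one_apply, ha]
    | succ j ih =>
      intro a ha
      simp only [pow_succ', Matrix.mul_apply]
      rw [Finset.sum_comm, ← hrow a ha]
      refine Finset.sum_congr rfl fun z _ => ?_
      rw [← Finset.mul_sum]
      by_cases h : P a z = 0
      · simp [hA, h]
      · rw [ih z (hsup a z h).2, mul_one]; rfl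
  have hQ : ∀ j, ∀ a ∈ S, ∀ b ∈ S, c / Fintype.card V ≤ (A ^ (j + 2)) a b := by
    intro j
    induction j with
    | zero => intro a ha b hb; rw [zero_add, pow_two, Matrix.mul_apply]; exact hlow a ha b hb
    | succ j ih =>
      intro a ha b hb
      rw [Nat.add_right_comm, pow_succ', Matrix.mul_apply, ← one_mul (c / _), ← hrow a ha,
        Finset.sum_mul]
      refine Finset.sum_le_sum fun z _ => ?_
      by_cases h : P a z = 0
      · simp [hA, h]
      · exact mul_le_mul_of_nonneg_left (ih z (hsup a z h).2 b hb) (hP a z).1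
  have hQk : ∀ a ∈ S, ∀ b ∈ S, c / Fintype.card V ≤ (A ^ k) a b := by
    have := hQ (k - 2)
    rwa [Nat.sub_add_cancel hk] at this
  have hN : ∀ a : V, (0 : ℝ) < Fintype.card V := fun a =>
    Nat.cast_pos.2 (Fintype.card_pos_iff.2 ⟨a⟩)
  have hQ0 : ∀ a ∈ S, ∀ b ∈ S, 0 < (A ^ k) a b := fun a ha b hb =>
    (div_pos hc (hN a)).trans_le (hQk a ha b hb)
  set f : V → V → ℝ := fun a b => if a ∈ S ∧ b ∈ S then 1 / (S.card * (A ^ k) a b) else 0 with hf
  have hrot : ∀ i i' : Fin (n + 1), ((i : ℕ) + 1) % (n + 1) = i' → finRotate _ i = i' := by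
    intro i i' h
    rw [finRotate_apply]
    ext
    rw [← h, Fin.val_add, Fin.val_one', Nat.add_mod_mod]
  refine ⟨fun x => f (x 0) (x ⟨k, hkn⟩) * ∏ i, P (x i) (x (finRotate _ i)), fun x => ?_,
    fun x hx i i' h => ?_, fun i i' h u v => ?_⟩
  · have hN0 := hN (x 0)
    have h0 : 0 ≤ ∏ i, P (x i) (x (finRotate _ i)) := Finset.prod_nonneg fun i _ => (hP _ _).1
    have h1 : ∏ i, P (x i) (x (finRotate _ i)) ≤ (C / Fintype.card V) ^ (n + 1) := by
      have := Finset.prod_le_prod (s := univ) (fun i _ => (hP (x i) (x (finRotate _ i))).1)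
        fun i _ => (hP (x i) (x (finRotate _ i))).2
      rwa [Finset.prod_const, Finset.card_univ, Fintype.card_fin] at this
    have h2 : ∀ a b, 0 ≤ f a b ∧ f a b ≤ 2 / c := by
      intro a b
      by_cases h : a ∈ S ∧ b ∈ S
      · rw [show f a b = _ from if_pos h]
        have h3 := hQk a h.1 b h.2
        have h4 := hQ0 a h.1 b h.2
        have h5 : (Fintype.card V : ℝ) ≤ 2 * S.card := by exact_mod_cast hS
        have h6 : (0 : ℝ) < S.card := by linarith
        refine ⟨by positivity, ?_⟩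
        rw [div_le_iff₀ hN0] at h3
        rw [div_le_div_iff₀ (by positivity) hc]
        nlinarith
      · rw [show f a b = _ from if_neg h]
        exact ⟨le_rfl, by positivity⟩
    refine ⟨mul_nonneg (h2 _ _).1 h0, (mul_le_mul (h2 _ _).2 h1 h0 (by positivity)).trans
      (le_of_eq ?_)⟩
    rw [div_pow]
    ring
  · rw [← hrot i i' h]
    exact Finset.prod_ne_zero_iff.1 (right_ne_zero_of_mul hx) i (Finset.mem_univ _)
  · set N : ℕ → Matrix V V ℝ := fun j =>
      if j = i then Matrix.of fun s t => if s = u ∧ t = v then P u v else 0 else A with hNd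
    have hNi : N i = Matrix.of fun s t => if s = u ∧ t = v then P u v else 0 := if_pos rfl
    have hNj : ∀ j : ℕ, j ≠ i → N j = A := fun j hj => if_neg hj
    have h1 := cyc_two hkk N f
    rw [Finset.sum_filter]
    refine Eq.trans (Finset.sum_congr rfl fun x _ => ?_) (h1.trans ?_)
    · by_cases hx : x i = u ∧ x i' = v
      · rw [if_pos hx]
        refine congrArg _ (Finset.prod_congr rfl fun j _ => ?_)
        by_cases hj : j = i
        · rw [hj, hNi, hrot _ _ h, Matrix.of_apply, if_pos hx, hx.1, hx.2]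
        · rw [hNj j fun h => hj (Fin.ext h)]
          rfl
      · rw [if_neg hx, Finset.prod_eq_zero (Finset.mem_univ i), mul_zero]
        rw [hNi, hrot _ _ h, Matrix.of_apply, if_neg hx]
    have hE : ∀ (s t : ℕ) (a b : V), (A ^ s * N i * A ^ t) a b =
        (A ^ s) a u * P u v * (A ^ t) v b := by
      intro s t a b
      simp [hNd, Matrix.mul_apply, ite_and]
    have hfin : ∀ s t : ℕ, ∑ a, ∑ b, f a b * ((A ^ k) a b * ((A ^ s) u a * P u v * (A ^ t) v b)) =
        P u v / S.card := by
      intro s t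
      by_cases hp : P u v = 0
      · simp [hp]
      obtain ⟨hu, hv⟩ := hsup u v hp
      have : ∀ a b, f a b * ((A ^ k) a b * ((A ^ s) u a * P u v * (A ^ t) v b)) =
          if a ∈ S then (if b ∈ S then P u v / S.card * ((A ^ s) u a * (A ^ t) v b) else 0)
          else 0 := by
        intro a b
        simp only [hf]
        by_cases ha : a ∈ S
        · by_cases hb : b ∈ S
          · rw [if_pos ⟨ha, hb⟩, if_pos ha, if_pos hb, ← mul_assoc, one_div, mul_inv,
              inv_mul_cancel_right₀ (hQ0 a ha b hb).ne']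
            ring
          · simp [hb]
        · simp [ha]
      simp only [this, Finset.sum_ite_irrel, Finset.sum_const_zero, Finset.sum_ite_mem,
        Finset.univ_inter, ← Finset.mul_sum]
      rw [hr t v hv, ← Finset.sum_mul, hr s u hu, mul_one, mul_one]
    by_cases hik : (i : ℕ) < k
    · rw [cycPr_one_exc hik hNj, cycPr_const k fun j _ => hNj _ (o1 _ _ hik),
        ← hfin i (k - i - 1)]
      refine Finset.sum_congr rfl fun a _ => Finset.sum_congr rfl fun b _ => ?_
      rw [hE, hAs k b a, hAs i a u, mul_comm ((A ^ k) a b)]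
    · rw [cycPr_const k fun j hj => hNj _ (o2 _ _ hik hj),
        cycPr_one_exc (o3 _ i.2 hik).1 fun j hj => hNj _ (o4 _ _ hj), (o3 _ i.2 hik).2]
      have := hfin (i - k) (k - (i - k) - 1)
      rw [Finset.sum_comm, ← this]
      refine Finset.sum_congr rfl fun a _ => Finset.sum_congr rfl fun b _ => ?_
      rw [hE, hAs k b a, hAs _ a u]
      simp only [hf, and_comm, hAs k b a]

end Pool.Agent.Lib.MP_34bdde_co
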