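import Mathlib
import Pool.Agent.Lib.MP_34bdde_co.Nibble
import Pool.Agent.Lib.MP_34bdde_co.Boost
import Pool.Agent.Lib.MP_34bdde_co.Cyc
import Pool.Agent.Lib.MP_34bdde_co.ApproxC
import Pool.Agent.Lib.MP_34bdde_co.ApproxD

set_option autoImplicit false

open Finset
open scoped Classical

noncomputable section

namespace Pool.Agent.Lib.MP_34bdde_co

/- PLAN. boost gives ω; P w = ω w / 2 on S w = free vertices of w (|S w| = |Nib| =: N >= n/2,
P^2 >= (ε/2) n (1/(4n))^2 on S w); cyc gives μ w k for 2 <= k <= L. Hypergraph: atoms = edges of G,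
slots of Free, demands (w, u); hyperedges (w, u, x), x : Fin (2 k u) → V, with weight
μ w (k u) x / (1 + γ2) if x is injective, 0 otherwise, and atoms (w,u), (x i, w) for i < s u,
s(x i, x i') for i, i' < s u, (i+1) % (2k) = i'. Degrees: demand 1, slot Σ_u s u / N = 1, edge
(number of F-edges inside units / N) Σ_w ω w = (1 - paths/N)(1 ± γ2); loss by non-injective x and
all codegrees are O(1/n) from μ <= B/n^(2k) (count functions with prescribed values: two slots fix
2 coordinates, two edges fix 3, edge and slot: the weight of the edge in that colour). Tests: edges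
at v, slots of w. dom w = images under pos of the matched units, f w (pos u i) = x i. -/

/-- `cyc` with one constant for all lengths up to `L`. -/
theorem cyc_unif (c C : ℝ) (hc : 0 < c) (L : ℕ) : ∃ B : ℝ, 0 ≤ B ∧ ∀ k : ℕ, 2 ≤ k → k ≤ L →
    ∀ (V : Type) [Fintype V] (S : Finset V) (P : V → V → ℝ),
      Fintype.card V ≤ 2 * S.card → (∀ u v, P u v = P v u) →
      (∀ u v, 0 ≤ P u v ∧ P u v ≤ C / Fintype.card V) →
      (∀ u v, P u v ≠ 0 → u ∈ S ∧ v ∈ S) → (∀ u ∈ S, ∑ v, P u v = 1) →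
      (∀ u ∈ S, ∀ v ∈ S, c / Fintype.card V ≤ ∑ z, P u z * P z v) →
      ∃ μ : (Fin (2 * k) → V) → ℝ,
        (∀ x, 0 ≤ μ x ∧ μ x ≤ B / (Fintype.card V : ℝ) ^ (2 * k)) ∧
        (∀ x, μ x ≠ 0 → ∀ i, P (x i) (x (nx i)) ≠ 0) ∧
        ∀ i u v, rsum (fun x : Fin (2 * k) → V => x i = u ∧ x (nx i) = v) μ = P u v / S.card := by
  choose Bf hB0 hB using fun (k : ℕ) => cyc c C hc (k + 2) (by omega)
  refine ⟨∑ j ∈ Finset.range (L + 1), Bf j, Finset.sum_nonneg fun j _ => hB0 j, ?_⟩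
  intro k hk hkL V _ S P h1 h2 h3 h4 h5 h6
  obtain ⟨j, rfl⟩ : ∃ j, k = j + 2 := ⟨k - 2, by omega⟩
  obtain ⟨μ, m1, m2, m3⟩ := hB j V S P h1 h2 h3 h4 h5 h6
  refine ⟨μ, fun x => ⟨(m1 x).1, (m1 x).2.trans ?_⟩, fun x hx i => m2 x hx i (nx i) rfl,
    fun i u v => ?_⟩
  · refine div_le_div_of_nonneg_right ?_ (by positivity)
    exact Finset.single_le_sum (f := Bf) (fun j _ => hB0 j) (Finset.mem_range.mpr (by omega))
  · rw [rsum_def]
    exact m3 i (nx i) rfl u v

lemma sq_lower {V : Type} [Fintype V] {G : SimpleGraph V} {ε : ℝ} (hε : 0 < ε)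
    (hV : 0 < Fintype.card V) (hG : Dense G 2 ε) (fr : V → Prop)
    (hfr : ((cnt fun v => ¬ fr v : ℕ) : ℝ) ≤ ε / 2 * Fintype.card V) (P : V → V → ℝ)
    (h0 : ∀ u v, 0 ≤ P u v)
    (hP : ∀ u v, G.Adj u v → fr u → fr v → 1 / (4 * Fintype.card V) ≤ P u v) {u v : V}
    (hu : fr u) (hv : fr v) : ε / 32 / Fintype.card V ≤ ∑ z, P u z * P z v := by
  have hn : (0 : ℝ) < Fintype.card V := by exact_mod_cast hV
  have h1 := hG {u, v} Finset.card_le_two
  have h2 : (cnt fun z => ∀ q ∈ ({u, v} : Finset V), G.Adj z q) ≤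
      (cnt fun z => G.Adj z u ∧ G.Adj z v ∧ fr z) + cnt fun z => ¬ fr z := by
    refine le_trans (cnt_mono fun z hz => ?_) (cnt_or_le _ _)
    by_cases hz' : fr z
    · exact Or.inl ⟨hz u (by simp), hz v (by simp), hz'⟩
    · exact Or.inr hz'
  have h3 : ε / 2 * Fintype.card V ≤ (cnt fun z => G.Adj z u ∧ G.Adj z v ∧ fr z : ℕ) := by
    have h4 : ((cnt fun z => ∀ q ∈ ({u, v} : Finset V), G.Adj z q : ℕ) : ℝ) ≤
        (cnt fun z => G.Adj z u ∧ G.Adj z v ∧ fr z : ℕ) + (cnt fun z => ¬ fr z : ℕ) := by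
      exact_mod_cast h2
    linarith
  have h5 : ((cnt fun z => G.Adj z u ∧ G.Adj z v ∧ fr z : ℕ) : ℝ) *
      (1 / (4 * Fintype.card V) * (1 / (4 * Fintype.card V))) ≤ ∑ z, P u z * P z v := by
    rw [cnt_eq_sum]
    push_cast
    rw [Finset.sum_mul]
    refine Finset.sum_le_sum fun z _ => ?_
    split_ifs with hz
    · rw [one_mul]
      exact mul_le_mul (hP u z hz.1.symm hu hz.2.2) (hP z v hz.2.1 hz.2.2 hv) (by positivity)
        (h0 _ _)
    · rw [zero_mul]
      exact mul_nonneg (h0 _ _) (h0 _ _)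
  refine le_trans ?_ h5
  calc ε / 32 / Fintype.card V = ε / 2 * Fintype.card V *
        (1 / (4 * Fintype.card V) * (1 / (4 * Fintype.card V))) := by
        field_simp
        ring
    _ ≤ _ := mul_le_mul_of_nonneg_right h3 (by positivity)

/-- Approximate decomposition: most units are embedded in every colour. -/
theorem approx (ε : ℝ) (hε : 0 < ε) : ∃ β : ℝ, 0 < β ∧ ∀ γ' : ℝ, 0 < γ' → ∃ γ : ℝ, 0 < γ ∧
    ∀ L : ℕ, ∃ n0 : ℕ, ∀ (V W Λ : Type) [Fintype V] [Fintype W] [Fintype Λ] (G : SimpleGraph V)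
      (F : SimpleGraph Λ) (M K : ℕ) (Ly : Layout F M K L) (Free : Finset (V × W)),
      n0 ≤ Fintype.card V → Dense G 2 ε → ε * Fintype.card V ≤ 2 * Fintype.card W →
      Fintype.card W ≤ Fintype.card V →
      (∀ w, ((cnt fun v => (v, w) ∉ Free : ℕ) : ℝ) ≤ β * Fintype.card V) →
      (∀ v, ((cnt fun w => (v, w) ∉ Free : ℕ) : ℝ) ≤ β * Fintype.card V) →
      (∀ v, |((cnt fun u => G.Adj v u : ℕ) : ℝ) - 2 * (cnt fun w => (v, w) ∈ Free : ℕ)| ≤
        γ * Fintype.card V) →
      (∀ w, (cnt fun v => (v, w) ∈ Free) = cnt fun a => a ∉ Ly.Pre ∧ a ∉ Ly.Post) →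
      (((cnt fun u => Ly.s u < 2 * Ly.k u : ℕ) : ℝ) ≤ γ * Fintype.card V) →
      ∃ (dom : W → Finset Λ) (f : W → Λ → V), (∀ w, ∀ a ∈ dom w, a ∉ Ly.Pre ∧ a ∉ Ly.Post) ∧
        slotsOf dom f ≤ Free.val ∧ (edgesOf F dom f).Nodup ∧
        (∀ e ∈ edgesOf F dom f, e ∈ G.edgeSet) ∧
        (∀ v, ((cnt fun u => G.Adj v u ∧ s(v, u) ∉ edgesOf F dom f : ℕ) : ℝ) ≤
          γ' * Fintype.card V) ∧
        (∀ w, ((cnt fun v => (v, w) ∈ Free ∧ (v, w) ∉ slotsOf dom f : ℕ) : ℝ) ≤
          γ' * Fintype.card V) := by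
  obtain ⟨βb, hβb, Hb⟩ := boost ε hε
  refine ⟨min βb (min (ε / 2) (1 / 2)), lt_min hβb (lt_min (by positivity) (by norm_num)),
    fun γ' hγ' => ?_⟩
  obtain ⟨α, hα, Hh⟩ := hyper γ' hγ'
  obtain ⟨γb, hγb, Hb⟩ := Hb (min (α / 2) 1) (lt_min (by positivity) one_pos)
  refine ⟨min γb (α / 8), lt_min hγb (by positivity), fun L => ?_⟩
  obtain ⟨B, hB, Hc⟩ := cyc_unif (ε / 32) ((4 / ε + 1) / 2) (by positivity) L
  obtain ⟨n1, Hh⟩ := Hh (2 * L + 1) B (by omega) hB
  refine ⟨max 1 n1, ?_⟩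
  intro V W Λ _ _ _ G F M K Ly Free hn hG hW1 hW2 hf1 hf2 hdeg hN hpaths
  have hV : 0 < Fintype.card V := (le_max_left _ _).trans hn
  have hVr : (0 : ℝ) < Fintype.card V := by exact_mod_cast hV
  have hVne : Nonempty V := Fintype.card_pos_iff.mp hV
  obtain ⟨w0⟩ : Nonempty W := Fintype.card_pos_iff.mp (by
    have : (0 : ℝ) < Fintype.card W := by linarith [mul_pos hε hVr]
    exact_mod_cast this)
  have hmul : ∀ {a b : ℝ} {x : ℝ}, a ≤ b → x ≤ a * Fintype.card V → x ≤ b * Fintype.card V :=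
    fun hab hx => hx.trans (mul_le_mul_of_nonneg_right hab hVr.le)
  obtain ⟨ω, o1, o2, o3, o4, o5, o6⟩ := Hb V W G Free hG hW1 hW2
    (fun w => hmul (min_le_left _ _) (hf1 w)) (fun v => hmul (min_le_left _ _) (hf2 v))
    (fun v => hmul (min_le_left _ _) (hdeg v))
  obtain ⟨N, hNdef⟩ : ∃ N : ℕ, N = cnt fun a => a ∉ Ly.Pre ∧ a ∉ Ly.Post := ⟨_, rfl⟩
  rw [← hNdef] at hN
  obtain ⟨S, hS⟩ : ∃ S : W → Finset V, ∀ w v, v ∈ S w ↔ (v, w) ∈ Free :=
    ⟨fun w => univ.filter fun v => (v, w) ∈ Free, fun w v => by simp⟩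
  have hSN : ∀ w, (S w).card = N := by
    intro w
    rw [← hN w, cnt_def]
    congr 1
    ext v
    simp [hS]
  have hNn : N ≤ Fintype.card V := by
    rw [← hN w0]
    exact cnt_le_card _
  have hnN : Fintype.card V ≤ 2 * N := by
    have h1 : Fintype.card V ≤ (cnt fun v => (v, w0) ∈ Free) + cnt fun v => (v, w0) ∉ Free := by
      refine le_trans ?_ (cnt_or_le _ _)
      rw [cnt_def, Finset.filter_true_of_mem fun v _ => em _]
      exact le_rfl
    have h2 := hmul ((min_le_right _ _).trans (min_le_right _ _)) (hf1 w0)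
    rw [hN w0] at h1
    have h3 : (Fintype.card V : ℝ) ≤ N + (cnt fun v => (v, w0) ∉ Free : ℕ) := by
      exact_mod_cast h1
    have h4 : (Fintype.card V : ℝ) ≤ 2 * N := by linarith
    exact_mod_cast h4
  have hNr : (0 : ℝ) < N := by
    have : 0 < N := by omega
    exact_mod_cast this
  have hμ : ∀ (w : W) (u : Ly.U), ∃ μ : (Fin (2 * Ly.k u) → V) → ℝ,
      (∀ x, 0 ≤ μ x ∧ μ x ≤ B / (Fintype.card V : ℝ) ^ (2 * Ly.k u)) ∧
      (∀ x, μ x ≠ 0 → ∀ i, ω w (x i) (x (nx i)) / 2 ≠ 0) ∧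
      ∀ i a b, rsum (fun x : Fin (2 * Ly.k u) → V => x i = a ∧ x (nx i) = b) μ =
        ω w a b / 2 / (S w).card := by
    intro w u
    refine Hc (Ly.k u) (Ly.k_ge u) (Ly.k_le u) V (S w) (fun a b => ω w a b / 2)
      (by rw [hSN w]; exact hnN) (fun a b => by rw [o1]) (fun a b => ⟨?_, ?_⟩)
      (fun a b hab => ?_) (fun a ha => ?_) (fun a ha b hb => ?_)
    · exact div_nonneg (o2 w a b).1 (by norm_num)
    · have h1 := (o2 w a b).2
      have h2 : (4 / ε + 1) / Fintype.card V = 2 * ((4 / ε + 1) / 2 / Fintype.card V) := by ring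
      linarith
    · have h1 := o3 w a b fun h => hab (by simp [h])
      exact ⟨(hS _ _).mpr h1.2.1, (hS _ _).mpr h1.2.2⟩
    · rw [← Finset.sum_div, o5 w a ((hS _ _).mp ha)]
      norm_num
    · refine sq_lower hε hV hG (fun v => (v, w) ∈ Free)
        (hmul ((min_le_right _ _).trans (min_le_left _ _)) (hf1 w)) (fun a b => ω w a b / 2)
        (fun a b => div_nonneg (o2 w a b).1 (by norm_num)) (fun a b h1 h2 h3 => ?_)
        ((hS _ _).mp ha) ((hS _ _).mp hb)
      have h4 := o4 w a b h1 h2 h3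
      have h5 : (1 : ℝ) / (2 * Fintype.card V) = 2 * (1 / (4 * Fintype.card V)) := by
        field_simp
        ring
      linarith
  choose μ m1 m2 m3 using hμ
  simp only [hSN] at m3
  have hone : ∀ w u i a, rsum (fun x : Fin (2 * Ly.k u) → V => x i = a) (μ w u) =
      if (a, w) ∈ Free then 1 / (N : ℝ) else 0 := by
    intro w u i a
    rw [rsum_fiber _ (fun x => x (nx i))]
    simp only [m3]
    rw [← Finset.sum_div, ← Finset.sum_div]
    split_ifs with ha
    · rw [o5 w a ha]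
      norm_num
    · rw [Finset.sum_eq_zero fun b _ => by
        by_contra h
        exact ha (o3 w a b h).2.1]
      simp
  have hsum : ∑ u, Ly.s u = N := by rw [hNdef, Ly.sum_s]
  have hsumr : ∑ u, (Ly.s u : ℝ) = N := by exact_mod_cast hsum
  have hU : Fintype.card Ly.U ≤ Fintype.card V := by
    refine le_trans ?_ hNn
    rw [← hsum, ← Finset.card_univ, Finset.card_eq_sum_ones]
    exact Finset.sum_le_sum fun u _ => Ly.s_pos u
  obtain ⟨Mt, hM1, hM2, hM3, hM4⟩ := Hh V W Ly.U G Free (fun u => 2 * Ly.k u) Ly.s μ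
    ((le_max_right _ _).trans hn) hW2 hU
    (fun u => by have := Ly.k_ge u; have := Ly.k_le u; constructor <;> omega) m1
    (by
      rintro (e | ⟨v, w⟩ | ⟨w, u⟩) ha
      · induction e using Sym2.ind with
        | h a b =>
          have hab : G.Adj a b := ha
          have e1 : ∀ w u (i : Fin (2 * Ly.k u)),
              rsum (fun x : Fin (2 * Ly.k u) → V => s(x i, x (nx i)) = s(a, b)) (μ w u) =
                ω w a b / N := by
            intro w u i
            rw [rsum_or _ (fun x => x i = a ∧ x (nx i) = b) (fun x => x i = b ∧ x (nx i) = a) _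
              (fun x => Sym2.eq_iff) (fun x h1 h2 => hab.ne (h1.1.symm.trans h2.1)), m3, m3,
              o1 w b a]
            ring
          rw [main_edge]
          simp only [e1, Finset.sum_const, nsmul_eq_mul]
          simp only [← Finset.sum_mul]
          rw [← Finset.mul_sum, ← Finset.sum_div]
          have d1 : ∑ u, ((Dt (2 * Ly.k u) (Ly.s u)).card : ℝ) ≤ N := by
            rw [← hsumr]
            exact Finset.sum_le_sum fun u _ => by exact_mod_cast card_Dt_le (Ly.s_le u)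
          have d2 : (N : ℝ) ≤ ∑ u, ((Dt (2 * Ly.k u) (Ly.s u)).card : ℝ) +
              (cnt fun u => Ly.s u < 2 * Ly.k u : ℕ) := by
            rw [← hsumr, cnt_eq_sum]
            push_cast
            rw [← Finset.sum_add_distrib]
            refine Finset.sum_le_sum fun u _ => ?_
            exact_mod_cast le_card_Dt (Ly.s_le u)
          have d3 := hmul (min_le_right _ _) hpaths
          have d4 : (Fintype.card V : ℝ) ≤ 2 * N := by exact_mod_cast hnN
          have d5 := o6 a b hab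
          have d6 : min (α / 2) 1 ≤ α / 2 := min_le_left _ _
          have d7 : min (α / 2) 1 ≤ 1 := min_le_right _ _
          obtain ⟨d8, d9⟩ := abs_le.mp d5
          have d10 : 0 ≤ ∑ w, ω w a b := Finset.sum_nonneg fun w _ => (o2 w a b).1
          generalize ∑ u, ((Dt (2 * Ly.k u) (Ly.s u)).card : ℝ) = D at *
          generalize ∑ w, ω w a b = T at *
          have d11 : (N : ℝ) - D ≤ α / 4 * N := by nlinarith
          have d12 : D * (T / N) - 1 = (T - 1) - (N - D) / N * T := by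
            field_simp
            ring
          have d13 : 0 ≤ ((N : ℝ) - D) / N := div_nonneg (by linarith) hNr.le
          have d14 : ((N : ℝ) - D) / N ≤ α / 4 := by rwa [div_le_iff₀ hNr]
          rw [d12, abs_le]
          constructor <;> nlinarith [mul_nonneg d13 d10]
      · have ha' : (v, w) ∈ Free := ha
        rw [main_slot]
        simp only [hone, if_pos ha', Finset.sum_const, nsmul_eq_mul, card_Ps (Ly.s_le _)]
        rw [← Finset.sum_mul, hsumr, mul_one_div_cancel hNr.ne']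
        simpa using hα.le
      · rw [main_dem]
        have hk := Ly.k_ge u
        have e1 : ∑ x, μ w u x = rsum (fun _ => True) (μ w u) := by
          rw [rsum_eq_ite]
          simp
        rw [e1, rsum_fiber _ (fun x => x ⟨0, by omega⟩)]
        simp only [true_and, hone]
        rw [← Finset.sum_filter, Finset.sum_const, ← cnt_def, hN w, nsmul_eq_mul,
          mul_one_div_cancel hNr.ne']
        simpa using hα.le)
  obtain ⟨dom, f, r1, r2, r3, r4, r5, r6⟩ := extract G Ly Free Mt (fun h hh => (hM1 h hh).1)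
    (fun h hh i => by
      have h1 := o3 _ _ _ fun h2 => m2 _ _ _ (hM1 h hh).2 i (by rw [h2, zero_div])
      exact ⟨h1.2.1, h1.1⟩) hM2
  refine ⟨dom, f, r1, r2, r3, r4, fun v => le_trans ?_ (hM3 v), fun w => le_trans ?_ (hM4 w)⟩
  · rw [Nat.cast_le]
    exact cnt_mono fun u hu => ⟨hu.1, fun h hh he => hu.2 (r5 h hh _ he)⟩
  · rw [Nat.cast_le]
    exact cnt_mono fun v hv => ⟨hv.1, fun h hh he => hv.2 (r6 h hh _ he)⟩

end Pool.Agent.Lib.MP_34bdde_co
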