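import Mathlib
import Pool.Agent.Lib.MP_34bdde_co.Defs

set_option autoImplicit false

open Finset
open scoped Classical

noncomputable section

namespace Pool.Agent.Lib.MP_34bdde_co

variable {V W : Type}

lemma count_toMultiset (v : V) (e : Sym2 V) (he : ¬ e.IsDiag) :
    e.toMultiset.count v = if v ∈ e then 1 else 0 := by
  induction e using Sym2.ind with
  | h a b =>
    have hab : a ≠ b := by simpa using he
    show Multiset.count v ({a, b} : Multiset V) = _
    simp only [Multiset.insert_eq_cons, Multiset.count_cons, Multiset.count_singleton,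
      Sym2.mem_iff]
    by_cases h1 : v = a
    · subst h1
      simp [hab]
    · by_cases h2 : v = b
      · subst h2
        simp [h1]
      · simp [h1, h2]

lemma count_bd_eq_countP (v : V) (X : Multiset (Sym2 V)) (hX : ∀ e ∈ X, ¬ e.IsDiag) :
    (bd X).count v = X.countP fun e => v ∈ e := by
  induction X using Multiset.induction_on with
  | empty => simp
  | cons e X ih =>
    have h1 : bd (e ::ₘ X) = e.toMultiset + bd X := by
      unfold bd
      rw [Multiset.cons_bind]
    rw [h1, Multiset.count_add, ih fun e' he' => hX e' (Multiset.mem_cons_of_mem he'),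
      count_toMultiset v e (hX e (Multiset.mem_cons_self _ _)), Multiset.countP_cons]
    omega

lemma countP_le_count_bd (v : V) (X : Multiset (Sym2 V)) :
    (X.countP fun e => v ∈ e) ≤ (bd X).count v := by
  induction X using Multiset.induction_on with
  | empty => simp
  | cons e X ih =>
    have h1 : bd (e ::ₘ X) = e.toMultiset + bd X := by
      unfold bd
      rw [Multiset.cons_bind]
    rw [h1, Multiset.count_add, Multiset.countP_cons]
    by_cases h : v ∈ e
    · have : 1 ≤ e.toMultiset.count v := Multiset.one_le_count_iff_mem.mpr (by simpa using h)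
      simp only [h, if_true]
      omega
    · simp only [h, if_false]
      omega

variable [Fintype V]

lemma cnt_edge_eq_card (v : V) (X : Multiset (Sym2 V)) :
    (cnt fun u => s(v, u) ∈ X) = (X.toFinset.filter fun e => v ∈ e).card := by
  rw [cnt_def]
  refine Finset.card_bij (fun u _ => s(v, u)) (fun u hu => ?_) (fun u _ u' _ h => ?_)
    (fun e he => ?_)
  · simp only [Finset.mem_filter, Finset.mem_univ, true_and] at hu
    simp [hu]
  · exact Sym2.congr_right.mp h
  · simp only [Finset.mem_filter, Multiset.mem_toFinset] at he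
    obtain ⟨u, rfl⟩ := Sym2.mem_iff_exists.mp he.2
    exact ⟨u, by simpa using he.1, rfl⟩

lemma cnt_edge_le (v : V) (X : Multiset (Sym2 V)) :
    (cnt fun u => s(v, u) ∈ X) ≤ (bd X).count v := by
  refine le_trans ?_ (countP_le_count_bd v X)
  rw [cnt_edge_eq_card, Multiset.countP_eq_card_filter, ← Multiset.toFinset_filter]
  exact Multiset.toFinset_card_le _

lemma count_bd_eq_cnt (v : V) {X : Multiset (Sym2 V)} (hn : X.Nodup) (hX : ∀ e ∈ X, ¬ e.IsDiag) :
    (bd X).count v = cnt fun u => s(v, u) ∈ X := by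
  rw [count_bd_eq_countP v X hX, cnt_edge_eq_card, Multiset.countP_eq_card_filter,
    ← Multiset.toFinset_filter, Multiset.toFinset_card_of_nodup (hn.filter _)]

/-- The edges of a graph as a multiset. -/
def eg (G : SimpleGraph V) : Multiset (Sym2 V) :=
  (univ.filter fun e : Sym2 V => e ∈ G.edgeSet).val

lemma mem_eg {G : SimpleGraph V} {e : Sym2 V} : e ∈ eg G ↔ e ∈ G.edgeSet := by
  simp [eg]

lemma eg_nodup (G : SimpleGraph V) : (eg G).Nodup := Finset.nodup _

lemma count_bd_eg (G : SimpleGraph V) (v : V) : (bd (eg G)).count v = cnt fun u => G.Adj v u := by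
  rw [count_bd_eq_cnt v (eg_nodup G) fun e he => G.not_isDiag_of_mem_edgeSet (mem_eg.mp he)]
  congr 1
  ext u
  simp [mem_eg]

/-- Delete the edges of a multiset. -/
def del (G : SimpleGraph V) (X : Multiset (Sym2 V)) : SimpleGraph V := G.deleteEdges {e | e ∈ X}

omit [Fintype V] in
lemma del_adj {G : SimpleGraph V} {X : Multiset (Sym2 V)} {u v : V} :
    (del G X).Adj u v ↔ G.Adj u v ∧ s(u, v) ∉ X := by
  simp [del]

omit [Fintype V] in
lemma mem_del {G : SimpleGraph V} {X : Multiset (Sym2 V)} {e : Sym2 V} :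
    e ∈ (del G X).edgeSet ↔ e ∈ G.edgeSet ∧ e ∉ X := by
  simp [del]

lemma eg_del (G : SimpleGraph V) {X : Multiset (Sym2 V)} (hn : X.Nodup)
    (hX : ∀ e ∈ X, e ∈ G.edgeSet) : eg G = eg (del G X) + X := by
  refine (Multiset.Nodup.ext (eg_nodup G) ?_).mpr fun e => ?_
  · rw [Multiset.nodup_add]
    refine ⟨eg_nodup _, hn, ?_⟩
    rw [Multiset.disjoint_left]
    intro e he
    exact (mem_del.mp (mem_eg.mp he)).2
  · rw [Multiset.mem_add, mem_eg, mem_eg, mem_del]
    constructor
    · intro h
      by_cases h' : e ∈ X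
      · exact Or.inr h'
      · exact Or.inl ⟨h, h'⟩
    · rintro (h | h)
      · exact h.1
      · exact hX e h

lemma Dense.mono {G : SimpleGraph V} {k : ℕ} {a a' : ℝ} (h : Dense G k a) (ha : a' ≤ a) :
    Dense G k a' := fun S hS =>
  (mul_le_mul_of_nonneg_right ha (Nat.cast_nonneg _)).trans (h S hS)

lemma Dense.del {G : SimpleGraph V} {a b : ℝ} (h : Dense G 2 a) {X : Multiset (Sym2 V)}
    (hb : 0 ≤ b) (hX : ∀ v, (((bd X).count v : ℕ) : ℝ) ≤ b * Fintype.card V) :
    Dense (del G X) 2 (a - 2 * b) := by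
  intro S hS
  have h1 := h S hS
  have h2 : (cnt fun z => ∀ q ∈ S, G.Adj z q) ≤
      (cnt fun z => ∀ q ∈ S, (MP_34bdde_co.del G X).Adj z q) +
        ∑ q ∈ S, cnt fun z => s(q, z) ∈ X := by
    simp only [cnt_def]
    refine le_trans ?_ (add_le_add_right Finset.card_biUnion_le _)
    refine le_trans (Finset.card_le_card ?_) (Finset.card_union_le _ _)
    intro z hz
    simp only [Finset.mem_filter, Finset.mem_univ, true_and, Finset.mem_union,
      Finset.mem_biUnion] at hz ⊢
    by_cases hc : ∃ q ∈ S, s(q, z) ∈ X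
    · exact Or.inr hc
    · refine Or.inl fun q hq => del_adj.mpr ⟨hz q hq, fun hm => hc ⟨q, hq, ?_⟩⟩
      rwa [Sym2.eq_swap]
  have h3 : ((∑ q ∈ S, cnt fun z => s(q, z) ∈ X : ℕ) : ℝ) ≤ 2 * (b * Fintype.card V) := by
    push_cast
    calc ∑ q ∈ S, ((cnt fun z => s(q, z) ∈ X : ℕ) : ℝ) ≤ ∑ _q ∈ S, b * Fintype.card V :=
          Finset.sum_le_sum fun q _ => (Nat.cast_le.mpr (cnt_edge_le q X)).trans (hX q)
      _ = S.card * (b * Fintype.card V) := by simp
      _ ≤ 2 * (b * Fintype.card V) :=
          mul_le_mul_of_nonneg_right (by exact_mod_cast hS) (by positivity)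
  have h4 : ((cnt fun z => ∀ q ∈ S, G.Adj z q : ℕ) : ℝ) ≤
      (cnt fun z => ∀ q ∈ S, (MP_34bdde_co.del G X).Adj z q : ℕ) +
        ((∑ q ∈ S, cnt fun z => s(q, z) ∈ X : ℕ) : ℝ) := by exact_mod_cast h2
  nlinarith

omit [Fintype V] in
lemma count_fst_eq_cnt [Fintype W] {S : Multiset (V × W)} (hn : S.Nodup) (v : V) :
    (S.map Prod.fst).count v = cnt fun w => (v, w) ∈ S := by
  rw [Multiset.count_map, ← Multiset.toFinset_card_of_nodup (hn.filter _), cnt_def]
  symm
  refine Finset.card_bij (fun w _ => (v, w)) (fun w hw => ?_) (fun w _ w' _ h => ?_)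
    (fun s hs => ?_)
  · simp only [Finset.mem_filter, Finset.mem_univ, true_and] at hw
    simp [hw]
  · exact (Prod.ext_iff.mp h).2
  · simp only [Multiset.mem_toFinset, Multiset.mem_filter] at hs
    obtain ⟨a, b⟩ := s
    obtain ⟨h1, rfl⟩ := hs
    exact ⟨b, by simpa using h1, rfl⟩

lemma count_snd_eq_cnt {S : Multiset (V × W)} (hn : S.Nodup) (w : W) :
    (S.map Prod.snd).count w = cnt fun v => (v, w) ∈ S := by
  rw [Multiset.count_map, ← Multiset.toFinset_card_of_nodup (hn.filter _), cnt_def]
  symm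
  refine Finset.card_bij (fun v _ => (v, w)) (fun v hv => ?_) (fun v _ v' _ h => ?_)
    (fun s hs => ?_)
  · simp only [Finset.mem_filter, Finset.mem_univ, true_and] at hv
    simp [hv]
  · exact (Prod.ext_iff.mp h).1
  · simp only [Multiset.mem_toFinset, Multiset.mem_filter] at hs
    obtain ⟨a, b⟩ := s
    obtain ⟨h1, rfl⟩ := hs
    exact ⟨a, by simpa using h1, rfl⟩

lemma count_fst_univ [Fintype W] (v : V) :
    ((univ : Finset (V × W)).val.map Prod.fst).count v = Fintype.card W := by
  rw [count_fst_eq_cnt (Finset.nodup _), cnt_def]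
  simp

lemma count_snd_univ [Fintype W] (w : W) :
    ((univ : Finset (V × W)).val.map Prod.snd).count w = Fintype.card V := by
  rw [count_snd_eq_cnt (Finset.nodup _), cnt_def]
  simp

omit [Fintype V] in
/-- Splitting a finset along a sub-multiset. -/
lemma val_split {α : Type} (Z : Finset α) {S : Multiset α} (h : S ≤ Z.val) :
    Z.val = (Z.filter fun s => s ∉ S).val + S := by
  have hS : S.Nodup := Multiset.nodup_of_le h Z.nodup
  refine (Multiset.Nodup.ext Z.nodup ?_).mpr fun e => ?_
  · rw [Multiset.nodup_add]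
    refine ⟨Finset.nodup _, hS, ?_⟩
    rw [Multiset.disjoint_left]
    intro e he
    simp only [Finset.filter_val, Multiset.mem_filter] at he
    exact he.2
  · rw [Multiset.mem_add]
    simp only [Finset.filter_val, Multiset.mem_filter]
    constructor
    · intro h'
      by_cases h'' : e ∈ S
      · exact Or.inr h''
      · exact Or.inl ⟨h', h''⟩
    · rintro (h' | h')
      · exact h'.1
      · exact Multiset.mem_of_le h h'

omit [Fintype V] in
lemma exists_split {α : Type} (Z : Finset α) {S : Multiset α} (h : S ≤ Z.val) :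
    ∃ Z' : Finset α, Z.val = Z'.val + S ∧ ∀ s, s ∈ Z' ↔ s ∈ Z ∧ s ∉ S :=
  ⟨_, val_split Z h, fun _ => Finset.mem_filter⟩

end Pool.Agent.Lib.MP_34bdde_co
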