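import Mathlib
import Pool.Agent.Lib.MP_34bdde_co.CoreA

set_option autoImplicit false

open Finset
open scoped Classical

noncomputable section

namespace Pool.Agent.Lib.MP_34bdde_co

/- PLAN. One abstract greedy lemma (induction over a Finset `J` of already served requests,
invariant: no conflicts so far, every element carries weight at most c n): request `i` picks an
element of `All i` that is not overloaded (load > c n - max weight; at most total/(c n/2) such
elements) and is in no conflict with an earlier choice.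
pickV_raw conflicts for request i: (z, w) already chosen for w in col i (at most 2 b n), edge
s(z, p) already chosen for p in par i: either p in par j and z = z j (at most b n per p), or
p = z j and z in par j (at most 3 c n per p, by the load invariant; use c := min c (a/100)).
pickV / pickW: apply the raw version with All i := common neighbours z of par i with
s(z,p) not in UE, (z,w) not in US, z not in av i. -/

lemma nodup_finsum {I α : Type} (s : Finset I) (M : I → Multiset α)
    (h1 : ∀ i ∈ s, (M i).Nodup)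
    (h2 : ∀ i ∈ s, ∀ j ∈ s, i ≠ j → ∀ a ∈ M i, a ∉ M j) : (∑ i ∈ s, M i).Nodup := by
  induction s using Finset.induction_on with
  | empty => simp
  | insert a s ha ih =>
    rw [Finset.sum_insert ha, Multiset.nodup_add]
    refine ⟨h1 a (Finset.mem_insert_self _ _),
      ih (fun i hi => h1 i (Finset.mem_insert_of_mem hi))
        (fun i hi j hj => h2 i (Finset.mem_insert_of_mem hi) j (Finset.mem_insert_of_mem hj)), ?_⟩
    rw [Multiset.disjoint_left]
    intro x hx hx'
    obtain ⟨j, hj, hxj⟩ := Multiset.mem_sum.mp hx'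
    refine h2 a (Finset.mem_insert_self _ _) j (Finset.mem_insert_of_mem hj) ?_ x hx hxj
    rintro rfl
    exact ha hj

/-- The abstract greedy choice with load control. -/
lemma greedy {I X : Type} [Fintype I] (All : I → Finset X) (w : I → ℕ)
    (conf : I → X → I → X → Prop) (hsym : ∀ i x j y, conf i x j y → conf j y i x)
    (C m K L : ℝ) (hC : 0 ≤ C) (hK : 0 ≤ K) (hL : 0 ≤ L) (hm : ∀ i, (w i : ℝ) ≤ m)
    (hpos : ∀ _i : I, 0 < C - m) (hT : ∑ i, (w i : ℝ) ≤ L * (C - m))
    (hA : ∀ i, K + L < (All i).card)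
    (hconf : ∀ (J : Finset I) (z : I → X),
      (∀ x, ∑ j ∈ J.filter (fun j => z j = x), (w j : ℝ) ≤ C) → ∀ i,
      ∃ B : Finset X, (B.card : ℝ) ≤ K ∧ ∀ x, ∀ j ∈ J, conf i x j (z j) → x ∈ B) :
    ∃ z : I → X, (∀ i, z i ∈ All i) ∧ (∀ i j, i ≠ j → ¬ conf i (z i) j (z j)) ∧
      ∀ x, ∑ j ∈ univ.filter (fun j => z j = x), (w j : ℝ) ≤ C := by
  have key : ∀ J : Finset I, ∃ z : I → X, (∀ i, z i ∈ All i) ∧
      (∀ i ∈ J, ∀ j ∈ J, i ≠ j → ¬ conf i (z i) j (z j)) ∧
      ∀ x, ∑ j ∈ J.filter (fun j => z j = x), (w j : ℝ) ≤ C := by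
    intro J
    induction J using Finset.induction_on with
    | empty =>
      have hne : ∀ i, (All i).Nonempty := fun i => by
        rw [← Finset.card_pos]
        have := hA i
        have h0 : (0 : ℝ) < (All i).card := by linarith
        exact_mod_cast h0
      choose z hz using hne
      exact ⟨z, hz, by simp, by simpa using fun _ => hC⟩
    | insert i J hi ih =>
      obtain ⟨z, hz, hcf, hld⟩ := ih
      set O := (All i).filter fun x => C - m < ∑ j ∈ J.filter (fun j => z j = x), (w j : ℝ)
        with hO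
      have hOc : (O.card : ℝ) ≤ L := by
        have h1 : (O.card : ℝ) * (C - m) ≤
            ∑ x ∈ O, ∑ j ∈ J.filter (fun j => z j = x), (w j : ℝ) := by
          rw [← nsmul_eq_mul, ← Finset.sum_const]
          exact Finset.sum_le_sum fun x hx => (Finset.mem_filter.mp hx).2.le
        have h2 : ∑ x ∈ O, ∑ j ∈ J.filter (fun j => z j = x), (w j : ℝ) ≤ ∑ j, (w j : ℝ) := by
          rw [← Finset.sum_biUnion]
          · exact Finset.sum_le_sum_of_subset_of_nonneg (Finset.subset_univ _)
              fun _ _ _ => Nat.cast_nonneg _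
          · intro x _ y _ hxy
            refine Finset.disjoint_left.mpr fun j hj hj' => hxy ?_
            rw [← (Finset.mem_filter.mp hj).2, ← (Finset.mem_filter.mp hj').2]
        exact le_of_mul_le_mul_right (h1.trans (h2.trans hT)) (hpos i)
      obtain ⟨Cf, hCc, hCf⟩ := hconf J z hld i
      have hlt : (O ∪ Cf).card < (All i).card := by
        have h1 : ((O ∪ Cf).card : ℝ) ≤ O.card + Cf.card := by
          exact_mod_cast Finset.card_union_le O Cf
        have h2 : ((O ∪ Cf).card : ℝ) < (All i).card := by linarith [hA i]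
        exact_mod_cast h2
      obtain ⟨x, hx, hx'⟩ := Finset.exists_mem_notMem_of_card_lt_card hlt
      rw [Finset.mem_union, not_or] at hx'
      have hx1 : ∑ j ∈ J.filter (fun j => z j = x), (w j : ℝ) ≤ C - m := by
        by_contra hcon
        exact hx'.1 (Finset.mem_filter.mpr ⟨hx, not_le.mp hcon⟩)
      have hx2 : ∀ j ∈ J, ¬ conf i x j (z j) := fun j hj hcon =>
        hx'.2 (hCf x j hj hcon)
      have hup : ∀ j ∈ J, Function.update z i x j = z j := fun j hj =>
        Function.update_of_ne (fun h : j = i => hi (h ▸ hj)) _ _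
      refine ⟨Function.update z i x, fun k => ?_, fun k hk l hl hkl => ?_, fun y => ?_⟩
      · by_cases hk : k = i
        · subst hk
          simpa using hx
        · rw [Function.update_of_ne hk]
          exact hz k
      · rcases Finset.mem_insert.mp hk with rfl | hk'
        · rcases Finset.mem_insert.mp hl with rfl | hl'
          · exact absurd rfl hkl
          · rw [Function.update_self, hup l hl']
            exact hx2 l hl'
        · rcases Finset.mem_insert.mp hl with rfl | hl'
          · rw [Function.update_self, hup k hk']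
            exact fun h => hx2 k hk' (hsym _ _ _ _ h)
          · rw [hup k hk', hup l hl']
            exact hcf k hk' l hl' hkl
      · have hfil : J.filter (fun j => Function.update z i x j = y) =
            J.filter (fun j => z j = y) :=
          Finset.filter_congr fun j hj => by rw [hup j hj]
        rw [Finset.filter_insert, hfil]
        split_ifs with h
        · rw [Function.update_self] at h
          subst h
          rw [Finset.sum_insert (fun h => hi (Finset.mem_filter.mp h).1)]
          linarith [hm i]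
        · exact hld y
  obtain ⟨z, h1, h2, h3⟩ := key univ
  exact ⟨z, h1, fun i j => h2 i (Finset.mem_univ _) j (Finset.mem_univ _), h3⟩

lemma card_meet_le {I Y : Type} [Fintype I] (S : I → Finset Y) (i : I) (J : Finset I) {β : ℝ}
    {k : ℕ} (hβ : 0 ≤ β) (hk : (S i).card ≤ k)
    (h : ∀ y, ((cnt fun j => y ∈ S j : ℕ) : ℝ) ≤ β) :
    (((J.filter fun j => ∃ y ∈ S i, y ∈ S j).card : ℕ) : ℝ) ≤ k * β := by
  have h1 : (J.filter fun j => ∃ y ∈ S i, y ∈ S j) ⊆
      (S i).biUnion fun y => univ.filter fun j => y ∈ S j := by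
    intro j hj
    obtain ⟨_, y, hy, hyj⟩ := Finset.mem_filter.mp hj
    exact Finset.mem_biUnion.mpr ⟨y, hy, Finset.mem_filter.mpr ⟨Finset.mem_univ _, hyj⟩⟩
  have h2 : (((J.filter fun j => ∃ y ∈ S i, y ∈ S j).card : ℕ) : ℝ) ≤
      ∑ y ∈ S i, ((cnt fun j => y ∈ S j : ℕ) : ℝ) := by
    have := (Finset.card_le_card h1).trans Finset.card_biUnion_le
    simp only [cnt_def]
    exact_mod_cast this
  refine h2.trans ((Finset.sum_le_sum fun y _ => h y).trans ?_)
  rw [Finset.sum_const, nsmul_eq_mul]
  exact mul_le_mul_of_nonneg_right (by exact_mod_cast hk) hβ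

lemma wsum_cast {I X : Type} [Fintype I] (z : I → X) (wt : I → ℕ) (x : X) :
    ((wsum (fun i => z i = x) fun i => wt i + 1 : ℕ) : ℝ) =
      ∑ j ∈ univ.filter (fun j => z j = x), ((wt j + 1 : ℕ) : ℝ) := by
  rw [wsum_def, Nat.cast_sum]

lemma pos_of_wt {I : Type} {wt : I → ℕ} {t n : ℝ} (hn : 0 ≤ n)
    (h : ∀ i, (wt i : ℝ) + 1 ≤ t * n) (i : I) : 0 < n := by
  rcases hn.lt_or_eq with h' | h'
  · exact h'
  · have h1 := h i
    rw [← h', mul_zero] at h1
    have : (0 : ℝ) ≤ wt i := Nat.cast_nonneg _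
    linarith

/-- Greedy choice of vertices: request `i` chooses `z i` in `All i`; it will be joined to the
vertices of `par i` and take a slot in the colours of `col i`. -/
theorem pickV_raw (a : ℝ) (ha : 0 < a) : ∃ b : ℝ, 0 < b ∧ ∀ c : ℝ, 0 < c → ∃ t : ℝ, 0 < t ∧
    ∀ (V W I : Type) [Fintype V] [Fintype I] (par : I → Finset V) (col : I → Finset W)
      (All : I → Finset V) (wt : I → ℕ),
      (∀ i, (par i).card ≤ 3) → (∀ i, (col i).card ≤ 2) →
      (∀ i, a * Fintype.card V ≤ (All i).card) →
      (∀ v, ((cnt fun i => v ∈ par i : ℕ) : ℝ) ≤ b * Fintype.card V) →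
      (∀ w, ((cnt fun i => w ∈ col i : ℕ) : ℝ) ≤ b * Fintype.card V) →
      (∀ i, (wt i : ℝ) + 1 ≤ t * Fintype.card V) →
      (∑ i, ((wt i : ℝ) + 1) ≤ t * (Fintype.card V : ℝ) ^ 2) →
      ∃ z : I → V, (∀ i, z i ∈ All i) ∧
        (∑ i, (par i).val.map fun p => s(z i, p)).Nodup ∧
        (∑ i, (col i).val.map fun w => (z i, w)).Nodup ∧
        ∀ v, ((wsum (fun i => z i = v) fun i => wt i + 1 : ℕ) : ℝ) ≤ c * Fintype.card V := by
  refine ⟨a / 100, by positivity, fun c hc => ?_⟩
  set c' := min c (a / 100) with hc'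
  have hc0 : 0 < c' := lt_min hc (by positivity)
  have hc1 : c' ≤ c := min_le_left _ _
  have hc2 : c' ≤ a / 100 := min_le_right _ _
  set t := min (c' / 2) (a * c' / 4) with ht
  have ht0 : 0 < t := lt_min (by positivity) (by positivity)
  have ht1 : t ≤ c' / 2 := min_le_left _ _
  have ht2 : t ≤ a * c' / 4 := min_le_right _ _
  refine ⟨t, ht0, fun V W I _ _ par col All wt hpar hcol hAll hlp hlc hwt hT => ?_⟩
  set n : ℝ := (Fintype.card V : ℝ) with hn
  have hn0 : 0 ≤ n := Nat.cast_nonneg _
  have hnpos := pos_of_wt hn0 hwt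
  obtain ⟨z, hz1, hz2, hz3⟩ := greedy All (fun i => wt i + 1)
    (fun i x j y => (x = y ∧ ∃ w ∈ col i, w ∈ col j) ∨
      ∃ p ∈ par i, ∃ q ∈ par j, s(x, p) = s(y, q))
    (by
      rintro i x j y (⟨h, w, hw, hw'⟩ | ⟨p, hp, q, hq, h⟩)
      · exact Or.inl ⟨h.symm, w, hw', hw⟩
      · exact Or.inr ⟨q, hq, p, hp, h.symm⟩)
    (c' * n) (t * n) (14 * (a / 100 * n)) (a / 2 * n) (by positivity) (by positivity)
    (by positivity) (fun i => by push_cast; exact hwt i)
    (fun i => by nlinarith [hnpos i])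
    (by
      push_cast
      refine hT.trans ?_
      have h1 : t ≤ a / 2 * (c' - t) := by nlinarith
      calc t * n ^ 2 ≤ a / 2 * (c' - t) * n ^ 2 := mul_le_mul_of_nonneg_right h1 (by positivity)
        _ = _ := by ring)
    (fun i => by nlinarith [hnpos i, hAll i, mul_pos ha (hnpos i)])
    (by
      intro J z hld i
      refine ⟨((J.filter fun j => ∃ w ∈ col i, w ∈ col j).image z ∪
            (J.filter fun j => ∃ p ∈ par i, p ∈ par j).image z) ∪
            (par i).biUnion fun p => (J.filter fun j => z j = p).biUnion par, ?_, ?_⟩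
      swap
      · rintro x j hj (h | ⟨p, hp, q, hq, h⟩)
        · exact Finset.mem_union_left _ (Finset.mem_union_left _
            (Finset.mem_image.mpr ⟨j, Finset.mem_filter.mpr ⟨hj, h.2⟩, h.1.symm⟩))
        · rcases Sym2.eq_iff.mp h with ⟨h1, h2⟩ | ⟨h1, h2⟩
          · exact Finset.mem_union_left _ (Finset.mem_union_right _
              (Finset.mem_image.mpr ⟨j, Finset.mem_filter.mpr ⟨hj, p, hp, h2 ▸ hq⟩, h1.symm⟩))
          · exact Finset.mem_union_right _ (Finset.mem_biUnion.mpr ⟨p, hp,
              Finset.mem_biUnion.mpr ⟨j, Finset.mem_filter.mpr ⟨hj, h2.symm⟩, h1 ▸ hq⟩⟩)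
      have hb : 0 ≤ a / 100 * n := by positivity
      have e1 := card_meet_le col i J hb (hcol i) hlc
      have e2 := card_meet_le par i J hb (hpar i) hlp
      have e1' : (((J.filter fun j => ∃ w ∈ col i, w ∈ col j).image z).card : ℝ) ≤
          (J.filter fun j => ∃ w ∈ col i, w ∈ col j).card := by
        exact_mod_cast Finset.card_image_le
      have e2' : (((J.filter fun j => ∃ p ∈ par i, p ∈ par j).image z).card : ℝ) ≤
          (J.filter fun j => ∃ p ∈ par i, p ∈ par j).card := by
        exact_mod_cast Finset.card_image_le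
      have e3 : ∀ p, (((J.filter fun j => z j = p).biUnion par).card : ℝ) ≤ 3 * (c' * n) := by
        intro p
        have h1 : (((J.filter fun j => z j = p).biUnion par).card : ℝ) ≤
            ∑ j ∈ J.filter (fun j => z j = p), ((par j).card : ℝ) := by
          exact_mod_cast Finset.card_biUnion_le
        have h2 : ∑ j ∈ J.filter (fun j => z j = p), ((par j).card : ℝ) ≤
            ∑ j ∈ J.filter (fun j => z j = p), 3 * ((wt j + 1 : ℕ) : ℝ) := by
          refine Finset.sum_le_sum fun j _ => ?_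
          have h3 : ((par j).card : ℝ) ≤ 3 := by exact_mod_cast hpar j
          have h4 : (0 : ℝ) ≤ wt j := Nat.cast_nonneg _
          push_cast
          linarith
        rw [← Finset.mul_sum] at h2
        have := hld p
        linarith
      have e3' : (((par i).biUnion fun p => (J.filter fun j => z j = p).biUnion par).card : ℝ) ≤
          3 * (3 * (c' * n)) := by
        have h1 : (((par i).biUnion fun p => (J.filter fun j => z j = p).biUnion par).card : ℝ) ≤
            ∑ p ∈ par i, (((J.filter fun j => z j = p).biUnion par).card : ℝ) := by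
          exact_mod_cast Finset.card_biUnion_le
        refine h1.trans ((Finset.sum_le_sum fun p _ => e3 p).trans ?_)
        rw [Finset.sum_const, nsmul_eq_mul]
        exact mul_le_mul_of_nonneg_right (by exact_mod_cast hpar i) (by positivity)
      refine ((Nat.cast_le (α := ℝ)).mpr ((Finset.card_union_le _ _).trans
        (Nat.add_le_add_right (Finset.card_union_le _ _) _))).trans ?_
      push_cast at e1 e2 ⊢
      have e6 : c' * n ≤ a / 100 * n := mul_le_mul_of_nonneg_right hc2 hn0
      linarith)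
  refine ⟨z, hz1, ?_, ?_, fun v => ?_⟩
  · refine nodup_finsum _ _ (fun i _ => ?_) fun i _ j _ hij e he he' => ?_
    · exact Multiset.Nodup.map (fun p q h => Sym2.congr_right.mp h) (par i).nodup
    · obtain ⟨p, hp, rfl⟩ := Multiset.mem_map.mp he
      obtain ⟨q, hq, h⟩ := Multiset.mem_map.mp he'
      exact hz2 i j hij (Or.inr ⟨p, hp, q, hq, h.symm⟩)
  · refine nodup_finsum _ _ (fun i _ => ?_) fun i _ j _ hij e he he' => ?_
    · exact Multiset.Nodup.map (fun p q h => (Prod.ext_iff.mp h).2) (col i).nodup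
    · obtain ⟨p, hp, rfl⟩ := Multiset.mem_map.mp he
      obtain ⟨q, hq, h⟩ := Multiset.mem_map.mp he'
      obtain ⟨h1, h2⟩ := Prod.ext_iff.mp h
      exact hz2 i j hij (Or.inl ⟨h1.symm, p, hp, by
        have h3 : q = p := h2
        rw [← h3]
        exact hq⟩)
  · rw [wsum_cast]
    exact (hz3 v).trans (mul_le_mul_of_nonneg_right hc1 hn0)

/-- Greedy choice of colours: request `i` chooses a colour `z i` in `All i`, in which the vertices
of `S i` take a slot. -/
theorem pickW_raw (a : ℝ) (ha : 0 < a) : ∃ b : ℝ, 0 < b ∧ ∀ c : ℝ, 0 < c → ∃ t : ℝ, 0 < t ∧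
    ∀ (V W I : Type) [Fintype V] [Fintype W] [Fintype I] (S : I → Finset V)
      (All : I → Finset W) (wt : I → ℕ),
      (∀ i, (S i).card ≤ 6) →
      (∀ i, a * Fintype.card V ≤ (All i).card) →
      (∀ v, ((cnt fun i => v ∈ S i : ℕ) : ℝ) ≤ b * Fintype.card V) →
      (∀ i, (wt i : ℝ) + 1 ≤ t * Fintype.card V) →
      (∑ i, ((wt i : ℝ) + 1) ≤ t * (Fintype.card V : ℝ) ^ 2) →
      ∃ z : I → W, (∀ i, z i ∈ All i) ∧
        (∑ i, (S i).val.map fun v => (v, z i)).Nodup ∧
        ∀ w, ((wsum (fun i => z i = w) fun i => wt i + 1 : ℕ) : ℝ) ≤ c * Fintype.card V := by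
  refine ⟨a / 100, by positivity, fun c hc => ?_⟩
  set t := min (c / 2) (a * c / 4) with ht
  have ht0 : 0 < t := lt_min (by positivity) (by positivity)
  have ht1 : t ≤ c / 2 := min_le_left _ _
  have ht2 : t ≤ a * c / 4 := min_le_right _ _
  refine ⟨t, ht0, fun V W I _ _ _ S All wt hS hAll hl hwt hT => ?_⟩
  set n : ℝ := (Fintype.card V : ℝ) with hn
  have hn0 : 0 ≤ n := Nat.cast_nonneg _
  have hnpos := pos_of_wt hn0 hwt
  obtain ⟨z, hz1, hz2, hz3⟩ := greedy All (fun i => wt i + 1)
    (fun i x j y => x = y ∧ ∃ v ∈ S i, v ∈ S j)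
    (by
      rintro i x j y ⟨h, w, hw, hw'⟩
      exact ⟨h.symm, w, hw', hw⟩)
    (c * n) (t * n) (6 * (a / 100 * n)) (a / 2 * n) (by positivity) (by positivity)
    (by positivity) (fun i => by push_cast; exact hwt i)
    (fun i => by nlinarith [hnpos i])
    (by
      push_cast
      refine hT.trans ?_
      have h1 : t ≤ a / 2 * (c - t) := by nlinarith
      calc t * n ^ 2 ≤ a / 2 * (c - t) * n ^ 2 := mul_le_mul_of_nonneg_right h1 (by positivity)
        _ = _ := by ring)
    (fun i => by nlinarith [hnpos i, hAll i, mul_pos ha (hnpos i)])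
    (by
      intro J z _ i
      refine ⟨(J.filter fun j => ∃ v ∈ S i, v ∈ S j).image z, ?_, ?_⟩
      swap
      · intro x j hj h
        exact Finset.mem_image.mpr ⟨j, Finset.mem_filter.mpr ⟨hj, h.2⟩, h.1.symm⟩
      have hb : 0 ≤ a / 100 * n := by positivity
      have e1 := card_meet_le S i J hb (hS i) hl
      push_cast at e1
      exact ((Nat.cast_le (α := ℝ)).mpr Finset.card_image_le).trans e1)
  refine ⟨z, hz1, ?_, fun v => ?_⟩
  · refine nodup_finsum _ _ (fun i _ => ?_) fun i _ j _ hij e he he' => ?_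
    · exact Multiset.Nodup.map (fun p q h => (Prod.ext_iff.mp h).1) (S i).nodup
    · obtain ⟨p, hp, rfl⟩ := Multiset.mem_map.mp he
      obtain ⟨q, hq, h⟩ := Multiset.mem_map.mp he'
      obtain ⟨h1, h2⟩ := Prod.ext_iff.mp h
      exact hz2 i j hij ⟨h2.symm, p, hp, by
        have h3 : q = p := h1
        rw [← h3]
        exact hq⟩
  · rw [wsum_cast]
    exact hz3 v

lemma cnt_le_load {I X : Type} [Fintype I] (z : I → X) (wt : I → ℕ) (x : X) {β : ℝ}
    (h : ((wsum (fun i => z i = x) fun i => wt i + 1 : ℕ) : ℝ) ≤ β) :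
    ((cnt fun i => z i = x : ℕ) : ℝ) ≤ β :=
  (Nat.cast_le.mpr (cnt_le_wsum _ wt)).trans h

lemma count_const_le {I X Y : Type} [Fintype I] (S : I → Finset Y) (z : I → X) {k : ℕ}
    (hk : ∀ i, (S i).card ≤ k) (x : X) :
    ∑ i, ((S i).val.map fun _ => z i).count x ≤ k * cnt fun i => z i = x := by
  rw [cnt_eq_sum, Finset.mul_sum]
  refine Finset.sum_le_sum fun i _ => ?_
  rw [Multiset.map_const', Multiset.count_replicate]
  split_ifs with h
  · simpa using hk i
  · simp

lemma count_val_eq {I Y : Type} [Fintype I] (S : I → Finset Y) (y : Y) :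
    ∑ i, (S i).val.count y = cnt fun i => y ∈ S i := by
  rw [cnt_eq_sum]
  refine Finset.sum_congr rfl fun i _ => ?_
  split_ifs with h
  · exact Multiset.count_eq_one_of_mem (S i).nodup h
  · exact Multiset.count_eq_zero_of_notMem h

lemma map_finsum {I α β : Type} (s : Finset I) (M : I → Multiset α) (f : α → β) :
    (∑ i ∈ s, M i).map f = ∑ i ∈ s, (M i).map f :=
  map_sum (Multiset.mapAddMonoidHom f) M s

lemma bd_map_star {V : Type} (z : V) (P : Multiset V) :
    bd (P.map fun p => s(z, p)) = (P.map fun _ => z) + P := by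
  induction P using Multiset.induction_on with
  | empty => simp
  | cons p P ih =>
    rw [Multiset.map_cons, bd_cons, ih, Multiset.map_cons]
    simp only [← Multiset.singleton_add]
    abel

lemma card_forall_ge {X Y : Type} [Fintype X] (P : X → Prop) (S : Finset Y) (R : X → Y → Prop)
    {β : ℝ} {k : ℕ} (hβ : 0 ≤ β) (hk : S.card ≤ k)
    (h : ∀ y, ((cnt fun x => R x y : ℕ) : ℝ) ≤ β) :
    ((cnt P : ℕ) : ℝ) ≤ (cnt fun x => P x ∧ ∀ y ∈ S, ¬ R x y : ℕ) + k * β := by
  have h2 : cnt P ≤ (cnt fun x => P x ∧ ∀ y ∈ S, ¬ R x y) + ∑ y ∈ S, cnt fun x => R x y := by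
    simp only [cnt_def]
    refine le_trans ?_ (add_le_add_right Finset.card_biUnion_le _)
    refine le_trans (Finset.card_le_card ?_) (Finset.card_union_le _ _)
    intro z hz
    simp only [Finset.mem_filter, Finset.mem_univ, true_and, Finset.mem_union,
      Finset.mem_biUnion] at hz ⊢
    by_cases hc : ∃ q ∈ S, R z q
    · exact Or.inr hc
    · exact Or.inl ⟨hz, fun q hq hm => hc ⟨q, hq, hm⟩⟩
  have h3 : ∑ y ∈ S, ((cnt fun x => R x y : ℕ) : ℝ) ≤ k * β := by
    refine (Finset.sum_le_sum fun y _ => h y).trans ?_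
    rw [Finset.sum_const, nsmul_eq_mul]
    exact mul_le_mul_of_nonneg_right (by exact_mod_cast hk) hβ
  have h4 := (Nat.cast_le (α := ℝ)).mpr h2
  push_cast at h4
  linarith

/-- Greedy choice of new vertices on unused resources. -/
theorem pickV (ε η : ℝ) (hε : 0 < ε) (hη : 0 < η) : ∃ η' : ℝ, 0 < η' ∧
    ∀ (V W : Type) [Fintype V] (G : SimpleGraph V) (k : ℕ)
      (UE : Multiset (Sym2 V)) (US : Multiset (V × W)), k ≤ 3 → Dense G k ε → Ok η' UE US →
      ∀ (I : Type) [Fintype I] (par : I → Finset V) (col : I → Finset W) (av : I → Finset V)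
        (wt : I → ℕ),
      (∀ i, (par i).card ≤ k) → (∀ i, (col i).card ≤ 2) →
      (∀ i, ((av i).card : ℝ) ≤ η' * Fintype.card V) →
      (∀ v, ((cnt fun i => v ∈ par i : ℕ) : ℝ) ≤ η' * Fintype.card V) →
      (∀ w, ((cnt fun i => w ∈ col i : ℕ) : ℝ) ≤ η' * Fintype.card V) →
      (∀ i, (wt i : ℝ) + 1 ≤ η' * Fintype.card V) →
      (∑ i, ((wt i : ℝ) + 1) ≤ η' * (Fintype.card V : ℝ) ^ 2) →
      ∃ z : I → V, (∀ i, ∀ p ∈ par i, G.Adj (z i) p) ∧ (∀ i, z i ∉ av i) ∧
        Ok η (UE + ∑ i, (par i).val.map fun p => s(z i, p))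
          (US + ∑ i, (col i).val.map fun w => (z i, w)) ∧
        ∀ v, ((wsum (fun i => z i = v) fun i => wt i + 1 : ℕ) : ℝ) ≤ η * Fintype.card V := by
  obtain ⟨b, hb, H⟩ := pickV_raw (ε / 2) (by positivity)
  obtain ⟨t, ht, H⟩ := H (η / 10) (by positivity)
  set η' := min (min b t) (min (ε / 12) (η / 10)) with hη'
  have h0 : 0 < η' := lt_min (lt_min hb ht) (lt_min (by positivity) (by positivity))
  have h1 : η' ≤ b := (min_le_left _ _).trans (min_le_left _ _)
  have h2 : η' ≤ t := (min_le_left _ _).trans (min_le_right _ _)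
  have h3 : η' ≤ ε / 12 := (min_le_right _ _).trans (min_le_left _ _)
  have h4 : η' ≤ η / 10 := (min_le_right _ _).trans (min_le_right _ _)
  refine ⟨η', h0, fun V W _ G k UE US hk hD hOk I _ par col av wt hpar hcol hav hlp hlc hwt hT =>
    ?_⟩
  set n : ℝ := (Fintype.card V : ℝ) with hn
  have hn0 : 0 ≤ n := Nat.cast_nonneg _
  have hm : ∀ {x : ℝ}, η' ≤ x → η' * n ≤ x * n := fun h => mul_le_mul_of_nonneg_right h hn0
  have hη'n : 0 ≤ η' * n := by positivity
  obtain ⟨z, hz1, hz2, hz3, hz4⟩ := H V W I par col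
    (fun i => univ.filter fun x => (((∀ p ∈ par i, G.Adj x p) ∧ ∀ p ∈ par i, ¬ s(p, x) ∈ UE) ∧
      ∀ w ∈ col i, ¬ (x, w) ∈ US) ∧ ∀ u ∈ av i, ¬ x = u) wt
    (fun i => (hpar i).trans hk) hcol
    (by
      intro i
      have e0 := hD (par i) (hpar i)
      have e1 := card_forall_ge (fun x => ∀ p ∈ par i, G.Adj x p) (par i)
        (fun x p => s(p, x) ∈ UE) hη'n ((hpar i).trans hk)
        fun p => (Nat.cast_le.mpr (cnt_edge_le p UE)).trans (hOk.le p)
      have e2 := card_forall_ge
        (fun x => (∀ p ∈ par i, G.Adj x p) ∧ ∀ p ∈ par i, ¬ s(p, x) ∈ UE) (col i)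
        (fun x w => (x, w) ∈ US) hη'n (hcol i)
        fun w => by rw [← count_snd_eq_cnt hOk.ns]; exact hOk.lw w
      have e3 := card_forall_ge
        (fun x => ((∀ p ∈ par i, G.Adj x p) ∧ ∀ p ∈ par i, ¬ s(p, x) ∈ UE) ∧
          ∀ w ∈ col i, ¬ (x, w) ∈ US) (av i)
        (fun x u => x = u) zero_le_one le_rfl
        fun u => by
          have : (cnt fun x => x = u) ≤ 1 := by
            rw [cnt_def]
            exact Finset.card_le_one.mpr fun a ha b hb =>
              (Finset.mem_filter.mp ha).2.trans (Finset.mem_filter.mp hb).2.symm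
          exact_mod_cast this
      rw [← cnt_def]
      have e4 := hav i
      have e5 := hm h3
      push_cast at e1 e2
      linarith)
    (fun v => (hlp v).trans (hm h1)) (fun w => (hlc w).trans (hm h1))
    (fun i => (hwt i).trans (hm h2))
    (hT.trans (mul_le_mul_of_nonneg_right h2 (by positivity)))
  simp only [Finset.mem_filter, Finset.mem_univ, true_and] at hz1
  have hcz := fun v => cnt_le_load z wt v (hz4 v)
  have e6 := hm h4
  have hηn : 0 ≤ η * n := by positivity
  refine ⟨z, fun i => (hz1 i).1.1.1, fun i h => (hz1 i).2 _ h rfl, ⟨?_, ?_, fun v => ?_,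
    fun v => ?_, fun w => ?_⟩, fun v => (hz4 v).trans ?_⟩
  · refine Multiset.nodup_add.mpr ⟨hOk.ne, hz2, Multiset.disjoint_left.mpr fun {e} he he' => ?_⟩
    obtain ⟨i, _, hi⟩ := Multiset.mem_sum.mp he'
    obtain ⟨p, hp, rfl⟩ := Multiset.mem_map.mp hi
    exact (hz1 i).1.1.2 p hp (by rwa [Sym2.eq_swap])
  · refine Multiset.nodup_add.mpr ⟨hOk.ns, hz3, Multiset.disjoint_left.mpr fun {e} he he' => ?_⟩
    obtain ⟨i, _, hi⟩ := Multiset.mem_sum.mp he'
    obtain ⟨p, hp, rfl⟩ := Multiset.mem_map.mp hi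
    exact (hz1 i).1.2 p hp he
  · rw [bd_add, bd_sum, Multiset.count_add, Multiset.count_sum']
    simp only [bd_map_star, Multiset.count_add]
    rw [Finset.sum_add_distrib, count_val_eq]
    have e1 := (Nat.cast_le (α := ℝ)).mpr (count_const_le par z (fun i => (hpar i).trans hk) v)
    have e2 := hOk.le v
    have e3 := hlp v
    have e4 := hcz v
    rw [Nat.cast_add, Nat.cast_add]
    rw [Nat.cast_mul] at e1
    push_cast at e1 ⊢
    linarith
  · rw [Multiset.map_add, map_finsum, Multiset.count_add, Multiset.count_sum']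
    simp only [Multiset.map_map, Function.comp_def]
    have e1 := (Nat.cast_le (α := ℝ)).mpr (count_const_le col z hcol v)
    have e2 := hOk.lv v
    have e4 := hcz v
    rw [Nat.cast_add]
    rw [Nat.cast_mul] at e1
    push_cast at e1 ⊢
    linarith
  · rw [Multiset.map_add, map_finsum, Multiset.count_add, Multiset.count_sum']
    simp only [Multiset.map_map, Function.comp_def, Multiset.map_id']
    rw [count_val_eq]
    have e2 := hOk.lw w
    have e3 := hlc w
    rw [Nat.cast_add]
    linarith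
  · nlinarith

/-- Greedy choice of colours on unused resources. -/
theorem pickW (ε η : ℝ) (hε : 0 < ε) (hη : 0 < η) : ∃ η' : ℝ, 0 < η' ∧
    ∀ (V W : Type) [Fintype V] [Fintype W] (UE : Multiset (Sym2 V)) (US : Multiset (V × W)),
      ε * Fintype.card V ≤ 2 * Fintype.card W → Ok η' UE US →
      ∀ (I : Type) [Fintype I] (S : I → Finset V) (wt : I → ℕ),
      (∀ i, (S i).card ≤ 6) →
      (∀ v, ((cnt fun i => v ∈ S i : ℕ) : ℝ) ≤ η' * Fintype.card V) →
      (∀ i, (wt i : ℝ) + 1 ≤ η' * Fintype.card V) →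
      (∑ i, ((wt i : ℝ) + 1) ≤ η' * (Fintype.card V : ℝ) ^ 2) →
      ∃ z : I → W, Ok η UE (US + ∑ i, (S i).val.map fun v => (v, z i)) ∧
        ∀ w, ((wsum (fun i => z i = w) fun i => wt i + 1 : ℕ) : ℝ) ≤ η * Fintype.card V := by
  obtain ⟨b, hb, H⟩ := pickW_raw (ε / 4) (by positivity)
  obtain ⟨t, ht, H⟩ := H (η / 10) (by positivity)
  set η' := min (min b t) (min (ε / 24) (η / 10)) with hη'
  have h0 : 0 < η' := lt_min (lt_min hb ht) (lt_min (by positivity) (by positivity))
  have h1 : η' ≤ b := (min_le_left _ _).trans (min_le_left _ _)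
  have h2 : η' ≤ t := (min_le_left _ _).trans (min_le_right _ _)
  have h3 : η' ≤ ε / 24 := (min_le_right _ _).trans (min_le_left _ _)
  have h4 : η' ≤ η / 10 := (min_le_right _ _).trans (min_le_right _ _)
  refine ⟨η', h0, fun V W _ _ UE US hW' hOk I _ S wt hS hl hwt hT => ?_⟩
  set n : ℝ := (Fintype.card V : ℝ) with hn
  have hn0 : 0 ≤ n := Nat.cast_nonneg _
  have hm : ∀ {x : ℝ}, η' ≤ x → η' * n ≤ x * n := fun h => mul_le_mul_of_nonneg_right h hn0
  have hη'n : 0 ≤ η' * n := by positivity
  obtain ⟨z, hz1, hz2, hz4⟩ := H V W I S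
    (fun i => univ.filter fun x => True ∧ ∀ v ∈ S i, ¬ (v, x) ∈ US) wt hS
    (by
      intro i
      have e1 := card_forall_ge (fun _ : W => True) (S i)
        (fun x v => (v, x) ∈ US) hη'n (hS i)
        fun v => by rw [← count_fst_eq_cnt hOk.ns]; exact hOk.lv v
      have e2 : (cnt fun _ : W => True) = Fintype.card W := by
        rw [cnt_def]
        simp
      rw [← cnt_def]
      rw [e2] at e1
      have e5 := hm h3
      push_cast at e1
      linarith)
    (fun v => (hl v).trans (hm h1))
    (fun i => (hwt i).trans (hm h2))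
    (hT.trans (mul_le_mul_of_nonneg_right h2 (by positivity)))
  simp only [Finset.mem_filter, Finset.mem_univ, true_and] at hz1
  have hcz := fun v => cnt_le_load z wt v (hz4 v)
  have e6 := hm h4
  have hηn : 0 ≤ η * n := by positivity
  refine ⟨z, ⟨hOk.ne, ?_, fun v => (hOk.le v).trans (by linarith),
    fun v => ?_, fun w => ?_⟩, fun v => (hz4 v).trans ?_⟩
  · refine Multiset.nodup_add.mpr ⟨hOk.ns, hz2, Multiset.disjoint_left.mpr fun {e} he he' => ?_⟩
    obtain ⟨i, _, hi⟩ := Multiset.mem_sum.mp he'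
    obtain ⟨p, hp, rfl⟩ := Multiset.mem_map.mp hi
    exact hz1 i p hp he
  · rw [Multiset.map_add, map_finsum, Multiset.count_add, Multiset.count_sum']
    simp only [Multiset.map_map, Function.comp_def, Multiset.map_id']
    rw [count_val_eq]
    have e2 := hOk.lv v
    have e3 := hl v
    rw [Nat.cast_add]
    linarith
  · rw [Multiset.map_add, map_finsum, Multiset.count_add, Multiset.count_sum']
    simp only [Multiset.map_map, Function.comp_def]
    have e1 := (Nat.cast_le (α := ℝ)).mpr (count_const_le S z hS w)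
    have e2 := hOk.lw w
    have e4 := hcz w
    rw [Nat.cast_add]
    rw [Nat.cast_mul] at e1
    push_cast at e1 ⊢
    linarith
  · nlinarith

end Pool.Agent.Lib.MP_34bdde_co
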