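import Mathlib
import Pool.Agent.Lib.MP_34bdde_co.Greedy

set_option autoImplicit false

open Finset
open scoped Classical

noncomputable section

namespace Pool.Agent.Lib.MP_34bdde_co

/- PLAN. pickW on I × Bool gives colours w i (slots of a i, b i, b' i) and w' i (slots of
d i, b i, b' i). pickV on I × Fin 3 (parents b i, b' i; colours w i, w' i) gives p, c, c'.
Holes: (w, p, c), (w, a, c'), (w', p, c), (w', d, c'), all single; fillers b, b' in both colours;
A = the six edges from p, c, c' to b, b'.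
State true:  w: p-b-c, a-b'-c';  w': p-b'-c, d-b-c'.
State false: w: p-b'-c, a-b-c';  w': p-b-c, d-b'-c'.  Use Rz.single, Rz.add, Rz.sum, Rz.bal.
(w i is different from w' i because the slots (b i, w i), (b i, w' i) are distinct.) -/

lemma sw_cnt_prod_le {I K : Type} [Fintype I] [Fintype K] {p : I × K → Prop} {q : I → Prop}
    (h : ∀ i k, p (i, k) → q i) : cnt p ≤ Fintype.card K * cnt q := by
  unfold cnt
  rw [mul_comm, ← Finset.card_univ, ← Finset.card_product]
  refine Finset.card_le_card fun x hx => ?_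
  simp only [Finset.mem_filter, Finset.mem_univ, true_and, Finset.mem_product, and_true] at hx ⊢
  exact h x.1 x.2 hx

lemma sw_cnt_ex_le {I K : Type} [Fintype I] [Fintype K] (p : I × K → Prop) :
    (cnt fun i => ∃ k, p (i, k)) ≤ cnt p := by
  unfold cnt
  refine le_trans (Finset.card_le_card ?_) (Finset.card_image_le (f := Prod.fst))
  intro i hi
  simp only [Finset.mem_filter, Finset.mem_univ, true_and] at hi
  obtain ⟨k, hk⟩ := hi
  exact Finset.mem_image.mpr ⟨(i, k), by simpa using hk, rfl⟩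

lemma sw_val2 {α : Type} {x y : α} (h : x ≠ y) : ({x, y} : Finset α).val = {x} + {y} := by
  rw [Finset.insert_val_of_notMem (by simpa using h)]
  rfl

lemma sw_val3 {α : Type} {x y z : α} (h1 : x ≠ y) (h2 : x ≠ z) (h3 : y ≠ z) :
    ({x, y, z} : Finset α).val = {x} + {y} + {z} := by
  rw [Finset.insert_val_of_notMem (by simp [h1, h2]), sw_val2 h3, add_assoc]
  rfl

lemma sw_slots_sum {V W I : Type} (s : Finset I) (O : I → Multiset (Hole V W))
    (Φ : I → Multiset (V × W)) :
    slots (∑ i ∈ s, O i) (∑ i ∈ s, Φ i) = ∑ i ∈ s, slots (O i) (Φ i) := by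
  induction s using Finset.induction_on with
  | empty => simp [slots]
  | insert a s ha ih => rw [Finset.sum_insert ha, Finset.sum_insert ha, Finset.sum_insert ha,
      slots_add, ih]

lemma sw_single {V W : Type} (w : W) (a c y : V) :
    Rz {(⟨w, a, c, false⟩ : Hole V W)} {(y, w)} ({s(a, y)} + {s(c, y)}) := by
  rw [Sym2.eq_swap (a := c)]
  exact Rz.single w a c y

lemma sw_rz_congr {V W : Type} {O O' : Multiset (Hole V W)} {Φ Φ' : Multiset (V × W)}
    {M M' : Multiset (Sym2 V)} (h : Rz O Φ M) (h1 : O = O') (h2 : Φ = Φ') (h3 : M = M') :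
    Rz O' Φ' M' := h1 ▸ h2 ▸ h3 ▸ h

lemma sw_one_le {η : ℝ} (hη : 0 < η) {n : ℕ} (h : ⌈1 / η⌉₊ ≤ n) : 1 ≤ η * n := by
  have h1 : 1 / η ≤ n := Nat.ceil_le.mp h
  rw [div_le_iff₀ hη] at h1
  linarith

lemma sw_cnt_le_of_wsum {I : Type} [Fintype I] {p : I → Prop} {b : ℝ}
    (h : ((wsum p fun i => (fun _ : I => 0) i + 1 : ℕ) : ℝ) ≤ b) : ((cnt p : ℕ) : ℝ) ≤ b :=
  (Nat.cast_le.mpr (cnt_le_wsum p fun _ => 0)).trans h

/-- Switches along alternating 4-cycles. -/
theorem compile4 (ε η : ℝ) (hε : 0 < ε) (hη : 0 < η) : ∃ η' : ℝ, 0 < η' ∧ ∃ n0 : ℕ,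
    ∀ (V W : Type) [Fintype V] [Fintype W] (G : SimpleGraph V) (md : Bool)
      (UE : Multiset (Sym2 V)) (US : Multiset (V × W)),
      n0 ≤ Fintype.card V → Env W G md ε → Ok η' UE US →
      ∀ (I : Type) [Fintype I] (a d b b' : I → V),
      (∀ i, b i ≠ b' i ∧ a i ≠ b i ∧ a i ≠ b' i ∧ d i ≠ b i ∧ d i ≠ b' i) →
      (∀ v, ((cnt fun i => a i = v ∨ d i = v ∨ b i = v ∨ b' i = v : ℕ) : ℝ) ≤
        η' * Fintype.card V) →
      ∃ A O Φ, Good G md η UE US A O Φ ∧ ∀ σ : I → Bool,
        Rz O Φ (A + ∑ i, if σ i then {s(a i, b' i), s(d i, b i)}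
          else {s(a i, b i), s(d i, b' i)}) := by
  obtain ⟨η₂, hη₂, hV⟩ := pickV ε η hε hη
  obtain ⟨η₁, hη₁, hW⟩ := pickW ε (η₂ / 3) hε (by positivity)
  have hη' : 0 < min (η₁ / 2) (η₂ / 3) := lt_min (by positivity) (by positivity)
  refine ⟨min (η₁ / 2) (η₂ / 3), hη', ⌈1 / min (η₁ / 2) (η₂ / 3)⌉₊, ?_⟩
  intro V W _ _ G md UE US hn hE hOk I _ a d b b' hne hload
  have h1 := sw_one_le hη' hn
  have hm1 : min (η₁ / 2) (η₂ / 3) ≤ η₁ / 2 := min_le_left _ _
  have hm2 : min (η₁ / 2) (η₂ / 3) ≤ η₂ / 3 := min_le_right _ _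
  set η' := min (η₁ / 2) (η₂ / 3)
  set n : ℝ := (Fintype.card V : ℝ) with hndef
  have hn0 : 0 ≤ n := Nat.cast_nonneg _
  have hI : (Fintype.card I : ℝ) ≤ n * (η' * n) :=
    card_le_of_load a fun v => (Nat.cast_le.mpr (cnt_mono fun i h => Or.inl h)).trans (hload v)
  have k1 : η' * n ≤ η₁ / 2 * n := by gcongr
  have k2 : η' * n ≤ η₂ / 3 * n := by gcongr
  have k3 : n * (η' * n) ≤ n * (η₁ / 2 * n) := by gcongr
  have k4 : n * (η' * n) ≤ n * (η₂ / 3 * n) := by gcongr
  obtain ⟨cw, hOk1, hcw⟩ := hW V W UE US hE.w1 (hOk.mono (by linarith) le_rfl le_rfl) (I × Bool)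
    (fun p => {if p.2 then a p.1 else d p.1, b p.1, b' p.1}) (fun _ => 0)
    (fun p => Finset.card_le_three.trans (by norm_num))
    (fun v => by
      have h2 : (cnt fun p : I × Bool =>
          v ∈ ({if p.2 then a p.1 else d p.1, b p.1, b' p.1} : Finset V)) ≤
          Fintype.card Bool * cnt fun i => a i = v ∨ d i = v ∨ b i = v ∨ b' i = v := by
        refine sw_cnt_prod_le fun i t h => ?_
        cases t <;> simp only [Finset.mem_insert, Finset.mem_singleton] at h <;>
          rcases h with h | h | h <;> simp [h]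
      have h3 := hload v
      have h4 := (Nat.cast_le (α := ℝ)).mpr h2
      simp only [Fintype.card_bool, Nat.cast_mul, Nat.cast_ofNat] at h4
      linarith)
    (fun _ => by simp only [Nat.cast_zero, zero_add]; linarith)
    (by
      simp only [Nat.cast_zero, zero_add, Finset.sum_const, Finset.card_univ, Fintype.card_prod,
        Fintype.card_bool, nsmul_eq_mul, Nat.cast_mul, Nat.cast_ofNat, mul_one]
      nlinarith)
  have hS : (∑ p : I × Bool, (({if p.2 then a p.1 else d p.1, b p.1, b' p.1} : Finset V).val.map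
      fun v => (v, cw p))) = ∑ i, (({(a i, cw (i, true))} + {(b i, cw (i, true))} +
        {(b' i, cw (i, true))}) + ({(d i, cw (i, false))} + {(b i, cw (i, false))} +
        {(b' i, cw (i, false))}) : Multiset (V × W)) := by
    rw [Fintype.sum_prod_type]
    refine Finset.sum_congr rfl fun i _ => ?_
    obtain ⟨e1, e2, e3, e4, e5⟩ := hne i
    rw [Fintype.sum_bool]
    simp only [if_true, Bool.false_eq_true, if_false]
    rw [sw_val3 e2 e3 e1, sw_val3 e4 e5 e1]
    simp only [Multiset.map_add, Multiset.map_singleton]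
  rw [hS] at hOk1
  have hww : ∀ i, cw (i, true) ≠ cw (i, false) := by
    intro i heq
    have h2 := Multiset.nodup_of_le ((Finset.single_le_sum
      (f := fun i => (({(a i, cw (i, true))} + {(b i, cw (i, true))} +
        {(b' i, cw (i, true))}) + ({(d i, cw (i, false))} + {(b i, cw (i, false))} +
        {(b' i, cw (i, false))}) : Multiset (V × W)))
      (fun _ _ => zero_le) (Finset.mem_univ i)).trans (Multiset.le_add_left _ _)) hOk1.ns
    have h3 := (Multiset.nodup_add.mp h2).2.2
    rw [Multiset.disjoint_left] at h3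
    exact h3 (a := (b i, cw (i, true))) (by simp) (by simp [heq])
  obtain ⟨z, hadj, -, hOk2, -⟩ := hV V W G 2 UE _ (by norm_num) hE.d2
    (hOk1.mono (by linarith) le_rfl le_rfl) (I × Fin 3)
    (fun p => {b p.1, b' p.1}) (fun p => {cw (p.1, true), cw (p.1, false)}) (fun _ => ∅)
    (fun _ => 0) (fun _ => Finset.card_le_two) (fun _ => Finset.card_le_two)
    (fun _ => by simp only [Finset.card_empty, Nat.cast_zero]; positivity)
    (fun v => by
      have h2 : (cnt fun p : I × Fin 3 => v ∈ ({b p.1, b' p.1} : Finset V)) ≤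
          Fintype.card (Fin 3) * cnt fun i => a i = v ∨ d i = v ∨ b i = v ∨ b' i = v := by
        refine sw_cnt_prod_le fun i t h => ?_
        simp only [Finset.mem_insert, Finset.mem_singleton] at h
        rcases h with h | h <;> simp [h]
      have h3 := hload v
      have h4 := (Nat.cast_le (α := ℝ)).mpr h2
      simp only [Fintype.card_fin, Nat.cast_mul, Nat.cast_ofNat] at h4
      linarith)
    (fun w => by
      have h2 : (cnt fun p : I × Fin 3 =>
          w ∈ ({cw (p.1, true), cw (p.1, false)} : Finset W)) ≤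
          Fintype.card (Fin 3) * cnt fun i => ∃ t, (fun p => cw p = w) (i, t) := by
        refine sw_cnt_prod_le fun i t h => ?_
        simp only [Finset.mem_insert, Finset.mem_singleton] at h
        rcases h with h | h
        · exact ⟨true, h.symm⟩
        · exact ⟨false, h.symm⟩
      have h3 := sw_cnt_le_of_wsum (hcw w)
      have h4 := (Nat.cast_le (α := ℝ)).mpr
        (h2.trans (Nat.mul_le_mul_left _ (sw_cnt_ex_le fun p => cw p = w)))
      simp only [Fintype.card_fin, Nat.cast_mul, Nat.cast_ofNat] at h4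
      linarith)
    (fun _ => by simp only [Nat.cast_zero, zero_add]; linarith)
    (by
      simp only [Nat.cast_zero, zero_add, Finset.sum_const, Finset.card_univ, Fintype.card_prod,
        Fintype.card_fin, nsmul_eq_mul, Nat.cast_mul, Nat.cast_ofNat, mul_one]
      nlinarith)
  have hA : (∑ p : I × Fin 3, (({b p.1, b' p.1} : Finset V).val.map fun q => s(z p, q))) =
      ∑ i, (({s(z (i, 0), b i)} + {s(z (i, 0), b' i)}) + ({s(z (i, 1), b i)} + {s(z (i, 1), b' i)})
        + ({s(z (i, 2), b i)} + {s(z (i, 2), b' i)}) : Multiset (Sym2 V)) := by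
    rw [Fintype.sum_prod_type]
    refine Finset.sum_congr rfl fun i _ => ?_
    rw [Fin.sum_univ_three]
    simp only [sw_val2 (hne i).1, Multiset.map_add, Multiset.map_singleton]
  have hC : (∑ p : I × Fin 3, (({cw (p.1, true), cw (p.1, false)} : Finset W).val.map
      fun w => (z p, w))) =
      ∑ i, (({(z (i, 0), cw (i, true))} + {(z (i, 0), cw (i, false))}) +
        ({(z (i, 1), cw (i, true))} + {(z (i, 1), cw (i, false))})
        + ({(z (i, 2), cw (i, true))} + {(z (i, 2), cw (i, false))}) : Multiset (V × W)) := by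
    rw [Fintype.sum_prod_type]
    refine Finset.sum_congr rfl fun i _ => ?_
    rw [Fin.sum_univ_three]
    simp only [sw_val2 (hww i), Multiset.map_add, Multiset.map_singleton]
  rw [hA, hC] at hOk2
  let O : I → Multiset (Hole V W) := fun i =>
    {⟨cw (i, true), z (i, 0), z (i, 1), false⟩} + {⟨cw (i, true), a i, z (i, 2), false⟩} +
    {⟨cw (i, false), z (i, 0), z (i, 1), false⟩} + {⟨cw (i, false), d i, z (i, 2), false⟩}
  let Φ : I → Multiset (V × W) := fun i =>
    {(b i, cw (i, true))} + {(b' i, cw (i, true))} + {(b i, cw (i, false))} +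
    {(b' i, cw (i, false))}
  have hRz : ∀ σ : I → Bool, Rz (∑ i, O i) (∑ i, Φ i)
      ((∑ i, (({s(z (i, 0), b i)} + {s(z (i, 0), b' i)}) +
        ({s(z (i, 1), b i)} + {s(z (i, 1), b' i)})
        + ({s(z (i, 2), b i)} + {s(z (i, 2), b' i)}) : Multiset (Sym2 V))) +
        ∑ i, if σ i then {s(a i, b' i), s(d i, b i)} else {s(a i, b i), s(d i, b' i)}) := by
    intro σ
    rw [← Finset.sum_add_distrib]
    refine Rz.sum _ fun i _ => ?_
    cases σ i
    · refine sw_rz_congr ((((sw_single _ _ _ (b' i)).add (sw_single _ _ _ (b i))).add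
        (sw_single _ _ _ (b i))).add (sw_single _ _ _ (b' i))) rfl ?_ ?_
      · simp only [Φ]
        abel
      · simp only [Bool.false_eq_true, if_false, Multiset.insert_eq_cons, ← Multiset.singleton_add]
        abel
    · refine sw_rz_congr ((((sw_single _ _ _ (b i)).add (sw_single _ _ _ (b' i))).add
        (sw_single _ _ _ (b' i))).add (sw_single _ _ _ (b i))) rfl ?_ ?_
      · simp only [Φ]
        abel
      · simp only [if_true, Multiset.insert_eq_cons, ← Multiset.singleton_add]
        abel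
  refine ⟨_, _, _, ⟨?_, ?_, ?_, (hRz fun _ => true).bal⟩, hRz⟩
  · refine hOk2.mono le_rfl le_rfl (le_of_eq ?_)
    rw [sw_slots_sum, add_assoc, ← Finset.sum_add_distrib]
    congr 1
    refine Finset.sum_congr rfl fun i _ => ?_
    simp only [slots, O, Φ, Multiset.add_bind, Multiset.singleton_bind, Hole.frame,
      Multiset.insert_eq_cons, ← Multiset.singleton_add]
    abel
  · intro e he
    obtain ⟨i, -, hi⟩ := Multiset.mem_sum.mp he
    have hb : ∀ k, G.Adj (z (i, k)) (b i) := fun k => hadj (i, k) _ (by simp)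
    have hb' : ∀ k, G.Adj (z (i, k)) (b' i) := fun k => hadj (i, k) _ (by simp)
    simp only [Multiset.mem_add, Multiset.mem_singleton] at hi
    rcases hi with ((rfl | rfl) | (rfl | rfl)) | (rfl | rfl)
    exacts [hb 0, hb' 0, hb 1, hb' 1, hb 2, hb' 2]
  · intro _ h hh
    obtain ⟨i, -, hi⟩ := Multiset.mem_sum.mp hh
    simp only [O, Multiset.mem_add, Multiset.mem_singleton] at hi
    rcases hi with ((rfl | rfl) | rfl) | rfl <;> rfl

end Pool.Agent.Lib.MP_34bdde_co
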