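import Mathlib
import Pool.Agent.Lib.MP_34bdde_co.Sw4

set_option autoImplicit false

open Finset
open scoped Classical

noncomputable section

namespace Pool.Agent.Lib.MP_34bdde_co

/- PLAN. Write x0..x5 for x i 0 .. x i 5.
Mode true: pickV (parents x0, x2, x4, no colour) gives z; three 4-switches
{x0x1, x2z} <-> {x1x2, x0z}, {x2x3, x4z} <-> {x3x4, x2z}, {x4x5, x0z} <-> {x5x0, x4z}
(compile4 with (a, d, b, b') = (x1, z, x2, x0), (x3, z, x4, x2), (x5, z, x0, x4), all in the
state of i); A = A4 + the three edges at z.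
Mode false: put a = x0, a' = x1, y' = x2, b' = x3, b = x4, y = x5 and read the two sides as
true: aa', y'b', by  and false: a'y', b'b, ya.  pickW (all six vertices) gives w. pickV gives
p, r (parents a, b; colour w) and q, r' (parents a', b'; colour w). Holes in colour w: double
hole (p, q), single holes (r, y), (r', y'); fillers a, a', b, b'.
State true: p-a-a'-q, r-b-y, r'-b'-y'. State false: p-b-b'-q, r-a-y, r'-a'-y'.
Two 4-switches: true {pb, ra} / false {pa, rb}; true {qb', r'a'} / false {qa', r'b'}.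
A = A4 + the eight edges at p, r, q, r'. -/

lemma sw_double {V W : Type} (w : W) (a c y y' : V) :
    Rz {(⟨w, a, c, true⟩ : Hole V W)} ({(y, w)} + {(y', w)})
      ({s(a, y)} + {s(y, y')} + {s(c, y')}) := by
  rw [Sym2.eq_swap (a := c)]
  exact Rz.double w a c y y'

/-- Mode `true`: three 4-switches around a common neighbour. -/
theorem compile6_true (ε η : ℝ) (hε : 0 < ε) (hη : 0 < η) : ∃ η' : ℝ, 0 < η' ∧ ∃ n0 : ℕ,
    ∀ (V W : Type) [Fintype V] [Fintype W] (G : SimpleGraph V)
      (UE : Multiset (Sym2 V)) (US : Multiset (V × W)),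
      n0 ≤ Fintype.card V → Env W G true ε → Ok η' UE US →
      ∀ (I : Type) [Fintype I] (x : I → Fin 6 → V), (∀ i, Function.Injective (x i)) →
      (∀ v, ((cnt fun i => ∃ k, x i k = v : ℕ) : ℝ) ≤ η' * Fintype.card V) →
      ∃ A O Φ, Good G true η UE US A O Φ ∧ ∀ σ : I → Bool,
        Rz O Φ (A + ∑ i, if σ i then {s(x i 0, x i 1), s(x i 2, x i 3), s(x i 4, x i 5)}
          else {s(x i 1, x i 2), s(x i 3, x i 4), s(x i 5, x i 0)}) := by
  obtain ⟨η₄, hη₄, n₄, h4⟩ := compile4 ε η hε hη
  obtain ⟨η₅, hη₅, hV⟩ := pickV ε (η₄ / 6) hε (by positivity)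
  have hη' : 0 < min η₅ (η₄ / 6) := lt_min hη₅ (by positivity)
  refine ⟨min η₅ (η₄ / 6), hη', max n₄ ⌈1 / min η₅ (η₄ / 6)⌉₊, ?_⟩
  intro V W _ _ G UE US hn hE hOk I _ x hx hload
  have h1 := sw_one_le hη' ((le_max_right _ _).trans hn)
  have hm1 : min η₅ (η₄ / 6) ≤ η₅ := min_le_left _ _
  have hm2 : min η₅ (η₄ / 6) ≤ η₄ / 6 := min_le_right _ _
  set η' := min η₅ (η₄ / 6)
  set n : ℝ := (Fintype.card V : ℝ) with hndef
  have hn0 : 0 ≤ n := Nat.cast_nonneg _
  have hI : (Fintype.card I : ℝ) ≤ n * (η' * n) :=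
    card_le_of_load (fun i => x i 0) fun v =>
      (Nat.cast_le.mpr (cnt_mono fun i h => ⟨0, h⟩)).trans (hload v)
  have k1 : η' * n ≤ η₅ * n := by gcongr
  have k2 : η' * n ≤ η₄ / 6 * n := by gcongr
  have k3 : n * (η' * n) ≤ n * (η₅ * n) := by gcongr
  have hne : ∀ i (k l : Fin 6), k ≠ l → x i k ≠ x i l := fun i k l h h' => h (hx i h')
  obtain ⟨z, hadj, -, hOk1, hz⟩ := hV V W G 3 UE US le_rfl (hE.d3 rfl)
    (hOk.mono hm1 le_rfl le_rfl) I
    (fun i => {x i 0, x i 2, x i 4}) (fun _ => ∅) (fun _ => ∅)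
    (fun _ => 0) (fun _ => Finset.card_le_three) (fun _ => by simp)
    (fun _ => by simp only [Finset.card_empty, Nat.cast_zero]; positivity)
    (fun v => by
      refine le_trans (Nat.cast_le.mpr (cnt_mono fun i h => ?_)) ((hload v).trans k1)
      simp only [Finset.mem_insert, Finset.mem_singleton] at h
      rcases h with h | h | h <;> exact ⟨_, h.symm⟩)
    (fun w => by
      have : (cnt fun _ : I => w ∈ (∅ : Finset W)) = 0 := by simp [cnt]
      rw [this, Nat.cast_zero]
      positivity)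
    (fun _ => by simp only [Nat.cast_zero, zero_add]; linarith)
    (by
      simp only [Nat.cast_zero, zero_add, Finset.sum_const, Finset.card_univ, nsmul_eq_mul,
        mul_one]
      nlinarith)
  have hZ : (∑ i, (({x i 0, x i 2, x i 4} : Finset V).val.map fun q => s(z i, q))) =
      ∑ i, ({s(z i, x i 0)} + {s(z i, x i 2)} + {s(z i, x i 4)} : Multiset (Sym2 V)) := by
    refine Finset.sum_congr rfl fun i _ => ?_
    rw [sw_val3 (hne i 0 2 (by decide)) (hne i 0 4 (by decide)) (hne i 2 4 (by decide))]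
    simp only [Multiset.map_add, Multiset.map_singleton]
  rw [hZ] at hOk1
  have hz0 : ∀ i, G.Adj (z i) (x i 0) := fun i => hadj i _ (by simp)
  have hz2 : ∀ i, G.Adj (z i) (x i 2) := fun i => hadj i _ (by simp)
  have hz4 : ∀ i, G.Adj (z i) (x i 4) := fun i => hadj i _ (by simp)
  obtain ⟨A, O, Φ, hG, hRz⟩ := h4 V W G true _ US ((le_max_left _ _).trans hn) hE
    (hOk1.mono (by linarith) le_rfl (Multiset.le_add_right _ _)) (I × Fin 3)
    (fun p => x p.1 (![1, 3, 5] p.2)) (fun p => z p.1) (fun p => x p.1 (![2, 4, 0] p.2))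
    (fun p => x p.1 (![0, 2, 4] p.2))
    (by
      rintro ⟨i, k⟩
      fin_cases k
      · exact ⟨hne i 2 0 (by decide), hne i 1 2 (by decide), hne i 1 0 (by decide),
          (hz2 i).ne, (hz0 i).ne⟩
      · exact ⟨hne i 4 2 (by decide), hne i 3 4 (by decide), hne i 3 2 (by decide),
          (hz4 i).ne, (hz2 i).ne⟩
      · exact ⟨hne i 0 4 (by decide), hne i 5 0 (by decide), hne i 5 4 (by decide),
          (hz0 i).ne, (hz4 i).ne⟩)
    (fun v => by
      have h2 : (cnt fun p : I × Fin 3 => x p.1 (![1, 3, 5] p.2) = v ∨ z p.1 = v ∨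
          x p.1 (![2, 4, 0] p.2) = v ∨ x p.1 (![0, 2, 4] p.2) = v) ≤
          Fintype.card (Fin 3) * cnt fun i => (∃ k, x i k = v) ∨ z i = v := by
        refine sw_cnt_prod_le fun i t h => ?_
        rcases h with h | h | h | h
        exacts [Or.inl ⟨_, h⟩, Or.inr h, Or.inl ⟨_, h⟩, Or.inl ⟨_, h⟩]
      have h3 := hload v
      have h5 := sw_cnt_le_of_wsum (hz v)
      have h6 := (Nat.cast_le (α := ℝ)).mpr
        (h2.trans (Nat.mul_le_mul_left _ (cnt_or_le _ _)))
      simp only [Fintype.card_fin, Nat.cast_mul, Nat.cast_ofNat, Nat.cast_add] at h6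
      linarith)
  refine ⟨A + ∑ i, ({s(z i, x i 0)} + {s(z i, x i 2)} + {s(z i, x i 4)} : Multiset (Sym2 V)),
    O, Φ, ⟨?_, ?_, hG.sgl, hG.bal⟩, fun σ => ?_⟩
  · refine hG.ok.mono le_rfl (le_of_eq ?_) le_rfl
    abel
  · intro e he
    rcases Multiset.mem_add.mp he with he | he
    · exact hG.sub e he
    · obtain ⟨i, -, hi⟩ := Multiset.mem_sum.mp he
      simp only [Multiset.mem_add, Multiset.mem_singleton] at hi
      rcases hi with (rfl | rfl) | rfl
      exacts [hz0 i, hz2 i, hz4 i]
  · refine sw_rz_congr (hRz fun p => σ p.1) rfl rfl ?_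
    rw [add_assoc, ← Finset.sum_add_distrib, Fintype.sum_prod_type]
    congr 1
    refine Finset.sum_congr rfl fun i _ => ?_
    rw [Fin.sum_univ_three]
    cases σ i
    · simp only [Bool.false_eq_true, if_false, Multiset.insert_eq_cons, ← Multiset.singleton_add,
        Matrix.cons_val_zero, Matrix.cons_val_one, Matrix.cons_val]
      abel
    · simp only [if_true, Multiset.insert_eq_cons, ← Multiset.singleton_add,
        Matrix.cons_val_zero, Matrix.cons_val_one, Matrix.cons_val]
      rw [Sym2.eq_swap (a := x i 1), Sym2.eq_swap (a := x i 3), Sym2.eq_swap (a := x i 5)]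
      abel

lemma sw_val6 {α : Type} (x : Fin 6 → α) (hx : Function.Injective x) :
    ((univ : Finset (Fin 6)).map ⟨x, hx⟩).val = {x 0} + {x 1} + {x 2} + {x 3} + {x 4} + {x 5} :=
  rfl

/-- Mode `false`: a double hole, two single holes and two 4-switches. -/
theorem compile6_false (ε η : ℝ) (hε : 0 < ε) (hη : 0 < η) : ∃ η' : ℝ, 0 < η' ∧ ∃ n0 : ℕ,
    ∀ (V W : Type) [Fintype V] [Fintype W] (G : SimpleGraph V)
      (UE : Multiset (Sym2 V)) (US : Multiset (V × W)),
      n0 ≤ Fintype.card V → Env W G false ε → Ok η' UE US →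
      ∀ (I : Type) [Fintype I] (x : I → Fin 6 → V), (∀ i, Function.Injective (x i)) →
      (∀ v, ((cnt fun i => ∃ k, x i k = v : ℕ) : ℝ) ≤ η' * Fintype.card V) →
      ∃ A O Φ, Good G false η UE US A O Φ ∧ ∀ σ : I → Bool,
        Rz O Φ (A + ∑ i, if σ i then {s(x i 0, x i 1), s(x i 2, x i 3), s(x i 4, x i 5)}
          else {s(x i 1, x i 2), s(x i 3, x i 4), s(x i 5, x i 0)}) := by
  obtain ⟨η₄, hη₄, n₄, h4⟩ := compile4 ε η hε hη
  obtain ⟨η₅, hη₅, hV⟩ := pickV ε (η₄ / 4) hε (by positivity)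
  obtain ⟨η₆, hη₆, hW⟩ := pickW ε (η₅ / 4) hε (by positivity)
  have hη' : 0 < min (min η₆ (η₅ / 4)) (η₄ / 4) :=
    lt_min (lt_min hη₆ (by positivity)) (by positivity)
  refine ⟨min (min η₆ (η₅ / 4)) (η₄ / 4), hη', max n₄ ⌈1 / min (min η₆ (η₅ / 4)) (η₄ / 4)⌉₊, ?_⟩
  intro V W _ _ G UE US hn hE hOk I _ x hx hload
  have h1 := sw_one_le hη' ((le_max_right _ _).trans hn)
  have hm1 : min (min η₆ (η₅ / 4)) (η₄ / 4) ≤ η₆ := (min_le_left _ _).trans (min_le_left _ _)
  have hm2 : min (min η₆ (η₅ / 4)) (η₄ / 4) ≤ η₅ / 4 := (min_le_left _ _).trans (min_le_right _ _)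
  have hm3 : min (min η₆ (η₅ / 4)) (η₄ / 4) ≤ η₄ / 4 := min_le_right _ _
  set η' := min (min η₆ (η₅ / 4)) (η₄ / 4)
  set n : ℝ := (Fintype.card V : ℝ) with hndef
  have hn0 : 0 ≤ n := Nat.cast_nonneg _
  have hI : (Fintype.card I : ℝ) ≤ n * (η' * n) :=
    card_le_of_load (fun i => x i 0) fun v =>
      (Nat.cast_le.mpr (cnt_mono fun i h => ⟨0, h⟩)).trans (hload v)
  have k1 : η' * n ≤ η₆ * n := by gcongr
  have k2 : η' * n ≤ η₅ / 4 * n := by gcongr
  have k3 : η' * n ≤ η₄ / 4 * n := by gcongr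
  have k4 : n * (η' * n) ≤ n * (η₆ * n) := by gcongr
  have k5 : n * (η' * n) ≤ n * (η₅ / 4 * n) := by gcongr
  have hne : ∀ i (k l : Fin 6), k ≠ l → x i k ≠ x i l := fun i k l h h' => h (hx i h')
  obtain ⟨cw, hOk1, hcw⟩ := hW V W UE US hE.w1 (hOk.mono hm1 le_rfl le_rfl) I
    (fun i => (univ : Finset (Fin 6)).map ⟨x i, hx i⟩) (fun _ => 0)
    (fun i => by simp)
    (fun v => by
      refine le_trans (Nat.cast_le.mpr (cnt_mono fun i h => ?_)) ((hload v).trans k1)
      simpa using h)
    (fun _ => by simp only [Nat.cast_zero, zero_add]; linarith)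
    (by
      simp only [Nat.cast_zero, zero_add, Finset.sum_const, Finset.card_univ, nsmul_eq_mul,
        mul_one]
      nlinarith)
  simp only [sw_val6, Multiset.map_add, Multiset.map_singleton] at hOk1
  obtain ⟨z, hadj, -, hOk2, hz⟩ := hV V W G 2 UE _ (by norm_num) hE.d2
    (hOk1.mono (by linarith) le_rfl le_rfl) (I × Bool × Bool)
    (fun p => if p.2.1 then {x p.1 0, x p.1 4} else {x p.1 1, x p.1 3}) (fun p => {cw p.1})
    (fun _ => ∅) (fun _ => 0)
    (fun p => by split_ifs <;> exact Finset.card_le_two) (fun _ => by simp)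
    (fun _ => by simp only [Finset.card_empty, Nat.cast_zero]; positivity)
    (fun v => by
      have h2 : (cnt fun p : I × Bool × Bool =>
          v ∈ (if p.2.1 then {x p.1 0, x p.1 4} else {x p.1 1, x p.1 3} : Finset V)) ≤
          Fintype.card (Bool × Bool) * cnt fun i => ∃ k, x i k = v := by
        refine sw_cnt_prod_le fun i t h => ?_
        split_ifs at h <;> simp only [Finset.mem_insert, Finset.mem_singleton] at h <;>
          rcases h with h | h <;> exact ⟨_, h.symm⟩
      have h3 := hload v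
      have h5 := (Nat.cast_le (α := ℝ)).mpr h2
      simp only [Fintype.card_prod, Fintype.card_bool, Nat.cast_mul, Nat.cast_ofNat] at h5
      linarith)
    (fun w => by
      have h2 : (cnt fun p : I × Bool × Bool => w ∈ ({cw p.1} : Finset W)) ≤
          Fintype.card (Bool × Bool) * cnt fun i => cw i = w :=
        sw_cnt_prod_le fun i t h => (Finset.mem_singleton.mp h).symm
      have h3 := sw_cnt_le_of_wsum (hcw w)
      have h5 := (Nat.cast_le (α := ℝ)).mpr h2
      simp only [Fintype.card_prod, Fintype.card_bool, Nat.cast_mul, Nat.cast_ofNat] at h5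
      linarith)
    (fun _ => by simp only [Nat.cast_zero, zero_add]; linarith)
    (by
      simp only [Nat.cast_zero, zero_add, Finset.sum_const, Finset.card_univ, Fintype.card_prod,
        Fintype.card_bool, nsmul_eq_mul, Nat.cast_mul, Nat.cast_ofNat, mul_one]
      nlinarith)
  have hZ : (∑ p : I × Bool × Bool,
      ((if p.2.1 then {x p.1 0, x p.1 4} else {x p.1 1, x p.1 3} : Finset V).val.map
        fun q => s(z p, q))) =
      ∑ i, ((({s(z (i, true, true), x i 0)} + {s(z (i, true, true), x i 4)}) +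
        ({s(z (i, true, false), x i 0)} + {s(z (i, true, false), x i 4)})) +
        (({s(z (i, false, true), x i 1)} + {s(z (i, false, true), x i 3)}) +
        ({s(z (i, false, false), x i 1)} + {s(z (i, false, false), x i 3)})) :
          Multiset (Sym2 V)) := by
    rw [Fintype.sum_prod_type]
    refine Finset.sum_congr rfl fun i _ => ?_
    simp only [Fintype.sum_prod_type, Fintype.sum_bool, if_true, Bool.false_eq_true, if_false,
      sw_val2 (hne i 0 4 (by decide)), sw_val2 (hne i 1 3 (by decide)), Multiset.map_add,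
      Multiset.map_singleton]
  have hC : (∑ p : I × Bool × Bool, (({cw p.1} : Finset W).val.map fun w => (z p, w))) =
      ∑ i, (({(z (i, true, true), cw i)} + {(z (i, true, false), cw i)}) +
        ({(z (i, false, true), cw i)} + {(z (i, false, false), cw i)}) : Multiset (V × W)) := by
    rw [Fintype.sum_prod_type]
    refine Finset.sum_congr rfl fun i _ => ?_
    simp only [Fintype.sum_prod_type, Fintype.sum_bool, Finset.singleton_val,
      Multiset.map_singleton]
  rw [hZ, hC] at hOk2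
  have hz0 : ∀ i t, G.Adj (z (i, true, t)) (x i 0) := fun i t => hadj (i, true, t) _ (by simp)
  have hz4 : ∀ i t, G.Adj (z (i, true, t)) (x i 4) := fun i t => hadj (i, true, t) _ (by simp)
  have hz1 : ∀ i t, G.Adj (z (i, false, t)) (x i 1) := fun i t => hadj (i, false, t) _ (by simp)
  have hz3 : ∀ i t, G.Adj (z (i, false, t)) (x i 3) := fun i t => hadj (i, false, t) _ (by simp)
  obtain ⟨A, O, Φ, hG, hRz⟩ := h4 V W G false _ _ ((le_max_left _ _).trans hn) hE
    (hOk2.mono (by linarith) le_rfl le_rfl) (I × Bool)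
    (fun p => z (p.1, p.2, true)) (fun p => z (p.1, p.2, false))
    (fun p => x p.1 (if p.2 then 0 else 1)) (fun p => x p.1 (if p.2 then 4 else 3))
    (by
      rintro ⟨i, t⟩
      cases t
      · exact ⟨hne i 1 3 (by decide), (hz1 i _).ne, (hz3 i _).ne, (hz1 i _).ne, (hz3 i _).ne⟩
      · exact ⟨hne i 0 4 (by decide), (hz0 i _).ne, (hz4 i _).ne, (hz0 i _).ne, (hz4 i _).ne⟩)
    (fun v => by
      have h2 : (cnt fun p : I × Bool => z (p.1, p.2, true) = v ∨ z (p.1, p.2, false) = v ∨
          x p.1 (if p.2 then 0 else 1) = v ∨ x p.1 (if p.2 then 4 else 3) = v) ≤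
          Fintype.card Bool * cnt fun i => (∃ k, x i k = v) ∨ ∃ k, (fun p => z p = v) (i, k) := by
        refine sw_cnt_prod_le fun i t h => ?_
        rcases h with h | h | h | h
        exacts [Or.inr ⟨_, h⟩, Or.inr ⟨_, h⟩, Or.inl ⟨_, h⟩, Or.inl ⟨_, h⟩]
      have h3 := hload v
      have h5 := sw_cnt_le_of_wsum (hz v)
      have h6 := (Nat.cast_le (α := ℝ)).mpr
        (h2.trans (Nat.mul_le_mul_left _ ((cnt_or_le _ _).trans
          (Nat.add_le_add_left (sw_cnt_ex_le fun p => z p = v) _))))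
      simp only [Fintype.card_bool, Nat.cast_mul, Nat.cast_ofNat, Nat.cast_add] at h6
      linarith)
  let O6 : I → Multiset (Hole V W) := fun i =>
    {⟨cw i, z (i, true, true), z (i, false, true), true⟩} +
    {⟨cw i, z (i, true, false), x i 5, false⟩} + {⟨cw i, z (i, false, false), x i 2, false⟩}
  let Φ6 : I → Multiset (V × W) := fun i =>
    {(x i 0, cw i)} + {(x i 1, cw i)} + {(x i 3, cw i)} + {(x i 4, cw i)}
  have hRz6 : ∀ σ : I → Bool, Rz (O + ∑ i, O6 i) (Φ + ∑ i, Φ6 i)
      ((A + ∑ i, ((({s(z (i, true, true), x i 0)} + {s(z (i, true, true), x i 4)}) +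
        ({s(z (i, true, false), x i 0)} + {s(z (i, true, false), x i 4)})) +
        (({s(z (i, false, true), x i 1)} + {s(z (i, false, true), x i 3)}) +
        ({s(z (i, false, false), x i 1)} + {s(z (i, false, false), x i 3)})) :
          Multiset (Sym2 V))) +
        ∑ i, if σ i then {s(x i 0, x i 1), s(x i 2, x i 3), s(x i 4, x i 5)}
          else {s(x i 1, x i 2), s(x i 3, x i 4), s(x i 5, x i 0)}) := by
    intro σ
    have h6 : Rz (∑ i, O6 i) (∑ i, Φ6 i) (∑ i, if σ i then
        ({s(z (i, true, true), x i 0)} + {s(x i 0, x i 1)} + {s(z (i, false, true), x i 1)} +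
          ({s(z (i, true, false), x i 4)} + {s(x i 5, x i 4)}) +
          ({s(z (i, false, false), x i 3)} + {s(x i 2, x i 3)}) : Multiset (Sym2 V))
        else {s(z (i, true, true), x i 4)} + {s(x i 4, x i 3)} + {s(z (i, false, true), x i 3)} +
          ({s(z (i, true, false), x i 0)} + {s(x i 5, x i 0)}) +
          ({s(z (i, false, false), x i 1)} + {s(x i 2, x i 1)})) := by
      refine Rz.sum _ fun i _ => ?_
      cases σ i
      · refine sw_rz_congr (((sw_double _ _ _ (x i 4) (x i 3)).add (sw_single _ _ _ (x i 0))).add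
          (sw_single _ _ _ (x i 1))) rfl ?_ rfl
        simp only [Φ6]
        abel
      · refine sw_rz_congr (((sw_double _ _ _ (x i 0) (x i 1)).add (sw_single _ _ _ (x i 4))).add
          (sw_single _ _ _ (x i 3))) rfl ?_ rfl
        simp only [Φ6]
        abel
    refine sw_rz_congr ((hRz fun p => σ p.1).add h6) rfl rfl ?_
    rw [add_assoc, add_assoc, ← Finset.sum_add_distrib, Fintype.sum_prod_type,
      ← Finset.sum_add_distrib]
    congr 1
    refine Finset.sum_congr rfl fun i _ => ?_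
    rw [Fintype.sum_bool]
    cases σ i
    · simp only [Bool.false_eq_true, if_false, if_true, Multiset.insert_eq_cons,
        ← Multiset.singleton_add]
      rw [Sym2.eq_swap (a := x i 4) (b := x i 3), Sym2.eq_swap (a := x i 2) (b := x i 1)]
      abel
    · simp only [Bool.false_eq_true, if_false, if_true, Multiset.insert_eq_cons,
        ← Multiset.singleton_add]
      rw [Sym2.eq_swap (a := x i 5) (b := x i 4)]
      abel
  refine ⟨_, _, _, ⟨?_, ?_, fun h => absurd h (by decide), (hRz6 fun _ => true).bal⟩, hRz6⟩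
  · refine hG.ok.mono le_rfl (le_of_eq ?_) (le_of_eq ?_)
    · abel
    · rw [slots_add, sw_slots_sum, add_comm (slots O Φ), ← add_assoc US,
        add_assoc US (∑ i, _) (∑ i, _), ← Finset.sum_add_distrib]
      congr 2
      refine Finset.sum_congr rfl fun i _ => ?_
      simp only [slots, O6, Φ6, Multiset.add_bind, Multiset.singleton_bind, Hole.frame,
        Multiset.insert_eq_cons, ← Multiset.singleton_add]
      abel
  · intro e he
    rcases Multiset.mem_add.mp he with he | he
    · exact hG.sub e he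
    · obtain ⟨i, -, hi⟩ := Multiset.mem_sum.mp he
      simp only [Multiset.mem_add, Multiset.mem_singleton] at hi
      rcases hi with ((rfl | rfl) | (rfl | rfl)) | ((rfl | rfl) | (rfl | rfl))
      exacts [hz0 i _, hz4 i _, hz0 i _, hz4 i _, hz1 i _, hz3 i _, hz1 i _, hz3 i _]

/-- Switches along alternating 6-cycles. -/
theorem compile6 (ε η : ℝ) (hε : 0 < ε) (hη : 0 < η) : ∃ η' : ℝ, 0 < η' ∧ ∃ n0 : ℕ,
    ∀ (V W : Type) [Fintype V] [Fintype W] (G : SimpleGraph V) (md : Bool)
      (UE : Multiset (Sym2 V)) (US : Multiset (V × W)),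
      n0 ≤ Fintype.card V → Env W G md ε → Ok η' UE US →
      ∀ (I : Type) [Fintype I] (x : I → Fin 6 → V), (∀ i, Function.Injective (x i)) →
      (∀ v, ((cnt fun i => ∃ k, x i k = v : ℕ) : ℝ) ≤ η' * Fintype.card V) →
      ∃ A O Φ, Good G md η UE US A O Φ ∧ ∀ σ : I → Bool,
        Rz O Φ (A + ∑ i, if σ i then {s(x i 0, x i 1), s(x i 2, x i 3), s(x i 4, x i 5)}
          else {s(x i 1, x i 2), s(x i 3, x i 4), s(x i 5, x i 0)}) := by
  obtain ⟨η₁, hη₁, n₁, h₁⟩ := compile6_true ε η hε hη
  obtain ⟨η₂, hη₂, n₂, h₂⟩ := compile6_false ε η hε hη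
  refine ⟨min η₁ η₂, lt_min hη₁ hη₂, max n₁ n₂, ?_⟩
  intro V W _ _ G md UE US hn hE hOk I _ x hx hload
  cases md
  · exact h₂ V W G UE US ((le_max_right _ _).trans hn) hE
      (hOk.mono (min_le_right _ _) le_rfl le_rfl) I x hx fun v => (hload v).trans
        (mul_le_mul_of_nonneg_right (min_le_right _ _) (Nat.cast_nonneg _))
  · exact h₁ V W G UE US ((le_max_left _ _).trans hn) hE
      (hOk.mono (min_le_left _ _) le_rfl le_rfl) I x hx fun v => (hload v).trans
        (mul_le_mul_of_nonneg_right (min_le_left _ _) (Nat.cast_nonneg _))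

end Pool.Agent.Lib.MP_34bdde_co
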