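import Mathlib
import Pool.Agent.Lib.MP_34bdde_co.Sw6

set_option autoImplicit false

open Finset
open scoped Classical

noncomputable section

namespace Pool.Agent.Lib.MP_34bdde_co

/- PLAN. For every switch i in the range of sw choose a hub o i (pickV on the subtype, no parent,
no colour, avoiding all u j, v j with sw j = i, weight 64). For every corner j choose z j
(parents o (sw j), u j; avoiding all u j', v j' of the same switch). The edges at the hub are
distinct, so z j is different from z (nx j). Corner j gives the 6-cycle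
(o, z j, u j, v j, u (nx j), z (nx j)): true side {o z j, u j v j, u (nx j) z (nx j)}, false side
{z j u j, v j u (nx j), z (nx j) o}. Apply compile6 with state sigma (sw j); reindex the sums
over nx (Equiv.sum_comp). A = A6 + the edges z j o, z j u j. -/

lemma walk_inj6 {V : Type} {a b c d e f : V} (h1 : a ≠ b) (h2 : a ≠ c) (h3 : a ≠ d) (h4 : a ≠ e)
    (h5 : a ≠ f) (h6 : b ≠ c) (h7 : b ≠ d) (h8 : b ≠ e) (h9 : b ≠ f) (h10 : c ≠ d) (h11 : c ≠ e)
    (h12 : c ≠ f) (h13 : d ≠ e) (h14 : d ≠ f) (h15 : e ≠ f) :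
    Function.Injective ![a, b, c, d, e, f] := by
  rw [← List.nodup_ofFn]
  simp [List.ofFn_succ, *]

lemma walk_nodup_ne {α J : Type} [Fintype J] {M : J → Multiset α} (h : (∑ j, M j).Nodup)
    {i j : J} (hij : i ≠ j) {e : α} (hi : e ∈ M i) (hj : e ∈ M j) : False := by
  have h1 : ∑ k ∈ ({i, j} : Finset J), M k ≤ ∑ k, M k :=
    Finset.sum_le_sum_of_subset (Finset.subset_univ _)
  rw [Finset.sum_pair hij] at h1
  exact Multiset.disjoint_left.1 (Multiset.nodup_add.1 (Multiset.nodup_of_le h1 h)).2.2 hi hj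

lemma walk_cnt_equiv {J : Type} [Fintype J] (e : J ≃ J) (p : J → Prop) :
    (cnt fun j => p (e j)) ≤ cnt p :=
  cnt_le_of_injOn e (fun _ h => h) fun _ _ _ _ h => e.injective h

lemma walk_cnt_comp {I J V : Type} [Fintype I] [Fintype J] (sw : J → I) (o : I → V) (y : V)
    (h : ∀ i, (cnt fun j => sw j = i) ≤ 32) :
    (cnt fun j => o (sw j) = y) ≤ wsum (fun i => o i = y) fun _ => 31 + 1 := by
  rw [cnt_def, wsum_def]
  refine (Finset.card_le_card (t := (univ.filter fun i => o i = y).biUnion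
    fun i => univ.filter fun j => sw j = i) fun j hj => ?_).trans
    (Finset.card_biUnion_le.trans (Finset.sum_le_sum fun i _ => ?_))
  · simpa using hj
  · exact (cnt_def _).symm.trans_le (h i)

lemma walk_av_card {I J V : Type} [Fintype J] (sw : J → I) (u v : J → V) (i : I)
    (h : (cnt fun j => sw j = i) ≤ 32) :
    (((univ.filter fun j => sw j = i).image u ∪ (univ.filter fun j => sw j = i).image v).card : ℝ)
      ≤ 64 := by
  have h1 := Finset.card_union_le ((univ.filter fun j => sw j = i).image u)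
    ((univ.filter fun j => sw j = i).image v)
  have h2 := Finset.card_image_le (s := univ.filter fun j => sw j = i) (f := u)
  have h3 := Finset.card_image_le (s := univ.filter fun j => sw j = i) (f := v)
  rw [cnt_def] at h
  exact_mod_cast (by omega : _ ≤ 64)

lemma walk_sum {V J : Type} [Fintype J] (nx : J ≃ J) (τ : J → Bool) (hτ : ∀ j, τ (nx j) = τ j)
    (o : J → V) (ho : ∀ j, o (nx j) = o j) (z u v : J → V) :
    (∑ j, if τ j then ({s(o j, z j), s(u j, v j), s(u (nx j), z (nx j))} : Multiset (Sym2 V))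
      else {s(z j, u j), s(v j, u (nx j)), s(z (nx j), o j)}) =
    (∑ j, ({s(z j, o j), s(z j, u j)} : Multiset (Sym2 V))) +
      ∑ j, if τ j then {s(u j, v j)} else {s(v j, u (nx j))} := by
  let C : J → Multiset (Sym2 V) := fun j => if τ j then {s(z j, u j)} else {s(z j, o j)}
  let B : J → Multiset (Sym2 V) := fun j => if τ j then {s(z j, o j)} else {s(z j, u j)}
  have e1 : ∀ j, ({s(z j, o j), s(z j, u j)} : Multiset (Sym2 V)) = B j + C j := by
    intro j
    simp only [B, C]
    split_ifs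
    · rfl
    · exact Multiset.pair_comm _ _
  rw [Finset.sum_congr rfl fun j _ => e1 j, Finset.sum_add_distrib, ← Equiv.sum_comp nx C,
    ← Finset.sum_add_distrib, ← Finset.sum_add_distrib]
  refine Finset.sum_congr rfl fun j _ => ?_
  simp only [B, C, hτ, ho]
  split_ifs
  · rw [Sym2.eq_swap (a := o j), Sym2.eq_swap (a := u (nx j))]
    simp only [Multiset.insert_eq_cons, ← Multiset.singleton_add]
    abel
  · simp only [Multiset.insert_eq_cons, ← Multiset.singleton_add]
    abel

theorem walk_aux (ε η : ℝ) (hε : 0 < ε) (hη : 0 < η) : ∃ η' : ℝ, 0 < η' ∧ ∃ n0 : ℕ,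
    ∀ (V W : Type) [Fintype V] [Fintype W] (G : SimpleGraph V) (md : Bool)
      (UE : Multiset (Sym2 V)) (US : Multiset (V × W)),
      n0 ≤ Fintype.card V → Env W G md ε → Ok η' UE US →
      ∀ (I J : Type) [Fintype I] [Fintype J] (sw : J → I) (nx : J ≃ J) (u v : J → V),
      Function.Surjective sw →
      (∀ j, sw (nx j) = sw j) → (∀ j, nx j ≠ j) → (∀ i, (cnt fun j => sw j = i) ≤ 32) →
      (∀ j, u j ≠ v j ∧ v j ≠ u (nx j) ∧ u j ≠ u (nx j)) →
      (∀ y, ((cnt fun j => u j = y ∨ v j = y : ℕ) : ℝ) ≤ η' * Fintype.card V) →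
      ∃ A O Φ, Good G md η UE US A O Φ ∧ ∀ σ : I → Bool,
        Rz O Φ (A + ∑ j, if σ (sw j) then {s(u j, v j)} else {s(v j, u (nx j))}) := by
  obtain ⟨a, ha, n6, h6⟩ := compile6 ε η hε hη
  obtain ⟨b, hb, h2⟩ := pickV ε (a / 8) hε (by positivity)
  obtain ⟨c, hc, h1⟩ := pickV ε (min (a / 8) (b / 2)) hε (by positivity)
  obtain ⟨m, hm⟩ := exists_nat_ge (64 / min b c)
  refine ⟨min (a / 8) (min (b / 2) (c / 32)), by positivity, max n6 m, ?_⟩
  intro V W _ _ G md UE US hn hE hOk I J _ _ sw nx u v hsurj hsw hnx h32 hne hload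
  set η' := min (a / 8) (min (b / 2) (c / 32)) with hη'
  set n : ℝ := (Fintype.card V : ℝ) with hn'
  have n0 : 0 ≤ n := Nat.cast_nonneg _
  have k1 : η' ≤ a / 8 := min_le_left _ _
  have k2 : η' ≤ b / 2 := (min_le_right _ _).trans (min_le_left _ _)
  have k3 : η' ≤ c / 32 := (min_le_right _ _).trans (min_le_right _ _)
  have k4 : 64 ≤ min b c * n := by
    have : (m : ℝ) ≤ n := Nat.cast_le.2 ((le_max_right _ _).trans hn)
    rw [mul_comm]
    exact (div_le_iff₀ (by positivity)).1 (hm.trans this)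
  have k5 : 64 ≤ b * n := k4.trans (mul_le_mul_of_nonneg_right (min_le_left _ _) n0)
  have k6 : 64 ≤ c * n := k4.trans (mul_le_mul_of_nonneg_right (min_le_right _ _) n0)
  have m1 := mul_le_mul_of_nonneg_right k1 n0
  have m2 := mul_le_mul_of_nonneg_right k2 n0
  have m3 := mul_le_mul_of_nonneg_right k3 n0
  have hu : ∀ y, ((cnt fun j => u j = y : ℕ) : ℝ) ≤ η' * n := fun y =>
    (Nat.cast_le.2 (cnt_mono fun _ h => Or.inl h)).trans (hload y)
  have hJ : (Fintype.card J : ℝ) ≤ n * (η' * n) := card_le_of_load u hu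
  have hI : (Fintype.card I : ℝ) ≤ Fintype.card J :=
    Nat.cast_le.2 (Fintype.card_le_of_surjective sw hsurj)
  let av : I → Finset V := fun i =>
    (univ.filter fun j => sw j = i).image u ∪ (univ.filter fun j => sw j = i).image v
  have hav : ∀ i, ((av i).card : ℝ) ≤ 64 := fun i => walk_av_card sw u v i (h32 i)
  have hav' : ∀ y j j', y ∉ av (sw j) → sw j' = sw j → y ≠ u j' ∧ y ≠ v j' := by
    intro y j j' hy hj
    constructor <;> rintro rfl <;> refine hy ?_
    · exact Finset.mem_union_left _ (Finset.mem_image_of_mem _ (by simpa using hj))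
    · exact Finset.mem_union_right _ (Finset.mem_image_of_mem _ (by simpa using hj))
  have c0 : ∀ {K : Type} [Fintype K], (cnt fun _ : K => False) = 0 := by
    intro K _
    simp [cnt]
  obtain ⟨o, -, ho, -, hoL⟩ := h1 V W G 2 UE US (by norm_num) hE.d2
    (hOk.mono (by linarith) le_rfl le_rfl) I (fun _ => ∅) (fun _ => ∅) av (fun _ => 31)
    (by simp) (by simp) (fun i => (hav i).trans k6)
    (fun _ => by simp only [Finset.notMem_empty, c0, Nat.cast_zero]; positivity)
    (fun _ => by simp only [Finset.notMem_empty, c0, Nat.cast_zero]; positivity)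
    (fun _ => by push_cast; linarith)
    (by
      rw [Finset.sum_const, Finset.card_univ, nsmul_eq_mul]
      push_cast
      nlinarith [mul_le_mul_of_nonneg_left m3 n0])
  have hoc : ∀ y, ((cnt fun j => o (sw j) = y : ℕ) : ℝ) ≤ min (a / 8) (b / 2) * n := fun y =>
    (Nat.cast_le.2 (walk_cnt_comp sw o y h32)).trans (hoL y)
  have m4 := mul_le_mul_of_nonneg_right (min_le_left (a / 8) (b / 2)) n0
  have m5 := mul_le_mul_of_nonneg_right (min_le_right (a / 8) (b / 2)) n0
  have hou : ∀ j j', sw j' = sw j → o (sw j) ≠ u j' ∧ o (sw j) ≠ v j' :=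
    fun j j' => hav' _ j j' (ho _)
  obtain ⟨z, hadj, hz, hOk2, hzL⟩ := h2 V W G 2 UE US (by norm_num) hE.d2
    (hOk.mono (by linarith) le_rfl le_rfl) J (fun j => {o (sw j), u j}) (fun _ => ∅)
    (fun j => av (sw j)) (fun _ => 0) (fun _ => Finset.card_le_two) (by simp)
    (fun j => (hav _).trans k5)
    (fun y => by
      have e : (cnt fun j => y ∈ ({o (sw j), u j} : Finset V)) ≤
          (cnt fun j => o (sw j) = y) + cnt fun j => u j = y :=
        (cnt_mono fun j h => by simpa [eq_comm] using h).trans (cnt_or_le _ _)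
      have e' := (Nat.cast_le (α := ℝ)).2 e
      push_cast at e'
      linarith [hoc y, hu y])
    (fun _ => by simp only [Finset.notMem_empty, c0, Nat.cast_zero]; positivity)
    (fun _ => by push_cast; linarith)
    (by
      rw [Finset.sum_const, Finset.card_univ, nsmul_eq_mul]
      push_cast
      nlinarith [mul_le_mul_of_nonneg_left m2 n0, mul_nonneg hb.le (mul_nonneg n0 n0)])
  have hzc : ∀ y, ((cnt fun j => z j = y : ℕ) : ℝ) ≤ a / 8 * n := fun y =>
    (Nat.cast_le.2 (cnt_le_wsum _ fun _ => 0)).trans (hzL y)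
  have eE : ∀ j, (({o (sw j), u j} : Finset V).val.map fun p => s(z j, p)) =
      {s(z j, o (sw j)), s(z j, u j)} := by
    intro j
    rw [Finset.insert_val_of_notMem (by simpa using (hou j j rfl).1)]
    rfl
  rw [Finset.sum_congr rfl fun j _ => eE j] at hOk2
  simp only [Finset.empty_val, Multiset.map_zero, Finset.sum_const_zero, add_zero] at hOk2
  have a1 : ∀ j, G.Adj (z j) (o (sw j)) := fun j => hadj j _ (by simp)
  have a2 : ∀ j, G.Adj (z j) (u j) := fun j => hadj j _ (by simp)
  have hzu : ∀ j j', sw j' = sw j → z j ≠ u j' ∧ z j ≠ v j' := fun j j' => hav' _ j j' (hz j)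
  have hzz : ∀ j, z j ≠ z (nx j) := fun j h =>
    walk_nodup_ne (Multiset.nodup_add.1 hOk2.ne).2.1 (hnx j).symm (e := s(z j, o (sw j)))
      (by simp) (by rw [← h, hsw]; simp)
  obtain ⟨A, O, Φ, hG, hR⟩ := h6 V W G md _ US ((le_max_left _ _).trans hn) hE
    (hOk2.mono (by linarith) le_rfl le_rfl) J
    (fun j => ![o (sw j), z j, u j, v j, u (nx j), z (nx j)])
    (fun j => walk_inj6 (a1 j).ne' (hou j j rfl).1 (hou j j rfl).2 (hou j _ (hsw j)).1
      (hsw j ▸ (a1 (nx j)).ne') (a2 j).ne (hzu j j rfl).2 (hzu j _ (hsw j)).1 (hzz j) (hne j).1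
      (hne j).2.2 (hzu _ j (hsw j).symm).1.symm (hne j).2.1 (hzu _ j (hsw j).symm).2.symm
      (a2 _).ne')
    (fun y => by
      have e : (cnt fun j => ∃ k, ![o (sw j), z j, u j, v j, u (nx j), z (nx j)] k = y) ≤
          (cnt fun j => o (sw j) = y) + ((cnt fun j => z j = y) +
            ((cnt fun j => u j = y ∨ v j = y) + ((cnt fun j => u (nx j) = y) +
              cnt fun j => z (nx j) = y))) := by
        refine (cnt_mono (q := fun j => o (sw j) = y ∨ z j = y ∨ (u j = y ∨ v j = y) ∨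
          u (nx j) = y ∨ z (nx j) = y) fun j h => ?_).trans ?_
        · simpa [Fin.exists_fin_succ, or_assoc] using h
        · exact (cnt_or_le _ _).trans (Nat.add_le_add_left ((cnt_or_le _ _).trans
            (Nat.add_le_add_left ((cnt_or_le _ _).trans
              (Nat.add_le_add_left (cnt_or_le _ _) _)) _)) _)
      have e' := (Nat.cast_le (α := ℝ)).2 e
      have e1 := (Nat.cast_le (α := ℝ)).2 (walk_cnt_equiv nx fun j => u j = y)
      have e2 := (Nat.cast_le (α := ℝ)).2 (walk_cnt_equiv nx fun j => z j = y)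
      push_cast at e'
      linarith [hoc y, hu y, hzc y, hload y, mul_nonneg ha.le n0])
  refine ⟨(∑ j, {s(z j, o (sw j)), s(z j, u j)}) + A, O, Φ,
    ⟨by rw [← add_assoc]; exact hG.ok, fun e he => ?_, hG.sgl, hG.bal⟩, fun σ => ?_⟩
  · rcases Multiset.mem_add.1 he with he | he
    · obtain ⟨j, -, hj⟩ := Multiset.mem_sum.1 he
      rcases Multiset.mem_cons.1 hj with rfl | hj
      · exact a1 j
      · rw [Multiset.mem_singleton.1 hj]
        exact a2 j
    · exact hG.sub e he
  · rw [add_comm _ A, add_assoc, ← walk_sum nx (fun j => σ (sw j)) (fun j => by rw [hsw])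
      (fun j => o (sw j)) (fun j => by rw [hsw]) z u v]
    exact hR fun j => σ (sw j)

/-- Switches along alternating closed walks `u j, v j, u (nx j), v (nx j), ...` with at most
32 corners. -/
theorem compileW (ε η : ℝ) (hε : 0 < ε) (hη : 0 < η) : ∃ η' : ℝ, 0 < η' ∧ ∃ n0 : ℕ,
    ∀ (V W : Type) [Fintype V] [Fintype W] (G : SimpleGraph V) (md : Bool)
      (UE : Multiset (Sym2 V)) (US : Multiset (V × W)),
      n0 ≤ Fintype.card V → Env W G md ε → Ok η' UE US →
      ∀ (I J : Type) [Fintype J] (sw : J → I) (nx : J ≃ J) (u v : J → V),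
      (∀ j, sw (nx j) = sw j) → (∀ j, nx j ≠ j) → (∀ i, (cnt fun j => sw j = i) ≤ 32) →
      (∀ j, u j ≠ v j ∧ v j ≠ u (nx j) ∧ u j ≠ u (nx j)) →
      (∀ y, ((cnt fun j => u j = y ∨ v j = y : ℕ) : ℝ) ≤ η' * Fintype.card V) →
      ∃ A O Φ, Good G md η UE US A O Φ ∧ ∀ σ : I → Bool,
        Rz O Φ (A + ∑ j, if σ (sw j) then {s(u j, v j)} else {s(v j, u (nx j))}) := by
  obtain ⟨η', hη', n0, h⟩ := walk_aux ε η hε hη
  refine ⟨η', hη', n0, fun V W _ _ G md UE US hn hE hOk I J _ sw nx u v h1 h2 h3 h4 h5 => ?_⟩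
  obtain ⟨A, O, Φ, hG, hR⟩ := h V W G md UE US hn hE hOk (Set.range sw) J
    (Set.rangeFactorization sw) nx u v Set.rangeFactorization_surjective
    (fun j => Subtype.ext (h1 j)) h2
    (fun i => (cnt_mono fun j hj => congrArg Subtype.val hj).trans (h3 i.1)) h4 h5
  exact ⟨A, O, Φ, hG, fun σ => hR fun i => σ i.1⟩

end Pool.Agent.Lib.MP_34bdde_co
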