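import Mathlib
import Pool.Agent.Lib.MP_34bdde_co.Walk

set_option autoImplicit false

open Finset
open scoped Classical

noncomputable section

namespace Pool.Agent.Lib.MP_34bdde_co

/- PLAN. A star t absorbs one loop (degree 2) at base t. The darts d with st d = t are its ports.
pickW: colour w t with the slot (base t, w t), weight 3 * (number of ports) + 3.
pickV four times (all in colour w t): a t (no parent), c t (parent a t), both with weight the
number of ports; y d (parents a t, c t), then aP d, cP d (parents x d, y d), t = st d.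
Holes (single): (w t, a t, c t), (w (st d), aP d, cP d); fillers (base t, w t), (y d, w (st d)).
act d = {x aP, x cP, y a, y c}, inact d = {y aP, y cP}.
compileW on J = D × Fin 4, sw (d, _) = pc d, with (u, v): (d,0) = (x d, x (nxt d)),
(d,1) = (aP d, y d), (d,2) = (a (st d), c (st d)), (d,3) = (y d, cP d) and
nx (d,0) = (nxt d, 1), nx (d,1) = (d,2), nx (d,2) = (d,3), nx (d,3) = (d,0).
True side: edge d + inact d + {a c}; false side: act d (after reindexing by nxt).
A = AW + all edges chosen by pickV = AW + sum (act + inact) + sum of the edges a t c t.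
For ON with st bijective: the centre hole of t is filled by y of the active port, the hole of
port d by x d if ON (pc d) and by y d otherwise: edges act d (ON), inact d (OFF).
Degree identity: Rz.deg for the all-false state of compileW plus the definition of sysDeg.
x d is different from aP (nxt d) since edge d is in UE and the new edges are not. -/

section StarAux

variable {V W : Type}

lemma star_pair {α : Type} (a b : α) : ({a, b} : Multiset α) = {a} + {b} := rfl

lemma star_bind_sum {α β I : Type} (s : Finset I) (M : I → Multiset α) (f : α → Multiset β) :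
    (∑ i ∈ s, M i).bind f = ∑ i ∈ s, (M i).bind f := by
  induction s using Finset.induction_on with
  | empty => simp
  | insert a s ha ih => rw [Finset.sum_insert ha, Finset.sum_insert ha, Multiset.add_bind, ih]

lemma star_map_sum {α β I : Type} (s : Finset I) (M : I → Multiset α) (f : α → β) :
    (∑ i ∈ s, M i).map f = ∑ i ∈ s, (M i).map f := by
  induction s using Finset.induction_on with
  | empty => simp
  | insert a s ha ih => rw [Finset.sum_insert ha, Finset.sum_insert ha, Multiset.map_add, ih]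

lemma star_cnt_comp {D T X : Type} [Fintype D] [Fintype T] (st : D → T) (g : T → X) (v : X) :
    (cnt fun d => g (st d) = v) + (cnt fun t => g t = v) =
      wsum (fun t => g t = v) fun t => (cnt fun d => st d = t) + 1 := by
  unfold wsum
  rw [Finset.sum_add_distrib]
  congr 1
  · unfold cnt
    rw [Finset.card_eq_sum_card_fiberwise (f := st) (t := univ.filter fun t => g t = v)
      (fun d hd => by simpa using hd)]
    refine Finset.sum_congr rfl fun t ht => ?_
    congr 1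
    ext d
    simp only [Finset.mem_filter, Finset.mem_univ, true_and] at ht ⊢
    exact ⟨fun h => h.2, fun h => ⟨by rw [h, ht], h⟩⟩
  · unfold cnt
    rw [Finset.card_eq_sum_ones]

lemma star_cnt_four {D : Type} [Fintype D] (P : D × Fin 4 → Prop) :
    cnt P = (cnt fun d => P (d, 0)) + (cnt fun d => P (d, 1)) + (cnt fun d => P (d, 2)) +
      cnt fun d => P (d, 3) := by
  simp only [cnt_eq_sum]
  rw [Fintype.sum_prod_type_right, Fin.sum_univ_four]

lemma star_cnt_equiv {D : Type} [Fintype D] (e : D ≃ D) (P : D → Prop) :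
    (cnt fun d => P (e d)) = cnt P := by
  simp only [cnt_eq_sum]
  exact Equiv.sum_comp e fun d => if P d then 1 else 0

lemma star_sum_bij {D T M : Type} [Fintype D] [Fintype T] [AddCommMonoid M] (st : D → T)
    (on : D → Bool) (h : Set.BijOn st {d | on d = true} Set.univ) (f : T → M) :
    ∑ t, f t = ∑ d, if on d then f (st d) else 0 := by
  rw [← Finset.sum_filter]
  symm
  refine Finset.sum_nbij st (fun _ _ => Finset.mem_univ _) (fun a ha b hb hab => ?_)
    (fun t _ => ?_) fun _ _ => rfl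
  · exact h.injOn (by simpa using ha) (by simpa using hb) hab
  · obtain ⟨d, hd, rfl⟩ := h.surjOn (Set.mem_univ t)
    exact ⟨d, by simpa using hd, rfl⟩

/-- `pickV` with one colour per request and a parameter below the target. -/
lemma star_pickV (ε η : ℝ) (hε : 0 < ε) (hη : 0 < η) : ∃ η' : ℝ, 0 < η' ∧ η' ≤ η ∧
    ∀ (V W : Type) [Fintype V] (G : SimpleGraph V)
      (UE : Multiset (Sym2 V)) (US : Multiset (V × W)), Dense G 2 ε → Ok η' UE US →
      ∀ (I : Type) [Fintype I] (par : I → Finset V) (cw : I → W) (av : I → Finset V)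
        (wt : I → ℕ),
      (∀ i, (par i).card ≤ 2) →
      (∀ i, ((av i).card : ℝ) ≤ η' * Fintype.card V) →
      (∀ v, ((cnt fun i => v ∈ par i : ℕ) : ℝ) ≤ η' * Fintype.card V) →
      (∀ w, ((cnt fun i => cw i = w : ℕ) : ℝ) ≤ η' * Fintype.card V) →
      (∀ i, (wt i : ℝ) + 1 ≤ η' * Fintype.card V) →
      (∑ i, ((wt i : ℝ) + 1) ≤ η' * (Fintype.card V : ℝ) ^ 2) →
      ∃ z : I → V, (∀ i, ∀ p ∈ par i, G.Adj (z i) p) ∧ (∀ i, z i ∉ av i) ∧
        Ok η (UE + ∑ i, (par i).val.map fun p => s(z i, p)) (US + ∑ i, {(z i, cw i)}) ∧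
        ∀ v, ((wsum (fun i => z i = v) fun i => wt i + 1 : ℕ) : ℝ) ≤ η * Fintype.card V := by
  obtain ⟨e, he, H⟩ := pickV ε η hε hη
  refine ⟨min e η, lt_min he hη, min_le_right _ _, ?_⟩
  intro V W _ G UE US hG hok I _ par cw av wt h1 h2 h3 h4 h5 h6
  have hn : min e η * Fintype.card V ≤ e * Fintype.card V :=
    mul_le_mul_of_nonneg_right (min_le_left _ _) (Nat.cast_nonneg _)
  have hn2 : min e η * (Fintype.card V : ℝ) ^ 2 ≤ e * (Fintype.card V : ℝ) ^ 2 :=
    mul_le_mul_of_nonneg_right (min_le_left _ _) (by positivity)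
  obtain ⟨z, hz1, hz2, hz3, hz4⟩ := H V W G 2 UE US (by norm_num) hG
    (hok.mono (min_le_left _ _) le_rfl le_rfl) I par (fun i => {cw i}) av wt h1 (fun i => by simp)
    (fun i => (h2 i).trans hn) (fun v => (h3 v).trans hn)
    (fun w => le_trans (Nat.cast_le.mpr (cnt_mono fun i hi => by
      exact (Finset.mem_singleton.mp hi).symm)) ((h4 w).trans hn))
    (fun i => (h5 i).trans hn) (h6.trans hn2)
  refine ⟨z, hz1, hz2, ?_, hz4⟩
  simpa using hz3

/-- Choice of a common neighbour of two vertices. -/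
lemma star_pick2 (ε η : ℝ) (hε : 0 < ε) (hη : 0 < η) : ∃ η' : ℝ, 0 < η' ∧ η' ≤ η ∧
    ∀ (V W : Type) [Fintype V] (G : SimpleGraph V)
      (UE : Multiset (Sym2 V)) (US : Multiset (V × W)), Dense G 2 ε → Ok η' UE US →
      2 ≤ η' * Fintype.card V →
      ∀ (I : Type) [Fintype I] (p q : I → V) (cw : I → W) (r r' : I → V),
      (∀ i, p i ≠ q i) →
      (∀ v, ((cnt fun i => p i = v : ℕ) : ℝ) + (cnt fun i => q i = v : ℕ) ≤ η' * Fintype.card V) →
      (∀ w, ((cnt fun i => cw i = w : ℕ) : ℝ) ≤ η' * Fintype.card V) →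
      ((Fintype.card I : ℝ) ≤ η' * (Fintype.card V : ℝ) ^ 2) →
      ∃ z : I → V, (∀ i, G.Adj (z i) (p i) ∧ G.Adj (z i) (q i) ∧ z i ≠ r i ∧ z i ≠ r' i) ∧
        Ok η (UE + ∑ i, ({s(z i, p i)} + {s(z i, q i)})) (US + ∑ i, {(z i, cw i)}) ∧
        ∀ v, ((cnt fun i => z i = v : ℕ) : ℝ) ≤ η * Fintype.card V := by
  obtain ⟨e, he, hle, H⟩ := star_pickV ε η hε hη
  refine ⟨e, he, hle, ?_⟩
  intro V W _ G UE US hG hok hn I _ p q cw r r' hpq h1 h2 h3
  obtain ⟨z, hz1, hz2, hz3, hz4⟩ := H V W G UE US hG hok I (fun i => {p i, q i}) cw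
    (fun i => {r i, r' i}) (fun _ => 0) (fun i => Finset.card_le_two)
    (fun i => le_trans (by exact_mod_cast Finset.card_le_two) hn)
    (fun v => le_trans (by
      rw [← Nat.cast_add, Nat.cast_le]
      refine le_trans (cnt_mono fun i hi => ?_) (cnt_or_le _ _)
      simp only [Finset.mem_insert, Finset.mem_singleton] at hi
      exact hi.imp Eq.symm Eq.symm) (h1 v)) h2
    (fun i => by simp only [Nat.cast_zero]; linarith) (by simpa using h3)
  refine ⟨z, fun i => ⟨hz1 i _ (by simp), hz1 i _ (by simp), fun h => hz2 i (by simp [h]),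
    fun h => hz2 i (by simp [h])⟩, ?_, fun v => le_trans ?_ (hz4 v)⟩
  · have e1 : (∑ i, (({p i, q i} : Finset V)).val.map fun x => s(z i, x)) =
        ∑ i, (({s(z i, p i)} : Multiset (Sym2 V)) + {s(z i, q i)}) := by
      refine Finset.sum_congr rfl fun i _ => ?_
      rw [Finset.insert_val_of_notMem (by simpa using hpq i)]
      simp
    rw [← e1]
    exact hz3
  · exact_mod_cast cnt_le_wsum _ _

/-- Choice of a vertex for every star. -/
lemma star_pickT (ε η : ℝ) (hε : 0 < ε) (hη : 0 < η) : ∃ η' : ℝ, 0 < η' ∧ η' ≤ η ∧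
    ∀ (V W : Type) [Fintype V] (G : SimpleGraph V)
      (UE : Multiset (Sym2 V)) (US : Multiset (V × W)), Dense G 2 ε → Ok η' UE US →
      ∀ (D T : Type) [Fintype D] [Fintype T] (st : D → T) (par : T → Finset V) (cw : T → W),
      (∀ i, (par i).card ≤ 2) →
      (∀ v, ((cnt fun i => v ∈ par i : ℕ) : ℝ) ≤ η' * Fintype.card V) →
      (∀ w, ((cnt fun i => cw i = w : ℕ) : ℝ) ≤ η' * Fintype.card V) →
      (∀ t, ((cnt fun d => st d = t : ℕ) : ℝ) + 1 ≤ η' * Fintype.card V) →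
      ((Fintype.card D : ℝ) + Fintype.card T ≤ η' * (Fintype.card V : ℝ) ^ 2) →
      ∃ z : T → V, (∀ i, ∀ p ∈ par i, G.Adj (z i) p) ∧
        Ok η (UE + ∑ i, (par i).val.map fun p => s(z i, p)) (US + ∑ i, {(z i, cw i)}) ∧
        (∀ v, ((cnt fun t => z t = v : ℕ) : ℝ) ≤ η * Fintype.card V) ∧
        ∀ v, ((cnt fun d => z (st d) = v : ℕ) : ℝ) ≤ η * Fintype.card V := by
  obtain ⟨e, he, hle, H⟩ := star_pickV ε η hε hη
  refine ⟨e, he, hle, ?_⟩
  intro V W _ G UE US hG hok D T _ _ st par cw h1 h2 h3 h4 h5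
  obtain ⟨z, hz1, _, hz3, hz4⟩ := H V W G UE US hG hok T par cw (fun _ => ∅)
    (fun t => cnt fun d => st d = t) h1 (fun i => by simp; positivity) h2 h3 h4 (by
      rw [Finset.sum_add_distrib, ← Nat.cast_sum, ← card_eq_sum_cnt st]
      simpa using h5)
  refine ⟨z, hz1, hz3, fun v => le_trans ?_ (hz4 v), fun v => le_trans ?_ (hz4 v)⟩
  · rw [← star_cnt_comp st z v]
    exact_mod_cast Nat.le_add_left _ _
  · rw [← star_cnt_comp st z v]
    exact_mod_cast Nat.le_add_right _ _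

/-- Choice of a colour for every star. -/
lemma star_pickW (ε η : ℝ) (hε : 0 < ε) (hη : 0 < η) : ∃ η' : ℝ, 0 < η' ∧ η' ≤ η ∧
    ∀ (V W : Type) [Fintype V] [Fintype W] (UE : Multiset (Sym2 V)) (US : Multiset (V × W)),
      ε * Fintype.card V ≤ 2 * Fintype.card W → Ok η' UE US →
      ∀ (D T : Type) [Fintype D] [Fintype T] (st : D → T) (base : T → V),
      (∀ v, ((cnt fun t => base t = v : ℕ) : ℝ) ≤ η' * Fintype.card V) →
      (∀ t, ((cnt fun d => st d = t : ℕ) : ℝ) + 1 ≤ η' * Fintype.card V) →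
      ((Fintype.card D : ℝ) + Fintype.card T ≤ η' * (Fintype.card V : ℝ) ^ 2) →
      ∃ z : T → W, Ok η UE (US + ∑ t, {(base t, z t)}) ∧
        (∀ w, ((cnt fun t => z t = w : ℕ) : ℝ) ≤ η * Fintype.card V) ∧
        ∀ w, ((cnt fun d => z (st d) = w : ℕ) : ℝ) ≤ η * Fintype.card V := by
  obtain ⟨e, he, H⟩ := pickW ε η hε hη
  refine ⟨min e η, lt_min he hη, min_le_right _ _, ?_⟩
  intro V W _ _ UE US hW hok D T _ _ st base h1 h2 h3
  have hn : min e η * Fintype.card V ≤ e * Fintype.card V :=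
    mul_le_mul_of_nonneg_right (min_le_left _ _) (Nat.cast_nonneg _)
  have hn2 : min e η * (Fintype.card V : ℝ) ^ 2 ≤ e * (Fintype.card V : ℝ) ^ 2 :=
    mul_le_mul_of_nonneg_right (min_le_left _ _) (by positivity)
  obtain ⟨z, hz3, hz4⟩ := H V W UE US hW (hok.mono (min_le_left _ _) le_rfl le_rfl) T
    (fun t => {base t}) (fun t => cnt fun d => st d = t) (fun i => by simp)
    (fun v => le_trans (Nat.cast_le.mpr (cnt_mono fun i hi => by
      exact (Finset.mem_singleton.mp hi).symm)) ((h1 v).trans hn))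
    (fun i => (h2 i).trans hn) (by
      rw [Finset.sum_add_distrib, ← Nat.cast_sum, ← card_eq_sum_cnt st]
      simpa using h3.trans hn2)
  refine ⟨z, by simpa using hz3, fun v => le_trans ?_ (hz4 v), fun v => le_trans ?_ (hz4 v)⟩
  · rw [← star_cnt_comp st z v]
    exact_mod_cast Nat.le_add_left _ _
  · rw [← star_cnt_comp st z v]
    exact_mod_cast Nat.le_add_right _ _

/-- The successor map on corners. -/
def starNx {D : Type} (nxt : D ≃ D) : D × Fin 4 ≃ D × Fin 4 where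
  toFun j := (if j.2 = 0 then nxt j.1 else j.1, j.2 + 1)
  invFun j := (if j.2 = 1 then nxt.symm j.1 else j.1, j.2 - 1)
  left_inv := by
    rintro ⟨d, k⟩
    fin_cases k <;> simp
    rfl
  right_inv := by
    rintro ⟨d, k⟩
    fin_cases k <;> simp

lemma starNx_0 {D : Type} (nxt : D ≃ D) (d : D) : starNx nxt (d, 0) = (nxt d, 1) := rfl
lemma starNx_1 {D : Type} (nxt : D ≃ D) (d : D) : starNx nxt (d, 1) = (d, 2) := rfl
lemma starNx_2 {D : Type} (nxt : D ≃ D) (d : D) : starNx nxt (d, 2) = (d, 3) := rfl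
lemma starNx_3 {D : Type} (nxt : D ≃ D) (d : D) : starNx nxt (d, 3) = (d, 0) := rfl

/-- `compileW` on the walks through the ports. -/
lemma star_walk (ε η : ℝ) (hε : 0 < ε) (hη : 0 < η) : ∃ η' : ℝ, 0 < η' ∧ ∃ n0 : ℕ,
    ∀ (V W : Type) [Fintype V] [Fintype W] (G : SimpleGraph V) (md : Bool)
      (UE : Multiset (Sym2 V)) (US : Multiset (V × W)),
      n0 ≤ Fintype.card V → Env W G md ε → Ok η' UE US →
      ∀ (𝒟 : Darts V) (a c y p q : 𝒟.D → V), (∀ P, (cnt fun δ => 𝒟.pc δ = P) ≤ 8) →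
      (∀ d, 𝒟.x d ≠ p d ∧ 𝒟.x d ≠ p (𝒟.nxt d) ∧ p d ≠ y d ∧ y d ≠ a d ∧ p d ≠ a d ∧ a d ≠ c d ∧
        c d ≠ y d ∧ y d ≠ q d ∧ q d ≠ 𝒟.x d ∧ y d ≠ 𝒟.x d) →
      (∀ v, ((cnt fun d => 𝒟.x d = v : ℕ) : ℝ) ≤ η' * Fintype.card V) →
      (∀ v, ((cnt fun d => a d = v : ℕ) : ℝ) ≤ η' * Fintype.card V) →
      (∀ v, ((cnt fun d => c d = v : ℕ) : ℝ) ≤ η' * Fintype.card V) →
      (∀ v, ((cnt fun d => y d = v : ℕ) : ℝ) ≤ η' * Fintype.card V) →
      (∀ v, ((cnt fun d => p d = v : ℕ) : ℝ) ≤ η' * Fintype.card V) →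
      (∀ v, ((cnt fun d => q d = v : ℕ) : ℝ) ≤ η' * Fintype.card V) →
      ∃ A O Φ, Good G md η UE US A O Φ ∧ ∀ σ : 𝒟.P → Bool,
        Rz O Φ (A + ∑ d, if σ (𝒟.pc d) then
          {𝒟.edge d} + {s(p d, y d)} + {s(a d, c d)} + {s(y d, q d)}
          else {s(𝒟.x d, p d)} + {s(y d, a d)} + {s(c d, y d)} + {s(q d, 𝒟.x d)}) := by
  obtain ⟨e, he, n0, H⟩ := compileW ε η hε hη
  refine ⟨e / 8, by positivity, n0, ?_⟩
  intro V W _ _ G md UE US hn hE hok 𝒟 a c y p q h8 hne hx ha hc hy hp hq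
  obtain ⟨A, O, Φ, hG, hR⟩ := H V W G md UE US hn hE (hok.mono (by linarith) le_rfl le_rfl)
    𝒟.P (𝒟.D × Fin 4) (fun j => 𝒟.pc j.1) (starNx 𝒟.nxt)
    (fun j => ![𝒟.x j.1, p j.1, a j.1, y j.1] j.2)
    (fun j => ![𝒟.x (𝒟.nxt j.1), y j.1, c j.1, q j.1] j.2)
    (by
      rintro ⟨d, k⟩
      fin_cases k
      · exact 𝒟.pc_nxt d
      · rfl
      · rfl
      · rfl)
    (by
      rintro ⟨d, k⟩ h
      have h2 := congrArg Prod.snd h
      fin_cases k <;> simp [starNx] at h2)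
    (fun i => by
      rw [star_cnt_four]
      have := h8 i
      simp only
      omega)
    (by
      rintro ⟨d, k⟩
      obtain ⟨h1, h2, h3, h4, h5, h6, h7, h8, h9, h10⟩ := hne d
      fin_cases k
      · exact ⟨𝒟.ne d, (hne (𝒟.nxt d)).1, h2⟩
      · exact ⟨h3, h4, h5⟩
      · exact ⟨h6, h7, h4.symm⟩
      · exact ⟨h8, h9, h10⟩)
    (fun v => by
      rw [star_cnt_four]
      have k0 := cnt_or_le (fun d => 𝒟.x d = v) (fun d => 𝒟.x (𝒟.nxt d) = v)
      rw [star_cnt_equiv 𝒟.nxt fun d => 𝒟.x d = v] at k0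
      have k1 := cnt_or_le (fun d => p d = v) (fun d => y d = v)
      have k2 := cnt_or_le (fun d => a d = v) (fun d => c d = v)
      have k3 := cnt_or_le (fun d => y d = v) (fun d => q d = v)
      have k4 := Nat.add_le_add (Nat.add_le_add (Nat.add_le_add k0 k1) k2) k3
      refine le_trans (Nat.cast_le.mpr k4) ?_
      push_cast
      linarith [hx v, ha v, hc v, hy v, hp v, hq v])
  refine ⟨A, O, Φ, hG, fun σ => ?_⟩
  have key := hR σ
  rw [Fintype.sum_prod_type] at key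
  simp only [Fin.sum_univ_four, starNx_0, starNx_1, starNx_2, starNx_3] at key
  have e1 := Equiv.sum_comp 𝒟.nxt
    (fun d => if σ (𝒟.pc d) then (0 : Multiset (Sym2 V)) else {s(𝒟.x d, p d)})
  have e2 : (∑ d, if σ (𝒟.pc d) then
          ({𝒟.edge d} + {s(p d, y d)} + {s(a d, c d)} + {s(y d, q d)} : Multiset (Sym2 V))
          else {s(𝒟.x d, p d)} + {s(y d, a d)} + {s(c d, y d)} + {s(q d, 𝒟.x d)}) =
      (∑ d, if σ (𝒟.pc d) then (0 : Multiset (Sym2 V)) else {s(𝒟.x d, p d)}) +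
      ∑ d, if σ (𝒟.pc d) then
          ({𝒟.edge d} + {s(p d, y d)} + {s(a d, c d)} + {s(y d, q d)} : Multiset (Sym2 V))
          else {s(y d, a d)} + {s(c d, y d)} + {s(q d, 𝒟.x d)} := by
    rw [← Finset.sum_add_distrib]
    refine Finset.sum_congr rfl fun d _ => ?_
    split_ifs
    · rw [zero_add]
    · abel
  rw [e2, ← e1, ← Finset.sum_add_distrib]
  refine Eq.mp (congrArg (fun M => Rz O Φ (A + M)) (Finset.sum_congr rfl fun d _ => ?_)) key
  rw [𝒟.pc_nxt]
  split_ifs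
  · rw [zero_add]
    rfl
  · simp only [add_assoc]
    rfl

lemma star_final [Fintype V] (G : SimpleGraph V) (md : Bool) (η : ℝ) (UE : Multiset (Sym2 V))
    (US : Multiset (V × W)) (𝒟 : Darts V) (T : Type) [Fintype T] (base : T → V) (st : 𝒟.D → T)
    (hb : ∀ δ, base (st δ) = 𝒟.x δ) (w : T → W) (a c : T → V) (y p q : 𝒟.D → V)
    (AW : Multiset (Sym2 V)) (OW : Multiset (Hole V W)) (ΦW : Multiset (V × W))
    (hca : ∀ t, G.Adj (c t) (a t))
    (hadj : ∀ d, G.Adj (y d) (a (st d)) ∧ G.Adj (y d) (c (st d)) ∧ G.Adj (p d) (𝒟.x d) ∧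
      G.Adj (p d) (y d) ∧ G.Adj (q d) (𝒟.x d) ∧ G.Adj (q d) (y d))
    (hG : Good G md η
      (UE + ∑ t, {s(c t, a t)} + ∑ d, ({s(y d, a (st d))} + {s(y d, c (st d))}) +
        ∑ d, ({s(p d, 𝒟.x d)} + {s(p d, y d)}) + ∑ d, ({s(q d, 𝒟.x d)} + {s(q d, y d)}))
      (US + ∑ t, {(base t, w t)} + ∑ t, {(a t, w t)} + ∑ t, {(c t, w t)} +
        ∑ d, {(y d, w (st d))} + ∑ d, {(p d, w (st d))} + ∑ d, {(q d, w (st d))}) AW OW ΦW)
    (hR : ∀ σ : 𝒟.P → Bool, Rz OW ΦW (AW + ∑ d, if σ (𝒟.pc d) then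
      {𝒟.edge d} + {s(p d, y d)} + {s(a (st d), c (st d))} + {s(y d, q d)}
      else {s(𝒟.x d, p d)} + {s(y d, a (st d))} + {s(c (st d), y d)} + {s(q d, 𝒟.x d)})) :
    ∃ A O Φ, Good G md η UE US A O Φ ∧
      sysDeg O Φ = bd A + 2 • ∑ t, ({base t} : Multiset V) ∧
      ∀ ON : 𝒟.P → Bool, Set.BijOn st {δ | ON (𝒟.pc δ) = true} Set.univ →
        Rz O Φ (A + 𝒟.on ON) := by
  refine ⟨∑ t, {s(c t, a t)} + ∑ d, ({s(y d, a (st d))} + {s(y d, c (st d))}) +
      ∑ d, ({s(p d, 𝒟.x d)} + {s(p d, y d)}) + ∑ d, ({s(q d, 𝒟.x d)} + {s(q d, y d)}) + AW,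
    (∑ t, {(⟨w t, a t, c t, false⟩ : Hole V W)} + ∑ d, {(⟨w (st d), p d, q d, false⟩ : Hole V W)})
      + OW, (∑ t, {(base t, w t)} + ∑ d, {(y d, w (st d))}) + ΦW, ⟨?_, ?_, ?_, ?_⟩, ?_, ?_⟩
  · refine hG.ok.mono le_rfl (le_of_eq (by abel)) (le_of_eq ?_)
    rw [slots_add]
    simp only [slots, Multiset.add_bind, star_bind_sum, Multiset.singleton_bind, Hole.frame,
      star_pair, Finset.sum_add_distrib]
    abel
  · intro e he
    simp only [Multiset.mem_add, Multiset.mem_sum, Finset.mem_univ, true_and,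
      Multiset.mem_singleton] at he
    rcases he with (((⟨t, rfl⟩ | ⟨d, rfl | rfl⟩) | ⟨d, rfl | rfl⟩) | ⟨d, rfl | rfl⟩) | he
    · exact hca t
    · exact (hadj d).1
    · exact (hadj d).2.1
    · exact (hadj d).2.2.1
    · exact (hadj d).2.2.2.1
    · exact (hadj d).2.2.2.2.1
    · exact (hadj d).2.2.2.2.2
    · exact hG.sub e he
  · intro hmd h hh
    simp only [Multiset.mem_add, Multiset.mem_sum, Finset.mem_univ, true_and,
      Multiset.mem_singleton] at hh
    rcases hh with (⟨t, rfl⟩ | ⟨d, rfl⟩) | hh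
    · rfl
    · rfl
    · exact hG.sgl hmd h hh
  · rw [Multiset.add_bind, Multiset.map_add, hG.bal]
    simp only [Multiset.add_bind, star_bind_sum, Multiset.singleton_bind, Hole.inner,
      Multiset.map_add, star_map_sum, Multiset.map_singleton, Bool.false_eq_true, if_false]
  · rw [sysDeg_add, ← (hR fun _ => false).deg]
    simp only [sysDeg, Multiset.add_bind, star_bind_sum, Multiset.singleton_bind, Hole.frame,
      star_pair, Multiset.map_add, star_map_sum, Multiset.map_singleton, Bool.false_eq_true,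
      if_false, bd_add, bd_sum, bd_single, Finset.sum_add_distrib, two_smul]
    abel
  · intro ON hON
    have h1 : Rz (∑ d, ((if ON (𝒟.pc d) then {(⟨w (st d), a (st d), c (st d), false⟩ : Hole V W)}
          else 0) + {(⟨w (st d), p d, q d, false⟩ : Hole V W)}))
        (∑ d, ((if ON (𝒟.pc d) then {(base (st d), w (st d))} else 0) + {(y d, w (st d))}))
        (∑ d, if ON (𝒟.pc d) then
          {s(a (st d), y d), s(y d, c (st d))} + {s(p d, 𝒟.x d), s(𝒟.x d, q d)}
          else {s(p d, y d), s(y d, q d)}) := by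
      refine Rz.sum _ fun d _ => ?_
      split_ifs
      · rw [hb d, add_comm ({(𝒟.x d, w (st d))} : Multiset (V × W))]
        exact (Rz.single _ _ _ _).add (Rz.single _ _ _ _)
      · rw [zero_add, zero_add]
        exact Rz.single _ _ _ _
    rw [Finset.sum_add_distrib, Finset.sum_add_distrib,
      ← star_sum_bij st (fun d => ON (𝒟.pc d)) hON
        (fun t => ({(⟨w t, a t, c t, false⟩ : Hole V W)} : Multiset (Hole V W))),
      ← star_sum_bij st (fun d => ON (𝒟.pc d)) hON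
        (fun t => ({(base t, w t)} : Multiset (V × W)))] at h1
    refine Eq.mp (congrArg (Rz _ _) ?_) (h1.add (hR ON))
    rw [star_sum_bij st (fun d => ON (𝒟.pc d)) hON
      (fun t => ({s(c t, a t)} : Multiset (Sym2 V))), Darts.on, add_left_comm,
      ← Finset.sum_add_distrib, add_right_comm _ AW, add_comm _ AW]
    simp only [← Finset.sum_add_distrib]
    congr 1
    refine Finset.sum_congr rfl fun d _ => ?_
    rw [Sym2.eq_swap (a := a (st d)) (b := y d), Sym2.eq_swap (a := 𝒟.x d) (b := q d),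
      Sym2.eq_swap (a := y d) (b := q d), Sym2.eq_swap (a := a (st d)) (b := c (st d)),
      Sym2.eq_swap (a := 𝒟.x d) (b := p d), Sym2.eq_swap (a := c (st d)) (b := y d)]
    simp only [star_pair]
    split_ifs <;> abel

end StarAux

/-- Pieces against loops, with a prescribed star for every dart. -/
theorem star (ε η : ℝ) (hε : 0 < ε) (hη : 0 < η) : ∃ η' : ℝ, 0 < η' ∧ ∃ n0 : ℕ,
    ∀ (V W : Type) [Fintype V] [Fintype W] (G : SimpleGraph V) (md : Bool)
      (UE : Multiset (Sym2 V)) (US : Multiset (V × W)),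
      n0 ≤ Fintype.card V → Env W G md ε → Ok η' UE US →
      ∀ (𝒟 : Darts V) (T : Type) [Fintype T] (base : T → V) (st : 𝒟.D → T),
      (∀ δ, base (st δ) = 𝒟.x δ) → (∀ p, (cnt fun δ => 𝒟.pc δ = p) ≤ 8) →
      (∀ δ, 𝒟.edge δ ∈ UE) →
      (∀ v, ((cnt fun δ => 𝒟.x δ = v : ℕ) : ℝ) ≤ η' * Fintype.card V) →
      (∀ v, ((cnt fun t => base t = v : ℕ) : ℝ) ≤ η' * Fintype.card V) →
      ∃ A O Φ, Good G md η UE US A O Φ ∧
        sysDeg O Φ = bd A + 2 • ∑ t, ({base t} : Multiset V) ∧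
        ∀ ON : 𝒟.P → Bool, Set.BijOn st {δ | ON (𝒟.pc δ) = true} Set.univ →
          Rz O Φ (A + 𝒟.on ON) := by
  obtain ⟨e6, he6, n6, H6⟩ := star_walk ε η hε hη
  obtain ⟨e5, he5, hle5, H5⟩ := star_pick2 ε e6 hε he6
  obtain ⟨e4, he4, hle4, H4⟩ := star_pick2 ε (e5 / 2) hε (by positivity)
  obtain ⟨e3, he3, hle3, H3⟩ := star_pick2 ε (e4 / 2) hε (by positivity)
  obtain ⟨e2, he2, hle2, H2⟩ := star_pickT ε (e3 / 2) hε (by positivity)
  obtain ⟨e1, he1, hle1, H1⟩ := star_pickT ε (e2 / 2) hε (by positivity)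
  obtain ⟨e0, he0, hle0, H0⟩ := star_pickW ε (e1 / 2) hε (by positivity)
  refine ⟨e0 / 2, by positivity, max n6 ⌈4 / e0⌉₊, ?_⟩
  intro V W _ _ G md UE US hn hE hok 𝒟 T _ base st hb h8 _ hx hbase
  have hn6 : n6 ≤ Fintype.card V := (le_max_left _ _).trans hn
  have hN : (0 : ℝ) ≤ Fintype.card V := Nat.cast_nonneg _
  have hbig : 4 ≤ e0 * Fintype.card V := by
    have h1 : 4 / e0 ≤ (Fintype.card V : ℝ) :=
      (Nat.le_ceil _).trans (Nat.cast_le.mpr ((le_max_right _ _).trans hn))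
    rw [div_le_iff₀ he0] at h1
    linarith
  have hD := card_le_of_load 𝒟.x hx
  have hT := card_le_of_load base hbase
  have hport : ∀ t, ((cnt fun d => st d = t : ℕ) : ℝ) ≤ e0 / 2 * Fintype.card V := fun t =>
    le_trans (Nat.cast_le.mpr (cnt_mono fun d hd => by rw [← hb d, hd])) (hx (base t))
  have m0 := mul_le_mul_of_nonneg_right hle0 hN
  have m1 := mul_le_mul_of_nonneg_right hle1 hN
  have m2 := mul_le_mul_of_nonneg_right hle2 hN
  have m3 := mul_le_mul_of_nonneg_right hle3 hN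
  have m4 := mul_le_mul_of_nonneg_right hle4 hN
  have m5 := mul_le_mul_of_nonneg_right hle5 hN
  have hsq : ∀ e : ℝ, e0 ≤ e →
      (Fintype.card 𝒟.D : ℝ) + Fintype.card T ≤ e * (Fintype.card V : ℝ) ^ 2 := by
    intro e he
    have := mul_le_mul_of_nonneg_right he (sq_nonneg (Fintype.card V : ℝ))
    nlinarith
  have hsq' : ∀ e : ℝ, e0 ≤ e → (Fintype.card 𝒟.D : ℝ) ≤ e * (Fintype.card V : ℝ) ^ 2 :=
    fun e he => le_trans (le_add_of_nonneg_right (Nat.cast_nonneg _)) (hsq e he)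
  obtain ⟨w, ok0, hw1, hw2⟩ := H0 V W UE US hE.w1 (hok.mono (by linarith) le_rfl le_rfl) 𝒟.D T st
    base (fun v => by linarith [hbase v]) (fun t => by linarith [hport t]) (hsq _ le_rfl)
  obtain ⟨a, -, ok1, ha1, ha2⟩ := H1 V W G UE _ hE.d2 (ok0.mono (by linarith) le_rfl le_rfl) 𝒟.D T
    st (fun _ => ∅) w (fun _ => by simp) (fun v => by simp [cnt]; positivity)
    (fun v => by linarith [hw1 v]) (fun t => by linarith [hport t]) (hsq _ (by linarith))
  simp only [Finset.empty_val, Multiset.map_zero, Finset.sum_const_zero, add_zero] at ok1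
  obtain ⟨c, hca, ok2, hc1, hc2⟩ := H2 V W G UE _ hE.d2 (ok1.mono (by linarith) le_rfl le_rfl)
    𝒟.D T st (fun t => {a t}) w (fun _ => by simp)
    (fun v => le_trans (Nat.cast_le.mpr (cnt_mono fun i hi => by
      exact (Finset.mem_singleton.mp hi).symm)) (by linarith [ha1 v]))
    (fun v => by linarith [hw1 v]) (fun t => by linarith [hport t]) (hsq _ (by linarith))
  simp only [Finset.singleton_val, Multiset.map_singleton] at ok2
  have hca' : ∀ t, G.Adj (c t) (a t) := fun t => hca t _ (Finset.mem_singleton_self _)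
  obtain ⟨y, hy, ok3, hy1⟩ := H3 V W G _ _ hE.d2 (ok2.mono (by linarith) le_rfl le_rfl)
    (by linarith) 𝒟.D (fun d => a (st d)) (fun d => c (st d)) (fun d => w (st d)) 𝒟.x 𝒟.x
    (fun d => (hca' _).ne') (fun v => by linarith [ha2 v, hc2 v]) (fun v => by linarith [hw2 v])
    (hsq' _ (by linarith))
  obtain ⟨p, hp, ok4, hp1⟩ := H4 V W G _ _ hE.d2 (ok3.mono (by linarith) le_rfl le_rfl)
    (by linarith) 𝒟.D 𝒟.x y (fun d => w (st d)) (fun d => 𝒟.x (𝒟.nxt.symm d)) (fun d => a (st d))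
    (fun d => (hy d).2.2.1.symm) (fun v => by linarith [hx v, hy1 v])
    (fun v => by linarith [hw2 v]) (hsq' _ (by linarith))
  obtain ⟨q, hq, ok5, hq1⟩ := H5 V W G _ _ hE.d2 (ok4.mono (by linarith) le_rfl le_rfl)
    (by linarith) 𝒟.D 𝒟.x y (fun d => w (st d)) 𝒟.x 𝒟.x
    (fun d => (hy d).2.2.1.symm) (fun v => by linarith [hx v, hy1 v])
    (fun v => by linarith [hw2 v]) (hsq' _ (by linarith))
  obtain ⟨AW, OW, ΦW, hG, hR⟩ := H6 V W G md _ _ hn6 hE ok5 𝒟 (fun d => a (st d))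
    (fun d => c (st d)) y p q h8
    (fun d => ⟨(hp d).1.ne', by simpa using (hp (𝒟.nxt d)).2.2.1.symm, (hp d).2.1.ne,
      (hy d).1.ne, (hp d).2.2.2, (hca' _).ne', (hy d).2.1.ne', (hq d).2.1.ne', (hq d).1.ne,
      (hy d).2.2.1⟩)
    (fun v => by linarith [hx v]) (fun v => by linarith [ha2 v]) (fun v => by linarith [hc2 v])
    (fun v => by linarith [hy1 v]) (fun v => by linarith [hp1 v]) hq1
  exact star_final G md η UE US 𝒟 T base st hb w a c y p q AW OW ΦW hca'
    (fun d => ⟨(hy d).1, (hy d).2.1, (hp d).1, (hp d).2.1, (hq d).1, (hq d).2.1⟩) hG hR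

end Pool.Agent.Lib.MP_34bdde_co
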