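import Mathlib
import Pool.Agent.Lib.MP_34bdde_co.Star

set_option autoImplicit false

open Finset
open scoped Classical

noncomputable section

namespace Pool.Agent.Lib.MP_34bdde_co

lemma loops_wsum_eq_sum {I : Type} [Fintype I] (p : I → Prop) [DecidablePred p] (wt : I → ℕ) :
    wsum p wt = ∑ i, if p i then wt i else 0 := by
  rw [wsum_def, Finset.sum_filter]

variable {V : Type}

/-- The choice functions on the darts of a piece. -/
abbrev Darts.Ch (𝒟 : Darts V) {T : Type} (N : 𝒟.D → Finset T) (p : 𝒟.P) : Type :=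
  (d : {d // 𝒟.pc d = p}) → {t // t ∈ N d.1}

/-- One copy of every piece for every choice function. -/
@[reducible] def Darts.copy (𝒟 : Darts V) {T : Type} (N : 𝒟.D → Finset T) : Darts V where
  P := Σ p : 𝒟.P, 𝒟.Ch N p
  D := Σ c : (Σ p : 𝒟.P, 𝒟.Ch N p), {d // 𝒟.pc d = c.1}
  pc := Sigma.fst
  nxt := Equiv.sigmaCongrRight fun c =>
    𝒟.nxt.subtypeEquiv fun d => by rw [𝒟.pc_nxt]
  x := fun δ => 𝒟.x δ.2.1
  pc_nxt := fun _ => rfl
  ne := fun δ => 𝒟.ne δ.2.1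

lemma Darts.copy_edge (𝒟 : Darts V) {T : Type} (N : 𝒟.D → Finset T) (δ : (𝒟.copy N).D) :
    (𝒟.copy N).edge δ = 𝒟.edge δ.2.1 := rfl

lemma Darts.copy_piece (𝒟 : Darts V) {T : Type} (N : 𝒟.D → Finset T) (c : (𝒟.copy N).P) :
    (cnt fun δ : (𝒟.copy N).D => (𝒟.copy N).pc δ = c) ≤ cnt fun d => 𝒟.pc d = c.1 := by
  refine cnt_le_of_injOn (fun δ => δ.2.1) ?_ ?_
  · rintro ⟨c', d, hd⟩ rfl
    exact hd
  · rintro ⟨c', d, hd⟩ ⟨c'', d', hd'⟩ rfl h2 h3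
    obtain rfl : c'' = c' := h2
    obtain rfl : d = d' := h3
    rfl

lemma Darts.copy_load (𝒟 : Darts V) {T : Type} (N : 𝒟.D → Finset T) (v : V) :
    (cnt fun δ : (𝒟.copy N).D => (𝒟.copy N).x δ = v) = wsum (fun δ => 𝒟.x δ = v) fun δ =>
      ∏ δ' ∈ univ.filter (fun δ' => 𝒟.pc δ' = 𝒟.pc δ), (N δ').card := by
  rw [cnt_eq_sum, loops_wsum_eq_sum, ← Fintype.sum_fiberwise 𝒟.pc]
  refine (Fintype.sum_sigma _).trans ((Fintype.sum_sigma _).trans ?_)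
  refine Finset.sum_congr rfl fun p _ => ?_
  show (∑ _κ : 𝒟.Ch N p, ∑ d : {d // 𝒟.pc d = p}, if 𝒟.x d.1 = v then 1 else 0) = _
  rw [Finset.sum_comm]
  refine Finset.sum_congr rfl ?_
  rintro ⟨d, rfl⟩ _
  by_cases h : 𝒟.x d = v
  · simp only [h, if_true, Finset.sum_const, Finset.card_univ, smul_eq_mul, mul_one,
      Fintype.card_pi, Fintype.card_coe]
    exact (Finset.prod_subtype _ (by simp) fun δ' => (N δ').card).symm
  · simp [h]

/-- Pieces against loops, every dart has a set of allowed stars. -/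
theorem copies' (ε η : ℝ) (hε : 0 < ε) (hη : 0 < η) : ∃ η' : ℝ, 0 < η' ∧ ∃ n0 : ℕ,
    ∀ (V W : Type) [Fintype V] [Fintype W] (G : SimpleGraph V) (md : Bool)
      (UE : Multiset (Sym2 V)) (US : Multiset (V × W)),
      n0 ≤ Fintype.card V → Env W G md ε → Ok η' UE US →
      ∀ (𝒟 : Darts V) (T : Type) [Fintype T] (base : T → V) (N : 𝒟.D → Finset T),
      (∀ δ, ∀ t ∈ N δ, base t = 𝒟.x δ) → (∀ p, (cnt fun δ => 𝒟.pc δ = p) ≤ 8) →
      (∀ δ, 𝒟.edge δ ∈ UE) →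
      (∀ v, ((wsum (fun δ => 𝒟.x δ = v) fun δ =>
        ∏ δ' ∈ univ.filter (fun δ' => 𝒟.pc δ' = 𝒟.pc δ), (N δ').card : ℕ) : ℝ) ≤
          η' * Fintype.card V) →
      (∀ v, ((cnt fun t => base t = v : ℕ) : ℝ) ≤ η' * Fintype.card V) →
      ∃ A O Φ, Good G md η UE US A O Φ ∧
        sysDeg O Φ = bd A + 2 • ∑ t, ({base t} : Multiset V) ∧
        ∀ (ON : 𝒟.P → Bool) (g : 𝒟.D → T), (∀ δ, ON (𝒟.pc δ) = true → g δ ∈ N δ) →
          Set.BijOn g {δ | ON (𝒟.pc δ) = true} Set.univ → Rz O Φ (A + 𝒟.on ON) := by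
  obtain ⟨η', hη', n0, H⟩ := star ε η hε hη
  refine ⟨η', hη', n0, ?_⟩
  intro V W _ _ G md UE US hn hE hO 𝒟 T _ base N h1 h2 h3 h4 h5
  obtain ⟨A, O, Φ, hG, hD, hR⟩ := H V W G md UE US hn hE hO (𝒟.copy N) T base
    (fun δ => (δ.1.2 δ.2).1) (fun δ => h1 _ _ (δ.1.2 δ.2).2)
    (fun c => (𝒟.copy_piece N c).trans (h2 _)) (fun δ => h3 δ.2.1)
    (fun v => by rw [𝒟.copy_load N v]; exact h4 v) h5
  refine ⟨A, O, Φ, hG, hD, fun ON g hg hb => ?_⟩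
  set ON' : (𝒟.copy N).P → Bool := fun c =>
    decide (ON c.1 = true ∧ ∀ d : {d // 𝒟.pc d = c.1}, (c.2 d).1 = g d.1) with hON'
  have hφ : Set.BijOn (fun δ : (𝒟.copy N).D => δ.2.1)
      {δ | ON' ((𝒟.copy N).pc δ) = true} {δ | ON (𝒟.pc δ) = true} := by
    refine ⟨?_, ?_, ?_⟩
    · rintro ⟨⟨p, κ⟩, d, hd⟩ h
      have hd' : 𝒟.pc d = p := hd
      show ON (𝒟.pc d) = true
      rw [hd']
      exact (of_decide_eq_true h).1
    · rintro ⟨⟨p, κ⟩, d, hd⟩ h ⟨⟨p', κ'⟩, d', hd'⟩ h' (rfl : d = d')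
      obtain rfl : p = p' := (show 𝒟.pc d = p from hd).symm.trans hd'
      obtain rfl : κ = κ' := funext fun e => Subtype.ext
        (((of_decide_eq_true h).2 e).trans ((of_decide_eq_true h').2 e).symm)
      rfl
    · intro d hd
      refine ⟨⟨⟨𝒟.pc d, fun e => ⟨g e.1, hg e.1 (by rw [e.2]; exact hd)⟩⟩, d, rfl⟩, ?_, rfl⟩
      exact decide_eq_true ⟨hd, fun _ => rfl⟩
  have hon : (𝒟.copy N).on ON' = 𝒟.on ON := by
    unfold Darts.on
    rw [← Finset.sum_filter, ← Finset.sum_filter]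
    refine Finset.sum_nbij (fun δ => δ.2.1) (fun δ hδ => ?_) (fun δ hδ δ' hδ' h => ?_)
      (fun d hd => ?_) fun δ _ => rfl
    · exact Finset.mem_filter.2 ⟨Finset.mem_univ _, hφ.1 (Finset.mem_filter.1 hδ).2⟩
    · exact hφ.2.1 (Finset.mem_filter.1 (Finset.mem_coe.1 hδ)).2
        (Finset.mem_filter.1 (Finset.mem_coe.1 hδ')).2 h
    · obtain ⟨δ, hδ, rfl⟩ := hφ.2.2 (Finset.mem_filter.1 (Finset.mem_coe.1 hd)).2
      exact ⟨δ, Finset.mem_coe.2 (Finset.mem_filter.2 ⟨Finset.mem_univ _, hδ⟩), rfl⟩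
  rw [← hon]
  refine hR ON' ((hb.comp hφ).congr fun δ hδ => ?_)
  exact ((of_decide_eq_true hδ).2 δ.2).symm

end Pool.Agent.Lib.MP_34bdde_co
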