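import Mathlib
import Pool.Agent.Lib.MP_34bdde_co.Defs

set_option autoImplicit false

open Finset
open scoped Classical

noncomputable section

namespace Pool.Agent.Lib.MP_34bdde_co

/- PLAN. expander: count functions f : A → Fin 30 → B. Bad: S of size m + 1, S' of size m with
all f a k in S' (a in S), 1 <= m <= 3|B|/4 (m = 0 impossible). Number of bad f at most
choose |A| (m+1) * choose |B| m * (m/|B|)^(30(m+1)) * total, and with x = m/|B| <= 3/4,
choose N r <= (e N / r)^r this is at most ((2e/x)^2 (e/x) x^30)^m <= (1/4)^m; sum < 1.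
(Lib/MP_e7a55d_co/Count.lean has card_forall_mem and choose_le_exp; import or copy.)
template: left vertices pick 30 neighbours in T, vertices of T pick 30 neighbours in Y; Hall
(Finset.all_card_le_biUnion_card_iff_exists_injective) for L = Z' + Y, |L| = |T| =: τ.
If |S| <= τ/2 use the first expander. If |S| > τ/2 and |N S| < |S| take R in T \ N S with
|R| = τ - |S| + 1; its neighbours in Y lie in L \ S, which has τ - |S| elements: contradiction
with the second expander. s = 0 is trivial. -/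

lemma tmpl_card_forall_mem {I X : Type} [Fintype I] [Fintype X]
    (hX : 0 < Fintype.card X) (J : Finset I) (S : Finset X) :
    ((univ.filter (fun ω : I → X => ∀ j ∈ J, ω j ∈ S)).card : ℝ) =
      (Fintype.card (I → X) : ℝ) * ((S.card : ℝ) / Fintype.card X) ^ J.card := by
  have h1 : univ.filter (fun ω : I → X => ∀ j ∈ J, ω j ∈ S) =
      Fintype.piFinset (fun j => if j ∈ J then S else univ) := by
    ext ω
    simp only [mem_filter, mem_univ, true_and, Fintype.mem_piFinset]
    constructor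
    · intro h j
      by_cases hj : j ∈ J
      · simp [hj, h j hj]
      · simp [hj]
    · intro h j hj
      simpa [hj] using h j
  have hX' : (Fintype.card X : ℝ) ≠ 0 := by exact_mod_cast hX.ne'
  rw [h1, Fintype.card_piFinset, Fintype.card_fun]
  push_cast
  have h2 : ∀ j : I, (((if j ∈ J then S else univ).card : ℕ) : ℝ) =
      (Fintype.card X : ℝ) * (if j ∈ J then ((S.card : ℝ) / Fintype.card X) else 1) := by
    intro j
    by_cases hj : j ∈ J
    · simp only [hj, if_true]
      field_simp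
    · simp [hj]
  simp_rw [h2]
  rw [prod_mul_distrib, prod_const, card_univ, prod_ite_mem, univ_inter, prod_const]

lemma tmpl_choose_le (n r : ℕ) (hr : 0 < r) : (n.choose r : ℝ) ≤ (3 * n / r) ^ r := by
  have h1 : (n.choose r : ℝ) ≤ (n : ℝ) ^ r / r.factorial := Nat.choose_le_pow_div r n
  have h2 : (r : ℝ) ^ r / r.factorial ≤ Real.exp r :=
    Real.pow_div_factorial_le_exp (r : ℝ) (Nat.cast_nonneg _) r
  have h3 : Real.exp r ≤ 3 ^ r := by
    rw [← Real.exp_one_pow]
    refine pow_le_pow_left₀ (Real.exp_pos _).le ?_ r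
    have := Real.exp_one_lt_d9
    linarith
  have hr' : (0 : ℝ) < r := by exact_mod_cast hr
  have hf : (0 : ℝ) < r.factorial := by exact_mod_cast r.factorial_pos
  refine h1.trans ?_
  have h4 : (r : ℝ) ^ r ≤ 3 ^ r * r.factorial := by
    rw [div_le_iff₀ hf] at h2
    exact h2.trans (mul_le_mul_of_nonneg_right h3 hf.le)
  rw [div_pow, mul_pow, div_le_div_iff₀ hf (pow_pos hr' r)]
  have h5 : (0 : ℝ) ≤ (n : ℝ) ^ r := by positivity
  calc (n : ℝ) ^ r * (r : ℝ) ^ r ≤ (n : ℝ) ^ r * (3 ^ r * r.factorial) :=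
        mul_le_mul_of_nonneg_left h4 h5
    _ = _ := by ring

lemma tmpl_term (a N m : ℕ) (ha : a ≤ 2 * N) (hm : 0 < m) (hmN : 4 * m ≤ 3 * N) :
    (a.choose (m + 1) : ℝ) * (N.choose m : ℝ) * (((m : ℝ) ^ 30) / (N : ℝ) ^ 30) ^ (m + 1) ≤
      1 / 4 * (1 / 2) ^ m := by
  have hN : 0 < N := by omega
  have hm' : (0 : ℝ) < m := by exact_mod_cast hm
  have hN' : (0 : ℝ) < N := by exact_mod_cast hN
  have hmN' : 4 * (m : ℝ) ≤ 3 * N := by exact_mod_cast hmN
  set x : ℝ := m / N with hx
  have hx0 : 0 < x := div_pos hm' hN'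
  have hx1 : x ≤ 3 / 4 := by
    rw [hx, div_le_div_iff₀ hN' (by norm_num)]
    linarith
  have h1 : (a.choose (m + 1) : ℝ) ≤ (6 / x) ^ (m + 1) := by
    refine (tmpl_choose_le a (m + 1) (Nat.succ_pos _)).trans ?_
    refine pow_le_pow_left₀ (by positivity) ?_ _
    have ha' : (a : ℝ) ≤ 2 * N := by exact_mod_cast ha
    rw [hx, div_div_eq_mul_div, div_le_div_iff₀ (by positivity) hm']
    push_cast
    nlinarith
  have h2 : (N.choose m : ℝ) ≤ (3 / x) ^ (m + 1) := by
    refine (tmpl_choose_le N m hm).trans ?_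
    have h3 : 3 * (N : ℝ) / m = 3 / x := by
      rw [hx, div_div_eq_mul_div]
    rw [h3]
    refine pow_le_pow_right₀ ?_ (Nat.le_succ _)
    rw [le_div_iff₀ hx0]
    linarith
  have h4 : ((m : ℝ) ^ 30) / (N : ℝ) ^ 30 = x ^ 30 := by rw [hx, div_pow]
  rw [h4]
  have h5 : 6 / x * (3 / x) * x ^ 30 = 18 * x ^ 28 := by
    field_simp
    ring
  have h6 : 18 * x ^ 28 ≤ 1 / 4 := by
    have : x ^ 28 ≤ (3 / 4) ^ 28 := pow_le_pow_left₀ hx0.le hx1 _
    have h7 : (18 : ℝ) * (3 / 4) ^ 28 ≤ 1 / 4 := by norm_num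
    linarith
  calc (a.choose (m + 1) : ℝ) * (N.choose m : ℝ) * (x ^ 30) ^ (m + 1)
      ≤ (6 / x) ^ (m + 1) * (3 / x) ^ (m + 1) * (x ^ 30) ^ (m + 1) := by
        gcongr
    _ = (18 * x ^ 28) ^ (m + 1) := by rw [← mul_pow, ← mul_pow, h5]
    _ ≤ (1 / 4) ^ (m + 1) := pow_le_pow_left₀ (by positivity) h6 _
    _ = 1 / 4 * (1 / 4) ^ m := by ring
    _ ≤ 1 / 4 * (1 / 2) ^ m := by
        gcongr
        norm_num

theorem expander (A B : Type) [Fintype A] [Fintype B] [Nonempty B]
    (h : Fintype.card A ≤ 2 * Fintype.card B) :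
    ∃ f : A → Fin 30 → B, ∀ S : Finset A, 4 * S.card ≤ 3 * Fintype.card B + 4 →
      S.card ≤ (S.biUnion fun a => univ.image (f a)).card := by
  by_contra hcon
  push Not at hcon
  set N := Fintype.card B with hNdef
  have hN : 0 < N := Fintype.card_pos
  let Ms : Finset ℕ := (range (N + 1)).filter fun m => 0 < m ∧ 4 * m ≤ 3 * N
  let bad : Finset A → Finset B → Finset (A → Fin 30 → B) := fun S S' =>
    univ.filter fun f => ∀ a ∈ S, f a ∈ Fintype.piFinset fun _ : Fin 30 => S'
  have hcover : (univ : Finset (A → Fin 30 → B)) ⊆ Ms.biUnion fun m =>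
      (powersetCard (m + 1) (univ : Finset A)).biUnion fun S =>
        (powersetCard m (univ : Finset B)).biUnion fun S' => bad S S' := by
    intro f _
    obtain ⟨S, hS1, hS2⟩ := hcon f
    have hSne : S.Nonempty := card_pos.mp (by omega)
    obtain ⟨a0, ha0⟩ := hSne
    have hpos : 0 < (S.biUnion fun a => univ.image (f a)).card :=
      card_pos.mpr ⟨f a0 0, mem_biUnion.mpr ⟨a0, ha0, mem_image_of_mem _ (mem_univ _)⟩⟩
    obtain ⟨m, hm⟩ : ∃ m, S.card = m + 1 := ⟨S.card - 1, by omega⟩
    obtain ⟨S', hS'1, -, hS'3⟩ := exists_subsuperset_card_eq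
      (subset_univ (S.biUnion fun a => univ.image (f a))) (n := m) (by omega)
      (by rw [card_univ]; omega)
    refine mem_biUnion.mpr ⟨m, mem_filter.mpr ⟨mem_range.mpr (by omega), by omega, by omega⟩, ?_⟩
    refine mem_biUnion.mpr ⟨S, mem_powersetCard.mpr ⟨subset_univ _, hm⟩, ?_⟩
    refine mem_biUnion.mpr ⟨S', mem_powersetCard.mpr ⟨subset_univ _, hS'3⟩, ?_⟩
    refine mem_filter.mpr ⟨mem_univ _, fun a ha => Fintype.mem_piFinset.mpr fun k => hS'1 ?_⟩
    exact mem_biUnion.mpr ⟨a, ha, mem_image_of_mem _ (mem_univ _)⟩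
  have hX : 0 < Fintype.card (Fin 30 → B) := Fintype.card_pos
  have htot : (0 : ℝ) < Fintype.card (A → Fin 30 → B) := by
    exact_mod_cast (Fintype.card_pos : 0 < Fintype.card (A → Fin 30 → B))
  have hbad : ∀ m, ∀ S ∈ powersetCard (m + 1) (univ : Finset A),
      ∀ S' ∈ powersetCard m (univ : Finset B), ((bad S S').card : ℝ) =
        (Fintype.card (A → Fin 30 → B) : ℝ) * (((m : ℝ) ^ 30) / (N : ℝ) ^ 30) ^ (m + 1) := by
    intro m S hS S' hS'
    have := tmpl_card_forall_mem hX S (Fintype.piFinset fun _ : Fin 30 => S')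
    rw [(mem_powersetCard.mp hS).2, Fintype.card_piFinset, prod_const, (mem_powersetCard.mp hS').2,
      Fintype.card_fun (α := Fin 30), card_univ, Fintype.card_fin] at this
    push_cast at this
    rw [← this]
    congr 2
    ext f
    simp only [bad, mem_filter]
  have h1 : (Fintype.card (A → Fin 30 → B) : ℝ) ≤
      ∑ m ∈ Ms, (Fintype.card (A → Fin 30 → B) : ℝ) * (1 / 4 * (1 / 2) ^ m) := by
    have h2 := (card_le_card hcover).trans card_biUnion_le
    rw [card_univ] at h2
    have h3 : (Fintype.card (A → Fin 30 → B) : ℝ) ≤ ∑ m ∈ Ms,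
        (((powersetCard (m + 1) (univ : Finset A)).biUnion fun S =>
        (powersetCard m (univ : Finset B)).biUnion fun S' => bad S S').card : ℝ) := by
      exact_mod_cast h2
    refine h3.trans (sum_le_sum fun m hm => ?_)
    obtain ⟨-, hm1, hm2⟩ := mem_filter.mp hm
    have h4 : (((powersetCard (m + 1) (univ : Finset A)).biUnion fun S =>
        (powersetCard m (univ : Finset B)).biUnion fun S' => bad S S').card : ℝ) ≤
        ∑ S ∈ powersetCard (m + 1) (univ : Finset A), ∑ S' ∈ powersetCard m (univ : Finset B),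
          ((bad S S').card : ℝ) := by
      have h5 : ((powersetCard (m + 1) (univ : Finset A)).biUnion fun S =>
        (powersetCard m (univ : Finset B)).biUnion fun S' => bad S S').card ≤
        ∑ S ∈ powersetCard (m + 1) (univ : Finset A), ∑ S' ∈ powersetCard m (univ : Finset B),
          (bad S S').card := card_biUnion_le.trans (sum_le_sum fun S _ => card_biUnion_le)
      exact_mod_cast h5
    refine h4.trans ?_
    rw [sum_congr rfl fun S hS => sum_congr rfl fun S' hS' => hbad m S hS S' hS']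
    simp only [sum_const, card_powersetCard, card_univ, nsmul_eq_mul]
    have h6 := mul_le_mul_of_nonneg_left (tmpl_term (Fintype.card A) N m h hm1 hm2) htot.le
    refine le_trans (le_of_eq ?_) h6
    ring
  rw [← mul_sum, ← mul_sum] at h1
  have h7 : ∑ m ∈ Ms, (1 / 2 : ℝ) ^ m ≤ 2 :=
    (sum_le_sum_of_subset_of_nonneg (filter_subset _ _) fun _ _ _ => by positivity).trans
      (sum_geometric_two_le (N + 1))
  nlinarith

/-- Robustly matchable bipartite graphs. -/
theorem template (Z Y T : Type) [Fintype Z] [Fintype Y] [Fintype T] (s : ℕ)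
    (hZ : Fintype.card Z ≤ s) (hY : Fintype.card Y = 2 * s) (hT1 : 2 * s ≤ Fintype.card T)
    (hT2 : Fintype.card T ≤ 3 * s) :
    ∃ N : Z ⊕ Y → Finset T, (∀ z, (N (Sum.inl z)).card ≤ 30) ∧
      (∑ y, (N (Sum.inr y)).card ≤ 150 * s) ∧
      ∀ Z' : Finset Z, Z'.card + 2 * s = Fintype.card T →
        ∃ g : Z ⊕ Y → T, (∀ z ∈ Z', g (Sum.inl z) ∈ N (Sum.inl z)) ∧
          (∀ y, g (Sum.inr y) ∈ N (Sum.inr y)) ∧
          Set.BijOn g {l | ∀ z, l = Sum.inl z → z ∈ Z'} Set.univ := by
  rcases Nat.eq_zero_or_pos s with rfl | hs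
  · have hZe : IsEmpty Z := Fintype.card_eq_zero_iff.mp (by omega)
    have hYe : IsEmpty Y := Fintype.card_eq_zero_iff.mp (by omega)
    have hTe : IsEmpty T := Fintype.card_eq_zero_iff.mp (by omega)
    refine ⟨fun _ => ∅, fun z => by simp, by simp, fun Z' _ => ⟨fun l => isEmptyElim l,
      fun z => isEmptyElim z, fun y => isEmptyElim y, fun l => isEmptyElim l,
      fun l => isEmptyElim l, fun t => isEmptyElim t⟩⟩
  have hTn : Nonempty T := Fintype.card_pos_iff.mp (by omega)
  have hYn : Nonempty Y := Fintype.card_pos_iff.mp (by omega)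
  obtain ⟨f, hf⟩ := expander (Z ⊕ Y) T (by rw [Fintype.card_sum]; omega)
  obtain ⟨f', hf'⟩ := expander T Y (by omega)
  obtain ⟨back, hback⟩ : ∃ back : Z ⊕ Y → Finset T,
      ∀ l t, t ∈ back l ↔ ∃ k, Sum.inr (f' t k) = l :=
    ⟨fun l => univ.biUnion fun k => univ.filter fun t => Sum.inr (f' t k) = l, fun l t => by
      simp only [mem_biUnion, mem_filter, mem_univ, true_and]⟩
  have himg : ∀ l, (univ.image (f l)).card ≤ 30 := fun l => card_image_le.trans (by simp)
  refine ⟨fun l => univ.image (f l) ∪ back l, fun z => ?_, ?_, fun Z' hZ' => ?_⟩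
  · have : back (Sum.inl z) = ∅ := by
      refine eq_empty_of_forall_notMem fun t ht => ?_
      obtain ⟨k, hk⟩ := (hback _ _).mp ht
      exact Sum.inr_ne_inl hk
    show (univ.image (f (Sum.inl z)) ∪ back (Sum.inl z)).card ≤ 30
    rw [this, union_empty]
    exact himg _
  · have h1 : ∑ y, (back (Sum.inr y)).card ≤ 30 * Fintype.card T := by
      have h2 := card_eq_sum_cnt (fun p : T × Fin 30 => f' p.1 p.2)
      rw [Fintype.card_prod, Fintype.card_fin, mul_comm] at h2
      rw [h2]
      refine sum_le_sum fun y _ => ?_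
      unfold cnt
      refine le_trans (card_le_card fun t ht => ?_) (card_image_le (f := Prod.fst))
      obtain ⟨k, hk⟩ := (hback _ _).mp ht
      exact mem_image.mpr ⟨(t, k), mem_filter.mpr ⟨mem_univ _, Sum.inr_injective hk⟩, rfl⟩
    calc ∑ y, (univ.image (f (Sum.inr y)) ∪ back (Sum.inr y)).card
        ≤ ∑ y, (30 + (back (Sum.inr y)).card) :=
          sum_le_sum fun y _ => (card_union_le _ _).trans (Nat.add_le_add_right (himg _) _)
      _ = 30 * Fintype.card Y + ∑ y, (back (Sum.inr y)).card := by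
          rw [sum_add_distrib]
          simp [mul_comm]
      _ ≤ 150 * s := by omega
  let L : Finset (Z ⊕ Y) := Z'.disjSum univ
  have hL : ∀ l, l ∈ L ↔ ∀ z, l = Sum.inl z → z ∈ Z' := by
    intro l
    rcases l with z | y <;> simp [L]
  have hLc : L.card = Fintype.card T := by
    rw [card_disjSum, card_univ]
    omega
  have hall : ∀ S : Finset (Z ⊕ Y), S ⊆ L →
      S.card ≤ (S.biUnion fun l => univ.image (f l) ∪ back l).card := by
    intro S hS
    by_cases hc : 4 * S.card ≤ 3 * Fintype.card T + 4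
    · refine (hf S hc).trans (card_le_card (biUnion_mono fun l _ => subset_union_left))
    by_contra hlt
    push Not at hlt hc
    have hSL := card_le_card hS
    obtain ⟨R, hR1, hR2⟩ := exists_subset_card_eq
      (s := univ \ S.biUnion fun l => univ.image (f l) ∪ back l)
      (n := Fintype.card T - S.card + 1) (by
        rw [card_sdiff_of_subset (subset_univ _), card_univ]
        omega)
    have h1 := hf' R (by omega)
    have h2 : (R.biUnion fun t => univ.image (f' t)).card ≤ (L \ S).card := by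
      refine card_le_card_of_injOn Sum.inr (fun y hy => ?_) (fun _ _ _ _ h => Sum.inr_injective h)
      obtain ⟨t, ht, hy⟩ := mem_biUnion.mp (mem_coe.mp hy)
      obtain ⟨k, -, rfl⟩ := mem_image.mp hy
      refine mem_coe.mpr (mem_sdiff.mpr ⟨(hL _).mpr fun z hz => by simp at hz, fun hmem => ?_⟩)
      refine (mem_sdiff.mp (hR1 ht)).2 (mem_biUnion.mpr ⟨_, hmem, mem_union_right _ ?_⟩)
      exact (hback _ _).mpr ⟨k, rfl⟩
    rw [card_sdiff_of_subset hS] at h2
    omega
  obtain ⟨g0, hg0, hg1⟩ := (all_card_le_biUnion_card_iff_exists_injective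
    (fun l : L => univ.image (f l.1) ∪ back l.1)).mp (fun S => by
      have h1 := hall (S.map (Function.Embedding.subtype _)) (fun l hl => by
        obtain ⟨l', -, rfl⟩ := mem_map.mp hl
        exact l'.2)
      rw [card_map] at h1
      refine h1.trans (card_le_card fun t ht => ?_)
      obtain ⟨l, hl, ht⟩ := mem_biUnion.mp ht
      obtain ⟨l', hl', rfl⟩ := mem_map.mp hl
      exact mem_biUnion.mpr ⟨l', hl', ht⟩)
  have hbij : Function.Bijective g0 :=
    (Fintype.bijective_iff_injective_and_card g0).mpr ⟨hg0, by rw [Fintype.card_coe, hLc]⟩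
  obtain ⟨t0⟩ := hTn
  have hg : ∀ l (h : l ∈ L), (if h : l ∈ L then g0 ⟨l, h⟩ else t0) = g0 ⟨l, h⟩ :=
    fun l h => dif_pos h
  refine ⟨fun l => if h : l ∈ L then g0 ⟨l, h⟩ else t0, fun z hz => ?_, fun y => ?_,
    fun _ _ => Set.mem_univ _, fun l hl l' hl' h => ?_, fun t _ => ?_⟩
  · have h : Sum.inl z ∈ L := (hL _).mpr fun z' hz' => by
      rw [← Sum.inl_injective hz']
      exact hz
    show (if h : Sum.inl z ∈ L then g0 ⟨_, h⟩ else t0) ∈ _
    rw [hg _ h]
    exact hg1 ⟨_, h⟩
  · have h : Sum.inr y ∈ L := (hL _).mpr fun z' hz' => by simp at hz'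
    show (if h : Sum.inr y ∈ L then g0 ⟨_, h⟩ else t0) ∈ _
    rw [hg _ h]
    exact hg1 ⟨_, h⟩
  · have h1 : l ∈ L := (hL _).mpr hl
    have h2 : l' ∈ L := (hL _).mpr hl'
    have h3 : g0 ⟨l, h1⟩ = g0 ⟨l', h2⟩ := by
      rw [← hg _ h1, ← hg _ h2]
      exact h
    exact congrArg Subtype.val (hg0 h3)
  · obtain ⟨l, rfl⟩ := hbij.2 t
    exact ⟨l.1, (hL _).mp l.2, hg _ l.2⟩

end Pool.Agent.Lib.MP_34bdde_co
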