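import Mathlib
import Pool.Agent.Lib.MP_34bdde_co.LoopsA
import Pool.Agent.Lib.MP_34bdde_co.Template

set_option autoImplicit false

open Finset
open scoped Classical

noncomputable section

namespace Pool.Agent.Lib.MP_34bdde_co

/- PLAN copies: one copy of the piece p for every choice function κ : (darts of p) → stars with
κ d in N d. New pieces: Σ p, ((d : {d // pc d = p}) → {t // t ∈ N d}); new darts: Σ copy, darts of
its piece; st = κ d. Apply star. Given ON and g switch on the copies (p, κ) with ON p and κ = g.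
PLAN loops: s := ⌊η' n⌋₊. For every vertex v apply template to Z = darts at v, Y = Fin (2 s),
T v = Fin (2 s + j v). For every buffer (v, y) choose a triangle v, u, u' (pickV twice, no colour,
weight |N (inr y)|). New darts: old darts + 3 darts per triangle. Stars: (Σ v, T v) + two private
stars per triangle (bases u, u'). N: old dart d at v: template neighbours; triangle dart at v:
template neighbours of the buffer; triangle darts at u, u': the private star. All triangles are
switched on. A = A' + the edges of the triangles. Product of |N| over an old piece <= 30^8. -/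

/-- Pieces against loops, every dart has a set of allowed stars. -/
theorem copies (ε η : ℝ) (hε : 0 < ε) (hη : 0 < η) : ∃ η' : ℝ, 0 < η' ∧ ∃ n0 : ℕ,
    ∀ (V W : Type) [Fintype V] [Fintype W] (G : SimpleGraph V) (md : Bool)
      (UE : Multiset (Sym2 V)) (US : Multiset (V × W)),
      n0 ≤ Fintype.card V → Env W G md ε → Ok η' UE US →
      ∀ (𝒟 : Darts V) (T : Type) [Fintype T] (base : T → V) (N : 𝒟.D → Finset T),
      (∀ δ, ∀ t ∈ N δ, base t = 𝒟.x δ) → (∀ p, (cnt fun δ => 𝒟.pc δ = p) ≤ 8) →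
      (∀ δ, 𝒟.edge δ ∈ UE) →
      (∀ v, ((wsum (fun δ => 𝒟.x δ = v) fun δ =>
        ∏ δ' ∈ univ.filter (fun δ' => 𝒟.pc δ' = 𝒟.pc δ), (N δ').card : ℕ) : ℝ) ≤
          η' * Fintype.card V) →
      (∀ v, ((cnt fun t => base t = v : ℕ) : ℝ) ≤ η' * Fintype.card V) →
      ∃ A O Φ, Good G md η UE US A O Φ ∧
        sysDeg O Φ = bd A + 2 • ∑ t, ({base t} : Multiset V) ∧
        ∀ (ON : 𝒟.P → Bool) (g : 𝒟.D → T), (∀ δ, ON (𝒟.pc δ) = true → g δ ∈ N δ) →
          Set.BijOn g {δ | ON (𝒟.pc δ) = true} Set.univ → Rz O Φ (A + 𝒟.on ON) :=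
  copies' ε η hε hη

section Tri

variable {V : Type}

/-- The old darts together with one triangle `a i, b i, c i` for every `i`. -/
@[reducible] def Darts.addTri (𝒟 : Darts V) (I : Type) [Fintype I] (a b c : I → V)
    (hab : ∀ i, a i ≠ b i) (hbc : ∀ i, b i ≠ c i) (hca : ∀ i, c i ≠ a i) : Darts V where
  P := 𝒟.P ⊕ I
  D := 𝒟.D ⊕ I × Fin 3
  pc := Sum.map 𝒟.pc Prod.fst
  nxt := Equiv.sumCongr 𝒟.nxt (Equiv.prodCongr (Equiv.refl I) (finRotate 3))
  x := Sum.elim 𝒟.x fun q => ![a q.1, b q.1, c q.1] q.2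
  pc_nxt := by
    rintro (d | ⟨i, r⟩)
    · exact congrArg Sum.inl (𝒟.pc_nxt d)
    · rfl
  ne := by
    rintro (d | ⟨i, r⟩)
    · exact 𝒟.ne d
    · fin_cases r
      · exact hab i
      · exact hbc i
      · exact hca i

variable (𝒟 : Darts V) (I : Type) [Fintype I] (a b c : I → V)
  (hab : ∀ i, a i ≠ b i) (hbc : ∀ i, b i ≠ c i) (hca : ∀ i, c i ≠ a i)

/-- The edges of the triangles. -/
def triE : Multiset (Sym2 V) := ∑ i, {s(a i, b i), s(b i, c i), s(c i, a i)}

lemma addTri_on (ON : 𝒟.P → Bool) :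
    (𝒟.addTri I a b c hab hbc hca).on (Sum.elim ON fun _ => true) =
      𝒟.on ON + triE I a b c := by
  unfold Darts.on triE
  refine (Fintype.sum_sum_type _).trans ?_
  congr 1
  refine (Fintype.sum_prod_type _).trans (Finset.sum_congr rfl fun i _ => ?_)
  rw [Fin.sum_univ_three]
  rfl

lemma addTri_piece (h : ∀ p, (cnt fun δ => 𝒟.pc δ = p) ≤ 8)
    (p : (𝒟.addTri I a b c hab hbc hca).P) :
    (cnt fun δ => (𝒟.addTri I a b c hab hbc hca).pc δ = p) ≤ 8 := by
  rw [cnt_eq_sum]
  refine le_trans (le_of_eq (Fintype.sum_sum_type _)) ?_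
  rcases p with p | i
  · have := h p
    rw [cnt_eq_sum] at this
    simpa using this
  · rw [Fintype.sum_prod_type]
    simp [Finset.sum_ite_eq']

lemma addTri_edge {UE : Multiset (Sym2 V)} (h : ∀ δ, 𝒟.edge δ ∈ UE)
    (δ : (𝒟.addTri I a b c hab hbc hca).D) :
    (𝒟.addTri I a b c hab hbc hca).edge δ ∈ UE + triE I a b c := by
  rcases δ with d | ⟨i, r⟩
  · exact Multiset.mem_add.2 (Or.inl (h d))
  · refine Multiset.mem_add.2 (Or.inr (Multiset.mem_sum.2 ⟨i, Finset.mem_univ _, ?_⟩))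
    fin_cases r
    · exact Multiset.mem_cons_self _ _
    · exact Multiset.mem_cons_of_mem (Multiset.mem_cons_self _ _)
    · exact Multiset.mem_cons_of_mem (Multiset.mem_cons_of_mem (Multiset.mem_singleton_self _))

lemma addTri_load [hd : DecidableEq (𝒟.P ⊕ I)] (wt : 𝒟.D ⊕ I × Fin 3 → ℕ) (m : I → ℕ) (B : ℕ)
    (h8 : ∀ p, (cnt fun δ => 𝒟.pc δ = p) ≤ 8) (hB : 1 ≤ B) (h1 : ∀ d, wt (Sum.inl d) ≤ B)
    (h2 : ∀ i, wt (Sum.inr (i, 0)) * wt (Sum.inr (i, 1)) * wt (Sum.inr (i, 2)) ≤ m i) (v : V) :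
    (wsum (fun δ => (𝒟.addTri I a b c hab hbc hca).x δ = v) fun δ =>
      ∏ δ' ∈ univ.filter (fun δ' => (𝒟.addTri I a b c hab hbc hca).pc δ' =
        (𝒟.addTri I a b c hab hbc hca).pc δ), wt δ') ≤
      B ^ 8 * (cnt fun δ => 𝒟.x δ = v) + (wsum (fun i => a i = v) m +
        wsum (fun i => b i = v) m + wsum (fun i => c i = v) m) := by
  rw [loops_wsum_eq_sum, loops_wsum_eq_sum, loops_wsum_eq_sum, loops_wsum_eq_sum, cnt_eq_sum]
  refine le_trans (le_of_eq (Fintype.sum_sum_type _)) (add_le_add ?_ ?_)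
  · rw [Finset.mul_sum]
    refine Finset.sum_le_sum fun d _ => ?_
    by_cases h : 𝒟.x d = v
    · rw [if_pos h, if_pos (show (𝒟.addTri I a b c hab hbc hca).x (Sum.inl d) = v from h),
        mul_one]
      refine le_trans (Finset.prod_le_pow_card _ _ B ?_) (Nat.pow_le_pow_right hB ?_)
      · rintro (d' | q) hd'
        · exact h1 d'
        · simp at hd'
      · rw [← cnt_def]
        exact addTri_piece 𝒟 I a b c hab hbc hca h8 _
    · rw [if_neg h, if_neg (show ¬ (𝒟.addTri I a b c hab hbc hca).x (Sum.inl d) = v from h)]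
      exact Nat.zero_le _
  · rw [Fintype.sum_prod_type, ← Finset.sum_add_distrib, ← Finset.sum_add_distrib]
    refine Finset.sum_le_sum fun i _ => ?_
    have key : ∀ r : Fin 3, ∏ δ' ∈ univ.filter (fun δ' => (𝒟.addTri I a b c hab hbc hca).pc δ' =
        (𝒟.addTri I a b c hab hbc hca).pc (Sum.inr (i, r))), wt δ' ≤ m i := by
      intro r
      refine le_trans (le_of_eq ?_) (h2 i)
      rw [← Fin.prod_univ_three fun r => wt (Sum.inr (i, r))]
      symm
      refine Finset.prod_bij (fun r _ => Sum.inr (i, r)) (fun r _ => by simp)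
        (fun r _ r' _ h => by simpa using h) ?_ fun _ _ => rfl
      rintro (d | ⟨i', r'⟩) h
      · simp at h
      · obtain rfl : i' = i := by simpa using h
        exact ⟨r', Finset.mem_univ _, rfl⟩
    rw [Fin.sum_univ_three]
    refine add_le_add (add_le_add ?_ ?_) ?_
    · show (if a i = v then _ else 0) ≤ _
      split_ifs
      · exact key 0
      · exact le_rfl
    · show (if b i = v then _ else 0) ≤ _
      split_ifs
      · exact key 1
      · exact le_rfl
    · show (if c i = v then _ else 0) ≤ _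
      split_ifs
      · exact key 2
      · exact le_rfl

lemma bd_triE : bd (triE I a b c) =
    2 • (∑ i, ({a i} : Multiset V) + ∑ i, ({b i} : Multiset V) + ∑ i, ({c i} : Multiset V)) := by
  unfold triE
  rw [bd_sum, ← Finset.sum_add_distrib, ← Finset.sum_add_distrib, Finset.smul_sum]
  refine Finset.sum_congr rfl fun i _ => ?_
  simp only [Multiset.insert_eq_cons, bd_cons, bd_single, two_smul]
  simp only [← Multiset.singleton_add]
  abel

lemma loops_count_sum (g : I → V) (v : V) :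
    (∑ i, ({g i} : Multiset V)).count v = cnt fun i => g i = v := by
  rw [Multiset.count_sum', cnt_eq_sum]
  refine Finset.sum_congr rfl fun i _ => ?_
  rw [Multiset.count_singleton]
  by_cases h : g i = v
  · rw [if_pos h, if_pos h.symm]
  · rw [if_neg h, if_neg (Ne.symm h)]

lemma loops_wsum_sigma [Fintype V] (β : V → Type) [∀ v, Fintype (β v)] (m : (Σ v, β v) → ℕ)
    (v : V) : wsum (fun i : Σ v, β v => i.1 = v) m = ∑ y : β v, m ⟨v, y⟩ := by
  rw [loops_wsum_eq_sum, Fintype.sum_sigma, Finset.sum_eq_single v]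
  · simp
  · intro v' _ h
    simp [h]
  · simp

lemma loops_cnt_sigma [Fintype V] (k : V → ℕ) (v : V) :
    (cnt fun i : Σ v, Fin (k v) => i.1 = v) = k v := by
  have := loops_wsum_sigma (fun v => Fin (k v)) (fun _ => 1) v
  rw [loops_wsum_eq_sum] at this
  rw [cnt_eq_sum, this]
  simp

end Tri

/-- Any set of pieces passing exactly `j v` times through every vertex `v` is absorbed. -/
theorem loops (ε η : ℝ) (hε : 0 < ε) (hη : 0 < η) : ∃ η' : ℝ, 0 < η' ∧ ∃ n0 : ℕ,
    ∀ (V W : Type) [Fintype V] [Fintype W] (G : SimpleGraph V) (md : Bool)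
      (UE : Multiset (Sym2 V)) (US : Multiset (V × W)),
      n0 ≤ Fintype.card V → Env W G md ε → Ok η' UE US →
      ∀ (𝒟 : Darts V) (j : V → ℕ),
      (∀ p, (cnt fun δ => 𝒟.pc δ = p) ≤ 8) → (∀ δ, 𝒟.edge δ ∈ UE) →
      (∀ v, ((cnt fun δ => 𝒟.x δ = v : ℕ) : ℝ) ≤ η' * Fintype.card V) →
      (∀ v, (j v : ℝ) ≤ η' * Fintype.card V) →
      ∃ A O Φ, Good G md η UE US A O Φ ∧
        (∀ v, (sysDeg O Φ).count v = (bd A).count v + 2 * j v) ∧
        ∀ ON : 𝒟.P → Bool,
          (∀ v, (cnt fun δ => ON (𝒟.pc δ) = true ∧ 𝒟.x δ = v) = j v) →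
          Rz O Φ (A + 𝒟.on ON) := by
  obtain ⟨η₁, hη₁, n₁, HC⟩ := copies ε η hε hη
  obtain ⟨η₃, hη₃, P2⟩ := pickV ε (η₁ / 4) hε (by positivity)
  obtain ⟨θ, hθ, hθ1, hθ2⟩ : ∃ θ : ℝ, 0 < θ ∧ θ ≤ η₃ / 2 ∧ θ ≤ η₁ / 4 :=
    ⟨min (η₃ / 2) (η₁ / 4), by positivity, min_le_left _ _, min_le_right _ _⟩
  obtain ⟨η₄, hη₄, P1⟩ := pickV ε θ hε hθ
  obtain ⟨η', hη', k1, k3, k4⟩ : ∃ η' : ℝ, 0 < η' ∧ 10 ^ 13 * η' ≤ η₁ ∧ 10 ^ 13 * η' ≤ η₃ ∧
      10 ^ 13 * η' ≤ η₄ := by
    refine ⟨min η₁ (min η₃ η₄) / 10 ^ 13, by positivity, ?_, ?_, ?_⟩ <;>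
      rw [mul_div_cancel₀ _ (by positivity)]
    · exact min_le_left _ _
    · exact (min_le_right _ _).trans (min_le_left _ _)
    · exact (min_le_right _ _).trans (min_le_right _ _)
  refine ⟨η', hη', max n₁ ⌈1 / η'⌉₊, ?_⟩
  intro V W _ _ G md UE US hn hE hO 𝒟 j h8 hUE hx hj
  have hn0 : (0 : ℝ) ≤ Fintype.card V := Nat.cast_nonneg _
  have hX1 : 1 ≤ η' * Fintype.card V := by
    have h1 : 1 / η' ≤ Fintype.card V :=
      (Nat.le_ceil _).trans (Nat.cast_le.2 ((le_max_right _ _).trans hn))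
    rwa [div_le_iff₀' hη'] at h1
  have l1 := mul_le_mul_of_nonneg_right k1 hn0
  have l3 := mul_le_mul_of_nonneg_right k3 hn0
  have l4 := mul_le_mul_of_nonneg_right k4 hn0
  have t1 := mul_le_mul_of_nonneg_right hθ1 hn0
  have t2 := mul_le_mul_of_nonneg_right hθ2 hn0
  obtain ⟨s, hs, hsx, hsj⟩ : ∃ s : ℕ, (s : ℝ) ≤ η' * Fintype.card V ∧
      (∀ v, (cnt fun δ => 𝒟.x δ = v) ≤ s) ∧ ∀ v, j v ≤ s :=
    ⟨⌊η' * Fintype.card V⌋₊, Nat.floor_le (by linarith), fun v => Nat.le_floor (hx v),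
      fun v => Nat.le_floor (hj v)⟩
  have HT := fun v => template {d // 𝒟.x d = v} (Fin (2 * s)) (Fin (2 * s + j v)) s
    (by rw [Fintype.card_subtype, ← cnt_def]; exact hsx v) (Fintype.card_fin _)
    (by rw [Fintype.card_fin]; omega) (by rw [Fintype.card_fin]; have := hsj v; omega)
  choose Nt hN1 hN2 hN3 using HT
  set I : Type := Σ _ : V, Fin (2 * s) with hI
  set wt : I → ℕ := fun i => (Nt i.1 (Sum.inr i.2)).card with hwt
  have hcI : ∀ v, (cnt fun i : I => i.1 = v) = 2 * s := loops_cnt_sigma fun _ => 2 * s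
  have hwt1 : ∀ i, (wt i : ℝ) + 1 ≤ 4 * (η' * Fintype.card V) := by
    intro i
    have h1 : wt i ≤ 3 * s := by
      have := Finset.card_le_univ (Nt i.1 (Sum.inr i.2))
      rw [Fintype.card_fin] at this
      have := hsj i.1
      simp only [hwt]
      omega
    have h2 : (wt i : ℝ) ≤ 3 * s := by exact_mod_cast h1
    linarith
  have hwt2 : ∑ i, ((wt i : ℝ) + 1) ≤ Fintype.card V * (152 * (η' * Fintype.card V)) := by
    rw [Fintype.sum_sigma]
    refine le_trans (Finset.sum_le_sum (g := fun _ => 152 * (η' * Fintype.card V))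
      fun v _ => ?_) (by simp)
    have h1 : ((∑ y, (Nt v (Sum.inr y)).card : ℕ) : ℝ) ≤ (150 * s : ℕ) := Nat.cast_le.2 (hN2 v)
    rw [Finset.sum_add_distrib]
    simp only [Finset.sum_const, Finset.card_univ, Fintype.card_fin, nsmul_eq_mul, mul_one, hwt]
    push_cast at h1 ⊢
    linarith
  have hc0 : ∀ w : W, (cnt fun _ : I => w ∈ (∅ : Finset W)) = 0 := fun w => by
    rw [cnt_def]; simp
  have hle1 : ∀ (z : I → V) v, (cnt fun i => z i = v) ≤ wsum (fun i => z i = v) fun i => wt i + 1 :=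
    fun z v => cnt_le_wsum _ _
  have hle2 : ∀ (z : I → V) v,
      wsum (fun i => z i = v) wt ≤ wsum (fun i => z i = v) fun i => wt i + 1 :=
    fun z v => Finset.sum_le_sum fun i _ => Nat.le_succ _
  obtain ⟨u, hu, -, hO1, hl1⟩ := P1 V W G 2 UE US (by norm_num) hE.d2
    (hO.mono (by linarith) le_rfl le_rfl) I (fun i => {i.1}) (fun _ => ∅) (fun _ => ∅) wt
    (fun i => by simp) (fun i => by simp) (fun i => by simp; positivity)
    (fun v => by
      have : (cnt fun i : I => v ∈ ({i.1} : Finset V)) = 2 * s := by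
        refine Eq.trans ?_ (hcI v)
        congr 1; ext i; simp [eq_comm]
      rw [this]; push_cast; linarith)
    (fun w => by rw [hc0]; simp; positivity) (fun i => by linarith [hwt1 i])
    (by nlinarith)
  have hu' : ∀ i : I, G.Adj (u i) i.1 := fun i => hu i _ (Finset.mem_singleton_self _)
  obtain ⟨u', hv, -, hO2, hl2⟩ := P2 V W G 2 _ _ (by norm_num) hE.d2
    (hO1.mono (by linarith) le_rfl le_rfl) I
    (fun i => Finset.cons i.1 {u i} (by simpa using (hu' i).ne')) (fun _ => ∅) (fun _ => ∅) wt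
    (fun i => by rw [Finset.card_cons, Finset.card_singleton]) (fun i => by simp) (fun i => by simp; positivity)
    (fun v => by
      have h1 : (cnt fun i : I => v ∈ Finset.cons i.1 {u i} (by simpa using (hu' i).ne')) ≤
          2 * s + wsum (fun i => u i = v) fun i => wt i + 1 := by
        refine le_trans (cnt_mono fun i hi => ?_)
          ((cnt_or_le (fun i : I => i.1 = v) fun i => u i = v).trans
            (add_le_add (hcI v).le (hle1 u v)))
        simpa [eq_comm] using hi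
      have h2 := (Nat.cast_le (α := ℝ)).2 h1
      have h3 := hl1 v
      push_cast at h2
      linarith)
    (fun w => by rw [hc0]; simp; positivity) (fun i => by linarith [hwt1 i])
    (by nlinarith)
  have hv1 : ∀ i : I, G.Adj (u' i) i.1 := fun i => hv i _ (Finset.mem_cons_self _ _)
  have hv2 : ∀ i : I, G.Adj (u' i) (u i) := fun i =>
    hv i _ (Finset.mem_cons_of_mem (Finset.mem_singleton_self _))
  have hO3 : Ok η₁ (UE + triE I Sigma.fst u u') US := by
    refine hO2.mono (by linarith) (le_of_eq ?_) (by simp)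
    rw [add_assoc, ← Finset.sum_add_distrib]
    refine congrArg (UE + ·) (Finset.sum_congr rfl fun i _ => ?_)
    simp only [Finset.singleton_val, Finset.cons_val, Multiset.map_cons, Multiset.map_singleton,
      Multiset.insert_eq_cons]
    rw [Sym2.eq_swap (a := i.1), Sym2.eq_swap (a := u i) (b := u' i)]
    simp only [← Multiset.singleton_add]
    abel
  have hab : ∀ i : I, i.1 ≠ u i := fun i => (hu' i).ne'
  have hbc : ∀ i : I, u i ≠ u' i := fun i => (hv2 i).ne'
  have hca : ∀ i : I, u' i ≠ i.1 := fun i => (hv1 i).ne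
  set T : Type := (Σ v : V, Fin (2 * s + j v)) ⊕ I × Fin 2 with hT
  set base : T → V := Sum.elim Sigma.fst fun q => ![u q.1, u' q.1] q.2 with hbase
  set N : 𝒟.D ⊕ I × Fin 3 → Finset T := Sum.elim
    (fun d => (Nt (𝒟.x d) (Sum.inl ⟨d, rfl⟩)).image fun t => Sum.inl ⟨𝒟.x d, t⟩)
    fun q => ![(Nt q.1.1 (Sum.inr q.1.2)).image fun t => Sum.inl ⟨q.1.1, t⟩,
      {Sum.inr (q.1, 0)}, {Sum.inr (q.1, 1)}] q.2 with hN
  have hsum : ∑ t, ({base t} : Multiset V) = ∑ t : (Σ v : V, Fin (2 * s + j v)), {t.1} +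
      (∑ i, ({u i} : Multiset V) + ∑ i, ({u' i} : Multiset V)) := by
    refine (Fintype.sum_sum_type _).trans ?_
    rw [Fintype.sum_prod_type, ← Finset.sum_add_distrib]
    refine congrArg₂ (· + ·) rfl (Finset.sum_congr rfl fun i _ => ?_)
    rw [Fin.sum_univ_two]
    rfl
  have hcb : ∀ v, (cnt fun t => base t = v) =
      2 * s + j v + ((cnt fun i => u i = v) + cnt fun i => u' i = v) := by
    intro v
    rw [← loops_count_sum, hsum, Multiset.count_add, Multiset.count_add, loops_count_sum,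
      loops_count_sum, loops_count_sum, loops_cnt_sigma]
  obtain ⟨A, O, Φ, hG, hD, hR⟩ := HC V W G md _ US ((le_max_left _ _).trans hn) hE hO3
    (𝒟.addTri I Sigma.fst u u' hab hbc hca) T base N
    (by
      rintro (d | ⟨i, r⟩) t ht
      · obtain ⟨t', -, rfl⟩ := Finset.mem_image.1 ht
        rfl
      · fin_cases r
        · obtain ⟨t', -, rfl⟩ := Finset.mem_image.1 ht
          rfl
        · obtain rfl := Finset.mem_singleton.1 ht
          rfl
        · obtain rfl := Finset.mem_singleton.1 ht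
          rfl)
    (addTri_piece 𝒟 I _ u u' hab hbc hca h8) (addTri_edge 𝒟 I _ u u' hab hbc hca hUE)
    (fun v => by
      have h1 := addTri_load (hd := fun a b => Classical.propDecidable (a = b)) 𝒟 I _ u u' hab hbc
        hca (fun δ => (N δ).card) wt 30 h8 (by norm_num)
        (fun d => Finset.card_image_le.trans (hN1 _ _))
        (fun i => by
          show _ * 1 * 1 ≤ _
          rw [mul_one, mul_one]
          exact Finset.card_image_le) v
      have h2 : wsum (fun i : I => i.1 = v) wt ≤ 150 * s := by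
        rw [loops_wsum_sigma (fun _ => Fin (2 * s)) wt v]
        exact hN2 v
      have h3 := (Nat.cast_le (α := ℝ)).2 (h1.trans (add_le_add
        (Nat.mul_le_mul_left _ (hsx v)) (add_le_add (add_le_add h2 (hle2 u v)) (hle2 u' v))))
      have h4 := hl1 v
      have h5 := hl2 v
      refine h3.trans ?_
      push_cast
      linarith)
    (fun v => by
      have h1 := (Nat.cast_le (α := ℝ)).2 (hle1 u v)
      have h2 := (Nat.cast_le (α := ℝ)).2 (hle1 u' v)
      have h3 := hj v
      have h4 := hl1 v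
      have h5 := hl2 v
      rw [hcb]
      push_cast
      linarith)
  refine ⟨triE I Sigma.fst u u' + A, O, Φ, ⟨by rw [← add_assoc]; exact hG.ok, ?_, hG.sgl, hG.bal⟩,
    fun v => ?_, fun ON hON => ?_⟩
  · intro e he
    rcases Multiset.mem_add.1 he with he | he
    · obtain ⟨i, -, he⟩ := Multiset.mem_sum.1 he
      simp only [Multiset.insert_eq_cons, Multiset.mem_cons, Multiset.mem_singleton] at he
      rcases he with rfl | rfl | rfl
      · exact (hu' i).symm
      · exact (hv2 i).symm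
      · exact hv1 i
    · exact hG.sub e he
  · rw [hD, bd_add, bd_triE]
    simp only [Multiset.count_add, Multiset.count_nsmul, loops_count_sum]
    rw [hcb, hcI]
    ring
  · have HG := fun v => hN3 v (univ.filter fun z : {d // 𝒟.x d = v} => ON (𝒟.pc z.1) = true) (by
      rw [Fintype.card_fin, ← hON v, add_comm, cnt_def]
      congr 1
      refine Finset.card_bij (fun z _ => z.1) (fun z hz => ?_) (fun z _ z' _ h => Subtype.ext h)
        fun d hd => ?_
      · exact Finset.mem_filter.2 ⟨Finset.mem_univ _, (Finset.mem_filter.1 hz).2, z.2⟩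
      · have := (Finset.mem_filter.1 hd).2
        exact ⟨⟨d, this.2⟩, Finset.mem_filter.2 ⟨Finset.mem_univ _, this.1⟩, rfl⟩)
    choose g hg1 hg2 hg3 using HG
    have hinj : ∀ v v' l l', (∀ z : {d // 𝒟.x d = v}, l = Sum.inl z → ON (𝒟.pc z.1) = true) →
        (∀ z : {d // 𝒟.x d = v'}, l' = Sum.inl z → ON (𝒟.pc z.1) = true) →
        (⟨v, g v l⟩ : Σ v : V, Fin (2 * s + j v)) = ⟨v', g v' l'⟩ →
        (l.map Subtype.val fun y => (⟨v, y⟩ : I)) = l'.map Subtype.val fun y => (⟨v', y⟩ : I) := by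
      intro v v' l l' h1 h2 h3
      obtain rfl : v = v' := congrArg Sigma.fst h3
      have h4 : g v l = g v l' := eq_of_heq (Sigma.mk.inj h3).2
      rw [(hg3 v).2.1 (fun z hz => Finset.mem_filter.2 ⟨Finset.mem_univ _, h1 z hz⟩)
        (fun z hz => Finset.mem_filter.2 ⟨Finset.mem_univ _, h2 z hz⟩) h4]
    have hR' := hR (Sum.elim ON fun _ => true) (Sum.elim
      (fun d => Sum.inl ⟨𝒟.x d, g _ (Sum.inl ⟨d, rfl⟩)⟩)
      fun q => ![Sum.inl ⟨q.1.1, g _ (Sum.inr q.1.2)⟩, Sum.inr (q.1, 0), Sum.inr (q.1, 1)] q.2)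
      ?_ ⟨fun _ _ => Set.mem_univ _, ?_, ?_⟩
    · rw [addTri_on] at hR'
      rw [add_comm _ A, add_assoc, add_comm _ (𝒟.on ON)]
      exact hR'
    · rintro (d | ⟨i, r⟩) hd
      · exact Finset.mem_image.2 ⟨_, hg1 _ ⟨d, rfl⟩
          (Finset.mem_filter.2 ⟨Finset.mem_univ _, hd⟩), rfl⟩
      · fin_cases r
        · exact Finset.mem_image.2 ⟨_, hg2 _ _, rfl⟩
        · exact Finset.mem_singleton_self _
        · exact Finset.mem_singleton_self _
    · rintro (d | ⟨i, r⟩) hd (d' | ⟨i', r'⟩) hd' h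
      · have := hinj _ _ _ _ (by rintro z ⟨rfl⟩; exact hd) (by rintro z ⟨rfl⟩; exact hd')
          (Sum.inl.inj h)
        exact congrArg Sum.inl (Sum.inl.inj this)
      · fin_cases r'
        · have := hinj _ _ _ _ (by rintro z ⟨rfl⟩; exact hd) (by rintro z ⟨⟩) (Sum.inl.inj h)
          cases this
        · cases h
        · cases h
      · fin_cases r
        · have := hinj _ _ _ _ (by rintro z ⟨⟩) (by rintro z ⟨rfl⟩; exact hd') (Sum.inl.inj h)
          cases this
        · cases h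
        · cases h
      · fin_cases r <;> fin_cases r'
        · have := hinj _ _ _ _ (by rintro z ⟨⟩) (by rintro z ⟨⟩) (Sum.inl.inj h)
          obtain rfl : i = i' := Sum.inr.inj this
          rfl
        · cases h
        · cases h
        · cases h
        · obtain rfl : i = i' := congrArg Prod.fst (Sum.inr.inj h)
          rfl
        · exact absurd (congrArg Prod.snd (Sum.inr.inj h)) (by show (0 : Fin 2) ≠ 1; decide)
        · cases h
        · exact absurd (congrArg Prod.snd (Sum.inr.inj h)) (by show (1 : Fin 2) ≠ 0; decide)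
        · obtain rfl : i = i' := congrArg Prod.fst (Sum.inr.inj h)
          rfl
    · rintro (⟨v, t⟩ | ⟨i, r⟩) -
      · obtain ⟨l, hl, rfl⟩ := (hg3 v).2.2 (Set.mem_univ t)
        rcases l with ⟨d, rfl⟩ | y
        · exact ⟨Sum.inl d, (Finset.mem_filter.1 (hl _ rfl)).2, rfl⟩
        · exact ⟨Sum.inr (⟨v, y⟩, 0), rfl, rfl⟩
      · fin_cases r
        · exact ⟨Sum.inr (i, 1), rfl, rfl⟩
        · exact ⟨Sum.inr (i, 2), rfl, rfl⟩

end Pool.Agent.Lib.MP_34bdde_co
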