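import Mathlib
import Pool.Agent.Lib.MP_34bdde_co.Defs

set_option autoImplicit false

open Finset
open scoped Classical

noncomputable section

namespace Pool.Agent.Lib.MP_34bdde_co

variable {V : Type}

/-- The multiset of the values `f e` over the `e` with `p e`. -/
def ms {E β : Type} [Fintype E] (p : E → Prop) (f : E → β) : Multiset β :=
  ∑ e, if p e then {f e} else 0

lemma ms_map {E β γ : Type} [Fintype E] (p : E → Prop) (f : E → β) (g : β → γ) :
    (ms p f).map g = ms p fun e => g (f e) := by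
  unfold ms
  refine (map_sum (Multiset.mapAddMonoidHom g) _ _).trans (Finset.sum_congr rfl fun e _ => ?_)
  split_ifs <;> simp

lemma ms_sum {E E' β : Type} [Fintype E] [Fintype E'] (p : E ⊕ E' → Prop) (f : E ⊕ E' → β) :
    ms p f = (ms (fun e => p (Sum.inl e)) fun e => f (Sum.inl e)) +
      ms (fun e => p (Sum.inr e)) fun e => f (Sum.inr e) :=
  Fintype.sum_sum_type _

lemma ms_split {E β : Type} [Fintype E] (p : E → Prop) (f : E → β) :
    ms p f + ms (fun e => ¬ p e) f = ms (fun _ => True) f := by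
  unfold ms
  rw [← Finset.sum_add_distrib]
  refine Finset.sum_congr rfl fun e _ => ?_
  by_cases h : p e <;> simp [h]

lemma ms_subtype {E β : Type} [Fintype E] (T p : E → Prop) (f : E → β) :
    (ms (fun e : {e // T e} => p e.1) fun e => f e.1) +
      (ms (fun e : {e // ¬ T e} => p e.1) fun e => f e.1) = ms p f :=
  Fintype.sum_subtype_add_sum_subtype T fun e => if p e then ({f e} : Multiset β) else 0

lemma ms_empty {E β : Type} [Fintype E] [IsEmpty E] (p : E → Prop) (f : E → β) : ms p f = 0 :=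
  Fintype.sum_empty _

lemma ms_false {E β : Type} [Fintype E] {p : E → Prop} (h : ∀ e, ¬ p e) (f : E → β) :
    ms p f = 0 := Finset.sum_eq_zero fun e _ => if_neg (h e)

lemma cnt_sum {E E' : Type} [Fintype E] [Fintype E'] (p : E ⊕ E' → Prop) :
    cnt p = (cnt fun e => p (Sum.inl e)) + cnt fun e => p (Sum.inr e) := by
  rw [cnt_eq_sum, cnt_eq_sum, cnt_eq_sum, Fintype.sum_sum_type]

lemma cnt_false {E : Type} [Fintype E] {p : E → Prop} (h : ∀ e, ¬ p e) : cnt p = 0 := by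
  rw [cnt_eq_sum]
  exact Finset.sum_eq_zero fun e _ => if_neg (h e)

lemma cnt_prod_le {E K : Type} [Fintype E] [Fintype K] (p : E × K → Prop) (q : E → Prop)
    (h : ∀ e k, p (e, k) → q e) : cnt p ≤ Fintype.card K * cnt q := by
  rw [cnt_eq_sum, cnt_eq_sum, Fintype.sum_prod_type, Finset.mul_sum]
  refine Finset.sum_le_sum fun e _ => ?_
  by_cases hq : q e
  · rw [if_pos hq, mul_one, ← cnt_eq_sum]
    exact cnt_le_card _
  · rw [Finset.sum_eq_zero fun k _ => if_neg fun hp => hq (h e k hp)]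
    exact Nat.zero_le _

lemma cnt_subtype_le {E : Type} [Fintype E] (T : E → Prop) [Fintype {e // T e}]
    (p : {e // T e} → Prop) (q : E → Prop)
    (h : ∀ e, p e → q e.1) : cnt p ≤ cnt q :=
  cnt_le_of_injOn Subtype.val h fun _ _ _ _ h => Subtype.ext h

lemma count_bd_ms {E : Type} [Fintype E] (p : E → Prop) {f : E → Sym2 V}
    (hf : ∀ e, ¬ (f e).IsDiag) (v : V) :
    (bd (ms p f)).count v = cnt fun e => p e ∧ v ∈ f e := by
  unfold ms
  rw [bd_sum, Multiset.count_sum', cnt_eq_sum]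
  refine Finset.sum_congr rfl fun e _ => ?_
  by_cases h : p e
  · have h1 := hf e
    rw [if_pos h]
    generalize f e = k at h1 ⊢
    induction k using Sym2.ind with
    | h a b =>
      rw [Sym2.mk_isDiag_iff] at h1
      rw [bd_single]
      by_cases ha : v = a
      · subst ha
        simp [h, h1]
      · by_cases hb : v = b
        · subst hb
          simp [h, ha]
        · simp [ha, hb]
  · simp [h]

lemma even_bd_on (𝒟 : Darts V) (ON : 𝒟.P → Prop) (v : V) :
    Even ((bd (ms (fun δ => ON (𝒟.pc δ)) 𝒟.edge)).count v) := by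
  have e : bd (ms (fun δ => ON (𝒟.pc δ)) 𝒟.edge) =
      ms (fun δ => ON (𝒟.pc δ)) 𝒟.x + ms (fun δ => ON (𝒟.pc δ)) 𝒟.x := by
    have e1 : ms (fun δ => ON (𝒟.pc δ)) 𝒟.x =
        ms (fun δ => ON (𝒟.pc δ)) fun δ => 𝒟.x (𝒟.nxt δ) := by
      unfold ms
      rw [← Equiv.sum_comp 𝒟.nxt]
      simp only [𝒟.pc_nxt]
    nth_rewrite 2 [e1]
    unfold ms
    rw [bd_sum, ← Finset.sum_add_distrib]
    refine Finset.sum_congr rfl fun δ _ => ?_
    split_ifs
    · exact bd_single _ _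
    · rfl
  rw [e, Multiset.count_add]
  exact ⟨_, rfl⟩

/-- Disjoint union of two families of pieces. -/
def Darts.sum (A B : Darts V) : Darts V where
  P := A.P ⊕ B.P
  D := A.D ⊕ B.D
  pc := Sum.map A.pc B.pc
  nxt := Equiv.sumCongr A.nxt B.nxt
  x := Sum.elim A.x B.x
  pc_nxt δ := by
    cases δ with
    | inl δ => exact congrArg Sum.inl (A.pc_nxt δ)
    | inr δ => exact congrArg Sum.inr (B.pc_nxt δ)
  ne δ := by
    cases δ with
    | inl δ => exact A.ne δ
    | inr δ => exact B.ne δ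

/-- The empty family of pieces. -/
def Darts.empty (V : Type) : Darts V where
  P := Empty
  D := Empty
  pc := id
  nxt := Equiv.refl _
  x := Empty.elim
  pc_nxt _ := rfl
  ne δ := δ.elim

/-- A partial refiner: new edges `ρ` and pieces `𝒟` on the vertex set `S` with load `L`. -/
structure Part {E R : Type} [Fintype R] (en : E → Sym2 V) (S : Set V) (L : ℝ) (ρ : R → Sym2 V)
    (𝒟 : Darts V) (lab : 𝒟.D → E ⊕ R) : Prop where
  nd : ∀ r, ¬ (ρ r).IsDiag
  edge : ∀ δ, 𝒟.edge δ = Sum.elim en ρ (lab δ)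
  four : ∀ p, (cnt fun δ => 𝒟.pc δ = p) ≤ 4
  ld : ∀ v, ((cnt fun δ => 𝒟.x δ = v : ℕ) : ℝ) ≤ L
  lr : ∀ v, ((cnt fun r => v ∈ ρ r : ℕ) : ℝ) ≤ L
  liv : ∀ r, ∀ v ∈ ρ r, v ∈ S

/-- The multigraph `en` has a refiner on the vertex set `S` with load `L`. -/
def Ref {E : Type} [Fintype E] (en : E → Sym2 V) (S : Set V) (L : ℝ) : Prop :=
  ∃ (R : Type) (_ : Fintype R) (ρ : R → Sym2 V) (𝒟 : Darts V) (lab : 𝒟.D → E ⊕ R),
    Part en S L ρ 𝒟 lab ∧ ∀ H : E → Prop,
      (∀ v, Even ((bd (ms H en + ms (fun _ => True) ρ)).count v)) →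
      ∃ ON : 𝒟.P → Prop,
        ms (fun δ => ON (𝒟.pc δ)) lab = ms H Sum.inl + ms (fun _ => True) Sum.inr

lemma Ref.mono {E : Type} [Fintype E] {en : E → Sym2 V} {S : Set V} {L L' : ℝ} (h : Ref en S L)
    (hL : L ≤ L') : Ref en S L' := by
  obtain ⟨R, _, ρ, 𝒟, lab, hP, h⟩ := h
  exact ⟨R, _, ρ, 𝒟, lab, ⟨hP.nd, hP.edge, hP.four, fun v => (hP.ld v).trans hL,
    fun v => (hP.lr v).trans hL, hP.liv⟩, h⟩

lemma part_empty {E : Type} (en : E → Sym2 V) (S : Set V) :
    Part en S 0 (R := Empty) Empty.elim (Darts.empty V) Empty.elim :=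
  ⟨fun r => r.elim, fun δ => δ.elim, fun p => p.elim,
    fun _ => by rw [cnt_false fun δ => δ.elim]; simp,
    fun _ => by rw [cnt_false fun δ => δ.elim]; simp, fun r => r.elim⟩

lemma ref_empty {E : Type} [Fintype E] [IsEmpty E] (en : E → Sym2 V) (S : Set V) :
    Ref en S 0 :=
  ⟨Empty, inferInstance, _, _, _, part_empty en S, fun _ _ => ⟨fun _ => True, by
    rw [ms_empty (E := E), ms_empty (E := Empty), add_zero]
    exact ms_false (fun δ => δ.elim) _⟩⟩

theorem Ref.stage {E E' R₁ : Type} [Fintype E] [Fintype E'] [Fintype R₁] {en : E → Sym2 V}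
    {en' : E' → Sym2 V} {ρ₁ : R₁ → Sym2 V} {𝒟 : Darts V} {lab₁ : 𝒟.D → E ⊕ R₁} {S S' : Set V}
    {L₁ L' : ℝ} (hP : Part en S L₁ ρ₁ 𝒟 lab₁) (hS : S' ⊆ S) (j : E' → E ⊕ R₁)
    (hj : ∀ e, Sum.elim en ρ₁ (j e) = en' e)
    (hcov : ∀ H : E → Prop, (∀ v ∉ S', Even ((bd (ms H en + ms (fun _ => True) ρ₁)).count v)) →
      ∃ (ON : 𝒟.P → Prop) (H' : E' → Prop), ms (fun δ => ON (𝒟.pc δ)) lab₁ + ms H' j =
        ms H Sum.inl + ms (fun _ => True) Sum.inr)
    (hR : Ref en' S' L') : Ref en S (L₁ + L') := by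
  obtain ⟨R', _, ρ', 𝒟', lab', hP', h'⟩ := hR
  let g₁ : E ⊕ R₁ → E ⊕ (R₁ ⊕ R') := Sum.map id Sum.inl
  let g₂ : E' ⊕ R' → E ⊕ (R₁ ⊕ R') := Sum.elim (fun e => g₁ (j e)) fun r => Sum.inr (Sum.inr r)
  have a₁ : ∀ l, Sum.elim en (Sum.elim ρ₁ ρ') (g₁ l) = Sum.elim en ρ₁ l := by
    rintro (l | l) <;> rfl
  have a₂ : ∀ l, Sum.elim en (Sum.elim ρ₁ ρ') (g₂ l) = Sum.elim en' ρ' l := by
    rintro (l | l)
    · exact (a₁ _).trans (hj l)
    · rfl
  refine ⟨R₁ ⊕ R', inferInstance, Sum.elim ρ₁ ρ', 𝒟.sum 𝒟',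
    Sum.elim (fun δ => g₁ (lab₁ δ)) fun δ => g₂ (lab' δ), ⟨?_, ?_, ?_, fun v => ?_, fun v => ?_, ?_⟩,
    fun H hH => ?_⟩
  · rintro (r | r)
    exacts [hP.nd r, hP'.nd r]
  · rintro (δ | δ)
    exacts [(hP.edge δ).trans (a₁ _).symm, (hP'.edge δ).trans (a₂ _).symm]
  · intro p
    refine (cnt_sum (E := 𝒟.D) (E' := 𝒟'.D) _).trans_le ?_
    cases p with
    | inl p =>
      exact add_le_add ((cnt_mono fun _ h => Sum.inl_injective h).trans (hP.four p))
        (cnt_false fun _ h => Sum.inr_ne_inl h).le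
    | inr p =>
      exact add_le_add (cnt_false fun _ h => Sum.inl_ne_inr h).le
        ((cnt_mono fun _ h => Sum.inr_injective h).trans (hP'.four p))
  · refine (congrArg Nat.cast (cnt_sum (E := 𝒟.D) (E' := 𝒟'.D) _)).trans_le ?_
    rw [Nat.cast_add]
    exact add_le_add (hP.ld v) (hP'.ld v)
  · rw [cnt_sum, Nat.cast_add]
    exact add_le_add (hP.lr v) (hP'.lr v)
  · rintro (r | r) v hv
    exacts [hP.liv r v hv, hS (hP'.liv r v hv)]
  · rw [ms_sum, ← add_assoc] at hH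
    simp only [Sum.elim_inl, Sum.elim_inr] at hH
    obtain ⟨ON, H', e⟩ := hcov H fun v hv => by
      have := hH v
      rwa [bd_add, Multiset.count_add, count_bd_ms _ hP'.nd,
        cnt_false fun r h => hv (hP'.liv r v h.2), add_zero] at this
    have e' := congrArg (Multiset.map (Sum.elim en ρ₁)) e
    simp only [Multiset.map_add, ms_map, hj, ← hP.edge, Sum.elim_inl, Sum.elim_inr] at e'
    obtain ⟨ON', e2⟩ := h' H' fun v => by
      have := hH v
      rw [← e', add_assoc, bd_add, Multiset.count_add] at this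
      exact (Nat.even_add.1 this).1 (even_bd_on 𝒟 ON v)
    refine ⟨Sum.elim ON ON', (ms_sum (E := 𝒟.D) (E' := 𝒟'.D) _ _).trans ?_⟩
    have e3 := congrArg (Multiset.map g₁) e
    have e4 := congrArg (Multiset.map g₂) e2
    simp only [Multiset.map_add, ms_map] at e3 e4
    refine (congrArg _ e4).trans ((add_assoc _ _ _).symm.trans ((congrArg (· + _) e3).trans ?_))
    rw [ms_sum (E := R₁) (E' := R'), add_assoc]
    rfl

/-- Edges at a vertex outside `S'` meeting no other edge can be dropped. -/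
theorem Ref.drop {E : Type} [Fintype E] {en : E → Sym2 V} (hd : ∀ e, ¬ (en e).IsDiag)
    {S S' : Set V} (hS : S' ⊆ S) (T : E → Prop)
    (hT : ∀ e, ¬ T e → ∃ v ∈ en e, v ∉ S' ∧ ∀ e', v ∈ en e' → e' = e) {L : ℝ}
    (hR : Ref (fun e : {e // T e} => en e.1) S' L) : Ref en S L := by
  rw [← zero_add L]
  refine Ref.stage (part_empty en S) hS (fun e : {e // T e} => Sum.inl e.1) (fun _ => rfl) (fun H hH => ?_) hR
  refine ⟨fun _ => True, fun e => H e.1, ?_⟩
  rw [ms_empty (E := Empty), add_zero, ← ms_subtype T H, ms_false (E := {e // ¬ T e}), add_zero]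
  · exact (congrArg (· + _) (ms_false (fun δ => δ.elim) _)).trans (zero_add _)
  · intro e he
    obtain ⟨v, h1, h2, h3⟩ := hT e.1 e.2
    have := hH v h2
    rw [ms_empty (E := Empty), add_zero, count_bd_ms _ hd, cnt_def,
      Finset.card_eq_one.2 ⟨e.1, Finset.eq_singleton_iff_unique_mem.2
        ⟨by simp [he, h1], fun e' h => h3 e' (Finset.mem_filter.1 h).2.2⟩⟩] at this
    exact Nat.not_even_one this

end Pool.Agent.Lib.MP_34bdde_co
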