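import Mathlib
import Pool.Agent.Lib.MP_34bdde_co.RefinerA

set_option autoImplicit false

open Finset
open scoped Classical

noncomputable section

namespace Pool.Agent.Lib.MP_34bdde_co

variable {V : Type}

lemma ms_equiv {A B β : Type} [Fintype A] [Fintype B] (φ : A ≃ B) (p : B → Prop) (f : B → β) :
    (ms (fun a => p (φ a)) fun a => f (φ a)) = ms p f :=
  Equiv.sum_comp φ fun b => if p b then ({f b} : Multiset β) else 0

lemma card_ms {E β : Type} [Fintype E] (p : E → Prop) (f : E → β) :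
    Multiset.card (ms p f) = cnt p := by
  unfold ms
  rw [Multiset.card_sum, cnt_eq_sum]
  refine Finset.sum_congr rfl fun e _ => ?_
  split_ifs <;> rfl

lemma ms_succ {K β : Type} [Fintype K] {m : K → ℕ} (p : (Σ k, Fin (m k + 1)) → Prop)
    (f : (Σ k, Fin (m k + 1)) → β) :
    ms p f = (ms (fun k => p ⟨k, 0⟩) fun k => f ⟨k, 0⟩) +
      ms (fun c : Σ k, Fin (m k) => p ⟨c.1, c.2.succ⟩) fun c => f ⟨c.1, c.2.succ⟩ := by
  unfold ms
  rw [Fintype.sum_sigma, Fintype.sum_sigma, ← Finset.sum_add_distrib]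
  exact Finset.sum_congr rfl fun k _ => Fin.sum_univ_succ _

lemma ms_castSucc {K β : Type} [Fintype K] {m : K → ℕ} (p : (Σ k, Fin (m k + 1)) → Prop)
    (f : (Σ k, Fin (m k + 1)) → β) :
    ms p f = (ms (fun c : Σ k, Fin (m k) => p ⟨c.1, c.2.castSucc⟩) fun c => f ⟨c.1, c.2.castSucc⟩) +
      ms (fun k => p ⟨k, Fin.last _⟩) fun k => f ⟨k, Fin.last _⟩ := by
  unfold ms
  rw [Fintype.sum_sigma, Fintype.sum_sigma, ← Finset.sum_add_distrib]
  exact Finset.sum_congr rfl fun k _ => Fin.sum_univ_castSucc _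

/-- Digons. -/
def Darts.digons (P : Type) [Fintype P] (a b : P → V) (h : ∀ p, a p ≠ b p) : Darts V where
  P := P
  D := P × Bool
  pc := Prod.fst
  nxt := Equiv.prodCongr (Equiv.refl _) Equiv.boolNot
  x δ := if δ.2 then b δ.1 else a δ.1
  pc_nxt _ := rfl
  ne δ := by
    obtain ⟨p, t⟩ := δ
    cases t
    · exact h p
    · exact (h p).symm

/-- Triangles. -/
def Darts.triangles (P : Type) [Fintype P] (a b c : P → V) (h₁ : ∀ p, a p ≠ b p)
    (h₂ : ∀ p, b p ≠ c p) (h₃ : ∀ p, c p ≠ a p) : Darts V where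
  P := P
  D := P × Fin 3
  pc := Prod.fst
  nxt := Equiv.prodCongr (Equiv.refl _) (Equiv.addRight 1)
  x δ := ![a δ.1, b δ.1, c δ.1] δ.2
  pc_nxt _ := rfl
  ne δ := by
    obtain ⟨p, t⟩ := δ
    fin_cases t
    exacts [h₁ p, h₂ p, h₃ p]

lemma cnt_fst_le {P K : Type} [Fintype P] [Fintype K] (p : P) :
    (cnt fun δ : P × K => δ.1 = p) ≤ Fintype.card K :=
  (cnt_le_of_injOn (q := fun _ : K => True) Prod.snd (fun _ _ => trivial)
    fun _ _ h h' e => Prod.ext (h.trans h'.symm) e).trans (cnt_le_card _)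

lemma chain_local {β : Type} (s u w : Prop) (hw : w ↔ ¬ (s ↔ u)) (c p q : β) :
    (∑ i : Fin 3, ∑ t : Bool, if ![s ∧ u, s ∧ ¬ u, ¬ s ∧ u] i then
      ({if t then ![p, q, q] i else ![c, c, p] i} : Multiset β) else 0) =
    (if s then {c} else 0) + ((if u then {p} else 0) + if w then {q} else 0) := by
  by_cases hs : s <;> by_cases hu : u <;> simp [Fin.sum_univ_three, hs, hu, hw, add_comm]

/-- Parallel edges can be merged. -/
theorem Ref.merge {E K : Type} [Fintype E] [Fintype K] {en : E → Sym2 V} {en' : K → Sym2 V}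
    (κ : E → K) (hκ : Function.Surjective κ) (hen : ∀ e, en' (κ e) = en e)
    (hd : ∀ e, ¬ (en e).IsDiag) {S : Set V} (hS : ∀ e, ∀ v ∈ en e, v ∈ S) {D L : ℝ}
    (hD : ∀ v, ((cnt fun e => v ∈ en e : ℕ) : ℝ) ≤ D) (hR : Ref en' S L) :
    Ref en S (6 * D + L) := by
  let m : K → ℕ := fun k => Fintype.card {e // κ e = k}
  let φ : (Σ k, Fin (m k)) ≃ E :=
    (Equiv.sigmaCongrRight fun k => (Fintype.equivFin {e // κ e = k}).symm).trans
      (Equiv.sigmaFiberEquiv κ)
  have hφ : ∀ c, en (φ c) = en' c.1 := fun c =>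
    (hen _).symm.trans (congrArg en' ((Fintype.equivFin {e // κ e = c.1}).symm c.2).2)
  have hab : ∀ k, ∃ a b, en' k = s(a, b) ∧ a ≠ b := by
    intro k
    obtain ⟨e, rfl⟩ := hκ k
    have := hd e
    rw [hen]
    generalize en e = z at this
    induction z using Sym2.ind with
    | h a b => exact ⟨a, b, rfl, fun h => this (Sym2.mk_isDiag_iff.2 h)⟩
  choose a b hab hne using hab
  let cur : (Σ k, Fin (m k)) → Σ k, Fin (m k + 1) := fun c => ⟨c.1, c.2.succ⟩
  let prv : (Σ k, Fin (m k)) → Σ k, Fin (m k + 1) := fun c => ⟨c.1, c.2.castSucc⟩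
  let 𝒟 : Darts V := Darts.digons ((Σ k, Fin (m k)) × Fin 3) (fun p => a p.1.1)
    (fun p => b p.1.1) fun p => hne _
  let lab : ((Σ k, Fin (m k)) × Fin 3) × Bool → E ⊕ Σ k, Fin (m k + 1) := fun δ =>
    if δ.2 then ![Sum.inr (prv δ.1.1), Sum.inr (cur δ.1.1), Sum.inr (cur δ.1.1)] δ.1.2
    else ![Sum.inl (φ δ.1.1), Sum.inl (φ δ.1.1), Sum.inr (prv δ.1.1)] δ.1.2
  have hC : ∀ v, (cnt fun c : Σ k, Fin (m k) => v ∈ en' c.1) ≤ cnt fun e => v ∈ en e := fun v =>
    cnt_le_of_injOn φ (fun c h => (hφ c).symm ▸ h) fun _ _ _ _ h => φ.injective h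
  have hK : ∀ v, (cnt fun k => v ∈ en' k) ≤ cnt fun e => v ∈ en e := fun v =>
    cnt_le_of_injOn (Function.surjInv hκ)
      (fun k h => by rwa [← hen, Function.surjInv_eq hκ])
      fun _ _ _ _ h => Function.injective_surjInv hκ h
  refine Ref.stage (𝒟 := 𝒟) (lab₁ := lab) (en' := en') (ρ₁ := fun r : Σ k, Fin (m k + 1) => en' r.1)
    ⟨fun r => ?_, ?_, fun p => (cnt_fst_le p).trans (by simp), fun v => ?_, fun v => ?_, ?_⟩
    subset_rfl (fun k => Sum.inr ⟨k, Fin.last _⟩) (fun _ => rfl) (fun H _ => ?_) hR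
  · rw [hab]
    exact fun h => hne _ (Sym2.mk_isDiag_iff.1 h)
  · rintro ⟨⟨c, i⟩, t⟩
    have e1 : 𝒟.edge ((c, i), t) = en' c.1 := by
      cases t
      · exact (hab c.1).symm
      · exact Sym2.eq_swap.trans (hab c.1).symm
    rw [e1]
    cases t <;> fin_cases i <;> first | rfl | exact (hφ c).symm
  · have h1 := cnt_prod_le (E := (Σ k, Fin (m k)) × Fin 3) (K := Bool) (fun δ => 𝒟.x δ = v)
      (fun p => v ∈ en' p.1.1) (by
        rintro p t rfl
        rw [hab]
        cases t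
        · exact Sym2.mem_mk_left _ _
        · exact Sym2.mem_mk_right _ _)
    have h2 := cnt_prod_le (E := Σ k, Fin (m k)) (K := Fin 3) (fun p => v ∈ en' p.1.1)
      (fun c => v ∈ en' c.1) fun _ _ h => h
    have h3 := hC v
    rw [Fintype.card_bool] at h1
    rw [Fintype.card_fin] at h2
    have h4 : (cnt fun δ : 𝒟.D => 𝒟.x δ = v) ≤ 6 * cnt fun e => v ∈ en e := h1.trans (by omega)
    have h5 := (Nat.cast_le (α := ℝ)).2 h4
    push_cast at h5
    linarith [hD v]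
  · have h1 := congrArg Multiset.card
      (ms_succ (fun r : Σ k, Fin (m k + 1) => v ∈ en' r.1) fun _ => ())
    rw [Multiset.card_add, card_ms, card_ms, card_ms] at h1
    have h4 : (cnt fun r : Σ k, Fin (m k + 1) => v ∈ en' r.1) ≤ 6 * cnt fun e => v ∈ en e :=
      h1.trans_le ((add_le_add (hK v) (hC v)).trans (by omega))
    have h5 := (Nat.cast_le (α := ℝ)).2 h4
    push_cast at h5
    linarith [hD v]
  · rintro ⟨k, i⟩ v hv
    obtain ⟨e, rfl⟩ := hκ k
    exact hS e v (hen e ▸ hv)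
  · let U : K → ℕ → Prop := fun k =>
      Nat.rec True fun i ih => (∃ h : i < m k, H (φ ⟨k, ⟨i, h⟩⟩)) ↔ ih
    let u : (Σ k, Fin (m k + 1)) → Prop := fun r => U r.1 r.2.1
    have hu : ∀ c, u (cur c) ↔ (H (φ c) ↔ u (prv c)) := fun c =>
      iff_congr ⟨fun h => h.2, fun h => ⟨c.2.2, h⟩⟩ Iff.rfl
    refine ⟨fun p => ![H (φ p.1) ∧ u (prv p.1), H (φ p.1) ∧ ¬ u (prv p.1),
      ¬ H (φ p.1) ∧ u (prv p.1)] p.2, fun k => u ⟨k, Fin.last _⟩, ?_⟩
    have e1 : ms (fun δ : ((Σ k, Fin (m k)) × Fin 3) × Bool =>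
        ![H (φ δ.1.1) ∧ u (prv δ.1.1), H (φ δ.1.1) ∧ ¬ u (prv δ.1.1),
          ¬ H (φ δ.1.1) ∧ u (prv δ.1.1)] δ.1.2) lab =
        (ms (fun c => H (φ c)) fun c => Sum.inl (φ c)) +
          ((ms (fun c => u (prv c)) fun c => Sum.inr (prv c)) +
            ms (fun c => ¬ u (cur c)) fun c => Sum.inr (cur c)) := by
      unfold ms
      rw [Fintype.sum_prod_type, Fintype.sum_prod_type, ← Finset.sum_add_distrib,
        ← Finset.sum_add_distrib]
      refine Finset.sum_congr rfl fun c _ => ?_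
      exact chain_local _ _ _ (not_congr (hu c)) (Sum.inl (φ c) : E ⊕ Σ k, Fin (m k + 1))
        (Sum.inr (prv c)) (Sum.inr (cur c))
    refine (congrArg (· + _) e1).trans ?_
    rw [ms_equiv φ H Sum.inl, ← ms_split u, ms_castSucc u, ms_succ fun r => ¬ u r,
      ms_false (p := fun k => ¬ u ⟨k, 0⟩) fun _ h => h trivial]
    abel

/-- Edges can be rerouted through a third vertex. -/
theorem Ref.reroute {E : Type} [Fintype E] {en : E → Sym2 V} (T : E → Prop)
    (a b c : {e // T e} → V) (hab : ∀ e, en e.1 = s(a e, b e)) (h₁ : ∀ e, a e ≠ b e)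
    (h₂ : ∀ e, b e ≠ c e) (h₃ : ∀ e, c e ≠ a e) {S : Set V}
    (hS : ∀ e, a e ∈ S ∧ b e ∈ S ∧ c e ∈ S) {D L : ℝ}
    (hD : ∀ v, ((cnt fun e => a e = v ∨ b e = v ∨ c e = v : ℕ) : ℝ) ≤ D)
    (hR : Ref (Sum.elim (fun e : {e // ¬ T e} => en e.1)
      fun r : {e // T e} × Bool => if r.2 then s(c r.1, a r.1) else s(b r.1, c r.1)) S L) :
    Ref en S (3 * D + L) := by
  let 𝒟 : Darts V := Darts.triangles {e // T e} a b c h₁ h₂ h₃
  let lab : {e // T e} × Fin 3 → E ⊕ {e // T e} × Bool := fun δ =>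
    ![Sum.inl δ.1.1, Sum.inr (δ.1, false), Sum.inr (δ.1, true)] δ.2
  refine Ref.stage (𝒟 := 𝒟) (lab₁ := lab)
    (ρ₁ := fun r => if r.2 then s(c r.1, a r.1) else s(b r.1, c r.1))
    ⟨?_, ?_, fun p => (cnt_fst_le p).trans (by simp), fun v => ?_, fun v => ?_, ?_⟩
    subset_rfl (Sum.map Subtype.val id) (by rintro (e | e) <;> rfl) (fun H _ => ?_) hR
  · rintro ⟨e, t⟩
    cases t
    · exact fun h => h₂ e (Sym2.mk_isDiag_iff.1 h)
    · exact fun h => h₃ e (Sym2.mk_isDiag_iff.1 h)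
  · rintro ⟨e, i⟩
    fin_cases i
    exacts [(hab e).symm, rfl, rfl]
  · have h1 := cnt_prod_le (E := {e // T e}) (K := Fin 3) (fun δ => 𝒟.x δ = v)
      (fun e => a e = v ∨ b e = v ∨ c e = v) (by
        rintro e i rfl
        fin_cases i
        exacts [Or.inl rfl, Or.inr (Or.inl rfl), Or.inr (Or.inr rfl)])
    rw [Fintype.card_fin] at h1
    have h5 := (Nat.cast_le (α := ℝ)).2 h1
    push_cast at h5
    exact h5.trans (by linarith [hD v])
  · have h1 := cnt_prod_le (E := {e // T e}) (K := Bool)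
      (fun r => v ∈ if r.2 then s(c r.1, a r.1) else s(b r.1, c r.1))
      (fun e => a e = v ∨ b e = v ∨ c e = v) (by
        intro e t h
        cases t <;> rcases Sym2.mem_iff.1 h with rfl | rfl <;> simp)
    rw [Fintype.card_bool] at h1
    have h5 := (Nat.cast_le (α := ℝ)).2 h1
    push_cast at h5
    have h6 : (0 : ℝ) ≤ (cnt fun e => a e = v ∨ b e = v ∨ c e = v : ℕ) := Nat.cast_nonneg _
    exact h5.trans (by linarith [hD v])
  · rintro ⟨e, t⟩ v h
    cases t <;> rcases Sym2.mem_iff.1 h with rfl | rfl <;> simp [hS e]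
  · refine ⟨fun e => H e.1, Sum.elim (fun e => H e.1) fun r => ¬ H r.1.1, ?_⟩
    have e1 : ms (fun δ : {e // T e} × Fin 3 => H δ.1.1) lab =
        (ms (fun e : {e // T e} => H e.1) fun e => Sum.inl e.1) +
          ms (fun r : {e // T e} × Bool => H r.1.1) Sum.inr := by
      unfold ms
      rw [Fintype.sum_prod_type, Fintype.sum_prod_type, ← Finset.sum_add_distrib]
      refine Finset.sum_congr rfl fun e _ => ?_
      by_cases h : H e.1 <;> simp [Fin.sum_univ_three, h, lab, add_comm, Multiset.cons_swap]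
    refine (congrArg (· + _) e1).trans ?_
    rw [ms_sum, ← ms_subtype T H, ← ms_split fun r : {e // T e} × Bool => H r.1.1]
    simp only [Sum.elim_inl, Sum.elim_inr, Sum.map_inl, Sum.map_inr, id]
    abel

end Pool.Agent.Lib.MP_34bdde_co
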