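import Mathlib
import Pool.Agent.Lib.MP_34bdde_co.RefinerB

set_option autoImplicit false

open Finset
open scoped Classical

noncomputable section

namespace Pool.Agent.Lib.MP_34bdde_co

/- PLAN (pure combinatorics, parity only). Number the vertices 0..n-1. Induct on N: for a labelled
simple graph (label type E, ends : E → Sym2 V injective, no loops) living on the vertices < N with
degrees at most D, and every s, there is a refiner with load at most
C ((2^s - 1) D + 2 (N - 1) / 2^s) (s = 0: use D <= N - 1). N <= 1: no edges.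
Step: N' = (N+1)/2, α x = x for x < N', α x = x - N' otherwise. For e = xy add a spoke c(e,x)
with ends x, α x for every end x >= N', and an image f(e) with ends α x, α y if α x ≠ α y.
Piece of e: the closed walk x, y, α y, α x (omitting trivial steps; length 2, 3 or 4), on iff e in H.
The unused spokes / images come in classes of parallel edges (class of a top vertex x; class of a
pair of lower vertices, at most 4 images). CHAIN: class c 1..c m, add parallel buffers b 1..b m and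
the digons (c i, b (i-1)), (c i, b i), (b (i-1), b i): for every subset S of the c's, S and
b 1..b (m-1), with or without b m, is a disjoint union of such digons (carry bit). For spokes at a
top vertex x the parity condition at x forces b m to be covered (x meets no other new edge and no
later edge). For images, b m is the flexible edge of the next level (simple graph on N' vertices,
degrees at most min (2 D) (N' - 1)); the parity condition passes to the next level because
pieces have even degrees. -/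

section Step

variable {V : Type}

/-- A loopless multigraph on `S`. -/
structure Liv {E : Type} (en : E → Sym2 V) (S : Set V) : Prop where
  nd : ∀ e, ¬ (en e).IsDiag
  liv : ∀ e, ∀ v ∈ en e, v ∈ S

/-- At most `D` edges meet any fibre of `α`. -/
def Wb {E : Type} [Fintype E] (α : V → V) (en : E → Sym2 V) (D : ℝ) : Prop :=
  ∀ v, ((cnt fun e => ∃ x ∈ en e, α x = v : ℕ) : ℝ) ≤ D

lemma Wb.deg {E : Type} [Fintype E] {α : V → V} {en : E → Sym2 V} {D : ℝ} (h : Wb α en D) (v : V) :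
    ((cnt fun e => v ∈ en e : ℕ) : ℝ) ≤ D :=
  (Nat.cast_le.2 (cnt_mono fun _ hv => ⟨v, hv, rfl⟩)).trans (h (α v))

lemma reroute_step {α : V → V} {S S' : Set V} (hS : S' ⊆ S) (h₁ : ∀ v ∈ S, α v ∈ S')
    (h₂ : ∀ v ∈ S', α v = v) {E : Type} [Fintype E] {en : E → Sym2 V} (hL : Liv en S) {D : ℝ}
    (hW : Wb α en D) (Q : Sym2 V → Prop)
    (hT : ∀ e, ¬ Q (en e) → ∃ a b, en e = s(a, b) ∧ α a ≠ a ∧ α a ≠ b ∧ Q s(α a, a) ∧ Q s(b, α a)) :
    ∃ (E' : Type) (_ : Fintype E') (en' : E' → Sym2 V), Liv en' S ∧ Wb α en' (3 * D) ∧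
      (∀ e, Q (en' e)) ∧ ∀ L, Ref en' S L → Ref en S (3 * D + L) := by
  obtain ⟨T, hT'⟩ : ∃ T : E → Prop, ∀ e, T e ↔ ¬ Q (en e) := ⟨_, fun _ => Iff.rfl⟩
  choose a b hab h3 h4 h5 h6 using fun e : {e // T e} => hT e.1 ((hT' _).1 e.2)
  have ha : ∀ e, a e ∈ en e.1 := fun e => hab e ▸ Sym2.mem_mk_left _ _
  have hb : ∀ e, b e ∈ en e.1 := fun e => hab e ▸ Sym2.mem_mk_right _ _
  have hc : ∀ e, α (a e) ∈ S' := fun e => h₁ _ (hL.liv _ _ (ha e))
  refine ⟨_, inferInstance, Sum.elim (fun e : {e // ¬ T e} => en e.1)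
    fun r : {e // T e} × Bool => if r.2 then s(α (a r.1), a r.1) else s(b r.1, α (a r.1)),
    ⟨?_, ?_⟩, fun v => ?_, ?_, fun L hR => Ref.reroute T a b (fun e => α (a e))
      hab (fun e h => hL.nd e.1 (hab e ▸ Sym2.mk_isDiag_iff.2 h)) (fun e => (h4 e).symm) h3
      (fun e => ⟨hL.liv _ _ (ha e), hL.liv _ _ (hb e), hS (hc e)⟩) (fun v => ?_) hR⟩
  · rintro (e | ⟨e, _ | _⟩)
    · exact hL.nd e.1
    · exact fun h => h4 e (Sym2.mk_isDiag_iff.1 h).symm
    · exact fun h => h3 e (Sym2.mk_isDiag_iff.1 h)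
  · rintro (e | ⟨e, _ | _⟩) v hv
    · exact hL.liv _ _ hv
    · rcases Sym2.mem_iff.1 hv with rfl | rfl
      exacts [hL.liv _ _ (hb e), hS (hc e)]
    · rcases Sym2.mem_iff.1 hv with rfl | rfl
      exacts [hS (hc e), hL.liv _ _ (ha e)]
  · rw [cnt_sum]
    have k1 := cnt_subtype_le (fun e => ¬ T e) (fun e => ∃ x ∈ en e.1, α x = v)
      (fun e => ∃ x ∈ en e, α x = v) fun _ h => h
    have k2 := cnt_subtype_le T (fun e => ∃ x ∈ en e.1, α x = v)
      (fun e => ∃ x ∈ en e, α x = v) fun _ h => h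
    have k3 := cnt_prod_le (E := {e // T e}) (K := Bool) (fun r => ∃ x ∈
      (if r.2 then s(α (a r.1), a r.1) else s(b r.1, α (a r.1))), α x = v)
      (fun e => ∃ x ∈ en e.1, α x = v) (by
        rintro e (_ | _) ⟨x, hx, rfl⟩ <;> rcases Sym2.mem_iff.1 hx with rfl | rfl
        exacts [⟨_, hb e, rfl⟩, ⟨_, ha e, (h₂ _ (hc e)).symm⟩, ⟨_, ha e, (h₂ _ (hc e)).symm⟩,
          ⟨_, ha e, rfl⟩])
    rw [Fintype.card_bool] at k3
    refine (Nat.cast_le.2 ((add_le_add k1 k3).trans
      (by omega : _ ≤ 3 * cnt fun e => ∃ x ∈ en e, α x = v))).trans ?_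
    push_cast
    linarith [hW v]
  · rintro (e | ⟨e, _ | _⟩)
    exacts [not_not.1 fun h => e.2 ((hT' _).2 h), h6 e, h5 e]
  · refine (Nat.cast_le.2 (cnt_subtype_le _ _ (fun e => ∃ x ∈ en e, α x = α v) ?_)).trans (hW (α v))
    rintro e (rfl | rfl | rfl)
    exacts [⟨_, ha e, rfl⟩, ⟨_, hb e, rfl⟩, ⟨_, ha e, (h₂ _ (hc e)).symm⟩]

lemma sym2_exists (k : Sym2 V) : ∃ a b, k = s(a, b) := by
  induction k using Sym2.ind with
  | h a b => exact ⟨a, b, rfl⟩

theorem ref_step {α β : V → V} {S S' : Set V} (hS : S' ⊆ S) (h₁ : ∀ v ∈ S, α v ∈ S')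
    (h₂ : ∀ v ∈ S', α v = v) (h₃ : ∀ v ∈ S, v = α v ∨ v = β (α v)) {E : Type} [Fintype E]
    {en : E → Sym2 V} (hL : Liv en S) {D L : ℝ} (hD : ∀ v, ((cnt fun e => v ∈ en e : ℕ) : ℝ) ≤ D)
    (hR : ∀ (E' : Type) [Fintype E'] (en' : E' → Sym2 V), Function.Injective en' → Liv en' S' →
      (∀ v, ((cnt fun e => v ∈ en' e : ℕ) : ℝ) ≤ 18 * D) → Ref en' S' L) :
    Ref en S (132 * D + L) := by
  have w0 : Wb α en (2 * D) := by
    intro v
    refine (Nat.cast_le.2 ((cnt_mono (q := fun e => v ∈ en e ∨ β v ∈ en e) ?_).trans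
      (cnt_or_le _ _))).trans ?_
    · rintro e ⟨x, hx, rfl⟩
      rcases h₃ x (hL.liv e x hx) with h | h
      exacts [Or.inl (h ▸ hx), Or.inr (h ▸ hx)]
    · push_cast
      linarith [hD v, hD (β v)]
  obtain ⟨E1, _, en1, l1, w1, q1, r1⟩ := reroute_step hS h₁ h₂ hL w0 (fun k => ∃ x ∈ k, x ∈ S') (by
    intro e he
    obtain ⟨a, b, hab⟩ := sym2_exists (en e)
    have ha : a ∈ en e := hab ▸ Sym2.mem_mk_left _ _
    have hb : b ∈ en e := hab ▸ Sym2.mem_mk_right _ _
    have hc := h₁ a (hL.liv e a ha)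
    exact ⟨a, b, hab, fun h => he ⟨a, ha, h ▸ hc⟩, fun h => he ⟨b, hb, h ▸ hc⟩,
      ⟨_, Sym2.mem_mk_left _ _, hc⟩, ⟨_, Sym2.mem_mk_right _ _, hc⟩⟩)
  obtain ⟨E2, _, en2, l2, w2, q2, r2⟩ := reroute_step hS h₁ h₂ l1 w1
    (fun k => (∀ x ∈ k, x ∈ S') ∨ ∃ x, x ∉ S' ∧ k = s(α x, x)) (by
    intro e he
    obtain ⟨b, hb, hb'⟩ := q1 e
    obtain ⟨a, hab⟩ := Sym2.mem_iff_exists.1 hb
    rw [Sym2.eq_swap] at hab
    have ha : a ∈ en1 e := hab ▸ Sym2.mem_mk_left _ _
    have hc := h₁ a (l1.liv e a ha)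
    have ha' : a ∉ S' := fun h => he (Or.inl fun x hx => by
      rw [hab] at hx
      rcases Sym2.mem_iff.1 hx with rfl | rfl
      exacts [h, hb'])
    refine ⟨a, b, hab, fun h => ha' (h ▸ hc), fun h => he (Or.inr ⟨a, ha', ?_⟩),
      Or.inr ⟨a, ha', rfl⟩, Or.inl fun x hx => ?_⟩
    · rw [hab, h, Sym2.eq_swap]
    · rcases Sym2.mem_iff.1 hx with rfl | rfl
      exacts [hb', hc])
  have hd : ∀ k : Set.range en2, ¬ k.1.IsDiag := by
    rintro ⟨_, e, rfl⟩
    exact l2.nd e
  have r3 : Ref (Subtype.val : Set.range en2 → Sym2 V) S L := by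
    refine Ref.drop hd hS (fun k => ∀ x ∈ k.1, x ∈ S') ?_ (hR _ _
      (Subtype.val_injective.comp Subtype.val_injective) ⟨fun k => hd k.1, fun k => k.2⟩ fun v => ?_)
    · rintro ⟨_, e, rfl⟩ he
      obtain ⟨x, hx, hk⟩ := (q2 e).resolve_left he
      refine ⟨x, (congrArg (x ∈ ·) hk).mpr (Sym2.mem_mk_right _ _), hx, ?_⟩
      rintro ⟨_, e', rfl⟩ hx'
      obtain ⟨y, hy, hk'⟩ := (q2 e').resolve_left fun h => hx (h x hx')
      have hy' := h₁ y (l2.liv e' y (hk' ▸ Sym2.mem_mk_right _ _))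
      have hx'' : x ∈ s(α y, y) := hk' ▸ hx'
      rcases Sym2.mem_iff.1 hx'' with rfl | rfl
      · exact absurd hy' hx
      · exact Subtype.ext (hk'.trans hk.symm)
    · refine (Nat.cast_le.2 (cnt_le_of_injOn (q := fun e => v ∈ en2 e)
        (fun k : {k : Set.range en2 // ∀ x ∈ k.1, x ∈ S'} => k.1.2.choose)
        (fun k h => k.1.2.choose_spec.symm ▸ h) fun k k' _ _ h => Subtype.ext (Subtype.ext
          (k.1.2.choose_spec.symm.trans ((congrArg en2 h).trans k'.1.2.choose_spec))))).trans ?_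
      linarith [w2.deg v]
  exact (r1 _ (r2 _ (Ref.merge (Set.rangeFactorization en2) Set.rangeFactorization_surjective
    (fun _ => rfl) l2.nd l2.liv w2.deg r3))).mono (by linarith)

variable [Fintype V]

/-- The first `N` vertices. -/
def low (V : Type) [Fintype V] (N : ℕ) : Set V := {v | (Fintype.equivFin V v).1 < N}

theorem ref_half (N : ℕ) {E : Type} [Fintype E]
    {en : E → Sym2 V} (hL : Liv en (low V N)) {D L : ℝ}
    (hD : ∀ v, ((cnt fun e => v ∈ en e : ℕ) : ℝ) ≤ D)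
    (hR : ∀ (E' : Type) [Fintype E'] (en' : E' → Sym2 V), Function.Injective en' →
      Liv en' (low V ((N + 1) / 2)) →
      (∀ v, ((cnt fun e => v ∈ en' e : ℕ) : ℝ) ≤ 18 * D) → Ref en' (low V ((N + 1) / 2)) L) :
    Ref en (low V N) (132 * D + L) := by
  let φ := Fintype.equivFin V
  refine ref_step (α := fun v => if (φ v).1 < (N + 1) / 2 then v else
      φ.symm ⟨(φ v).1 - (N + 1) / 2, (Nat.sub_le _ _).trans_lt (φ v).2⟩)
    (β := fun v => if h : (φ v).1 + (N + 1) / 2 < Fintype.card V then φ.symm ⟨_, h⟩ else v)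
    (fun v (hv : (φ v).1 < _) => (by omega : (φ v).1 < N)) (fun v (hv : (φ v).1 < N) => ?_)
    (fun v hv => if_pos hv) (fun v _ => ?_) hL hD hR
  · by_cases h : (φ v).1 < (N + 1) / 2
    · rw [if_pos h]
      exact h
    · rw [if_neg h]
      change (φ (φ.symm _)).1 < _
      rw [Equiv.apply_symm_apply]
      change _ - _ < _
      omega
  · by_cases h : (φ v).1 < (N + 1) / 2
    · exact Or.inl (if_pos h).symm
    · refine Or.inr ?_
      have e : (φ v).1 - (N + 1) / 2 + (N + 1) / 2 = (φ v).1 := by omega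
      simp only [if_neg h, Equiv.apply_symm_apply, e, Fin.is_lt, dif_pos, Fin.eta,
        Equiv.symm_apply_apply]

lemma deg_le_low (N : ℕ) {E : Type} [Fintype E] {en : E → Sym2 V} (hi : Function.Injective en)
    (hL : Liv en (low V N)) (v : V) : (cnt fun e => v ∈ en e) ≤ N := by
  have h1 : ∀ e, ∃ w, v ∈ en e → en e = s(v, w) := fun e => by
    by_cases h : v ∈ en e
    · obtain ⟨w, hw⟩ := Sym2.mem_iff_exists.1 h
      exact ⟨w, fun _ => hw⟩
    · exact ⟨v, fun h' => absurd h' h⟩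
  choose w hw using h1
  rw [cnt_def, ← Finset.card_range N]
  refine Finset.card_le_card_of_injOn (fun e => (Fintype.equivFin V (w e)).1) (fun e he => ?_)
    fun e he e' he' h => hi ?_
  · have he' := (Finset.mem_filter.1 he).2
    exact Finset.mem_range.2 (hL.liv e (w e) (hw e he' ▸ Sym2.mem_mk_right _ _))
  · rw [hw e (Finset.mem_filter.1 he).2, hw e' (Finset.mem_filter.1 he').2,
      (Fintype.equivFin V).injective (Fin.ext h)]

theorem ref_dense (N : ℕ) : ∀ M : ℝ, 0 ≤ M → (N : ℝ) - 1 ≤ M →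
    ∀ (E : Type) [Fintype E] (en : E → Sym2 V), Function.Injective en → Liv en (low V N) →
      Ref en (low V N) (528 * M) := by
  induction N using Nat.strong_induction_on with
  | h N ih =>
    intro M h0 hM E _ en hi hL
    by_cases hN : N ≤ 1
    · have : IsEmpty E := ⟨fun e => by
        obtain ⟨a, b, hab⟩ := sym2_exists (en e)
        have ha : (Fintype.equivFin V a).1 < N := hL.liv e a (hab ▸ Sym2.mem_mk_left _ _)
        have hb : (Fintype.equivFin V b).1 < N := hL.liv e b (hab ▸ Sym2.mem_mk_right _ _)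
        exact hL.nd e (hab ▸ Sym2.mk_isDiag_iff.2
          ((Fintype.equivFin V).injective (Fin.ext (by omega))))⟩
      exact (ref_empty en _).mono (by positivity)
    · have h2 : (2 : ℝ) ≤ N := by exact_mod_cast (by omega : 2 ≤ N)
      have h3 : (2 : ℝ) * ((N + 1) / 2 : ℕ) ≤ N + 1 := by
        exact_mod_cast (by omega : 2 * ((N + 1) / 2) ≤ N + 1)
      refine (ref_half N hL (D := 2 * M) (fun v => (Nat.cast_le.2 (deg_le_low N hi hL v)).trans
        (by linarith)) fun E' _ en' hi' hL' _ =>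
          ih _ (by omega) (M / 2) (by positivity) (by linarith) E' en' hi' hL').mono (by linarith)

theorem ref_sparse (s : ℕ) : ∀ (N : ℕ) (D M : ℝ), 0 ≤ D → 0 ≤ M → (N : ℝ) - 1 ≤ 2 ^ s * M →
    ∀ (E : Type) [Fintype E] (en : E → Sym2 V), Function.Injective en → Liv en (low V N) →
      (∀ v, ((cnt fun e => v ∈ en e : ℕ) : ℝ) ≤ D) →
      Ref en (low V N) (132 * 19 ^ s * D + 528 * M) := by
  induction s with
  | zero =>
    intro N D M hD h0 hM E _ en hi hL _
    exact (ref_dense N M h0 (by simpa using hM) E en hi hL).mono (le_add_of_nonneg_left (by positivity))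
  | succ s ih =>
    intro N D M hD h0 hM E _ en hi hL hd
    have h3 : (2 : ℝ) * ((N + 1) / 2 : ℕ) ≤ N + 1 := by
      exact_mod_cast (by omega : 2 * ((N + 1) / 2) ≤ N + 1)
    have h4 : (1 : ℝ) ≤ 19 ^ s := one_le_pow₀ (by norm_num)
    rw [pow_succ] at hM
    refine (ref_half N hL hd fun E' _ en' hi' hL' hd' =>
      ih _ (18 * D) M (by positivity) h0 (by linarith) E' en' hi' hL' hd').mono ?_
    rw [pow_succ]
    nlinarith [mul_le_mul_of_nonneg_right h4 hD]

end Step

lemma ms_mem {α : Type} [DecidableEq α] {X H : Multiset α} (hX : X.Nodup) (hH : H ≤ X) :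
    ms (fun e : {e // e ∈ X.toFinset} => e.1 ∈ H) Subtype.val = H := by
  refine (Finset.sum_coe_sort X.toFinset fun e =>
    @ite _ (e ∈ H) (Classical.propDecidable _) ({e} : Multiset α) 0).trans ?_
  rw [← @Finset.sum_filter _ _ _ _ (fun e => e ∈ H) fun _ => Classical.propDecidable _,
    Finset.sum_multiset_singleton]
  refine (Multiset.Nodup.ext (Finset.nodup _) (Multiset.nodup_of_le hH hX)).2 fun a => ?_
  simpa using fun h => Multiset.mem_of_le hH h

/-- Refining even subgraphs into short closed walks. -/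
theorem refiner (η : ℝ) (hη : 0 < η) : ∃ η' : ℝ, 0 < η' ∧
    ∀ (V : Type) [Fintype V] (X : Multiset (Sym2 V)), X.Nodup → (∀ e ∈ X, ¬ e.IsDiag) →
      (∀ v, (((bd X).count v : ℕ) : ℝ) ≤ η' * Fintype.card V) →
      ∃ (R : Type) (_ : Fintype R) (ρ : R → Sym2 V) (𝒟 : Darts V) (lab : 𝒟.D → Sym2 V ⊕ R),
        (∀ r, ¬ (ρ r).IsDiag) ∧ (∀ δ, 𝒟.edge δ = Sum.elim id ρ (lab δ)) ∧
        (∀ δ e, lab δ = Sum.inl e → e ∈ X) ∧ (∀ p, (cnt fun δ => 𝒟.pc δ = p) ≤ 4) ∧
        (∀ v, ((cnt fun δ => 𝒟.x δ = v : ℕ) : ℝ) ≤ η * Fintype.card V) ∧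
        (∀ v, ((cnt fun r => v ∈ ρ r : ℕ) : ℝ) ≤ η * Fintype.card V) ∧
        ∀ H ≤ X, (∀ v, Even ((bd H).count v + cnt fun r => v ∈ ρ r)) →
          ∃ ON : 𝒟.P → Bool,
            (∑ δ, if ON (𝒟.pc δ) then ({lab δ} : Multiset (Sym2 V ⊕ R)) else 0) =
              H.map Sum.inl + ∑ r, {Sum.inr r} := by
  obtain ⟨s, hs⟩ := pow_unbounded_of_one_lt (1056 / η) (one_lt_two (α := ℝ))
  refine ⟨η / (264 * 19 ^ s), by positivity, fun V _ X hX hd hD => ?_⟩
  have n0 : (0 : ℝ) ≤ Fintype.card V := Nat.cast_nonneg _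
  have hd' : ∀ e : {e // e ∈ X.toFinset}, ¬ e.1.IsDiag :=
    fun e => hd e.1 (Multiset.mem_toFinset.1 e.2)
  obtain ⟨R, _, ρ, 𝒟, lab, hP, h⟩ := (ref_sparse s (Fintype.card V)
    (η / (264 * 19 ^ s) * Fintype.card V) (Fintype.card V / 2 ^ s) (by positivity) (by positivity)
    (by rw [mul_div_cancel₀ _ (by positivity)]; linarith) {e // e ∈ X.toFinset} Subtype.val
    Subtype.val_injective ⟨hd', fun _ v _ => (Fintype.equivFin V v).2⟩ fun v => by
      have := hD v
      rw [← ms_mem hX le_rfl, count_bd_ms _ hd'] at this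
      exact (Nat.cast_le.2 (cnt_mono fun e he => ⟨Multiset.mem_toFinset.1 e.2, he⟩)).trans
        this).mono (L' := η * Fintype.card V) (by
      have e1 : 132 * 19 ^ s * (η / (264 * 19 ^ s) * Fintype.card V) = η / 2 * Fintype.card V := by
        field_simp
        ring
      have e2 : 528 / 2 ^ s ≤ η / 2 := by
        rw [div_le_iff₀ (by positivity)]
        rw [div_lt_iff₀ hη] at hs
        linarith
      have e3 := mul_le_mul_of_nonneg_right e2 n0
      rw [e1, mul_div_assoc', mul_div_right_comm]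
      linarith)
  refine ⟨R, inferInstance, ρ, 𝒟, fun δ => Sum.map Subtype.val id (lab δ), hP.nd, fun δ => ?_,
    fun δ e he => ?_, hP.four, hP.ld, hP.lr, fun H hH hev => ?_⟩
  · rw [hP.edge]
    beta_reduce
    cases lab δ <;> rfl
  · rcases hl : lab δ with l | l
    · simp only [hl] at he
      exact Sum.inl_injective he ▸ Multiset.mem_toFinset.1 l.2
    · simp only [hl] at he
      exact absurd he Sum.inr_ne_inl
  · obtain ⟨ON, e⟩ := h (fun e => e.1 ∈ H) fun v => by
      rw [ms_mem hX hH, bd_add, Multiset.count_add, count_bd_ms _ hP.nd]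
      simpa only [true_and] using hev v
    have e' := congrArg (Multiset.map (Sum.map Subtype.val id)) e
    simp only [Multiset.map_add, ms_map, Sum.map_inl, Sum.map_inr, id] at e'
    refine ⟨fun p => decide (ON p), ?_⟩
    rw [← ms_mem hX hH, ms_map]
    simpa only [ms, decide_eq_true_eq, if_true] using e'

end Pool.Agent.Lib.MP_34bdde_co
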