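import Mathlib
import Pool.Agent.Lib.MP_34bdde_co.Loops
import Pool.Agent.Lib.MP_34bdde_co.Refiner

set_option autoImplicit false

open Finset
open scoped Classical

noncomputable section

namespace Pool.Agent.Lib.MP_34bdde_co

/- PLAN. refiner gives virtual edges ρ r. pickV (parents the two ends of ρ r, no colour, weight
the number of darts labelled r) gives midpoints z r; Rr = the new edges. Subdivide the darts with
label inr r at z r (new dart type D ⊕ {d // lab d is inr}); pieces have at most 8 darts.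
j v := ⌈(r v + deg of v in Rr)/2⌉, r' v := 2 j v - deg Rr v. Apply loops with UE + Rr.
For H with degrees r': deg H + deg Rr = 2 j is even and deg Rr v = #(r at v) + 2 #(z r = v), so
the refiner gives ON with on ON = H + Rr; the number of ON darts at v is half the degree of v in
on ON, i.e. j v. A = A' + Rr. -/

lemma ea_cnt_sum {A B : Type} [Fintype A] [Fintype B] (p : A ⊕ B → Prop) :
    cnt p = cnt (fun a => p (Sum.inl a)) + cnt (fun b => p (Sum.inr b)) := by
  simp only [cnt_eq_sum, Fintype.sum_sum_type]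

lemma ea_count_on {V : Type} (𝒟 : Darts V) (ON : 𝒟.P → Bool) (v : V) :
    (bd (𝒟.on ON)).count v = 2 * cnt fun δ => ON (𝒟.pc δ) = true ∧ 𝒟.x δ = v := by
  have e : ∀ δ, (bd (if ON (𝒟.pc δ) then {𝒟.edge δ} else 0)).count v =
      (if ON (𝒟.pc δ) = true ∧ 𝒟.x δ = v then 1 else 0) +
      (if ON (𝒟.pc (𝒟.nxt δ)) = true ∧ 𝒟.x (𝒟.nxt δ) = v then 1 else 0) := by
    intro δ
    rw [𝒟.pc_nxt]
    cases ON (𝒟.pc δ)
    · simp
    · simp only [if_true, Darts.edge, bd_single, Multiset.insert_eq_cons, Multiset.count_cons,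
        Multiset.count_singleton, true_and, eq_comm (a := v), add_comm]
  rw [Darts.on, bd_sum, Multiset.count_sum', Finset.sum_congr rfl fun δ _ => e δ,
    Finset.sum_add_distrib, Equiv.sum_comp 𝒟.nxt
      (fun δ => if ON (𝒟.pc δ) = true ∧ 𝒟.x δ = v then 1 else 0), cnt_eq_sum, two_mul]

/-- The successor of a dart after subdivision. -/
def eaNxt {D : Type} (nx : D ≃ D) (q : D → Prop) : D ⊕ {d // q d} ≃ D ⊕ {d // q d} where
  toFun := Sum.elim (fun d => if h : q d then Sum.inr ⟨d, h⟩ else Sum.inl (nx d))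
    (fun d => Sum.inl (nx d.1))
  invFun := Sum.elim
    (fun d => if h : q (nx.symm d) then Sum.inr ⟨nx.symm d, h⟩ else Sum.inl (nx.symm d))
    (fun d => Sum.inl d.1)
  left_inv := by
    rintro (d | ⟨d, h⟩)
    · by_cases h : q d <;> simp [h]
    · simp [h]
  right_inv := by
    rintro (d | ⟨d, h⟩)
    · by_cases h : q (nx.symm d) <;> simp [h]
    · simp [h]

/-- Subdivision of the darts with property `q` at the vertices `mid`. -/
def eaSub {V : Type} (𝒟 : Darts V) (q : 𝒟.D → Prop) (mid : 𝒟.D → V)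
    (h : ∀ d, q d → 𝒟.x d ≠ mid d ∧ mid d ≠ 𝒟.x (𝒟.nxt d)) : Darts V where
  P := 𝒟.P
  D := 𝒟.D ⊕ {d // q d}
  pc := Sum.elim 𝒟.pc (fun d => 𝒟.pc d.1)
  nxt := eaNxt 𝒟.nxt q
  x := Sum.elim 𝒟.x (fun d => mid d.1)
  pc_nxt := by
    rintro (d | ⟨d, hd⟩)
    · by_cases hd : q d <;> simp [eaNxt, hd, 𝒟.pc_nxt]
    · simp [eaNxt, 𝒟.pc_nxt]
  ne := by
    rintro (d | ⟨d, hd⟩)
    · by_cases hd : q d
      · simpa [eaNxt, hd] using (h d hd).1
      · simpa [eaNxt, hd] using 𝒟.ne d
    · simpa [eaNxt] using (h d hd).2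

section sub

variable {V : Type} (𝒟 : Darts V) (q : 𝒟.D → Prop) (mid : 𝒟.D → V)
  (h : ∀ d, q d → 𝒟.x d ≠ mid d ∧ mid d ≠ 𝒟.x (𝒟.nxt d))

lemma eaSub_inl (d : 𝒟.D) : (eaSub 𝒟 q mid h).edge (Sum.inl d) =
    if q d then s(𝒟.x d, mid d) else 𝒟.edge d := by
  have e : (eaSub 𝒟 q mid h).edge (Sum.inl d) = s(𝒟.x d, Sum.elim 𝒟.x (fun d => mid d.1)
      (if h : q d then (Sum.inr ⟨d, h⟩ : 𝒟.D ⊕ {d // q d}) else Sum.inl (𝒟.nxt d))) := rfl
  rw [e]
  by_cases hd : q d <;> simp [Darts.edge, hd]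

lemma eaSub_cnt (P : (eaSub 𝒟 q mid h).D → Prop) (p p' : 𝒟.D → Prop)
    (h1 : ∀ d, P (Sum.inl d) → p d) (h2 : ∀ d : {d // q d}, P (Sum.inr d) → p' d.1) :
    cnt P ≤ cnt p + cnt p' :=
  (ea_cnt_sum (A := 𝒟.D) (B := {d // q d}) P).trans_le (Nat.add_le_add (cnt_mono h1)
    (cnt_le_of_injOn Subtype.val h2 fun _ _ _ _ h => Subtype.ext h))

lemma eaSub_inr (d : {d // q d}) : (eaSub 𝒟 q mid h).edge (Sum.inr d) =
    s(mid d.1, 𝒟.x (𝒟.nxt d.1)) := rfl

lemma eaSub_on (ON : 𝒟.P → Bool) : (eaSub 𝒟 q mid h).on ON = ∑ d, if ON (𝒟.pc d) then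
    (if q d then {s(mid d, 𝒟.x d), s(mid d, 𝒟.x (𝒟.nxt d))} else {𝒟.edge d}) else 0 := by
  have e : (eaSub 𝒟 q mid h).on ON =
      (∑ d, if ON (𝒟.pc d) then {if q d then s(𝒟.x d, mid d) else 𝒟.edge d} else 0) +
      ∑ d : {d // q d}, if ON (𝒟.pc d.1) then {s(mid d.1, 𝒟.x (𝒟.nxt d.1))} else 0 := by
    simp only [← eaSub_inl 𝒟 q mid h]
    exact Fintype.sum_sum_type _
  rw [e, ← Finset.sum_subtype (univ.filter q) (by simp) (fun d =>
    if ON (𝒟.pc d) then ({s(mid d, 𝒟.x (𝒟.nxt d))} : Multiset (Sym2 V)) else 0),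
    Finset.sum_filter, ← Finset.sum_add_distrib]
  refine Finset.sum_congr rfl fun d _ => ?_
  by_cases hd : q d <;> cases ON (𝒟.pc d) <;> simp [hd, Sym2.eq_swap]

end sub

lemma ea_star {V : Type} {a b : V} (hab : a ≠ b) (z : V) :
    (s(a, b).toFinset.val.map fun p => s(z, p)) = {s(z, a), s(z, b)} := by
  rw [Sym2.toFinset_mk_eq, Finset.insert_val_of_notMem (by simpa using hab)]
  simp

lemma ea_fiber {D R V : Type} [Fintype D] [Fintype R] (g : D → R → Prop) (z : R → V) (v : V) :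
    (cnt fun d => ∃ r, g d r ∧ z r = v) ≤
      wsum (fun r => z r = v) fun r => (cnt fun d => g d r) + 1 := by
  rw [cnt_def, wsum_def]
  refine (Finset.card_le_card (t := (univ.filter fun r => z r = v).biUnion
    fun r => univ.filter fun d => g d r) fun d hd => ?_).trans
    (Finset.card_biUnion_le.trans (Finset.sum_le_sum fun r _ => ?_))
  · simpa [and_comm] using hd
  · exact (cnt_def _).symm.trans_le (Nat.le_succ _)

/-- The edge absorber: every subgraph `H` of `X` with the degrees `r'` is absorbed. -/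
theorem eabs (ε η : ℝ) (hε : 0 < ε) (hη : 0 < η) : ∃ η' : ℝ, 0 < η' ∧ ∃ n0 : ℕ,
    ∀ (V W : Type) [Fintype V] [Fintype W] (G : SimpleGraph V) (md : Bool)
      (UE : Multiset (Sym2 V)) (US : Multiset (V × W)),
      n0 ≤ Fintype.card V → Env W G md ε → Ok η' UE US →
      ∀ (X : Multiset (Sym2 V)) (r : V → ℕ), X ≤ UE → (∀ e ∈ X, ¬ e.IsDiag) →
      (∀ v, (r v : ℝ) ≤ η' * Fintype.card V) →
      ∃ A O Φ, ∃ r' : V → ℕ, Good G md η UE US A O Φ ∧ (∀ v, r v ≤ r' v ∧ r' v ≤ r v + 1) ∧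
        (∀ v, (sysDeg O Φ).count v = (bd A).count v + r' v) ∧
        ∀ H ≤ X, (∀ v, (bd H).count v = r' v) → Rz O Φ (A + H) := by
  obtain ⟨a, ha, n1, hL⟩ := loops ε η hε hη
  obtain ⟨b, hb, hV⟩ := pickV ε (a / 4) hε (by positivity)
  obtain ⟨c, hc, hR⟩ := refiner (min (a / 4) (b / 4)) (by positivity)
  obtain ⟨m, hm⟩ := exists_nat_ge (2 / min a b)
  refine ⟨min (min (a / 4) b) c, by positivity, max n1 m, ?_⟩
  intro V W _ _ G md UE US hn hE hOk X r hX hXd hr
  set n : ℝ := (Fintype.card V : ℝ) with hn'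
  have n0 : 0 ≤ n := Nat.cast_nonneg _
  have hmul : ∀ {x y : ℝ}, x ≤ y → x * n ≤ y * n := fun h => mul_le_mul_of_nonneg_right h n0
  have k1 := hmul ((min_le_left (min (a / 4) b) c).trans (min_le_left _ _))
  have k2 := hmul (min_le_left (a / 4) (b / 4))
  have k3 := hmul (min_le_right (a / 4) (b / 4))
  have k4 : 2 ≤ min a b * n := by
    have : (m : ℝ) ≤ n := Nat.cast_le.2 ((le_max_right _ _).trans hn)
    rw [mul_comm]
    exact (div_le_iff₀ (by positivity)).1 (hm.trans this)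
  have k5 := k4.trans (hmul (min_le_left a b))
  have k6 := k4.trans (hmul (min_le_right a b))
  obtain ⟨R, _, ρ, 𝒟, lab, hρ, hlab, hinl, h4, hx, hρl, hON⟩ := hR V X
    (Multiset.nodup_of_le hX hOk.ne) hXd
    (hOk.mono (min_le_right _ _) hX le_rfl).le
  have hend : ∀ d i, lab d = Sum.inr i → ρ i = s(𝒟.x d, 𝒟.x (𝒟.nxt d)) := fun d i h => by
    have := hlab d
    rw [h] at this
    exact this.symm
  have c0 : ∀ {K : Type} [Fintype K], (cnt fun _ : K => False) = 0 := by
    intro K _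
    simp [cnt]
  have hD : (Fintype.card 𝒟.D : ℝ) ≤ n * (min (a / 4) (b / 4) * n) := card_le_of_load 𝒟.x hx
  have hRc : (Fintype.card R : ℝ) ≤ n * (min (a / 4) (b / 4) * n) :=
    card_le_of_load (fun i => (ρ i).out.1) fun v => (Nat.cast_le.2 (cnt_mono fun i h =>
      h ▸ Sym2.out_fst_mem (ρ i))).trans (hρl v)
  obtain ⟨z, hadj, -, hOk2, hz⟩ := hV V W G 2 UE US (by norm_num) hE.d2
    (hOk.mono ((min_le_left _ _).trans (min_le_right _ _)) le_rfl le_rfl) R
    (fun i => (ρ i).toFinset) (fun _ => ∅) (fun _ => ∅) (fun i => cnt fun d => lab d = Sum.inr i)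
    (fun i => by rw [Sym2.card_toFinset]; split_ifs <;> norm_num) (by simp)
    (fun _ => by simp only [Finset.card_empty, Nat.cast_zero]; positivity)
    (fun v => by simp only [Sym2.mem_toFinset]; linarith [hρl v])
    (fun _ => by simp only [Finset.notMem_empty, c0, Nat.cast_zero]; positivity)
    (fun i => by
      have h1 : (cnt fun d => lab d = Sum.inr i) ≤
          cnt fun d => 𝒟.x d = (ρ i).out.1 ∨ 𝒟.x d = (ρ i).out.2 := cnt_mono fun d h => by
        have h2 : 𝒟.x d ∈ ρ i := by rw [hend d i h]; exact Sym2.mem_mk_left _ _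
        rw [← Quot.out_eq (ρ i)] at h2
        exact Sym2.mem_iff.1 h2
      have h2 : ((cnt fun d => lab d = Sum.inr i : ℕ) : ℝ) ≤
          (cnt fun d => 𝒟.x d = (ρ i).out.1 : ℕ) + (cnt fun d => 𝒟.x d = (ρ i).out.2 : ℕ) := by
        exact_mod_cast h1.trans (cnt_or_le _ _)
      linarith [hx (ρ i).out.1, hx (ρ i).out.2])
    (by
      have h1 : ∑ i, (cnt fun d => lab d = Sum.inr i) ≤ Fintype.card 𝒟.D := by
        rw [card_eq_sum_cnt lab, Fintype.sum_sum_type]
        exact Nat.le_add_left _ _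
      have h2 : ∑ i, ((cnt fun d => lab d = Sum.inr i : ℕ) : ℝ) ≤ Fintype.card 𝒟.D := by
        exact_mod_cast h1
      rw [Finset.sum_add_distrib, Finset.sum_const, Finset.card_univ, nsmul_eq_mul, mul_one]
      nlinarith [mul_le_mul_of_nonneg_left k3 n0, mul_nonneg (mul_nonneg hb.le n0) n0])
  simp only [Finset.empty_val, Multiset.map_zero, Finset.sum_const_zero, add_zero,
    Sym2.mem_toFinset] at hOk2 hadj
  set Rr := ∑ i, (ρ i).toFinset.val.map fun p => s(z i, p) with hRr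
  let mid : 𝒟.D → V := fun d => Sum.elim (fun _ => 𝒟.x d) z (lab d)
  have hq : ∀ d, (∃ i, lab d = Sum.inr i) → 𝒟.x d ≠ mid d ∧ mid d ≠ 𝒟.x (𝒟.nxt d) := by
    rintro d ⟨i, h⟩
    simp only [mid, h, Sum.elim_inr]
    exact ⟨(hadj i _ (by rw [hend d i h]; exact Sym2.mem_mk_left _ _)).ne',
      (hadj i _ (by rw [hend d i h]; exact Sym2.mem_mk_right _ _)).ne⟩
  have hmem : ∀ i, ∀ p ∈ ρ i, s(z i, p) ∈ Rr := fun i p hp =>
    Multiset.mem_sum.2 ⟨i, Finset.mem_univ _, Multiset.mem_map.2 ⟨p, by simpa using hp, rfl⟩⟩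
  have hdeg : ∀ v, (bd Rr).count v = 2 * (cnt fun i => z i = v) + cnt fun i => v ∈ ρ i := by
    intro v
    rw [hRr, bd_sum, Multiset.count_sum', cnt_eq_sum, cnt_eq_sum, Finset.mul_sum,
      ← Finset.sum_add_distrib]
    refine Finset.sum_congr rfl fun i _ => ?_
    rw [bd_map_star, Multiset.count_add, Multiset.map_const', Multiset.count_replicate,
      Finset.card_val, Sym2.card_toFinset_of_not_isDiag _ (hρ i)]
    congr 1
    · split_ifs <;> rfl
    · split_ifs with h
      · exact Multiset.count_eq_one_of_mem (Finset.nodup _) (by simpa using h)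
      · exact Multiset.count_eq_zero_of_notMem (by simpa using h)
  obtain ⟨A, O, Φ, hG, hsys, hRz⟩ := hL V W G md (UE + Rr) US ((le_max_left _ _).trans hn) hE
    (hOk2.mono (by linarith) le_rfl le_rfl) (eaSub 𝒟 _ mid hq)
    (fun v => (r v + (bd Rr).count v + 1) / 2)
    (fun p => (eaSub_cnt 𝒟 _ mid hq _ _ _ (fun _ h => h) (fun _ h => h)).trans
      (Nat.add_le_add (h4 p) (h4 p)))
    (by
      rintro (d | ⟨d, i, h⟩)
      · rw [eaSub_inl]
        split_ifs with h
        · obtain ⟨i, h⟩ := h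
          simp only [mid, h, Sum.elim_inr]
          rw [Sym2.eq_swap]
          exact Multiset.mem_add.2 (Or.inr
            (hmem i _ (by rw [hend d i h]; exact Sym2.mem_mk_left _ _)))
        · cases h' : lab d with
          | inl e =>
            rw [hlab, h']
            exact Multiset.mem_add.2 (Or.inl (Multiset.mem_of_le hX (hinl d e h')))
          | inr i => exact absurd ⟨i, h'⟩ h
      · rw [eaSub_inr]
        simp only [mid, h, Sum.elim_inr]
        exact Multiset.mem_add.2 (Or.inr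
          (hmem i _ (by rw [hend d i h]; exact Sym2.mem_mk_right _ _))))
    (fun v => by
      have h3 := Nat.cast_le (α := ℝ).2 ((eaSub_cnt 𝒟 _ mid hq
        (fun δ => (eaSub 𝒟 _ mid hq).x δ = v) (fun d => 𝒟.x d = v)
        (fun d => ∃ i, lab d = Sum.inr i ∧ z i = v) (fun _ h => h)
        (fun ⟨d, i, h⟩ h' => ⟨i, h, by
          have h2 : mid d = v := h'
          simpa [mid, h] using h2⟩)).trans
          (Nat.add_le_add_left (ea_fiber _ z v) _))
      rw [Nat.cast_add] at h3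
      linarith [hx v, hz v])
    (fun v => by
      have h1 : (((bd Rr).count v : ℕ) : ℝ) ≤ a / 4 * n :=
        (hOk2.mono le_rfl (Multiset.le_add_left _ _) le_rfl).le v
      have h2 := Nat.cast_div_le (α := ℝ) (m := r v + (bd Rr).count v + 1) (n := 2)
      push_cast at h2 ⊢
      linarith [hr v])
  refine ⟨A + Rr, O, Φ, fun v => 2 * ((r v + (bd Rr).count v + 1) / 2) - (bd Rr).count v,
    ⟨?_, fun e he => ?_, hG.sgl, hG.bal⟩, fun v => by beta_reduce; omega, fun v => ?_,
    fun H hH hd => ?_⟩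
  · rw [add_comm A, ← add_assoc]
    exact hG.ok
  · rcases Multiset.mem_add.1 he with he | he
    · exact hG.sub e he
    · obtain ⟨i, -, he⟩ := Multiset.mem_sum.1 he
      obtain ⟨p, hp, rfl⟩ := Multiset.mem_map.1 he
      exact hadj i p (by simpa using hp)
  · rw [hsys, bd_add, Multiset.count_add]
    beta_reduce
    omega
  beta_reduce at hd
  obtain ⟨ON, hS⟩ := hON H hH fun v => by
    have h1 := hd v
    have h2 := hdeg v
    rw [Nat.even_iff]
    omega
  have hon : (eaSub 𝒟 _ mid hq).on ON = Rr + H := by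
    have h1 := congrArg (fun M => Multiset.bind M (Sum.elim (fun e => ({e} : Multiset (Sym2 V)))
      fun i => (ρ i).toFinset.val.map fun p => s(z i, p))) hS
    have hb : ∀ {I : Type} [Fintype I] (M : I → Multiset (Sym2 V ⊕ R))
        (f : Sym2 V ⊕ R → Multiset (Sym2 V)), (∑ i, M i).bind f = ∑ i, (M i).bind f := by
      intro I _ M f
      simp only [Multiset.bind, map_finsum]
      exact map_sum Multiset.sumAddMonoidHom _ _
    simp only [Multiset.add_bind, hb, Multiset.bind_map, Sum.elim_inl,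
      Multiset.singleton_bind, Sum.elim_inr] at h1
    rw [Multiset.bind_singleton (f := fun e => e), Multiset.map_id'] at h1
    rw [eaSub_on, add_comm, hRr, ← h1]
    refine Finset.sum_congr rfl fun d _ => ?_
    cases ON (𝒟.pc d)
    · simp
    · simp only [if_true, Multiset.singleton_bind]
      cases h' : lab d with
      | inl e => simp [hlab, h']
      | inr i =>
        simp only [mid, h', Sum.elim_inr, Sum.inr.injEq, exists_eq', if_true, hend d i h']
        exact (ea_star (𝒟.ne d) _).symm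
  have := hRz ON fun v => by
    have h1 := ea_count_on (eaSub 𝒟 _ mid hq) ON v
    rw [hon, bd_add, Multiset.count_add, hd v] at h1
    omega
  rwa [hon, ← add_assoc] at this

end Pool.Agent.Lib.MP_34bdde_co
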