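import Mathlib
import Pool.Agent.Lib.MP_34bdde_co.Defs

set_option autoImplicit false

open Finset
open scoped Classical

noncomputable section

namespace Pool.Agent.Lib.MP_34bdde_co

namespace Lay

lemma succ_mod_iff {l i j : ℕ} (hi : i < l) :
    (i + 1) % l = j ↔ (i + 1 < l ∧ j = i + 1) ∨ (i + 1 = l ∧ j = 0) := by
  rcases (Nat.succ_le_of_lt hi).lt_or_eq with h | h
  · rw [Nat.mod_eq_of_lt h]
    omega
  · have h' : i + 1 = l := h
    rw [h', Nat.mod_self]
    omega

theorem model' (Λ : Type) [Fintype Λ] (F : SimpleGraph Λ)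
    (h2 : ∀ a, (cnt fun b => F.Adj a b) = 2)
    (hev : ∀ (v : Λ) (c : F.Walk v v), c.IsCycle → Even c.length) :
    ∃ (ι : Type) (_ : Fintype ι) (ℓ : ι → ℕ) (q : ι → ℕ → Λ),
      (∀ c, 4 ≤ ℓ c ∧ Even (ℓ c)) ∧
      (∀ c i c' i', i < ℓ c → i' < ℓ c' → q c i = q c' i' → c = c' ∧ i = i') ∧
      (∀ a, ∃ c i, i < ℓ c ∧ q c i = a) ∧
      ∀ c i c' i', i < ℓ c → i' < ℓ c' → (F.Adj (q c i) (q c' i') ↔
        c = c' ∧ ((i + 1) % ℓ c = i' ∨ (i' + 1) % ℓ c = i)) := by
  have hn : ∀ a, (F.neighborSet a).ncard = 2 := by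
    intro a
    rw [← h2 a, cnt_def, ← Set.ncard_coe_finset]
    congr 1
    ext b
    simp
  have hcyc : F.IsCycles := fun a _ => hn a
  have hex : ∀ c : F.ConnectedComponent, ∃ (v : Λ) (p : F.Walk v v),
      p.IsCycle ∧ p.toSubgraph.verts = c.supp := by
    intro c
    obtain ⟨v, hv⟩ := c.nonempty_supp
    obtain ⟨p, hp⟩ := hcyc.exists_cycle_toSubgraph_verts_eq_connectedComponentSupp hv
      (Set.nonempty_of_ncard_ne_zero (by rw [hn]; norm_num))
    exact ⟨v, p, hp⟩
  choose v p hp hs using hex
  have hmem : ∀ c i, (p c).getVert i ∈ c.supp := fun c i => by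
    rw [← hs c, SimpleGraph.Walk.mem_verts_toSubgraph]
    exact (p c).getVert_mem_support i
  have hinj : ∀ c i i', i < (p c).length → i' < (p c).length →
      (p c).getVert i = (p c).getVert i' → i = i' := fun c i i' hi hi' h =>
    (hp c).getVert_injOn' (by simp only [Set.mem_ofPred_eq]; omega)
      (by simp only [Set.mem_ofPred_eq]; omega) h
  have hsucc : ∀ c i, i < (p c).length →
      (p c).getVert (i + 1) = (p c).getVert ((i + 1) % (p c).length) := by
    intro c i hi
    rcases (succ_mod_iff hi).mp rfl with ⟨_, h⟩ | ⟨h1, h⟩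
    · rw [h]
    · rw [h, h1]
      simp
  refine ⟨F.ConnectedComponent, Fintype.ofFinite _, fun c => (p c).length,
    fun c i => (p c).getVert i, fun c => ?_, fun c i c' i' hi hi' h => ?_, fun a => ?_,
    fun c i c' i' hi hi' => ⟨fun h => ?_, ?_⟩⟩
  · have h3 := (hp c).three_le_length
    have he := hev _ _ (hp c)
    refine ⟨?_, he⟩
    obtain ⟨k, hk⟩ := he
    show 4 ≤ (p c).length
    omega
  · have hc : c = c' := by
      have h1 := hmem c i
      have h2 := hmem c' i'
      simp only at h
      rw [← h] at h2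
      rw [SimpleGraph.ConnectedComponent.mem_supp_iff] at h1 h2
      rw [← h1, ← h2]
    subst hc
    exact ⟨rfl, hinj c i i' hi hi' h⟩
  · have ha : a ∈ (F.connectedComponentMk a).supp := rfl
    rw [← hs, SimpleGraph.Walk.mem_verts_toSubgraph,
      SimpleGraph.Walk.mem_support_iff_exists_getVert] at ha
    obtain ⟨n, hn1, hn2⟩ := ha
    have h3 := (hp (F.connectedComponentMk a)).three_le_length
    rcases hn2.lt_or_eq with h | h
    · exact ⟨_, n, h, hn1⟩
    · refine ⟨F.connectedComponentMk a, 0, by simp only; omega, ?_⟩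
      rw [h, SimpleGraph.Walk.getVert_length] at hn1
      simpa using hn1
  · have hc : c = c' := by
      have h1 := hmem c i
      have h2 := hmem c' i'
      rw [SimpleGraph.ConnectedComponent.mem_supp_iff] at h1 h2
      rw [← h1, ← h2]
      exact SimpleGraph.ConnectedComponent.connectedComponentMk_eq_of_adj h
    subst hc
    refine ⟨rfl, ?_⟩
    have h1 := ((hp c).adj_toSubgraph_iff_of_isCycles hcyc
      (by rw [hs]; exact hmem c i) _).mpr h
    obtain ⟨j, hj, hjl⟩ := (p c).toSubgraph_adj_iff.mp h1
    have hlt : (j + 1) % (p c).length < (p c).length := Nat.mod_lt _ (by omega)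
    rw [hsucc c j hjl] at hj
    rcases Sym2.eq_iff.mp hj with ⟨e1, e2⟩ | ⟨e1, e2⟩
    · left
      rw [← hinj c j i hjl hi e1]
      exact hinj c _ _ hlt hi' e2
    · right
      rw [← hinj c j i' hjl hi' e1]
      exact hinj c _ _ hlt hi e2
  · rintro ⟨rfl, h | h⟩
    · have h1 := (p c).adj_getVert_succ hi
      rw [hsucc c i hi] at h1
      simp only at h ⊢
      rwa [h] at h1
    · have h1 := (p c).adj_getVert_succ hi'
      rw [hsucc c i' hi'] at h1
      simp only at h ⊢
      rw [h] at h1
      exact h1.symm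

/-- Filling the blocks cycle by cycle. -/
lemma thresh {ι : Type} (s : Finset ι) (nb : ι → ℕ) : ∃ a : ℕ → ι → ℕ,
    (∀ M c, a M c ≤ nb c) ∧ (∀ M M' c, M ≤ M' → a M c ≤ a M' c) ∧
    (∀ M, M ≤ ∑ c ∈ s, nb c → ∑ c ∈ s, a M c = M) ∧
    (∀ M, ∑ c ∈ s, nb c ≤ M → ∀ c ∈ s, a M c = nb c) ∧
    ∀ M, ∀ c ∈ s, ∀ c' ∈ s, 0 < a M c → a M c < nb c → 0 < a M c' → a M c' < nb c' →
      c = c' := by
  induction s using Finset.induction_on with
  | empty => exact ⟨fun _ _ => 0, by simp, by simp, by simp, by simp, by simp⟩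
  | insert c0 s hc0 ih =>
    obtain ⟨a, h1, h2, h3, h4, h5⟩ := ih
    set T := ∑ c ∈ s, nb c with hT
    have hne : ∀ c ∈ s, c ≠ c0 := fun c hc h => hc0 (h ▸ hc)
    have hsum : ∀ M, ∑ c ∈ s, (if c = c0 then min (nb c0) (M - T) else a M c) =
        ∑ c ∈ s, a M c := fun M => Finset.sum_congr rfl fun c hc => if_neg (hne c hc)
    refine ⟨fun M c => if c = c0 then min (nb c0) (M - T) else a M c, fun M c => ?_,
      fun M M' c h => ?_, fun M hM => ?_, fun M hM c hc => ?_, fun M c hc c' hc' => ?_⟩
    all_goals beta_reduce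
    · split_ifs with h
      · rw [h]
        exact min_le_left _ _
      · exact h1 M c
    · split_ifs
      · omega
      · exact h2 M M' c h
    · rw [Finset.sum_insert hc0] at hM ⊢
      rw [← hT] at hM
      rw [hsum, if_pos rfl]
      rcases le_total M T with h | h
      · rw [h3 M h]
        omega
      · rw [Finset.sum_congr rfl (h4 M h), ← hT]
        omega
    · rw [Finset.sum_insert hc0, ← hT] at hM
      rcases Finset.mem_insert.mp hc with rfl | hc'
      · rw [if_pos rfl]
        omega
      · rw [if_neg (hne c hc')]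
        exact h4 M (by omega) c hc'
    · rcases Finset.mem_insert.mp hc with rfl | hc1
      · rcases Finset.mem_insert.mp hc' with rfl | hc2
        · intros
          rfl
        · rw [if_pos rfl, if_neg (hne c' hc2)]
          intro e1 _ _ e4
          rw [h4 M (by omega) c' hc2] at e4
          omega
      · rcases Finset.mem_insert.mp hc' with rfl | hc2
        · rw [if_pos rfl, if_neg (hne c hc1)]
          intro _ e2 e3 _
          rw [h4 M (by omega) c hc1] at e2
          omega
        · rw [if_neg (hne c hc1), if_neg (hne c' hc2)]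
          exact h5 M c hc1 c' hc2

lemma cnt_sigma {ι : Type} [Fintype ι] (ℓ : ι → ℕ) (P : ι → ℕ → Prop) :
    (cnt fun p : Σ c, Fin (ℓ c) => P p.1 p.2) = ∑ c, ((range (ℓ c)).filter (P c)).card := by
  rw [cnt_eq_sum, Fintype.sum_sigma]
  refine Finset.sum_congr rfl fun c _ => ?_
  rw [Finset.card_filter, ← Fin.sum_univ_eq_sum_range (fun i => if P c i then 1 else 0)]

lemma sum_ite_le {ι : Type} [Fintype ι] (P : ι → Prop) [DecidablePred P]
    (h : ∀ c c', P c → P c' → c = c')
    (k : ℕ) : ∑ c, (if P c then k else 0) ≤ k := by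
  rw [← Finset.sum_filter, Finset.sum_const, smul_eq_mul]
  have : (univ.filter P).card ≤ 1 := Finset.card_le_one.mpr fun a ha b hb =>
    h a b (Finset.mem_filter.mp ha).2 (Finset.mem_filter.mp hb).2
  nlinarith

/-- Number of blocks of a cycle of length `l`. -/
def nbk (l : ℕ) : ℕ := max 1 (l / 5)

/-- End of the first `x` blocks. -/
def endp (l x : ℕ) : ℕ := if x = nbk l then l else 5 * x

def PreP (l A i : ℕ) : Prop := i < A ∨ (0 < A ∧ i + 1 = l)

def whole (l B L : ℕ) : Prop := B = 0 ∧ l ≤ L

def lo (A B : ℕ) : ℕ := max B (if 0 < A then A + 1 else 0)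

def hi (l A : ℕ) : ℕ := if 0 < A then l - 2 else l

def RestP (l A B L i : ℕ) : Prop := whole l B L ∨ (lo A B ≤ i ∧ i < hi l A ∧ ¬ L ∣ i)

def PostP (l A B L i : ℕ) : Prop := ¬ PreP l A i ∧ ¬ RestP l A B L i

def kk (l B L : ℕ) : ℕ := if whole l B L then l / 2 else L

def st (l A B L r : ℕ) : ℕ := if whole l B L then 0 else max (lo A B) (r * L + 1)

def en (l A B L r : ℕ) : ℕ :=
  if whole l B L then (if r = 0 then l else 0) else min (hi l A) (r * L + L)

def PathP (l A B L r : ℕ) : Prop := ¬ whole l B L ∧ st l A B L r < en l A B L r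

lemma endp_cases (l x : ℕ) :
    (x = max 1 (l / 5) ∧ endp l x = l) ∨ (x ≠ max 1 (l / 5) ∧ endp l x = 5 * x) := by
  unfold endp nbk
  split_ifs with h
  · exact Or.inl ⟨h, rfl⟩
  · exact Or.inr ⟨h, rfl⟩

lemma lo_cases (A B : ℕ) : (A = 0 ∧ lo A B = B) ∨ (0 < A ∧ lo A B = max B (A + 1)) := by
  unfold lo
  split_ifs with h
  · exact Or.inr ⟨h, rfl⟩
  · left
    omega

lemma hi_cases (l A : ℕ) : (A = 0 ∧ hi l A = l) ∨ (0 < A ∧ hi l A = l - 2) := by
  unfold hi
  split_ifs with h
  · exact Or.inr ⟨h, rfl⟩
  · left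
    omega

lemma card_pre (l A : ℕ) : ((range l).filter (PreP l A)).card ≤
    A + if 0 < A ∧ A < l then 1 else 0 := by
  split_ifs with h
  · have : (range l).filter (PreP l A) ⊆ insert (l - 1) (range A) := by
      intro i hi
      simp only [Finset.mem_filter, Finset.mem_range, PreP, Finset.mem_insert] at hi ⊢
      omega
    refine (Finset.card_le_card this).trans ((Finset.card_insert_le _ _).trans ?_)
    simp
  · have : (range l).filter (PreP l A) ⊆ range A := by
      intro i hi
      simp only [Finset.mem_filter, Finset.mem_range, PreP] at hi ⊢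
      omega
    simpa using Finset.card_le_card this

lemma card_bdry (l A : ℕ) (P : ℕ → Prop) (h : ∀ i, i < l → P i → PreP l A i ∧ ∃ j, j < l ∧
    ¬ PreP l A j ∧ ((i + 1) % l = j ∨ (j + 1) % l = i)) :
    ((range l).filter P).card ≤ if 0 < A ∧ A < l then 2 else 0 := by
  have key : ∀ i, i < l → P i → (0 < A ∧ A < l) ∧ (i = A - 1 ∨ i = l - 1) := by
    intro i hi hP
    obtain ⟨h1, j, hj, h2, h3⟩ := h i hi hP
    rw [succ_mod_iff hi, succ_mod_iff hj] at h3
    unfold PreP at h1 h2
    omega
  split_ifs with h0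
  · have : (range l).filter P ⊆ {A - 1, l - 1} := by
      intro i hi
      simp only [Finset.mem_filter, Finset.mem_range, Finset.mem_insert,
        Finset.mem_singleton] at hi ⊢
      exact (key i hi.1 hi.2).2
    exact (Finset.card_le_card this).trans Finset.card_le_two
  · rw [Nat.le_zero, Finset.card_eq_zero, Finset.filter_eq_empty_iff]
    intro i hi hP
    exact h0 (key i (Finset.mem_range.mp hi) hP).1

lemma card_post (l A B L : ℕ) (hL : 0 < L) :
    ((range l).filter (PostP l A B L)).card ≤
      (B - A) + (if 0 < A ∧ A < l then 2 else 0) + if L < l then l / L + 1 else 0 := by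
  have hsub : (range l).filter (PostP l A B L) ⊆
      (Finset.Ico A B ∪ (if 0 < A ∧ A < l then {A, l - 2} else ∅)) ∪
        if L < l then (range (l / L + 1)).image (fun r => L * r) else ∅ := by
    intro i hi
    simp only [Finset.mem_filter, Finset.mem_range, PostP, PreP, RestP, whole] at hi
    obtain ⟨hil, h1, h2⟩ := hi
    have e1 := lo_cases A B
    have e2 := hi_cases l A
    simp only [Finset.mem_union, Finset.mem_Ico]
    by_cases hB : i < B
    · exact Or.inl (Or.inl ⟨by omega, hB⟩)
    by_cases hd : L ∣ i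
    · obtain ⟨r, rfl⟩ := hd
      by_cases hl : L < l
      · right
        rw [if_pos hl]
        refine Finset.mem_image.mpr ⟨r, Finset.mem_range.mpr (Nat.lt_succ_of_le ?_), rfl⟩
        rw [Nat.le_div_iff_mul_le hL, mul_comm]
        exact hil.le
      · exfalso
        have hr : r = 0 := by
          by_contra hr
          have : L * 1 ≤ L * r := Nat.mul_le_mul_left L (Nat.one_le_iff_ne_zero.mpr hr)
          omega
        subst hr
        omega
    · left
      right
      have h3 : 0 < A ∧ A < l := by
        by_contra h3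
        apply h2
        right
        refine ⟨by omega, by omega, hd⟩
      rw [if_pos h3]
      simp only [Finset.mem_insert, Finset.mem_singleton]
      by_contra h4
      apply h2
      right
      refine ⟨by omega, by omega, hd⟩
  refine (Finset.card_le_card hsub).trans ((Finset.card_union_le _ _).trans
    (Nat.add_le_add ((Finset.card_union_le _ _).trans (Nat.add_le_add ?_ ?_)) ?_))
  · simp
  · split_ifs
    · exact Finset.card_le_two
    · simp
  · split_ifs
    · exact Finset.card_image_le.trans (by simp)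
    · simp

lemma card_paths (l A B L : ℕ) (hL : 0 < L) :
    ((range l).filter (PathP l A B L)).card ≤
      (if 0 < B ∧ B < l then 1 else 0) + if L < l then l / L + 1 else 0 := by
  have key : ∀ r, ¬ whole l B L → st l A B L r < en l A B L r → r * L + 1 < l ∧ B < l := by
    intro r h1 h2
    unfold st en at h2
    rw [if_neg h1, if_neg h1] at h2
    have e1 := lo_cases A B
    have e2 := hi_cases l A
    omega
  by_cases hl : L < l
  · rw [if_pos hl]
    refine le_trans ?_ (Nat.le_add_left _ _)
    have : (range l).filter (PathP l A B L) ⊆ range (l / L + 1) := by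
      intro r hr
      obtain ⟨_, h1, h2⟩ := Finset.mem_filter.mp hr
      refine Finset.mem_range.mpr (Nat.lt_succ_of_le ?_)
      rw [Nat.le_div_iff_mul_le hL]
      have := key r h1 h2
      omega
    simpa using Finset.card_le_card this
  · rw [if_neg hl, add_zero]
    have key2 : ∀ r, ¬ whole l B L → st l A B L r < en l A B L r → r = 0 ∧ 0 < B ∧ B < l := by
      intro r h1 h2
      have h3 := key r h1 h2
      unfold whole at h1
      refine ⟨?_, by omega, h3.2⟩
      by_contra hr
      have : 1 * L ≤ r * L := Nat.mul_le_mul_right L (Nat.one_le_iff_ne_zero.mpr hr)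
      omega
    split_ifs with h0
    · refine Finset.card_le_one.mpr fun a ha b hb => ?_
      obtain ⟨_, h1, h2⟩ := Finset.mem_filter.mp ha
      obtain ⟨_, h3, h4⟩ := Finset.mem_filter.mp hb
      rw [(key2 a h1 h2).1, (key2 b h3 h4).1]
    · rw [Nat.le_zero, Finset.card_eq_zero, Finset.filter_eq_empty_iff]
      rintro r _ ⟨h1, h2⟩
      exact h0 (key2 r h1 h2).2

lemma mul_ite_le (l L : ℕ) : L * (if L < l then l / L + 1 else 0) ≤ 2 * l := by
  split_ifs with h
  · have := Nat.mul_div_le l L
    rw [Nat.mul_add]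
    omega
  · simp

lemma en_le (l A B L r : ℕ) : en l A B L r ≤ l := by
  unfold en
  have e2 := hi_cases l A
  split_ifs <;> omega

lemma window_unique {L r r' x y : ℕ} (h1 : r * L + 1 ≤ x) (h2 : x < r * L + L)
    (h3 : r' * L + 1 ≤ y) (h4 : y < r' * L + L) (h : x ≤ y) (h' : y ≤ x + 1) : r = r' := by
  rcases lt_trichotomy r r' with e | e | e
  · have : (r + 1) * L ≤ r' * L := Nat.mul_le_mul_right L e
    rw [Nat.add_mul] at this
    omega
  · exact e
  · have : (r' + 1) * L ≤ r * L := Nat.mul_le_mul_right L e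
    rw [Nat.add_mul] at this
    omega

lemma unit_inj {l A B L r r' i i' : ℕ} (hi : i < en l A B L r - st l A B L r)
    (hi' : i' < en l A B L r' - st l A B L r')
    (h : st l A B L r + i = st l A B L r' + i') : r = r' ∧ i = i' := by
  have hr : r = r' := by
    unfold st en at *
    by_cases hw : whole l B L
    · simp only [if_pos hw] at hi hi'
      split_ifs at hi hi' <;> omega
    · simp only [if_neg hw] at hi hi' h
      exact window_unique (x := max (lo A B) (r * L + 1) + i) (y := max (lo A B) (r * L + 1) + i)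
        (L := L) (by omega) (by omega) (by omega) (by omega) le_rfl (Nat.le_succ _)
  subst hr
  exact ⟨rfl, by omega⟩

lemma unit_cover {l A B L x : ℕ} (hL : 0 < L) (hx : x < l) : RestP l A B L x ↔
    ∃ r i, r < l ∧ i < en l A B L r - st l A B L r ∧ st l A B L r + i = x := by
  unfold RestP st en
  by_cases hw : whole l B L
  · simp only [if_pos hw]
    refine ⟨fun _ => ⟨0, x, by omega, by simpa using hx, by simp⟩, fun _ => Or.inl hw⟩
  · simp only [if_neg hw]
    constructor
    · rintro (h | ⟨h1, h2, h3⟩)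
      · exact absurd h hw
      · have e1 := Nat.div_add_mod x L
        have e2 := Nat.mod_lt x hL
        have e3 : x % L ≠ 0 := fun h => h3 (Nat.dvd_of_mod_eq_zero h)
        have e4 : x / L ≤ x := Nat.div_le_self _ _
        rw [mul_comm] at e1
        exact ⟨x / L, x - max (lo A B) (x / L * L + 1), by omega, by omega, by omega⟩
    · rintro ⟨r, i, _, h1, h2⟩
      refine Or.inr ⟨by omega, by omega, ?_⟩
      rintro ⟨t, ht⟩
      rw [mul_comm] at ht
      rcases le_or_gt t r with e | e
      · have : t * L ≤ r * L := Nat.mul_le_mul_right L e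
        omega
      · have : (r + 1) * L ≤ t * L := Nat.mul_le_mul_right L e
        rw [Nat.add_mul] at this
        omega

lemma unit_adj {l A B L r r' i i' : ℕ} (he : Even l)
    (hi : i < en l A B L r - st l A B L r) (hi' : i' < en l A B L r' - st l A B L r') :
    (st l A B L r + i + 1) % l = st l A B L r' + i' ↔
      r = r' ∧ (i + 1) % (2 * kk l B L) = i' := by
  have e1 := en_le l A B L r
  have e2 := en_le l A B L r'
  unfold st en kk at *
  by_cases hw : whole l B L
  · simp only [if_pos hw] at *
    have h2 : 2 * (l / 2) = l := by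
      obtain ⟨k, hk⟩ := he
      omega
    have hr : r = r' := by
      split_ifs at hi hi' <;> omega
    rw [h2, zero_add, zero_add]
    exact ⟨fun h => ⟨hr, h⟩, fun h => h.2⟩
  · simp only [if_neg hw] at *
    rw [succ_mod_iff (by omega), succ_mod_iff (by omega)]
    constructor
    · intro h
      have hr : r = r' := window_unique (x := max (lo A B) (r * L + 1) + i)
        (y := max (lo A B) (r' * L + 1) + i') (L := L) (by omega) (by omega) (by omega)
        (by omega) (by omega) (by omega)
      subst hr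
      exact ⟨rfl, by omega⟩
    · rintro ⟨rfl, h⟩
      omega

lemma unit_size {l A B L r : ℕ} (he : Even l) :
    (whole l B L → en l A B L r - st l A B L r = 0 ∨
      en l A B L r - st l A B L r = 2 * kk l B L) ∧
    en l A B L r - st l A B L r ≤ 2 * kk l B L := by
  obtain ⟨k, hk⟩ := he
  unfold st en kk
  by_cases hw : whole l B L
  · simp only [if_pos hw]
    split_ifs <;> omega
  · simp only [if_neg hw]
    exact ⟨fun h => absurd h hw, by omega⟩

lemma kk_bounds {l B L : ℕ} (hl : 4 ≤ l) (hL : 2 ≤ L) : 2 ≤ kk l B L ∧ kk l B L ≤ L := by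
  unfold kk
  split_ifs with h
  · unfold whole at h
    omega
  · omega

lemma rest_not_pre {l A B L x : ℕ} (hAB : A ≤ B) (h : RestP l A B L x) : ¬ PreP l A x := by
  unfold RestP whole at h
  unfold PreP
  have e1 := lo_cases A B
  have e2 := hi_cases l A
  omega

lemma post_of {l A B L x : ℕ} (h1 : ¬ PreP l A x)
    (h2 : x < B ∨ (0 < A ∧ A ≤ B ∧ (x = A ∨ x + 2 = l))) : PostP l A B L x := by
  refine ⟨h1, ?_⟩
  unfold RestP whole
  have e1 := lo_cases A B
  have e2 := hi_cases l A
  omega

lemma toNat_inj {i j : Bool} (h : i.toNat = j.toNat) : i = j := by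
  cases i <;> cases j <;> simp_all

end Lay

end Pool.Agent.Lib.MP_34bdde_co
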