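import Mathlib
import Pool.Agent.Lib.MP_34bdde_co.LayoutA

set_option autoImplicit false

open Finset
open scoped Classical

noncomputable section

namespace Pool.Agent.Lib.MP_34bdde_co

/- PLAN. model: components of F are cycles
(SimpleGraph.IsCycles.exists_cycle_toSubgraph_verts_eq_connectedComponentSupp, getVert).
layout: cut every cycle into consecutive blocks (one block if ℓ <= 9, else ℓ/5 blocks, of size 5
except the last, of size 5..9); all blocks have size 4..9, so there are at least n/9. Order the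
blocks cycle by cycle. Pre = first M blocks and the last vertex of the cycle of block M if that
cycle is not exhausted; site = first four vertices of a block. The next K blocks (without that
vertex) go to Post, res = vertices 1, 2 of the block. Post also gets the neighbours of Pre outside
Pre and, in cycles longer than L, the positions divisible by L (when not in Pre). Units: cycles
of length <= L that are untouched (k = ℓ/2, s = ℓ) and the maximal runs of other vertices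
(k = L, s < L). -/

/-- A 2-regular graph with even cycles, in coordinates. -/
theorem model (Λ : Type) [Fintype Λ] (F : SimpleGraph Λ) (h2 : ∀ a, (cnt fun b => F.Adj a b) = 2)
    (hev : ∀ (v : Λ) (c : F.Walk v v), c.IsCycle → Even c.length) :
    ∃ (ι : Type) (_ : Fintype ι) (ℓ : ι → ℕ) (q : ι → ℕ → Λ),
      (∀ c, 4 ≤ ℓ c ∧ Even (ℓ c)) ∧
      (∀ c i c' i', i < ℓ c → i' < ℓ c' → q c i = q c' i' → c = c' ∧ i = i') ∧
      (∀ a, ∃ c i, i < ℓ c ∧ q c i = a) ∧
      ∀ c i c' i', i < ℓ c → i' < ℓ c' → (F.Adj (q c i) (q c' i') ↔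
        c = c' ∧ ((i + 1) % ℓ c = i' ∨ (i' + 1) % ℓ c = i)) := by
  exact Lay.model' Λ F h2 hev

theorem colorable (Λ : Type) [Fintype Λ] (F : SimpleGraph Λ)
    (h2 : ∀ a, (cnt fun b => F.Adj a b) = 2)
    (hev : ∀ (v : Λ) (c : F.Walk v v), c.IsCycle → Even c.length) : F.Colorable 2 := by
  obtain ⟨ι, _, ℓ, q, hl, hinj, hcov, hadj⟩ := model Λ F h2 hev
  choose co ix hix hq using hcov
  refine ⟨SimpleGraph.Coloring.mk (fun a => ⟨ix a % 2, Nat.mod_lt _ (by norm_num)⟩) ?_⟩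
  intro a b hab h
  have h1 : ix a % 2 = ix b % 2 := congrArg Fin.val h
  rw [← hq a, ← hq b, hadj _ _ _ _ (hix a) (hix b)] at hab
  obtain ⟨hc, h3⟩ := hab
  have h4 := hix b
  rw [← hc] at h4
  rw [Lay.succ_mod_iff (hix a), Lay.succ_mod_iff h4] at h3
  obtain ⟨k, hk⟩ := (hl (co a)).2
  omega

theorem layout (Λ : Type) [Fintype Λ] (F : SimpleGraph Λ) (h2 : ∀ a, (cnt fun b => F.Adj a b) = 2)
    (hev : ∀ (v : Λ) (c : F.Walk v v), c.IsCycle → Even c.length) (M K L : ℕ) (hM : 1 ≤ M)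
    (hL : 10 ≤ L) (hn : 9 * (M + K) ≤ Fintype.card Λ) : Nonempty (Layout F M K L) := by
  obtain ⟨ι, _, ℓ, q, hl, hinj, hcov, hadj⟩ := model Λ F h2 hev
  choose co ix hix hq using hcov
  have hco : ∀ c i, i < ℓ c → co (q c i) = c := fun c i hi =>
    (hinj _ _ _ _ (hix _) hi (hq _)).1
  have hixq : ∀ c i, i < ℓ c → ix (q c i) = i := fun c i hi =>
    (hinj _ _ _ _ (hix _) hi (hq _)).2
  have hl4 : ∀ c, 4 ≤ ℓ c := fun c => (hl c).1
  have hL0 : 0 < L := by omega
  -- counting in coordinates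
  have hcnt : ∀ P : ι → ℕ → Prop, (cnt fun a => P (co a) (ix a)) ≤
      ∑ c, ((range (ℓ c)).filter (P c)).card := by
    intro P
    rw [← Lay.cnt_sigma]
    refine cnt_le_of_injOn (fun a => ⟨co a, ⟨ix a, hix a⟩⟩) (fun a h => h) fun a b _ _ h => ?_
    have h1 := congrArg (fun p : Σ c, Fin (ℓ c) => q p.1 p.2) h
    simpa [hq] using h1
  have hn1 : Fintype.card Λ ≤ ∑ c, ℓ c := by
    have h1 := hcnt fun _ _ => True
    rw [cnt_def] at h1
    simpa using h1
  have hn2 : ∑ c, ℓ c ≤ Fintype.card Λ := by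
    have h1 : Fintype.card (Σ c, Fin (ℓ c)) ≤ Fintype.card Λ := by
      refine Fintype.card_le_of_injective (fun p => q p.1 p.2) ?_
      rintro ⟨c, i⟩ ⟨c', i'⟩ h
      obtain ⟨rfl, h1⟩ := hinj _ _ _ _ i.2 i'.2 h
      rw [Fin.ext h1]
    simpa using h1
  have hnb : M + K ≤ ∑ c, Lay.nbk (ℓ c) := by
    have h1 : ∑ c, ℓ c ≤ ∑ c, 9 * Lay.nbk (ℓ c) := Finset.sum_le_sum fun c _ => by
      unfold Lay.nbk
      omega
    rw [← Finset.mul_sum] at h1
    omega
  obtain ⟨th, t1, t2, t3, -, t5⟩ := Lay.thresh univ fun c => Lay.nbk (ℓ c)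
  set a : ι → ℕ := th M with ha
  set b : ι → ℕ := th (M + K) with hb
  have hab : ∀ c, a c ≤ b c := fun c => t2 _ _ c (Nat.le_add_right _ _)
  have hbn : ∀ c, b c ≤ max 1 (ℓ c / 5) := fun c => t1 _ c
  have hsa : ∑ c, a c = M := t3 M (by omega)
  have hsb : ∑ c, b c = M + K := t3 _ hnb
  have hsd : ∑ c, (b c - a c) = K := by
    have h1 : ∑ c, (b c - a c) + ∑ c, a c = ∑ c, b c := by
      rw [← Finset.sum_add_distrib]
      exact Finset.sum_congr rfl fun c _ => Nat.sub_add_cancel (hab c)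
    omega
  set A : ι → ℕ := fun c => Lay.endp (ℓ c) (a c) with hA
  set B : ι → ℕ := fun c => Lay.endp (ℓ c) (b c) with hB
  have eA : ∀ c, (a c = max 1 (ℓ c / 5) ∧ A c = ℓ c) ∨ (a c ≠ max 1 (ℓ c / 5) ∧ A c = 5 * a c) :=
    fun c => Lay.endp_cases _ _
  have eB : ∀ c, (b c = max 1 (ℓ c / 5) ∧ B c = ℓ c) ∨ (b c ≠ max 1 (ℓ c / 5) ∧ B c = 5 * b c) :=
    fun c => Lay.endp_cases _ _
  have uA : ∀ c c', (0 < A c ∧ A c < ℓ c) → (0 < A c' ∧ A c' < ℓ c') → c = c' := by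
    intro c c' h h'
    have e1 := eA c
    have e2 := eA c'
    have e3 := (hab c).trans (hbn c)
    have e4 := (hab c').trans (hbn c')
    refine t5 M c (Finset.mem_univ _) c' (Finset.mem_univ _) ?_ ?_ ?_ ?_
    · show 0 < a c
      omega
    · show a c < max 1 (ℓ c / 5)
      omega
    · show 0 < a c'
      omega
    · show a c' < max 1 (ℓ c' / 5)
      omega
  have uB : ∀ c c', (0 < B c ∧ B c < ℓ c) → (0 < B c' ∧ B c' < ℓ c') → c = c' := by
    intro c c' h h'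
    have e1 := eB c
    have e2 := eB c'
    have e3 := hbn c
    have e4 := hbn c'
    refine t5 (M + K) c (Finset.mem_univ _) c' (Finset.mem_univ _) ?_ ?_ ?_ ?_
    · show 0 < b c
      omega
    · show b c < max 1 (ℓ c / 5)
      omega
    · show 0 < b c'
      omega
    · show b c' < max 1 (ℓ c' / 5)
      omega
  have hAB : ∀ c, A c ≤ B c := fun c => by
    have e1 := eA c
    have e2 := eB c
    have e3 := hab c
    have e4 := hbn c
    have e5 := hl4 c
    omega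
  clear_value A B a b
  clear t1 t2 t3 t5 ha hb hA hB
  obtain ⟨e1⟩ : Nonempty (Fin M ≃ Σ c, Fin (a c)) := by
    rw [← Fintype.card_eq]
    simp [hsa]
  obtain ⟨e2⟩ : Nonempty (Fin K ≃ Σ c, Fin (b c - a c)) := by
    rw [← Fintype.card_eq]
    simp [hsd]
  -- neighbours in coordinates
  have hnb' : ∀ c i y, i < ℓ c → F.Adj (q c i) y → co y = c ∧ ix y < ℓ c ∧
      (((i + 1 < ℓ c ∧ ix y = i + 1) ∨ (i + 1 = ℓ c ∧ ix y = 0)) ∨
        ((ix y + 1 < ℓ c ∧ i = ix y + 1) ∨ (ix y + 1 = ℓ c ∧ i = 0))) := by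
    intro c i y hi h
    rw [← hq y, hadj _ _ _ _ hi (hix y)] at h
    obtain ⟨hc, h⟩ := h
    have h4 := hix y
    rw [← hc] at h4
    rw [Lay.succ_mod_iff hi, Lay.succ_mod_iff h4] at h
    exact ⟨hc.symm, h4, h⟩
  have hsucc : ∀ c i, i + 1 < ℓ c → F.Adj (q c i) (q c (i + 1)) := fun c i hi =>
    (hadj _ _ _ _ (by omega) hi).mpr ⟨rfl, Or.inl (Nat.mod_eq_of_lt hi)⟩
  have hs1 : ∀ (p : Σ c, Fin (a c)) (i : Fin 4), 5 * (p.2 : ℕ) + i < ℓ p.1 := by
    rintro ⟨c, j⟩ i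
    have := j.2
    have := i.2
    have := hab c
    have := hbn c
    have := hl4 c
    simp only
    omega
  have hr1 : ∀ (p : Σ c, Fin (b c - a c)) (t : Bool),
      5 * (a p.1 + (p.2 : ℕ)) + 1 + t.toNat + 1 < ℓ p.1 := by
    rintro ⟨c, j⟩ t
    have := j.2
    have := t.toNat_le
    have := hbn c
    have := hl4 c
    simp only
    omega
  have hmemPre : ∀ y, y ∈ (univ.filter fun y => Lay.PreP (ℓ (co y)) (A (co y)) (ix y)) ↔
      Lay.PreP (ℓ (co y)) (A (co y)) (ix y) := fun y => by simp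
  have hmemPost : ∀ y,
      y ∈ (univ.filter fun y => Lay.PostP (ℓ (co y)) (A (co y)) (B (co y)) L (ix y)) ↔
      Lay.PostP (ℓ (co y)) (A (co y)) (B (co y)) L (ix y) := fun y => by simp
  have hu1 : ∀ (c : ι) (r i : ℕ),
      i < Lay.en (ℓ c) (A c) (B c) L r - Lay.st (ℓ c) (A c) (B c) L r →
      Lay.st (ℓ c) (A c) (B c) L r + i < ℓ c := fun c r i h => by
    have := Lay.en_le (ℓ c) (A c) (B c) L r
    omega
  refine ⟨{
    Pre := univ.filter fun y => Lay.PreP (ℓ (co y)) (A (co y)) (ix y)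
    Post := univ.filter fun y => Lay.PostP (ℓ (co y)) (A (co y)) (B (co y)) L (ix y)
    site := fun m i => q (e1 m).1 (5 * ((e1 m).2 : ℕ) + i)
    res := fun m t => q (e2 m).1 (5 * (a (e2 m).1 + ((e2 m).2 : ℕ)) + 1 + t.toNat)
    U := {p : Σ c, Fin (ℓ c) // Lay.st (ℓ p.1) (A p.1) (B p.1) L p.2 <
      Lay.en (ℓ p.1) (A p.1) (B p.1) L p.2}
    k := fun u => Lay.kk (ℓ u.1.1) (B u.1.1) L
    s := fun u => Lay.en (ℓ u.1.1) (A u.1.1) (B u.1.1) L u.1.2 -
      Lay.st (ℓ u.1.1) (A u.1.1) (B u.1.1) L u.1.2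
    pos := fun u i => q u.1.1 (Lay.st (ℓ u.1.1) (A u.1.1) (B u.1.1) L u.1.2 + i)
    disj := ?_
    pre_card := ?_
    post_card := ?_
    site_inj := ?_
    site_adj := ?_
    site_sep := ?_
    site_pre := ?_
    site_nb := ?_
    bdry := ?_
    pre_nb := ?_
    res_inj := ?_
    res_adj := ?_
    res_sep := ?_
    res_post := ?_
    res_nb := ?_
    k_ge := fun u => (Lay.kk_bounds (hl4 _) (by omega)).1
    k_le := fun u => (Lay.kk_bounds (hl4 _) (by omega)).2
    s_pos := fun u => Nat.sub_pos_of_lt u.2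
    s_le := fun u => (Lay.unit_size (hl _).2).2
    pos_inj := ?_
    pos_cover := ?_
    pos_adj := ?_
    paths := ?_ }⟩
  · rw [Finset.disjoint_left]
    intro y h h'
    exact ((hmemPost y).mp h').1 ((hmemPre y).mp h)
  · rw [← cnt_def]
    refine (hcnt fun c i => Lay.PreP (ℓ c) (A c) i).trans ?_
    refine (Finset.sum_le_sum fun c _ => Lay.card_pre (ℓ c) (A c)).trans ?_
    rw [Finset.sum_add_distrib]
    have h1 := Lay.sum_ite_le _ uA 1
    have h3 : ∑ c, A c ≤ ∑ c, 9 * a c := Finset.sum_le_sum fun c _ => by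
      have := eA c
      omega
    rw [← Finset.mul_sum, hsa] at h3
    omega
  · rw [← cnt_def]
    have h0 := (hcnt fun c i => Lay.PostP (ℓ c) (A c) (B c) L i).trans
      (Finset.sum_le_sum fun c _ => Lay.card_post (ℓ c) (A c) (B c) L hL0)
    rw [Finset.sum_add_distrib, Finset.sum_add_distrib] at h0
    have h1 := Lay.sum_ite_le _ uA 2
    have h3 : ∑ c, (B c - A c) ≤ ∑ c, 9 * (b c - a c) := Finset.sum_le_sum fun c _ => by
      have := eA c
      have := eB c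
      have := hab c
      have := hbn c
      omega
    rw [← Finset.mul_sum, hsd] at h3
    have h4 : L * ∑ c, (if L < ℓ c then ℓ c / L + 1 else 0) ≤ 2 * ∑ c, ℓ c := by
      rw [Finset.mul_sum, Finset.mul_sum]
      exact Finset.sum_le_sum fun c _ => Lay.mul_ite_le _ _
    have h5 : (cnt fun y => Lay.PostP (ℓ (co y)) (A (co y)) (B (co y)) L (ix y)) ≤
        (9 * K + 4) + ∑ c, (if L < ℓ c then ℓ c / L + 1 else 0) := by omega
    have h6 := Nat.mul_le_mul_left L h5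
    rw [Nat.mul_add] at h6
    omega
  · intro m i m' i' h
    obtain ⟨h1, h3⟩ := hinj _ _ _ _ (hs1 _ i) (hs1 _ i') h
    have hi := i.2
    have hi' := i'.2
    refine ⟨e1.injective ?_, Fin.ext (by omega)⟩
    generalize e1 m = p at *
    generalize e1 m' = p' at *
    obtain ⟨c, j⟩ := p
    obtain ⟨c', j'⟩ := p'
    simp only at h1 h3
    subst h1
    rw [Fin.ext (show (j : ℕ) = j' by omega)]
  · intro m
    exact ⟨hsucc _ _ (hs1 (e1 m) 1), hsucc _ _ (hs1 (e1 m) 2), hsucc _ _ (hs1 (e1 m) 3)⟩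
  · intro m i m' i' h
    obtain ⟨h1, -, h3⟩ := hnb' _ _ _ (hs1 _ i) h
    rw [hco _ _ (hs1 _ i')] at h1
    rw [hixq _ _ (hs1 _ i')] at h3
    have hi := i.2
    have hi' := i'.2
    refine e1.injective ?_
    generalize e1 m = p at *
    generalize e1 m' = p' at *
    obtain ⟨c, j⟩ := p
    obtain ⟨c', j'⟩ := p'
    simp only at h1 h3
    subst h1
    have := j.2
    have := j'.2
    have := hab c'
    have := hbn c'
    rw [Fin.ext (show (j : ℕ) = j' by omega)]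
  · intro m i
    rw [hmemPre, hco _ _ (hs1 _ i), hixq _ _ (hs1 _ i)]
    have := hs1 (e1 m) i
    have := eA (e1 m).1
    have := (e1 m).2.2
    have := i.2
    unfold Lay.PreP
    omega
  · intro m i y h
    obtain ⟨h1, h3, h4⟩ := hnb' _ _ _ (hs1 _ i) h
    rw [hmemPre, h1]
    have := hs1 (e1 m) i
    have := eA (e1 m).1
    have := (e1 m).2.2
    have := i.2
    unfold Lay.PreP
    omega
  · refine (cnt_mono (q := fun y => (fun c i => Lay.PreP (ℓ c) (A c) i ∧ ∃ j, j < ℓ c ∧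
      ¬ Lay.PreP (ℓ c) (A c) j ∧ ((i + 1) % ℓ c = j ∨ (j + 1) % ℓ c = i)) (co y) (ix y))
      ?_).trans ((hcnt fun c i => Lay.PreP (ℓ c) (A c) i ∧ ∃ j, j < ℓ c ∧
      ¬ Lay.PreP (ℓ c) (A c) j ∧ ((i + 1) % ℓ c = j ∨ (j + 1) % ℓ c = i)).trans ?_)
    · rintro y ⟨h1, z, h3, h4⟩
      rw [hmemPre] at h1 h4
      rw [← hq y, ← hq z, hadj _ _ _ _ (hix y) (hix z)] at h3
      refine ⟨h1, ix z, ?_, ?_, h3.2⟩
      · rw [h3.1]
        exact hix z
      · rw [h3.1]
        exact h4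
    · refine (Finset.sum_le_sum fun c _ => Lay.card_bdry (ℓ c) (A c) _ fun i _ h => h).trans ?_
      have h1 := Lay.sum_ite_le _ uA 2
      omega
  · intro y hy z h
    rw [hmemPre] at hy
    rw [← hq y] at h
    obtain ⟨h1, h3, h4⟩ := hnb' _ _ _ (hix y) h
    rw [hmemPre, hmemPost, h1]
    by_cases h5 : Lay.PreP (ℓ (co y)) (A (co y)) (ix z)
    · exact Or.inl h5
    · refine Or.inr (Lay.post_of h5 (Or.inr ?_))
      have := hAB (co y)
      unfold Lay.PreP at hy h5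
      omega
  · intro m i m' i' h
    obtain ⟨h1, h3⟩ := hinj _ _ _ _ (Nat.lt_of_succ_lt (hr1 _ i)) (Nat.lt_of_succ_lt (hr1 _ i')) h
    have hi := i.toNat_le
    have hi' := i'.toNat_le
    generalize hp : e2 m = p at *
    generalize hp' : e2 m' = p' at *
    obtain ⟨c, j⟩ := p
    obtain ⟨c', j'⟩ := p'
    simp only at h1 h3
    subst h1
    refine ⟨e2.injective ?_, ?_⟩
    · rw [hp, hp', Fin.ext (show (j : ℕ) = j' by omega)]
    · exact Lay.toNat_inj (by omega)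
  · intro m
    exact hsucc _ _ (hr1 (e2 m) false)
  · intro m i m' i' h
    obtain ⟨h1, -, h3⟩ := hnb' _ _ _ (Nat.lt_of_succ_lt (hr1 _ i)) h
    rw [hco _ _ (Nat.lt_of_succ_lt (hr1 _ i'))] at h1
    rw [hixq _ _ (Nat.lt_of_succ_lt (hr1 _ i'))] at h3
    have hi := i.toNat_le
    have hi' := i'.toNat_le
    refine e2.injective ?_
    generalize e2 m = p at *
    generalize e2 m' = p' at *
    obtain ⟨c, j⟩ := p
    obtain ⟨c', j'⟩ := p'
    simp only at h1 h3
    subst h1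
    rw [Fin.ext (show (j : ℕ) = j' by omega)]
  · intro m i
    rw [hmemPost, hco _ _ (Nat.lt_of_succ_lt (hr1 _ i)), hixq _ _ (Nat.lt_of_succ_lt (hr1 _ i))]
    have := hr1 (e2 m) i
    have := eA (e2 m).1
    have := eB (e2 m).1
    have := hbn (e2 m).1
    have := (e2 m).2.2
    have := i.toNat_le
    refine Lay.post_of ?_ (Or.inl ?_)
    · unfold Lay.PreP
      omega
    · omega
  · intro m i y h
    obtain ⟨h1, h3, h4⟩ := hnb' _ _ _ (Nat.lt_of_succ_lt (hr1 _ i)) h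
    rw [hmemPost, h1]
    have := hr1 (e2 m) i
    have := eA (e2 m).1
    have := eB (e2 m).1
    have := hbn (e2 m).1
    have := (e2 m).2.2
    have := i.toNat_le
    refine Lay.post_of ?_ (Or.inl ?_)
    · unfold Lay.PreP
      omega
    · omega
  · rintro ⟨⟨c, r⟩, hu⟩ i ⟨⟨c', r'⟩, hu'⟩ i' hi hi' h
    obtain ⟨h1, h3⟩ := hinj _ _ _ _ (hu1 _ _ _ hi) (hu1 _ _ _ hi') h
    simp only at h1
    subst h1
    obtain ⟨h4, h5⟩ := Lay.unit_inj hi hi' h3
    obtain rfl : r = r' := Fin.ext h4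
    exact ⟨rfl, h5⟩
  · intro y
    rw [hmemPre, hmemPost]
    constructor
    · rintro ⟨h1, h3⟩
      have h4 : Lay.RestP (ℓ (co y)) (A (co y)) (B (co y)) L (ix y) := by
        by_contra h4
        exact h3 ⟨h1, h4⟩
      obtain ⟨r, i, hr, hi, h5⟩ := (Lay.unit_cover hL0 (hix y)).mp h4
      refine ⟨⟨⟨co y, ⟨r, hr⟩⟩, ?_⟩, i, hi, ?_⟩
      · simp only
        omega
      · simp only
        rw [h5, hq]
    · rintro ⟨⟨⟨c, r⟩, hu⟩, i, hi, rfl⟩
      have h1 := hu1 _ _ _ hi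
      simp only at h1 hi ⊢
      rw [hco _ _ h1, hixq _ _ h1]
      have h4 := (Lay.unit_cover hL0 h1).mpr ⟨r, i, r.2, hi, rfl⟩
      exact ⟨Lay.rest_not_pre (hAB c) h4, fun h => h.2 h4⟩
  · rintro ⟨⟨c, r⟩, hu⟩ i ⟨⟨c', r'⟩, hu'⟩ i' hi hi'
    simp only at hi hi' ⊢
    rw [hadj _ _ _ _ (hu1 _ _ _ hi) (hu1 _ _ _ hi')]
    constructor
    · rintro ⟨rfl, h⟩
      rw [Lay.unit_adj (hl c).2 hi hi', Lay.unit_adj (hl c).2 hi' hi] at h
      rcases h with ⟨h1, h3⟩ | ⟨h1, h3⟩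
      · obtain rfl : r = r' := Fin.ext h1
        exact ⟨rfl, Or.inl h3⟩
      · obtain rfl : r' = r := Fin.ext h1
        exact ⟨rfl, Or.inr h3⟩
    · rintro ⟨h1, h⟩
      obtain ⟨rfl, h3⟩ := Sigma.mk.inj_iff.mp (Subtype.mk.inj h1)
      obtain rfl := eq_of_heq h3
      refine ⟨rfl, ?_⟩
      rw [Lay.unit_adj (hl c).2 hi hi', Lay.unit_adj (hl c).2 hi' hi]
      rcases h with h | h
      · exact Or.inl ⟨rfl, h⟩
      · exact Or.inr ⟨rfl, h⟩
  · have h0 : (cnt fun u : {p : Σ c, Fin (ℓ c) // Lay.st (ℓ p.1) (A p.1) (B p.1) L p.2 <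
        Lay.en (ℓ p.1) (A p.1) (B p.1) L p.2} =>
        Lay.en (ℓ u.1.1) (A u.1.1) (B u.1.1) L u.1.2 -
          Lay.st (ℓ u.1.1) (A u.1.1) (B u.1.1) L u.1.2 < 2 * Lay.kk (ℓ u.1.1) (B u.1.1) L) ≤
        cnt fun p : Σ c, Fin (ℓ c) => Lay.PathP (ℓ p.1) (A p.1) (B p.1) L p.2 := by
      refine cnt_le_of_injOn (fun u => u.1) (fun u h => ⟨fun hw => ?_, u.2⟩)
        fun u u' _ _ h => Subtype.ext h
      have h1 := (Lay.unit_size (A := A u.1.1) (r := u.1.2) (hl u.1.1).2).1 hw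
      have h3 := u.2
      omega
    rw [Lay.cnt_sigma ℓ fun c r => Lay.PathP (ℓ c) (A c) (B c) L r] at h0
    have h1 := h0.trans (Finset.sum_le_sum fun c _ => Lay.card_paths (ℓ c) (A c) (B c) L hL0)
    rw [Finset.sum_add_distrib] at h1
    have h3 := Lay.sum_ite_le _ uB 1
    have h4 : L * ∑ c, (if L < ℓ c then ℓ c / L + 1 else 0) ≤ 2 * ∑ c, ℓ c := by
      rw [Finset.mul_sum, Finset.mul_sum]
      exact Finset.sum_le_sum fun c _ => Lay.mul_ite_le _ _
    have h6 := Nat.mul_le_mul_left L (h1.trans (Nat.add_le_add_right h3 _))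
    rw [Nat.mul_add] at h6
    omega

end Pool.Agent.Lib.MP_34bdde_co
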