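import Mathlib
import Pool.Agent.Lib.MP_34bdde_co.Greedy
import Pool.Agent.Lib.MP_34bdde_co.CoreA

set_option autoImplicit false

open Finset
open scoped Classical

noncomputable section

namespace Pool.Agent.Lib.MP_34bdde_co

/- PLAN extend: two calls of pickV_raw, one per colour class of F: requests (w, a) with
a in tgt w \ dom w of class 0 (parents: images of the F-neighbours of a in dom w, colour {w},
All = common H-neighbours z with (z,w) in Y), then class 1 (parents: images of the neighbours that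
are now embedded; All loses the slots and edges used in the first call). -/

lemma ext_val_map {α β : Type} (s : Finset α) (g : α → β) :
    s.val.map g = ∑ y ∈ s, ({g y} : Multiset β) := by
  induction s using Finset.induction_on with
  | empty => simp
  | insert a s ha ih =>
    rw [Finset.sum_insert ha, Finset.insert_val_of_notMem ha, Multiset.map_cons, ih,
      Multiset.singleton_add]

lemma ext_map_sum {α β I : Type} (g : α → β) (s : Finset I) (M : I → Multiset α) :
    (∑ i ∈ s, M i).map g = ∑ i ∈ s, (M i).map g :=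
  map_sum (Multiset.mapAddMonoidHom g) M s

lemma ext_bd_map {α β : Type} (g : α → β) (M : Multiset (Sym2 α)) :
    bd (M.map (Sym2.map g)) = (bd M).map g := by
  induction M using Multiset.induction_on with
  | empty => simp
  | cons e M ih =>
    induction e using Sym2.ind with
    | h a b => rw [Multiset.map_cons, Sym2.map_mk, bd_cons, bd_cons, ih, Multiset.map_cons,
        Multiset.map_cons]

lemma ext_bd_edges {Λ : Type} [Fintype Λ] (F : SimpleGraph Λ) (D : Finset Λ) :
    bd (univ.filter fun e : Sym2 Λ => e ∈ F.edgeSet ∧ ∀ a ∈ e, a ∈ D).val =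
      ∑ a ∈ D, (cnt fun b => F.Adj a b ∧ b ∈ D) • ({a} : Multiset Λ) := by
  ext v
  rw [count_bd_eq_cnt v (Finset.nodup _)
    (fun e he => F.not_isDiag_of_mem_edgeSet (Finset.mem_filter.mp he).2.1), Multiset.count_sum']
  simp only [Multiset.count_nsmul, Multiset.count_singleton, mul_ite, mul_one, mul_zero,
    Finset.sum_ite_eq]
  split_ifs with hv
  · congr 1
    ext u
    simp [hv]
  · rw [cnt_def, Finset.card_eq_zero, Finset.filter_eq_empty_iff]
    intro u _
    simp [hv]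

lemma ext_edges_union {Λ : Type} [Fintype Λ] (F : SimpleGraph Λ) {D N : Finset Λ}
    (h : Disjoint D N) :
    (univ.filter fun e : Sym2 Λ => e ∈ F.edgeSet ∧ ∀ a ∈ e, a ∈ D ∪ N).val =
      (univ.filter fun e : Sym2 Λ => e ∈ F.edgeSet ∧ ∀ a ∈ e, a ∈ D).val +
      (univ.filter fun e : Sym2 Λ => e ∈ F.edgeSet ∧ ∀ a ∈ e, a ∈ N).val +
      (univ.filter fun p : Λ × Λ => p.1 ∈ N ∧ F.Adj p.1 p.2 ∧ p.2 ∈ D).val.map
        fun p => s(p.1, p.2) := by
  have hd : ∀ {x}, x ∈ D → x ∈ N → False := fun h1 h2 => Finset.disjoint_left.mp h h1 h2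
  refine (Multiset.Nodup.ext (Finset.nodup _) ?_).mpr fun e => ?_
  · rw [Multiset.nodup_add, Multiset.nodup_add]
    refine ⟨⟨Finset.nodup _, Finset.nodup _, ?_⟩, ?_, ?_⟩
    · rw [Multiset.disjoint_left]
      intro e h1 h2
      induction e using Sym2.ind with
      | h a b =>
        exact hd ((Finset.mem_filter.mp h1).2.2 a (by simp))
          ((Finset.mem_filter.mp h2).2.2 a (by simp))
    · refine Multiset.Nodup.map_on (fun p hp q hq hpq => ?_) (Finset.nodup _)
      have hp' := (Finset.mem_filter.mp hp).2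
      have hq' := (Finset.mem_filter.mp hq).2
      rcases Sym2.eq_iff.mp hpq with ⟨h1, h2⟩ | ⟨h1, h2⟩
      · exact Prod.ext h1 h2
      · exact (hd hq'.2.2 (h1 ▸ hp'.1)).elim
    · rw [Multiset.disjoint_left]
      intro e h1 h2
      obtain ⟨p, hp, rfl⟩ := Multiset.mem_map.mp h2
      have hp' := (Finset.mem_filter.mp hp).2
      rcases Multiset.mem_add.mp h1 with h1 | h1
      · exact hd ((Finset.mem_filter.mp h1).2.2 p.1 (by simp)) hp'.1
      · exact hd hp'.2.2 ((Finset.mem_filter.mp h1).2.2 p.2 (by simp))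
  · induction e using Sym2.ind with
    | h a b =>
      simp only [Finset.mem_val, Finset.mem_filter, Finset.mem_univ, true_and,
        SimpleGraph.mem_edgeSet, Sym2.mem_iff, forall_eq_or_imp, forall_eq, Finset.mem_union,
        Multiset.mem_add, Multiset.mem_map, Sym2.eq_iff]
      constructor
      · rintro ⟨hab, ha | ha, hb | hb⟩
        · exact Or.inl (Or.inl ⟨hab, ha, hb⟩)
        · exact Or.inr ⟨(b, a), ⟨hb, hab.symm, ha⟩, Or.inr ⟨rfl, rfl⟩⟩
        · exact Or.inr ⟨(a, b), ⟨ha, hab, hb⟩, Or.inl ⟨rfl, rfl⟩⟩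
        · exact Or.inl (Or.inr ⟨hab, ha, hb⟩)
      · rintro ((⟨hab, ha, hb⟩ | ⟨hab, ha, hb⟩) | ⟨p, ⟨h1, h2, h3⟩, ⟨rfl, rfl⟩ | ⟨rfl, rfl⟩⟩)
        · exact ⟨hab, Or.inl ha, Or.inl hb⟩
        · exact ⟨hab, Or.inr ha, Or.inr hb⟩
        · exact ⟨h2, Or.inr h1, Or.inl h3⟩
        · exact ⟨h2.symm, Or.inl h3, Or.inr h1⟩

variable {V W Λ : Type} [Fintype W] [Fintype Λ]

omit [Fintype Λ] in
lemma slotsOf_congr {dom : W → Finset Λ} {f g : W → Λ → V} (h : ∀ w, ∀ a ∈ dom w, f w a = g w a) :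
    slotsOf dom f = slotsOf dom g := by
  unfold slotsOf
  refine Finset.sum_congr rfl fun w _ => Multiset.map_congr rfl fun a ha => ?_
  rw [h w a ha]

lemma edgesOf_congr (F : SimpleGraph Λ) {dom : W → Finset Λ} {f g : W → Λ → V}
    (h : ∀ w, ∀ a ∈ dom w, f w a = g w a) : edgesOf F dom f = edgesOf F dom g := by
  unfold edgesOf
  refine Finset.sum_congr rfl fun w _ => Multiset.map_congr rfl fun e he => ?_
  have he' := (Finset.mem_filter.mp he).2.2
  exact Sym2.map_congr fun a ha => h w a (he' a ha)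

lemma outOf_congr (F : SimpleGraph Λ) {dom : W → Finset Λ} (tgt : W → Finset Λ) {f g : W → Λ → V}
    (h : ∀ w, ∀ a ∈ dom w, f w a = g w a) : outOf F dom tgt f = outOf F dom tgt g := by
  unfold outOf
  refine Finset.sum_congr rfl fun w _ => Finset.sum_congr rfl fun a ha => ?_
  rw [h w a ha]

omit [Fintype Λ] in
lemma slotsOf_union {dom dom' : W → Finset Λ} (f : W → Λ → V)
    (h : ∀ w, Disjoint (dom w) (dom' w)) :
    slotsOf (fun w => dom w ∪ dom' w) f = slotsOf dom f + slotsOf dom' f := by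
  unfold slotsOf
  rw [← Finset.sum_add_distrib]
  refine Finset.sum_congr rfl fun w _ => ?_
  show (dom w ∪ dom' w).val.map _ = _
  rw [← Multiset.map_add, ← Finset.disjUnion_eq_union _ _ (h w)]
  rfl

lemma edgesOf_union (F : SimpleGraph Λ) {dom dom' : W → Finset Λ} (f : W → Λ → V)
    (h : ∀ w, Disjoint (dom w) (dom' w)) (hn : ∀ w, ∀ a ∈ dom w, ∀ b ∈ dom' w, ¬ F.Adj a b) :
    edgesOf F (fun w => dom w ∪ dom' w) f = edgesOf F dom f + edgesOf F dom' f := by
  unfold edgesOf
  rw [← Finset.sum_add_distrib]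
  refine Finset.sum_congr rfl fun w _ => ?_
  have h0 : (univ.filter fun p : Λ × Λ => p.1 ∈ dom' w ∧ F.Adj p.1 p.2 ∧ p.2 ∈ dom w) = ∅ :=
    Finset.filter_eq_empty_iff.mpr fun p _ hp => hn w _ hp.2.2 _ hp.1 hp.2.1.symm
  rw [ext_edges_union F (h w), h0, ← Multiset.map_add]
  simp

lemma outOf_union_le (F : SimpleGraph Λ) (dom dom' tgt : W → Finset Λ) (f : W → Λ → V) :
    outOf F (fun w => dom w ∪ dom' w) tgt f ≤ outOf F dom tgt f + outOf F dom' tgt f := by
  unfold outOf
  rw [← Finset.sum_add_distrib]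
  refine Finset.sum_le_sum fun w _ => ?_
  refine le_trans (Multiset.le_add_right _ _) ((Finset.sum_union_inter).le.trans ?_)
  refine add_le_add (Finset.sum_le_sum fun a _ => ?_) (Finset.sum_le_sum fun a _ => ?_)
  · exact nsmul_le_nsmul_left zero_le (cnt_mono fun b hb =>
      ⟨hb.1, hb.2.1, fun h => hb.2.2 (Finset.mem_union_left _ h)⟩)
  · exact nsmul_le_nsmul_left zero_le (cnt_mono fun b hb =>
      ⟨hb.1, hb.2.1, fun h => hb.2.2 (Finset.mem_union_right _ h)⟩)

lemma outOf_mono (F : SimpleGraph Λ) (dom : W → Finset Λ) {tgt tgt' : W → Finset Λ}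
    (f : W → Λ → V) (h : ∀ w, tgt w ⊆ tgt' w) : outOf F dom tgt f ≤ outOf F dom tgt' f := by
  unfold outOf
  exact Finset.sum_le_sum fun w _ => Finset.sum_le_sum fun a _ =>
    nsmul_le_nsmul_left zero_le (cnt_mono fun b hb => ⟨hb.1, h w hb.2.1, hb.2.2⟩)

lemma outOf_split (F : SimpleGraph Λ) (dom tgt : W → Finset Λ) (f : W → Λ → V) :
    outOf F dom (fun _ => univ) f = outOf F dom tgt f + outOf F dom (fun w => univ \ tgt w) f := by
  unfold outOf
  rw [← Finset.sum_add_distrib]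
  refine Finset.sum_congr rfl fun w _ => ?_
  rw [← Finset.sum_add_distrib]
  refine Finset.sum_congr rfl fun a _ => ?_
  rw [← add_nsmul]
  congr 1
  rw [cnt_eq_sum, cnt_eq_sum, cnt_eq_sum, ← Finset.sum_add_distrib]
  refine Finset.sum_congr rfl fun b _ => ?_
  by_cases h1 : F.Adj a b <;> by_cases h2 : b ∈ tgt w <;> by_cases h3 : b ∈ dom w <;>
    simp [h1, h2, h3]

omit [Fintype Λ] in
lemma slotsOf_count_snd (dom : W → Finset Λ) (f : W → Λ → V) (w : W) :
    ((slotsOf dom f).map Prod.snd).count w = (dom w).card := by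
  unfold slotsOf
  rw [ext_map_sum, Multiset.count_sum', Finset.sum_eq_single w]
  · simp
  · intro w' _ hw'
    rw [Multiset.count_eq_zero]
    intro hm
    obtain ⟨p, hp, hp2⟩ := Multiset.mem_map.mp hm
    obtain ⟨x, _, rfl⟩ := Multiset.mem_map.mp hp
    exact hw' hp2
  · simp

/-- Double counting of the ends of the edges of `F` at embedded vertices. -/
lemma bd_edgesOf (F : SimpleGraph Λ) (h2 : ∀ a, (cnt fun b => F.Adj a b) = 2)
    (dom : W → Finset Λ) (f : W → Λ → V) :
    bd (edgesOf F dom f) + outOf F dom (fun _ => univ) f = 2 • (slotsOf dom f).map Prod.fst := by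
  unfold edgesOf outOf slotsOf
  rw [bd_sum, ← Finset.sum_add_distrib, ext_map_sum, Finset.smul_sum]
  refine Finset.sum_congr rfl fun w _ => ?_
  rw [ext_bd_map, ext_bd_edges, ext_map_sum, ← Finset.sum_add_distrib, Multiset.map_map,
    ext_val_map, Finset.smul_sum]
  refine Finset.sum_congr rfl fun a _ => ?_
  rw [Multiset.map_nsmul, Multiset.map_singleton, ← add_nsmul]
  congr 1
  rw [← h2 a, cnt_eq_sum, cnt_eq_sum, cnt_eq_sum, ← Finset.sum_add_distrib]
  refine Finset.sum_congr rfl fun b _ => ?_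
  by_cases h1 : F.Adj a b <;> by_cases h3 : b ∈ dom w <;> simp [h1, h3]

lemma outOf_le_slots (F : SimpleGraph Λ) (h2 : ∀ a, (cnt fun b => F.Adj a b) = 2)
    (dom tgt : W → Finset Λ) (f : W → Λ → V) :
    outOf F dom tgt f ≤ 2 • (slotsOf dom f).map Prod.fst := by
  rw [← bd_edgesOf F h2]
  exact (outOf_mono F dom f fun _ => Finset.subset_univ _).trans (Multiset.le_add_left _ _)

lemma ext_bd_le (F : SimpleGraph Λ) (h2 : ∀ a, (cnt fun b => F.Adj a b) = 2)
    {dom tgt : W → Finset Λ} {f f' : W → Λ → V} {B : Multiset (Sym2 V)} {S' : Multiset (V × W)}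
    (hsub : ∀ w, dom w ⊆ tgt w) (hf : ∀ w, ∀ x ∈ dom w, f' w x = f w x)
    (hE : edgesOf F tgt f' = edgesOf F dom f + B) (hS : slotsOf tgt f' = slotsOf dom f + S') :
    bd B ≤ outOf F dom tgt f + 2 • S'.map Prod.fst := by
  have h1 := bd_edgesOf F h2 tgt f'
  have h3 := bd_edgesOf F h2 dom f
  rw [hE, hS, bd_add, Multiset.map_add, smul_add, ← h3, outOf_split F dom tgt f] at h1
  have h4 : outOf F dom (fun w => univ \ tgt w) f ≤ outOf F tgt (fun _ => univ) f' := by
    rw [← outOf_congr F _ hf]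
    unfold outOf
    refine Finset.sum_le_sum fun w _ => ?_
    refine le_trans (Finset.sum_le_sum fun a _ => nsmul_le_nsmul_left zero_le
      (cnt_mono fun b hb => ?_)) (Finset.sum_le_sum_of_subset (hsub w))
    exact ⟨hb.1, Finset.mem_univ _, (Finset.mem_sdiff.mp hb.2.1).2⟩
  obtain ⟨K, hK⟩ := Multiset.le_iff_exists_add.mp h4
  rw [hK] at h1
  have h5 : bd B + K = outOf F dom tgt f + 2 • S'.map Prod.fst := by
    have h6 : (bd (edgesOf F dom f) + outOf F dom (fun w => univ \ tgt w) f) + (bd B + K) =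
        (bd (edgesOf F dom f) + outOf F dom (fun w => univ \ tgt w) f) +
          (outOf F dom tgt f + 2 • S'.map Prod.fst) := by
      calc _ = bd (edgesOf F dom f) + bd B + (outOf F dom (fun w => univ \ tgt w) f + K) := by abel
        _ = _ := h1
        _ = _ := by abel
    exact add_left_cancel h6
  rw [← h5]
  exact Multiset.le_add_right _ _

lemma ext_pairs_sum {β : Type} (F : SimpleGraph Λ) (D N : Finset Λ) (g : Λ → Λ → β) :
    (univ.filter fun p : Λ × Λ => p.1 ∈ N ∧ F.Adj p.1 p.2 ∧ p.2 ∈ D).val.map (fun p => g p.1 p.2) =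
      ∑ x ∈ N, (univ.filter fun y => F.Adj x y ∧ y ∈ D).val.map (g x) := by
  rw [ext_val_map, Finset.sum_filter, Fintype.sum_prod_type]
  simp only [ext_val_map, Finset.sum_filter]
  rw [← Finset.sum_subset (Finset.subset_univ N) (fun x _ hx => by simp [hx])]
  refine Finset.sum_congr rfl fun x hx => ?_
  simp [hx]

lemma ext_outOf_eq (F : SimpleGraph Λ) {dom N : W → Finset Λ} (f : W → Λ → V)
    (h : ∀ w, Disjoint (dom w) (N w)) :
    outOf F dom N f =
      ∑ w, ∑ x ∈ N w, (univ.filter fun y => F.Adj x y ∧ y ∈ dom w).val.map (f w) := by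
  unfold outOf
  refine Finset.sum_congr rfl fun w _ => ?_
  have e1 : ∀ a, (cnt fun b => F.Adj a b ∧ b ∈ N w ∧ b ∉ dom w) • ({f w a} : Multiset V) =
      ∑ b ∈ N w, if F.Adj b a then ({f w a} : Multiset V) else 0 := by
    intro a
    rw [← Finset.sum_filter, Finset.sum_const, cnt_def]
    congr 2
    ext b
    simp only [Finset.mem_filter, Finset.mem_univ, true_and]
    exact ⟨fun hb => ⟨hb.2.1, hb.1.symm⟩,
      fun hb => ⟨hb.2.symm, hb.1, Finset.disjoint_right.mp (h w) hb.1⟩⟩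
  simp only [e1]
  rw [Finset.sum_comm]
  refine Finset.sum_congr rfl fun x _ => ?_
  rw [ext_val_map, ← Finset.sum_filter]
  refine Finset.sum_congr ?_ fun _ _ => rfl
  ext y
  simp [and_comm]

/-- Extension to an independent set of new vertices. -/
theorem extend_step (a : ℝ) (ha : 0 < a) : ∃ b : ℝ, 0 < b ∧ ∀ c : ℝ, 0 < c → ∃ t : ℝ, 0 < t ∧
    ∃ n0 : ℕ,
    ∀ (V W Λ : Type) [Fintype V] [Fintype W] [Fintype Λ] (F : SimpleGraph Λ) (H : SimpleGraph V)
      (Y : Finset (V × W)) (dom N : W → Finset Λ) (f : W → Λ → V),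
      n0 ≤ Fintype.card V → (∀ x, (cnt fun y => F.Adj x y) = 2) →
      (∀ w, Disjoint (dom w) (N w)) → (∀ w, ∀ x ∈ N w, ∀ y ∈ N w, ¬ F.Adj x y) →
      (slotsOf dom f).Nodup →
      (∀ (w : W) (S : Finset V), S.card ≤ 2 →
        a * Fintype.card V ≤ (cnt fun z => (z, w) ∈ Y ∧ ∀ q ∈ S, H.Adj z q : ℕ)) →
      (∀ v, (((outOf F dom N f).count v : ℕ) : ℝ) ≤ b * Fintype.card V) →
      (∀ w, ((N w).card : ℝ) ≤ b * Fintype.card V) →
      (∑ w, ((N w).card : ℝ) ≤ t * (Fintype.card V : ℝ) ^ 2) →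
      ∃ (f' : W → Λ → V) (B : Multiset (Sym2 V)),
        (∀ w, ∀ x ∈ dom w, f' w x = f w x) ∧
        edgesOf F (fun w => dom w ∪ N w) f' = edgesOf F dom f + B ∧
        B.Nodup ∧ (∀ e ∈ B, e ∈ H.edgeSet) ∧ slotsOf N f' ≤ Y.val ∧
        (∀ v, ((((slotsOf N f').map Prod.fst).count v : ℕ) : ℝ) ≤ c * Fintype.card V) := by
  obtain ⟨b, hb, hP⟩ := pickV_raw a ha
  refine ⟨b, hb, fun c hc => ?_⟩
  obtain ⟨t, ht, hP⟩ := hP c hc
  refine ⟨t, ht, ⌈1 / t⌉₊, ?_⟩
  intro V W Λ _ _ _ F H Y dom N f hn h2 hdisj hind hnd hden hout hN hsum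
  have h1 : 1 ≤ t * Fintype.card V := by
    have h1 : 1 / t ≤ Fintype.card V := Nat.ceil_le.mp hn
    rw [div_le_iff₀ ht] at h1
    linarith
  let nb : W → Λ → Finset Λ := fun w x => univ.filter fun y => F.Adj x y ∧ y ∈ dom w
  have hinj : ∀ w, Set.InjOn (f w) (dom w) := by
    intro w x hx y hy hxy
    have h3 : ((dom w).val.map fun a => (f w a, w)).Nodup :=
      Multiset.nodup_of_le (Finset.single_le_sum
        (f := fun w => (dom w).val.map fun a => (f w a, w)) (fun _ _ => zero_le)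
        (Finset.mem_univ w)) hnd
    exact Multiset.inj_on_of_nodup_map h3 x hx y hy (by rw [hxy])
  have hval : ∀ w x, ((nb w x).image (f w)).val = (nb w x).val.map (f w) := fun w x =>
    Finset.image_val_of_injOn ((hinj w).mono fun y hy => (Finset.mem_filter.mp hy).2.2)
  have hcard : ∀ w x, ((nb w x).image (f w)).card ≤ 2 := by
    intro w x
    refine Finset.card_image_le.trans ?_
    rw [← h2 x, cnt_def]
    exact Finset.card_le_card fun y hy =>
      Finset.mem_filter.mpr ⟨Finset.mem_univ _, (Finset.mem_filter.mp hy).2.1⟩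
  have hsig : ∀ {M : Type} [AddCommMonoid M] (g : W → Λ → M),
      ∑ i : (w : W) × {x // x ∈ N w}, g i.1 i.2.1 = ∑ w, ∑ x ∈ N w, g w x := by
    intro M _ g
    rw [Fintype.sum_sigma]
    exact Finset.sum_congr rfl fun w _ => Finset.sum_coe_sort (N w) (g w)
  obtain ⟨z, hz, hzE, hzS, hzc⟩ := hP V W ((w : W) × {x // x ∈ N w})
    (fun i => (nb i.1 i.2.1).image (f i.1)) (fun i => {i.1})
    (fun i => univ.filter fun z => (z, i.1) ∈ Y ∧ ∀ q ∈ (nb i.1 i.2.1).image (f i.1), H.Adj z q)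
    (fun _ => 0) (fun i => (hcard _ _).trans (by norm_num)) (fun i => by simp)
    (fun i => by
      have := hden i.1 _ (hcard i.1 i.2.1)
      rwa [cnt_def] at this)
    (fun v => by
      refine le_trans (Nat.cast_le.mpr ?_) (hout v)
      rw [ext_outOf_eq F f hdisj, ← hsig fun w x => (nb w x).val.map (f w), Multiset.count_sum',
        cnt_eq_sum]
      refine Finset.sum_le_sum fun i _ => ?_
      split_ifs with hv
      · rw [← hval]
        exact Multiset.one_le_count_iff_mem.mpr hv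
      · exact Nat.zero_le _)
    (fun w => by
      refine le_trans (Nat.cast_le.mpr ?_) (hN w)
      have h3 : (N w).card = cnt fun x => x ∈ N w := by rw [cnt_def]; simp
      rw [h3]
      refine cnt_le_of_injOn (fun i => i.2.1) (fun i hi => ?_) (fun i i' hi hi' h => ?_)
      · rw [Finset.mem_singleton.mp hi]
        exact i.2.2
      · obtain ⟨w1, x1, hx1⟩ := i
        obtain ⟨w2, x2, hx2⟩ := i'
        have e1 : w = w1 := Finset.mem_singleton.mp hi
        have e2 : w = w2 := Finset.mem_singleton.mp hi'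
        subst e1 e2
        have e3 : x1 = x2 := h
        subst e3
        rfl)
    (fun _ => by simpa using h1)
    (by
      refine le_trans (le_of_eq ?_) hsum
      rw [hsig fun _ _ => ((0 : ℕ) : ℝ) + 1]
      simp)
  let f' : W → Λ → V := fun w x => if h : x ∈ N w then z ⟨w, x, h⟩ else f w x
  have hf' : ∀ i, z i = f' i.1 i.2.1 := by
    rintro ⟨w, x, h⟩
    simp only [f', dif_pos h]
  have hfd : ∀ w, ∀ x ∈ dom w, f' w x = f w x := fun w x hx =>
    dif_neg (Finset.disjoint_left.mp (hdisj w) hx)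
  have hS : slotsOf N f' = ∑ i : (w : W) × {x // x ∈ N w}, ({(z i, i.1)} : Multiset (V × W)) := by
    simp only [hf']
    rw [hsig fun w x => ({(f' w x, w)} : Multiset (V × W))]
    unfold slotsOf
    simp only [ext_val_map]
  refine ⟨f', _, hfd, ?_, hzE, ?_, ?_, fun v => ?_⟩
  · rw [← edgesOf_congr F hfd]
    simp only [hf', hval]
    rw [hsig fun w x => ((nb w x).val.map (f w)).map fun p => s(f' w x, p)]
    unfold edgesOf
    rw [← Finset.sum_add_distrib]
    refine Finset.sum_congr rfl fun w _ => ?_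
    have h0 : (univ.filter fun e : Sym2 Λ => e ∈ F.edgeSet ∧ ∀ a ∈ e, a ∈ N w) = ∅ := by
      refine Finset.filter_eq_empty_iff.mpr fun e _ he => ?_
      induction e using Sym2.ind with
      | h x y => exact hind w x (he.2 x (by simp)) y (he.2 y (by simp)) he.1
    rw [ext_edges_union F (hdisj w), h0, Multiset.map_add, Multiset.map_add, Multiset.map_map,
      Finset.empty_val, Multiset.map_zero, add_zero]
    congr 1
    refine (ext_pairs_sum F (dom w) (N w) fun x y => s(f' w x, f' w y)).trans ?_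
    refine Finset.sum_congr rfl fun x _ => ?_
    rw [Multiset.map_map]
    refine Multiset.map_congr rfl fun y hy => ?_
    simp only [Function.comp]
    rw [hfd w y (Finset.mem_filter.mp hy).2.2]
  · intro e he
    obtain ⟨i, -, hi⟩ := Multiset.mem_sum.mp he
    obtain ⟨q, hq, rfl⟩ := Multiset.mem_map.mp hi
    exact (Finset.mem_filter.mp (hz i)).2.2 q hq
  · rw [hS]
    refine (Multiset.le_iff_subset (by simpa using hzS)).mpr fun s hs => ?_
    obtain ⟨i, -, hi⟩ := Multiset.mem_sum.mp hs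
    rw [Multiset.mem_singleton.mp hi]
    exact (Finset.mem_filter.mp (hz i)).2.1
  · refine le_trans (Nat.cast_le.mpr ?_) (hzc v)
    refine le_trans (le_of_eq ?_) (cnt_le_wsum _ fun _ => 0)
    rw [hS, ext_map_sum, Multiset.count_sum', cnt_eq_sum]
    refine Finset.sum_congr rfl fun i _ => ?_
    rw [Multiset.map_singleton, Multiset.count_singleton]
    simp only [eq_comm]

/-- Greedy extension of partial embeddings from `dom` to `tgt`, with edges of `H`, slots of `Y`. -/
theorem extend (a : ℝ) (ha : 0 < a) : ∃ b : ℝ, 0 < b ∧ ∀ c : ℝ, 0 < c → ∃ t : ℝ, 0 < t ∧ ∃ n0 : ℕ,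
    ∀ (V W Λ : Type) [Fintype V] [Fintype W] [Fintype Λ] (F : SimpleGraph Λ) (H : SimpleGraph V)
      (Y : Finset (V × W)) (dom tgt : W → Finset Λ) (f : W → Λ → V),
      n0 ≤ Fintype.card V → (∀ x, (cnt fun y => F.Adj x y) = 2) → F.Colorable 2 →
      (∀ w, dom w ⊆ tgt w) → (slotsOf dom f + Y.val).Nodup →
      (∀ (w : W) (S : Finset V), S.card ≤ 2 →
        a * Fintype.card V ≤ (cnt fun z => (z, w) ∈ Y ∧ ∀ q ∈ S, H.Adj z q : ℕ)) →
      (∀ v, (((outOf F dom tgt f).count v : ℕ) : ℝ) ≤ b * Fintype.card V) →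
      (∀ w, ((tgt w \ dom w).card : ℝ) ≤ b * Fintype.card V) →
      (∑ w, ((tgt w \ dom w).card : ℝ) ≤ t * (Fintype.card V : ℝ) ^ 2) →
      ∃ (f' : W → Λ → V) (B : Multiset (Sym2 V)) (S' : Multiset (V × W)),
        (∀ w, ∀ x ∈ dom w, f' w x = f w x) ∧ edgesOf F tgt f' = edgesOf F dom f + B ∧
        slotsOf tgt f' = slotsOf dom f + S' ∧ B.Nodup ∧ (∀ e ∈ B, e ∈ H.edgeSet) ∧ S' ≤ Y.val ∧
        (∀ v, (((S'.map Prod.fst).count v : ℕ) : ℝ) ≤ c * Fintype.card V) ∧
        (∀ v, (bd B).count v ≤ (outOf F dom tgt f).count v + 2 * (S'.map Prod.fst).count v) := by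
  obtain ⟨b₀, hb₀, hstep⟩ := extend_step (a / 2) (by positivity)
  refine ⟨min (b₀ / 2) (a / 12), lt_min (by positivity) (by positivity), fun c hc => ?_⟩
  obtain ⟨t, ht, n0, hstep⟩ := hstep (min (c / 2) (min (b₀ / 4) (a / 16)))
    (lt_min (by positivity) (lt_min (by positivity) (by positivity)))
  refine ⟨t, ht, n0, ?_⟩
  intro V W Λ _ _ _ F H Y dom tgt f hn h2 hcol hsub hnd hden hout hN hsum
  have m1 : min (b₀ / 2) (a / 12) ≤ b₀ / 2 := min_le_left _ _
  have m2 : min (b₀ / 2) (a / 12) ≤ a / 12 := min_le_right _ _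
  have m3 : min (c / 2) (min (b₀ / 4) (a / 16)) ≤ c / 2 := min_le_left _ _
  have m4 : min (c / 2) (min (b₀ / 4) (a / 16)) ≤ b₀ / 4 :=
    (min_le_right _ _).trans (min_le_left _ _)
  have m5 : min (c / 2) (min (b₀ / 4) (a / 16)) ≤ a / 16 :=
    (min_le_right _ _).trans (min_le_right _ _)
  have m6 : 0 < min (b₀ / 2) (a / 12) := lt_min (by positivity) (by positivity)
  have m7 : 0 < min (c / 2) (min (b₀ / 4) (a / 16)) :=
    lt_min (by positivity) (lt_min (by positivity) (by positivity))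
  set b := min (b₀ / 2) (a / 12)
  set c₁ := min (c / 2) (min (b₀ / 4) (a / 16))
  set n : ℝ := (Fintype.card V : ℝ) with hndef
  have hn0 : 0 ≤ n := Nat.cast_nonneg _
  have k1 : b * n ≤ b₀ / 2 * n := by gcongr
  have k2 : b * n ≤ a / 12 * n := by gcongr
  have k3 : c₁ * n ≤ c / 2 * n := by gcongr
  have k4 : c₁ * n ≤ b₀ / 4 * n := by gcongr
  have k5 : c₁ * n ≤ a / 16 * n := by gcongr
  have k6 : 0 ≤ b₀ * n := by positivity
  have k7 : 0 ≤ a * n := by positivity
  obtain ⟨C⟩ := hcol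
  let N₁ : W → Finset Λ := fun w => (tgt w \ dom w).filter fun x => C x = 0
  let N₂ : W → Finset Λ := fun w => (tgt w \ dom w).filter fun x => ¬ C x = 0
  have hN₁ : ∀ w, N₁ w ⊆ tgt w \ dom w := fun w => Finset.filter_subset _ _
  have hN₂ : ∀ w, N₂ w ⊆ tgt w \ dom w := fun w => Finset.filter_subset _ _
  have hd₁ : ∀ w, Disjoint (dom w) (N₁ w) := fun w =>
    Finset.disjoint_sdiff.mono_right (hN₁ w)
  have hd₂ : ∀ w, Disjoint (dom w ∪ N₁ w) (N₂ w) := fun w =>
    Finset.disjoint_union_left.mpr ⟨Finset.disjoint_sdiff.mono_right (hN₂ w),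
      Finset.disjoint_filter_filter_not _ _ _⟩
  have htgt : (fun w => (dom w ∪ N₁ w) ∪ N₂ w) = tgt := by
    funext w
    rw [Finset.union_assoc, Finset.filter_union_filter_not_eq, Finset.union_sdiff_of_subset (hsub w)]
  have hc₁ : ∀ w, ((N₁ w).card : ℝ) ≤ (tgt w \ dom w).card := fun w =>
    Nat.cast_le.mpr (Finset.card_le_card (hN₁ w))
  have hc₂ : ∀ w, ((N₂ w).card : ℝ) ≤ (tgt w \ dom w).card := fun w =>
    Nat.cast_le.mpr (Finset.card_le_card (hN₂ w))
  have ho₁ : outOf F dom N₁ f ≤ outOf F dom tgt f :=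
    outOf_mono F dom f fun w => (hN₁ w).trans Finset.sdiff_subset
  have ho₂ : outOf F dom N₂ f ≤ outOf F dom tgt f :=
    outOf_mono F dom f fun w => (hN₂ w).trans Finset.sdiff_subset
  obtain ⟨f₁, B₁, hf₁, hE₁, hB₁, hH₁, hY₁, hcnt₁⟩ := hstep V W Λ F H Y dom N₁ f hn h2 hd₁
    (fun w x hx y hy hxy => C.valid hxy
      ((Finset.mem_filter.mp hx).2.trans (Finset.mem_filter.mp hy).2.symm))
    (Multiset.nodup_of_le (Multiset.le_add_right _ _) hnd)
    (fun w S hS => by have := hden w S hS; linarith)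
    (fun v => by
      have h3 := (Nat.cast_le (α := ℝ)).mpr (Multiset.count_le_of_le v ho₁)
      have := hout v
      linarith)
    (fun w => by have := hN w; have := hc₁ w; linarith)
    ((Finset.sum_le_sum fun w _ => hc₁ w).trans hsum)
  have hS₁ : slotsOf (fun w => dom w ∪ N₁ w) f₁ = slotsOf dom f + slotsOf N₁ f₁ := by
    rw [slotsOf_union f₁ hd₁, slotsOf_congr hf₁]
  have hbd₁ : ∀ v, (((bd B₁).count v : ℕ) : ℝ) ≤ b * n + 2 * (c₁ * n) := by
    intro v
    have h3 := ext_bd_le F h2 (fun w => Finset.subset_union_left) hf₁ hE₁ hS₁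
    have h4 : outOf F dom (fun w => dom w ∪ N₁ w) f ≤ outOf F dom tgt f :=
      outOf_mono F dom f fun w =>
        Finset.union_subset (hsub w) ((hN₁ w).trans Finset.sdiff_subset)
    have h5 := Multiset.count_le_of_le v (h3.trans (add_le_add_left h4 _))
    rw [Multiset.count_add, Multiset.count_nsmul] at h5
    have h6 := (Nat.cast_le (α := ℝ)).mpr h5
    push_cast at h6
    have := hout v
    have := hcnt₁ v
    linarith
  obtain ⟨f₂, B₂, hf₂, hE₂, hB₂, hH₂, hY₂, hcnt₂⟩ := hstep V W Λ F (del H B₁)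
    (Y.filter fun s => s ∉ slotsOf N₁ f₁) (fun w => dom w ∪ N₁ w) N₂ f₁ hn h2 hd₂
    (fun w x hx y hy hxy => C.valid hxy (by
      have h3 := (Finset.mem_filter.mp hx).2
      have h4 := (Finset.mem_filter.mp hy).2
      omega))
    (by
      rw [hS₁]
      exact Multiset.nodup_of_le (add_le_add_right hY₁ _) hnd)
    (fun w S hS => by
      have h3 := hden w S hS
      have h4 : (cnt fun z => (z, w) ∈ Y ∧ ∀ q ∈ S, H.Adj z q) ≤
          (cnt fun z => (z, w) ∈ (Y.filter fun s => s ∉ slotsOf N₁ f₁) ∧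
            ∀ q ∈ S, (del H B₁).Adj z q) + ((cnt fun z => (z, w) ∈ slotsOf N₁ f₁) +
            ∑ q ∈ S, cnt fun z => s(q, z) ∈ B₁) := by
        simp only [cnt_def]
        refine le_trans ?_ (add_le_add_right (add_le_add_right Finset.card_biUnion_le _) _)
        refine le_trans ?_ (add_le_add_right (Finset.card_union_le _ _) _)
        refine le_trans (Finset.card_le_card ?_) (Finset.card_union_le _ _)
        intro z hz
        simp only [Finset.mem_filter, Finset.mem_univ, true_and, Finset.mem_union,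
          Finset.mem_biUnion] at hz ⊢
        by_cases hc1 : (z, w) ∈ slotsOf N₁ f₁
        · exact Or.inr (Or.inl hc1)
        by_cases hc2 : ∃ q ∈ S, s(q, z) ∈ B₁
        · exact Or.inr (Or.inr hc2)
        refine Or.inl ⟨⟨hz.1, hc1⟩, fun q hq => del_adj.mpr ⟨hz.2 q hq, fun hm => hc2 ⟨q, hq, ?_⟩⟩⟩
        rwa [Sym2.eq_swap]
      have h5 : (cnt fun z => (z, w) ∈ slotsOf N₁ f₁) = (N₁ w).card := by
        rw [← count_snd_eq_cnt (Multiset.nodup_of_le hY₁ Y.nodup), slotsOf_count_snd]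
      have h6 : ((∑ q ∈ S, cnt fun z => s(q, z) ∈ B₁ : ℕ) : ℝ) ≤ 2 * (b * n + 2 * (c₁ * n)) := by
        push_cast
        calc ∑ q ∈ S, ((cnt fun z => s(q, z) ∈ B₁ : ℕ) : ℝ) ≤ ∑ _q ∈ S, (b * n + 2 * (c₁ * n)) :=
              Finset.sum_le_sum fun q _ => (Nat.cast_le.mpr (cnt_edge_le q B₁)).trans (hbd₁ q)
          _ = S.card * (b * n + 2 * (c₁ * n)) := by simp only [Finset.sum_const, nsmul_eq_mul]
          _ ≤ 2 * (b * n + 2 * (c₁ * n)) :=
              mul_le_mul_of_nonneg_right (by exact_mod_cast hS)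
                (by positivity)
      rw [h5] at h4
      have h7 := (Nat.cast_le (α := ℝ)).mpr h4
      rw [Nat.cast_add, Nat.cast_add] at h7
      have := hN w
      have := hc₁ w
      linarith)
    (fun v => by
      have h3 := (outOf_union_le F dom N₁ N₂ f₁).trans (add_le_add
        ((outOf_congr F N₂ hf₁).le.trans ho₂) (outOf_le_slots F h2 N₁ N₂ f₁))
      have h5 := Multiset.count_le_of_le v h3
      rw [Multiset.count_add, Multiset.count_nsmul] at h5
      have h6 := (Nat.cast_le (α := ℝ)).mpr h5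
      push_cast at h6
      have := hout v
      have := hcnt₁ v
      linarith)
    (fun w => by have := hN w; have := hc₂ w; linarith)
    ((Finset.sum_le_sum fun w _ => hc₂ w).trans hsum)
  have hf : ∀ w, ∀ x ∈ dom w, f₂ w x = f w x := fun w x hx =>
    (hf₂ w x (Finset.mem_union_left _ hx)).trans (hf₁ w x hx)
  have hE : edgesOf F tgt f₂ = edgesOf F dom f + (B₁ + B₂) := by
    rw [← htgt, hE₂, hE₁, add_assoc]
  have hS : slotsOf tgt f₂ = slotsOf dom f + (slotsOf N₁ f₁ + slotsOf N₂ f₂) := by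
    rw [← htgt, slotsOf_union f₂ hd₂, slotsOf_congr hf₂, hS₁, add_assoc]
  refine ⟨f₂, B₁ + B₂, slotsOf N₁ f₁ + slotsOf N₂ f₂, hf, hE, hS, ?_, ?_, ?_, fun v => ?_,
    fun v => ?_⟩
  · refine Multiset.nodup_add.mpr ⟨hB₁, hB₂, Multiset.disjoint_left.mpr fun he1 he2 => ?_⟩
    exact (mem_del.mp (hH₂ _ he2)).2 he1
  · intro e he
    rcases Multiset.mem_add.mp he with he | he
    · exact hH₁ e he
    · exact (mem_del.mp (hH₂ e he)).1
  · have hn₁ := Multiset.nodup_of_le hY₁ Y.nodup
    have hn₂ := Multiset.nodup_of_le hY₂ (Finset.nodup _)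
    have hm₂ : ∀ s ∈ slotsOf N₂ f₂, s ∈ Y ∧ s ∉ slotsOf N₁ f₁ := fun s hs =>
      Finset.mem_filter.mp (Multiset.mem_of_le hY₂ hs)
    refine (Multiset.le_iff_subset (Multiset.nodup_add.mpr ⟨hn₁, hn₂,
      Multiset.disjoint_left.mpr fun hs1 hs2 => (hm₂ _ hs2).2 hs1⟩)).mpr fun s hs => ?_
    rcases Multiset.mem_add.mp hs with hs | hs
    · exact Multiset.mem_of_le hY₁ hs
    · exact (hm₂ s hs).1
  · rw [Multiset.map_add, Multiset.count_add, Nat.cast_add]
    have := hcnt₁ v
    have := hcnt₂ v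
    linarith
  · have h5 := Multiset.count_le_of_le v (ext_bd_le F h2 hsub hf hE hS)
    rwa [Multiset.count_add, Multiset.count_nsmul] at h5

end Pool.Agent.Lib.MP_34bdde_co
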