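import Mathlib
import Pool.Agent.Lib.MP_34bdde_co.Extend

set_option autoImplicit false

open Finset
open scoped Classical

noncomputable section

namespace Pool.Agent.Lib.MP_34bdde_co

/- PLAN pre: O has no repetition (frames) and at most M holes per colour: choose sn
injective on each colour. dom0 w = first and last vertices of the used sites, mapped to the frames;
slotsOf dom0 = O.bind frame, edgesOf dom0 = 0 (different sites are not adjacent; site 0 is not
adjacent to site 2 as F is bipartite, nor to site 3 for a double hole by NoC4). extend to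
dom0 + boundary vertices of Pre (at most 4 per colour, not site vertices by site_nb) with
c = γ/2, then to Pre \ innerSet with small c; H = G minus used edges, Y = unused slots.
The out-edges towards univ \ innerSet start at boundary vertices only.
out_inner, fill: the F-neighbours of an inner vertex are its two neighbours on the site. -/

variable {V W Λ : Type} [Fintype W] [Fintype Λ] {F : SimpleGraph Λ} {M K L : ℕ}

lemma pl_val_map {α β : Type} (s : Finset α) (φ : α → β) :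
    s.val.map φ = ∑ a ∈ s, ({φ a} : Multiset β) := by
  rw [← Finset.sum_multiset_singleton s, map_finsum]
  rfl

lemma pl_bind {α β : Type} {O : Multiset α} (h : O.Nodup) (ψ : α → Multiset β) :
    O.bind ψ = ∑ x ∈ O.toFinset, ψ x := by
  rw [Finset.sum, Multiset.toFinset_val, h.dedup]
  rfl

omit [Fintype W] in
lemma pl_site_ne (Ly : Layout F M K L) (m : Fin M) {i j : Fin 4} (h : i ≠ j) :
    Ly.site m i ≠ Ly.site m j := fun e => h (Ly.site_inj _ _ _ _ e).2

omit [Fintype W] in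
lemma pl_nbr (h2 : ∀ a, (cnt fun b => F.Adj a b) = 2) {b x y : Λ} (hx : F.Adj b x)
    (hy : F.Adj b y) (hxy : x ≠ y) (a : Λ) : F.Adj b a ↔ a = x ∨ a = y := by
  have h1 : ({x, y} : Finset Λ) = univ.filter fun a => F.Adj b a := by
    refine Finset.eq_of_subset_of_card_le (fun z hz => ?_) ?_
    · rcases Finset.mem_insert.mp hz with rfl | hz
      · simpa using hx
      · rw [Finset.mem_singleton.mp hz]
        simpa using hy
    · rw [← cnt_def, h2, Finset.card_pair hxy]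
  have h3 : a ∈ ({x, y} : Finset Λ) ↔ F.Adj b a := by rw [h1]; simp
  rw [← h3]
  simp

omit [Fintype W] in
lemma pl_nbr1 (Ly : Layout F M K L) (h2 : ∀ a, (cnt fun b => F.Adj a b) = 2) (m : Fin M) (a : Λ) :
    F.Adj (Ly.site m 1) a ↔ a = Ly.site m 0 ∨ a = Ly.site m 2 :=
  pl_nbr h2 (Ly.site_adj m).1.symm (Ly.site_adj m).2.1 (pl_site_ne Ly m (by decide)) a

omit [Fintype W] in
lemma pl_nbr2 (Ly : Layout F M K L) (h2 : ∀ a, (cnt fun b => F.Adj a b) = 2) (m : Fin M) (a : Λ) :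
    F.Adj (Ly.site m 2) a ↔ a = Ly.site m 1 ∨ a = Ly.site m 3 :=
  pl_nbr h2 (Ly.site_adj m).2.1.symm (Ly.site_adj m).2.2 (pl_site_ne Ly m (by decide)) a

omit [Fintype W] in
lemma pl_mem_inn (Ly : Layout F M K L) (h : Hole V W) (m : Fin M) (a : Λ) :
    a ∈ Ly.inn h m ↔ a = Ly.site m 1 ∨ (h.dbl = true ∧ a = Ly.site m 2) := by
  unfold Layout.inn
  split_ifs with hd <;> simp [hd]

omit [Fintype W] in
lemma pl_inn_site (Ly : Layout F M K L) (h : Hole V W) (m : Fin M) :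
    ∀ a ∈ Ly.inn h m, ∃ i, a = Ly.site m i := fun a ha => by
  rcases (pl_mem_inn Ly h m a).mp ha with h1 | h1
  · exact ⟨_, h1⟩
  · exact ⟨_, h1.2⟩

omit [Fintype W] in
lemma pl_mem_innerSet (Ly : Layout F M K L) (O : Multiset (Hole V W)) (sn : Hole V W → Fin M)
    (w : W) (a : Λ) : a ∈ Ly.innerSet O sn w ↔ ∃ h ∈ O, h.w = w ∧ a ∈ Ly.inn h (sn h) := by
  unfold Layout.innerSet
  simp only [Finset.mem_biUnion, Finset.mem_filter, Multiset.mem_toFinset, and_assoc]

omit [Fintype W] in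
lemma pl_site_mem_innerSet (Ly : Layout F M K L) {O : Multiset (Hole V W)}
    {sn : Hole V W → Fin M} (hinj : ∀ h ∈ O, ∀ h' ∈ O, h.w = h'.w → sn h = sn h' → h = h')
    {h : Hole V W} (hh : h ∈ O) (i : Fin 4) :
    Ly.site (sn h) i ∈ Ly.innerSet O sn h.w ↔ i = 1 ∨ (h.dbl = true ∧ i = 2) := by
  rw [pl_mem_innerSet]
  constructor
  · rintro ⟨h', hh', hw, ha⟩
    obtain ⟨j, hj⟩ := pl_inn_site Ly _ _ _ ha
    obtain rfl := hinj h' hh' h hh hw (Ly.site_inj _ _ _ _ hj).1.symm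
    rcases (pl_mem_inn Ly _ _ _).mp ha with h1 | h1
    · exact Or.inl (Ly.site_inj _ _ _ _ h1).2
    · exact Or.inr ⟨h1.1, (Ly.site_inj _ _ _ _ h1.2).2⟩
  · intro h1
    refine ⟨h, hh, rfl, (pl_mem_inn Ly _ _ _).mpr ?_⟩
    rcases h1 with rfl | ⟨h1, rfl⟩
    · exact Or.inl rfl
    · exact Or.inr ⟨h1, rfl⟩

omit [Fintype W] in
lemma pl_sum1 {A : Type} [AddCommMonoid A] (Ly : Layout F M K L) {O : Multiset (Hole V W)}
    {sn : Hole V W → Fin M} (hinj : ∀ h ∈ O, ∀ h' ∈ O, h.w = h'.w → sn h = sn h' → h = h')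
    (D : Hole V W → Finset Λ) (hD : ∀ h, ∀ a ∈ D h, ∃ i, a = Ly.site (sn h) i) (w : W)
    (φ : Λ → A) : ∑ a ∈ (O.toFinset.filter fun h => h.w = w).biUnion D, φ a =
      ∑ h ∈ O.toFinset.filter fun h => h.w = w, ∑ a ∈ D h, φ a := by
  refine Finset.sum_biUnion fun h hh h' hh' hne => ?_
  simp only [Finset.coe_filter, Multiset.mem_toFinset, Set.mem_ofPred_eq] at hh hh'
  refine Finset.disjoint_left.mpr fun a ha ha' => hne ?_
  obtain ⟨i, rfl⟩ := hD h a ha
  obtain ⟨j, hj⟩ := hD h' _ ha'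
  exact hinj h hh.1 h' hh'.1 (hh.2.trans hh'.2.symm) (Ly.site_inj _ _ _ _ hj).1

omit [Fintype Λ] in
lemma pl_fiber {A : Type} [AddCommMonoid A] (O : Multiset (Hole V W)) (ψ : W → Hole V W → A) :
    ∑ w, ∑ h ∈ O.toFinset.filter fun h => h.w = w, ψ w h = ∑ h ∈ O.toFinset, ψ h.w h := by
  rw [← Finset.sum_fiberwise O.toFinset (fun h => h.w) fun h => ψ h.w h]
  refine Finset.sum_congr rfl fun w _ => Finset.sum_congr rfl fun h hh => ?_
  rw [(Finset.mem_filter.mp hh).2]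

lemma pl_sum {A : Type} [AddCommMonoid A] (Ly : Layout F M K L) {O : Multiset (Hole V W)}
    {sn : Hole V W → Fin M} (hinj : ∀ h ∈ O, ∀ h' ∈ O, h.w = h'.w → sn h = sn h' → h = h')
    (D : Hole V W → Finset Λ) (hD : ∀ h, ∀ a ∈ D h, ∃ i, a = Ly.site (sn h) i)
    (φ : W → Λ → A) : ∑ w, ∑ a ∈ (O.toFinset.filter fun h => h.w = w).biUnion D, φ w a =
      ∑ h ∈ O.toFinset, ∑ a ∈ D h, φ h.w a := by
  rw [← pl_fiber O fun w h => ∑ a ∈ D h, φ w a]
  exact Finset.sum_congr rfl fun w _ => pl_sum1 Ly hinj D hD w _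

omit [Fintype W] in
/-- Prescribing the values at the vertices of the sites in use. -/
lemma pl_fun (Ly : Layout F M K L) {O : Multiset (Hole V W)}
    {sn : Hole V W → Fin M} (hinj : ∀ h ∈ O, ∀ h' ∈ O, h.w = h'.w → sn h = sn h' → h = h')
    (val : Hole V W → Fin 4 → V) (f : W → Λ → V) : ∃ g : W → Λ → V,
      (∀ h ∈ O, ∀ i, g h.w (Ly.site (sn h) i) = val h i) ∧
      ∀ w a, (∀ h ∈ O, h.w = w → ∀ i, a ≠ Ly.site (sn h) i) → g w a = f w a := by
  refine ⟨fun w a => if hx : ∃ p : Hole V W × Fin 4, p.1 ∈ O ∧ p.1.w = w ∧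
    a = Ly.site (sn p.1) p.2 then val hx.choose.1 hx.choose.2 else f w a, fun h hh i => ?_,
    fun w a ha => ?_⟩
  · have hx : ∃ p : Hole V W × Fin 4, p.1 ∈ O ∧ p.1.w = h.w ∧
        Ly.site (sn h) i = Ly.site (sn p.1) p.2 := ⟨(h, i), hh, rfl, rfl⟩
    obtain ⟨h1, h2, h3⟩ := hx.choose_spec
    obtain ⟨h4, h5⟩ := Ly.site_inj _ _ _ _ h3
    beta_reduce
    rw [dif_pos hx, hinj _ h1 h hh h2 h4.symm, ← h5]
  · beta_reduce
    rw [dif_neg]
    rintro ⟨p, h1, h2, h3⟩
    exact ha p.1 h1 h2 p.2 h3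

omit [Fintype W] in
lemma innerSet_card (Ly : Layout F M K L) {O : Multiset (Hole V W)} {sn : Hole V W → Fin M}
    {dom : W → Finset Λ} {f : W → Λ → V} (h : Placed Ly O sn dom f) (w : W) :
    (Ly.innerSet O sn w).card = (O.bind Hole.inner).count w := by
  rw [Finset.card_eq_sum_ones, Layout.innerSet,
    pl_sum1 Ly h.inj _ (fun x => pl_inn_site Ly x (sn x)), pl_bind h.nodup, Multiset.count_sum',
    Finset.sum_filter]
  refine Finset.sum_congr rfl fun x _ => ?_
  have hne := pl_site_ne Ly (sn x) (show (1 : Fin 4) ≠ 2 by decide)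
  unfold Layout.inn Hole.inner
  by_cases hw : x.w = w
  · subst hw
    split_ifs <;> simp_all
  · have hw' : ¬ w = x.w := fun e => hw e.symm
    split_ifs <;> simp_all

omit [Fintype W] in
lemma innerSet_subset (Ly : Layout F M K L) (O : Multiset (Hole V W)) (sn : Hole V W → Fin M)
    (w : W) : Ly.innerSet O sn w ⊆ Ly.Pre := by
  intro a ha
  obtain ⟨h, -, -, ha⟩ := (pl_mem_innerSet Ly O sn w a).mp ha
  obtain ⟨i, rfl⟩ := pl_inn_site Ly _ _ _ ha
  exact Ly.site_pre _ _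

/-- The edges from embedded vertices to open vertices start exactly at the frames. -/
lemma out_inner (Ly : Layout F M K L) (h2 : ∀ a, (cnt fun b => F.Adj a b) = 2)
    {O : Multiset (Hole V W)} {sn : Hole V W → Fin M} {dom : W → Finset Λ} {f : W → Λ → V}
    (h : Placed Ly O sn dom f) :
    outOf F dom (Ly.innerSet O sn) f = (O.bind Hole.frame).map Prod.fst := by
  have h1 : ∀ w, ∑ a ∈ dom w, (cnt fun b => F.Adj a b ∧ b ∈ Ly.innerSet O sn w ∧ b ∉ dom w) •
      ({f w a} : Multiset V) = ∑ b ∈ Ly.innerSet O sn w,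
        ∑ a ∈ (dom w).filter fun a => F.Adj b a, ({f w a} : Multiset V) := by
    intro w
    simp only [Finset.sum_filter]
    rw [Finset.sum_comm]
    refine Finset.sum_congr rfl fun a _ => ?_
    rw [← Finset.sum_filter, Finset.sum_const, cnt_def]
    refine congrArg (fun s : Finset Λ => s.card • ({f w a} : Multiset V)) ?_
    ext b
    simp only [Finset.mem_filter, Finset.mem_univ, true_and]
    exact ⟨fun hb => ⟨hb.2.1, hb.1.symm⟩, fun hb => ⟨hb.2.symm, hb.1,
      fun hd => Finset.disjoint_left.mp (h.disj w) hd hb.1⟩⟩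
  unfold outOf
  rw [Finset.sum_congr rfl fun w _ => h1 w]
  unfold Layout.innerSet
  rw [pl_sum Ly h.inj _ (fun x => pl_inn_site Ly x (sn x))
    (fun w b => ∑ a ∈ (dom w).filter fun a => F.Adj b a, ({f w a} : Multiset V)),
    pl_bind h.nodup, map_finsum]
  refine Finset.sum_congr rfl fun x hx => ?_
  have hx' : x ∈ O := Multiset.mem_toFinset.mp hx
  obtain ⟨h0, h0'⟩ := h.fst x hx'
  obtain ⟨h3, h3'⟩ := h.lst x hx'
  have hin : ∀ i, i = 1 ∨ (x.dbl = true ∧ i = 2) → Ly.site (sn x) i ∉ dom x.w := fun i hi hd =>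
    Finset.disjoint_left.mp (h.disj x.w) hd ((pl_site_mem_innerSet Ly h.inj hx' i).mpr hi)
  unfold Layout.last at h3 h3'
  unfold Layout.inn Hole.frame
  by_cases hd : x.dbl = true
  · rw [if_pos hd] at h3 h3' ⊢
    have e1 : ((dom x.w).filter fun a => F.Adj (Ly.site (sn x) 1) a) = {Ly.site (sn x) 0} := by
      ext a
      rw [Finset.mem_filter, pl_nbr1 Ly h2, Finset.mem_singleton]
      refine ⟨fun ha => ha.2.resolve_right ?_, fun ha => ⟨ha ▸ h0, Or.inl ha⟩⟩
      rintro rfl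
      exact hin 2 (Or.inr ⟨hd, rfl⟩) ha.1
    have e2 : ((dom x.w).filter fun a => F.Adj (Ly.site (sn x) 2) a) = {Ly.site (sn x) 3} := by
      ext a
      rw [Finset.mem_filter, pl_nbr2 Ly h2, Finset.mem_singleton]
      refine ⟨fun ha => ha.2.resolve_left ?_, fun ha => ⟨ha ▸ h3, Or.inr ha⟩⟩
      rintro rfl
      exact hin 1 (Or.inl rfl) ha.1
    rw [Finset.sum_pair (pl_site_ne Ly _ (by decide)), e1, e2, Finset.sum_singleton,
      Finset.sum_singleton, h0', h3']
    rfl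
  · rw [if_neg hd] at h3 h3' ⊢
    have e1 : ((dom x.w).filter fun a => F.Adj (Ly.site (sn x) 1) a) =
        {Ly.site (sn x) 0, Ly.site (sn x) 2} := by
      ext a
      rw [Finset.mem_filter, pl_nbr1 Ly h2, Finset.mem_insert, Finset.mem_singleton]
      refine ⟨fun ha => ha.2, fun ha => ⟨?_, ha⟩⟩
      rcases ha with rfl | rfl
      · exact h0
      · exact h3
    rw [Finset.sum_singleton, e1, Finset.sum_pair (pl_site_ne Ly _ (by decide)), h0', h3']
    rfl

/-- The edges of `F` at the open vertices of a hole. -/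
def plE (Ly : Layout F M K L) (h : Hole V W) (m : Fin M) : Finset (Sym2 Λ) :=
  if h.dbl then {s(Ly.site m 0, Ly.site m 1), s(Ly.site m 1, Ly.site m 2),
    s(Ly.site m 2, Ly.site m 3)} else {s(Ly.site m 0, Ly.site m 1), s(Ly.site m 1, Ly.site m 2)}

omit [Fintype W] in
lemma pl_mem_E (Ly : Layout F M K L) (h2 : ∀ a, (cnt fun b => F.Adj a b) = 2) (h : Hole V W)
    (m : Fin M) (e : Sym2 Λ) : e ∈ plE Ly h m ↔ e ∈ F.edgeSet ∧ ∃ a ∈ e, a ∈ Ly.inn h m := by
  obtain ⟨a1, a2, a3⟩ := Ly.site_adj m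
  have i1 : Ly.site m 1 ∈ Ly.inn h m := (pl_mem_inn Ly _ _ _).mpr (Or.inl rfl)
  have hE : e ∈ plE Ly h m ↔ e = s(Ly.site m 0, Ly.site m 1) ∨ e = s(Ly.site m 1, Ly.site m 2) ∨
      (h.dbl = true ∧ e = s(Ly.site m 2, Ly.site m 3)) := by
    unfold plE
    split_ifs with hd <;> simp [hd]
  rw [hE]
  constructor
  · rintro (rfl | rfl | ⟨hd, rfl⟩)
    · exact ⟨a1, _, Sym2.mem_mk_right _ _, i1⟩
    · exact ⟨a2, _, Sym2.mem_mk_left _ _, i1⟩
    · exact ⟨a3, _, Sym2.mem_mk_left _ _, (pl_mem_inn Ly _ _ _).mpr (Or.inr ⟨hd, rfl⟩)⟩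
  · rintro ⟨he, a, ha, ha'⟩
    obtain ⟨b, rfl⟩ := Sym2.mem_iff_exists.mp ha
    rcases (pl_mem_inn Ly _ _ _).mp ha' with rfl | ⟨hd, rfl⟩
    · rcases (pl_nbr1 Ly h2 m b).mp he with rfl | rfl
      · exact Or.inl Sym2.eq_swap
      · exact Or.inr (Or.inl rfl)
    · rcases (pl_nbr2 Ly h2 m b).mp he with rfl | rfl
      · exact Or.inr (Or.inl Sym2.eq_swap)
      · exact Or.inr (Or.inr ⟨hd, rfl⟩)

omit [Fintype W] in
lemma pl_edge_ne (Ly : Layout F M K L) (m : Fin M) {i j k l : Fin 4}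
    (h : ¬ ((i = k ∧ j = l) ∨ (i = l ∧ j = k))) :
    s(Ly.site m i, Ly.site m j) ≠ s(Ly.site m k, Ly.site m l) := fun e => h (by
  rcases Sym2.eq_iff.mp e with h1 | h1
  · exact Or.inl ⟨(Ly.site_inj _ _ _ _ h1.1).2, (Ly.site_inj _ _ _ _ h1.2).2⟩
  · exact Or.inr ⟨(Ly.site_inj _ _ _ _ h1.1).2, (Ly.site_inj _ _ _ _ h1.2).2⟩)

omit [Fintype W] in
lemma pl_edge_split {A : Type} [AddCommMonoid A] (Ly : Layout F M K L)
    (h2 : ∀ a, (cnt fun b => F.Adj a b) = 2) {O : Multiset (Hole V W)}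
    {sn : Hole V W → Fin M} (hinj : ∀ h ∈ O, ∀ h' ∈ O, h.w = h'.w → sn h = sn h' → h = h')
    (w : W) (φ : Sym2 Λ → A) :
    ∑ e ∈ univ.filter fun e : Sym2 Λ => e ∈ F.edgeSet ∧ ∀ a ∈ e, a ∈ (univ : Finset Λ), φ e =
      ∑ e ∈ univ.filter fun e : Sym2 Λ => e ∈ F.edgeSet ∧ ∀ a ∈ e, a ∈ univ \ Ly.innerSet O sn w,
        φ e + ∑ h ∈ O.toFinset.filter fun h => h.w = w, ∑ e ∈ plE Ly h (sn h), φ e := by
  rw [← Finset.sum_biUnion, ← Finset.sum_union]
  · refine Finset.sum_congr ?_ fun _ _ => rfl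
    ext e
    simp only [Finset.mem_filter, Finset.mem_univ, true_and, Finset.mem_union, Finset.mem_biUnion,
      Finset.mem_sdiff, Multiset.mem_toFinset, pl_mem_E Ly h2, pl_mem_innerSet, implies_true,
      and_true]
    constructor
    · intro he
      by_cases hc : ∃ a ∈ e, ∃ h ∈ O, h.w = w ∧ a ∈ Ly.inn h (sn h)
      · obtain ⟨a, ha, h, hh, hw, ha'⟩ := hc
        exact Or.inr ⟨h, ⟨hh, hw⟩, he, a, ha, ha'⟩
      · exact Or.inl ⟨he, fun a ha hx => hc ⟨a, ha, hx⟩⟩
    · rintro (he | ⟨_, _, he, _⟩)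
      · exact he.1
      · exact he
  · refine Finset.disjoint_left.mpr fun e he he' => ?_
    simp only [Finset.mem_filter, Finset.mem_univ, true_and, Finset.mem_biUnion,
      Finset.mem_sdiff, Multiset.mem_toFinset, pl_mem_E Ly h2, pl_mem_innerSet] at he he'
    obtain ⟨h, ⟨hh, hw⟩, -, a, ha, ha'⟩ := he'
    exact he.2 a ha ⟨h, hh, hw, ha'⟩
  · intro h hh h' hh' hne
    simp only [Finset.coe_filter, Multiset.mem_toFinset, Set.mem_ofPred_eq] at hh hh'
    refine Finset.disjoint_left.mpr fun e he he' => hne ?_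
    obtain ⟨h3, a, ha, hb⟩ := (pl_mem_E Ly h2 _ _ _).mp he
    obtain ⟨-, a', ha', hb'⟩ := (pl_mem_E Ly h2 _ _ _).mp he'
    obtain ⟨i, rfl⟩ := pl_inn_site Ly _ _ _ hb
    obtain ⟨j, rfl⟩ := pl_inn_site Ly _ _ _ hb'
    refine hinj h hh.1 h' hh'.1 (hh.2.trans hh'.2.symm) ?_
    by_cases hc : Ly.site (sn h) i = Ly.site (sn h') j
    · exact (Ly.site_inj _ _ _ _ hc).1
    · rw [(Sym2.mem_and_mem_iff hc).mp ⟨ha, ha'⟩] at h3
      exact Ly.site_sep _ _ _ _ h3

/-- Filling the holes completes the embeddings. -/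
lemma fill (Ly : Layout F M K L) (h2 : ∀ a, (cnt fun b => F.Adj a b) = 2)
    {O : Multiset (Hole V W)} {sn : Hole V W → Fin M} {f : W → Λ → V}
    (h : Placed Ly O sn (fun w => univ \ Ly.innerSet O sn w) f)
    {Φ : Multiset (V × W)} {E : Multiset (Sym2 V)} (hr : Rz O Φ E) :
    ∃ f' : W → Λ → V,
      edgesOf F (fun _ => univ) f' = edgesOf F (fun w => univ \ Ly.innerSet O sn w) f + E ∧
      slotsOf (fun _ => univ) f' = slotsOf (fun w => univ \ Ly.innerSet O sn w) f + Φ := by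
  obtain ⟨fl, hO, hΦ, hE⟩ := hr
  have hinj : ∀ x ∈ fl, ∀ y ∈ fl, x.1 = y.1 → x = y :=
    Multiset.inj_on_of_nodup_map (hO.symm ▸ h.nodup)
  let t : Hole V W → V × V := fun x => if hx : ∃ y ∈ fl, y.1 = x then hx.choose.2 else (x.a, x.a)
  have ht : ∀ y ∈ fl, (y.1, t y.1) = y := by
    intro y hy
    have hx : ∃ z ∈ fl, z.1 = y.1 := ⟨y, hy, rfl⟩
    have e := hinj _ hx.choose_spec.1 y hy hx.choose_spec.2
    simp only [t]
    rw [dif_pos hx, e]
  have hfl : fl = O.map fun x => (x, t x) := by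
    rw [← hO, Multiset.map_map]
    exact (Multiset.map_id' fl).symm.trans (Multiset.map_congr rfl fun y hy => (ht y hy).symm)
  rw [hfl, Multiset.bind_map, pl_bind h.nodup] at hΦ hE
  obtain ⟨g, hg, hg'⟩ := pl_fun Ly h.inj (fun x i => if i = 1 then (t x).1 else
    if x.dbl = true ∧ i = 2 then (t x).2 else f x.w (Ly.site (sn x) i)) f
  have hgf : ∀ w, ∀ a ∈ univ \ Ly.innerSet O sn w, g w a = f w a := by
    intro w a ha
    by_cases hc : ∀ x ∈ O, x.w = w → ∀ i, a ≠ Ly.site (sn x) i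
    · exact hg' w a hc
    · push Not at hc
      obtain ⟨x, hx, rfl, i, rfl⟩ := hc
      have h1 := (Finset.mem_sdiff.mp ha).2
      rw [pl_site_mem_innerSet Ly h.inj hx, not_or] at h1
      rw [hg x hx, if_neg h1.1, if_neg h1.2]
  have g0 : ∀ x ∈ O, g x.w (Ly.site (sn x) 0) = x.a := fun x hx => by
    rw [hgf _ _ (h.fst x hx).1, (h.fst x hx).2]
  have g1 : ∀ x ∈ O, g x.w (Ly.site (sn x) 1) = (t x).1 := fun x hx => by
    rw [hg x hx, if_pos rfl]
  have g2 : ∀ x ∈ O, x.dbl = true → g x.w (Ly.site (sn x) 2) = (t x).2 := fun x hx hd => by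
    rw [hg x hx, if_neg (by decide), if_pos ⟨hd, rfl⟩]
  have g3 : ∀ x ∈ O, g x.w (Ly.last x (sn x)) = x.c := fun x hx => by
    rw [hgf _ _ (h.lst x hx).1, (h.lst x hx).2]
  refine ⟨g, ?_, ?_⟩
  · rw [← edgesOf_congr F hgf, ← hE]
    unfold edgesOf
    simp only [pl_val_map]
    rw [Finset.sum_congr rfl fun w _ => pl_edge_split Ly h2 h.inj w _, Finset.sum_add_distrib,
      pl_fiber O fun w x => ∑ e ∈ plE Ly x (sn x), ({Sym2.map (g w) e} : Multiset (Sym2 V))]
    refine congrArg _ (Finset.sum_congr rfl fun x hx => ?_)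
    have hx' : x ∈ O := Multiset.mem_toFinset.mp hx
    have g3' := g3 x hx'
    unfold Layout.last at g3'
    unfold plE fillEdges
    by_cases hd : x.dbl = true
    · rw [if_pos hd] at g3' ⊢
      rw [if_pos hd, Finset.sum_insert, Finset.sum_pair (pl_edge_ne Ly _ (by decide))]
      · simp only [Sym2.map_mk, g0 x hx', g1 x hx', g2 x hx' hd, g3']
        rfl
      · rw [Finset.mem_insert, Finset.mem_singleton, not_or]
        exact ⟨pl_edge_ne Ly _ (by decide), pl_edge_ne Ly _ (by decide)⟩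
    · rw [if_neg hd] at g3' ⊢
      rw [if_neg hd, Finset.sum_pair (pl_edge_ne Ly _ (by decide))]
      simp only [Sym2.map_mk, g0 x hx', g1 x hx', g3']
      rfl
  · have e : (fun _ : W => (univ : Finset Λ)) =
        fun w => (univ \ Ly.innerSet O sn w) ∪ Ly.innerSet O sn w :=
      funext fun w => (Finset.sdiff_union_of_subset (Finset.subset_univ _)).symm
    rw [e, slotsOf_union g fun w => Finset.sdiff_disjoint, slotsOf_congr hgf, ← hΦ]
    refine congrArg _ ?_
    unfold slotsOf Layout.innerSet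
    simp only [pl_val_map]
    rw [pl_sum Ly h.inj _ (fun x => pl_inn_site Ly x (sn x))
      fun w a => ({(g w a, w)} : Multiset (V × W))]
    refine Finset.sum_congr rfl fun x hx => ?_
    have hx' : x ∈ O := Multiset.mem_toFinset.mp hx
    unfold Layout.inn fillSlots
    by_cases hd : x.dbl = true
    · rw [if_pos hd, if_pos hd, Finset.sum_pair (pl_site_ne Ly _ (by decide)), g1 x hx',
        g2 x hx' hd]
      rfl
    · rw [if_neg hd, if_neg hd, Finset.sum_singleton, g1 x hx']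

/-- `extend` on the unused resources. -/
theorem pl_ext (ε : ℝ) (hε : 0 < ε) : ∃ b : ℝ, 0 < b ∧ ∀ c : ℝ, 0 < c → ∃ t : ℝ, 0 < t ∧ ∃ n0 : ℕ,
    ∀ (V W Λ : Type) [Fintype V] [Fintype W] [Fintype Λ] (G : SimpleGraph V) (F : SimpleGraph Λ)
      (UE : Multiset (Sym2 V)) (US : Multiset (V × W)) (dom tgt : W → Finset Λ) (f : W → Λ → V)
      (β ρ : ℝ), n0 ≤ Fintype.card V → Dense G 2 ε → (∀ x, (cnt fun y => F.Adj x y) = 2) →
      F.Colorable 2 → (∀ w, dom w ⊆ tgt w) → Ok β UE (US + slotsOf dom f) → 0 ≤ β → β ≤ b →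
      0 ≤ ρ → ρ ≤ b → (∀ w, ((tgt w \ dom w).card : ℝ) ≤ ρ * Fintype.card V) →
      (∑ w, ((tgt w \ dom w).card : ℝ) ≤ t * (Fintype.card V : ℝ) ^ 2) →
      ∃ (f' : W → Λ → V) (B : Multiset (Sym2 V)) (S' : Multiset (V × W)),
        (∀ w, ∀ x ∈ dom w, f' w x = f w x) ∧ edgesOf F tgt f' = edgesOf F dom f + B ∧
        slotsOf tgt f' = slotsOf dom f + S' ∧ (∀ e ∈ B, e ∈ G.edgeSet) ∧
        (∀ v, (((S'.map Prod.fst).count v : ℕ) : ℝ) ≤ c * Fintype.card V) ∧
        Ok (3 * β + 2 * c + ρ) (UE + B) (US + slotsOf tgt f') := by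
  obtain ⟨b, hb, hb'⟩ := extend (ε / 2) (by positivity)
  refine ⟨min (b / 2) (ε / 6), by positivity, fun c hc => ?_⟩
  obtain ⟨t, ht, n0, h⟩ := hb' c hc
  refine ⟨t, ht, n0, ?_⟩
  intro V W Λ _ _ _ G F UE US dom tgt f β ρ hn hG h2 hcol hsub hok hβ0 hβ hρ0 hρ hcard hsum
  have hn0 : (0 : ℝ) ≤ Fintype.card V := Nat.cast_nonneg _
  have hβ1 : β ≤ b / 2 := hβ.trans (min_le_left _ _)
  have hβ2 : β ≤ ε / 6 := hβ.trans (min_le_right _ _)
  have hρ1 : ρ ≤ b / 2 := hρ.trans (min_le_left _ _)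
  have hβn : 0 ≤ β * Fintype.card V := mul_nonneg hβ0 hn0
  have hcn : 0 ≤ c * Fintype.card V := mul_nonneg hc.le hn0
  have hρn : 0 ≤ ρ * Fintype.card V := mul_nonneg hρ0 hn0
  have hout : ∀ v, (((outOf F dom tgt f).count v : ℕ) : ℝ) ≤ 2 * (β * Fintype.card V) := by
    intro v
    have h3 : outOf F dom tgt f ≤ 2 • ((US + slotsOf dom f).map Prod.fst) := by
      refine (outOf_mono F dom f fun w => Finset.subset_univ _).trans ?_
      refine le_trans (Multiset.le_add_left _ (bd (edgesOf F dom f))) ?_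
      rw [bd_edgesOf F h2]
      exact nsmul_le_nsmul_right (Multiset.map_le_map (Multiset.le_add_left _ _)) 2
    have h4 := Multiset.count_le_of_le v h3
    rw [Multiset.count_nsmul] at h4
    have h5 := (Nat.cast_le (α := ℝ)).mpr h4
    push_cast at h5
    linarith [hok.lv v]
  obtain ⟨f', B, S', e1, e2, e3, hB, hB', hS, hS', hbd⟩ := h V W Λ F (del G UE)
    (univ.filter fun s => s ∉ US + slotsOf dom f) dom tgt f hn h2 hcol hsub (by
      rw [Multiset.nodup_add]
      refine ⟨Multiset.nodup_of_le (Multiset.le_add_left _ _) hok.ns, Finset.nodup _, ?_⟩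
      rw [Multiset.disjoint_left]
      intro s hs hs'
      exact (Finset.mem_filter.mp hs').2 (Multiset.mem_add.mpr (Or.inr hs))) (by
      intro w S hS
      have h3 := hG.del hβ0 hok.le S hS
      have h4 : (cnt fun z => ∀ q ∈ S, (del G UE).Adj z q) ≤
          (cnt fun z => (z, w) ∈ (univ.filter fun s => s ∉ US + slotsOf dom f) ∧
            ∀ q ∈ S, (del G UE).Adj z q) + cnt fun z => (z, w) ∈ US + slotsOf dom f := by
        refine le_trans (cnt_mono fun z hz => ?_) (cnt_or_le _ _)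
        by_cases hc : (z, w) ∈ US + slotsOf dom f
        · exact Or.inr hc
        · exact Or.inl ⟨Finset.mem_filter.mpr ⟨Finset.mem_univ _, hc⟩, hz⟩
      rw [← count_snd_eq_cnt hok.ns] at h4
      have h5 := (Nat.cast_le (α := ℝ)).mpr h4
      push_cast at h5
      have h6 := hok.lw w
      have h7 : 3 * β * Fintype.card V ≤ ε / 2 * Fintype.card V :=
        mul_le_mul_of_nonneg_right (by linarith) hn0
      linarith)
    (fun v => (hout v).trans (by
      have := mul_le_mul_of_nonneg_right hβ1 hn0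
      linarith))
    (fun w => (hcard w).trans (mul_le_mul_of_nonneg_right (by linarith) hn0)) hsum
  refine ⟨f', B, S', e1, e2, e3, fun e he => (mem_del.mp (hB' e he)).1, hS', ?_⟩
  rw [e3, ← add_assoc]
  refine ⟨?_, ?_, fun v => ?_, fun v => ?_, fun w => ?_⟩
  · rw [Multiset.nodup_add]
    refine ⟨hok.ne, hB, ?_⟩
    rw [Multiset.disjoint_left]
    intro e he he'
    exact (mem_del.mp (hB' e he')).2 he
  · rw [Multiset.nodup_add]
    refine ⟨hok.ns, Multiset.nodup_of_le hS (Finset.nodup _), ?_⟩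
    rw [Multiset.disjoint_left]
    intro s hs hs'
    exact (Finset.mem_filter.mp (Multiset.mem_of_le hS hs')).2 hs
  · rw [bd_add, Multiset.count_add]
    have h3 := (Nat.cast_le (α := ℝ)).mpr (hbd v)
    push_cast at h3 ⊢
    linarith [hok.le v, hout v, hS' v]
  · rw [Multiset.map_add, Multiset.count_add]
    push_cast
    linarith [hok.lv v, hS' v]
  · rw [Multiset.map_add, Multiset.count_add]
    have h3 := slotsOf_count_snd tgt f' w
    rw [e3, Multiset.map_add, Multiset.count_add, slotsOf_count_snd,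
      ← Finset.card_sdiff_add_card_eq_card (hsub w)] at h3
    have h4 : (S'.map Prod.snd).count w = (tgt w \ dom w).card := by omega
    rw [h4]
    push_cast
    linarith [hok.lw w, hcard w]

omit [Fintype W] [Fintype Λ] in
lemma pl_frame (O : Multiset (Hole V W)) :
    O.bind Hole.frame = (O.map fun h => (h.a, h.w)) + O.map fun h => (h.c, h.w) := by
  induction O using Multiset.induction_on with
  | empty => simp
  | cons h O ih =>
    rw [Multiset.cons_bind, ih, Multiset.map_cons, Multiset.map_cons]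
    simp only [Hole.frame, Multiset.insert_eq_cons, ← Multiset.singleton_add]
    abel

omit [Fintype W] [Fintype Λ] in
lemma pl_exists_sn {O : Multiset (Hole V W)} (hO : O.Nodup) (hM : 1 ≤ M)
    (h : ∀ w, (O.map fun x => x.w).count w ≤ M) :
    ∃ sn : Hole V W → Fin M, ∀ h ∈ O, ∀ h' ∈ O, h.w = h'.w → sn h = sn h' → h = h' := by
  have h1 : ∀ w, ∃ g : Hole V W → Fin M, ∀ x ∈ O, ∀ y ∈ O, x.w = w → y.w = w → g x = g y →
      x = y := by
    intro w
    have h2 : Fintype.card (O.toFinset.filter fun x => w = x.w) ≤ Fintype.card (Fin M) := by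
      rw [Fintype.card_coe, Fintype.card_fin, ← Multiset.toFinset_filter,
        Multiset.toFinset_card_of_nodup (hO.filter _)]
      have h3 := h w
      rwa [Multiset.count_map] at h3
    obtain ⟨e⟩ := Function.Embedding.nonempty_of_card_le h2
    refine ⟨fun x => if hx : x ∈ O.toFinset.filter fun x => w = x.w then e ⟨x, hx⟩ else ⟨0, hM⟩,
      fun x hx y hy hxw hyw hxy => ?_⟩
    have hx' : x ∈ O.toFinset.filter fun x => w = x.w :=
      Finset.mem_filter.mpr ⟨Multiset.mem_toFinset.mpr hx, hxw.symm⟩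
    have hy' : y ∈ O.toFinset.filter fun x => w = x.w :=
      Finset.mem_filter.mpr ⟨Multiset.mem_toFinset.mpr hy, hyw.symm⟩
    beta_reduce at hxy
    rw [dif_pos hx', dif_pos hy'] at hxy
    exact congrArg Subtype.val (e.injective hxy)
  choose g hg using h1
  refine ⟨fun x => g x.w x, fun x hx y hy hw hxy => hg x.w x hx y hy rfl hw.symm ?_⟩
  beta_reduce at hxy
  rw [hxy, hw]

omit [Fintype W] in
lemma pl_last (Ly : Layout F M K L) (h : Hole V W) (m : Fin M) : ∃ i, Ly.last h m = Ly.site m i ∧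
    i ≠ 0 ∧ ¬ (i = 1 ∨ (h.dbl = true ∧ i = 2)) := by
  unfold Layout.last
  split_ifs with hd
  · exact ⟨3, rfl, by decide, by simp⟩
  · exact ⟨2, rfl, by decide, by simp [hd]⟩

omit [Fintype W] in
lemma pl_not_adj (Ly : Layout F M K L) (hcol : F.Colorable 2) {h : Hole V W}
    (h4 : h.dbl = true → NoC4 F) (m : Fin M) : ¬ F.Adj (Ly.site m 0) (Ly.last h m) := by
  obtain ⟨a1, a2, a3⟩ := Ly.site_adj m
  unfold Layout.last
  split_ifs with hd
  · intro h1
    rcases h4 hd _ _ _ _ a1 a2 a3 h1.symm with h2 | h2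
    · exact pl_site_ne Ly m (by decide) h2
    · exact pl_site_ne Ly m (by decide) h2
  · intro h1
    obtain ⟨C⟩ := hcol
    have c1 := C.valid a1
    have c2 := C.valid a2
    have c3 := C.valid h1
    revert c1 c2 c3
    generalize C (Ly.site m 0) = x
    generalize C (Ly.site m 1) = y
    generalize C (Ly.site m 2) = z
    revert x y z
    decide

/-- The frames are embedded at the ends of the sites. -/
lemma pl_start [Nonempty V] (Ly : Layout F M K L) (hcol : F.Colorable 2)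
    {O : Multiset (Hole V W)} (hO : O.Nodup) (h4 : ∀ h ∈ O, h.dbl = true → NoC4 F)
    {sn : Hole V W → Fin M} (hinj : ∀ h ∈ O, ∀ h' ∈ O, h.w = h'.w → sn h = sn h' → h = h') :
    ∃ (dom : W → Finset Λ) (f : W → Λ → V), Placed Ly O sn dom f ∧
      (∀ w, ∀ a ∈ dom w, ∃ m i, a = Ly.site m i) ∧ slotsOf dom f = O.bind Hole.frame ∧
      edgesOf F dom f = 0 := by
  obtain ⟨f, hf, -⟩ := pl_fun Ly hinj (fun x i => if i = 0 then x.a else x.c)
    fun _ _ => Classical.arbitrary V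
  let D : Hole V W → Finset Λ := fun x => {Ly.site (sn x) 0, Ly.last x (sn x)}
  have hD : ∀ x, ∀ a ∈ D x, ∃ i, a = Ly.site (sn x) i ∧ ¬ (i = 1 ∨ (x.dbl = true ∧ i = 2)) := by
    intro x a ha
    rcases Finset.mem_insert.mp ha with rfl | ha
    · exact ⟨0, rfl, by simp⟩
    · obtain ⟨i, h1, -, h3⟩ := pl_last Ly x (sn x)
      exact ⟨i, (Finset.mem_singleton.mp ha).trans h1, h3⟩
  have hmem : ∀ w a, a ∈ (O.toFinset.filter fun h => h.w = w).biUnion D ↔
      ∃ x ∈ O, x.w = w ∧ a ∈ D x := fun w a => by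
    simp only [Finset.mem_biUnion, Finset.mem_filter, Multiset.mem_toFinset, and_assoc]
  have f0 : ∀ x ∈ O, f x.w (Ly.site (sn x) 0) = x.a := fun x hx => by rw [hf x hx, if_pos rfl]
  have f3 : ∀ x ∈ O, f x.w (Ly.last x (sn x)) = x.c := fun x hx => by
    obtain ⟨i, h1, h2, -⟩ := pl_last Ly x (sn x)
    rw [h1, hf x hx, if_neg h2]
  refine ⟨fun w => (O.toFinset.filter fun h => h.w = w).biUnion D, f,
    ⟨hO, hinj, fun x hx => ⟨?_, f0 x hx⟩, fun x hx => ⟨?_, f3 x hx⟩, fun w => ?_⟩,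
    fun w a ha => ?_, ?_, ?_⟩
  · exact (hmem x.w _).mpr ⟨x, hx, rfl, Finset.mem_insert_self _ _⟩
  · exact (hmem x.w _).mpr ⟨x, hx, rfl, Finset.mem_insert_of_mem (Finset.mem_singleton_self _)⟩
  · refine Finset.disjoint_left.mpr fun a ha ha' => ?_
    obtain ⟨x, hx, rfl, hb⟩ := (hmem w a).mp ha
    obtain ⟨i, rfl, hi⟩ := hD x a hb
    exact hi ((pl_site_mem_innerSet Ly hinj hx i).mp ha')
  · obtain ⟨x, -, -, ha⟩ := (hmem w a).mp ha
    obtain ⟨i, h1, -⟩ := hD x a ha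
    exact ⟨_, i, h1⟩
  · unfold slotsOf
    simp only [pl_val_map]
    rw [pl_sum Ly hinj D (fun x a ha => (hD x a ha).imp fun _ h => h.1)
      fun w a => ({(f w a, w)} : Multiset (V × W)), pl_bind hO]
    refine Finset.sum_congr rfl fun x hx => ?_
    have hx' : x ∈ O := Multiset.mem_toFinset.mp hx
    have hne : Ly.site (sn x) 0 ≠ Ly.last x (sn x) := by
      obtain ⟨i, h1, h2, -⟩ := pl_last Ly x (sn x)
      rw [h1]
      exact pl_site_ne Ly _ h2.symm
    rw [Finset.sum_pair hne, f0 x hx', f3 x hx']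
    rfl
  · unfold edgesOf
    refine Finset.sum_eq_zero fun w _ => ?_
    rw [Multiset.map_eq_zero, Finset.val_eq_zero, Finset.filter_eq_empty_iff]
    rintro e - ⟨he, he'⟩
    induction e using Sym2.ind with
    | h a b =>
      obtain ⟨x, hx, hw, ha⟩ := (hmem w a).mp (he' a (Sym2.mem_mk_left _ _))
      obtain ⟨y, hy, hw', hb⟩ := (hmem w b).mp (he' b (Sym2.mem_mk_right _ _))
      have hab : F.Adj a b := he
      obtain ⟨i, hi, -⟩ := hD x a ha
      obtain ⟨j, hj, -⟩ := hD y b hb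
      obtain rfl := hinj x hx y hy (hw.trans hw'.symm) (Ly.site_sep _ _ _ _ (hi ▸ hj ▸ hab))
      have hna := pl_not_adj Ly hcol (h4 x hx) (sn x)
      simp only [D, Finset.mem_insert, Finset.mem_singleton] at ha hb
      rcases ha with ha | ha <;> rcases hb with hb | hb <;> rw [ha, hb] at hab
      · exact hab.ne rfl
      · exact hna hab
      · exact hna hab.symm
      · exact hab.ne rfl

/-- Edges leaving `Pre` start at its boundary. -/
lemma pl_out_le (Ly : Layout F M K L) (h2 : ∀ a, (cnt fun b => F.Adj a b) = 2)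
    (I : W → Finset Λ) (hI : ∀ w, ∀ a ∈ I w, ∃ m i, a = Ly.site m i) (f : W → Λ → V) :
    outOf F (fun w => Ly.Pre \ I w) (fun w => univ \ I w) f ≤ 2 • (slotsOf
      (fun _ => univ.filter fun a => a ∈ Ly.Pre ∧ ∃ b, F.Adj a b ∧ b ∉ Ly.Pre) f).map Prod.fst := by
  unfold outOf slotsOf
  rw [map_finsum, Finset.smul_sum]
  refine Finset.sum_le_sum fun w _ => ?_
  rw [Multiset.map_map, pl_val_map, Finset.smul_sum]
  have hsub : (univ.filter fun a => a ∈ Ly.Pre ∧ ∃ b, F.Adj a b ∧ b ∉ Ly.Pre) ⊆ Ly.Pre \ I w := by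
    intro a ha
    obtain ⟨h3, b, hb, hb'⟩ := (Finset.mem_filter.mp ha).2
    refine Finset.mem_sdiff.mpr ⟨h3, fun h5 => ?_⟩
    obtain ⟨m, i, rfl⟩ := hI w a h5
    exact hb' (Ly.site_nb m i b hb)
  rw [← Finset.sum_subset hsub]
  · refine Finset.sum_le_sum fun a _ => ?_
    refine nsmul_le_nsmul_left (Multiset.zero_le _) ?_
    rw [← h2 a]
    exact cnt_mono fun b hb => hb.1
  · intro a ha ha'
    have h3 : (cnt fun b => F.Adj a b ∧ b ∈ univ \ I w ∧ b ∉ Ly.Pre \ I w) = 0 := by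
      rw [cnt_def, Finset.card_eq_zero, Finset.filter_eq_empty_iff]
      rintro b - ⟨h4, h5, h6⟩
      refine ha' (Finset.mem_filter.mpr ⟨Finset.mem_univ _, (Finset.mem_sdiff.mp ha).1, b, h4,
        fun h7 => h6 (Finset.mem_sdiff.mpr ⟨h7, (Finset.mem_sdiff.mp h5).2⟩)⟩)
    rw [h3, zero_smul]

/-- Placing the holes and embedding the rest of `Pre`. -/
theorem pre (ε η : ℝ) (hε : 0 < ε) (hη : 0 < η) : ∃ η' : ℝ, 0 < η' ∧ ∀ γ : ℝ, 0 < γ → ∃ n0 : ℕ,
    ∀ (V W Λ : Type) [Fintype V] [Fintype W] [Fintype Λ] (G : SimpleGraph V) (F : SimpleGraph Λ)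
      (M K L : ℕ) (Ly : Layout F M K L) (UE : Multiset (Sym2 V)) (US : Multiset (V × W))
      (O : Multiset (Hole V W)) (Φ : Multiset (V × W)),
      n0 ≤ Fintype.card V → Dense G 2 ε → Fintype.card W ≤ Fintype.card V →
      (∀ x, (cnt fun y => F.Adj x y) = 2) → F.Colorable 2 →
      (∀ h ∈ O, h.dbl = true → NoC4 F) → Ok η' UE (US + slots O Φ) →
      1 ≤ M → (∀ w, ((slots O Φ).map Prod.snd).count w ≤ M) → (M : ℝ) ≤ η' * Fintype.card V →
      ∃ (sn : Hole V W → Fin M) (f : W → Λ → V),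
        Placed Ly O sn (fun w => Ly.Pre \ Ly.innerSet O sn w) f ∧
        Ok η (UE + edgesOf F (fun w => Ly.Pre \ Ly.innerSet O sn w) f)
          (US + slotsOf (fun w => Ly.Pre \ Ly.innerSet O sn w) f + Φ) ∧
        (∀ e ∈ edgesOf F (fun w => Ly.Pre \ Ly.innerSet O sn w) f, e ∈ G.edgeSet) ∧
        ∀ v, (((outOf F (fun w => Ly.Pre \ Ly.innerSet O sn w)
          (fun w => univ \ Ly.innerSet O sn w) f).count v : ℕ) : ℝ) ≤ γ * Fintype.card V := by
  obtain ⟨b, hb, hb'⟩ := pl_ext ε hε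
  obtain ⟨t₂, ht₂, n₂, h₂⟩ := hb' (η / 4) (by positivity)
  set η' : ℝ := min (min (b / 10) (t₂ / 10)) (η / 74) with hη'
  have hη0 : 0 < η' := by positivity
  have hη1 : η' ≤ b / 10 := (min_le_left _ _).trans (min_le_left _ _)
  have hη2 : η' ≤ t₂ / 10 := (min_le_left _ _).trans (min_le_right _ _)
  have hη3 : η' ≤ η / 74 := min_le_right _ _
  refine ⟨η', hη0, fun γ hγ => ?_⟩
  obtain ⟨t₁, ht₁, n₁, h₁⟩ := hb' (min (γ / 2) η') (by positivity)
  refine ⟨max (max n₁ n₂) (⌈4 / t₁⌉₊ + 1), ?_⟩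
  intro V W Λ _ _ _ G F M K L Ly UE US O Φ hn hG hW h2 hcol h4 hok hM hcnt hMn
  have hn1 : n₁ ≤ Fintype.card V := ((le_max_left _ _).trans (le_max_left _ _)).trans hn
  have hn2 : n₂ ≤ Fintype.card V := ((le_max_right _ _).trans (le_max_left _ _)).trans hn
  have hn3 : ⌈4 / t₁⌉₊ + 1 ≤ Fintype.card V := (le_max_right _ _).trans hn
  have hn0 : (0 : ℝ) ≤ Fintype.card V := Nat.cast_nonneg _
  have hW' : (Fintype.card W : ℝ) ≤ Fintype.card V := Nat.cast_le.mpr hW
  have hn4 : 4 ≤ t₁ * Fintype.card V := by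
    have h3 : 4 / t₁ ≤ Fintype.card V :=
      (Nat.le_ceil _).trans (Nat.cast_le.mpr (Nat.le_of_succ_le hn3))
    rwa [div_le_iff₀' ht₁] at h3
  have hM' : (1 : ℝ) ≤ M := by exact_mod_cast hM
  have hV : Nonempty V := Fintype.card_pos_iff.mp (by omega)
  have hle : (O.map fun h => (h.a, h.w)) ≤ slots O Φ := by
    unfold slots
    rw [pl_frame, add_assoc]
    exact Multiset.le_add_right _ _
  have hO : O.Nodup :=
    Multiset.Nodup.of_map _ (Multiset.nodup_of_le (hle.trans (Multiset.le_add_left _ _)) hok.ns)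
  obtain ⟨sn, hinj⟩ := pl_exists_sn hO hM fun w => by
    refine le_trans (Multiset.count_le_of_le w ?_) (hcnt w)
    have := Multiset.map_le_map (f := Prod.snd) hle
    rwa [Multiset.map_map] at this
  obtain ⟨dom, f₀, hP, hsite, hs₀, he₀⟩ := pl_start Ly hcol hO h4 hinj
  set Bd : Finset Λ := univ.filter fun a => a ∈ Ly.Pre ∧ ∃ b, F.Adj a b ∧ b ∉ Ly.Pre with hBd
  have hBd4 : Bd.card ≤ 4 := by
    have := Ly.bdry
    rwa [cnt_def] at this
  have hBds : ∀ m i, Ly.site m i ∉ Bd := fun m i ha => by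
    obtain ⟨-, b, hb, hb'⟩ := (Finset.mem_filter.mp ha).2
    exact hb' (Ly.site_nb m i b hb)
  have hc4 : ∀ w, (((dom w ∪ Bd) \ dom w).card : ℝ) ≤ 4 := fun w => by
    rw [Finset.union_sdiff_left]
    exact_mod_cast (Finset.card_le_card Finset.sdiff_subset).trans hBd4
  obtain ⟨f₁, B₁, S₁, e1, e2, e3, hB₁, hS₁, ok₁⟩ := h₁ V W Λ G F UE (US + Φ) dom
    (fun w => dom w ∪ Bd) f₀ η' (4 * η') hn1 hG h2 hcol (fun w => Finset.subset_union_left)
    (by
      rw [hs₀, add_assoc, add_comm Φ]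
      exact hok) hη0.le (by linarith) (by positivity) (by linarith)
    (fun w => (hc4 w).trans (by linarith)) (by
      refine (Finset.sum_le_sum fun w _ => hc4 w).trans ?_
      rw [Finset.sum_const, Finset.card_univ, nsmul_eq_mul]
      nlinarith)
  have hI : ∀ w, ∀ a ∈ Ly.innerSet O sn w, ∃ m i, a = Ly.site m i := fun w a ha => by
    obtain ⟨x, -, -, ha⟩ := (pl_mem_innerSet Ly O sn w a).mp ha
    exact ⟨_, pl_inn_site Ly _ _ _ ha⟩
  have hsub : ∀ w, dom w ∪ Bd ⊆ Ly.Pre \ Ly.innerSet O sn w := fun w a ha => by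
    rcases Finset.mem_union.mp ha with ha | ha
    · refine Finset.mem_sdiff.mpr ⟨?_, Finset.disjoint_left.mp (hP.disj w) ha⟩
      obtain ⟨m, i, rfl⟩ := hsite w a ha
      exact Ly.site_pre m i
    · refine Finset.mem_sdiff.mpr ⟨(Finset.mem_filter.mp ha).2.1, fun h5 => ?_⟩
      obtain ⟨m, i, rfl⟩ := hI w a h5
      exact hBds m i ha
  have hc10 : ∀ w, (((Ly.Pre \ Ly.innerSet O sn w) \ (dom w ∪ Bd)).card : ℝ) ≤
      10 * η' * Fintype.card V := fun w => by
    have h3 : ((Ly.Pre \ Ly.innerSet O sn w) \ (dom w ∪ Bd)).card ≤ 10 * M :=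
      (Finset.card_le_card (Finset.sdiff_subset.trans Finset.sdiff_subset)).trans Ly.pre_card
    have h5 := (Nat.cast_le (α := ℝ)).mpr h3
    push_cast at h5
    linarith
  have hmin1 : min (γ / 2) η' ≤ γ / 2 := min_le_left _ _
  have hmin2 : min (γ / 2) η' ≤ η' := min_le_right _ _
  obtain ⟨f₂, B₂, S₂, e4, e5, e6, hB₂, -, ok₂⟩ := h₂ V W Λ G F (UE + B₁) (US + Φ)
    (fun w => dom w ∪ Bd) (fun w => Ly.Pre \ Ly.innerSet O sn w) f₁ (9 * η') (10 * η') hn2 hG h2
    hcol hsub (ok₁.mono (by linarith) le_rfl le_rfl) (by positivity) (by linarith) (by positivity)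
    (by linarith) hc10 (by
      refine (Finset.sum_le_sum fun w _ => hc10 w).trans ?_
      rw [Finset.sum_const, Finset.card_univ, nsmul_eq_mul]
      have h3 : 10 * η' * Fintype.card V ≤ t₂ * Fintype.card V :=
        mul_le_mul_of_nonneg_right (by linarith) hn0
      calc _ ≤ Fintype.card V * (t₂ * Fintype.card V) :=
            mul_le_mul hW' h3 (by positivity) hn0
        _ = _ := by ring)
  have hf : ∀ w, ∀ a ∈ dom w, a ∈ Ly.Pre \ Ly.innerSet O sn w ∧ f₂ w a = f₀ w a := fun w a ha =>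
    ⟨hsub w (Finset.mem_union_left _ ha),
      (e4 w a (Finset.mem_union_left _ ha)).trans (e1 w a ha)⟩
  rw [e2, he₀, zero_add] at e5
  refine ⟨sn, f₂, ⟨hO, hinj, fun x hx => ?_, fun x hx => ?_, fun w => Finset.sdiff_disjoint⟩,
    ?_, ?_, fun v => ?_⟩
  · obtain ⟨h3, h5⟩ := hf _ _ (hP.fst x hx).1
    exact ⟨h3, h5.trans (hP.fst x hx).2⟩
  · obtain ⟨h3, h5⟩ := hf _ _ (hP.lst x hx).1
    exact ⟨h3, h5.trans (hP.lst x hx).2⟩
  · rw [e5, ← add_assoc, add_right_comm US]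
    exact ok₂.mono (by linarith) le_rfl le_rfl
  · rw [e5]
    intro e he
    rcases Multiset.mem_add.mp he with he | he
    · exact hB₁ e he
    · exact hB₂ e he
  · have h3 : slotsOf (fun _ => Bd) f₂ = S₁ := by
      rw [slotsOf_union f₁ fun w => Finset.disjoint_left.mpr fun a ha ha' => by
        obtain ⟨m, i, rfl⟩ := hsite w a ha
        exact hBds m i ha', slotsOf_congr e1] at e3
      rw [← add_left_cancel e3]
      exact slotsOf_congr fun w a ha => e4 w a (Finset.mem_union_right _ ha)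
    have h5 := Multiset.count_le_of_le v (pl_out_le Ly h2 (Ly.innerSet O sn) hI f₂)
    rw [← hBd, h3, Multiset.count_nsmul] at h5
    have h6 := (Nat.cast_le (α := ℝ)).mpr h5
    push_cast at h6
    have h7 := mul_le_mul_of_nonneg_right hmin1 hn0
    linarith [hS₁ v]

end Pool.Agent.Lib.MP_34bdde_co
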