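import Mathlib
import Pool.Agent.Lib.MP_34bdde_co.Extend
import Pool.Agent.Lib.MP_34bdde_co.CoreA

set_option autoImplicit false

open Finset
open scoped Classical

noncomputable section

namespace Pool.Agent.Lib.MP_34bdde_co

/- PLAN. pickW_raw gives every leftover edge uv of LE a colour w with (u,w), (v,w) in Z, the slots
distinct, at most (κ0/2) n edges per colour. In colour w inject the items (edges of colour w, slots
of LS in colour w) into Fin K; an edge item puts its ends on res m false, res m true, a slot item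
puts its vertex on res m false. The new domain is disjoint from and not adjacent to dom
(res_nb, dom misses Post); its edges are exactly LE (res_sep), its out-degrees at most
2 (deg LE + load LS). Then extend to tgt with H = the graph with edge set X0, Y = Z minus the slots
used, c = 1. -/

lemma post_map_eq_sum {I A : Type} (s : Finset I) (g : I → A) :
    s.val.map g = ∑ i ∈ s, ({g i} : Multiset A) := by
  induction s using Finset.induction_on with
  | empty => simp
  | insert a s ha ih => rw [Finset.sum_insert ha, Finset.insert_val_of_notMem ha,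
      Multiset.map_cons, ih, Multiset.singleton_add]

lemma post_sum_fiber {I W A : Type} [Fintype I] [Fintype W] (c : I → W) (g : I → A) :
    ∑ w, (univ.filter fun i => c i = w).val.map g = ∑ i, ({g i} : Multiset A) := by
  simp only [post_map_eq_sum]
  exact Finset.sum_fiberwise univ c fun i => ({g i} : Multiset A)

lemma post_number {I W : Type} [Fintype I] (c : I → W) (K : ℕ)
    (h : ∀ w, (cnt fun i => c i = w) ≤ K) :
    ∃ m : I → Fin K, ∀ i j, c i = c j → m i = m j → i = j := by
  have h1 : ∀ w, Nonempty ({i // c i = w} ↪ Fin K) := fun w =>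
    Function.Embedding.nonempty_of_card_le (by
      rw [Fintype.card_fin, Fintype.card_subtype, ← cnt_def]; exact h w)
  let e : ∀ w, {i // c i = w} ↪ Fin K := fun w => (h1 w).some
  have h2 : ∀ w w' i j (hi : c i = w) (hj : c j = w'), w = w' → e w ⟨i, hi⟩ = e w' ⟨j, hj⟩ →
      i = j := by
    intro w w' i j hi hj hw he
    subst hw
    exact congrArg Subtype.val ((e _).injective he)
  exact ⟨fun i => e (c i) ⟨i, rfl⟩, fun i j hc hm => h2 _ _ i j rfl rfl hc hm⟩

lemma post_place {V W Λ E T : Type} [Fintype W] [Fintype Λ] [Fintype E] [Fintype T]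
    {F : SimpleGraph Λ} {M K L : ℕ} (Ly : Layout F M K L) (u v : E → V) (y : T → V)
    (c : E ⊕ T → W) (hK : ∀ w, (cnt fun i => c i = w) ≤ K) (dom : W → Finset Λ)
    (hd : ∀ w, Disjoint (dom w) Ly.Post) (f : W → Λ → V) :
    ∃ (nw : W → Finset Λ) (f1 : W → Λ → V), (∀ w, ∀ x ∈ nw w, ∃ m i, Ly.res m i = x) ∧
      (∀ w, ∀ x ∈ dom w, f1 w x = f w x) ∧
      edgesOf F nw f1 = ∑ e, ({s(u e, v e)} : Multiset (Sym2 V)) ∧
      slotsOf nw f1 = ∑ t, ({(y t, c (Sum.inr t))} : Multiset (V × W)) +
        ∑ e, ({(u e, c (Sum.inl e)), (v e, c (Sum.inl e))} : Multiset (V × W)) := by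
  obtain ⟨m, hm⟩ := post_number c K hK
  let item : (E × Bool) ⊕ T → E ⊕ T := Sum.map Prod.fst id
  let side : (E × Bool) ⊕ T → Bool := Sum.elim Prod.snd fun _ => false
  let vx : (E × Bool) ⊕ T → V := Sum.elim (fun q => if q.2 then v q.1 else u q.1) y
  let pos : (E × Bool) ⊕ T → Λ := fun p => Ly.res (m (item p)) (side p)
  have his : ∀ p q, item p = item q → side p = side q → p = q := by
    rintro (⟨e, i⟩ | t) (⟨e', i'⟩ | t') <;> simp +contextual [item, side]
  have hinj : Function.Injective fun p => (c (item p), pos p) := by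
    intro p q h
    obtain ⟨h1, h2⟩ := Prod.ext_iff.1 h
    obtain ⟨h3, h4⟩ := Ly.res_inj _ _ _ _ h2
    exact his p q (hm _ _ h1 h3) h4
  let nw : W → Finset Λ := fun w => (univ.filter fun p => c (item p) = w).image pos
  let g : W × Λ → V := Function.extend (fun p => (c (item p), pos p)) vx fun q => f q.1 q.2
  have hg : ∀ p, g (c (item p), pos p) = vx p := fun p => hinj.extend_apply _ _ p
  have hmem : ∀ w x, x ∈ nw w ↔ ∃ p, c (item p) = w ∧ pos p = x := by simp [nw]
  refine ⟨nw, fun w x => g (w, x), fun w x hx => ?_, fun w x hx => ?_, ?_, ?_⟩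
  · obtain ⟨p, -, rfl⟩ := (hmem w x).1 hx
    exact ⟨_, _, rfl⟩
  · refine Function.extend_apply' _ _ _ ?_
    rintro ⟨p, hp⟩
    obtain ⟨-, h2⟩ := Prod.ext_iff.1 hp
    have h3 : pos p = x := h2
    exact Finset.disjoint_left.1 (hd w) hx (h3 ▸ Ly.res_post _ _)
  · rw [← post_sum_fiber (fun e => c (Sum.inl e)) fun e => s(u e, v e)]
    refine Finset.sum_congr rfl fun w _ => ?_
    let ed : E → Sym2 Λ := fun e => s(pos (Sum.inl (e, false)), pos (Sum.inl (e, true)))
    have h1 : (univ.filter fun e : Sym2 Λ => e ∈ F.edgeSet ∧ ∀ a ∈ e, a ∈ nw w) =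
        (univ.filter fun e => c (Sum.inl e) = w).image ed := by
      ext e
      simp only [Finset.mem_filter, Finset.mem_univ, true_and, Finset.mem_image]
      constructor
      · induction e using Sym2.ind with
        | h a b =>
          rintro ⟨hab, hnw⟩
          obtain ⟨p, hp, rfl⟩ := (hmem w a).1 (hnw a (Sym2.mem_mk_left _ _))
          obtain ⟨q, hq, rfl⟩ := (hmem w b).1 (hnw b (Sym2.mem_mk_right _ _))
          have h2 : item p = item q := hm _ _ (hp.trans hq.symm) (Ly.res_sep _ _ _ _ hab)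
          have h3 : p ≠ q := fun h => by subst h; exact F.irrefl hab
          rcases p with ⟨e, i⟩ | t <;> rcases q with ⟨e', i'⟩ | t'
          · obtain rfl : e = e' := by simpa [item] using h2
            refine ⟨e, hp, ?_⟩
            cases i <;> cases i'
            · exact absurd rfl h3
            · rfl
            · exact Sym2.eq_swap
            · exact absurd rfl h3
          · simp [item] at h2
          · simp [item] at h2
          · obtain rfl : t = t' := by simpa [item] using h2
            exact absurd rfl h3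
      · rintro ⟨e, he, rfl⟩
        refine ⟨Ly.res_adj _, fun a ha => ?_⟩
        rcases Sym2.mem_iff.1 ha with rfl | rfl
        · exact (hmem w _).2 ⟨Sum.inl (e, false), he, rfl⟩
        · exact (hmem w _).2 ⟨Sum.inl (e, true), he, rfl⟩
    rw [h1, Finset.image_val_of_injOn, Multiset.map_map]
    · refine Multiset.map_congr rfl fun e he => ?_
      have he' : c (Sum.inl e) = w := by simpa using he
      subst he'
      change s(g (c (item (Sum.inl (e, false))), _), g (c (item (Sum.inl (e, true))), _)) = _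
      rw [hg, hg]
      simp [vx]
    · intro e he e' he' h
      have h2 : c (Sum.inl e) = c (Sum.inl e') := by
        simp only [Finset.coe_filter, Finset.mem_univ, true_and, Set.mem_ofPred_eq] at he he'
        exact he.trans he'.symm
      have h3 : m (Sum.inl e) = m (Sum.inl e') := by
        rcases Sym2.eq_iff.1 h with ⟨h4, -⟩ | ⟨h4, -⟩ <;> exact (Ly.res_inj _ _ _ _ h4).1
      exact Sum.inl_injective (hm _ _ h2 h3)
  · have h1 : slotsOf nw (fun w x => g (w, x)) =
        ∑ p, ({(vx p, c (item p))} : Multiset (V × W)) := by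
      rw [← post_sum_fiber (fun p => c (item p)) fun p => (vx p, c (item p))]
      refine Finset.sum_congr rfl fun w _ => ?_
      rw [Finset.image_val_of_injOn, Multiset.map_map]
      · refine Multiset.map_congr rfl fun p hp => ?_
        have hp' : c (item p) = w := by simpa using hp
        subst hp'
        simp only [Function.comp_apply, hg]
      · intro p hp q hq h
        simp only [Finset.coe_filter, Finset.mem_univ, true_and, Set.mem_ofPred_eq] at hp hq
        exact hinj (Prod.ext (hp.trans hq.symm) h)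
    rw [h1, Fintype.sum_sum_type, add_comm, Fintype.sum_prod_type]
    congr 1
    refine Finset.sum_congr rfl fun e _ => ?_
    simp [vx, item, add_comm]

lemma post_map_sum {I A B : Type} (s : Finset I) (g : I → Multiset A) (h : A → B) :
    (∑ i ∈ s, g i).map h = ∑ i ∈ s, (g i).map h :=
  map_sum (Multiset.mapAddMonoidHom h) g s

lemma post_card_bd {V : Type} (X : Multiset (Sym2 V)) : (bd X).card = 2 * X.card := by
  induction X using Multiset.induction_on with
  | empty => simp
  | cons e X ih =>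
    induction e using Sym2.ind with
    | h a b => simp [ih]; ring

lemma post_cnt_sum {E T : Type} [Fintype E] [Fintype T] (p : E ⊕ T → Prop) :
    cnt p = (cnt fun e => p (Sum.inl e)) + cnt fun t => p (Sum.inr t) := by
  simp only [cnt_eq_sum, Fintype.sum_sum_type]

/-- Covering the leftover edges and slots and embedding the rest. -/
theorem post (a : ℝ) (ha : 0 < a) : ∃ κ : ℝ, 0 < κ ∧ ∀ κ0 : ℝ, 0 < κ0 → ∃ γ : ℝ, 0 < γ ∧
    ∃ n0 : ℕ, ∀ (V W Λ : Type) [Fintype V] [Fintype W] [Fintype Λ] (F : SimpleGraph Λ)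
      (M K L : ℕ) (Ly : Layout F M K L) (X0 : Finset (Sym2 V)) (Z LS : Finset (V × W))
      (LE : Multiset (Sym2 V)) (dom tgt : W → Finset Λ) (f : W → Λ → V),
      n0 ≤ Fintype.card V → Fintype.card W ≤ Fintype.card V →
      (∀ x, (cnt fun y => F.Adj x y) = 2) → F.Colorable 2 →
      κ0 * Fintype.card V ≤ K → κ0 ≤ κ → (∀ e ∈ X0, ¬ e.IsDiag) →
      (∀ (w : W) (S : Finset V), S.card ≤ 2 →
        a * Fintype.card V ≤ (cnt fun z => (z, w) ∈ Z ∧ ∀ q ∈ S, s(z, q) ∈ X0 : ℕ)) →
      (∀ u v, a * Fintype.card V ≤ (cnt fun w => (u, w) ∈ Z ∧ (v, w) ∈ Z : ℕ)) →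
      (∀ w, dom w ⊆ tgt w) → (∀ w, Ly.Post ⊆ tgt w) → (∀ w, Disjoint (dom w) Ly.Post) →
      (slotsOf dom f + LS.val + Z.val).Nodup → LE.Nodup → (∀ e ∈ LE, ¬ e.IsDiag) →
      (∀ v, (((bd LE).count v : ℕ) : ℝ) ≤ γ * Fintype.card V) →
      (∀ v, (((LS.val.map Prod.fst).count v : ℕ) : ℝ) ≤ γ * Fintype.card V) →
      (∀ w, (((LS.val.map Prod.snd).count w : ℕ) : ℝ) ≤ γ * Fintype.card V) →
      (∀ v, (((outOf F dom tgt f).count v : ℕ) : ℝ) ≤ γ * Fintype.card V) →
      (∀ w, ((tgt w \ dom w).card : ℝ) ≤ κ * Fintype.card V) →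
      ∃ (f' : W → Λ → V) (B : Multiset (Sym2 V)) (S' : Multiset (V × W)),
        (∀ w, ∀ x ∈ dom w, f' w x = f w x) ∧ edgesOf F tgt f' = edgesOf F dom f + LE + B ∧
        slotsOf tgt f' = slotsOf dom f + LS.val + S' ∧ B ≤ X0.val ∧ S' ≤ Z.val := by
  obtain ⟨b, hb, hext⟩ := extend (a / 2) (by positivity)
  obtain ⟨t, ht, n1, hext⟩ := hext 1 one_pos
  obtain ⟨bw, hbw, hpick⟩ := pickW_raw a ha
  refine ⟨min (min b t) (a / 2), by positivity, fun κ0 hκ0 => ?_⟩
  obtain ⟨tw, htw, hpick⟩ := hpick (κ0 / 2) (by positivity)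
  obtain ⟨n2, hn2⟩ := exists_nat_ge (1 / tw)
  refine ⟨min (min (κ0 / 2) (b / 5)) (min bw tw), by positivity, max n1 n2, ?_⟩
  intro V W Λ _ _ _ F M K L Ly X0 Z LS LE dom tgt f hn hW h2 hcol hK hκ hX0 hZ hZ2 hdt hPt hdP
    hnd hLE hLEd hdeg hLS1 hLS2 hout htd
  set n : ℝ := (Fintype.card V : ℝ) with hndef
  have hn0 : 0 ≤ n := Nat.cast_nonneg _
  set γ := min (min (κ0 / 2) (b / 5)) (min bw tw)
  have hγ1 : γ ≤ κ0 / 2 := (min_le_left _ _).trans (min_le_left _ _)
  have hγ2 : γ ≤ b / 5 := (min_le_left _ _).trans (min_le_right _ _)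
  have hγ3 : γ ≤ bw := (min_le_right _ _).trans (min_le_left _ _)
  have hγ4 : γ ≤ tw := (min_le_right _ _).trans (min_le_right _ _)
  set κ := min (min b t) (a / 2)
  have hκ1 : κ ≤ b := (min_le_left _ _).trans (min_le_left _ _)
  have hκ2 : κ ≤ t := (min_le_left _ _).trans (min_le_right _ _)
  have hκ3 : κ ≤ a / 2 := min_le_right _ _
  have hex : ∀ e : LE.toFinset, ∃ u v : V, s(u, v) = e.1 ∧ u ≠ v := fun e => by
    obtain ⟨e, he⟩ := e
    induction e using Sym2.ind with
    | h u v => exact ⟨u, v, rfl, by simpa using hLEd _ (Multiset.mem_toFinset.1 he)⟩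
  choose u v huv hne using hex
  have hLEsum : ∑ e : LE.toFinset, ({s(u e, v e)} : Multiset (Sym2 V)) = LE := by
    simp only [huv]
    rw [Finset.sum_coe_sort LE.toFinset fun e => ({e} : Multiset (Sym2 V)), ← post_map_eq_sum,
      Multiset.map_id', Multiset.toFinset_val, hLE.dedup]
  have hLSsum : ∑ s : LS, ({(s.1.1, s.1.2)} : Multiset (V × W)) = LS.val := by
    rw [Finset.sum_coe_sort LS fun e => ({e} : Multiset (V × W)), ← post_map_eq_sum,
      Multiset.map_id']
  obtain ⟨z, hz, hznd, hzl⟩ := hpick V W LE.toFinset (fun e => {u e, v e})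
    (fun e => univ.filter fun w => (u e, w) ∈ Z ∧ (v e, w) ∈ Z) (fun _ => 0)
    (fun e => Finset.card_le_two.trans (by norm_num))
    (fun e => by rw [← cnt_def]; exact hZ2 _ _)
    (fun x => by
      refine le_trans ?_ ((hdeg x).trans (mul_le_mul_of_nonneg_right hγ3 hn0))
      refine Nat.cast_le.2 (le_trans ?_ (countP_le_count_bd x LE))
      rw [Multiset.countP_eq_card_filter, ← Multiset.toFinset_card_of_nodup (hLE.filter _),
        cnt_def]
      refine Finset.card_le_card_of_injOn Subtype.val (fun e he => ?_)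
        Subtype.val_injective.injOn
      simp only [Finset.coe_filter, Finset.mem_univ, true_and, Set.mem_ofPred_eq] at he
      simp only [Finset.mem_coe, Multiset.mem_toFinset, Multiset.mem_filter]
      refine ⟨Multiset.mem_toFinset.1 e.2, ?_⟩
      rw [← huv e]
      simpa using he)
    (fun _ => by
      have h1 : (n2 : ℝ) ≤ n := Nat.cast_le.2 ((le_max_right _ _).trans hn)
      have h3 : 1 / tw ≤ n := hn2.trans h1
      rw [div_le_iff₀ htw] at h3
      simpa [mul_comm] using h3)
    (by
      have h1 : ((bd LE).card : ℝ) ≤ n * (γ * n) := by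
        rw [← Multiset.sum_count_eq_card (s := univ) fun _ _ => Finset.mem_univ _]
        push_cast
        refine (Finset.sum_le_sum fun x _ => hdeg x).trans (le_of_eq ?_)
        simp [hndef]
      rw [post_card_bd] at h1
      push_cast at h1
      have h3 : (0 : ℝ) ≤ LE.card := Nat.cast_nonneg _
      have h4 := mul_le_mul_of_nonneg_right hγ4 (mul_nonneg hn0 hn0)
      simp only [Nat.cast_zero, zero_add, Finset.sum_const, Finset.card_univ, Fintype.card_coe,
        nsmul_eq_mul, mul_one, Multiset.toFinset_card_of_nodup hLE]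
      nlinarith)
  have hzc : ∀ w, ((cnt fun e => z e = w : ℕ) : ℝ) ≤ κ0 / 2 * n := fun w =>
    (Nat.cast_le.2 (cnt_le_wsum _ fun _ => 0)).trans (hzl w)
  set S1 : Multiset (V × W) := ∑ e : LE.toFinset, {(u e, z e), (v e, z e)} with hS1
  have hS1nd : S1.Nodup := by
    have e1 : S1 = ∑ i : LE.toFinset, ({u i, v i} : Finset V).val.map fun x => (x, z i) := by
      refine Finset.sum_congr rfl fun e _ => ?_
      rw [Finset.insert_val_of_notMem (by simpa using hne e)]
      simp
    rwa [e1]
  have hS1Z : S1 ≤ Z.val := by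
    refine (Multiset.le_iff_subset hS1nd).2 fun s hs => ?_
    obtain ⟨e, -, he⟩ := Multiset.mem_sum.1 hs
    have := (Finset.mem_filter.1 (hz e)).2
    simp only [Multiset.insert_eq_cons, Multiset.mem_cons, Multiset.mem_singleton] at he
    rcases he with rfl | rfl
    exacts [this.1, this.2]
  have hS1f : S1.map Prod.fst = bd LE := by
    rw [← hLEsum, bd_sum, hS1, post_map_sum]
    simp
  have hS1s : ∀ w, (S1.map Prod.snd).count w = 2 * cnt fun e => z e = w := fun w => by
    rw [hS1, post_map_sum, Multiset.count_sum', cnt_eq_sum, Finset.mul_sum]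
    refine Finset.sum_congr rfl fun e _ => ?_
    by_cases h : z e = w
    · simp [h]
    · simp [h, Ne.symm h]
  obtain ⟨nw, f1, hnw, hf1, hE, hS⟩ := post_place Ly u v (fun s : LS => s.1.1)
    (Sum.elim z fun s : LS => s.1.2) (fun w => by
      have h1 : (cnt fun s : LS => s.1.2 = w) ≤ (LS.val.map Prod.snd).count w := by
        rw [count_snd_eq_cnt LS.nodup]
        refine cnt_le_of_injOn (fun s => s.1.1) (fun s hs => ?_) fun s s' hs hs' h => ?_
        · rw [← hs]; exact s.2
        · exact Subtype.ext (Prod.ext h (hs.trans hs'.symm))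
      have h3 := (Nat.cast_le.2 h1).trans ((hLS2 w).trans (mul_le_mul_of_nonneg_right hγ1 hn0))
      rw [post_cnt_sum, ← Nat.cast_le (α := ℝ)]
      push_cast
      simp only [Sum.elim_inl, Sum.elim_inr]
      linarith [hzc w]) dom hdP f
  simp only [Sum.elim_inl, Sum.elim_inr] at hS
  rw [hLSsum] at hS
  rw [hLEsum] at hE
  have hnwP : ∀ w, nw w ⊆ Ly.Post := fun w x hx => by
    obtain ⟨m, i, rfl⟩ := hnw w x hx
    exact Ly.res_post m i
  have hdisj : ∀ w, Disjoint (dom w) (nw w) := fun w => (hdP w).mono_right (hnwP w)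
  have hnadj : ∀ w, ∀ x ∈ dom w, ∀ y ∈ nw w, ¬ F.Adj x y := fun w x hx y hy hxy => by
    obtain ⟨m, i, rfl⟩ := hnw w y hy
    exact Finset.disjoint_left.1 (hdP w) hx (Ly.res_nb m i x hxy.symm)
  have hslots : slotsOf (fun w => dom w ∪ nw w) f1 = slotsOf dom f + LS.val + S1 := by
    rw [slotsOf_union f1 hdisj, slotsOf_congr hf1, hS, add_assoc]
  have hedges : edgesOf F (fun w => dom w ∪ nw w) f1 = edgesOf F dom f + LE := by
    rw [edgesOf_union F f1 hdisj hnadj, edgesOf_congr F hf1, hE]
  obtain ⟨Y, hY, hsplit⟩ : ∃ Y : Finset (V × W), (∀ s, s ∈ Z → s ∉ S1 → s ∈ Y) ∧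
      Z.val = Y.val + S1 := by
    refine ⟨_, fun s h h' => ?_, val_split Z hS1Z⟩
    simp [h, h']
  have hsd : ∀ w, ((tgt w \ (dom w ∪ nw w)).card : ℝ) ≤ κ * n := fun w =>
    (Nat.cast_le.2 (Finset.card_le_card
      (Finset.sdiff_subset_sdiff subset_rfl Finset.subset_union_left))).trans (htd w)
  obtain ⟨f', B, S', h1, h3, h4, h5, h6, h7, -, -⟩ := hext V W Λ F (SimpleGraph.fromEdgeSet X0)
    Y (fun w => dom w ∪ nw w) tgt f1 ((le_max_left _ _).trans hn) h2 hcol
    (fun w => Finset.union_subset (hdt w) ((hnwP w).trans (hPt w)))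
    (by rwa [hslots, add_assoc, add_comm S1, ← hsplit])
    (fun w S hS2 => by
      have e1 : (cnt fun x => (x, w) ∈ Z ∧ ∀ q ∈ S, s(x, q) ∈ X0) ≤
          (cnt fun x => (x, w) ∈ Y ∧
            ∀ q ∈ S, (SimpleGraph.fromEdgeSet (X0 : Set (Sym2 V))).Adj x q) +
          cnt fun x => (x, w) ∈ S1 := by
        refine le_trans (cnt_mono fun x hx => ?_) (cnt_or_le _ _)
        by_cases h : (x, w) ∈ S1
        · exact Or.inr h
        · refine Or.inl ⟨hY _ hx.1 h, fun q hq => ?_⟩
          rw [SimpleGraph.fromEdgeSet_adj]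
          exact ⟨hx.2 q hq, by simpa using hX0 _ (hx.2 q hq)⟩
      rw [← count_snd_eq_cnt hS1nd, hS1s] at e1
      have e2 := (hZ w S hS2).trans (Nat.cast_le.2 e1)
      push_cast at e2
      have e3 := mul_le_mul_of_nonneg_right (hκ.trans hκ3) hn0
      linarith [hzc w])
    (fun x => by
      have e1 := Multiset.count_le_of_le x (outOf_union_le F dom nw tgt f1)
      have e2 : outOf F nw tgt f1 ≤ 2 • (slotsOf nw f1).map Prod.fst := by
        rw [← bd_edgesOf F h2]
        exact (outOf_mono F nw f1 fun w => Finset.subset_univ _).trans (Multiset.le_add_left _ _)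
      have e3 := Multiset.count_le_of_le x e2
      rw [hS, Multiset.count_nsmul, Multiset.map_add, Multiset.count_add, hS1f] at e3
      rw [Multiset.count_add, outOf_congr F tgt hf1] at e1
      have e4 : (((outOf F (fun w => dom w ∪ nw w) tgt f1).count x : ℕ) : ℝ) ≤
          ((outOf F dom tgt f).count x : ℕ) +
            2 * ((((LS.val.map Prod.fst).count x : ℕ) : ℝ) + ((bd LE).count x : ℕ)) := by
        exact_mod_cast e1.trans (Nat.add_le_add_left e3 _)
      have e5 := mul_le_mul_of_nonneg_right hγ2 hn0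
      linarith [hout x, hLS1 x, hdeg x])
    (fun w => (hsd w).trans (mul_le_mul_of_nonneg_right hκ1 hn0))
    (by
      refine (Finset.sum_le_sum fun w _ => hsd w).trans ?_
      have e1 : (Fintype.card W : ℝ) ≤ n := Nat.cast_le.2 hW
      have e2 : 0 ≤ κ * n := mul_nonneg (hκ0.le.trans hκ) hn0
      have e3 := mul_le_mul_of_nonneg_right hκ2 (mul_nonneg hn0 hn0)
      simp only [Finset.sum_const, Finset.card_univ, nsmul_eq_mul]
      nlinarith)
  refine ⟨f', B, S1 + S', fun w x hx => ?_, ?_, ?_, ?_, ?_⟩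
  · rw [h1 w x (Finset.mem_union_left _ hx), hf1 w x hx]
  · rw [h3, hedges]
  · rw [h4, hslots, add_assoc]
  · refine (Multiset.le_iff_subset h5).2 fun e he => ?_
    have := h6 e he
    rw [SimpleGraph.edgeSet_fromEdgeSet] at this
    exact this.1
  · rw [hsplit, add_comm]
    exact add_le_add h7 le_rfl

end Pool.Agent.Lib.MP_34bdde_co
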