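import Mathlib
import Pool.Agent.Lib.MP_34bdde_co.Prob

set_option autoImplicit false

open Finset
open scoped Classical

noncomputable section

namespace Pool.Agent.Lib.MP_34bdde_co

section

variable {ι I : Type} [Fintype ι] [Fintype I] {p : ι → ℝ}

/-- Number of admissible `z` whose block `T z` is contained in `A`. -/
def blk {ι I : Type} [Fintype I] (q : I → Prop) (T : I → Finset ι) (A : Finset ι) : ℝ :=
  (cnt fun z => q z ∧ T z ⊆ A : ℕ)

omit [Fintype ι] in
lemma blk_eq_sum (q : I → Prop) (T : I → Finset ι) (A : Finset ι) :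
    blk q T A = ∑ z ∈ univ.filter q, if T z ⊆ A then (1 : ℝ) else 0 := by
  unfold blk
  rw [cnt_eq_sum, Finset.sum_filter]
  push_cast
  refine Finset.sum_congr rfl fun z _ => ?_
  by_cases h1 : q z <;> by_cases h2 : T z ⊆ A <;> simp [h1, h2]

lemma Ex_blk (q : I → Prop) (T : I → Finset ι) :
    Ex p (blk q T) = ∑ z ∈ univ.filter q, ∏ i ∈ T z, p i := by
  rw [show blk q T = fun A => ∑ z ∈ univ.filter q, if T z ⊆ A then (1 : ℝ) else 0 from
    funext (blk_eq_sum q T), Ex_sum]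
  refine Finset.sum_congr rfl fun z _ => ?_
  have := Ex_cyl (p := p) (T z) ∅ (Finset.disjoint_empty_right _)
  simpa using this

lemma le_Ex_blk (q : I → Prop) (T : I → Finset ι) {a : ℝ} (h : ∀ z, q z → a ≤ ∏ i ∈ T z, p i) :
    a * (cnt q : ℕ) ≤ Ex p (blk q T) := by
  rw [Ex_blk, cnt, mul_comm, ← nsmul_eq_mul]
  exact Finset.card_nsmul_le_sum _ _ _ fun z hz => h z (Finset.mem_filter.mp hz).2

lemma Ex_blk_le (q : I → Prop) (T : I → Finset ι) {a : ℝ} (h : ∀ z, q z → ∏ i ∈ T z, p i ≤ a) :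
    Ex p (blk q T) ≤ a * (cnt q : ℕ) := by
  rw [Ex_blk, cnt, mul_comm, ← nsmul_eq_mul]
  exact Finset.sum_le_card_nsmul _ _ _ fun z hz => h z (Finset.mem_filter.mp hz).2

lemma blk_conc (hp : ∀ i, 0 ≤ p i ∧ p i ≤ 1) (q : I → Prop) (T : I → Finset ι)
    (hT : ∀ z, (T z).card ≤ 3)
    (hd : ∀ z z' i, q z → q z' → i ∈ T z → i ∈ T z' → z = z') {δ n : ℝ} (hδ : 0 ≤ δ)
    (hδ1 : δ ≤ 1) (hn : (Fintype.card I : ℝ) ≤ n) :
    Ex p (fun A => if δ * n ≤ |blk q T A - Ex p (blk q T)| then 1 else 0) ≤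
      2 * Real.exp (-(δ ^ 2 / 12 * n)) := by
  have key := bern hp (blk q T) (fun i => if ∃ z, q z ∧ i ∈ T z then 1 else 0) 1 (3 * n) (δ * n)
    (δ / 6) ?_ (fun i => by split_ifs <;> norm_num) ?_ (by positivity) (by linarith)
  · refine key.trans (le_of_eq ?_)
    congr 2
    ring
  · intro A i _
    rw [blk_eq_sum, blk_eq_sum, ← Finset.sum_sub_distrib]
    have hz : ∀ z, i ∉ T z → ((if T z ⊆ insert i A then (1 : ℝ) else 0) -
        if T z ⊆ A then (1 : ℝ) else 0) = 0 := fun z hz => by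
      simp only [Finset.subset_insert_iff_of_notMem hz, sub_self]
    split_ifs with h
    · obtain ⟨z, hq, hi⟩ := h
      rw [Finset.sum_eq_single z]
      · split_ifs <;> norm_num
      · intro z' hz' hne
        exact hz z' fun hi' => hne (hd z' z i (Finset.mem_filter.mp hz').2 hq hi' hi)
      · intro hz'
        exact absurd (Finset.mem_filter.mpr ⟨Finset.mem_univ _, hq⟩) hz'
    · rw [Finset.sum_eq_zero, abs_zero]
      intro z hz'
      exact hz z fun hi => h ⟨z, (Finset.mem_filter.mp hz').2, hi⟩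
  · calc ∑ i, p i * (if ∃ z, q z ∧ i ∈ T z then (1 : ℝ) else 0) ^ 2
        ≤ ∑ i, ∑ z, if i ∈ T z then (1 : ℝ) else 0 := by
          refine Finset.sum_le_sum fun i _ => ?_
          have hnn : ∀ z ∈ (univ : Finset I), (0 : ℝ) ≤ if i ∈ T z then 1 else 0 :=
            fun z _ => by split_ifs <;> norm_num
          split_ifs with h
          · obtain ⟨z, -, hi⟩ := h
            refine le_trans ?_ (Finset.single_le_sum hnn (Finset.mem_univ z))
            rw [if_pos hi, one_pow, mul_one]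
            exact (hp i).2
          · simp
      _ = ∑ z, ((T z).card : ℝ) := by
          rw [Finset.sum_comm]
          refine Finset.sum_congr rfl fun z _ => ?_
          simp
      _ ≤ ∑ _z : I, (3 : ℝ) := Finset.sum_le_sum fun z _ => by exact_mod_cast hT z
      _ ≤ 3 * n := by
          rw [Finset.sum_const, Finset.card_univ, nsmul_eq_mul]
          linarith

lemma exists_all_close (hp : ∀ i, 0 ≤ p i ∧ p i ≤ 1) {J : Type} [Fintype J]
    (X : J → Finset ι → ℝ) {t b : ℝ}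
    (hX : ∀ j, Ex p (fun A => if t ≤ |X j A - Ex p (X j)| then 1 else 0) ≤ b)
    (hJ : Fintype.card J * b < 1) :
    ∃ A, (∀ j, |X j A - Ex p (X j)| < t) ∧ ∀ i ∈ A, p i ≠ 0 := by
  have h1 := Ex_union hp (univ : Finset J) fun j A => t ≤ |X j A - Ex p (X j)|
  have h2 : ∑ j : J, Ex p (fun A => if t ≤ |X j A - Ex p (X j)| then (1 : ℝ) else 0) ≤
      Fintype.card J * b := by
    rw [← Finset.card_univ, ← nsmul_eq_mul]
    exact Finset.sum_le_card_nsmul _ _ _ fun j _ => hX j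
  have h3 : ∀ (P : Finset ι → Prop) (d d' : DecidablePred P),
      (Ex p fun A => @ite ℝ (P A) (d A) 1 0) = Ex p fun A => @ite ℝ (P A) (d' A) 1 0 := by
    intro P d d'
    rw [Subsingleton.elim d d']
  obtain ⟨A, hA, hA'⟩ := exists_of_Ex_lt_one hp
    (fun A => ∃ j ∈ (univ : Finset J), t ≤ |X j A - Ex p (X j)|) (by
      refine lt_of_le_of_lt (le_of_eq (h3 _ _ _)) (lt_of_le_of_lt h1 (lt_of_le_of_lt ?_ hJ))
      refine le_trans (le_of_eq (Finset.sum_congr rfl fun j _ => h3 _ _ _)) h2)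
  exact ⟨A, fun j => not_le.mp fun h => hA ⟨j, Finset.mem_univ _, h⟩, hA'⟩

end

lemma count_bd_eq {V : Type} [Fintype V] (G : SimpleGraph V) (X : Finset (Sym2 V))
    (hX : ∀ e ∈ X, e ∈ G.edgeSet) (v : V) :
    (bd X.val).count v = cnt fun z => G.Adj z v ∧ s(z, v) ∈ X := by
  have h1 : (bd X.val).count v = (X.filter fun e => v ∈ e).card := by
    unfold bd
    rw [Multiset.count_bind, Finset.card_filter]
    refine Finset.sum_congr rfl fun e he => ?_
    have he' := hX e he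
    induction e using Sym2.ind with
    | _ a b =>
      have hab : a ≠ b := G.ne_of_adj he'
      show Multiset.count v ({a, b} : Multiset V) = _
      rw [Multiset.insert_eq_cons, Multiset.count_cons, Multiset.count_singleton]
      by_cases h1 : v = a
      · subst h1
        simp [hab]
      · by_cases h2 : v = b
        · subst h2
          simp [h1]
        · simp [h1, h2]
  rw [h1, cnt_def]
  symm
  refine Finset.card_bij (fun z _ => s(z, v)) (fun z hz => ?_) (fun z _ z' _ h => ?_)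
    (fun e he => ?_)
  · exact Finset.mem_filter.mpr ⟨(Finset.mem_filter.mp hz).2.2, Sym2.mem_mk_right _ _⟩
  · exact Sym2.congr_left.mp h
  · obtain ⟨he1, he2⟩ := Finset.mem_filter.mp he
    obtain ⟨z, rfl⟩ := Sym2.mem_iff_exists.mp he2
    refine ⟨z, Finset.mem_filter.mpr ⟨Finset.mem_univ _, ?_, ?_⟩, Sym2.eq_swap⟩
    · exact G.adj_symm (hX _ he1)
    · rwa [Sym2.eq_swap]

lemma count_fst_eq {V W : Type} [Fintype W] (Z : Finset (V × W)) (v : V) :
    (Z.val.map Prod.fst).count v = cnt fun w => (v, w) ∈ Z := by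
  rw [Multiset.count_map, cnt_def]
  symm
  refine Finset.card_bij (t := Z.filter fun x => v = x.1) (fun w _ => (v, w)) (fun w hw => ?_)
    (fun w _ w' _ h => (Prod.mk.inj h).2) (fun x hx => ?_)
  · exact Finset.mem_filter.mpr ⟨(Finset.mem_filter.mp hw).2, rfl⟩
  · obtain ⟨h1, rfl⟩ := Finset.mem_filter.mp hx
    exact ⟨x.2, Finset.mem_filter.mpr ⟨Finset.mem_univ _, h1⟩, rfl⟩

lemma count_snd_eq {V W : Type} [Fintype V] (Z : Finset (V × W)) (w : W) :
    (Z.val.map Prod.snd).count w = cnt fun v => (v, w) ∈ Z := by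
  rw [Multiset.count_map, cnt_def]
  symm
  refine Finset.card_bij (t := Z.filter fun x => w = x.2) (fun v _ => (v, w)) (fun v hv => ?_)
    (fun v _ v' _ h => (Prod.mk.inj h).1) (fun x hx => ?_)
  · exact Finset.mem_filter.mpr ⟨(Finset.mem_filter.mp hv).2, rfl⟩
  · obtain ⟨h1, rfl⟩ := Finset.mem_filter.mp hx
    exact ⟨x.1, Finset.mem_filter.mpr ⟨Finset.mem_univ _, h1⟩, rfl⟩

lemma cnt_congr {I : Type} [Fintype I] {p q : I → Prop} (h : ∀ i, p i ↔ q i) : cnt p = cnt q :=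
  le_antisymm (cnt_mono fun i => (h i).1) (cnt_mono fun i => (h i).2)

lemma blk_eq {ι I : Type} [Fintype I] (q : I → Prop) (T : I → Finset ι) (A : Finset ι)
    {r : I → Prop} (h : ∀ z, (q z ∧ T z ⊆ A) ↔ r z) : blk q T A = (cnt r : ℕ) := by
  unfold blk
  rw [cnt_congr h]

lemma cnt_true {I : Type} [Fintype I] : cnt (fun _ : I => True) = Fintype.card I := by
  simp [cnt]

lemma sq_le_prod_pair {ι : Type} [DecidableEq ι] (P : ι → ℝ) {a : ℝ} (h0 : 0 ≤ a) (h1 : a ≤ 1) {x y : ι}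
    (hx : P x = a) (hy : P y = a) : a ^ 2 ≤ ∏ i ∈ ({x, y} : Finset ι), P i := by
  by_cases h : x = y
  · subst h
    rw [Finset.pair_eq_singleton, Finset.prod_singleton, hx]
    nlinarith
  · rw [Finset.prod_pair h, hx, hy, sq]

lemma small_union {κ : ℝ} (hκ : 0 < κ) :
    ∃ n0 : ℕ, 1 ≤ n0 ∧ ∀ n : ℕ, n0 ≤ n → 5 * (n : ℝ) ^ 3 * (2 * Real.exp (-(κ * n))) < 1 := by
  refine ⟨⌈240 / κ ^ 4⌉₊ + 1, by omega, fun n hn => ?_⟩
  have h1 : 240 / κ ^ 4 < n := by
    have := Nat.le_ceil (240 / κ ^ 4)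
    have h2 : ((⌈240 / κ ^ 4⌉₊ + 1 : ℕ) : ℝ) ≤ n := by exact_mod_cast hn
    push_cast at h2
    linarith
  have hn0 : (0 : ℝ) < n := lt_trans (by positivity) h1
  have h2 := Real.pow_div_factorial_le_exp (κ * n) (by positivity) 4
  have h3 : 240 < n * κ ^ 4 := (div_lt_iff₀ (by positivity)).mp h1
  have h4 : ((Nat.factorial 4 : ℕ) : ℝ) = 24 := by norm_num [Nat.factorial]
  rw [h4] at h2
  have h5 : 10 * (n : ℝ) ^ 3 < Real.exp (κ * n) := by
    refine lt_of_lt_of_le ?_ h2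
    have : (0 : ℝ) < (n : ℝ) ^ 3 := by positivity
    rw [lt_div_iff₀ (by norm_num), mul_pow]
    nlinarith
  rw [Real.exp_neg]
  have h6 := Real.exp_pos (κ * n)
  rw [show 5 * (n : ℝ) ^ 3 * (2 * (Real.exp (κ * n))⁻¹) = 10 * (n : ℝ) ^ 3 / Real.exp (κ * n) by
    ring, div_lt_one h6]
  exact h5

/-- Random reserve of edges and slots. -/
theorem reserve (ε p ρ : ℝ) (hε : 0 < ε) (hp : 0 < p) (hp1 : p ≤ 1) (hρ : 0 < ρ) (hρ1 : ρ ≤ 1) :
    ∃ n0 : ℕ, ∀ (V W : Type) [Fintype V] [Fintype W] (G : SimpleGraph V),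
      n0 ≤ Fintype.card V → Dense G 2 ε → ε * Fintype.card V ≤ 2 * Fintype.card W →
      Fintype.card W ≤ Fintype.card V →
      ∃ (X0 : Finset (Sym2 V)) (Z : Finset (V × W)), (∀ e ∈ X0, e ∈ G.edgeSet) ∧
        (∀ v, ε * p / 2 * Fintype.card V ≤ ((bd X0.val).count v : ℕ) ∧
          (((bd X0.val).count v : ℕ) : ℝ) ≤ 2 * p * Fintype.card V) ∧
        (∀ v, (((Z.val.map Prod.fst).count v : ℕ) : ℝ) ≤ 2 * ρ * Fintype.card V) ∧
        (∀ w, (((Z.val.map Prod.snd).count w : ℕ) : ℝ) ≤ 2 * ρ * Fintype.card V) ∧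
        (∀ (w : W) (S : Finset V), S.card ≤ 2 → ε * p ^ 2 * ρ / 2 * Fintype.card V ≤
          (cnt fun z => (z, w) ∈ Z ∧ ∀ q ∈ S, s(z, q) ∈ X0 : ℕ)) ∧
        (∀ u v, ε * ρ ^ 2 / 8 * Fintype.card V ≤
          (cnt fun w => (u, w) ∈ Z ∧ (v, w) ∈ Z : ℕ)) := by
  obtain ⟨δ, hδ0, hδ1, hδ2, hδ3, hδ5⟩ : ∃ δ : ℝ, 0 < δ ∧ δ ≤ ε * p ^ 2 * ρ / 2 ∧
      δ ≤ ε * ρ ^ 2 / 8 ∧ δ ≤ p ∧ δ ≤ ρ :=
    ⟨min (min (ε * p ^ 2 * ρ / 2) (ε * ρ ^ 2 / 8)) (min p ρ), by positivity,
      (min_le_left _ _).trans (min_le_left _ _), (min_le_left _ _).trans (min_le_right _ _),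
      (min_le_right _ _).trans (min_le_left _ _), (min_le_right _ _).trans (min_le_right _ _)⟩
  have hδ4 : δ ≤ ε * p / 2 := by
    have h1 : p * ρ ≤ 1 := mul_le_one₀ hp1 hρ.le hρ1
    have h2 : 0 < ε * p := by positivity
    nlinarith
  obtain ⟨n0, hn1, hn0⟩ := small_union (κ := δ ^ 2 / 12) (by positivity)
  refine ⟨n0, fun V W _ _ G hV hG hW1 hW2 => ?_⟩
  set n : ℝ := (Fintype.card V : ℝ) with hn
  have hnV : 1 ≤ Fintype.card V := hn1.trans hV
  have hn1' : (1 : ℝ) ≤ n := by rw [hn]; exact_mod_cast hnV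
  have hW2' : (Fintype.card W : ℝ) ≤ n := by rw [hn]; exact_mod_cast hW2
  let P : Sym2 V ⊕ (V × W) → ℝ :=
    Sum.elim (fun e => if e ∈ G.edgeSet then p else 0) fun _ => ρ
  have hP : ∀ i, 0 ≤ P i ∧ P i ≤ 1 := by
    rintro (e | x)
    · simp only [P, Sum.elim_inl]
      split_ifs
      · exact ⟨hp.le, hp1⟩
      · norm_num
    · exact ⟨hρ.le, hρ1⟩
  have hPe : ∀ z v, G.Adj z v → P (Sum.inl s(z, v)) = p := fun z v h => by
    simp only [P, Sum.elim_inl]
    exact if_pos h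
  let X1 : V → Finset (Sym2 V ⊕ (V × W)) → ℝ :=
    fun v => blk (fun z => G.Adj z v) fun z => {Sum.inl s(z, v)}
  let X2 : V → Finset (Sym2 V ⊕ (V × W)) → ℝ :=
    fun v => blk (fun _ : W => True) fun w => {Sum.inr (v, w)}
  let X3 : W → Finset (Sym2 V ⊕ (V × W)) → ℝ :=
    fun w => blk (fun _ : V => True) fun v => {Sum.inr (v, w)}
  let X4 : W × V × V → Finset (Sym2 V ⊕ (V × W)) → ℝ :=
    fun j => blk (fun z => G.Adj z j.2.1 ∧ G.Adj z j.2.2)
      fun z => {Sum.inr (z, j.1), Sum.inl s(z, j.2.1), Sum.inl s(z, j.2.2)}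
  let X5 : V × V → Finset (Sym2 V ⊕ (V × W)) → ℝ :=
    fun j => blk (fun _ : W => True) fun w => {Sum.inr (j.1, w), Sum.inr (j.2, w)}
  obtain ⟨A, hA, hA0⟩ := exists_all_close hP
    (Sum.elim X1 (Sum.elim X2 (Sum.elim X3 (Sum.elim X4 X5)))) (t := δ * n)
    (b := 2 * Real.exp (-(δ ^ 2 / 12 * n))) (by
      rintro (v | v | w | ⟨w, a, b⟩ | ⟨a, b⟩)
      · refine blk_conc hP _ _ (fun z => by simp) ?_ hδ0.le (hδ3.trans hp1) le_rfl
        intro z z' i _ _ h h'
        rw [Finset.mem_singleton] at h h'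
        exact Sym2.congr_left.mp (Sum.inl.inj (h.symm.trans h'))
      · refine blk_conc hP _ _ (fun z => by simp) ?_ hδ0.le (hδ3.trans hp1) hW2'
        intro z z' i _ _ h h'
        rw [Finset.mem_singleton] at h h'
        exact (Prod.mk.inj (Sum.inr.inj (h.symm.trans h'))).2
      · refine blk_conc hP _ _ (fun z => by simp) ?_ hδ0.le (hδ3.trans hp1) le_rfl
        intro z z' i _ _ h h'
        rw [Finset.mem_singleton] at h h'
        exact (Prod.mk.inj (Sum.inr.inj (h.symm.trans h'))).1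
      · refine blk_conc hP _ _ (fun z => Finset.card_le_three) ?_ hδ0.le (hδ3.trans hp1) le_rfl
        intro z z' i hz hz' h h'
        have k1 := hz.1.ne
        have k2 := hz.2.ne
        simp only [Finset.mem_insert, Finset.mem_singleton] at h h' k1 k2
        rcases h with rfl | rfl | rfl <;> simp only [Sum.inr.injEq, Sum.inl.injEq, Prod.mk.injEq,
          reduceCtorEq, Sym2.eq_iff, false_or, or_false] at h' <;> tauto
      · refine blk_conc hP _ _ (fun z => Finset.card_le_two.trans (by norm_num)) ?_ hδ0.le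
          (hδ3.trans hp1) hW2'
        intro z z' i _ _ h h'
        simp only [Finset.mem_insert, Finset.mem_singleton] at h h'
        rcases h with rfl | rfl <;> simp only [Sum.inr.injEq, Prod.mk.injEq] at h' <;> tauto)
    (by
      refine lt_of_le_of_lt (mul_le_mul_of_nonneg_right ?_ (by positivity)) (hn0 _ hV)
      simp only [Fintype.card_sum, Fintype.card_prod]
      push_cast
      rw [← hn]
      have h0 : (0 : ℝ) ≤ Fintype.card W := Nat.cast_nonneg _
      have h2 : n ≤ n * n := by nlinarith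
      have h3 : n * n ≤ n ^ 3 := by nlinarith
      have h4 : (Fintype.card W : ℝ) * (n * n) ≤ n ^ 3 := by nlinarith
      linarith)
  have hX0 : ∀ e ∈ A.toLeft, e ∈ G.edgeSet := by
    intro e he
    have := hA0 _ (Finset.mem_toLeft.mp he)
    simp only [P, Sum.elim_inl] at this
    by_contra h
    exact this (if_neg h)
  have hδn : ∀ a, δ ≤ a → δ * n ≤ a * n := fun a h => mul_le_mul_of_nonneg_right h (by linarith)
  refine ⟨A.toLeft, A.toRight, hX0, fun v => ?_, fun v => ?_, fun w => ?_, fun w S hS => ?_,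
    fun u v => ?_⟩
  · have h1 := abs_lt.mp (hA (Sum.inl v))
    have h2 : X1 v A = ((bd A.toLeft.val).count v : ℕ) := by
      rw [count_bd_eq G _ hX0]
      exact blk_eq _ _ _ fun z => by simp
    have h3 : p * (cnt fun z => G.Adj z v : ℕ) ≤ Ex P (X1 v) :=
      le_Ex_blk _ _ fun z hz => by rw [Finset.prod_singleton, hPe z v hz]
    have h4 : Ex P (X1 v) ≤ p * (cnt fun z => G.Adj z v : ℕ) :=
      Ex_blk_le _ _ fun z hz => by rw [Finset.prod_singleton, hPe z v hz]
    have h5 := hG {v} (by simp)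
    rw [cnt_congr (q := fun z => G.Adj z v) fun z => by simp] at h5
    have h6 : ((cnt fun z => G.Adj z v : ℕ) : ℝ) ≤ n := by
      rw [hn]; exact_mod_cast cnt_le_card _
    simp only [Sum.elim_inl, h2] at h1
    have h7 := hδn _ hδ4
    have h8 := hδn _ hδ3
    constructor <;> nlinarith [mul_le_mul_of_nonneg_left h5 hp.le,
      mul_le_mul_of_nonneg_left h6 hp.le]
  · have h1 := abs_lt.mp (hA (Sum.inr (Sum.inl v)))
    have h2 : X2 v A = ((A.toRight.val.map Prod.fst).count v : ℕ) := by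
      rw [count_fst_eq]
      exact blk_eq _ _ _ fun z => by simp
    have h4 : Ex P (X2 v) ≤ ρ * (cnt fun _ : W => True : ℕ) :=
      Ex_blk_le _ _ fun z _ => by rw [Finset.prod_singleton]; exact le_rfl
    rw [cnt_true] at h4
    simp only [Sum.elim_inl, Sum.elim_inr, h2] at h1
    have h8 := hδn _ hδ5
    nlinarith [mul_le_mul_of_nonneg_left hW2' hρ.le]
  · have h1 := abs_lt.mp (hA (Sum.inr (Sum.inr (Sum.inl w))))
    have h2 : X3 w A = ((A.toRight.val.map Prod.snd).count w : ℕ) := by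
      rw [count_snd_eq]
      exact blk_eq _ _ _ fun z => by simp
    have h4 : Ex P (X3 w) ≤ ρ * (cnt fun _ : V => True : ℕ) :=
      Ex_blk_le _ _ fun z _ => by rw [Finset.prod_singleton]; exact le_rfl
    rw [cnt_true, ← hn] at h4
    simp only [Sum.elim_inl, Sum.elim_inr, h2] at h1
    have h8 := hδn _ hδ5
    nlinarith
  · obtain ⟨a, b, hab⟩ : ∃ a b, S ⊆ {a, b} := by
      obtain ⟨v0⟩ : Nonempty V := Fintype.card_pos_iff.mp hnV
      rcases (show S.card = 0 ∨ S.card = 1 ∨ S.card = 2 by omega) with h | h | h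
      · exact ⟨v0, v0, by simp [Finset.card_eq_zero.mp h]⟩
      · obtain ⟨a, rfl⟩ := Finset.card_eq_one.mp h
        exact ⟨a, a, by simp⟩
      · obtain ⟨a, b, -, rfl⟩ := Finset.card_eq_two.mp h
        exact ⟨a, b, le_rfl⟩
    have h1 := abs_lt.mp (hA (Sum.inr (Sum.inr (Sum.inr (Sum.inl (w, a, b))))))
    have h2 : X4 (w, a, b) A ≤
        (cnt fun z => (z, w) ∈ A.toRight ∧ ∀ q ∈ S, s(z, q) ∈ A.toLeft : ℕ) := by
      refine Nat.cast_le.mpr (cnt_mono fun z hz => ?_)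
      have h3 := hz.2
      simp only [Finset.insert_subset_iff, Finset.singleton_subset_iff] at h3
      refine ⟨Finset.mem_toRight.mpr h3.1, fun q hq => ?_⟩
      rcases Finset.mem_insert.mp (hab hq) with rfl | h
      · exact Finset.mem_toLeft.mpr h3.2.1
      · rw [Finset.mem_singleton.mp h]
        exact Finset.mem_toLeft.mpr h3.2.2
    have h3 : ρ * p ^ 2 * (cnt fun z => G.Adj z a ∧ G.Adj z b : ℕ) ≤ Ex P (X4 (w, a, b)) :=
      le_Ex_blk _ _ fun z hz => by
        rw [Finset.prod_insert (by simp)]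
        exact mul_le_mul_of_nonneg_left
          (sq_le_prod_pair P hp.le hp1 (hPe z a hz.1) (hPe z b hz.2)) hρ.le
    have h5 := hG {a, b} Finset.card_le_two
    rw [cnt_congr (q := fun z => G.Adj z a ∧ G.Adj z b) fun z => by simp] at h5
    simp only [Sum.elim_inl, Sum.elim_inr] at h1
    have h7 := hδn _ hδ1
    nlinarith [mul_le_mul_of_nonneg_left h5 (show 0 ≤ ρ * p ^ 2 by positivity)]
  · have h1 := abs_lt.mp (hA (Sum.inr (Sum.inr (Sum.inr (Sum.inr (u, v))))))
    have h2 : X5 (u, v) A = (cnt fun w => (u, w) ∈ A.toRight ∧ (v, w) ∈ A.toRight : ℕ) :=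
      blk_eq _ _ _ fun z => by simp [Finset.insert_subset_iff]
    have h3 : ρ ^ 2 * (cnt fun _ : W => True : ℕ) ≤ Ex P (X5 (u, v)) :=
      le_Ex_blk _ _ fun z _ => sq_le_prod_pair P hρ.le hρ1 rfl rfl
    rw [cnt_true] at h3
    simp only [Sum.elim_inr, h2] at h1
    have h7 := hδn _ hδ2
    have h8 : 0 ≤ ε * ρ ^ 2 * n := by positivity
    linarith [mul_le_mul_of_nonneg_left hW1 (sq_nonneg ρ)]

end Pool.Agent.Lib.MP_34bdde_co
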