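import Mathlib
import Pool.Agent.Lib.MP_34bdde_co.Greedy
import Pool.Agent.Lib.MP_34bdde_co.Template

set_option autoImplicit false

open Finset
open scoped Classical

noncomputable section

namespace Pool.Agent.Lib.MP_34bdde_co

lemma va_cnt_comp {E I : Type} [Fintype E] [Fintype I] (φ : E → I) (Q : I → Prop) :
    (cnt fun e => Q (φ e)) = wsum Q fun i => cnt fun e => φ e = i := by
  rw [wsum_def, cnt_def, Finset.card_eq_sum_card_fiberwise (f := φ) (t := univ.filter Q)]
  · refine Finset.sum_congr rfl fun i hi => ?_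
    rw [cnt_def]
    congr 1
    ext e
    simp only [Finset.mem_filter, Finset.mem_univ, true_and] at hi ⊢
    exact ⟨fun h => h.2, fun h => ⟨h ▸ hi, h⟩⟩
  · intro e he
    simpa using he

lemma va_wsum_sum {A B : Type} [Fintype A] [Fintype B] (Q : A ⊕ B → Prop) (wt : A ⊕ B → ℕ) :
    wsum Q wt = wsum (fun a => Q (Sum.inl a)) (fun a => wt (Sum.inl a)) +
      wsum (fun b => Q (Sum.inr b)) fun b => wt (Sum.inr b) := by
  simp only [wsum_def, Finset.sum_filter, Fintype.sum_sum_type]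

lemma va_wsum_succ {I : Type} [Fintype I] (Q : I → Prop) (wt : I → ℕ) :
    (wsum Q fun i => wt i + 1) = wsum Q wt + cnt Q := by
  rw [wsum_def, wsum_def, cnt_def, Finset.sum_add_distrib, Finset.card_eq_sum_ones]

lemma va_wsum_le {I : Type} [Fintype I] (Q : I → Prop) {wt : I → ℕ} {k : ℕ} (h : ∀ i, wt i ≤ k) :
    wsum Q wt ≤ k * cnt Q := by
  rw [wsum_def, cnt_def, mul_comm, ← smul_eq_mul]
  exact Finset.sum_le_card_nsmul _ _ _ fun i _ => h i

lemma va_count_sum {I α : Type} [Fintype I] (f : I → α) (x : α) :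
    (∑ i, ({f i} : Multiset α)).count x = cnt fun i => f i = x := by
  rw [Multiset.count_sum', cnt_eq_sum]
  refine Finset.sum_congr rfl fun i _ => ?_
  rw [Multiset.count_singleton]
  simp only [eq_comm]

lemma va_bind_sum {I α β : Type} (s : Finset I) (M : I → Multiset α) (f : α → Multiset β) :
    (∑ i ∈ s, M i).bind f = ∑ i ∈ s, (M i).bind f := by
  induction s using Finset.induction_on with
  | empty => simp
  | insert a s ha ih => rw [Finset.sum_insert ha, Finset.sum_insert ha, Multiset.add_bind, ih]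

lemma va_sum_bij {E T M : Type} [Fintype E] [Fintype T] [AddCommMonoid M] {act : E → Prop}
    {P : T → Prop} {φ : E → T} (h : Set.BijOn φ {e | act e} {t | P t}) (F : T → M) :
    (∑ e, if act e then F (φ e) else 0) = ∑ t, if P t then F t else 0 := by
  rw [← Finset.sum_filter, ← Finset.sum_filter]
  refine Finset.sum_nbij φ (fun e he => ?_) (fun e he e' he' hh => ?_) (fun t ht => ?_)
    fun _ _ => rfl
  · simpa using h.mapsTo (by simpa using he)
  · exact h.injOn (by simpa using he) (by simpa using he') hh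
  · obtain ⟨e, he, rfl⟩ := h.surjOn (show t ∈ {t | P t} by simpa using ht)
    exact ⟨e, by simpa using he, rfl⟩

lemma va_loads {V W I : Type} [Fintype V] [Fintype W] [Fintype I] (col : I → W) (wt : I → ℕ)
    {t : ℝ} (ht : 0 ≤ t) (hW : Fintype.card W ≤ Fintype.card V)
    (h : ∀ w, ((wsum (fun i => col i = w) fun i => wt i + 1 : ℕ) : ℝ) ≤ t * Fintype.card V) :
    (∀ w, ((cnt fun i => w ∈ ({col i} : Finset W) : ℕ) : ℝ) ≤ t * Fintype.card V) ∧
      (∀ i, (wt i : ℝ) + 1 ≤ t * Fintype.card V) ∧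
      ∑ i, ((wt i : ℝ) + 1) ≤ t * (Fintype.card V : ℝ) ^ 2 := by
  refine ⟨fun w => ?_, fun i => ?_, ?_⟩
  · refine le_trans ?_ (cnt_le_load col wt w (h w))
    exact_mod_cast cnt_mono fun i hi => (Finset.mem_singleton.mp hi).symm
  · refine le_trans ?_ (h (col i))
    have : wt i + 1 ≤ wsum (fun i' => col i' = col i) fun i => wt i + 1 := by
      rw [wsum_def]
      exact Finset.single_le_sum (f := fun i => wt i + 1) (fun _ _ => Nat.zero_le _) (by simp)
    exact_mod_cast this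
  · have h1 : ∑ i, (wt i + 1) = ∑ w, wsum (fun i => col i = w) fun i => wt i + 1 := by
      simp only [wsum_def]
      exact (Finset.sum_fiberwise _ _ _).symm
    have h2 : ∑ i, ((wt i : ℝ) + 1) =
        ∑ w, ((wsum (fun i => col i = w) fun i => wt i + 1 : ℕ) : ℝ) := by
      exact_mod_cast h1
    have h3 : (Fintype.card W : ℝ) ≤ Fintype.card V := by exact_mod_cast hW
    calc _ ≤ ∑ _w : W, t * Fintype.card V := h2 ▸ Finset.sum_le_sum fun w _ => h w
      _ = Fintype.card W * (t * Fintype.card V) := by simp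
      _ ≤ Fintype.card V * (t * Fintype.card V) :=
          mul_le_mul_of_nonneg_right h3 (by positivity)
      _ = _ := by ring

lemma va_pick0 (ε η : ℝ) (hε : 0 < ε) (hη : 0 < η) : ∃ η' : ℝ, 0 < η' ∧ 2 * η' ≤ η ∧
    ∀ (V W : Type) [Fintype V] [Fintype W] (G : SimpleGraph V)
      (UE : Multiset (Sym2 V)) (US : Multiset (V × W)), Dense G 2 ε →
      Fintype.card W ≤ Fintype.card V → Ok η' UE US →
      ∀ (I : Type) [Fintype I] (col : I → W) (wt : I → ℕ),
      (∀ w, ((wsum (fun i => col i = w) fun i => wt i + 1 : ℕ) : ℝ) ≤ η' * Fintype.card V) →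
      ∃ z : I → V, Ok η UE (US + ∑ i, {(z i, col i)}) ∧
        ∀ v, ((wsum (fun i => z i = v) wt : ℕ) : ℝ) ≤ η * Fintype.card V := by
  obtain ⟨t, ht, H⟩ := pickV ε η hε hη
  have h0 : 0 < min t (η / 2) := lt_min ht (by positivity)
  refine ⟨min t (η / 2), h0, by linarith [min_le_right t (η / 2)],
    fun V W _ _ G UE US hD hW hOk I _ col wt h => ?_⟩
  have hm : min t (η / 2) * Fintype.card V ≤ t * Fintype.card V :=
    mul_le_mul_of_nonneg_right (min_le_left _ _) (Nat.cast_nonneg _)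
  obtain ⟨h1, h2, h3⟩ := va_loads col wt ht.le hW fun w => (h w).trans hm
  have hn : 0 ≤ t * Fintype.card V := by positivity
  obtain ⟨z, -, -, hz, hl⟩ := H V W G 2 UE US (by norm_num) hD
    (hOk.mono (min_le_left _ _) le_rfl le_rfl) I (fun _ => ∅) (fun i => {col i}) (fun _ => ∅) wt
    (by simp) (by simp) (fun _ => by simpa using hn) (fun v => by simpa [cnt_def] using hn)
    h1 h2 h3
  refine ⟨z, by simpa using hz, fun v => le_trans ?_ (hl v)⟩
  rw [va_wsum_succ]
  exact_mod_cast Nat.le_add_right _ _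

lemma va_pick2 (ε η : ℝ) (hε : 0 < ε) (hη : 0 < η) : ∃ η' : ℝ, 0 < η' ∧ 2 * η' ≤ η ∧
    ∀ (V W : Type) [Fintype V] [Fintype W] (G : SimpleGraph V)
      (UE : Multiset (Sym2 V)) (US : Multiset (V × W)), Dense G 2 ε →
      Fintype.card W ≤ Fintype.card V → Ok η' UE US →
      ∀ (I : Type) [Fintype I] (col : I → W) (p q : I → V), (∀ i, p i ≠ q i) →
      (∀ v, ((cnt fun i => p i = v : ℕ) : ℝ) ≤ η' * Fintype.card V) →
      (∀ v, ((cnt fun i => q i = v : ℕ) : ℝ) ≤ η' * Fintype.card V) →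
      (∀ w, ((cnt fun i => col i = w : ℕ) : ℝ) ≤ η' * Fintype.card V) →
      ∃ z : I → V, (∀ i, G.Adj (z i) (p i) ∧ G.Adj (z i) (q i)) ∧
        Ok η (UE + ∑ i, {s(z i, p i), s(z i, q i)}) (US + ∑ i, {(z i, col i)}) ∧
        ∀ v, ((cnt fun i => z i = v : ℕ) : ℝ) ≤ η * Fintype.card V := by
  obtain ⟨t, ht, H⟩ := pickV ε η hε hη
  have h0 : 0 < min (t / 2) (η / 2) := lt_min (by positivity) (by positivity)
  refine ⟨min (t / 2) (η / 2), h0, by linarith [min_le_right (t / 2) (η / 2)],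
    fun V W _ _ G UE US hD hW hOk I _ col p q hpq hp hq h => ?_⟩
  have hm : min (t / 2) (η / 2) * Fintype.card V ≤ t / 2 * Fintype.card V :=
    mul_le_mul_of_nonneg_right (min_le_left _ _) (Nat.cast_nonneg _)
  have hn : 0 ≤ t * Fintype.card V := by positivity
  obtain ⟨h1, h2, h3⟩ := va_loads (V := V) col (fun _ => 0) ht.le hW fun w => by
    rw [va_wsum_succ, wsum_def, Finset.sum_const_zero, zero_add]
    linarith [h w]
  obtain ⟨z, ha, -, hz, hl⟩ := H V W G 2 UE US (by norm_num) hD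
    (hOk.mono ((min_le_left _ _).trans (by linarith)) le_rfl le_rfl) I (fun i => {p i, q i})
    (fun i => {col i}) (fun _ => ∅) (fun _ => 0)
    (fun i => Finset.card_le_two) (by simp) (fun _ => by simpa using hn)
    (fun v => by
      have h4 : (cnt fun i => v ∈ ({p i, q i} : Finset V)) ≤
          (cnt fun i => p i = v) + cnt fun i => q i = v :=
        (cnt_mono fun i hi => by
          simpa only [Finset.mem_insert, Finset.mem_singleton, eq_comm] using hi).trans
          (cnt_or_le _ _)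
      have h5 := (Nat.cast_le (α := ℝ)).mpr h4
      push_cast at h5
      linarith [hp v, hq v]) h1 h2 h3
  refine ⟨z, fun i => ⟨ha i _ (by simp), ha i _ (by simp)⟩, ?_, fun v => cnt_le_load z _ v (hl v)⟩
  have h6 : ∀ i, (({p i, q i} : Finset V).val.map fun x => s(z i, x)) =
      {s(z i, p i), s(z i, q i)} := fun i => by
    rw [Finset.insert_val_of_notMem (by simpa using hpq i)]
    simp
  simpa only [h6, Finset.singleton_val, Multiset.map_singleton] using hz

/-- The templates of all colours together, as a bipartite graph with edge set `E`. -/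
lemma va_template {V W : Type} [Fintype V] [Fintype W] (Z : Finset (V × W)) (j : W → ℕ) (s : ℕ)
    (hZ : ∀ w, (cnt fun v => (v, w) ∈ Z) ≤ s) (hj : ∀ w, j w ≤ s) :
    ∃ (B T E : Type) (_ : Fintype B) (_ : Fintype T) (_ : Fintype E) (cB : B → W) (cT : T → W)
      (el : E → {z // z ∈ Z} ⊕ B) (et : E → T),
      (∀ w, (cnt fun b => cB b = w) = 2 * s) ∧ (∀ w, (cnt fun t => cT t = w) = 2 * s + j w) ∧
      (∀ e, Sum.elim (fun z => z.1.2) cB (el e) = cT (et e)) ∧
      (∀ z, (cnt fun e => el e = Sum.inl z) ≤ 30) ∧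
      (∀ w, (cnt fun e => cT (et e) = w) ≤ 180 * s) ∧
      ∀ Z' ⊆ Z, (∀ w, (cnt fun v => (v, w) ∈ Z') = j w) → ∃ act : E → Prop,
        Set.BijOn el {e | act e} {l | ∀ z, l = Sum.inl z → z.1 ∈ Z'} ∧
        Set.BijOn et {e | act e} {_t | True} := by
  have hZ' : ∀ w, Fintype.card {v // (v, w) ∈ Z} ≤ s := fun w => by
    rw [Fintype.card_subtype, ← cnt_def]
    exact hZ w
  choose N hN1 hN2 hN3 using fun w => template {v // (v, w) ∈ Z} (Fin (2 * s)) (Fin (2 * s + j w))
    s (hZ' w) (by simp) (by simp) (by have := hj w; simp; omega)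
  let N' : {z // z ∈ Z} ⊕ W × Fin (2 * s) → Finset (Σ w, Fin (2 * s + j w)) := fun l =>
    match l with
    | Sum.inl z => (N z.1.2 (Sum.inl ⟨z.1.1, z.2⟩)).image (Sigma.mk z.1.2)
    | Sum.inr b => (N b.1 (Sum.inr b.2)).image (Sigma.mk b.1)
  have hcard : ∀ l, (cnt fun e : {e : ({z // z ∈ Z} ⊕ W × Fin (2 * s)) ×
      (Σ w, Fin (2 * s + j w)) // e.2 ∈ N' e.1} => e.1.1 = l) ≤ (N' l).card := fun l => by
    have : (N' l).card = cnt fun t => t ∈ N' l := by
      rw [cnt_def]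
      simp
    rw [this]
    refine cnt_le_of_injOn (fun e => e.1.2) (fun e he => he ▸ e.2) fun e e' he he' h => ?_
    exact Subtype.ext (Prod.ext (he.trans he'.symm) h)
  have hcol : ∀ e : {e : ({z // z ∈ Z} ⊕ W × Fin (2 * s)) × (Σ w, Fin (2 * s + j w)) //
      e.2 ∈ N' e.1}, Sum.elim (fun z => z.1.2) Prod.fst e.1.1 = e.1.2.1 := by
    rintro ⟨⟨z | b, t⟩, h⟩
    · obtain ⟨t', -, rfl⟩ := Finset.mem_image.mp h
      rfl
    · obtain ⟨t', -, rfl⟩ := Finset.mem_image.mp h
      rfl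
  have h30 : ∀ z, (cnt fun e : {e : ({z // z ∈ Z} ⊕ W × Fin (2 * s)) ×
      (Σ w, Fin (2 * s + j w)) // e.2 ∈ N' e.1} => e.1.1 = Sum.inl z) ≤ 30 := fun z =>
    (hcard _).trans (Finset.card_image_le.trans (hN1 _ _))
  refine ⟨W × Fin (2 * s), Σ w, Fin (2 * s + j w), {e : ({z // z ∈ Z} ⊕ W × Fin (2 * s)) ×
    (Σ w, Fin (2 * s + j w)) // e.2 ∈ N' e.1}, inferInstance, inferInstance, inferInstance,
    Prod.fst, Sigma.fst, fun e => e.1.1, fun e => e.1.2, fun w => ?_, fun w => ?_, hcol, h30,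
    fun w => ?_, fun Z' hZZ hc => ?_⟩
  · rw [cnt_eq_sum, Fintype.sum_prod_type, Finset.sum_eq_single w]
    · simp
    · intro b _ hb
      simp [hb]
    · simp
  · rw [cnt_eq_sum, Fintype.sum_sigma, Finset.sum_eq_single w]
    · simp
    · intro b _ hb
      simp [hb]
    · simp
  · simp only [← hcol]
    rw [va_cnt_comp (fun e : {e : ({z // z ∈ Z} ⊕ W × Fin (2 * s)) ×
      (Σ w, Fin (2 * s + j w)) // e.2 ∈ N' e.1} => e.1.1)
      fun l => Sum.elim (fun z => z.1.2) Prod.fst l = w, va_wsum_sum]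
    have h1 := va_wsum_le (fun z : {z // z ∈ Z} => z.1.2 = w) h30
    have h2 : (cnt fun z : {z // z ∈ Z} => z.1.2 = w) ≤ s := by
      refine le_trans ?_ (hZ w)
      refine cnt_le_of_injOn (fun z => z.1.1) (fun z hz => ?_) fun z z' hz hz' h => ?_
      · rw [← hz]
        exact z.2
      · exact Subtype.ext (Prod.ext h (hz.trans hz'.symm))
    have h3 : (wsum (fun b : W × Fin (2 * s) => b.1 = w) fun b =>
        cnt fun e : {e : ({z // z ∈ Z} ⊕ W × Fin (2 * s)) × (Σ w, Fin (2 * s + j w)) //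
          e.2 ∈ N' e.1} => e.1.1 = Sum.inr b) ≤ 150 * s := by
      refine le_trans ?_ (hN2 w)
      rw [wsum_def, Finset.sum_filter, Fintype.sum_prod_type, Finset.sum_comm]
      refine Finset.sum_le_sum fun y _ => ?_
      simp only [Finset.sum_ite_eq', Finset.mem_univ, if_true]
      exact (hcard _).trans Finset.card_image_le
    simp only [Sum.elim_inl, Sum.elim_inr]
    omega
  · choose g hg1 hg2 hg3 using fun w => hN3 w (univ.filter fun v => (v.1, w) ∈ Z') (by
      have h1 : (univ.filter fun v : {v // (v, w) ∈ Z} => (v.1, w) ∈ Z').card = j w := by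
        rw [← hc w, ← cnt_def]
        refine le_antisymm
          (cnt_le_of_injOn (fun v => v.1) (fun _ h => h) fun _ _ _ _ h => Subtype.ext h) ?_
        rw [cnt_def, cnt_def]
        refine Finset.card_le_card_of_surjOn (fun v => v.1) fun v hv => ?_
        simp only [Finset.coe_filter, Finset.mem_univ, true_and, Set.mem_ofPred_eq] at hv
        exact ⟨⟨v, hZZ hv⟩, by simpa using hv, rfl⟩
      rw [h1, Fintype.card_fin, add_comm])
    let g' : {z // z ∈ Z} ⊕ W × Fin (2 * s) → Σ w, Fin (2 * s + j w) := fun l =>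
      match l with
      | Sum.inl z => ⟨z.1.2, g z.1.2 (Sum.inl ⟨z.1.1, z.2⟩)⟩
      | Sum.inr b => ⟨b.1, g b.1 (Sum.inr b.2)⟩
    have hg : ∀ l, (∀ z, l = Sum.inl z → z.1 ∈ Z') → g' l ∈ N' l := by
      rintro (z | b) h
      · exact Finset.mem_image_of_mem _ (hg1 _ _ (by simpa using h z rfl))
      · exact Finset.mem_image_of_mem _ (hg2 _ _)
    have hm1 : ∀ w (v : {v // (v, w) ∈ Z}), (v.1, w) ∈ Z' → Sum.inl v ∈
        {l : {v // (v, w) ∈ Z} ⊕ Fin (2 * s) | ∀ z, l = Sum.inl z →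
          z ∈ univ.filter fun v : {v // (v, w) ∈ Z} => (v.1, w) ∈ Z'} := by
      intro w v hv z hz
      obtain rfl := Sum.inl.inj hz
      simpa using hv
    have hm2 : ∀ w (y : Fin (2 * s)), Sum.inr y ∈
        {l : {v // (v, w) ∈ Z} ⊕ Fin (2 * s) | ∀ z, l = Sum.inl z →
          z ∈ univ.filter fun v : {v // (v, w) ∈ Z} => (v.1, w) ∈ Z'} := by
      intro w y z hz
      simp at hz
    have hinj : ∀ l l', (∀ z, l = Sum.inl z → z.1 ∈ Z') → (∀ z, l' = Sum.inl z → z.1 ∈ Z') →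
        g' l = g' l' → l = l' := by
      rintro (⟨⟨v, w⟩, hz⟩ | ⟨w, y⟩) (⟨⟨v', w'⟩, hz'⟩ | ⟨w', y'⟩) h h' hh <;>
        obtain ⟨rfl, h2⟩ := Sigma.mk.inj_iff.mp hh
      · have h3 := (hg3 w).injOn (hm1 w _ (h _ rfl)) (hm1 w _ (h' _ rfl)) (eq_of_heq h2)
        obtain rfl : v = v' := congrArg Subtype.val (Sum.inl.inj h3)
        rfl
      · have h3 := (hg3 w).injOn (hm1 w _ (h _ rfl)) (hm2 w _) (eq_of_heq h2)
        simp at h3
      · have h3 := (hg3 w).injOn (hm2 w _) (hm1 w _ (h' _ rfl)) (eq_of_heq h2)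
        simp at h3
      · have h3 := (hg3 w).injOn (hm2 w _) (hm2 w _) (eq_of_heq h2)
        obtain rfl : y = y' := Sum.inr.inj h3
        rfl
    refine ⟨fun e => (∀ z, e.1.1 = Sum.inl z → z.1 ∈ Z') ∧ g' e.1.1 = e.1.2,
      ⟨fun e he => he.1, fun e he e' he' h => ?_, fun l hl => ⟨⟨(l, g' l), hg l hl⟩, ⟨hl, rfl⟩, rfl⟩⟩,
      ⟨fun _ _ => trivial, fun e he e' he' h => ?_, ?_⟩⟩
    · exact Subtype.ext (Prod.ext h (by rw [← he.2, ← he'.2]; exact congrArg g' h))
    · exact Subtype.ext (Prod.ext (hinj _ _ he.1 he'.1 (he.2.trans (h.trans he'.2.symm))) h)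
    · rintro ⟨w, t⟩ -
      obtain ⟨l, hl, rfl⟩ := (hg3 w).surjOn (Set.mem_univ t)
      rcases l with v | y
      · have h1 : ∀ z, (Sum.inl ⟨(v.1, w), v.2⟩ : {z // z ∈ Z} ⊕ W × Fin (2 * s)) = Sum.inl z →
            z.1 ∈ Z' := by
          intro z hz
          obtain rfl := Sum.inl.inj hz
          simpa using hl v rfl
        exact ⟨⟨(_, g' _), hg _ h1⟩, ⟨h1, rfl⟩, rfl⟩
      · have h1 : ∀ z, (Sum.inr (w, y) : {z // z ∈ Z} ⊕ W × Fin (2 * s)) = Sum.inl z →
            z.1 ∈ Z' := by simp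
        exact ⟨⟨(_, g' _), hg _ h1⟩, ⟨h1, rfl⟩, rfl⟩

end Pool.Agent.Lib.MP_34bdde_co
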