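import Mathlib
import Pool.Agent.Lib.MP_34bdde_co.VAA

set_option autoImplicit false

open Finset
open scoped Classical

noncomputable section

namespace Pool.Agent.Lib.MP_34bdde_co

/-- The state of the gadget of one template edge. -/
lemma va_gadget {V W : Type} (w : W) (a c y v a' c' : V) (act : Prop) :
    ∃ M ≤ ({s(y, a), s(y, c)} : Multiset (Sym2 V)) + {s(a', v), s(a', y)} + {s(c', v), s(c', y)},
      Rz ({(⟨w, a', c', false⟩ : Hole V W)} + if act then {⟨w, a, c, false⟩} else 0)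
        ({(y, w)} + if act then {(v, w)} else 0) M := by
  by_cases h : act
  · refine ⟨{s(a', v), s(v, c')} + {s(a, y), s(y, c)}, ?_, ?_⟩
    · refine Multiset.le_iff_exists_add.mpr ⟨{s(a', y)} + {s(c', y)}, ?_⟩
      rw [Sym2.eq_swap (a := v) (b := c'), Sym2.eq_swap (a := a) (b := y)]
      simp only [Multiset.insert_eq_cons, ← Multiset.singleton_add]
      abel
    · rw [if_pos h, if_pos h, add_comm ({(y, w)} : Multiset (V × W))]
      exact (Rz.single w a' c' v).add (Rz.single w a c y)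
  · refine ⟨{s(a', y), s(y, c')}, ?_, ?_⟩
    · refine Multiset.le_iff_exists_add.mpr ⟨{s(y, a), s(y, c)} + {s(a', v)} + {s(c', v)}, ?_⟩
      rw [Sym2.eq_swap (a := y) (b := c')]
      simp only [Multiset.insert_eq_cons, ← Multiset.singleton_add]
      abel
    · rw [if_neg h, if_neg h, add_zero, add_zero]
      exact Rz.single w a' c' y

lemma va_disj {α : Type} {U U' : Multiset α} (h : (U + U').Nodup) (x : α) (h1 : x ∈ U)
    (h2 : x ∈ U') : False :=
  Multiset.disjoint_left.mp (Multiset.nodup_add.mp h).2.2 h1 h2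

lemma va_ne {I α : Type} [Fintype I] {U : Multiset α} {f g : I → α}
    (h : (U + ∑ i, {f i} + ∑ i, {g i}).Nodup) (i j : I) : f i ≠ g j := by
  intro e
  refine va_disj h (f i) ?_ ?_
  · exact Multiset.mem_add.mpr (Or.inr (Multiset.mem_sum.mpr ⟨i, mem_univ _, by simp⟩))
  · exact Multiset.mem_sum.mpr ⟨j, mem_univ _, by simp [e]⟩

/-- The vertex absorbers: in every colour `w` any `j w` slots of `Z` are absorbed. -/
theorem vabs (ε η : ℝ) (hε : 0 < ε) (hη : 0 < η) : ∃ η' : ℝ, 0 < η' ∧ ∃ n0 : ℕ,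
    ∀ (V W : Type) [Fintype V] [Fintype W] (G : SimpleGraph V)
      (UE : Multiset (Sym2 V)) (US : Multiset (V × W)),
      n0 ≤ Fintype.card V → Dense G 2 ε → Fintype.card W ≤ Fintype.card V → Ok η' UE US →
      ∀ (Z : Finset (V × W)) (j : W → ℕ), Z.val ≤ US → (∀ w, (j w : ℝ) ≤ η' * Fintype.card V) →
      ∃ (X1 : Multiset (Sym2 V)) (O : Multiset (Hole V W)) (Φ : Multiset (V × W)),
        Ok η (UE + X1) (US + slots O Φ) ∧ (∀ e ∈ X1, e ∈ G.edgeSet) ∧ (∀ h ∈ O, h.dbl = false) ∧
        (∀ w, (O.bind Hole.inner).count w = (Φ.map Prod.snd).count w + j w) ∧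
        ∀ Z' ⊆ Z, (∀ w, (Z'.val.map Prod.snd).count w = j w) →
          ∃ M ≤ X1, Rz O (Φ + Z'.val) M := by
  obtain ⟨t6, p6, q6, H6⟩ := va_pick2 ε η hε hη
  obtain ⟨t5, p5, q5, H5⟩ := va_pick2 ε t6 hε p6
  obtain ⟨t4, p4, q4, H4⟩ := va_pick2 ε t5 hε p5
  obtain ⟨t3, p3, q3, H3⟩ := va_pick0 ε t4 hε p4
  obtain ⟨t2, p2, q2, H2⟩ := va_pick0 ε t3 hε p3
  obtain ⟨t1, p1, q1, H1⟩ := va_pick0 ε t2 hε p2
  refine ⟨t1 / 200, by positivity, 0, fun V W _ _ G UE US _ hD hW hOk Z j hZ hj => ?_⟩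
  set n : ℝ := (Fintype.card V : ℝ) with hn
  have hn0 : 0 ≤ n := Nat.cast_nonneg _
  have r1 := mul_le_mul_of_nonneg_right q1 hn0
  have r2 := mul_le_mul_of_nonneg_right q2 hn0
  have r3 := mul_le_mul_of_nonneg_right q3 hn0
  have r4 := mul_le_mul_of_nonneg_right q4 hn0
  have r5 := mul_le_mul_of_nonneg_right q5 hn0
  have r0 : 0 ≤ t1 * n := by positivity
  set s := ⌊t1 / 200 * n⌋₊ with hs
  have hsn : (s : ℝ) ≤ t1 / 200 * n := Nat.floor_le (by positivity)
  have hjs : ∀ w, j w ≤ s := fun w => Nat.le_floor (hj w)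
  have hZs : ∀ w, (cnt fun v => (v, w) ∈ Z) ≤ s := fun w => by
    refine Nat.le_floor (le_trans ?_ (hOk.lw w))
    rw [count_snd_eq_cnt hOk.ns]
    exact_mod_cast cnt_mono fun v hv => Multiset.mem_of_le hZ hv
  obtain ⟨B, T, E, _, _, _, cB, cT, el, et, hB, hT, hcol, h30, hE, hM⟩ :=
    va_template Z j s hZs hjs
  have hER : ∀ w, ((cnt fun e => cT (et e) = w : ℕ) : ℝ) ≤ 180 * s := fun w => by
    exact_mod_cast hE w
  have hBw : ∀ w, ((wsum (fun b => cB b = w) fun b =>
      (cnt fun e => el e = Sum.inr b) + 1 : ℕ) : ℝ) ≤ t1 * n := fun w => by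
    have h1 := hE w
    simp only [← hcol] at h1
    rw [va_cnt_comp el fun l => Sum.elim (fun z => z.1.2) cB l = w, va_wsum_sum] at h1
    simp only [Sum.elim_inl, Sum.elim_inr] at h1
    have h2 : (wsum (fun b => cB b = w) fun b => (cnt fun e => el e = Sum.inr b) + 1) ≤
        182 * s := by
      rw [va_wsum_succ, hB]
      omega
    have h3 := (Nat.cast_le (α := ℝ)).mpr h2
    rw [Nat.cast_mul] at h3
    push_cast at h3
    linarith
  have hTw : ∀ w, ((wsum (fun t => cT t = w) fun t =>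
      (cnt fun e => et e = t) + 1 : ℕ) : ℝ) ≤ t1 * n := fun w => by
    have h1 := hE w
    rw [va_cnt_comp et fun t => cT t = w] at h1
    have h2 : (wsum (fun t => cT t = w) fun t => (cnt fun e => et e = t) + 1) ≤ 183 * s := by
      rw [va_wsum_succ, hT]
      have := hjs w
      omega
    have h3 := (Nat.cast_le (α := ℝ)).mpr h2
    rw [Nat.cast_mul] at h3
    push_cast at h3
    linarith
  obtain ⟨vb, ok1, l1⟩ := H1 V W G UE US hD hW (hOk.mono (by linarith) le_rfl le_rfl) B cB _ hBw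
  obtain ⟨a, ok2, l2⟩ := H2 V W G _ _ hD hW ok1 T cT _ fun w => (hTw w).trans (by linarith)
  obtain ⟨c, ok3, l3⟩ := H3 V W G _ _ hD hW ok2 T cT _ fun w => (hTw w).trans (by linarith)
  obtain ⟨y, ay, ok4, l4⟩ := H4 V W G _ _ hD hW ok3 E (fun e => cT (et e)) (fun e => a (et e))
    (fun e => c (et e))
    (fun e h => va_ne ok3.ns (et e) (et e) (by rw [h]))
    (fun v => by
      rw [va_cnt_comp et fun t => a t = v]
      exact (l2 v).trans (by linarith))
    (fun v => by
      rw [va_cnt_comp et fun t => c t = v]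
      exact l3 v)
    (fun w => (hER w).trans (by linarith))
  let vl : {z // z ∈ Z} ⊕ B → V := Sum.elim (fun z => z.1.1) vb
  have hne : ∀ e, vl (el e) ≠ y e := fun e h => by
    refine va_disj ok4.ns (y e, cT (et e)) ?_ (Multiset.mem_sum.mpr ⟨e, mem_univ _, by simp⟩)
    rw [← h, ← hcol]
    simp only [Multiset.mem_add]
    rcases el e with z | b
    · exact Or.inl (Or.inl (Or.inl (Multiset.mem_of_le hZ z.2)))
    · exact Or.inl (Or.inl (Or.inr (Multiset.mem_sum.mpr ⟨b, mem_univ _, by simp [vl]⟩)))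
  have hvl : ∀ v, ((cnt fun e => vl (el e) = v : ℕ) : ℝ) ≤ t5 * n := fun v => by
    rw [va_cnt_comp el fun l => vl l = v, va_wsum_sum]
    have h1 := va_wsum_le (fun z : {z // z ∈ Z} => z.1.1 = v) h30
    have h2 : (cnt fun z : {z // z ∈ Z} => z.1.1 = v) ≤ (US.map Prod.fst).count v := by
      rw [count_fst_eq_cnt hOk.ns]
      refine cnt_le_of_injOn (fun z => z.1.2) (fun z hz => ?_) fun z z' hz hz' h => ?_
      · rw [← hz]
        exact Multiset.mem_of_le hZ z.2
      · exact Subtype.ext (Prod.ext (hz.trans hz'.symm) h)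
    have h3 := (Nat.cast_le (α := ℝ)).mpr (h1.trans (Nat.mul_le_mul_left 30 h2))
    rw [Nat.cast_mul] at h3
    have h4 := hOk.lv v
    have h5 := l1 v
    simp only [vl, Sum.elim_inl, Sum.elim_inr]
    push_cast at h3 ⊢
    linarith
  obtain ⟨a', aa, ok5, -⟩ := H5 V W G _ _ hD hW ok4 E (fun e => cT (et e)) (fun e => vl (el e)) y
    hne hvl l4 (fun w => (hER w).trans (by linarith))
  obtain ⟨c', ac, ok6, -⟩ := H6 V W G _ _ hD hW ok5 E (fun e => cT (et e)) (fun e => vl (el e)) y
    hne (fun v => (hvl v).trans (by linarith)) (fun v => (l4 v).trans (by linarith))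
    (fun w => (hER w).trans (by linarith))
  refine ⟨∑ e, ({s(y e, a (et e)), s(y e, c (et e))} + {s(a' e, vl (el e)), s(a' e, y e)} +
      {s(c' e, vl (el e)), s(c' e, y e)}),
    ∑ e, {⟨cT (et e), a' e, c' e, false⟩} + ∑ t, {⟨cT t, a t, c t, false⟩},
    ∑ e, {(y e, cT (et e))} + ∑ b, {(vb b, cB b)}, ?_, ?_, ?_, fun w => ?_, fun Z' hZ' hc => ?_⟩
  · refine ok6.mono le_rfl (le_of_eq ?_) (le_of_eq ?_)
    · simp only [Finset.sum_add_distrib]
      abel
    · simp only [slots, Multiset.add_bind, va_bind_sum, Multiset.singleton_bind, Hole.frame,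
        Multiset.insert_eq_cons, ← Multiset.singleton_add, Finset.sum_add_distrib]
      abel
  · intro e he
    obtain ⟨i, -, hi⟩ := Multiset.mem_sum.mp he
    simp only [Multiset.insert_eq_cons, Multiset.mem_add, Multiset.mem_cons,
      Multiset.mem_singleton] at hi
    rcases hi with ((rfl | rfl) | rfl | rfl) | rfl | rfl
    exacts [(ay i).1, (ay i).2, (aa i).1, (aa i).2, (ac i).1, (ac i).2]
  · intro h hh
    rcases Multiset.mem_add.mp hh with hh | hh <;>
      obtain ⟨i, -, hi⟩ := Multiset.mem_sum.mp hh <;>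
      rw [Multiset.mem_singleton.mp hi]
  · simp only [Multiset.add_bind, va_bind_sum, Multiset.singleton_bind, Hole.inner,
      Bool.false_eq_true, if_false, Multiset.map_add, map_finsum, Multiset.map_singleton,
      Multiset.count_add, va_count_sum, hB, hT]
    omega
  · obtain ⟨act, hb1, hb2⟩ := hM Z' hZ' fun w => by
      rw [← hc w, count_snd_eq_cnt Z'.nodup]
      rfl
    choose M hM1 hM2 using fun e => va_gadget (cT (et e)) (a (et e)) (c (et e)) (y e)
      (vl (el e)) (a' e) (c' e) (act e)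
    refine ⟨∑ e, M e, Finset.sum_le_sum fun e _ => hM1 e, ?_⟩
    have h := Rz.sum univ fun e _ => hM2 e
    rw [Finset.sum_add_distrib, Finset.sum_add_distrib,
      va_sum_bij hb2 fun t => ({⟨cT t, a t, c t, false⟩} : Multiset (Hole V W))] at h
    have h1 : (∑ e, if act e then ({(vl (el e), cT (et e))} : Multiset (V × W)) else 0) =
        ∑ b, {(vb b, cB b)} + Z'.val := by
      simp only [← hcol]
      rw [va_sum_bij hb1 fun l => ({(vl l, Sum.elim (fun z => z.1.2) cB l)} : Multiset (V × W)),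
        Fintype.sum_sum_type, add_comm]
      simp only [vl, Sum.elim_inl, Sum.elim_inr, Sum.inl.injEq, forall_eq', reduceCtorEq,
        false_imp_iff, implies_true, if_true, Prod.mk.eta]
      rw [Finset.sum_coe_sort Z fun z => if z ∈ Z' then ({z} : Multiset (V × W)) else 0,
        ← Finset.sum_filter, Finset.filter_mem_eq_inter, Finset.inter_eq_right.mpr hZ',
        Finset.sum_multiset_singleton]
    rw [h1, ← add_assoc] at h
    simpa only [if_true] using h

end Pool.Agent.Lib.MP_34bdde_co
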