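import Mathlib
import Pool.Agent.Lib.MP_34bdde_co.EA
import Pool.Agent.Lib.MP_34bdde_co.VA
import Pool.Agent.Lib.MP_34bdde_co.Reserve
import Pool.Agent.Lib.MP_34bdde_co.Approx
import Pool.Agent.Lib.MP_34bdde_co.Layout
import Pool.Agent.Lib.MP_34bdde_co.Place
import Pool.Agent.Lib.MP_34bdde_co.Post
import Pool.Agent.Lib.MP_34bdde_co.CoreA

set_option autoImplicit false

open Finset
open scoped Classical

noncomputable section

namespace Pool.Agent.Lib.MP_34bdde_co

lemma exists_le2 {a b : ℝ} (ha : 0 < a) (hb : 0 < b) : ∃ c : ℝ, 0 < c ∧ c ≤ a ∧ c ≤ b :=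
  ⟨min a b, lt_min ha hb, min_le_left _ _, min_le_right _ _⟩

lemma num_layout {η κ n M K : ℝ} (hη : η ≤ 1 / 40) (hκ : κ ≤ 1 / 8) (hn : 40 ≤ n)
    (hM : M ≤ η * n + 1) (hK : K ≤ κ / 20 * n + 1) : 9 * (M + K) ≤ n := by
  nlinarith

lemma num_post {κ n L K P : ℝ} (hL : 0 < L) (hn : 0 < n) (h1 : 40 ≤ κ * L) (h2 : 260 ≤ κ * n)
    (hK : K ≤ κ / 20 * n + 1) (h : L * P ≤ L * (9 * K + 4) + 2 * n) : P ≤ 11 / 20 * κ * n := by
  have h4 : 9 * K + 4 ≤ 10 / 20 * κ * n := by nlinarith
  have h5 : 2 * n ≤ L * (1 / 20 * κ * n) := by nlinarith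
  refine le_of_mul_le_mul_left (h.trans ?_) hL
  nlinarith

lemma num_paths {γ n L P : ℝ} (hL : 0 < L) (hn : 0 < n) (h1 : 4 ≤ γ * L) (h2 : 8 ≤ γ * n)
    (h : L * P ≤ 4 * L + 2 * n) : P ≤ γ * n := by
  refine le_of_mul_le_mul_left (h.trans ?_) hL
  nlinarith

lemma num_div {c κ x : ℝ} (hκ : 0 < κ) (h : c / κ ≤ x) : c ≤ κ * x := by
  rw [div_le_iff₀ hκ] at h
  linarith

lemma Placed.extend {V W Λ : Type} [Fintype Λ] {F : SimpleGraph Λ} {M K L : ℕ}
    {Ly : Layout F M K L} {O : Multiset (Hole V W)} {sn : Hole V W → Fin M}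
    {dom dom' : W → Finset Λ} {f f' : W → Λ → V} (h : Placed Ly O sn dom f)
    (hs : ∀ w, dom w ⊆ dom' w) (hf : ∀ w, ∀ x ∈ dom w, f' w x = f w x)
    (hd : ∀ w, Disjoint (dom' w) (Ly.innerSet O sn w)) : Placed Ly O sn dom' f' :=
  ⟨h.nodup, h.inj,
    fun o ho => ⟨hs _ (h.fst o ho).1, (hf _ _ (h.fst o ho).1).trans (h.fst o ho).2⟩,
    fun o ho => ⟨hs _ (h.lst o ho).1, (hf _ _ (h.lst o ho).1).trans (h.lst o ho).2⟩, hd⟩

/-- Degrees of a partial embedding in which the holes are placed. -/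
lemma Placed.deg {V W Λ : Type} [Fintype W] [Fintype Λ] {F : SimpleGraph Λ} {M K L : ℕ}
    {Ly : Layout F M K L} (h2 : ∀ a, (cnt fun b => F.Adj a b) = 2) {O : Multiset (Hole V W)}
    {sn : Hole V W → Fin M} {dom : W → Finset Λ} {f : W → Λ → V} (h : Placed Ly O sn dom f)
    (v : V) :
    (bd (edgesOf F dom f)).count v + ((O.bind Hole.frame).map Prod.fst).count v +
      (outOf F dom (fun w => univ \ Ly.innerSet O sn w) f).count v =
      2 * ((slotsOf dom f).map Prod.fst).count v := by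
  have h1 := congrArg (Multiset.count v) (bd_edgesOf F h2 dom f)
  rw [outOf_split F dom (Ly.innerSet O sn) f, out_inner Ly h2 h] at h1
  simp only [Multiset.count_add, Multiset.count_nsmul] at h1
  omega

lemma outOf_self {V W Λ : Type} [Fintype W] [Fintype Λ] (F : SimpleGraph Λ)
    (dom : W → Finset Λ) (f : W → Λ → V) : outOf F dom dom f = 0 := by
  unfold outOf
  refine Finset.sum_eq_zero fun w _ => Finset.sum_eq_zero fun a _ => ?_
  have : (cnt fun b => F.Adj a b ∧ b ∈ dom w ∧ b ∉ dom w) = 0 := by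
    rw [cnt_def]
    simp
  rw [this, zero_smul]

/-- The decomposition, as a family of bijections from the vertices of `F` to those of `G`. -/
theorem core (ε : ℝ) (hε : 0 < ε) : ∃ n0 : ℕ,
    ∀ (V W Λ : Type) [Fintype V] [Fintype W] [Fintype Λ] (G : SimpleGraph V) (F : SimpleGraph Λ)
      (md : Bool), n0 ≤ Fintype.card V → Fintype.card Λ = Fintype.card V →
      (∀ v, (cnt fun u => G.Adj v u) = 2 * Fintype.card W) → Env W G md ε →
      (∀ a, (cnt fun b => F.Adj a b) = 2) →
      (∀ (v : Λ) (c : F.Walk v v), c.IsCycle → Even c.length) → (md = false → NoC4 F) →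
      ∃ f : W → Λ → V, (slotsOf (fun _ => univ) f).Nodup ∧
        edgesOf F (fun _ => univ) f = (univ.filter fun e : Sym2 V => e ∈ G.edgeSet).val := by
  obtain ⟨e, he, heε, he1⟩ := exists_le2 hε one_pos
  obtain ⟨βA, hβA, hA⟩ := approx (e / 2) (by positivity)
  obtain ⟨η7, hη7, hη7a, hη7b⟩ := exists_le2 hβA (show 0 < e / 4 by positivity)
  obtain ⟨η6', hη6', hPre⟩ := pre e η7 he hη7
  obtain ⟨η6, hη6, hη6a, hη6b⟩ :=
    exists_le2 (show 0 < η6' / 2 by positivity) (show (0 : ℝ) < 1 / 40 by norm_num)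
  obtain ⟨η5, hη5, nE, hE⟩ := eabs e η6 he hη6
  obtain ⟨p, hp, hpa, hpb⟩ :=
    exists_le2 (show 0 < η5 / 4 by positivity) (show 0 < e / 8 by positivity)
  obtain ⟨η4, hη4, hη4a, hη4b⟩ :=
    exists_le2 (show 0 < η5 / 2 by positivity) (show 0 < e * p / 4 by positivity)
  obtain ⟨η3, hη3, nV, hV⟩ := vabs (e / 2) η4 (by positivity) hη4
  obtain ⟨ρ, hρ, hρa, hρb⟩ := exists_le2 (show 0 < η3 / 2 by positivity) one_pos
  obtain ⟨nR, hR⟩ := reserve e p ρ he hp (by linarith) hρ hρb
  obtain ⟨a, ha, haa, hab⟩ :=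
    exists_le2 (show 0 < e * p ^ 2 * ρ / 2 by positivity) (show 0 < e * ρ ^ 2 / 8 by positivity)
  obtain ⟨κ, hκ, hP⟩ := post a ha
  obtain ⟨κ1, hκ1, hκ1a, hκ1b⟩ := exists_le2 hκ ha
  obtain ⟨γP, hγP, nP, hP⟩ := hP (κ1 / 20) (by positivity)
  obtain ⟨γ', hγ', hγ'a, hγ'b⟩ :=
    exists_le2 (show 0 < γP / 2 by positivity) (show 0 < κ1 / 4 by positivity)
  obtain ⟨γA, hγA, hA⟩ := hA γ' hγ'
  obtain ⟨γ1, hγ1, hγ1a, hγ1b⟩ :=
    exists_le2 (show 0 < γP / 2 by positivity) (show 0 < γA / 2 by positivity)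
  obtain ⟨nPre, hPre⟩ := hPre γ1 hγ1
  obtain ⟨L, hL⟩ := exists_nat_ge (10 + 40 / κ1 + 4 / γA)
  obtain ⟨nA, hA⟩ := hA L
  obtain ⟨n1, hn1⟩ := exists_nat_ge (40 + 260 / κ1 + 8 / γA + 1 / η6)
  refine ⟨nE + nV + nR + nP + nPre + nA + n1, ?_⟩
  intro V W Λ _ _ _ G F md hn hΛ hdeg henv h2 hev hC4
  have hcol := colorable Λ F h2 hev
  have q1 : 0 < 40 / κ1 := by positivity
  have q2 : 0 < 4 / γA := by positivity
  have q3 : 0 < 260 / κ1 := by positivity
  have q4 : 0 < 8 / γA := by positivity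
  have q5 : 0 < 1 / η6 := by positivity
  have hnn1 : (n1 : ℝ) ≤ Fintype.card V := by exact_mod_cast (show n1 ≤ Fintype.card V by omega)
  generalize hnn : (Fintype.card V : ℝ) = n at hnn1
  have hn40 : 40 ≤ n := by linarith
  have hn0 : 0 < n := by linarith
  have hL10 : 10 ≤ L := by exact_mod_cast (show (10 : ℝ) ≤ L by linarith)
  have hL0 : (0 : ℝ) < L := by linarith
  have hLκ : 40 ≤ κ1 * L := num_div hκ1 (by linarith)
  have hLγ : 4 ≤ γA * L := num_div hγA (by linarith)
  have hnκ : 260 ≤ κ1 * n := num_div hκ1 (by linarith)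
  have hnγ : 8 ≤ γA * n := num_div hγA (by linarith)
  have hnη : 1 ≤ η6 * n := num_div hη6 (by linarith)
  have hκ18 : κ1 ≤ 1 / 8 := by
    have : e * ρ ^ 2 ≤ 1 := mul_le_one₀ he1 (sq_nonneg ρ) (pow_le_one₀ hρ.le hρb)
    linarith
  have mn : ∀ {x y : ℝ}, x ≤ y → x * n ≤ y * n := fun h => mul_le_mul_of_nonneg_right h hn0.le
  have c1 : 2 * ρ * n ≤ η3 * n := mn (by linarith)
  have c2 : η4 * n ≤ η5 * n := mn (by linarith)
  have c3 : 2 * p * n + η4 * n ≤ η5 * n := by
    have := mn (show 2 * p + η4 ≤ η5 by linarith)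
    linarith
  have c4 : 2 * (η4 * n) ≤ e * p / 2 * n := by
    have := mn (show 2 * η4 ≤ e * p / 2 by linarith)
    linarith
  have c5 : 11 / 20 * κ1 * n ≤ e * p ^ 2 * ρ / 2 * n := mn (by linarith)
  have c6 : η6 * n + 1 ≤ η6' * n := by
    have := mn (show 2 * η6 ≤ η6' by linarith)
    linarith
  have c7 : η7 * n ≤ βA * n := mn hη7a
  have c8 : γ1 * n + 1 ≤ γA * n := by
    have := mn hγ1b
    linarith
  have c9 : γ' * n ≤ γP * n := mn (by linarith)
  have c10 : γ1 * n + γ' * n ≤ γP * n := by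
    have := mn (show γ1 + γ' ≤ γP by linarith)
    linarith
  have c11 : 11 / 20 * κ1 * n + γ' * n ≤ κ * n := by
    have := mn (show 11 / 20 * κ1 + γ' ≤ κ by linarith)
    linarith
  have c12 : a * n ≤ e * p ^ 2 * ρ / 2 * n := mn haa
  have c13 : a * n ≤ e * ρ ^ 2 / 8 * n := mn hab
  have c14 : 0 ≤ γA * n := by positivity
  have g1 : nE ≤ Fintype.card V := by omega
  have g2 : nV ≤ Fintype.card V := by omega
  have g3 : nR ≤ Fintype.card V := by omega
  have g4 : nP ≤ Fintype.card V := by omega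
  have g5 : nPre ≤ Fintype.card V := by omega
  have g6 : nA ≤ Fintype.card V := by omega
  clear hn
  have hd2 : Dense G 2 e := henv.d2.mono heε
  have henv' : Env W G md e := ⟨hd2, fun h => (henv.d3 h).mono heε,
    (mul_le_mul_of_nonneg_right heε (Nat.cast_nonneg _)).trans henv.w1, henv.w2⟩
  -- the layout
  obtain ⟨M, hM1, hM2⟩ : ∃ M : ℕ, η6 * n ≤ M ∧ (M : ℝ) ≤ η6 * n + 1 :=
    ⟨⌈η6 * n⌉₊, Nat.le_ceil _, (Nat.ceil_lt_add_one (by positivity)).le⟩
  obtain ⟨K, hK1, hK2⟩ : ∃ K : ℕ, κ1 / 20 * n ≤ K ∧ (K : ℝ) ≤ κ1 / 20 * n + 1 :=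
    ⟨⌈κ1 / 20 * n⌉₊, Nat.le_ceil _, (Nat.ceil_lt_add_one (by positivity)).le⟩
  have hMpos : 1 ≤ M := by exact_mod_cast (show (1 : ℝ) ≤ M by linarith)
  obtain ⟨Ly⟩ := layout Λ F h2 hev M K L hMpos hL10 (by
    have : ((9 * (M + K) : ℕ) : ℝ) ≤ Fintype.card Λ := by
      rw [hΛ, hnn]
      push_cast
      exact num_layout hη6b hκ18 hn40 hM2 hK2
    exact_mod_cast this)
  have hPost : (Ly.Post.card : ℝ) ≤ 11 / 20 * κ1 * n := by
    have h1 : (L : ℝ) * Ly.Post.card ≤ L * (9 * K + 4) + 2 * n := by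
      have := Ly.post_card
      rw [hΛ] at this
      rw [← hnn]
      exact_mod_cast this
    exact num_post hL0 hn0 hLκ hnκ hK2 h1
  have hpaths : ((cnt fun u => Ly.s u < 2 * Ly.k u : ℕ) : ℝ) ≤ γA * n := by
    have h1 : (L : ℝ) * (cnt fun u => Ly.s u < 2 * Ly.k u : ℕ) ≤ 4 * L + 2 * n := by
      have := Ly.paths
      rw [hΛ] at this
      rw [← hnn]
      exact_mod_cast this
    exact num_paths hL0 hn0 hLγ hnγ h1
  -- the reserve
  obtain ⟨X0, Z, hX0, hX0d, hZv, hZw, hR1, hR2⟩ :=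
    hR V W G g3 hd2 henv'.w1 henv.w2
  rw [hnn] at hX0d hZv hZw hR1 hR2
  have hX0nd : ∀ e ∈ X0, ¬ e.IsDiag := fun e he => G.not_isDiag_of_mem_edgeSet (hX0 e he)
  have hZlow : ∀ w, Ly.Post.card ≤ (Z.val.map Prod.snd).count w := by
    intro w
    have h1 := hR1 w ∅ (by simp)
    have h3 : (cnt fun z => (z, w) ∈ Z ∧ ∀ q ∈ (∅ : Finset V), s(z, q) ∈ X0) ≤
        cnt fun z => (z, w) ∈ Z.val := cnt_mono fun z hz => hz.1
    rw [count_snd_eq_cnt Z.nodup]
    have h4 : (Ly.Post.card : ℝ) ≤ (cnt fun z => (z, w) ∈ Z.val : ℕ) := by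
      have h5 : ((cnt fun z => (z, w) ∈ Z ∧ ∀ q ∈ (∅ : Finset V), s(z, q) ∈ X0 : ℕ) : ℝ) ≤
        (cnt fun z => (z, w) ∈ Z.val : ℕ) := by exact_mod_cast h3
      linarith
    exact_mod_cast h4
  -- the vertex absorbers
  obtain ⟨X1, OV, ΦV, hV1, hV2, hV3, hV4, hV5⟩ := hV V W (del G X0.val) 0 Z.val g2
    ((hd2.del (b := 2 * p) (by positivity) fun v => by rw [hnn]; exact (hX0d v).2).mono
      (by linarith)) henv.w2
    ⟨Multiset.nodup_zero, Z.nodup,
      (fun v => by
        rw [bd_zero, Multiset.count_zero, Nat.cast_zero]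
        positivity),
      (fun v => by rw [hnn]; exact (hZv v).trans c1),
      (fun w => by rw [hnn]; exact (hZw w).trans c1)⟩
    Z (fun w => (Z.val.map Prod.snd).count w - Ly.Post.card) le_rfl (fun w => by
      rw [hnn]
      exact le_trans (Nat.cast_le.mpr (Nat.sub_le _ _)) ((hZw w).trans c1))
  rw [zero_add] at hV1
  have hXn : (X0.val + X1).Nodup := by
    rw [Multiset.nodup_add]
    refine ⟨X0.nodup, hV1.ne, ?_⟩
    rw [Multiset.disjoint_right]
    intro x hx
    exact (mem_del.mp (hV2 x hx)).2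
  have hXG : ∀ e ∈ X0.val + X1, e ∈ G.edgeSet := fun e he =>
    (Multiset.mem_add.mp he).elim (hX0 e) fun h => (mem_del.mp (hV2 e h)).1
  have hXok : Ok η5 (X0.val + X1) (Z.val + slots OV ΦV) := by
    refine ⟨hXn, hV1.ns, fun v => ?_, fun v => (hV1.lv v).trans ?_, fun w => (hV1.lw w).trans ?_⟩
    · have h1 := hV1.le v
      have h3 := (hX0d v).2
      rw [hnn] at h1 ⊢
      rw [bd_add, Multiset.count_add]
      push_cast
      linarith
    · rw [hnn]
      exact c2
    · rw [hnn]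
      exact c2
  have hr0 : ∀ v, 2 * (Z.val.map Prod.fst).count v + (sysDeg OV ΦV).count v ≤
      (bd (X0.val + X1)).count v := by
    intro v
    have h1 := hV1.lv v
    have h3 := (hX0d v).1
    rw [hnn] at h1
    have h4 : 2 * (Z.val.map Prod.fst).count v + (sysDeg OV ΦV).count v ≤
        2 * ((Z.val + slots OV ΦV).map Prod.fst).count v := by
      simp only [sysDeg, slots, Multiset.map_add, Multiset.count_add, Multiset.count_nsmul]
      omega
    have h5 : (bd X0.val).count v ≤ (bd (X0.val + X1)).count v := by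
      rw [bd_add, Multiset.count_add]
      omega
    have h6 : ((2 * ((Z.val + slots OV ΦV).map Prod.fst).count v : ℕ) : ℝ) ≤
        ((bd X0.val).count v : ℕ) := by
      rw [Nat.cast_mul, Nat.cast_ofNat]
      linarith
    have h7 : 2 * ((Z.val + slots OV ΦV).map Prod.fst).count v ≤ (bd X0.val).count v := by
      exact_mod_cast h6
    omega
  -- the edge absorber
  obtain ⟨A, OE, ΦE, r', hE1, hE2, hE3, hE4⟩ := hE V W G md (X0.val + X1) (Z.val + slots OV ΦV)
    g1 henv' hXok (X0.val + X1)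
    (fun v => (bd (X0.val + X1)).count v -
      (2 * (Z.val.map Prod.fst).count v + (sysDeg OV ΦV).count v)) le_rfl
    (fun e he => G.not_isDiag_of_mem_edgeSet (hXG e he))
    (fun v => le_trans (Nat.cast_le.mpr (Nat.sub_le _ _)) (hXok.le v))
  have hok6 : Ok η6 (X0.val + X1 + A) (Z.val + slots (OV + OE) (ΦV + ΦE)) := by
    rw [slots_add, ← add_assoc]
    exact hE1.ok
  -- embedding Pre
  obtain ⟨sn, f1, hP1, hP2, hP3, hP4⟩ := hPre V W Λ G F M K L Ly (X0.val + X1 + A) Z.val
    (OV + OE) (ΦV + ΦE) g5 hd2 henv.w2 h2 hcol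
    (fun h hh hd => hC4 (by
      rcases Multiset.mem_add.mp hh with h' | h'
      · rw [hV3 h h'] at hd
        exact absurd hd (by simp)
      · cases md
        · rfl
        · rw [hE1.sgl rfl h h'] at hd
          exact absurd hd (by simp)))
    (hok6.mono (by linarith) le_rfl le_rfl) hMpos
    (fun w => by
      have h1 := (hok6.mono le_rfl le_rfl (Multiset.le_add_left _ _)).lw w
      rw [hnn] at h1
      exact_mod_cast h1.trans hM1)
    (by rw [hnn]; linarith)
  generalize hInn : Ly.innerSet (OV + OE) sn = Inn at hP1 hP2 hP3 hP4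
  have hInnPre : ∀ w, Inn w ⊆ Ly.Pre := fun w => hInn ▸ innerSet_subset Ly _ sn w
  have hInnCard : ∀ w, (Inn w).card + Ly.Post.card = (ΦV.map Prod.snd).count w +
      (ΦE.map Prod.snd).count w + (Z.val.map Prod.snd).count w := by
    intro w
    have h1 := innerSet_card Ly hP1 w
    rw [hInn, Multiset.add_bind, Multiset.count_add, hV4 w, hE1.bal] at h1
    have := hZlow w
    omega
  generalize hB1 : edgesOf F (fun w => Ly.Pre \ Inn w) f1 = B1 at hP2 hP3
  generalize hS1 : slotsOf (fun w => Ly.Pre \ Inn w) f1 = S1 at hP2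
  have hUG : ∀ e ∈ X0.val + X1 + A + B1, e ∈ G.edgeSet := fun e he =>
    (Multiset.mem_add.mp he).elim
      (fun h => (Multiset.mem_add.mp h).elim (hXG e) (hE1.sub e)) (hP3 e)
  have hEG := eg_del G hP2.ne hUG
  generalize hG' : del G (X0.val + X1 + A + B1) = G' at hEG
  have hd' : Dense G' 2 (e / 2) := by
    rw [← hG']
    exact (hd2.del hη7.le hP2.le).mono (by linarith)
  obtain ⟨Free, hFree, hFmem'⟩ := exists_split (univ : Finset (V × W))
    ((Multiset.le_iff_subset hP2.ns).mpr fun s _ => Finset.mem_univ s)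
  have hFmem : ∀ s, s ∉ Free → s ∈ Z.val + S1 + (ΦV + ΦE) := fun s hs => by
    by_contra hc
    exact hs ((hFmem' s).mpr ⟨Finset.mem_univ _, hc⟩)
  have hdeg1 := hP1.deg h2
  rw [hInn, hB1, hS1] at hdeg1
  -- the degree identity
  have hid : ∀ v, 2 * (Free.val.map Prod.fst).count v ≤ (bd (eg G')).count v ∧
      (bd (eg G')).count v ≤ 2 * (Free.val.map Prod.fst).count v +
        (outOf F (fun w => Ly.Pre \ Inn w) (fun w => univ \ Inn w) f1).count v + 1 := by
    intro v
    have h1 := congrArg (fun X => (bd X).count v) hEG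
    have h3 := congrArg (fun S => (S.map Prod.fst).count v) hFree
    have h4 : (bd B1).count v + (((OV + OE).bind Hole.frame).map Prod.fst).count v +
      (outOf F (fun w => Ly.Pre \ Inn w) (fun w => univ \ Inn w) f1).count v =
      2 * (S1.map Prod.fst).count v := hdeg1 v
    have h5 := hE3 v
    have h6 := hE2 v
    have h7 := hr0 v
    rw [Multiset.add_bind, Multiset.map_add] at h4
    simp only [count_bd_eg G, hdeg v, count_fst_univ] at h1 h3
    simp only [sysDeg, bd_add, Multiset.map_add, Multiset.count_add,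
      Multiset.count_nsmul] at h1 h3 h4 h5 h6 h7
    omega
  have hFw : ∀ w, (Free.val.map Prod.snd).count w + Ly.Pre.card + Ly.Post.card =
      Fintype.card V := by
    intro w
    have h3 := congrArg (fun S => (S.map Prod.snd).count w) hFree
    have h4 := slotsOf_count_snd (fun w => Ly.Pre \ Inn w) f1 w
    rw [hS1, Finset.card_sdiff_of_subset (hInnPre w)] at h4
    have h5 := Finset.card_le_card (hInnPre w)
    have h6 := hInnCard w
    simp only [count_snd_univ, Multiset.map_add, Multiset.count_add] at h3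
    omega
  have hNib : (cnt fun a => a ∉ Ly.Pre ∧ a ∉ Ly.Post) + Ly.Pre.card + Ly.Post.card =
      Fintype.card V := by
    have h1 : (univ.filter fun a => a ∉ Ly.Pre ∧ a ∉ Ly.Post) = univ \ (Ly.Pre ∪ Ly.Post) := by
      ext a
      simp
    rw [cnt_def, h1, Finset.card_sdiff_of_subset (Finset.subset_univ _),
      Finset.card_union_of_disjoint Ly.disj, Finset.card_univ, ← hΛ]
    have := Finset.card_le_univ (Ly.Pre ∪ Ly.Post)
    rw [Finset.card_union_of_disjoint Ly.disj] at this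
    omega
  -- the nibble
  obtain ⟨dom2, f2, hA1, hA2, hA3, hA4, hA5, hA6⟩ := hA V W Λ G' F M K Ly Free g6 hd'
    ((mul_le_mul_of_nonneg_right (half_le_self he.le) (Nat.cast_nonneg _)).trans henv'.w1) henv.w2
    (fun w => by
      have h1 := hP2.lw w
      rw [count_snd_eq_cnt hP2.ns] at h1
      refine le_trans (Nat.cast_le.mpr (cnt_mono fun v hv => hFmem _ hv)) (h1.trans ?_)
      rw [hnn]
      exact c7)
    (fun v => by
      have h1 := hP2.lv v
      rw [count_fst_eq_cnt hP2.ns] at h1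
      refine le_trans (Nat.cast_le.mpr (cnt_mono fun w hw => hFmem _ hw)) (h1.trans ?_)
      rw [hnn]
      exact c7)
    (fun v => by
      have h1 := hid v
      have h3 := hP4 v
      rw [count_bd_eg, count_fst_eq_cnt Free.nodup] at h1
      have h4 : ((2 * (cnt fun w => (v, w) ∈ Free.val) : ℕ) : ℝ) ≤
        (cnt fun u => G'.Adj v u : ℕ) := by exact_mod_cast h1.1
      have h5 : ((cnt fun u => G'.Adj v u : ℕ) : ℝ) ≤
        ((2 * (cnt fun w => (v, w) ∈ Free.val) +
          (outOf F (fun w => Ly.Pre \ Inn w) (fun w => univ \ Inn w) f1).count v + 1 : ℕ) : ℝ) := by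
        exact_mod_cast h1.2
      push_cast at h4 h5
      rw [hnn] at h3 ⊢
      simp only [Finset.mem_val] at h4 h5
      rw [abs_le]
      constructor <;> linarith)
    (fun w => by
      have h1 := hFw w
      rw [count_snd_eq_cnt Free.nodup] at h1
      simp only [Finset.mem_val] at h1
      omega)
    (by rw [hnn]; exact hpaths)
  rw [hnn] at hA5 hA6
  generalize hN : edgesOf F dom2 f2 = N at hA3 hA4 hA5
  generalize hS2 : slotsOf dom2 f2 = S2 at hA2 hA6
  obtain ⟨LE, hLE⟩ : ∃ LE, eg G' = N + LE :=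
    Multiset.le_iff_exists_add.mp ((Multiset.le_iff_subset hA3).mpr fun e he =>
      mem_eg.mpr (hA4 e he))
  have hLEn : (N + LE).Nodup := hLE ▸ eg_nodup G'
  have hLEG : ∀ e ∈ LE, e ∈ G'.edgeSet := fun e he =>
    mem_eg.mp (hLE ▸ Multiset.mem_add.mpr (Or.inr he))
  have hLEd : ∀ v, (((bd LE).count v : ℕ) : ℝ) ≤ γ' * n := by
    intro v
    rw [count_bd_eq_cnt v (Multiset.nodup_add.mp hLEn).2.1
      fun e he => G'.not_isDiag_of_mem_edgeSet (hLEG e he)]
    refine le_trans (Nat.cast_le.mpr (cnt_mono fun u hu => ⟨hLEG _ hu, fun h => ?_⟩)) (hA5 v)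
    exact Multiset.disjoint_left.mp (Multiset.nodup_add.mp hLEn).2.2 h hu
  obtain ⟨LS, hLS, hLSmem⟩ := exists_split Free hA2
  have hLSw : ∀ w, (((LS.val.map Prod.snd).count w : ℕ) : ℝ) ≤ γ' * n := by
    intro w
    rw [count_snd_eq_cnt LS.nodup]
    exact le_trans (Nat.cast_le.mpr (cnt_mono fun v hv => (hLSmem _).mp hv)) (hA6 w)
  have hdeg2 : ∀ v, (outOf F dom2 (fun _ => univ) f2).count v +
      2 * (LS.val.map Prod.fst).count v ≤ (bd LE).count v := by
    intro v
    have h1 := congrArg (Multiset.count v) (bd_edgesOf F h2 dom2 f2)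
    have h3 := congrArg (fun X => (bd X).count v) hLE
    have h4 := congrArg (fun S => (S.map Prod.fst).count v) hLS
    have h5 := (hid v).1
    rw [hN, hS2] at h1
    simp only [bd_add, Multiset.map_add, Multiset.count_add, Multiset.count_nsmul] at h1 h3 h4
    omega
  -- gluing
  have hdisj : ∀ w, Disjoint (Ly.Pre \ Inn w) (dom2 w) := fun w =>
    Finset.disjoint_right.mpr fun x hx hx' => (hA1 w x hx).1 (Finset.mem_sdiff.mp hx').1
  obtain ⟨f3, hf31, hf32⟩ : ∃ f3 : W → Λ → V, (∀ w, ∀ x ∈ Ly.Pre \ Inn w, f3 w x = f1 w x) ∧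
      ∀ w, ∀ x ∈ dom2 w, f3 w x = f2 w x :=
    ⟨fun w x => if x ∈ dom2 w then f2 w x else f1 w x,
      fun w x hx => if_neg (Finset.disjoint_left.mp (hdisj w) hx), fun w x hx => if_pos hx⟩
  have hE3' : edgesOf F (fun w => (Ly.Pre \ Inn w) ∪ dom2 w) f3 = B1 + N := by
    rw [edgesOf_union F f3 hdisj, edgesOf_congr F hf31, edgesOf_congr F hf32, hB1, hN]
    intro w x hx y hy hxy
    rcases Ly.pre_nb x (Finset.mem_sdiff.mp hx).1 y hxy with h | h
    · exact (hA1 w y hy).1 h
    · exact (hA1 w y hy).2 h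
  have hS3' : slotsOf (fun w => (Ly.Pre \ Inn w) ∪ dom2 w) f3 = S1 + S2 := by
    rw [slotsOf_union f3 hdisj, slotsOf_congr hf31, slotsOf_congr hf32, hS1, hS2]
  have huniv : (univ : Finset (V × W)).val = S1 + S2 + LS.val + Z.val + (ΦV + ΦE) := by
    rw [hFree, hLS]
    abel
  have hsub : ∀ w, (Ly.Pre \ Inn w) ∪ dom2 w ⊆ univ \ Inn w := by
    intro w x hx
    simp only [Finset.mem_union, Finset.mem_sdiff, Finset.mem_univ, true_and] at hx ⊢
    rcases hx with h | h
    · exact h.2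
    · exact fun h' => (hA1 w x h).1 (hInnPre w h')
  -- the leftover
  obtain ⟨f4, B4, S4, hQ1, hQ2, hQ3, hQ4, hQ5⟩ := hP V W Λ F M K L Ly X0 Z LS LE
    (fun w => (Ly.Pre \ Inn w) ∪ dom2 w) (fun w => univ \ Inn w) f3 g4 henv.w2 h2 hcol
    (by rw [hnn]; exact hK1) (by linarith) hX0nd
    (fun w S hS => by rw [hnn]; exact c12.trans (hR1 w S hS))
    (fun u v => by rw [hnn]; exact c13.trans (hR2 u v))
    hsub
    (fun w x hx => by
      simp only [Finset.mem_sdiff, Finset.mem_univ, true_and]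
      exact fun h => Finset.disjoint_left.mp Ly.disj (hInnPre w h) hx)
    (fun w => Finset.disjoint_left.mpr fun x hx hx' => by
      rcases Finset.mem_union.mp hx with h | h
      · exact Finset.disjoint_left.mp Ly.disj (Finset.mem_sdiff.mp h).1 hx'
      · exact (hA1 w x h).2 hx')
    (by
      rw [hS3']
      exact Multiset.nodup_of_le (Multiset.le_add_right _ _) (huniv ▸ Finset.nodup _))
    (Multiset.nodup_add.mp hLEn).2.1 (fun e he => G'.not_isDiag_of_mem_edgeSet (hLEG e he))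
    (fun v => by rw [hnn]; exact (hLEd v).trans c9)
    (fun v => by
      rw [hnn]
      have h1 : (LS.val.map Prod.fst).count v ≤ (bd LE).count v := by
        have := hdeg2 v
        omega
      exact (Nat.cast_le.mpr h1).trans ((hLEd v).trans c9))
    (fun w => by rw [hnn]; exact (hLSw w).trans c9)
    (fun v => by
      have h1 := Multiset.count_le_of_le v
        (outOf_union_le F (fun w => Ly.Pre \ Inn w) dom2 (fun w => univ \ Inn w) f3)
      rw [outOf_congr F _ hf31, outOf_congr F _ hf32, Multiset.count_add] at h1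
      have h3 := Multiset.count_le_of_le v
        (outOf_mono F dom2 (tgt := fun w => univ \ Inn w) (tgt' := fun _ => univ) f2
          fun w => Finset.subset_univ _)
      have h4 := hdeg2 v
      have h5 := hP4 v
      have h6 := hLEd v
      have h7 : (outOf F (fun w => (Ly.Pre \ Inn w) ∪ dom2 w) (fun w => univ \ Inn w) f3).count v ≤
          (outOf F (fun w => Ly.Pre \ Inn w) (fun w => univ \ Inn w) f1).count v +
            (bd LE).count v := by omega
      rw [hnn] at h5 ⊢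
      refine (Nat.cast_le.mpr h7).trans ?_
      rw [Nat.cast_add]
      linarith)
    (fun w => by
      have h1 := Finset.card_sdiff_of_subset (hsub w)
      have h3 := Finset.card_union_of_disjoint (hdisj w)
      have h4 := Finset.card_sdiff_of_subset (hInnPre w)
      have h5 := Finset.card_sdiff_of_subset (Finset.subset_univ (Inn w))
      have h6 := Finset.card_le_card (hInnPre w)
      have h7 := slotsOf_count_snd dom2 f2 w
      have h8 := congrArg (fun S => (S.map Prod.snd).count w) hLS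
      have h9 := hFw w
      rw [hS2] at h7
      rw [Finset.card_univ, hΛ] at h5
      simp only [Multiset.map_add, Multiset.count_add] at h8
      have h10 : ((univ \ Inn w) \ ((Ly.Pre \ Inn w) ∪ dom2 w)).card ≤
          Ly.Post.card + (LS.val.map Prod.snd).count w := by omega
      have h11 := hLSw w
      rw [hnn]
      refine (Nat.cast_le.mpr h10).trans ?_
      rw [Nat.cast_add]
      linarith)
  rw [hE3'] at hQ2
  rw [hS3'] at hQ3
  have hP1' : Placed Ly (OV + OE) sn (fun w => univ \ Inn w) f4 :=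
    hP1.extend (fun w => Finset.sdiff_subset_sdiff (Finset.subset_univ _) le_rfl)
      (fun w x hx => (hQ1 w x (Finset.mem_union_left _ hx)).trans (hf31 w x hx))
      (fun w => by rw [hInn]; exact Finset.sdiff_disjoint)
  -- absorbing the vertices
  obtain ⟨Z', hZ', hZ'mem⟩ := exists_split Z hQ5
  have hZ'sub : Z' ⊆ Z := fun s hs => ((hZ'mem s).mp hs).1
  obtain ⟨MV, hMV1, hMV2⟩ := hV5 Z' hZ'sub fun w => by
    have h1 := congrArg (fun S => (S.map Prod.snd).count w) huniv
    have h3 := congrArg (fun S => (S.map Prod.snd).count w) hZ'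
    have h4 := slotsOf_count_snd (fun w => univ \ Inn w) f4 w
    have h5 := Finset.card_sdiff_of_subset (Finset.subset_univ (Inn w))
    have h6 := Finset.card_le_univ (Inn w)
    have h7 := hInnCard w
    rw [hQ3] at h4
    rw [Finset.card_univ, hΛ] at h5
    rw [hΛ] at h6
    simp only [count_snd_univ, Multiset.map_add, Multiset.count_add] at h1 h3 h4
    omega
  -- absorbing the edges
  obtain ⟨H0, hH0⟩ := Multiset.le_iff_exists_add.mp hQ4
  obtain ⟨H1, hH1⟩ := Multiset.le_iff_exists_add.mp hMV1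
  have hfin := hE4 (H0 + H1)
    (add_le_add (hH0 ▸ Multiset.le_add_left _ _) (hH1 ▸ Multiset.le_add_left _ _)) fun v => by
      have h1 := congrArg (fun X => (bd X).count v) hEG
      have h3 := congrArg (fun S => (S.map Prod.fst).count v) huniv
      have h4 : (bd (edgesOf F (fun w => univ \ Inn w) f4)).count v +
        (((OV + OE).bind Hole.frame).map Prod.fst).count v +
        (outOf F (fun w => univ \ Inn w) (fun w => univ \ Ly.innerSet (OV + OE) sn w) f4).count v =
        2 * ((slotsOf (fun w => univ \ Inn w) f4).map Prod.fst).count v := hP1'.deg h2 v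
      have h5 := hE3 v
      have h6 := congrArg (Multiset.count v) hMV2.deg
      have h7 := congrArg (fun S => (S.map Prod.fst).count v) hZ'
      rw [hInn, outOf_self, hQ2, hQ3, Multiset.add_bind, Multiset.map_add] at h4
      rw [hLE, hH0, hH1] at h1
      simp only [count_bd_eg G, hdeg v, count_fst_univ] at h1 h3
      simp only [sysDeg, bd_add, Multiset.map_add, Multiset.count_add,
        Multiset.count_nsmul, Multiset.count_zero] at h1 h3 h4 h5 h6 h7 ⊢
      omega
  subst hInn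
  obtain ⟨f5, hf51, hf52⟩ := fill Ly h2 hP1' (hMV2.add hfin)
  refine ⟨f5, ?_, ?_⟩
  · have : slotsOf (fun _ => univ) f5 = (univ : Finset (V × W)).val := by
      rw [hf52, hQ3, huniv, hZ']
      abel
    rw [this]
    exact Finset.nodup _
  · change _ = eg G
    rw [hf51, hQ2, hEG, hLE, hH0, hH1]
    abel

end Pool.Agent.Lib.MP_34bdde_co
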