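import Mathlib
import Pool.Agent.Lib.MP_34bdde_co.Core

set_option autoImplicit false

open Finset
open scoped Classical

noncomputable section

namespace Pool.Agent.Lib.MP_34bdde_co

lemma dense_of_deg {V : Type} [Fintype V] (G : SimpleGraph V) (d k : ℕ) (a : ℝ)
    (hd : ∀ v, (cnt fun u => G.Adj v u) = d) (hdn : d ≤ Fintype.card V)
    (ha : a * Fintype.card V ≤ Fintype.card V - k * (Fintype.card V - d : ℝ)) : Dense G k a := by
  intro S hS
  have h1 : ∀ q, (cnt fun z => ¬ G.Adj z q) + d = Fintype.card V := by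
    intro q
    rw [← hd q, cnt_def, cnt_def, ← Finset.card_univ,
      ← Finset.card_filter_add_card_filter_not (s := univ) (fun z => G.Adj q z), add_comm]
    congr 2
    ext z
    simp [G.adj_comm]
  have h2 : Fintype.card V ≤
      (cnt fun z => ∀ q ∈ S, G.Adj z q) + ∑ q ∈ S, cnt fun z => ¬ G.Adj z q := by
    simp only [cnt_def]
    refine le_trans ?_ (add_le_add_right Finset.card_biUnion_le _)
    refine le_trans (Finset.card_le_card ?_) (Finset.card_union_le _ _)
    intro z _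
    simp only [Finset.mem_filter, Finset.mem_univ, true_and, Finset.mem_union,
      Finset.mem_biUnion]
    by_cases hc : ∀ q ∈ S, G.Adj z q
    · exact Or.inl hc
    · push Not at hc
      exact Or.inr hc
  have h3 : ((∑ q ∈ S, cnt fun z => ¬ G.Adj z q : ℕ) : ℝ) = S.card * (Fintype.card V - d : ℝ) := by
    push_cast
    rw [Finset.sum_congr rfl (g := fun _ => (Fintype.card V - d : ℝ)) fun q _ => by
      rw [← h1 q]
      push_cast
      ring]
    rw [Finset.sum_const, nsmul_eq_mul]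
  have h4 : (Fintype.card V : ℝ) ≤ (cnt fun z => ∀ q ∈ S, G.Adj z q : ℕ) +
      ((∑ q ∈ S, cnt fun z => ¬ G.Adj z q : ℕ) : ℝ) := by exact_mod_cast h2
  have h5 : (S.card : ℝ) ≤ k := by exact_mod_cast hS
  have h6 : (0 : ℝ) ≤ Fintype.card V - d := by
    have : (d : ℝ) ≤ Fintype.card V := by exact_mod_cast hdn
    linarith
  nlinarith

lemma noC4_of_cycles {Λ : Type} (F : SimpleGraph Λ)
    (h : ∀ (v : Λ) (c : F.Walk v v), c.IsCycle → c.length ≠ 4) : NoC4 F := by
  intro a b c d hab hbc hcd hda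
  by_contra hne
  push Not at hne
  refine h a (.cons hab (.cons hbc (.cons hcd (.cons hda .nil)))) ?_ rfl
  have := hab.ne
  have := hbc.ne
  have := hcd.ne
  have := hda.ne
  rw [SimpleGraph.Walk.isCycle_def, SimpleGraph.Walk.isTrail_def]
  refine ⟨?_, by simp, ?_⟩
  · simp only [SimpleGraph.Walk.edges_cons, SimpleGraph.Walk.edges_nil, List.nodup_cons,
      List.mem_cons, Sym2.eq_iff, List.not_mem_nil, List.nodup_nil]
    grind
  · simp only [SimpleGraph.Walk.support_cons, SimpleGraph.Walk.support_nil, List.tail_cons,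
      List.nodup_cons, List.mem_cons, List.not_mem_nil, List.nodup_nil]
    grind

/-- From a family of maps to a decomposition into copies of `F`. -/
lemma decomp_of_maps {V W Λ : Type} [Fintype V] [Fintype W] [Fintype Λ] (G : SimpleGraph V)
    (F : SimpleGraph Λ) (hc : Fintype.card Λ = Fintype.card V) (f : W → Λ → V)
    (h1 : (slotsOf (fun _ => univ) f).Nodup)
    (h2 : edgesOf F (fun _ => univ) f = (univ.filter fun e : Sym2 V => e ∈ G.edgeSet).val) :
    ∃ H : W → SimpleGraph V, (∀ i, Nonempty (H i ≃g F)) ∧ (∀ i, H i ≤ G) ∧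
      ∀ e ∈ G.edgeSet, ∃! i, e ∈ (H i).edgeSet := by
  have hinj : ∀ w, Function.Injective (f w) := by
    intro w a b hab
    have h3 : ((univ : Finset Λ).val.map fun a => (f w a, w)).Nodup :=
      Multiset.nodup_of_le (Finset.single_le_sum
        (f := fun w => (univ : Finset Λ).val.map fun a => (f w a, w))
        (fun _ _ => Multiset.zero_le _) (Finset.mem_univ w)) h1
    exact Multiset.inj_on_of_nodup_map h3 a (Finset.mem_univ _) b (Finset.mem_univ _)
      (by rw [hab])
  let q : W → (Λ ≃ V) := fun w =>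
    Equiv.ofBijective (f w) ((Fintype.bijective_iff_injective_and_card _).mpr ⟨hinj w, hc⟩)
  let T : W → Multiset (Sym2 V) := fun w =>
    (univ.filter fun e : Sym2 Λ => e ∈ F.edgeSet ∧ ∀ a ∈ e, a ∈ (univ : Finset Λ)).val.map
      (Sym2.map (f w))
  have hT : ∀ w e, e ∈ (F.map (q w).toEmbedding).edgeSet ↔ e ∈ T w := by
    intro w e
    rw [SimpleGraph.edgeSet_map]
    simp only [T, Set.mem_image, Multiset.mem_map, Finset.filter_val, Multiset.mem_filter,
      Finset.mem_val, Finset.mem_univ, true_and, implies_true, and_true]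
    rfl
  have hsum : ∑ w, T w = (univ.filter fun e : Sym2 V => e ∈ G.edgeSet).val := h2
  refine ⟨fun w => F.map (q w).toEmbedding, fun w => ⟨(SimpleGraph.Iso.map (q w) F).symm⟩,
    fun w => ?_, fun e he => ?_⟩
  · rw [← SimpleGraph.edgeSet_subset_edgeSet]
    intro e he
    have h3 : e ∈ ∑ w, T w := Multiset.mem_sum.mpr ⟨w, Finset.mem_univ _, (hT w e).mp he⟩
    rw [hsum] at h3
    simpa using h3
  · have h3 : e ∈ ∑ w, T w := by
      rw [hsum]
      simpa using he
    obtain ⟨w, -, hw⟩ := Multiset.mem_sum.mp h3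
    refine ⟨w, (hT w e).mpr hw, fun w' hw' => ?_⟩
    by_contra hne
    have h4 : T w' + T w ≤ ∑ w, T w := by
      rw [← Finset.sum_pair hne]
      exact Finset.sum_le_sum_of_subset_of_nonneg (Finset.subset_univ _)
        fun _ _ _ => Multiset.zero_le _
    have h5 : (T w' + T w).Nodup := Multiset.nodup_of_le h4 (hsum ▸ Finset.nodup _)
    exact Multiset.disjoint_left.mp (Multiset.nodup_add.mp h5).2.2 ((hT w' e).mp hw') hw

/-- The decomposition under a condition on common neighbourhoods. -/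
theorem decomp_dense (ε : ℝ) (hε : 0 < ε) : ∃ n0 : ℕ, ∀ (V : Type) [Fintype V]
    (G F : SimpleGraph V) (d : ℕ), n0 ≤ Fintype.card V → Even d →
    (∀ v, (cnt fun u => G.Adj v u) = d) → (∀ v, (cnt fun u => F.Adj v u) = 2) →
    (∀ (v : V) (c : F.Walk v v), c.IsCycle → Even c.length) →
    (Dense G 3 ε ∨ (Dense G 2 ε ∧ ∀ (v : V) (c : F.Walk v v), c.IsCycle → c.length ≠ 4)) →
    ∃ (k : ℕ) (H : Fin k → SimpleGraph V), (∀ i, Nonempty (H i ≃g F)) ∧ (∀ i, H i ≤ G) ∧
      ∀ e ∈ G.edgeSet, ∃! i, e ∈ (H i).edgeSet := by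
  obtain ⟨n0, h⟩ := core ε hε
  refine ⟨n0 + 1, fun V _ G F d hn hd hG hF hev hcase => ?_⟩
  obtain ⟨k, rfl⟩ := hd
  obtain ⟨v⟩ : Nonempty V := Fintype.card_pos_iff.mp (by omega)
  have hdn : k + k ≤ Fintype.card V := hG v ▸ cnt_le_card _
  have hd2 : Dense G 2 ε := hcase.elim (fun h' S hS => h' S (by omega)) fun h' => h'.1
  have hw1 : ε * Fintype.card V ≤ 2 * Fintype.card (Fin k) := by
    have h1 : (cnt fun z => ∀ q ∈ ({v} : Finset V), G.Adj z q) ≤ k + k :=
      hG v ▸ cnt_mono fun z hz => (hz v (Finset.mem_singleton_self v)).symm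
    have h2 := (hd2 {v} (by simp)).trans (Nat.cast_le.2 h1)
    rw [Fintype.card_fin]
    push_cast at h2
    linarith
  have hw2 : Fintype.card (Fin k) ≤ Fintype.card V := by
    rw [Fintype.card_fin]
    omega
  have hG' : ∀ v, (cnt fun u => G.Adj v u) = 2 * Fintype.card (Fin k) := fun v => by
    rw [hG v, Fintype.card_fin]
    omega
  obtain ⟨f, hf1, hf2⟩ : ∃ f : Fin k → V → V, (slotsOf (fun _ => univ) f).Nodup ∧
      edgesOf F (fun _ => univ) f = (univ.filter fun e : Sym2 V => e ∈ G.edgeSet).val := by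
    rcases hcase with h' | h'
    · exact h V (Fin k) V G F true (by omega) rfl hG' ⟨hd2, fun _ => h', hw1, hw2⟩
        hF hev (by simp)
    · exact h V (Fin k) V G F false (by omega) rfl hG' ⟨hd2, by simp, hw1, hw2⟩ hF hev
        fun _ => noC4_of_cycles F h'.2
  exact ⟨k, decomp_of_maps G F rfl f hf1 hf2⟩

theorem decomp (ε : ℝ) (hε : 0 < ε) : ∃ n0 : ℕ, ∀ (V : Type) [Fintype V] (G F : SimpleGraph V)
    (d : ℕ), n0 ≤ Fintype.card V → Even d → (∀ v, (cnt fun u => G.Adj v u) = d) →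
    (∀ v, (cnt fun u => F.Adj v u) = 2) →
    (∀ (v : V) (c : F.Walk v v), c.IsCycle → Even c.length) →
    ((2 / 3 + ε) * Fintype.card V ≤ d ∨ ((1 / 2 + ε) * Fintype.card V ≤ d ∧
      ∀ (v : V) (c : F.Walk v v), c.IsCycle → c.length ≠ 4)) →
    ∃ (k : ℕ) (H : Fin k → SimpleGraph V), (∀ i, Nonempty (H i ≃g F)) ∧ (∀ i, H i ≤ G) ∧
      ∀ e ∈ G.edgeSet, ∃! i, e ∈ (H i).edgeSet := by
  obtain ⟨n0, h⟩ := decomp_dense ε hε
  refine ⟨n0 + 1, fun V _ G F d hn hd hG hF hev hcase => h V G F d (by omega) hd hG hF hev ?_⟩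
  obtain ⟨v⟩ : Nonempty V := Fintype.card_pos_iff.mp (by omega)
  have hdn : d ≤ Fintype.card V := hG v ▸ cnt_le_card _
  have hεn : 0 ≤ ε * Fintype.card V := by positivity
  exact hcase.imp (fun h' => dense_of_deg G _ 3 ε hG hdn (by push_cast; linarith))
    fun h' => ⟨dense_of_deg G _ 2 ε hG hdn (by push_cast; linarith [h'.1]), h'.2⟩

lemma dense_of_pairs {V : Type} [Fintype V] (G : SimpleGraph V) {a : ℝ}
    (hV : 2 ≤ Fintype.card V)
    (h : ∀ u v, u ≠ v → a * Fintype.card V ≤ (G.commonNeighbors u v).ncard) : Dense G 2 a := by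
  intro S hS
  obtain ⟨T, hT, h2⟩ := Finset.exists_superset_card_eq hS hV
  obtain ⟨u, v, huv, rfl⟩ := Finset.card_eq_two.1 h2
  refine (h u v huv).trans (Nat.cast_le.2 ?_)
  rw [cnt_def, ← Set.ncard_coe_finset]
  refine Set.ncard_le_ncard (fun z hz => ?_) (Set.toFinite _)
  simp only [Finset.coe_filter, Finset.mem_univ, true_and, Set.mem_ofPred_eq]
  intro q hq
  rcases Finset.mem_insert.1 (hT hq) with rfl | h3
  · exact hz.1.symm
  · rw [Finset.mem_singleton.1 h3]
    exact hz.2.symm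

lemma cnt_of_regular {V : Type} [Fintype V] (G : SimpleGraph V) [DecidableRel G.Adj] {d : ℕ}
    (h : G.IsRegularOfDegree d) (v : V) : (cnt fun u => G.Adj v u) = d := by
  rw [← h v, cnt_def, ← SimpleGraph.card_neighborFinset_eq_degree,
    SimpleGraph.neighborFinset_eq_filter]

end Pool.Agent.Lib.MP_34bdde_co
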